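import Pool.Agent.Lib.MP_e9c0f3_ag.DR.SD

/-! The universal property of algebraic differential forms. -/

namespace Pool.Agent.Lib.MP_e9c0f3_ag.DR

variable {B B' 𝒜 : Type} [CommRing B] [Algebra ℂ B] [CommRing B'] [Algebra ℂ B'] [Ring 𝒜]
  [Algebra ℂ 𝒜]

/-- `φ` is the map of differential algebras extending `ψ`. -/
structure IsDG (S : SD 𝒜) (ψ : B →ₐ[ℂ] 𝒜) (φ : Form B →+* 𝒜) : Prop where
  even : ∀ b, S.σ (ψ b) = ψ b
  alg : ∀ b, φ (algebraMap B (Form B) b) = ψ b
  map_dd : ∀ b, φ (dd b) = S.d (ψ b)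

theorem dg_omega_ind {P : Ω[B⁄ℂ] → Prop} (zero : P 0) (add : ∀ u v, P u → P v → P (u + v))
    (smul : ∀ (b : B) u, P u → P (b • u)) (D : ∀ b, P (KaehlerDifferential.D ℂ B b))
    (w : Ω[B⁄ℂ]) : P w := by
  have hw : w ∈ Submodule.span B (Set.range (KaehlerDifferential.D ℂ B)) := by
    rw [KaehlerDifferential.span_range_derivation]
    trivial
  induction hw using Submodule.span_induction with
  | mem x hx =>
    obtain ⟨b, rfl⟩ := hx
    exact D b
  | zero => exact zero
  | add x y _ _ hx hy => exact add x y hx hy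
  | smul a x _ hx => exact smul a x hx

theorem dg_dd_mem (b : B) : dd b ∈ ⋀[B]^1 Ω[B⁄ℂ] := by
  simp only [ExteriorAlgebra.exteriorPower, pow_one]
  exact LinearMap.mem_range_self _ _

theorem dg_span {n : ℕ} {ω : Form B} (hω : ω ∈ ⋀[B]^n Ω[B⁄ℂ]) :
    ω ∈ Submodule.span B {x : Form B | ∃ l : List B, l.length = n ∧ x = (l.map dd).prod} := by
  induction hω using Submodule.pow_induction_on_left' with
  | algebraMap r =>
    rw [Algebra.algebraMap_eq_smul_one]
    exact Submodule.smul_mem _ _ (Submodule.subset_span ⟨[], rfl, rfl⟩)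
  | add u v i _ _ hu hv => exact add_mem hu hv
  | mem_mul m hm i x hx ih =>
    obtain ⟨w, rfl⟩ := hm
    induction w using dg_omega_ind with
    | zero => rw [map_zero, zero_mul]; exact zero_mem _
    | add u v hu hv => rw [map_add, add_mul]; exact add_mem hu hv
    | smul b u hu => rw [map_smul, smul_mul_assoc]; exact Submodule.smul_mem _ _ hu
    | D b =>
      clear hx
      induction ih using Submodule.span_induction with
      | mem y hy =>
        obtain ⟨l, hl, rfl⟩ := hy
        exact Submodule.subset_span ⟨b :: l, by simp [hl], rfl⟩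
      | zero => rw [mul_zero]; exact zero_mem _
      | add y z _ _ hy hz => rw [mul_add]; exact add_mem hy hz
      | smul a y _ hy => rw [mul_smul_comm]; exact Submodule.smul_mem _ _ hy

theorem dg_map_trace {𝒞 𝒟 : Type} [Ring 𝒞] [Ring 𝒟] (f : 𝒞 →+* 𝒟) {ι : Type} [Fintype ι]
    [DecidableEq ι] (M M' : Matrix ι ι 𝒞) (n : ℕ) :
    f (M * M' ^ n).trace = (M.map f * M'.map f ^ n).trace := by
  have h2 : ∀ M : Matrix ι ι 𝒞, M.map f = f.mapMatrix M := fun _ => rfl
  rw [h2, h2, ← map_pow, ← map_mul]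
  exact AddMonoidHom.map_trace f _

theorem dg_prod {S : SD 𝒜} {ψ : B →ₐ[ℂ] 𝒜} {φ : Form B →+* 𝒜} (h : IsDG S ψ φ) (l : List B) :
    φ (l.map dd).prod = (l.map fun t => S.d (ψ t)).prod := by
  rw [map_list_prod, List.map_map]
  exact congrArg List.prod (List.map_congr_left fun a _ => h.map_dd a)

theorem exists_isDG (S : SD 𝒜) (ψ : B →ₐ[ℂ] 𝒜) (h : ∀ b, S.σ (ψ b) = ψ b) :
    ∃ φ, IsDG S ψ φ := by
  let _ : Algebra B 𝒜 := (ψ : B →+* 𝒜).toAlgebra' fun c x => S.comm_even _ x (h c)
  have hsm : ∀ (b : B) (x : 𝒜), b • x = ψ b * x := fun _ _ => rfl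
  have : IsScalarTower ℂ B 𝒜 := IsScalarTower.of_algebraMap_eq fun c => (ψ.commutes c).symm
  let D : Derivation ℂ B 𝒜 := Derivation.mk' (S.d ∘ₗ ψ.toLinearMap) fun a b => by
    change S.d (ψ (a * b)) = ψ a * S.d (ψ b) + ψ b * S.d (ψ a)
    rw [map_mul, S.d_mul_even (h a), S.comm_even _ (S.d (ψ a)) (h b), add_comm]
  have hD : ∀ b, D.liftKaehlerDifferential (KaehlerDifferential.D ℂ B b) = S.d (ψ b) :=
    fun b => D.liftKaehlerDifferential_comp_D b
  have hodd : ∀ w, S.σ (D.liftKaehlerDifferential w) = -D.liftKaehlerDifferential w := by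
    intro w
    induction w using dg_omega_ind with
    | zero => simp
    | add u v hu hv => rw [map_add, map_add, hu, hv, neg_add]
    | smul b u hu => rw [map_smul, hsm, map_mul, h, hu, mul_neg]
    | D b => rw [hD, S.odd_d (h b)]
  refine ⟨(ExteriorAlgebra.lift B ⟨D.liftKaehlerDifferential, fun w => S.odd_sq (hodd w)⟩).toRingHom,
    h, fun b => AlgHom.commutes _ b, fun b => ?_⟩
  exact (ExteriorAlgebra.lift_ι_apply _ _ _ _).trans (hD b)

theorem form_ext {𝒞 : Type} [Ring 𝒞] {φ φ' : Form B →+* 𝒞}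
    (h1 : ∀ b, φ (algebraMap B (Form B) b) = φ' (algebraMap B (Form B) b))
    (h2 : ∀ b, φ (dd b) = φ' (dd b)) : φ = φ' := by
  ext ω
  induction ω using ExteriorAlgebra.induction with
  | algebraMap r => exact h1 r
  | mul a b ha hb => rw [map_mul, map_mul, ha, hb]
  | add a b ha hb => rw [map_add, map_add, ha, hb]
  | ι w =>
    induction w using dg_omega_ind with
    | zero => simp
    | add u v hu hv => simp only [map_add, hu, hv]
    | smul b u hu => rw [map_smul, Algebra.smul_def, map_mul, map_mul, h1, hu]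
    | D b => exact h2 b

theorem dd_add (a b : B) : dd (a + b) = dd a + dd b := by
  simp only [dd, map_add]

theorem dd_mul (a b : B) : dd (a * b) = a • dd b + b • dd a := by
  simp only [dd, Derivation.leibniz, map_add, map_smul]

theorem dd_algebraMap (c : ℂ) : dd (algebraMap ℂ B c) = 0 := by
  simp only [dd, Derivation.map_algebraMap, map_zero]

theorem word_mem (b : B) (l : List B) : b • (l.map dd).prod ∈ ⋀[B]^l.length Ω[B⁄ℂ] := by
  refine Submodule.smul_mem _ b ?_
  induction l with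
  | nil => exact SetLike.one_mem_graded (fun i => ⋀[B]^i Ω[B⁄ℂ])
  | cons a l ih =>
    rw [List.map_cons, List.prod_cons, List.length_cons, add_comm]
    exact SetLike.mul_mem_graded (A := fun i => ⋀[B]^i Ω[B⁄ℂ]) (dg_dd_mem a) ih

/-- Forms of degree `n` are sums of words of length `n`. -/
theorem deg_ind {n : ℕ} (W : AddSubgroup (Form B))
    (h : ∀ (b : B) (l : List B), l.length = n → b • (l.map dd).prod ∈ W) {ω : Form B}
    (hω : ω ∈ ⋀[B]^n Ω[B⁄ℂ]) : ω ∈ W := by
  have h1 : ∀ b : B, b • ω ∈ W := by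
    have h2 := dg_span hω
    clear hω
    induction h2 using Submodule.span_induction with
    | mem x hx =>
      obtain ⟨l, hl, rfl⟩ := hx
      exact fun b => h b l hl
    | zero => intro b; rw [smul_zero]; exact zero_mem _
    | add x y _ _ hx hy => intro b; rw [smul_add]; exact add_mem (hx b) (hy b)
    | smul a x _ hx => intro b; rw [smul_smul]; exact hx _
  simpa using h1 1

theorem form_ind (W : AddSubgroup (Form B)) (h : ∀ (b : B) (l : List B), b • (l.map dd).prod ∈ W)
    (ω : Form B) : ω ∈ W := by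
  induction ω using DirectSum.Decomposition.inductionOn (fun i => ⋀[B]^i Ω[B⁄ℂ]) with
  | zero => exact zero_mem _
  | add u v hu hv => exact add_mem hu hv
  | @homogeneous j w => exact deg_ind W (fun b l _ => h b l) w.2

theorem exists_isD (ω : Form B) : ∃ η, IsD ω η := by
  have := form_ind ((AddSubgroup.closure {p : Form B × Form B | ∃ (b : B) (l : List B),
    p = (b • (l.map dd).prod, dd b * (l.map dd).prod)}).map (AddMonoidHom.fst _ _))
    (fun b l => ⟨_, AddSubgroup.subset_closure ⟨b, l, rfl⟩, rfl⟩) ω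
  obtain ⟨⟨u, η⟩, hp, rfl⟩ := this
  exact ⟨η, hp⟩

theorem IsExact.zero : IsExact (0 : Form B) := by
  exact ⟨0, zero_mem _⟩

theorem IsExact.add {ω η : Form B} (h : IsExact ω) (h' : IsExact η) : IsExact (ω + η) := by
  obtain ⟨u, hu⟩ := h
  obtain ⟨v, hv⟩ := h'
  exact ⟨u + v, add_mem hu hv⟩

theorem pull_alg (g : B →ₐ[ℂ] B') (b : B) :
    pull g (algebraMap B (Form B) b) = algebraMap B' (Form B') (g b) := by
  let _ := g.toRingHom.toAlgebra
  have : IsScalarTower ℂ B B' := IsScalarTower.of_algebraMap_eq fun c => (g.commutes c).symm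
  exact (AlgHom.commutes _ b).trans (IsScalarTower.algebraMap_apply B B' (Form B') b)

theorem pull_dd (g : B →ₐ[ℂ] B') (b : B) : pull g (dd b) = dd (g b) := by
  let _ := g.toRingHom.toAlgebra
  have : IsScalarTower ℂ B B' := IsScalarTower.of_algebraMap_eq fun c => (g.commutes c).symm
  refine (ExteriorAlgebra.lift_ι_apply _ _ _ _).trans ?_
  exact congrArg (ExteriorAlgebra.ι B') (KaehlerDifferential.map_D ℂ ℂ B B' b)

theorem dg_pull_bsmul (g : B →ₐ[ℂ] B') (b : B) (ω : Form B) :
    pull g (b • ω) = g b • pull g ω := by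
  rw [Algebra.smul_def, map_mul, pull_alg, Algebra.smul_def]

theorem pull_smul (g : B →ₐ[ℂ] B') (c : ℂ) (ω : Form B) : pull g (c • ω) = c • pull g ω := by
  rw [← algebraMap_smul B c ω, ← algebraMap_smul B' c, dg_pull_bsmul, g.commutes]

theorem pull_deg (g : B →ₐ[ℂ] B') {n : ℕ} {ω : Form B} (h : ω ∈ ⋀[B]^n Ω[B⁄ℂ]) :
    pull g ω ∈ ⋀[B']^n Ω[B'⁄ℂ] := by
  refine deg_ind ((⋀[B']^n Ω[B'⁄ℂ]).toAddSubgroup.comap (pull g).toAddMonoidHom) ?_ h
  rintro b l rfl
  change pull g _ ∈ ⋀[B']^l.length Ω[B'⁄ℂ]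
  have := word_mem (g b) (l.map g)
  rw [List.length_map, List.map_map] at this
  rw [dg_pull_bsmul, map_list_prod, List.map_map,
    show l.map (pull g ∘ dd) = l.map (dd ∘ g) from List.map_congr_left fun a _ => pull_dd g a]
  exact this

theorem pull_chw (g : B →ₐ[ℂ] B') (k : ℕ) {ι : Type} [Fintype ι] [DecidableEq ι]
    (e : Matrix ι ι B) : pull g (chw k e) = chw k (e.map g) := by
  have h1 : (e.map (algebraMap B (Form B))).map (pull g) = (e.map g).map (algebraMap B' (Form B')) :=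
    Matrix.ext fun i j => pull_alg g _
  have h2 : (e.map dd).map (pull g) = (e.map g).map dd := Matrix.ext fun i j => pull_dd g _
  rw [chw, chw, dg_map_trace, h1, h2]

theorem chw_deg (k : ℕ) {ι : Type} [Fintype ι] [DecidableEq ι] (e : Matrix ι ι B) :
    chw k e ∈ ⋀[B]^(2 * k) Ω[B⁄ℂ] := by
  have h1 : ∀ (n : ℕ) i j, (e.map dd ^ n) i j ∈ ⋀[B]^n Ω[B⁄ℂ] := by
    intro n
    induction n with
    | zero =>
      intro i j
      rw [pow_zero, Matrix.one_apply]
      split_ifs
      · exact SetLike.one_mem_graded (fun i => ⋀[B]^i Ω[B⁄ℂ])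
      · exact zero_mem _
    | succ n ih =>
      intro i j
      rw [pow_succ, Matrix.mul_apply]
      exact Submodule.sum_mem _ fun t _ =>
        SetLike.mul_mem_graded (A := fun i => ⋀[B]^i Ω[B⁄ℂ]) (ih i t) (dg_dd_mem _)
  refine Submodule.sum_mem _ fun i _ => ?_
  rw [Matrix.diag_apply, Matrix.mul_apply]
  refine Submodule.sum_mem _ fun t _ => ?_
  rw [Matrix.map_apply, ← Algebra.smul_def]
  exact Submodule.smul_mem _ _ (h1 _ t i)

theorem chw_submatrix (k : ℕ) {ι κ : Type} [Fintype ι] [DecidableEq ι] [Fintype κ]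
    [DecidableEq κ] (e : Matrix ι ι B) (u : κ ≃ ι) : chw k (e.submatrix u u) = chw k e := by
  have h1 : ∀ (M : Matrix ι ι (Form B)) (n : ℕ),
      M.submatrix u u ^ n = (M ^ n).submatrix u u := by
    intro M n
    induction n with
    | zero => rw [pow_zero, pow_zero, Matrix.submatrix_one_equiv]
    | succ n ih => rw [pow_succ, pow_succ, ih, Matrix.submatrix_mul_equiv]
  rw [chw, chw, ← Matrix.submatrix_map, ← Matrix.submatrix_map, h1, Matrix.submatrix_mul_equiv]
  exact Equiv.sum_comp u fun i => (e.map (algebraMap B (Form B)) * e.map dd ^ (2 * k)) i i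

/-- A matrix with constant entries has no Chern-Weil form in positive degree. -/
theorem chw_const {k : ℕ} (hk : 1 ≤ k) {ι : Type} [Fintype ι] [DecidableEq ι] (e : Matrix ι ι B)
    (h : ∀ i j, e i j = 0 ∨ e i j = 1) : chw k e = 0 := by
  have h1 : e.map dd = 0 := by
    ext i j : 1
    rcases h i j with h | h <;> simp [h, dd]
  rw [chw, h1, zero_pow (by omega), mul_zero, Matrix.trace_zero]

theorem dg_chw_mem (k : ℕ) {ι : Type} [Fintype ι] [DecidableEq ι] {e : Matrix ι ι B}
    (he : e * e = e) : chw k e ∈ Submodule.span ℂ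
      {γ | ∃ (n : ℕ) (e : Matrix (Fin n) (Fin n) B), e * e = e ∧ γ = chw k e} :=
  Submodule.subset_span ⟨_, e.submatrix (Fintype.equivFin ι).symm (Fintype.equivFin ι).symm, by
    rw [Matrix.submatrix_mul_equiv, he], (chw_submatrix k e _).symm⟩

theorem isAlg_of {k : ℕ} {ι κ : Type} [Fintype ι] [DecidableEq ι] [Fintype κ] [DecidableEq κ]
    {e : Matrix ι ι B} {e' : Matrix κ κ B} (he : e * e = e) (he' : e' * e' = e') {ω : Form B}
    (a a' : ℂ) (h : IsExact (ω - a • chw k e - a' • chw k e')) : IsAlg k ω := by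
  refine ⟨a • chw k e + a' • chw k e', add_mem (Submodule.smul_mem _ _ (dg_chw_mem k he))
    (Submodule.smul_mem _ _ (dg_chw_mem k he')), ?_⟩
  rwa [← sub_sub]

namespace IsDG

variable {S : SD 𝒜} {ψ : B →ₐ[ℂ] 𝒜} {φ : Form B →+* 𝒜}

theorem isD (h : IsDG S ψ φ) {ω η : Form B} (hD : IsD ω η) : φ η = S.d (φ ω) := by
  have hw : ∀ (b : B) (l : List B),
      φ (b • (l.map dd).prod) = ψ b * (l.map fun t => S.d (ψ t)).prod := by
    intro b l
    rw [Algebra.smul_def, map_mul, h.alg, dg_prod h]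
  have h0 : ∀ l : List B, S.d (l.map fun t => S.d (ψ t)).prod = 0 := by
    intro l
    induction l with
    | nil => exact S.d_one
    | cons a l ih => rw [List.map_cons, List.prod_cons, S.d_d_mul (h.even a), ih, mul_zero, neg_zero]
  have key : ∀ p ∈ AddSubgroup.closure {p : Form B × Form B | ∃ (b : B) (l : List B),
      p = (b • (l.map dd).prod, dd b * (l.map dd).prod)}, φ p.2 = S.d (φ p.1) := by
    intro p hp
    induction hp using AddSubgroup.closure_induction with
    | mem p hp =>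
      obtain ⟨b, l, rfl⟩ := hp
      change φ (dd b * _) = S.d (φ (b • _))
      rw [hw, S.d_mul, h0, mul_zero, add_zero, map_mul, h.map_dd, dg_prod h]
    | zero => simp
    | add p q _ _ hp hq => simp only [Prod.fst_add, Prod.snd_add, map_add, hp, hq]
    | neg p _ hp => simp only [Prod.fst_neg, Prod.snd_neg, map_neg, hp]
  exact key _ hD

theorem smul (h : IsDG S ψ φ) (c : ℂ) (ω : Form B) : φ (c • ω) = c • φ ω := by
  rw [← algebraMap_smul B c ω, Algebra.smul_def, map_mul, h.alg, ψ.commutes, Algebra.smul_def]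

theorem bsmul (h : IsDG S ψ φ) (b : B) (ω : Form B) : φ (b • ω) = ψ b * φ ω := by
  rw [Algebra.smul_def, map_mul, h.alg]

theorem word (h : IsDG S ψ φ) (b : B) (l : List B) :
    φ (b • (l.map dd).prod) = ψ b * (l.map fun t => S.d (ψ t)).prod := by
  rw [h.bsmul, dg_prod h]

theorem pull {ψ' : B' →ₐ[ℂ] 𝒜} {φ' : Form B' →+* 𝒜} (h : IsDG S ψ' φ') (g : B →ₐ[ℂ] B') :
    IsDG S (ψ'.comp g) (φ'.comp (pull g)) := by
  refine ⟨fun b => h.even _, fun b => ?_, fun b => ?_⟩
  · rw [RingHom.comp_apply, pull_alg, h.alg, AlgHom.comp_apply]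
  · rw [RingHom.comp_apply, pull_dd, h.map_dd, AlgHom.comp_apply]

theorem unique {φ' : Form B →+* 𝒜} (h : IsDG S ψ φ) (h' : IsDG S ψ φ') : φ = φ' := by
  exact form_ext (fun b => (h.alg b).trans (h'.alg b).symm)
    fun b => (h.map_dd b).trans (h'.map_dd b).symm

theorem chw (h : IsDG S ψ φ) (k : ℕ) {ι : Type} [Fintype ι] [DecidableEq ι] (e : Matrix ι ι B) :
    φ (chw k e) = S.ch k (e.map ψ) := by
  have h1 : (e.map (algebraMap B (Form B))).map φ = e.map ψ := Matrix.ext fun i j => h.alg _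
  have h2 : (e.map dd).map φ = (e.map ψ).map S.d := Matrix.ext fun i j => h.map_dd _
  rw [DR.chw, SD.ch, dg_map_trace, h1, h2]

/-- If `φ` is injective, exactness is detected in the target. -/
theorem exact_of (h : IsDG S ψ φ) (hφ : Function.Injective φ) {ω μ : Form B}
    (e : φ ω = S.d (φ μ)) : IsExact ω := by
  obtain ⟨η, hη⟩ := exists_isD μ
  rw [hφ (e.trans (h.isD hη).symm)]
  exact ⟨μ, hη⟩

end IsDG

end Pool.Agent.Lib.MP_e9c0f3_ag.DR
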