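import Pool.Agent.Lib.MP_e9c0f3_ag.DR.Id2
import Pool.Agent.Lib.MP_e9c0f3_ag.DR.DG

/-! Comparison of abstract forms with polynomial forms. -/

open MvPolynomial Sum

namespace Pool.Agent.Lib.MP_e9c0f3_ag.DR

open Om

variable {N : ℕ} {A : Type} [CommRing A] [Algebra ℂ A]

/-- The coordinate ring of the cone. -/
abbrev TT (F : Pol N A) : Type := RR N A ⧸ relJ F

/-- The inclusion of invariant functions. -/
noncomputable def inc (F : Pol N A) : Jou F →ₐ[ℂ] TT F := (Subalgebra.val _).restrictScalars ℂ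

/-- Functions as forms. -/
noncomputable def psiT (F : Pol N A) : TT F →ₐ[ℂ] OO N A ⧸ JJ F :=
  Ideal.Quotient.liftₐ (relJ F) ((Ideal.Quotient.mkₐ ℂ (JJ F)).comp of) fun _ h =>
    Ideal.Quotient.eq_zero_iff_mem.2 (of_mem_JJ h)

theorem psiT_mk (F : Pol N A) (r : RR N A) :
    psiT F (Ideal.Quotient.mk _ r) = Ideal.Quotient.mk _ (of r) := rfl

theorem psiT_even (F : Pol N A) (t : TT F) : (ST F).σ (psiT F t) = psiT F t := by
  obtain ⟨r, rfl⟩ := Ideal.Quotient.mk_surjective t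
  exact congrArg (Ideal.Quotient.mk (JJ F)) (sg_of r)

/-- Forms on the cone as polynomial forms. -/
noncomputable def phiT (F : Pol N A) : Form (TT F) →+* OO N A ⧸ JJ F :=
  (exists_isDG (ST F) (psiT F) (psiT_even F)).choose

theorem isDG_T (F : Pol N A) : IsDG (ST F) (psiT F) (phiT F) :=
  (exists_isDG (ST F) (psiT F) (psiT_even F)).choose_spec

/-- Forms on the torsor as polynomial forms. -/
noncomputable def phiB (F : Pol N A) : Form (Jou F) →+* OO N A ⧸ JJ F :=
  (phiT F).comp (pull (inc F))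

theorem isDG_B (F : Pol N A) : IsDG (ST F) ((psiT F).comp (inc F)) (phiB F) :=
  (isDG_T F).pull (inc F)

variable {F : Pol N A}

omit [Algebra ℂ A] in
theorem bt_monomial (F : Pol N A) (n : ℕ) (m : Fin N ⊕ Fin N →₀ ℕ) (h1 : da m = n)
    (h2 : db m = n) : Ideal.Quotient.mk (relJ F) (monomial m 1) ∈
      Algebra.adjoin A (Set.range fun ij : Fin N × Fin N => xy F ij.1 ij.2) := by
  induction n generalizing m with
  | zero =>
    have h0 : m = 0 := Finsupp.ext fun s => by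
      cases s with
      | inl i => exact gr2_of_da h1 i
      | inr i => exact gr2_of_db h2 i
    rw [h0, monomial_zero', C_1, map_one]
    exact one_mem _
  | succ n ih =>
    obtain ⟨i, -, hi⟩ := Finset.exists_ne_zero_of_sum_ne_zero (s := Finset.univ)
      (f := fun i => (m (inl i) : ℤ)) fun e => by
        rw [da, e] at h1
        omega
    obtain ⟨u, rfl⟩ : ∃ u, m = u + Finsupp.single (inl i) 1 :=
      ⟨_, (Finsupp.sub_add_single_one_cancel (by exact_mod_cast hi)).symm⟩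
    rw [gr2_da_add, gr2_da_inl] at h1
    rw [gr2_db_add, gr2_db_inl] at h2
    obtain ⟨j, -, hj⟩ := Finset.exists_ne_zero_of_sum_ne_zero (s := Finset.univ)
      (f := fun j => (u (inr j) : ℤ)) fun e => by
        rw [db, e] at h2
        omega
    obtain ⟨w, rfl⟩ : ∃ w, u = w + Finsupp.single (inr j) 1 :=
      ⟨_, (Finsupp.sub_add_single_one_cancel (by exact_mod_cast hj)).symm⟩
    rw [gr2_da_add, gr2_da_inr] at h1
    rw [gr2_db_add, gr2_db_inr] at h2
    have h3 : (monomial (w + Finsupp.single (inr j) 1 + Finsupp.single (inl i) 1) 1 : RR N A) =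
        monomial w 1 * (X (inl i) * X (inr j)) := by
      rw [monomial_add_single, monomial_add_single, pow_one, pow_one, mul_assoc, mul_comm (X _)]
    rw [h3, map_mul]
    exact mul_mem (ih w (by omega) (by omega)) (Algebra.subset_adjoin ⟨(i, j), rfl⟩)

theorem jou_mem {r : RR N A} (h : IsWeightedHomogeneous (vw N) r 0) :
    ∃ b : Jou F, inc F b = Ideal.Quotient.mk _ r := by
  refine ⟨⟨Ideal.Quotient.mk _ r, ?_⟩, rfl⟩
  have h1 := of_mem_iff.1 (of_mem_vw.2 h)
  rw [r.as_sum, map_sum]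
  refine sum_mem fun m hm => ?_
  have h2 : da m - db m = 0 := h1 m hm
  have h3 : 0 ≤ da m := Finset.sum_nonneg fun _ _ => Int.natCast_nonneg _
  rw [← mul_one (coeff m r), ← C_mul_monomial, map_mul]
  exact mul_mem (Subalgebra.algebraMap_mem _ (coeff m r))
    (bt_monomial F (da m).toNat m (by omega) (by omega))

theorem jou_lift (b : Jou F) :
    ∃ r : RR N A, IsWeightedHomogeneous (vw N) r 0 ∧ inc F b = Ideal.Quotient.mk _ r := by
  obtain ⟨b, hb⟩ := b
  change ∃ r : RR N A, IsWeightedHomogeneous (vw N) r 0 ∧ b = Ideal.Quotient.mk _ r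
  induction hb using Algebra.adjoin_induction with
  | mem x hx =>
    obtain ⟨ij, rfl⟩ := hx
    exact ⟨_, (isWeightedHomogeneous_X A (vw N) (inl ij.1)).mul
      (isWeightedHomogeneous_X A (vw N) (inr ij.2)), rfl⟩
  | algebraMap a => exact ⟨C a, isWeightedHomogeneous_C _ _, rfl⟩
  | add x y _ _ hx hy =>
    obtain ⟨r, hr, rfl⟩ := hx
    obtain ⟨t, ht, rfl⟩ := hy
    exact ⟨r + t, hr.add ht, rfl⟩
  | mul x y _ _ hx hy =>
    obtain ⟨r, hr, rfl⟩ := hx
    obtain ⟨t, ht, rfl⟩ := hy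
    exact ⟨r * t, hr.mul ht, rfl⟩

theorem bt_alg {b : Jou F} {r : RR N A} (h : inc F b = Ideal.Quotient.mk _ r) (ω : Form (Jou F)) :
    phiB F (b • ω) = Ideal.Quotient.mk _ (of r) * phiB F ω := by
  rw [(isDG_B F).bsmul, AlgHom.comp_apply, h, psiT_mk]

theorem bt_dd {b : Jou F} {r : RR N A} (h : inc F b = Ideal.Quotient.mk _ r) :
    phiB F (dd b) = Ideal.Quotient.mk _ (dx (of r)) := by
  rw [(isDG_B F).map_dd, AlgHom.comp_apply, h, psiT_mk, ST_d]

theorem bt_of_mem {r : RR N A} (h : IsWeightedHomogeneous (vw N) r 0) :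
    (of r : OO N A) ∈ Sp N A fun a b p q => a - b = 0 ∧ p = 0 ∧ q = 0 :=
  Sp_inf (of_mem_vw.2 h) (of_mem_zero r)

theorem bt_cons {B : Type} [CommRing B] [Algebra ℂ B] (b t : B) (l : List B) :
    b • ((t :: l).map dd).prod = dd t * (b • (l.map dd).prod) := by
  rw [List.map_cons, List.prod_cons, mul_smul_comm]

theorem bt_word (b : Jou F) (l : List (Jou F)) :
    ∃ x ∈ Sp N A fun a b p q => p + q = l.length ∧ a + p - b - q = 0,
      iv x = 0 ∧ Ideal.Quotient.mk _ x = phiB F (b • (l.map dd).prod) := by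
  induction l with
  | nil =>
    obtain ⟨r, hr, e⟩ := jou_lift b
    refine ⟨of r, Sp_mono (bt_of_mem hr) fun a b p q _ _ _ _ _ _ h => ?_, io_of _ _, ?_⟩
    · rw [List.length_nil]
      omega
    · rw [bt_alg e, List.map_nil, List.prod_nil, map_one, mul_one]
  | cons t l ih =>
    obtain ⟨r, hr, e⟩ := jou_lift t
    obtain ⟨x, h1, h2, h3⟩ := ih
    have h4 : iv (dx (of r : OO N A)) = 0 := by
      have h5 := eu_v (n := 0) (Sp_mono (bt_of_mem hr) fun a b p q _ _ _ _ _ _ h => by omega)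
      rwa [show iv (of r : OO N A) = 0 from io_of _ _, map_zero, add_zero, zero_smul] at h5
    refine ⟨dx (of r) * x, Sp_mul (dx_mem (U := fun a b p q => p + q = 1 ∧ a + p - b - q = 0)
      (bt_of_mem hr) fun a b p q h => by omega) h1 fun a b p q a' b' p' q' h h' => ?_, ?_, ?_⟩
    · rw [List.length_cons]
      omega
    · exact (io_mul _ _ _).trans (by
        rw [show io _ (dx (of r : OO N A)) = 0 from h4, show io _ x = 0 from h2, zero_mul, mul_zero,
          add_zero])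
    · rw [bt_cons, map_mul, map_mul, h3, bt_dd e]

theorem lift_deg {n : ℕ} {ω : Form (Jou F)} (h : ω ∈ ⋀[Jou F]^n Ω[Jou F⁄ℂ]) :
    ∃ x ∈ Sp N A fun a b p q => p + q = n ∧ a + p - b - q = 0,
      Ideal.Quotient.mk _ x = phiB F ω := by
  refine deg_ind (((Sp N A fun a b p q => p + q = n ∧ a + p - b - q = 0).toAddSubgroup.map
    (Ideal.Quotient.mk (JJ F)).toAddMonoidHom).comap (phiB F).toAddMonoidHom) ?_ h
  rintro b l rfl
  obtain ⟨x, h1, -, h3⟩ := bt_word b l
  exact ⟨x, h1, h3⟩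

theorem phiB_base {k : ℕ} (hk : 1 ≤ k) {ω : Form (Jou F)} (h : ω ∈ base k F) : phiB F ω = 0 := by
  obtain ⟨k, rfl⟩ := Nat.exists_eq_add_of_le' hk
  refine (Ideal.span_le.2 ?_ : base (k + 1) F ≤ RingHom.ker (phiB F)) h
  rintro _ ⟨a, rfl⟩
  rw [SetLike.mem_coe, RingHom.mem_ker, List.ofFn_succ, List.prod_cons, map_mul,
    bt_dd (r := C (a 0)) rfl, dx_C, map_zero, zero_mul]

/-- Forms with a lift that contains at least `k` of the `dx`. -/
def bt_K (F : Pol N A) (k : ℕ) : Ideal (Form (Jou F)) where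
  carrier := {ω | ∃ x ∈ Sp N A fun _ _ p _ => k ≤ p, Ideal.Quotient.mk _ x = phiB F ω}
  add_mem' := by
    rintro _ _ ⟨x, h1, h2⟩ ⟨y, h3, h4⟩
    exact ⟨x + y, add_mem h1 h3, by rw [map_add, map_add, h2, h4]⟩
  zero_mem' := ⟨0, zero_mem _, by rw [map_zero, map_zero]⟩
  smul_mem' := by
    rintro η _ ⟨x, h1, h2⟩
    obtain ⟨z, hz⟩ := Ideal.Quotient.mk_surjective (phiB F η)
    refine ⟨z * x, Sp_mul (Sp_mono (T := fun _ _ p _ => 0 ≤ p) (Sp_top z)
      fun a b p q _ _ _ _ _ _ _ => by omega) h1 fun a b p q a' b' p' q' h h' => by omega, ?_⟩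
    rw [smul_eq_mul, map_mul, map_mul, hz, h2]

theorem bt_K_prod (l : List (Form (Jou F))) (h : ∀ ω ∈ l, ω ∈ bt_K F 1) :
    l.prod ∈ bt_K F l.length := by
  induction l with
  | nil => exact ⟨1, one_mem_Sp le_rfl, by rw [List.prod_nil, map_one, map_one]⟩
  | cons ω l ih =>
    obtain ⟨x, h1, h2⟩ := h ω List.mem_cons_self
    obtain ⟨y, h3, h4⟩ := ih fun η hη => h η (List.mem_cons_of_mem _ hη)
    refine ⟨x * y, Sp_mul h1 h3 fun a b p q a' b' p' q' h h' => ?_, ?_⟩
    · rw [List.length_cons]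
      omega
    · rw [List.prod_cons, map_mul, map_mul, h2, h4]

theorem bt_gen (i j a : Fin N) :
    prj F i a • dd (prj F j a) - prj F j a • dd (prj F i a) ∈ bt_K F 1 := by
  have h0 : ∀ i, inc F (prj F i a) = Ideal.Quotient.mk _ (X (inl i) * X (inr a)) := fun _ => rfl
  have h1 : ∀ i j : Fin N, (of (X (inl i) * X (inr a)) : OO N A) * dx (of (X (inl j) * X (inr a))) =
      of (X (inl i) * X (inr a)) * (e (inl j) * of (X (inr a))) +
        of (X (inl i) * X (inr a) * X (inl j)) * e (inr a) := fun i j => by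
    rw [map_mul of (X (inl j)), dx_of_mul, dx_X, dx_X, mul_add, map_mul of _ (X (inl j)), mul_assoc]
  have h2 : ∀ i j : Fin N, (of (X (inl i) * X (inr a)) : OO N A) * (e (inl j) * of (X (inr a))) ∈
      Sp N A fun _ _ p _ => (1 : ℕ) ≤ p := fun i j =>
    Sp_mul (of_mem_zero _) (Sp_mul (U := fun _ _ p _ => p = 1)
      (e_inl_mem (S := fun _ _ p _ => p = 1) j rfl) (of_mem_zero _)
      fun a b p q a' b' p' q' h h' => by omega) fun a b p q a' b' p' q' h h' => by omega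
  refine ⟨_, sub_mem (h2 i j) (h2 j i), ?_⟩
  rw [map_sub (phiB F), bt_alg (h0 i), bt_alg (h0 j), bt_dd (h0 i), bt_dd (h0 j), ← map_mul,
    ← map_mul, h1, h1, ← map_sub, show (X (inl i) * X (inr a) * X (inl j) : RR N A) =
      X (inl j) * X (inr a) * X (inl i) by ring, add_sub_add_right_eq_sub]

theorem lift_hodge {d k n : ℕ} (hF : F.IsHomogeneous d) {ω : Form (Jou F)}
    (h : ω ∈ ⋀[Jou F]^n Ω[Jou F⁄ℂ]) (h' : ω ∈ hodge k F ⊔ base 1 F) :
    ∃ x ∈ Sp N A fun a b p q => p + q = n ∧ a + p - b - q = 0 ∧ k ≤ p,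
      Ideal.Quotient.mk _ x = phiB F ω := by
  have h0 : hodge k F ⊔ base 1 F ≤ bt_K F k := by
    refine sup_le (Ideal.span_le.2 ?_) fun η hη =>
      ⟨0, zero_mem _, by rw [map_zero, phiB_base le_rfl hη]⟩
    rintro _ ⟨i, j, a, rfl⟩
    have h1 := bt_K_prod (F := F) (List.ofFn fun t => prj F (i t) (a t) • dd (prj F (j t) (a t)) -
      prj F (j t) (a t) • dd (prj F (i t) (a t))) fun η hη => by
        obtain ⟨t, rfl⟩ := (List.mem_ofFn' _ _).1 hη
        exact bt_gen _ _ _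
    rwa [List.length_ofFn] at h1
  obtain ⟨y, h1, h2⟩ := h0 h'
  obtain ⟨x, h3, h4⟩ := lift_deg h
  have h5 := cut_JJ hF (fun s v => s = n ∧ v = 0) (Ideal.Quotient.eq.1 (h2.trans h4.symm))
  rw [map_sub, cut_of_mem h3] at h5
  exact ⟨_, Sp_mono (cut_mem_of (fun a b p q => p + q = n ∧ a + p - b - q = 0) h1)
    fun a b p q _ _ _ _ _ _ h => ⟨h.1.1, h.1.2, h.2⟩, (Ideal.Quotient.eq.2 h5).trans h4⟩

theorem iv_lift {d : ℕ} (hF : F.IsHomogeneous d) {ω : Form (Jou F)} {x : OO N A}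
    (h : Ideal.Quotient.mk _ x = phiB F ω) : iv x ∈ JJ F := by
  obtain ⟨y, h1, h2⟩ := form_ind (((LinearMap.ker (iv : OO N A →ₗ[ℂ] OO N A)).toAddSubgroup.map
    (Ideal.Quotient.mk (JJ F)).toAddMonoidHom).comap (phiB F).toAddMonoidHom) (fun b l => by
      obtain ⟨x, -, h2, h3⟩ := bt_word b l
      exact ⟨x, h2, h3⟩) ω
  have h3 := iv_JJ hF (Ideal.Quotient.eq.1 (h.trans h2.symm))
  rwa [map_sub, show iv y = 0 from h1, sub_zero] at h3

end Pool.Agent.Lib.MP_e9c0f3_ag.DR
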