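import Pool.Agent.Lib.MP_e9c0f3_ag.DR.BT

/-! The tautological projector, fibres, splitting of invariant forms. -/

open MvPolynomial Sum

namespace Pool.Agent.Lib.MP_e9c0f3_ag.DR

open Om

section Abstract

variable {𝒜 ι : Type} [Ring 𝒜] [Algebra ℂ 𝒜] [Fintype ι]

/-- Two families of even elements with pairing one. -/
structure Bt2Pair (S : SD 𝒜) (x y : ι → 𝒜) : Prop where
  hx : ∀ i, S.σ (x i) = x i
  hy : ∀ i, S.σ (y i) = y i
  one : ∑ i, x i * y i = 1

namespace Bt2Pair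

variable {S : SD 𝒜} {x y : ι → 𝒜} {θ : 𝒜}

theorem cx (h : Bt2Pair S x y) (i : ι) (a : 𝒜) : a * x i = x i * a :=
  (S.comm_even _ a (h.hx i)).symm

theorem cy (h : Bt2Pair S x y) (i : ι) (a : 𝒜) : a * y i = y i * a :=
  (S.comm_even _ a (h.hy i)).symm

theorem odd (h : Bt2Pair S x y) (hθ : θ = ∑ i, y i * S.d (x i)) : S.σ θ = -θ := by
  rw [hθ, map_sum, ← Finset.sum_neg_distrib]
  exact Finset.sum_congr rfl fun i _ => by rw [map_mul, h.hy, S.odd_d (h.hx i), mul_neg]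

theorem dy (h : Bt2Pair S x y) (hθ : θ = ∑ i, y i * S.d (x i)) :
    ∑ i, x i * S.d (y i) = -θ := by
  have h1 := congrArg S.d h.one
  rw [S.d_one, map_sum, Finset.sum_congr rfl fun i _ => S.d_mul_even (h.hx i) (y i),
    Finset.sum_add_distrib, Finset.sum_congr rfl fun i _ => h.cy i (S.d (x i)), ← hθ] at h1
  exact eq_neg_of_add_eq_zero_right h1

theorem dth (h : Bt2Pair S x y) (hθ : θ = ∑ i, y i * S.d (x i)) :
    S.d θ = ∑ i, S.d (y i) * S.d (x i) := by
  rw [hθ, map_sum]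
  exact Finset.sum_congr rfl fun i _ => by rw [S.d_mul_even (h.hy i), S.d_d, mul_zero, add_zero]

theorem dP_x (h : Bt2Pair S x y) (hθ : θ = ∑ i, y i * S.d (x i)) (i : ι) :
    ∑ j, S.d (x i * y j) * x j = S.d (x i) - x i * θ := by
  have e : ∀ j, S.d (x i * y j) * x j = S.d (x i) * (x j * y j) + x i * (x j * S.d (y j)) :=
    fun j => by rw [S.d_mul_even (h.hx i), add_mul, mul_assoc, mul_assoc, h.cx j, h.cx j]
  rw [Finset.sum_congr rfl fun j _ => e j, Finset.sum_add_distrib, ← Finset.mul_sum,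
    ← Finset.mul_sum, h.one, h.dy hθ, mul_one, mul_neg, sub_eq_add_neg]

theorem dP_y (h : Bt2Pair S x y) (hθ : θ = ∑ i, y i * S.d (x i)) (j : ι) :
    ∑ i, S.d (x i * y j) * y i = S.d (y j) + y j * θ := by
  have e : ∀ i, S.d (x i * y j) * y i = y j * (y i * S.d (x i)) + S.d (y j) * (x i * y i) :=
    fun i => by
      rw [S.d_mul_even (h.hx i), add_mul, h.cy j, mul_assoc, h.cy i (S.d (x i)), ← h.cx i,
        mul_assoc]
  rw [Finset.sum_congr rfl fun i _ => e i, Finset.sum_add_distrib, ← Finset.mul_sum,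
    ← Finset.mul_sum, h.one, ← hθ, mul_one, add_comm]

theorem dP_dx (h : Bt2Pair S x y) (hθ : θ = ∑ i, y i * S.d (x i)) (i : ι) :
    ∑ j, S.d (x i * y j) * (S.d (x j) - x j * θ) = x i * S.d θ := by
  have e : ∀ j, S.d (x i * y j) * (S.d (x j) - x j * θ) = S.d (x i) * (y j * S.d (x j)) +
      x i * (S.d (y j) * S.d (x j)) - S.d (x i * y j) * x j * θ := fun j => by
    rw [mul_sub, mul_assoc _ (x j), S.d_mul_even (h.hx i), add_mul, mul_assoc, mul_assoc]
  rw [Finset.sum_congr rfl fun j _ => e j, Finset.sum_sub_distrib, Finset.sum_add_distrib,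
    ← Finset.mul_sum, ← Finset.mul_sum, ← Finset.sum_mul, ← hθ, ← h.dth hθ, h.dP_x hθ, sub_mul,
    mul_assoc, S.odd_sq (h.odd hθ), mul_zero, sub_zero, add_sub_cancel_left]

theorem ch [DecidableEq ι] (h : Bt2Pair S x y) (hθ : θ = ∑ i, y i * S.d (x i)) (k : ℕ) :
    S.ch k (Matrix.of fun i j => x i * y j) = S.d θ ^ k := by
  have hm : ∀ (M : Matrix ι ι 𝒜) (v : ι → 𝒜) (c : 𝒜),
      (M.mulVec fun i => v i * c) = fun i => M.mulVec v i * c := fun M v c => by
    funext i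
    simp only [Matrix.mulVec, dotProduct, Finset.sum_mul, mul_assoc]
  have h1 : ((Matrix.of fun i j => x i * y j).map S.d).mulVec x =
      fun i => S.d (x i) - x i * θ := funext fun i => h.dP_x hθ i
  have h2 : ((Matrix.of fun i j => x i * y j).map S.d).mulVec (fun i => S.d (x i) - x i * θ) =
      fun i => x i * S.d θ := funext fun i => h.dP_dx hθ i
  rw [SD.ch]
  generalize (Matrix.of fun i j => x i * y j).map S.d = M at h1 h2
  have h3 : (M ^ (2 * k)).mulVec x = fun i => x i * S.d θ ^ k := by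
    induction k with
    | zero => simp
    | succ k ih =>
      rw [show 2 * (k + 1) = 2 * k + 1 + 1 by ring, pow_succ', pow_succ', ← Matrix.mulVec_mulVec,
        ← Matrix.mulVec_mulVec, ih, hm, hm, h1, h2]
      funext i
      rw [pow_succ', mul_assoc]
  generalize M ^ (2 * k) = M' at h3
  have h4 : ∀ j, ∑ i, x i * y j * M' j i = x j * y j * S.d θ ^ k := fun j => by
    rw [h.cy j (x j), mul_assoc, ← congrFun h3 j, Matrix.mulVec, dotProduct, Finset.mul_sum]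
    exact Finset.sum_congr rfl fun i _ => by rw [mul_assoc, ← h.cx i, mul_assoc]
  simp only [Matrix.trace, Matrix.diag_apply, Matrix.mul_apply, Matrix.of_apply]
  rw [Finset.sum_comm, Finset.sum_congr rfl fun j _ => h4 j, ← Finset.sum_mul, h.one, one_mul]

end Bt2Pair

variable {B : Type} [CommRing B] [Algebra ℂ B]

/-- Sums `φ a + θ φ b` with `a` of degree `n + 1` and `b` of degree `n`. -/
def bt2W (φ : Form B →+* 𝒜) (θ : 𝒜) (n : ℕ) : AddSubgroup 𝒜 where
  carrier := {z | ∃ a ∈ ⋀[B]^(n + 1) Ω[B⁄ℂ], ∃ b ∈ ⋀[B]^n Ω[B⁄ℂ], z = φ a + θ * φ b}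
  zero_mem' := ⟨0, zero_mem _, 0, zero_mem _, by simp⟩
  add_mem' := by
    rintro _ _ ⟨a, ha, b, hb, rfl⟩ ⟨a', ha', b', hb', rfl⟩
    refine ⟨a + a', add_mem ha ha', b + b', add_mem hb hb', ?_⟩
    rw [map_add, map_add, mul_add]
    abel
  neg_mem' := by
    rintro _ ⟨a, ha, b, hb, rfl⟩
    refine ⟨-a, neg_mem ha, -b, neg_mem hb, ?_⟩
    rw [map_neg, map_neg, mul_neg, neg_add]

/-- The same with degrees `n` and `n - 1`. -/
def Bt2V (φ : Form B →+* 𝒜) (θ : 𝒜) (n : ℕ) (z : 𝒜) : Prop :=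
  ∃ a ∈ ⋀[B]^n Ω[B⁄ℂ], ∃ b, (∀ t, dd t * b ∈ ⋀[B]^n Ω[B⁄ℂ]) ∧ z = φ a + θ * φ b

theorem bt2_dd_mul {n : ℕ} (t : B) {b : Form B} (hb : b ∈ ⋀[B]^n Ω[B⁄ℂ]) :
    dd t * b ∈ ⋀[B]^(n + 1) Ω[B⁄ℂ] := by
  rw [add_comm]
  exact SetLike.mul_mem_graded (A := fun i => ⋀[B]^i Ω[B⁄ℂ]) (dg_dd_mem t) hb

variable {S : SD 𝒜} {ψ : B →ₐ[ℂ] 𝒜} {φ : Form B →+* 𝒜} {θ z : 𝒜} {n : ℕ}

omit [Algebra ℂ 𝒜] in
theorem bt2_V_of (h : z ∈ bt2W φ θ n) : Bt2V φ θ (n + 1) z := by
  obtain ⟨a, ha, b, hb, rfl⟩ := h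
  exact ⟨a, ha, b, fun t => bt2_dd_mul t hb, rfl⟩

theorem bt2_d_mul (hφ : IsDG S ψ φ) (hθ : S.σ θ = -θ) (h : Bt2V φ θ n z) (t : B) :
    S.d (ψ t) * z ∈ bt2W φ θ n := by
  obtain ⟨a, ha, b, hb, rfl⟩ := h
  refine ⟨dd t * a, bt2_dd_mul t ha, -(dd t * b), neg_mem (hb t), ?_⟩
  rw [map_neg, map_mul, map_mul, hφ.map_dd, mul_add, ← mul_assoc,
    S.comm_odd _ θ (S.odd_d (hφ.even t)), hθ, neg_mul, neg_mul, mul_neg, mul_assoc]

theorem bt2_th_mul (hθ : S.σ θ = -θ) (h : Bt2V φ θ n z) : θ * z ∈ bt2W φ θ n := by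
  obtain ⟨a, ha, b, _, rfl⟩ := h
  refine ⟨0, zero_mem _, a, ha, ?_⟩
  rw [mul_add, ← mul_assoc, S.odd_sq hθ, zero_mul, map_zero, zero_add, add_zero]

end Abstract

variable {N : ℕ} {A : Type} [CommRing A] [Algebra ℂ A] {F : Pol N A}

theorem prj_idem (F : Pol N A) : prj F * prj F = prj F := by
  ext i j : 1
  refine Subtype.ext ?_
  rw [Matrix.mul_apply, AddSubmonoidClass.coe_finsetSum]
  change ∑ l, xy F i l * xy F l j = xy F i j
  simp only [xy, ← map_mul, ← map_sum]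
  refine Ideal.Quotient.eq.2 ?_
  have e : (∑ l, X (inl i) * X (inr l) * (X (inl l) * X (inr j)) - X (inl i) * X (inr j) :
      RR N A) = X (inl i) * X (inr j) * (∑ l, X (inl l) * X (inr l) - 1) := by
    rw [mul_sub, mul_one, Finset.mul_sum]
    exact congrArg (· - _) (Finset.sum_congr rfl fun l _ => by ring)
  rw [e]
  exact Ideal.mul_mem_left _ _ (Ideal.subset_span (Or.inr rfl))

/-- The coordinates as forms on the cone. -/
noncomputable def bt2X (F : Pol N A) (s : Fin N ⊕ Fin N) : OO N A ⧸ JJ F :=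
  Ideal.Quotient.mk _ (of (X s))

theorem bt2_dX (F : Pol N A) (s : Fin N ⊕ Fin N) :
    (ST F).d (bt2X F s) = Ideal.Quotient.mk _ (e s) := by
  rw [bt2X, ST_d, dx_X]

theorem bt2_pair (F : Pol N A) :
    Bt2Pair (ST F) (fun i => bt2X F (inl i)) fun i => bt2X F (inr i) := by
  refine ⟨fun i => psiT_even F (Ideal.Quotient.mk _ _), fun i => psiT_even F (Ideal.Quotient.mk _ _),
    ?_⟩
  simp only [bt2X, ← map_mul, ← map_sum]
  rw [← map_one (Ideal.Quotient.mk (JJ F))]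
  exact Ideal.Quotient.eq.2 (II_le_JJ F id_ff_mem_II)

theorem bt2_th (F : Pol N A) : Ideal.Quotient.mk (JJ F) (th N A) =
    ∑ i, bt2X F (inr i) * (ST F).d (bt2X F (inl i)) := by
  simp only [bt2_dX, th, map_sum, map_mul]
  rfl

theorem bt2_prj (F : Pol N A) (i j : Fin N) :
    (psiT F).comp (inc F) (prj F i j) = bt2X F (inl i) * bt2X F (inr j) := by
  rw [bt2X, bt2X, ← map_mul, ← map_mul]
  rfl

theorem phiB_prj (F : Pol N A) (k : ℕ) :
    phiB F (chw k (prj F)) = Ideal.Quotient.mk _ (dx (th N A) ^ k) := by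
  have e : (prj F).map ((psiT F).comp (inc F)) =
      Matrix.of fun i j => bt2X F (inl i) * bt2X F (inr j) := Matrix.ext (bt2_prj F)
  rw [(isDG_B F).chw, e, (bt2_pair F).ch (bt2_th F), map_pow, ST_d]

theorem phiB_fib (s : A →ₐ[ℂ] ℂ) {ω : Form (Jou F)} {x : OO N A}
    (h : Ideal.Quotient.mk _ x = phiB F ω) :
    Ideal.Quotient.mk _ (mapc (mapAlgHom (σ := Fin N ⊕ Fin N) s) x) =
      phiB (map (s : A →+* ℂ) F) (pull (fib F s) ω) := by
  let Q : OO N A ⧸ JJ F →+* OO N ℂ ⧸ JJ (map (s : A →+* ℂ) F) :=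
    Ideal.quotientMap _ (mapc (mapAlgHom (σ := Fin N ⊕ Fin N) s) : OO N A →ₐ[ℂ] OO N ℂ)
      fun _ hy => mapc_JJ s hy
  have hQ : ∀ y, Q (Ideal.Quotient.mk _ y) =
      Ideal.Quotient.mk _ (mapc (mapAlgHom (σ := Fin N ⊕ Fin N) s) y) := fun _ => rfl
  have hb : ∀ b : Jou F, ∃ r : RR N A,
      (psiT F).comp (inc F) b = Ideal.Quotient.mk _ (of r) ∧
      (psiT (map (s : A →+* ℂ) F)).comp (inc _) (fib F s b) =
        Ideal.Quotient.mk _ (mapc (mapAlgHom (σ := Fin N ⊕ Fin N) s) (of r)) := by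
    rintro ⟨b, hb⟩
    obtain ⟨r, rfl⟩ := Ideal.Quotient.mk_surjective b
    exact ⟨r, rfl, by rw [mapc_of]; rfl⟩
  have e : Q.comp (phiB F) = (phiB (map (s : A →+* ℂ) F)).comp (pull (fib F s)) := by
    refine form_ext (fun b => ?_) fun b => ?_
    · obtain ⟨r, h1, h2⟩ := hb b
      have a1 := congrArg Q (((isDG_B F).alg b).trans h1)
      have a2 := (congrArg (phiB (map (s : A →+* ℂ) F)) (pull_alg (fib F s) b)).trans
        (((isDG_B (map (s : A →+* ℂ) F)).alg (fib F s b)).trans h2)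
      exact (a1.trans (hQ _)).trans a2.symm
    · obtain ⟨r, h1, h2⟩ := hb b
      have a1 := congrArg Q ((((isDG_B F).map_dd b).trans (congrArg (ST F).d h1)).trans
        (ST_d F (of r)))
      have a2 := (congrArg (phiB (map (s : A →+* ℂ) F)) (pull_dd (fib F s) b)).trans
        ((((isDG_B (map (s : A →+* ℂ) F)).map_dd (fib F s b)).trans
          (congrArg (ST (map (s : A →+* ℂ) F)).d h2)).trans (ST_d _ _))
      exact ((a1.trans (hQ _)).trans
        (congrArg (Ideal.Quotient.mk (JJ (map (s : A →+* ℂ) F))) (mapc_dx s (of r)))).trans a2.symm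
  exact ((hQ x).symm.trans (congrArg Q h)).trans (RingHom.congr_fun e ω)

theorem bt2_X_mul (s : Fin N ⊕ Fin N) (r : RR N A) (z : OO N A) :
    Ideal.Quotient.mk (JJ F) (of (X s * r) * z) = bt2X F s * Ideal.Quotient.mk _ (of r * z) := by
  rw [bt2X, ← map_mul, map_mul (of : RR N A →ₐ[ℂ] OO N A), mul_assoc]

theorem bt2_step {n : ℕ} {z : OO N A} {v : ℤ}
    (ih : ∀ r : RR N A, IsWeightedHomogeneous (vw N) r v →
      Bt2V (phiB F) (Ideal.Quotient.mk _ (th N A)) n (Ideal.Quotient.mk _ (of r * z)))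
    (s : Fin N ⊕ Fin N) {r : RR N A} (hr : IsWeightedHomogeneous (vw N) r (v - vw N s)) :
    Ideal.Quotient.mk _ (of r * (e s * z)) ∈ bt2W (phiB F) (Ideal.Quotient.mk _ (th N A)) n := by
  have hθ := (bt2_pair F).odd (bt2_th F)
  have h0 : Ideal.Quotient.mk (JJ F) (of r * (e s * z)) =
      (ST F).d (bt2X F s) * Ideal.Quotient.mk _ (of r * z) := by
    rw [bt2_dX, ← map_mul, ← mul_assoc, ← mul_assoc, of_comm]
  have h1 : ∀ t, vw N t = vw N s → Bt2V (phiB F) (Ideal.Quotient.mk _ (th N A)) n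
      (bt2X F t * Ideal.Quotient.mk _ (of r * z)) := fun t ht => by
    rw [← bt2_X_mul]
    refine ih _ ?_
    have := (isWeightedHomogeneous_X A (vw N) t).mul hr
    rwa [ht, add_sub_cancel] at this
  rw [h0]
  rcases s with i | j
  · rw [eq_add_of_sub_eq ((bt2_pair F).dP_x (bt2_th F) i).symm, add_mul, Finset.sum_mul,
      ← (bt2_pair F).cx i, mul_assoc]
    refine add_mem (sum_mem fun j _ => ?_) (bt2_th_mul hθ (h1 (inl i) rfl))
    rw [mul_assoc, ← bt2_prj]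
    exact bt2_d_mul (isDG_B F) hθ (h1 (inl j) rfl) (prj F i j)
  · rw [eq_sub_of_add_eq ((bt2_pair F).dP_y (bt2_th F) j).symm, sub_mul, Finset.sum_mul,
      ← (bt2_pair F).cy j, mul_assoc]
    refine sub_mem (sum_mem fun i _ => ?_) (bt2_th_mul hθ (h1 (inr j) rfl))
    rw [mul_assoc, ← bt2_prj]
    exact bt2_d_mul (isDG_B F) hθ (h1 (inr i) rfl) (prj F i j)

theorem bt2_deg (s : Fin N ⊕ Fin N) (l : List (Fin N ⊕ Fin N)) :
    dq (s :: l) - dp (s :: l) = dq l - dp l - vw N s := by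
  rw [gr2_dp_cons, gr2_dq_cons]
  rcases s with i | i
  · rw [gr2_dp_inl, gr2_dq_inl, show vw N (inl i) = 1 from rfl]
    ring
  · rw [gr2_dp_inr, gr2_dq_inr, show vw N (inr i) = -1 from rfl]
    ring

theorem bt2_word (l : List (Fin N ⊕ Fin N)) (r : RR N A)
    (hr : IsWeightedHomogeneous (vw N) r (dq l - dp l)) :
    Bt2V (phiB F) (Ideal.Quotient.mk _ (th N A)) l.length
      (Ideal.Quotient.mk _ (of r * (l.map e).prod)) := by
  induction l generalizing r with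
  | nil =>
    rw [gr2_dp_nil, gr2_dq_nil, sub_zero] at hr
    obtain ⟨b, hb⟩ := jou_mem (F := F) hr
    refine ⟨b • (([] : List (Jou F)).map dd).prod, word_mem b [], 0, fun t => ?_, ?_⟩
    · rw [mul_zero]
      exact zero_mem _
    · rw [map_zero, mul_zero, add_zero, (isDG_B F).word, AlgHom.comp_apply, hb, psiT_mk]
      simp
  | cons s l ih =>
    rw [bt2_deg] at hr
    exact bt2_V_of (bt2_step ih s hr)

/-- Invariant forms on the cone split into two basic forms. -/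
theorem split {n : ℕ} {x : OO N A}
    (h : x ∈ Sp N A fun a b p q => p + q = n + 1 ∧ a + p - b - q = 0) :
    ∃ l₁ : Form (Jou F), ∃ l₂ ∈ ⋀[Jou F]^n Ω[Jou F⁄ℂ], Ideal.Quotient.mk (JJ F) x =
      phiB F l₁ + Ideal.Quotient.mk _ (th N A) * phiB F l₂ := by
  have key : Ideal.Quotient.mk (JJ F) x ∈ bt2W (phiB F) (Ideal.Quotient.mk _ (th N A)) n := by
    refine gr2_ind (P := fun x => Ideal.Quotient.mk (JJ F) x ∈
      bt2W (phiB F) (Ideal.Quotient.mk _ (th N A)) n) h ?_ (fun y z hy hz => ?_) ?_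
    · rw [map_zero]
      exact zero_mem _
    · rw [map_add]
      exact add_mem hy hz
    · rintro t m l ⟨h1, h2⟩
      have h3 := gr2_dp_add_dq l
      rcases l with _ | ⟨s, l⟩
      · rw [List.length_nil] at h3
        omega
      · rw [List.length_cons] at h3
        obtain rfl : n = l.length := by omega
        refine bt2_step (bt2_word l) s ?_
        rw [← bt2_deg, ← of_mem_vw, ← gr2_wd_nil]
        exact gr2_wd_mem (by omega)
  obtain ⟨a, _, b, hb, e⟩ := key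
  exact ⟨a, b, hb, e⟩

end Pool.Agent.Lib.MP_e9c0f3_ag.DR
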