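import Pool.Agent.Lib.MP_e9c0f3_ag.DR.GM

/-! Flat sections have flat representatives. -/

open MvPolynomial Sum

namespace Pool.Agent.Lib.MP_e9c0f3_ag.DR

open Om

variable {N : ℕ} {A : Type} [CommRing A] [Algebra ℂ A]

theorem gm2_comm (P : Pol N A) (u y : OO N A) : u * (xo P * y) = xo P * (u * y) := by
  rw [← mul_assoc, xo, ← of_comm, mul_assoc]

theorem gm2_lie_dx {E : Derivation ℂ (RR N A) (RR N A)} (hE : ∀ s r, E (pd s r) = pd s (E r))
    (y : OO N A) : lie E (dx y) = dx (lie E y) := lie_dO hE y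

theorem gm2_lie_II {E : Derivation ℂ (RR N A) (RR N A)} (hX : ∀ s, E (X s) = 0)
    (hE : ∀ s r, E (pd s r) = pd s (E r)) {y : OO N A} (h : y ∈ II N A) : lie E y ∈ II N A := by
  obtain ⟨a, b, rfl⟩ := mem_II.1 h
  have h1 : E (ff N A) = 0 := by
    rw [ff, map_sum]
    exact Finset.sum_eq_zero fun i _ => by rw [Derivation.leibniz, hX, hX, smul_zero, smul_zero,
      add_zero]
  have h2 : lie E (of (ff N A) : OO N A) = 0 := by rw [lie_of, h1, map_zero]
  have h3 : lie E (1 : OO N A) = 0 := by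
    rw [← map_one (of : RR N A →ₐ[ℂ] OO N A), lie_of, Derivation.map_one_eq_zero, map_zero]
  refine mem_II.2 ⟨lie E a, lie E b, ?_⟩
  rw [map_add, lie_mul, lie_mul, map_sub, h2, h3, gm2_lie_dx hE, h2, map_zero, sub_zero, zero_mul,
    zero_mul, zero_add, zero_add]

theorem gm2_dx_xo_mul (P : Pol N A) (y : OO N A) :
    dx (xo P * y) = dx (xo P) * y + xo P * dx y := dx_of_mul _ _

theorem gm2_dx_dxo_mul (P : Pol N A) (y : OO N A) :
    dx (dx (xo P) * y) = -(dx (xo P) * dx y) := dx_dof_mul _ _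

theorem gm2_dxo_dxo (P : Pol N A) (y : OO N A) : dx (xo P) * (dx (xo P) * y) = 0 := dof_dof _ _

theorem gm2_xo_mul_mem (P : Pol N A) {y : OO N A} (h : y ∈ Sp N A fun _ _ p _ => 1 ≤ p) :
    xo P * y ∈ Sp N A fun _ _ p _ => 1 ≤ p := by
  refine Sp_mul (rename_mem P) h ?_
  rintro a b p q a' b' p' q' ⟨-, h1, -⟩ h2
  omega

theorem gm2_dxo_mul_mem (P : Pol N A) (y : OO N A) :
    dx (xo P) * y ∈ Sp N A fun _ _ p _ => 1 ≤ p := by
  have h : y ∈ Sp N A fun _ _ p _ => 0 ≤ p :=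
    Sp_mono (Sp_top y) fun _ _ _ _ _ _ _ _ _ _ _ => Int.natCast_nonneg _
  refine Sp_mul (dxo_mem P) h ?_
  rintro a b p q a' b' p' q' ⟨-, h1, -⟩ h2
  omega

theorem gm2_key [IsDomain A] (hN : 0 < N) {F F' : Pol N A} (hF : F ≠ 0)
    {E : Derivation ℂ (RR N A) (RR N A)} (hX : ∀ s, E (X s) = 0)
    (hE : ∀ s r, E (pd s r) = pd s (E r)) (hF' : E (rename inl F) = rename inl F')
    {x x₁ α β α₁ β₁ : OO N A} (h0 : dx x - (xo F * α + dx (xo F) * β) ∈ II N A)
    (h1 : lie E x - dx x₁ - (xo F * α₁ + xo F' * β - dx (xo F) * β₁) ∈ II N A) :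
    dx (xo F) * lie E α - dx (xo F) * dx α₁ - xo F' * dx α ∈ II N A := by
  have e1 : lie E (xo F) = xo F' := by rw [xo, lie_of, hF', xo]
  have a1 := gm2_lie_II hX hE h0
  have a2 := dx_II h1
  have a3 := dx_II h0
  rw [map_sub, map_add, lie_mul, lie_mul, gm2_lie_dx hE, gm2_lie_dx hE, e1] at a1
  rw [map_sub, map_sub, map_sub, map_add, dx_dx, gm2_dx_xo_mul, gm2_dx_xo_mul,
    gm2_dx_dxo_mul] at a2
  rw [map_sub, map_add, dx_dx, gm2_dx_xo_mul, gm2_dx_dxo_mul] at a3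
  refine reg_II hN hF ?_
  have a4 := (II N A).add_mem ((II N A).mul_mem_left (dx (xo F)) ((II N A).sub_mem a2 a1))
    ((II N A).mul_mem_left (xo F') a3)
  convert a4 using 1
  simp only [mul_sub, mul_add, mul_neg, mul_zero, gm2_dxo_dxo, gm2_comm F (dx (xo F)),
    gm2_comm F' (dx (xo F)), gm2_comm F (xo F')]
  abel

theorem rep_flat_aux [IsDomain A] (hN : 0 < N) {F P F' P' : Pol N A} (hF : F ≠ 0) {d : ℕ}
    (hd : F.IsHomogeneous d) {E : Derivation ℂ (RR N A) (RR N A)} (hX : ∀ s, E (X s) = 0)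
    (hC : ∀ t : A, ∃ t', E (C t) = C t') (hE : ∀ s r, E (pd s r) = pd s (E r))
    (hF' : E (rename inl F) = rename inl F') (hP' : E (rename inl P) = rename inl P')
    {x x₁ α β α₁ β₁ : OO N A} (hx : x ∈ Sp N A fun _ _ p _ => 1 ≤ p) (h : Rep F x P)
    (h0 : dx x - (xo F * α + dx (xo F) * β) ∈ II N A)
    (h1 : lie E x - dx x₁ - (xo F * α₁ + xo F' * β - dx (xo F) * β₁) ∈ II N A) :
    Exact F (P' + F' * P) := by
  obtain ⟨ξ, η, hξ, hη, hr⟩ := h
  have e1 : lie E (xo F) = xo F' := by rw [xo, lie_of, hF', xo]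
  have e2 : lie E (xo P) = xo P' := by rw [xo, lie_of, hP', xo]
  have e3 : xo (P' + F' * P) = xo P' + xo F' * xo P := by
    simp only [xo, map_add, map_mul]
  have key := gm2_key hN hF hX hE hF' h0 h1
  have hy : dx x - dx (xo F) * β ∈ Sp N A fun _ _ p _ => 1 ≤ p :=
    Submodule.sub_mem _ (dx_mem hx fun a b p q h => by omega) (gm2_dxo_mul_mem F β)
  have h2 : xo F * α - (dx x - dx (xo F) * β) ∈ II N A := by
    convert (II N A).neg_mem h0 using 1
    abel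
  obtain ⟨α', hα', h3⟩ := reg_filt hN hF hy h2
  have h4 : dx (xo F) * α - xo P * vol N A - pa F η ∈ II N A := by
    convert (II N A).sub_mem hr (IsPsi.unique hN hF hξ (isPsi_of h0)) using 1
    abel
  have h5 := gm2_lie_II hX hE h4
  rw [map_sub, map_sub, pa_apply, map_add, lie_mul, lie_mul, lie_mul, gm2_lie_dx hE, gm2_lie_dx hE,
    e1, e2, lie_vol] at h5
  have h6 := (II N A).mul_mem_left (xo F') h4
  have h7 := pa_II F ((II N A).mul_mem_left (xo F') h3)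
  refine red_unique (η := xo F' * α' - dx (xo F) * α₁ - (lie E η + xo F' * η)) hN hd
    (Submodule.sub_mem _ (Submodule.sub_mem _ (gm2_xo_mul_mem F' hα') (gm2_dxo_mul_mem F α₁))
      (Submodule.add_mem _ (lie_mem hX hC hη) (gm2_xo_mul_mem F' hη))) ?_
  convert (II N A).add_mem ((II N A).sub_mem ((II N A).sub_mem key h5) h6) h7 using 1
  simp only [e3, pa_apply, map_sub, map_add, gm2_dx_xo_mul, gm2_dx_dxo_mul, mul_sub, mul_add,
    add_mul, mul_assoc, mul_zero, gm2_dxo_dxo, gm2_comm F' (dx (xo F))]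
  abel

theorem rep_flat [IsDomain A] (hN : 0 < N) {F P : Pol N A} (hF : F ≠ 0) {d : ℕ}
    (hd : F.IsHomogeneous d) {ω η : Form (Jou F)} (hD : IsD ω η) (hη : η ∈ base 2 F)
    {x : OO N A} (hx : Ideal.Quotient.mk _ x = phiB F ω) (hp : x ∈ Sp N A fun _ _ p _ => 1 ≤ p)
    (h : Rep F x P) (D : Derivation ℂ A A) : Exact F (coeffMap D P + coeffMap D F * P) := by
  obtain ⟨E, h1, h2, h3, h4⟩ := exists_coefD (N := N) D
  obtain ⟨x₁, α, β, α₁, β₁, h5, h6⟩ := gm_lift h1 h3 hD hη hx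
  rw [h4] at h6
  exact rep_flat_aux hN hF hd h1 (fun t => ⟨_, h2 t⟩) h3 (h4 F) (h4 P) hp h h5 h6

end Pool.Agent.Lib.MP_e9c0f3_ag.DR
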