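import Pool.Agent.Lib.MP_e9c0f3_ag.DR.GyP
import Pool.Agent.Lib.MP_e9c0f3_ag.DR.GM2

/-! The Gysin map to projective space. -/

open MvPolynomial Sum

namespace Pool.Agent.Lib.MP_e9c0f3_ag.DR

open Om

variable {N : ℕ} {A A' : Type} [CommRing A] [Algebra ℂ A] [CommRing A'] [Algebra ℂ A']

/-- Invariant horizontal forms. -/
def Hor (x : OO N A) : Prop :=
  x ∈ Sp N A (fun a b p q => a + p - b - q = 0) ∧ iv x ∈ II N A

/-- The Gysin image `dF dx / F + d • d (θ x)` of `x` is `g` times the power `j + 1` of the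
hyperplane class. -/
def Gy (F : Pol N A) (d j : ℕ) (x : OO N A) (g : A) : Prop :=
  ∃ ξ y, IsPsi F x ξ ∧ iv y ∈ II N A ∧
    ξ + (d : ℂ) • dx (th N A * x) - of (C g) * dx (th N A) ^ (j + 1) - dx y ∈ II N A

variable {F : Pol N A} {d j : ℕ} {x x' : OO N A} {g g' : A}

theorem gg_iv_mul (u v : OO N A) : iv (u * v) = iv u * v + sg u * iv v := io_mul _ _ _

theorem gg_sg_th : sg (th N A) = -th N A :=
  sg_odd (Sp_mono th_mem fun _ _ p q _ _ _ _ _ _ h => by
    rw [h.2.2.1, h.2.2.2]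
    decide)

theorem gg_sg_dth : sg (dx (th N A)) = dx (th N A) := by
  have h : sg (dx (th N A)) = -dx (sg (th N A)) := sg_dO _ _
  rw [h, gg_sg_th, map_neg, neg_neg]

theorem gg_comm (u v : OO N A) : u * (dx (th N A) * v) = dx (th N A) * (u * v) := by
  rw [← mul_assoc, ← mul_assoc, comm_even _ u gg_sg_dth]

theorem gg_dx_dth (u : OO N A) : dx (dx (th N A) * u) = dx (th N A) * dx u := by
  rw [dx_mul, dx_dx, zero_mul, zero_add, gg_sg_dth]

theorem gg_dx_th (u : OO N A) : dx (th N A * dx u) = dx (th N A) * dx u := by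
  rw [dx_mul, dx_dx, mul_zero, add_zero]

theorem gg_dx_one : dx (1 : OO N A) = 0 := by
  have h := dx_C (N := N) (1 : A)
  rwa [C_1, map_one] at h

theorem gg_dx_pow (n : ℕ) : dx (dx (th N A) ^ n) = 0 := by
  induction n with
  | zero => rw [pow_zero, gg_dx_one]
  | succ n ih => rw [pow_succ', gg_dx_dth, ih, mul_zero]

theorem gg_iv_dth : iv (dx (th N A)) ∈ II N A := by
  rw [iv_dth]
  exact neg_mem id_dff_mem_II

theorem gg_iv_mem {u v : OO N A} (hu : iv u ∈ II N A) (hv : iv v ∈ II N A) :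
    iv (u * v) ∈ II N A := by
  rw [gg_iv_mul]
  exact add_mem (Ideal.mul_mem_right _ _ hu) (Ideal.mul_mem_left _ _ hv)

theorem gg_iv_th {u : OO N A} (hu : iv u ∈ II N A) : iv (th N A * u) - u ∈ II N A := by
  have h := add_mem (Ideal.mul_mem_right u _ (id_ff_mem_II (N := N) (A := A)))
    (Ideal.mul_mem_left _ (sg (th N A)) hu)
  rw [gg_iv_mul, iv_th]
  convert h using 1
  rw [sub_mul, one_mul]
  abel

theorem gg_iv_dx_eq {u : OO N A} (h : u ∈ Sp N A fun a b p q => a + p - b - q = 0) :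
    iv (dx u) = -dx (iv u) := by
  have h1 := eu_v (n := 0) h
  rw [zero_smul] at h1
  exact eq_neg_of_add_eq_zero_left h1

theorem gg_iv_dx (h : Hor x) : iv (dx x) ∈ II N A := by
  rw [gg_iv_dx_eq h.1]
  exact neg_mem (dx_II h.2)

theorem gg_mapc_c {R R' σ : Type} [CommRing R] [Algebra ℂ R] [CommRing R'] [Algebra ℂ R']
    [Fintype σ] [DecidableEq σ] (g : R →ₐ[ℂ] R') (s : σ) (u : Om R σ) :
    mapc g (c s u) = c s (mapc g u) := by
  induction u using Om.ind_left with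
  | h0 r => rw [c_of, mapc_of, c_of, map_zero]
  | ha u v hu hv => rw [map_add, map_add, hu, hv, map_add, map_add]
  | hm t u hu =>
    rw [c_e_mul, map_mul, mapc_e, c_e_mul, map_sub, map_mul, mapc_e, hu]
    split_ifs
    · rfl
    · rw [map_zero]

theorem gg_mapc_X (s : A →ₐ[ℂ] A') (t : Fin N ⊕ Fin N) :
    mapc (mapAlgHom (σ := Fin N ⊕ Fin N) s) (of (X t) : OO N A) = of (X t) := by
  rw [mapc_of, mapAlgHom_apply, map_X]

theorem gg_mapc_iv (s : A →ₐ[ℂ] A') (u : OO N A) :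
    mapc (mapAlgHom (σ := Fin N ⊕ Fin N) s) (iv u) =
      iv (mapc (mapAlgHom (σ := Fin N ⊕ Fin N) s) u) := by
  simp only [id2_iv_apply, map_sub, map_sum, map_mul, gg_mapc_X, gg_mapc_c]

theorem gg_mapc_th (s : A →ₐ[ℂ] A') :
    mapc (mapAlgHom (σ := Fin N ⊕ Fin N) s) (th N A) = th N A' := by
  simp only [th, map_sum, map_mul, gg_mapc_X, mapc_e]

theorem gg_lie_iv {E : Derivation ℂ (RR N A) (RR N A)} (hX : ∀ s, E (X s) = 0) (u : OO N A) :
    lie E (iv u) = iv (lie E u) := by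
  simp only [id2_iv_apply, map_sub, map_sum, lie_mul, lie_of, hX, map_zero, zero_mul, zero_add,
    lie_c]

theorem gg_lie_th {E : Derivation ℂ (RR N A) (RR N A)} (hX : ∀ s, E (X s) = 0) :
    lie E (th N A) = 0 := by
  simp only [th, map_sum, lie_mul, lie_of, hX, map_zero, zero_mul, lie_e, mul_zero, add_zero,
    Finset.sum_const_zero]

theorem gg_lie_pow {E : Derivation ℂ (RR N A) (RR N A)} (hX : ∀ s, E (X s) = 0)
    (hE : ∀ s r, E (pd s r) = pd s (E r)) (n : ℕ) : lie E (dx (th N A) ^ n) = 0 := by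
  induction n with
  | zero =>
    rw [pow_zero, ← map_one (of : RR N A →ₐ[ℂ] OO N A), lie_of, Derivation.map_one_eq_zero,
      map_zero]
  | succ n ih =>
    rw [pow_succ, lie_mul, ih, gm2_lie_dx hE, gg_lie_th hX, map_zero, zero_mul, mul_zero, add_zero]

theorem gg_div [IsDomain A] (hN : 0 < N) (hF0 : F ≠ 0) (hF : F.IsHomogeneous d) {u v w : OO N A}
    (h : xo F * u + dx (xo F) * v - w ∈ II N A) (hv : iv v ∈ II N A) (hw : iv w ∈ II N A) :
    iv u + (d : ℂ) • v ∈ II N A := by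
  have h1 := iv_II h
  have h2 : iv (xo F * u) = xo F * iv u := id2_iv_of_mul _ _
  have h3 : iv (dx (xo F) * v) = iv (dx (xo F)) * v - dx (xo F) * iv v := id2_iv_dof_mul _ _
  rw [map_sub, map_add, h2, h3, iv_dxo hF] at h1
  refine reg_II hN hF0 ?_
  convert add_mem (add_mem h1 hw) (Ideal.mul_mem_left _ (dx (xo F)) hv) using 1
  rw [mul_add, Nat.cast_smul_eq_nsmul, mul_smul_comm, smul_mul_assoc]
  abel

theorem gg_div_th [IsDomain A] (hN : 0 < N) (hF0 : F ≠ 0) (hF : F.IsHomogeneous d)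
    {u v w : OO N A} (h : xo F * u + dx (xo F) * v - w ∈ II N A) (hv : iv v ∈ II N A)
    (hw : iv w ∈ II N A) : iv (u + (d : ℂ) • (th N A * v)) ∈ II N A := by
  convert add_mem (gg_div hN hF0 hF h hv hw) (smul_II (d : ℂ) (gg_iv_th hv)) using 1
  rw [map_add, map_smul, smul_sub]
  abel

theorem Hor.sub (h : Hor x) (h' : Hor x') : Hor (x - x') := by
  refine ⟨sub_mem h.1 h'.1, ?_⟩
  rw [map_sub]
  exact sub_mem h.2 h'.2

theorem Hor.smul (h : Hor x) (t : ℂ) : Hor (t • x) := by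
  refine ⟨Submodule.smul_mem _ t h.1, ?_⟩
  rw [map_smul]
  exact smul_II t h.2

theorem Hor.mul (h : Hor x) (h' : Hor x') : Hor (x * x') := by
  exact ⟨Sp_mul h.1 h'.1 fun _ _ _ _ _ _ _ _ _ _ => by omega, gg_iv_mem h.2 h'.2⟩

theorem hor_pow (n : ℕ) : Hor (dx (th N A) ^ n) := by
  induction n with
  | zero =>
    refine ⟨one_mem_Sp (by simp), ?_⟩
    rw [pow_zero, ← map_one (of : RR N A →ₐ[ℂ] OO N A), id2_iv_of]
    exact zero_mem _
  | succ n ih =>
    rw [pow_succ]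
    exact ih.mul ⟨dx_mem th_mem fun _ _ _ _ _ => by omega, gg_iv_dth⟩

theorem Hor.map (h : Hor x) (s : A →ₐ[ℂ] A') :
    Hor (mapc (mapAlgHom (σ := Fin N ⊕ Fin N) s) x) := by
  refine ⟨mapc_mem s h.1, ?_⟩
  rw [← gg_mapc_iv]
  exact mapc_II s h.2

theorem Gy.sub (h : Gy F d j x g) (h' : Gy F d j x' g') : Gy F d j (x - x') (g - g') := by
  obtain ⟨ξ, y, h1, h2, h3⟩ := h
  obtain ⟨ξ', y', h1', h2', h3'⟩ := h'
  refine ⟨ξ - ξ', y - y', ?_, ?_, ?_⟩
  · have := (II N A).sub_mem h1 h1'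
    unfold IsPsi
    convert this using 1
    rw [map_sub, mul_sub, mul_sub]
    abel
  · rw [map_sub]
    exact sub_mem h2 h2'
  · convert (II N A).sub_mem h3 h3' using 1
    rw [mul_sub, map_sub, map_sub, map_sub, map_sub, smul_sub, sub_mul]
    abel

theorem Gy.smul (h : Gy F d j x g) (t : ℂ) : Gy F d j (t • x) (t • g) := by
  obtain ⟨ξ, y, h1, h2, h3⟩ := h
  refine ⟨t • ξ, t • y, ?_, ?_, ?_⟩
  · have := smul_II t h1
    unfold IsPsi
    rwa [map_smul, mul_smul_comm, mul_smul_comm, ← smul_sub]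
  · rw [map_smul]
    exact smul_II t h2
  · have e : (C (t • g) : RR N A) = t • C g := by rw [C_apply, C_apply, smul_monomial]
    have := smul_II t h3
    rwa [e, map_smul, mul_smul_comm, map_smul, map_smul, smul_mul_assoc, smul_comm, ← smul_add,
      ← smul_sub, ← smul_sub]

theorem Gy.map (h : Gy F d j x g) (s : A →ₐ[ℂ] A') :
    Gy (map (s : A →+* A') F) d j (mapc (mapAlgHom (σ := Fin N ⊕ Fin N) s) x) (s g) := by
  obtain ⟨ξ, y, h1, h2, h3⟩ := h
  refine ⟨mapc (mapAlgHom (σ := Fin N ⊕ Fin N) s) ξ, mapc (mapAlgHom (σ := Fin N ⊕ Fin N) s) y,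
    ?_, ?_, ?_⟩
  · have := mapc_II s h1
    rwa [map_sub, map_mul, map_mul, mapc_dx, mapc_dx, mapc_xo] at this
  · rw [← gg_mapc_iv]
    exact mapc_II s h2
  · have := mapc_II s h3
    rwa [map_sub, map_sub, map_add, map_smul, mapc_dx, mapc_dx, map_mul (mapc _),
      map_mul (mapc _), map_pow, mapc_dx, gg_mapc_th, mapc_of, mapAlgHom_apply, map_C] at this

theorem Gy.mul (h : Gy F d j x g) : Gy F d (j + 1) (dx (th N A) * x) g := by
  obtain ⟨ξ, y, h1, h2, h3⟩ := h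
  refine ⟨dx (th N A) * ξ, dx (th N A) * y, ?_, gg_iv_mem gg_iv_dth h2, ?_⟩
  · have := (II N A).mul_mem_left (dx (th N A)) h1
    unfold IsPsi
    rwa [gg_dx_dth, gg_comm, gg_comm, ← mul_sub]
  · have := (II N A).mul_mem_left (dx (th N A)) h3
    rwa [gg_comm, gg_dx_dth, gg_dx_dth, pow_succ' _ (j + 1), gg_comm, ← mul_smul_comm, ← mul_add,
      ← mul_sub, ← mul_sub]

theorem gy_pow (F : Pol N A) (d j : ℕ) : Gy F d j (dx (th N A) ^ j) (d : A) := by
  refine ⟨0, 0, ?_, ?_, ?_⟩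
  · unfold IsPsi
    rw [gg_dx_pow, mul_zero, mul_zero, sub_zero]
    exact zero_mem _
  · rw [map_zero]
    exact zero_mem _
  · rw [dx_mul, gg_dx_pow, mul_zero, add_zero, map_zero, sub_zero, zero_add, map_natCast,
      map_natCast, Nat.cast_smul_eq_nsmul, nsmul_eq_mul, pow_succ', sub_self]
    exact zero_mem _

variable [IsDomain A]

theorem gy_exists (hF0 : F ≠ 0) (hF : F.IsHomogeneous d) (hj : j + 2 ≤ N) (hx : Hor x)
    (hdeg : x ∈ Sp N A fun _ _ p q => p + q = 2 * j) (hc : dx x ∈ JJ F) : ∃ g, Gy F d j x g := by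
  have hN : 0 < N := by omega
  obtain ⟨α, β, h0⟩ := mem_JJ.1 hc
  have hx' := Sp_inf hdeg hx.1
  obtain ⟨ξ, h1, h2⟩ := (isPsi_of h0).weight hN hF0 hF hx'
  have hξ := psi_of_sub (isPsi_of h0) h2
  have h3 : th N A * x ∈ Sp N A fun a b p q => p + q = 2 * j + 1 ∧ a + p - b - q = 0 :=
    Sp_mul th_mem hx' fun _ _ _ _ _ _ _ _ _ _ => by omega
  have h4 : iv ξ + (d : ℂ) • -dx x ∈ II N A := by
    refine gg_div (w := 0) hN hF0 hF ?_ ?_ ?_
    · rwa [sub_zero, mul_neg, ← sub_eq_add_neg]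
    · rw [map_neg]
      exact neg_mem (gg_iv_dx hx)
    · rw [map_zero]
      exact zero_mem _
  obtain ⟨g, y, h5, h6⟩ := gysinP (κ := ξ + (d : ℂ) • dx (th N A * x)) (j := j + 1) (by omega) hj
    (add_mem (gr_mono (fun _ _ _ _ _ => by omega) h1)
      (Submodule.smul_mem _ _ (dx_mem h3 fun _ _ _ _ _ => by omega))) (by
      convert sub_mem h4 (smul_II (d : ℂ) (dx_II (gg_iv_th hx.2))) using 1
      rw [map_add, map_smul, gg_iv_dx_eq (gr_mono (fun _ _ _ _ h => h.2) h3), map_sub, smul_sub,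
        smul_neg, smul_neg]
      abel) (by
      convert add_mem (hξ.closed hN hF0 hc) (Ideal.mul_mem_left _ (dx (xo F)) h2) using 1
      rw [map_add, map_smul, dx_dx, smul_zero, pa_apply, mul_sub, psi_dd]
      abel)
  exact ⟨g, ξ, y, hξ, h5, h6⟩

theorem Gy.eq_zero (hF0 : F ≠ 0) (hF : F.IsHomogeneous d) (hj : j + 2 ≤ N) (h : Gy F d j x g)
    (hx : Hor x) {η : OO N A} (hη : Hor η) (e : x - dx η ∈ JJ F) : g = 0 := by
  have hN : 0 < N := by omega
  obtain ⟨ξ, y, h1, h2, h3⟩ := h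
  obtain ⟨a, b, h4⟩ := mem_JJ.1 e
  have h5 : IsPsi F x (dx (xo F) * dx a) := by
    have := neg_mem (psi_step h4)
    rwa [map_sub, dx_dx, sub_zero, neg_sub] at this
  have h6 : iv (x - dx η) ∈ II N A := by
    rw [map_sub]
    exact sub_mem hx.2 (gg_iv_dx hη)
  have h7 := gg_div_th (u := -(dx (xo F) * a)) (w := 0) hN hF0 hF (by
    convert Ideal.mul_mem_left _ (dx (xo F)) h4 using 1
    rw [mul_sub (dx (xo F)) (x - dx η), mul_add, psi_dd, psi_comm, mul_neg]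
    abel) h6 (by
    rw [map_zero]
    exact zero_mem _)
  refine np (j := j + 1) (y := -(dx (xo F) * a) + (d : ℂ) • (th N A * (x - dx η)) +
    (d : ℂ) • (dx (th N A) * η) - y) hj ?_ ?_
  · rw [map_sub, map_add, map_smul]
    exact sub_mem (add_mem h7 (smul_II _ (gg_iv_mem gg_iv_dth hη.2))) h2
  · convert sub_mem (h1.unique hN hF0 h5) h3 using 1
    rw [map_sub, map_add, map_add, map_neg, psi_d2, map_smul, map_smul, mul_sub, map_sub,
      gg_dx_th, gg_dx_dth, smul_sub]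
    abel

theorem Gy.flat (hF0 : F ≠ 0) (hF : F.IsHomogeneous d) (hj : j + 2 ≤ N) {F' : Pol N A}
    {E : Derivation ℂ (RR N A) (RR N A)} (hX : ∀ s, E (X s) = 0)
    (hE : ∀ s r, E (pd s r) = pd s (E r)) (hF' : E (rename inl F) = rename inl F')
    (hg : E (C g) = C g') {x₁ α β α₁ β₁ : OO N A} (h : Gy F d j x g) (hx : Hor x) (hx₁ : Hor x₁)
    (h0 : dx x - (xo F * α + dx (xo F) * β) ∈ II N A)
    (h1 : lie E x - dx x₁ - (xo F * α₁ + xo F' * β - dx (xo F) * β₁) ∈ II N A) : g' = 0 := by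
  have hN : 0 < N := by omega
  obtain ⟨ξ, y, g1, g2, g3⟩ := h
  have e1 : lie E (xo F) = xo F' := by rw [xo, lie_of, hF', xo]
  have key := gm2_key hN hF0 hX hE hF' h0 h1
  have h2 := gm2_lie_II hX hE (sub_mem g3 (g1.unique hN hF0 (isPsi_of h0)))
  have h3 : iv (lie E x - dx x₁) ∈ II N A := by
    rw [map_sub, ← gg_lie_iv hX]
    exact sub_mem (gm2_lie_II hX hE hx.2) (gg_iv_dx hx₁)
  have h4 := gg_div_th (u := xo F' * α - dx (xo F) * α₁) (w := xo F' * dx x) hN hF0 hF (by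
    convert sub_mem (Ideal.mul_mem_left _ (dx (xo F)) h1) (Ideal.mul_mem_left _ (xo F') h0)
      using 1
    simp only [mul_sub, mul_add, gm2_dxo_dxo, gm2_comm F (dx (xo F)), gm2_comm F' (dx (xo F)),
      gm2_comm F (xo F')]
    abel) h3 (by
    rw [xo, id2_iv_of_mul]
    exact Ideal.mul_mem_left _ _ (gg_iv_dx hx))
  refine np (j := j + 1) (y := xo F' * α - dx (xo F) * α₁ +
    (d : ℂ) • (th N A * (lie E x - dx x₁)) + (d : ℂ) • (dx (th N A) * x₁) - lie E y) hj ?_ ?_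
  · rw [map_sub, map_add, map_smul, ← gg_lie_iv hX]
    exact sub_mem (add_mem h4 (smul_II _ (gg_iv_mem gg_iv_dth hx₁.2))) (gm2_lie_II hX hE g2)
  · convert sub_mem key h2 using 1
    simp only [map_sub, map_add, map_smul, lie_mul, gm2_lie_dx hE, e1, gg_lie_th hX,
      gg_lie_pow hX hE, lie_of, hg, psi_d1, psi_d2, mul_sub, gg_dx_th, gg_dx_dth, smul_sub,
      zero_mul, mul_zero, zero_add, add_zero]
    abel

end Pool.Agent.Lib.MP_e9c0f3_ag.DR
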