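import Pool.Agent.Lib.MP_e9c0f3_ag.DR.GM

/-! Invariant horizontal lifts. -/

open MvPolynomial Sum

namespace Pool.Agent.Lib.MP_e9c0f3_ag.DR

open Om

variable {N : ℕ} {A : Type} [CommRing A] [Algebra ℂ A] {F : Pol N A}

theorem lift_hor (ω : Form (Jou F)) : ∃ x ∈ Sp N A fun a b p q => a + p - b - q = 0,
    iv x = 0 ∧ Ideal.Quotient.mk _ x = phiB F ω := by
  obtain ⟨x, h1, h2⟩ := form_ind ((((Sp N A fun a b p q => a + p - b - q = 0) ⊓
    LinearMap.ker (iv : OO N A →ₗ[ℂ] OO N A)).toAddSubgroup.map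
    (Ideal.Quotient.mk (JJ F)).toAddMonoidHom).comap (phiB F).toAddMonoidHom) (fun b l => by
      obtain ⟨x, h1, h2, h3⟩ := bt_word b l
      exact ⟨x, ⟨gr_mono (fun _ _ _ _ h => h.2) h1, h2⟩, h3⟩) ω
  exact ⟨x, h1.1, h1.2, h2⟩

theorem lift_hor_deg {n : ℕ} {ω : Form (Jou F)} (h : ω ∈ ⋀[Jou F]^n Ω[Jou F⁄ℂ]) :
    ∃ x ∈ Sp N A fun a b p q => p + q = n ∧ a + p - b - q = 0,
      iv x = 0 ∧ Ideal.Quotient.mk _ x = phiB F ω := by
  obtain ⟨x, h1, h2⟩ := deg_ind ((((Sp N A fun a b p q => p + q = n ∧ a + p - b - q = 0) ⊓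
    LinearMap.ker (iv : OO N A →ₗ[ℂ] OO N A)).toAddSubgroup.map
    (Ideal.Quotient.mk (JJ F)).toAddMonoidHom).comap (phiB F).toAddMonoidHom) (by
      rintro b l rfl
      obtain ⟨x, h1, h2, h3⟩ := bt_word b l
      exact ⟨x, ⟨h1, h2⟩, h3⟩) h
  exact ⟨x, h1.1, h1.2, h2⟩

/-- Absolute forms both of whose components are invariant and horizontal. -/
noncomputable def gm4_G (N : ℕ) (A : Type) [CommRing A] [Algebra ℂ A] (n : ℕ) :
    Submodule ℂ (Om (RR N A) (Option (Fin N ⊕ Fin N))) :=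
  ((Sp N A fun a b p q => p + q = n ∧ a + p - b - q = 0) ⊓
    LinearMap.ker (iv : OO N A →ₗ[ℂ] OO N A)).comap ev0.toLinearMap ⊓
  ((Sp N A fun a b p q => a + p - b - q = 0) ⊓
    LinearMap.ker (iv : OO N A →ₗ[ℂ] OO N A)).comap (ev0.toLinearMap ∘ₗ c none)

theorem gm4_mem {n : ℕ} {y : Om (RR N A) (Option (Fin N ⊕ Fin N))} : y ∈ gm4_G N A n ↔
    ((ev0 y ∈ Sp N A fun a b p q => p + q = n ∧ a + p - b - q = 0) ∧ iv (ev0 y) = 0) ∧
      (ev0 (c none y) ∈ Sp N A fun a b p q => a + p - b - q = 0) ∧ iv (ev0 (c none y)) = 0 :=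
  Iff.rfl

theorem gm4_of {r : RR N A} (hr : IsWeightedHomogeneous (vw N) r 0) : of r ∈ gm4_G N A 0 := by
  rw [gm4_mem, c_of, map_zero, map_zero, ev0_of]
  exact ⟨⟨Sp_mono (bt_of_mem hr) fun a b p q _ _ _ _ _ _ h => by omega, io_of _ _⟩,
    zero_mem _, rfl⟩

theorem gm4_step {E : Derivation ℂ (RR N A) (RR N A)} (hX : ∀ s, E (X s) = 0)
    (hC : ∀ t : A, ∃ t', E (C t) = C t') {r : RR N A} (hr : IsWeightedHomogeneous (vw N) r 0)
    {n : ℕ} {y : Om (RR N A) (Option (Fin N ⊕ Fin N))} (hy : y ∈ gm4_G N A n) :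
    dO (gm_ext E) (of r) * y ∈ gm4_G N A (n + 1) := by
  obtain ⟨⟨h1, h2⟩, h3, h4⟩ := gm4_mem.1 hy
  have h5 : iv (dx (of r : OO N A)) = 0 := by
    have h5 := eu_v (n := 0) (Sp_mono (bt_of_mem hr) fun a b p q _ _ _ _ _ _ h => by omega)
    rwa [id2_iv_of, map_zero, add_zero, zero_smul] at h5
  have h6 : dx (of r : OO N A) ∈ Sp N A fun a b p q => p + q = 1 ∧ a + p - b - q = 0 :=
    dx_mem (bt_of_mem hr) fun a b p q h => by omega
  have h7 : (of (E r) : OO N A) ∈ Sp N A fun a b p q => a - b = 0 ∧ p = 0 ∧ q = 0 :=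
    lie_mem hX hC (bt_of_mem hr)
  have e1 : ev0 (dO (gm_ext E) (of r) * y) = dx (of r) * ev0 y := by
    rw [map_mul, gm_ev0_d, ev0_of]
  have e2 : ev0 (c none (dO (gm_ext E) (of r) * y)) =
      of (E r) * ev0 y - dx (of r) * ev0 (c none y) := by
    rw [gm_c_d, map_sub, map_mul, map_mul, gm_ev0_d, ev0_of, ev0_of]
  rw [gm4_mem, e1, e2]
  refine ⟨⟨Sp_mul h6 h1 fun a b p q a' b' p' q' h h' => by omega, ?_⟩,
    sub_mem (Sp_mul h7 h1 fun a b p q a' b' p' q' h h' => by omega)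
      (Sp_mul h6 h3 fun a b p q a' b' p' q' h h' => by omega), ?_⟩
  · rw [id2_iv_dof_mul, h5, h2, zero_mul, mul_zero, sub_zero]
  · rw [map_sub, id2_iv_of_mul, id2_iv_dof_mul, h5, h2, h4, zero_mul, mul_zero, mul_zero, sub_zero,
      sub_zero]

theorem gm4_exists {E : Derivation ℂ (RR N A) (RR N A)} (hX : ∀ s, E (X s) = 0)
    (hC : ∀ t : A, ∃ t', E (C t) = C t') (hE : ∀ s r, E (pd s r) = pd s (E r)) {n : ℕ}
    {ω η : Form (Jou F)} (hω : ω ∈ ⋀[Jou F]^n Ω[Jou F⁄ℂ]) (hD : IsD ω η) (hη : η ∈ base 2 F) :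
    ∃ y a b a' b' : Om (RR N A) (Option (Fin N ⊕ Fin N)), y ∈ gm4_G N A n ∧
      Ideal.Quotient.mk _ (ev0 y) = phiB F ω ∧ dO (gm_ext E) y =
      of (rename inl F) * a + dO (gm_ext E) (of (rename inl F)) * b +
        (of (ff N A - 1) * a' + dO (gm_ext E) (of (ff N A - 1)) * b') := by
  have hP : ∀ s t r, gm_ext E s (gm_ext E t r) = gm_ext E t (gm_ext E s r) := by
    rintro (_ | s) (_ | t) r
    · rfl
    · exact hE t r
    · exact (hE s r).symm
    · exact pd_comm s t r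
  let S := sd (gm_ext E) hP
  have hg : S.σ (of (rename inl F)) = of (rename inl F) := sg_of _
  have hh : S.σ (of (ff N A - 1)) = of (ff N A - 1) := sg_of _
  let J := gm_idl S hg hh
  let T := S.quot J (gm_idl_σ S hg hh) (gm_idl_d S hg hh)
  let ψ : TT F →ₐ[ℂ] Om (RR N A) (Option (Fin N ⊕ Fin N)) ⧸ J :=
    Ideal.Quotient.liftₐ (relJ F) ((Ideal.Quotient.mkₐ ℂ J).comp of) fun r hr => by
      obtain ⟨a, b, rfl⟩ := Ideal.mem_span_pair.1 hr
      refine Ideal.Quotient.eq_zero_iff_mem.2 ⟨of a, 0, of b, 0, ?_⟩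
      rw [map_add, map_mul, map_mul, mul_zero, mul_zero, add_zero, add_zero, ← of_comm a,
        ← of_comm b]
      rfl
  have hψ : ∀ r, ψ (Ideal.Quotient.mk _ r) = Ideal.Quotient.mk J (of r) := fun _ => rfl
  obtain ⟨φ, hφ⟩ := exists_isDG T (ψ.comp (inc F)) fun b => by
    obtain ⟨r, hr⟩ := Ideal.Quotient.mk_surjective (inc F b)
    rw [AlgHom.comp_apply, ← hr, hψ]
    exact congrArg (Ideal.Quotient.mk J) (sg_of r)
  have h0 : φ η = 0 := by
    refine (Ideal.span_le.2 ?_ : base 2 F ≤ RingHom.ker φ) hη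
    rintro _ ⟨a, rfl⟩
    have h1 : ∀ t : A, φ (dd (algebraMap A (Jou F) t)) =
        Ideal.Quotient.mk J (of (E (C t)) * e none) := fun t =>
      (hφ.map_dd _).trans (congrArg (Ideal.Quotient.mk J) (gm_d_C E t))
    rw [SetLike.mem_coe, RingHom.mem_ker, List.ofFn_succ, List.ofFn_succ, List.ofFn_zero,
      List.prod_cons, List.prod_cons, List.prod_nil, mul_one, map_mul, h1, h1, ← map_mul,
      mul_assoc, ← mul_assoc (e none), ← of_comm, mul_assoc, e_mul_e, mul_zero, mul_zero, map_zero]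
  have hev : ∀ a b a' b' : Om (RR N A) (Option (Fin N ⊕ Fin N)),
      ev0 (of (rename inl F) * a + S.d (of (rename inl F)) * b +
        (of (ff N A - 1) * a' + S.d (of (ff N A - 1)) * b')) =
      xo F * ev0 a + dx (xo F) * ev0 b +
        (of (ff N A - 1) * ev0 a' + dx (of (ff N A - 1)) * ev0 b') := fun a b a' b' => by
    have h1 : ∀ r, ev0 (S.d (of r)) = dx (of r) := fun r => (gm_ev0_d E _).trans (by rw [ev0_of])
    simp only [map_add, map_mul, h1, ev0_of, xo]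
  have hle : J ≤ (JJ F).comap (ev0 : Om (RR N A) (Option (Fin N ⊕ Fin N)) →ₐ[ℂ] OO N A) := by
    rintro _ ⟨a, b, a', b', rfl⟩
    refine Ideal.mem_comap.2 (mem_JJ.2 ⟨ev0 a, ev0 b, ?_⟩)
    rw [hev, add_sub_cancel_left]
    exact gm_mem_II _ _
  let ev := Ideal.quotientMapₐ (JJ F) ev0 hle
  have hv : ∀ y, ev (Ideal.Quotient.mk J y) = Ideal.Quotient.mk (JJ F) (ev0 y) := fun _ => rfl
  have h1 : (ev : _ →+* _).comp φ = phiB F := by
    refine IsDG.unique ⟨(isDG_B F).even, fun b => ?_, fun b => ?_⟩ (isDG_B F)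
    · obtain ⟨r, hr⟩ := Ideal.Quotient.mk_surjective (inc F b)
      rw [RingHom.comp_apply, hφ.alg, AlgHom.comp_apply, AlgHom.comp_apply, ← hr, hψ, psiT_mk]
      exact (hv _).trans (by rw [ev0_of])
    · obtain ⟨r, hr⟩ := Ideal.Quotient.mk_surjective (inc F b)
      rw [RingHom.comp_apply, hφ.map_dd, AlgHom.comp_apply, AlgHom.comp_apply, ← hr, hψ, psiT_mk,
        ST_d]
      exact (hv (dO (gm_ext E) (of r))).trans (by rw [gm_ev0_d, ev0_of])
  have hw : ∀ (b : Jou F) (l : List (Jou F)), ∃ y ∈ gm4_G N A l.length,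
      Ideal.Quotient.mk J y = φ (b • (l.map dd).prod) := fun b l => by
    induction l with
    | nil =>
      obtain ⟨r, hr, e⟩ := jou_lift b
      refine ⟨of r, gm4_of hr, ?_⟩
      rw [hφ.bsmul, List.map_nil, List.prod_nil, map_one, mul_one, AlgHom.comp_apply, e, hψ]
    | cons t l ih =>
      obtain ⟨r, hr, e⟩ := jou_lift t
      obtain ⟨y, h2, h3⟩ := ih
      refine ⟨_, gm4_step hX hC hr h2, ?_⟩
      rw [bt_cons, map_mul, map_mul, h3, hφ.map_dd, AlgHom.comp_apply, e, hψ]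
      rfl
  obtain ⟨y, hy1, hy⟩ := deg_ind (((gm4_G N A n).toAddSubgroup.map
    (Ideal.Quotient.mk J).toAddMonoidHom).comap φ.toAddMonoidHom) (by
      rintro b l rfl
      exact hw b l) hω
  replace hy : Ideal.Quotient.mk J y = φ ω := hy
  have h5 : Ideal.Quotient.mk J (S.d y) = 0 := by
    rw [← h0, hφ.isD hD, ← hy]
    rfl
  obtain ⟨u, v, u', v', h6⟩ := Ideal.Quotient.eq_zero_iff_mem.1 h5
  refine ⟨y, u, v, u', v', hy1, ?_, h6⟩
  rw [← h1, ← hv, hy]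
  rfl

/-- The two components of the absolute differential of an invariant horizontal lift. -/
theorem gm_lift4 {E : Derivation ℂ (RR N A) (RR N A)} (hX : ∀ s, E (X s) = 0)
    (hC : ∀ t : A, ∃ t', E (C t) = C t') (hE : ∀ s r, E (pd s r) = pd s (E r)) {n : ℕ}
    {ω η : Form (Jou F)} (hω : ω ∈ ⋀[Jou F]^n Ω[Jou F⁄ℂ]) (hD : IsD ω η) (hη : η ∈ base 2 F) :
    ∃ x x₁ α β α₁ β₁ : OO N A, Ideal.Quotient.mk _ x = phiB F ω ∧
      (x ∈ Sp N A fun a b p q => p + q = n ∧ a + p - b - q = 0) ∧ iv x = 0 ∧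
      (x₁ ∈ Sp N A fun a b p q => a + p - b - q = 0) ∧ iv x₁ = 0 ∧
      dx x - (xo F * α + dx (xo F) * β) ∈ II N A ∧
      lie E x - dx x₁ - (xo F * α₁ + of (E (rename inl F)) * β - dx (xo F) * β₁) ∈ II N A := by
  obtain ⟨y, a, b, a', b', hy, hx, h⟩ := gm4_exists hX hC hE hω hD hη
  obtain ⟨⟨g1, g2⟩, g3, g4⟩ := gm4_mem.1 hy
  have h0 : E (ff N A - 1) = 0 := by
    rw [map_sub, E.map_one_eq_zero, sub_zero, ff, map_sum]
    exact Finset.sum_eq_zero fun i _ => by rw [E.leibniz, hX, hX, smul_zero, smul_zero, add_zero]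
  refine ⟨ev0 y, ev0 (c none y), ev0 a, ev0 b, ev0 (c none a), ev0 (c none b), hx, g1, g2, g3, g4,
    ?_, ?_⟩
  · rw [← gm_ev0_d E, h]
    simp only [map_add, map_mul, gm_ev0_d, ev0_of, xo, add_sub_cancel_left]
    exact gm_mem_II _ _
  · have h1 : lie E (ev0 y) - dx (ev0 (c none y)) = ev0 (c none (dO (gm_ext E) y)) := by
      rw [← gm_ev0_d E, ← ev0_lie, ← map_sub, ← show _ = lie E y from c_dO (gm_ext E) none y,
        add_sub_cancel_right]
    rw [h1, h]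
    simp only [map_add, c_of_mul, gm_c_d, h0, map_zero, zero_mul, zero_sub, map_neg, map_mul,
      gm_ev0_d, ev0_of, xo]
    convert gm_mem_II (ev0 (c none a')) (-ev0 (c none b')) using 1
    simp only [map_sub ev0, map_mul, gm_ev0_d, ev0_of, mul_neg]
    abel

end Pool.Agent.Lib.MP_e9c0f3_ag.DR
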