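import Pool.Agent.Lib.MP_e9c0f3_ag.DR.Inj

/-! Injectivity on forms. -/

open MvPolynomial Sum

namespace Pool.Agent.Lib.MP_e9c0f3_ag.DR

open Om

variable {N : ℕ}

section aux

open TensorProduct

variable {B T : Type} [CommRing B] [Algebra ℂ B] [CommRing T] [Algebra ℂ T] [Algebra B T]
  [IsScalarTower ℂ B T]

omit [Algebra ℂ T] [IsScalarTower ℂ B T] in
theorem inj2_anti {ι κ : Type} [Fintype ι] [Fintype κ] (a : ι → T) (b : ι → B) (a' : κ → T)
    (b' : κ → B) :
    (∑ i, a i ⊗ₜ[B] dd (b i)) * (∑ k, a' k ⊗ₜ[B] dd (b' k)) +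
      (∑ k, a' k ⊗ₜ[B] dd (b' k)) * (∑ i, a i ⊗ₜ[B] dd (b i)) = 0 := by
  rw [Finset.sum_mul_sum, Finset.sum_mul_sum, Finset.sum_comm (s := (Finset.univ : Finset κ)),
    ← Finset.sum_add_distrib]
  refine Finset.sum_eq_zero fun i _ => ?_
  rw [← Finset.sum_add_distrib]
  refine Finset.sum_eq_zero fun k _ => ?_
  rw [Algebra.TensorProduct.tmul_mul_tmul, Algebra.TensorProduct.tmul_mul_tmul, mul_comm (a' k),
    ← tmul_add, dd, dd, ExteriorAlgebra.ι_add_mul_swap, tmul_zero]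

omit [Algebra ℂ T] [IsScalarTower ℂ B T] in
theorem inj2_move (b : B) (ω : Form B) :
    algebraMap B T b ⊗ₜ[B] ω = (1 : T) ⊗ₜ[B] (b • ω) := by
  rw [Algebra.algebraMap_eq_smul_one, smul_tmul]

theorem inj2_dd_sum {ι : Type} [Fintype ι] (b : ι → B) : dd (∑ i, b i) = ∑ i, dd (b i) := by
  simp only [dd, map_sum]

/-- The connection on the torsor. -/
theorem inj2_conn (q : RR N ℂ →ₐ[ℂ] T) (P : Fin N → Fin N → B)
    (hP : ∀ i j, algebraMap B T (P i j) = q (X (inl i) * X (inr j)))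
    (hPP : ∀ i j, ∑ k, P i k * P k j = P i j) :
    ∃ Φ : OO N ℂ →ₐ[ℂ] T ⊗[B] Form B, (∀ r, Φ (of r) = q r ⊗ₜ[B] 1) ∧
      ∀ i j, Φ (dx (of (X (inl i) * X (inr j)))) = (1 : T) ⊗ₜ[B] dd (P i j) := by
  let a : Fin N ⊕ Fin N → Fin N → T := Sum.elim (fun _ k => q (X (inl k))) fun _ k => q (X (inr k))
  let b : Fin N ⊕ Fin N → Fin N → B := Sum.elim (fun i k => P i k) fun j k => P k j
  obtain ⟨Φ, h0, h1⟩ := exists_lift (R := RR N ℂ) (σ := Fin N ⊕ Fin N)
    ((IsScalarTower.toAlgHom ℂ T (T ⊗[B] Form B)).comp q) (fun s => ∑ k, a s k ⊗ₜ[B] dd (b s k))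
    (fun r s => Algebra.commutes (q r) _) (fun s => SD.half (inj2_anti _ _ _ _))
    (fun s t => inj2_anti _ _ _ _)
  have h2 : ∀ r, Φ (of r) = q r ⊗ₜ[B] 1 := h0
  refine ⟨Φ, h2, fun i j => ?_⟩
  rw [map_mul, dx_of_mul, dx_X, dx_X, ← of_comm, map_add, map_mul, map_mul, h2, h2, h1, h1,
    Finset.mul_sum, Finset.mul_sum, ← Finset.sum_add_distrib, ← hPP i j, inj2_dd_sum, tmul_sum]
  refine Finset.sum_congr rfl fun k _ => ?_
  simp only [a, b, Sum.elim_inl, Sum.elim_inr]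
  rw [Algebra.TensorProduct.tmul_mul_tmul, Algebra.TensorProduct.tmul_mul_tmul, one_mul, one_mul,
    ← map_mul, ← map_mul, mul_comm (X (inr j)), ← hP, ← hP, inj2_move, inj2_move, ← tmul_add,
    dd_mul, add_comm]

/-- The connection restricts to the exterior derivative on invariant functions. -/
theorem inj2_inv (q : RR N ℂ →ₐ[ℂ] T) (P : Fin N → Fin N → B)
    (hP : ∀ i j, algebraMap B T (P i j) = q (X (inl i) * X (inr j)))
    (Φ : OO N ℂ →ₐ[ℂ] T ⊗[B] Form B) (h0 : ∀ r, Φ (of r) = q r ⊗ₜ[B] 1)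
    (h1 : ∀ i j, Φ (dx (of (X (inl i) * X (inr j)))) = (1 : T) ⊗ₜ[B] dd (P i j))
    (G : MvPolynomial (Fin N × Fin N) ℂ) :
    q (aeval (fun ij => X (inl ij.1) * X (inr ij.2)) G) =
        algebraMap B T (aeval (fun ij => P ij.1 ij.2) G) ∧
      Φ (dx (of (aeval (fun ij => X (inl ij.1) * X (inr ij.2)) G : RR N ℂ))) =
        (1 : T) ⊗ₜ[B] dd (aeval (fun ij => P ij.1 ij.2) G) := by
  induction G using MvPolynomial.induction_on with
  | C c =>
    rw [aeval_C, aeval_C, dd_algebraMap, tmul_zero, AlgHom.commutes,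
      ← IsScalarTower.algebraMap_apply, algebraMap_eq, dx_C, map_zero]
    exact ⟨rfl, rfl⟩
  | add G H hG hH =>
    simp only [map_add, hG.1, hG.2, hH.1, hH.2, dd_add, tmul_add, and_self]
  | mul_X G ij hG =>
    rw [map_mul, map_mul (aeval _), aeval_X, aeval_X, map_mul q, map_mul (algebraMap B T), hG.1,
      hP, map_mul of, dx_of_mul, map_add, map_mul Φ, map_mul Φ, hG.2, h0, h0, h1, hG.1, ← hP,
      Algebra.TensorProduct.tmul_mul_tmul, Algebra.TensorProduct.tmul_mul_tmul, one_mul, one_mul,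
      mul_one, mul_one, inj2_move, inj2_move, ← tmul_add, dd_mul, add_comm]
    exact ⟨rfl, rfl⟩

theorem inj2_scale {R : Type} [CommRing R] [Algebra ℂ R] {F : Pol N ℂ} {d : ℕ}
    (hF : F.IsHomogeneous d) (x : Fin N → R) (y : R) :
    aeval (fun i => x i * y) F = y ^ d * aeval x F := by
  rw [F.as_sum, map_sum, map_sum, Finset.mul_sum]
  refine Finset.sum_congr rfl fun m hm => ?_
  have h : m.degree = d := by
    by_contra h
    exact mem_support_iff.1 hm (hF.coeff_eq_zero h)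
  rw [aeval_monomial, aeval_monomial, ← h, Finsupp.degree_apply, Finsupp.prod, Finsupp.prod,
    ← Finset.prod_pow_eq_pow_sum]
  simp only [mul_pow, Finset.prod_mul_distrib]
  ring

omit [Algebra ℂ T] [IsScalarTower ℂ B T] in
theorem inj2_right (ρ : T →ₗ[B] B) (h : ρ 1 = 1) {ω : Form B} (hω : (1 : T) ⊗ₜ[B] ω = 0) :
    ω = 0 := by
  have h1 := congrArg
    ((TensorProduct.lid B (Form B)).toLinearMap ∘ₗ LinearMap.rTensor (Form B) ρ) hω
  simpa [h] using h1

omit [Algebra ℂ B] [IsScalarTower ℂ B T] in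
theorem inj2_idem (q : RR N ℂ →ₐ[ℂ] T) (P : Fin N → Fin N → B)
    (hP : ∀ i j, algebraMap B T (P i j) = q (X (inl i) * X (inr j)))
    (hi : Function.Injective (algebraMap B T)) (hq : q (ff N ℂ) = 1) (i j : Fin N) :
    ∑ k, P i k * P k j = P i j := by
  apply hi
  simp only [map_sum, map_mul (algebraMap B T), hP]
  rw [← mul_one (q (X (inl i) * X (inr j))), ← hq, ff, map_sum, Finset.mul_sum]
  refine Finset.sum_congr rfl fun k _ => ?_
  simp only [map_mul]
  ring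

/-- The connection kills the differential ideal. -/
theorem inj2_kill {F : Pol N ℂ} {d : ℕ} (hF : F.IsHomogeneous d) (q : RR N ℂ →ₐ[ℂ] T)
    (P : Fin N → Fin N → B) (hP : ∀ i j, algebraMap B T (P i j) = q (X (inl i) * X (inr j)))
    (hi : Function.Injective (algebraMap B T)) (hq1 : q (rename inl F) = 0)
    (hq2 : q (ff N ℂ) = 1) (Φ : OO N ℂ →ₐ[ℂ] T ⊗[B] Form B) (h0 : ∀ r, Φ (of r) = q r ⊗ₜ[B] 1)
    (h1 : ∀ i j, Φ (dx (of (X (inl i) * X (inr j)))) = (1 : T) ⊗ₜ[B] dd (P i j)) :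
    ∀ x ∈ JJ F, Φ x = 0 := by
  have h2 := inj2_inv q P hP Φ h0 h1
  have h3 : Φ (dx (of (ff N ℂ))) = 0 := by
    obtain ⟨h4, h5⟩ := h2 (∑ i, X (i, i))
    have h6 : aeval (fun ij : Fin N × Fin N => (X (inl ij.1) * X (inr ij.2) : RR N ℂ))
        (∑ i, X (i, i) : MvPolynomial (Fin N × Fin N) ℂ) = ff N ℂ := by
      simp [ff]
    rw [h6] at h4 h5
    rw [hq2, ← map_one (algebraMap B T)] at h4
    rw [h5, ← hi h4, ← map_one (algebraMap ℂ B), dd_algebraMap, tmul_zero]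
  have h4 : Φ (dx (xo F)) = 0 := by
    have h5 : ∀ j, q (X (inr j)) ^ d • Φ (dx (xo F)) = 0 := by
      intro j
      obtain ⟨h6, h7⟩ := h2 (rename (fun i => (i, j)) F)
      have h8 : aeval (fun ij : Fin N × Fin N => (X (inl ij.1) * X (inr ij.2) : RR N ℂ))
          (rename (fun i => (i, j)) F) = X (inr j) ^ d * rename inl F := by
        rw [aeval_rename, rename_eq_aeval]
        exact inj2_scale hF (fun i => (X (inl i) : RR N ℂ)) (X (inr j))
      rw [h8] at h6 h7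
      rw [map_mul q, hq1, mul_zero, ← map_zero (algebraMap B T)] at h6
      rw [← hi h6, ← map_zero (algebraMap ℂ B), dd_algebraMap, tmul_zero, map_mul of, dx_of_mul,
        map_add Φ, map_mul Φ, map_mul Φ, h0, h0, hq1, zero_tmul, mul_zero, zero_add,
        map_pow q] at h7
      rw [Algebra.smul_def]
      exact h7
    have h6 : Ideal.span (Set.range fun j => q (X (inr j))) = ⊤ := by
      rw [Ideal.eq_top_iff_one, ← hq2, ff, map_sum]
      refine Ideal.sum_mem _ fun k _ => ?_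
      rw [map_mul]
      exact Ideal.mul_mem_left _ _ (Ideal.subset_span ⟨k, rfl⟩)
    have h7 : Ideal.span ((fun x => x ^ d) '' Set.range fun j => q (X (inr j))) ≤
        LinearMap.ker (LinearMap.toSpanSingleton T _ (Φ (dx (xo F)))) := by
      refine Ideal.span_le.2 ?_
      rintro _ ⟨_, ⟨j, rfl⟩, rfl⟩
      exact h5 j
    rw [Ideal.span_pow_eq_top _ h6] at h7
    have h8 := h7 (Submodule.mem_top (x := 1))
    rwa [LinearMap.mem_ker, LinearMap.toSpanSingleton_apply, one_smul] at h8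
  have h5 : JJ F ≤ RingHom.ker Φ := by
    refine Ideal.span_le.2 ?_
    rintro _ (rfl | rfl | rfl | rfl)
    · change Φ _ = 0
      rw [map_sub, map_one, h0, hq2]
      exact sub_self _
    · exact h3
    · change Φ _ = 0
      rw [xo, h0, hq1, zero_tmul]
    · exact h4
  exact fun _ h => h5 h

/-- The abstract form of the injectivity. -/
theorem inj2_main {F : Pol N ℂ} {d : ℕ} (hF : F.IsHomogeneous d) (q : RR N ℂ →ₐ[ℂ] T)
    (P : Fin N → Fin N → B) (hP : ∀ i j, algebraMap B T (P i j) = q (X (inl i) * X (inr j)))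
    (hi : Function.Injective (algebraMap B T)) (hq1 : q (rename inl F) = 0)
    (hq2 : q (ff N ℂ) = 1) (ρ : T →ₗ[B] B) (hρ : ρ 1 = 1)
    (hs : ∀ b, ∃ G : MvPolynomial (Fin N × Fin N) ℂ, aeval (fun ij => P ij.1 ij.2) G = b)
    (φ : Form B →+* OO N ℂ ⧸ JJ F)
    (ha : ∀ b r, q r = algebraMap B T b → φ (algebraMap B _ b) = Ideal.Quotient.mk _ (of r))
    (hd : ∀ b r, q r = algebraMap B T b → φ (dd b) = Ideal.Quotient.mk _ (dx (of r))) :
    Function.Injective φ := by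
  obtain ⟨Φ, h0, h1⟩ := inj2_conn q P hP (inj2_idem q P hP hi hq2)
  let Ψ := Ideal.Quotient.lift (JJ F) (Φ : OO N ℂ →+* T ⊗[B] Form B)
    (inj2_kill hF q P hP hi hq1 hq2 Φ h0 h1)
  have h6 : Ψ.comp φ = (Algebra.TensorProduct.includeRight : Form B →ₐ[B] T ⊗[B] Form B) := by
    refine form_ext (fun b => ?_) fun b => ?_
    · obtain ⟨G, rfl⟩ := hs b
      obtain ⟨h7, -⟩ := inj2_inv q P hP Φ h0 h1 G
      rw [RingHom.comp_apply, ha _ _ h7]
      refine (h0 _).trans ?_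
      rw [h7, inj2_move, Algebra.algebraMap_eq_smul_one]
      rfl
    · obtain ⟨G, rfl⟩ := hs b
      obtain ⟨h7, h8⟩ := inj2_inv q P hP Φ h0 h1 G
      rw [RingHom.comp_apply, hd _ _ h7]
      exact h8
  refine (injective_iff_map_eq_zero _).2 fun ω hω => inj2_right ρ hρ ?_
  have h7 := RingHom.congr_fun h6 ω
  rw [RingHom.comp_apply, hω, map_zero] at h7
  exact h7.symm

end aux

theorem inj2_retr {F : Pol N ℂ} {d : ℕ} (hF : F.IsHomogeneous d) :
    ∃ ρ : TT F →ₗ[Jou F] Jou F, ρ 1 = 1 := by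
  obtain ⟨π, hπ⟩ := exists_proj hF
  have hi : Function.Injective (Algebra.linearMap (Jou F) (TT F)) := Subtype.val_injective
  have hr : ∀ t, π 0 t ∈ LinearMap.range (Algebra.linearMap (Jou F) (TT F)) := by
    intro t
    obtain ⟨r, rfl⟩ := Ideal.Quotient.mk_surjective t
    rw [hπ]
    exact jou_mem (weightedHomogeneousComponent_isWeightedHomogeneous 0 r)
  refine ⟨LinearMap.codRestrictOfInjective (π 0) _ hi hr, hi ?_⟩
  rw [LinearMap.codRestrictOfInjective_comp_apply, ← map_one (Ideal.Quotient.mk (relJ F)), hπ,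
    (isWeightedHomogeneous_one ℂ (vw N)).weightedHomogeneousComponent_same]
  rfl

theorem phiB_injective {F : Pol N ℂ} {d : ℕ} (hF : F.IsHomogeneous d) :
    Function.Injective (phiB F) := by
  obtain ⟨ρ, hρ⟩ := inj2_retr hF
  have hi : Function.Injective (algebraMap (Jou F) (TT F)) := Subtype.val_injective
  refine inj2_main hF (Ideal.Quotient.mkₐ ℂ (relJ F)) (prj F) (fun _ _ => rfl) hi
    (Ideal.Quotient.eq_zero_iff_mem.2 (Ideal.subset_span (Or.inl rfl)))
    (Ideal.Quotient.eq.2 (Ideal.subset_span (Or.inr rfl)) :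
      _ = Ideal.Quotient.mk (relJ F) 1) ρ hρ (fun b => ?_) _ (fun b r h => ?_) fun b r h => ?_
  · obtain ⟨G, hG⟩ := (Algebra.adjoin_range_eq_range_aeval ℂ
      fun ij : Fin N × Fin N => xy F ij.1 ij.2).le b.2
    refine ⟨G, hi ?_⟩
    rw [← aeval_algebraMap_apply]
    exact hG
  · exact ((isDG_B F).alg b).trans (congrArg (psiT F) h.symm)
  · exact ((isDG_B F).map_dd b).trans (congrArg (fun t => (ST F).d (psiT F t)) h.symm)

end Pool.Agent.Lib.MP_e9c0f3_ag.DR
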