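import Pool.Agent.Lib.MP_e9c0f3_ag.DR.Cv

/-! Invariant summands and the residue computation. -/

namespace Pool.Agent.Lib.MP_e9c0f3_ag.DR

namespace Cv

variable {M V : Type} [Ring M] [Algebra ℂ M] [AddCommGroup V] [Module ℂ V] (C : Cv M V)

theorem cv2_D_one : C.D 1 = 0 := by
  have h := C.D_mul 1 1
  rw [mul_one, mul_one, map_one C.tw, one_mul] at h
  exact left_eq_add.1 h

theorem cv2_tw_pow (n : ℕ) : C.tw (C.K ^ n) = C.K ^ n := by
  rw [map_pow, C.tw_K]

theorem cv2_D_pow (hφ : C.φ = 0) (n : ℕ) : C.D (C.K ^ n) = 0 := by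
  induction n with
  | zero => rw [pow_zero, cv2_D_one]
  | succ n ih => rw [pow_succ, C.D_mul, ih, C.D_K, hφ, neg_zero, mul_zero, zero_mul, add_zero]

theorem cv2_two {x : M} (h : x = -x) : x = 0 := by
  have h2 : (2 : ℂ) • x = 0 := by
    rw [two_smul]
    nth_rewrite 1 [h]
    exact neg_add_cancel x
  have h3 : x = (2 : ℂ)⁻¹ • (2 : ℂ) • x := by
    rw [smul_smul, inv_mul_cancel₀ two_ne_zero, one_smul]
  rw [h3, h2, smul_zero]

section Inv

variable {e : M}

theorem cv2_De (hD : (1 - e) * C.D e = 0) : C.D e = e * C.D e := by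
  rw [sub_mul, one_mul, sub_eq_zero] at hD
  exact hD

theorem cv2_De_mul (he : C.tw e = e) (hee : e * e = e) (hD : (1 - e) * C.D e = 0) :
    C.D e * e = 0 := by
  have h := C.D_mul e e
  rw [hee, he, ← C.cv2_De hD] at h
  exact left_eq_add.1 (h.trans (add_comm _ _))

omit [Algebra ℂ M] in
theorem cv2_inv_iff (m : M) : (1 - e) * m * e = 0 ↔ m * e = e * m * e := by
  rw [sub_mul, sub_mul, one_mul, sub_eq_zero]

omit [Algebra ℂ M] in
theorem cv2_one_sub_mul (hee : e * e = e) : (1 - e) * e = 0 := by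
  rw [sub_mul, one_mul, hee, sub_self]

/-- Elements which preserve the image of `e`. -/
def cv2_U (hee : e * e = e) : Subalgebra ℂ M where
  carrier := {m | m * e = e * m * e}
  mul_mem' := fun {a b} ha hb => by
    have ha' : a * e = e * a * e := ha
    have hb' : b * e = e * b * e := hb
    change a * b * e = e * (a * b) * e
    calc a * b * e = a * (b * e) := mul_assoc _ _ _
      _ = (a * e) * b * e := by rw [hb']; simp only [mul_assoc]
      _ = (e * a * e) * b * e := by rw [← ha']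
      _ = e * a * (e * b * e) := by simp only [mul_assoc]
      _ = e * (a * b) * e := by rw [← hb']; simp only [mul_assoc]
  add_mem' := fun {a b} ha hb => by
    have ha' : a * e = e * a * e := ha
    have hb' : b * e = e * b * e := hb
    change (a + b) * e = e * (a + b) * e
    rw [mul_add, add_mul, add_mul, ← ha', ← hb']
  algebraMap_mem' := fun c => by
    change algebraMap ℂ M c * e = e * algebraMap ℂ M c * e
    rw [← Algebra.commutes c e, mul_assoc, hee]

theorem cv2_mem_U (hee : e * e = e) {m : M} : m ∈ cv2_U hee ↔ m * e = e * m * e := Iff.rfl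

theorem cv2_tw_mem (he : C.tw e = e) (hee : e * e = e) {m : M} (hm : m ∈ cv2_U hee) :
    C.tw m ∈ cv2_U hee := by
  rw [cv2_mem_U] at hm ⊢
  have h := congrArg C.tw hm
  simpa only [map_mul, he] using h

theorem cv2_D_mem (he : C.tw e = e) (hee : e * e = e) (hD : (1 - e) * C.D e = 0) {m : M}
    (hm : m ∈ cv2_U hee) : C.D m ∈ cv2_U hee := by
  have ht := (cv2_mem_U hee).1 (C.cv2_tw_mem he hee hm)
  rw [cv2_mem_U] at hm ⊢
  have h0 := C.cv2_De_mul he hee hD
  have h := congrArg (fun x => C.D x * e) hm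
  simp only [C.D_mul, add_mul, he, mul_assoc, hee, h0, mul_zero, add_zero] at h
  have h1 : C.D e * (m * e) = 0 := by
    rw [hm, ← mul_assoc, ← mul_assoc, h0, zero_mul, zero_mul]
  rw [h1, zero_add] at h
  rw [mul_assoc]
  exact h

theorem cv2_K_mem (he : C.tw e = e) (hee : e * e = e) (hD : (1 - e) * C.D e = 0) :
    C.K ∈ cv2_U hee := by
  have h0 : e ∈ cv2_U hee := by rw [cv2_mem_U, hee, hee]
  have h := (cv2_mem_U hee).1 (C.cv2_D_mem he hee hD (C.cv2_D_mem he hee hD h0))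
  rw [C.D_D] at h
  rw [cv2_mem_U]
  have h1 : e * (C.K * e - e * C.K) * e = 0 := by
    rw [mul_sub, sub_mul, ← mul_assoc e e, hee, mul_assoc e (C.K * e), mul_assoc C.K, hee,
      mul_assoc, sub_self]
  rw [h1, sub_mul, mul_assoc C.K, hee, sub_eq_zero] at h
  exact h

theorem cv2_str_De (he : C.tw e = e) (hee : e * e = e) (hD : (1 - e) * C.D e = 0) {m : M}
    (hm : m ∈ cv2_U hee) : C.str (C.D e * m) = 0 := by
  rw [cv2_mem_U] at hm
  rw [C.cv2_De hD, mul_assoc, C.str_even e _ he, mul_assoc, hm, ← mul_assoc, ← mul_assoc,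
    C.cv2_De_mul he hee hD, zero_mul, zero_mul, map_zero]

theorem cv2_str_mul (he : C.tw e = e) (hee : e * e = e) {a b : M} (ha : a ∈ cv2_U hee)
    (hb : b ∈ cv2_U hee) : C.str (e * (a * b)) = C.str ((e * a * e) * (e * b * e)) := by
  rw [cv2_mem_U] at ha hb
  rw [C.str_even e _ he, ← ha, ← hb]
  congr 1
  rw [mul_assoc a e, ← mul_assoc e b e, ← hb, mul_assoc]

/-- The restriction of the structure to an invariant direct summand. -/
noncomputable def cv2_res (hφ : C.φ = 0) (he : C.tw e = e) (hee : e * e = e)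
    (hD : (1 - e) * C.D e = 0) : Cv (cv2_U hee) V where
  tw := (C.tw.comp (cv2_U hee).val).codRestrict _ fun m => C.cv2_tw_mem he hee m.2
  D :=
    { toFun := fun m => ⟨C.D m, C.cv2_D_mem he hee hD m.2⟩
      map_add' := fun a b => Subtype.ext (map_add C.D a.1 b.1)
      map_smul' := fun c a => Subtype.ext (map_smul C.D c a.1) }
  str := C.str ∘ₗ LinearMap.mulLeft ℂ e ∘ₗ (cv2_U hee).val.toLinearMap
  d := C.d
  L := 0
  φ := 0
  K := ⟨C.K, C.cv2_K_mem he hee hD⟩
  tw_tw := fun m => Subtype.ext (C.tw_tw m)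
  D_mul := fun m n => Subtype.ext (C.D_mul m n)
  tw_D := fun m => Subtype.ext (C.tw_D m)
  str_D := fun m => by
    change C.str (e * C.D m) = C.d (C.str (e * m))
    rw [← C.str_D, C.D_mul, map_add, C.cv2_str_De he hee hD m.2, zero_add, he]
  str_even := fun a b h => by
    have h' : C.tw a = a := congrArg Subtype.val h
    change C.str (e * (a.1 * b.1)) = C.str (e * (b.1 * a.1))
    rw [C.cv2_str_mul he hee a.2 b.2, C.cv2_str_mul he hee b.2 a.2]
    refine C.str_even _ _ ?_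
    rw [map_mul, map_mul, he, h']
  str_odd := fun a b h => by
    have h' : C.tw a = -a := congrArg Subtype.val h
    change C.str (e * (a.1 * b.1)) = C.str (e * (C.tw b.1 * a.1))
    rw [C.cv2_str_mul he hee a.2 b.2, C.cv2_str_mul he hee (C.cv2_tw_mem he hee b.2) a.2,
      C.str_odd (e * a.1 * e)]
    · rw [map_mul C.tw, map_mul C.tw, he]
    · rw [map_mul C.tw, map_mul C.tw, he, h', mul_neg, neg_mul]
  tw_φ := by rw [map_zero, neg_zero]
  φ_mul := fun m => by rw [zero_mul, mul_zero]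
  str_φ := fun m => by rw [zero_mul, map_zero, LinearMap.zero_apply]
  D_φ := map_zero _
  tw_K := Subtype.ext C.tw_K
  D_D := fun m => Subtype.ext (C.D_D m)
  D_K := Subtype.ext (by
    change C.D C.K = -0
    rw [C.D_K, hφ])

theorem cv2_proj_mem (hee : e * e = e) (y : M) : y - (1 - e) * y * e ∈ cv2_U hee := by
  rw [cv2_mem_U, ← cv2_inv_iff]
  have h1 : (1 - e) * (1 - e) = 1 - e := by
    rw [mul_sub, mul_one, cv2_one_sub_mul hee, sub_zero]
  rw [mul_sub, sub_mul, ← mul_assoc, ← mul_assoc, h1, mul_assoc _ e e, hee, sub_self]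

end Inv

/-- Transgression on an invariant direct summand. -/
theorem trans_inv (hφ : C.φ = 0) {e : M} (he : C.tw e = e) (hee : e * e = e)
    (hD : (1 - e) * C.D e = 0) (G : Set M) (hG : ∀ ω ∈ G, C.Gen ω) {a : M} (ha : C.tw a = -a)
    (haG : a ∈ AddSubgroup.closure {m | ∃ ω ∈ G, ∃ y, m = ω * y}) (hae : (1 - e) * a * e = 0)
    (n : ℕ) : ∃ v, C.str (e * (C.K + C.D a + a * a) ^ n) - C.str (e * C.K ^ n) = C.d v := by
  cases n with
  | zero => exact ⟨0, by rw [pow_zero, pow_zero, sub_self, map_zero]⟩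
  | succ n =>
  have haU : a ∈ cv2_U hee := (cv2_inv_iff a).1 hae
  set C' := C.cv2_res hφ he hee hD with hC'
  let G' : Set (cv2_U hee) := {ω | ω.1 ∈ G}
  have hG' : ∀ ω ∈ G', C'.Gen ω := fun ω hω =>
    ⟨Subtype.ext (hG ω.1 hω).odd, fun m => Subtype.ext ((hG ω.1 hω).comm m.1),
      Subtype.ext (hG ω.1 hω).closed⟩
  have key : ∀ m ∈ AddSubgroup.closure {m | ∃ ω ∈ G, ∃ y, m = ω * y},
      (⟨m - (1 - e) * m * e, cv2_proj_mem hee m⟩ : cv2_U hee) ∈
        AddSubgroup.closure {m | ∃ ω ∈ G', ∃ y, m = ω * y} := by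
    intro m hm
    induction hm using AddSubgroup.closure_induction with
    | mem x hx =>
      obtain ⟨ω, hω, y, rfl⟩ := hx
      have hc : ω * (1 - e) = (1 - e) * ω := by
        rw [(hG ω hω).comm, map_sub, map_one, he]
      have hωU : ω ∈ cv2_U hee := by
        rw [cv2_mem_U, (hG ω hω).comm e, he, mul_assoc, (hG ω hω).comm e, he, ← mul_assoc, hee]
      refine AddSubgroup.subset_closure
        ⟨⟨ω, hωU⟩, hω, ⟨y - (1 - e) * y * e, cv2_proj_mem hee y⟩, Subtype.ext ?_⟩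
      change ω * y - (1 - e) * (ω * y) * e = ω * (y - (1 - e) * y * e)
      rw [mul_sub ω y, ← mul_assoc (1 - e), ← hc]
      simp only [mul_assoc]
    | zero =>
      convert AddSubgroup.zero_mem _ using 1
      exact Subtype.ext (by simp)
    | add x y _ _ hx hy =>
      convert AddSubgroup.add_mem _ hx hy using 1
      refine Subtype.ext ?_
      change x + y - (1 - e) * (x + y) * e = x - (1 - e) * x * e + (y - (1 - e) * y * e)
      rw [mul_add, add_mul]
      abel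
    | neg x _ hx =>
      convert AddSubgroup.neg_mem _ hx using 1
      refine Subtype.ext ?_
      change -x - (1 - e) * (-x) * e = -(x - (1 - e) * x * e)
      rw [mul_neg, neg_mul]
      abel
  have haG' : (⟨a, haU⟩ : cv2_U hee) ∈ AddSubgroup.closure {m | ∃ ω ∈ G', ∃ y, m = ω * y} := by
    convert key a haG using 2
    rw [hae, sub_zero]
  obtain ⟨T, -, hT⟩ := C'.trans G' hG' ⊤ (fun _ _ => TwoSidedIdeal.mem_top _)
    (TwoSidedIdeal.mem_top _) (fun _ => ⊤) (fun _ _ _ _ _ _ => Submodule.mem_top)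
    (a := ⟨a, haU⟩) (Subtype.ext ha) haG'
  refine ⟨((n : ℂ) + 1) • T n, ?_⟩
  have h := hT n
  have hL : C'.L (T (n - 1)) = 0 := rfl
  rw [hL, smul_zero, add_zero] at h
  rw [map_smul]
  exact h

/-- The characteristic forms of an invariant direct summand are closed. -/
theorem closed_inv (hφ : C.φ = 0) {e : M} (he : C.tw e = e) (hee : e * e = e)
    (hD : (1 - e) * C.D e = 0) (n : ℕ) : C.d (C.str (e * C.K ^ n)) = 0 := by
  rw [← C.str_D, C.D_mul, C.cv2_D_pow hφ, mul_zero, add_zero]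
  exact C.cv2_str_De he hee hD (pow_mem (C.cv2_K_mem he hee hD) n)

section Sq

variable {C} {δ F κ : M} {L : V →ₗ[ℂ] V}

theorem Sq.cv2_comm (h : C.Sq δ F L) (m : M) : m * C.D F = C.D F * C.tw m := by
  rw [h.comm, C.tw_tw]

theorem Sq.cv2_sq (h : C.Sq δ F L) : C.D F * C.D F = 0 := by
  refine cv2_two ?_
  nth_rewrite 1 [h.comm]
  rw [h.aux.1, neg_mul]

theorem Sq.cv2_mid (h : C.Sq δ F L) (m : M) : C.D F * m * C.D F = 0 := by
  rw [mul_assoc, h.cv2_comm, ← mul_assoc, h.cv2_sq, zero_mul]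

theorem Sq.cv2_tw_F (h : C.Sq δ F L) : C.tw F = F := by
  rw [← h.sq, map_mul, h.odd, neg_mul_neg]

theorem Sq.cv2_DD (h : C.Sq δ F L) : C.D (C.D F) = 0 := by
  rw [C.D_D, h.central, sub_self]

theorem Sq.cv2_delta (h : C.Sq δ F L) : C.D F * δ = -(δ * C.D F) := by
  rw [h.comm, h.odd, neg_mul]

theorem Sq.cv2_c (h : C.Sq δ F L) (hD : C.D δ = C.D F * κ) :
    δ * C.K = C.K * δ + C.D F * C.D κ := by
  have h1 := C.D_D δ
  rw [hD, C.D_mul, h.cv2_DD, zero_mul, zero_add, h.aux.1, neg_mul] at h1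
  rw [← sub_eq_iff_eq_add', ← neg_sub, ← h1, neg_neg]

theorem Sq.cv2_A (h : C.Sq δ F L) (hD : C.D δ = C.D F * κ) (n : ℕ) :
    ∃ s, δ * C.K ^ n = C.K ^ n * δ + C.D F * s := by
  induction n with
  | zero => exact ⟨0, by simp⟩
  | succ n ih =>
    obtain ⟨s, hs⟩ := ih
    refine ⟨s * C.K + C.K ^ n * C.D κ, ?_⟩
    have h1 : C.K ^ n * (C.D F * C.D κ) = C.D F * (C.K ^ n * C.D κ) := by
      rw [← mul_assoc, h.cv2_comm, C.cv2_tw_pow, mul_assoc]
    rw [pow_succ, ← mul_assoc, hs, add_mul, mul_assoc, h.cv2_c hD, mul_add, h1, mul_add]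
    simp only [mul_assoc]
    abel

theorem Sq.cv2_B (h : C.Sq δ F L) (hD : C.D δ = C.D F * κ) (n : ℕ) : ∀ j : ℕ,
    C.str (δ * (δ * C.K ^ (n + 1) - C.K ^ (n + 1) * δ) * C.K ^ j) =
      ((n : ℂ) + 1) • C.str (δ * (C.D F * C.D κ) * C.K ^ (n + j)) := by
  induction n with
  | zero =>
    intro j
    rw [zero_add, pow_one, h.cv2_c hD, add_sub_cancel_left, Nat.cast_zero, zero_add, one_smul,
      zero_add]
  | succ n ih =>
    intro j
    obtain ⟨s, hs⟩ := h.cv2_A hD (n + 1)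
    have h1 : δ * C.K ^ (n + 1 + 1) - C.K ^ (n + 1 + 1) * δ =
        (δ * C.K ^ (n + 1) - C.K ^ (n + 1) * δ) * C.K + C.K ^ (n + 1) * (C.D F * C.D κ) := by
      rw [pow_succ C.K (n + 1), sub_mul, mul_assoc (C.K ^ (n + 1)) δ, h.cv2_c hD, mul_add]
      simp only [mul_assoc]
      abel
    have h2 : δ * ((δ * C.K ^ (n + 1) - C.K ^ (n + 1) * δ) * C.K) * C.K ^ j =
        δ * (δ * C.K ^ (n + 1) - C.K ^ (n + 1) * δ) * C.K ^ (j + 1) := by
      rw [pow_succ' C.K j]
      simp only [mul_assoc]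
    have h3 : δ * (C.K ^ (n + 1) * (C.D F * C.D κ)) * C.K ^ j =
        C.K ^ (n + 1) * (δ * (C.D F * C.D κ) * C.K ^ j) := by
      rw [← mul_assoc δ, hs, add_mul, ← mul_assoc (C.D F * s), h.cv2_mid, zero_mul, add_zero]
      simp only [mul_assoc]
    rw [h1, mul_add, add_mul, map_add, h2, ih, h3, C.str_even _ _ (C.cv2_tw_pow _), mul_assoc _ _
      (C.K ^ (n + 1)), ← pow_add, show j + (n + 1) = n + 1 + j by ring,
      show n + (j + 1) = n + 1 + j by ring, Nat.cast_succ, add_smul ((n : ℂ) + 1), one_smul]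

theorem cv2_str_add_pow (C : Cv M V) {c : M} (hc : ∀ m, c * m * c = 0) (n : ℕ) :
    ∃ S, (C.K + c) ^ (n + 1) = C.K ^ (n + 1) + S ∧ (∀ m, c * m * S = 0) ∧
      ∀ j : ℕ, C.str (S * C.K ^ j) = ((n : ℂ) + 1) • C.str (c * C.K ^ (n + j)) := by
  induction n with
  | zero => exact ⟨c, by simp, hc, fun j => by simp⟩
  | succ n ih =>
    obtain ⟨S, h1, h2, h3⟩ := ih
    refine ⟨C.K * S + c * C.K ^ (n + 1), ?_, fun m => ?_, fun j => ?_⟩
    · have h4 : c * S = 0 := by simpa using h2 1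
      rw [pow_succ' (C.K + c) (n + 1), h1, pow_succ' C.K (n + 1), add_mul, mul_add, mul_add, h4]
      abel
    · rw [mul_add, ← mul_assoc, ← mul_assoc, hc, zero_mul, add_zero, mul_assoc c, h2]
    · rw [add_mul, map_add, mul_assoc, C.str_even _ _ C.tw_K, mul_assoc, ← pow_succ, h3,
        mul_assoc, ← pow_add, show n + (j + 1) = n + 1 + j by ring, Nat.cast_succ,
        add_smul ((n : ℂ) + 1), one_smul]

end Sq

/-- The residue computation. -/
theorem Sq.residue {C : Cv M V} {δ F κ : M} {L : V →ₗ[ℂ] V} (h : C.Sq δ F L) (hκ : C.tw κ = -κ)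
    (h1 : δ * κ + κ * δ = 1) (hD : C.D δ = C.D F * κ) (k : ℕ) :
    ((k : ℂ) + 1) • L (C.d (C.str (δ * κ * C.K ^ k))) = (2 : ℂ) • C.str (F * C.K ^ (k + 1)) := by
  have hB := h.cv2_B hD k 0
  have e1 : L (C.d (C.str (δ * κ * C.K ^ k))) = C.str (δ * (C.D F * C.D κ) * C.K ^ (k + 0)) := by
    rw [← C.str_D, ← h.str_L, C.D_mul, C.cv2_D_pow h.flat, mul_zero, add_zero, C.D_mul, hD, h.odd,
      add_zero, ← mul_assoc, mul_add, ← mul_assoc, ← mul_assoc, h.cv2_sq, zero_mul, zero_mul,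
      zero_add, neg_mul, mul_neg, ← mul_assoc, h.cv2_delta, neg_mul (δ * C.D F), neg_neg,
      mul_assoc δ]
  have e2 : C.str (δ * (C.K ^ (k + 1) * δ)) = -C.str (F * C.K ^ (k + 1)) := by
    rw [C.str_odd _ _ h.odd, map_mul C.tw, C.cv2_tw_pow, h.odd, mul_neg, neg_mul, mul_assoc, h.sq,
      map_neg, h.central]
  rw [e1, ← hB, pow_zero, mul_one, mul_sub, map_sub, e2, ← mul_assoc, h.sq, two_smul,
    sub_neg_eq_add]

theorem Sq.str_pow {C : Cv M V} {δ F κ : M} {L : V →ₗ[ℂ] V} (h : C.Sq δ F L) (hκ : C.tw κ = -κ)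
    (n : ℕ) : C.str ((C.K + C.D F * κ) ^ (n + 1)) =
      C.str (C.K ^ (n + 1)) + ((n : ℂ) + 1) • L (C.str (κ * C.K ^ n)) := by
  obtain ⟨S, h1, -, h3⟩ := C.cv2_str_add_pow (c := C.D F * κ) (fun m => by
    rw [← mul_assoc, mul_assoc (C.D F) κ m, h.cv2_mid, zero_mul]) n
  have h4 := h3 0
  rw [pow_zero, mul_one, add_zero, mul_assoc, h.str_L] at h4
  rw [h1, map_add, h4]

/-- The connection adapted to a contracting homotopy. -/
theorem Sq.adapted {C : Cv M V} {δ F κ : M} {L : V →ₗ[ℂ] V} (h : C.Sq δ F L) (hκ : C.tw κ = -κ)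
    (h1 : δ * κ + κ * δ = 1) :
    ∃ ha : C.tw (-(κ * (C.D δ - C.D F * κ))) = -(-(κ * (C.D δ - C.D F * κ))),
      (C.shift _ ha).Sq δ F L ∧ (C.shift _ ha).D F = C.D F ∧
        (C.shift _ ha).D δ = C.D F * κ := by
  have hX : C.tw (C.D δ - C.D F * κ) = C.D δ - C.D F * κ := by
    rw [map_sub, map_mul, C.tw_D, h.odd, map_neg, neg_neg, h.aux.1, hκ, neg_mul_neg]
  have ha : C.tw (-(κ * (C.D δ - C.D F * κ))) = -(-(κ * (C.D δ - C.D F * κ))) := by
    rw [map_neg, map_mul, hX, hκ, neg_mul]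
  have hF : (C.shift _ ha).D F = C.D F := by
    change C.Da _ F = _
    rw [Da_apply, h.cv2_tw_F, h.central, add_sub_cancel_right]
  have hc : (C.D δ - C.D F * κ) * δ = δ * (C.D δ - C.D F * κ) := by
    have h2 := C.D_mul δ δ
    rw [h.sq, h.odd, neg_mul] at h2
    have h3 : C.D F * κ * δ - δ * (C.D F * κ) = C.D F := by
      have h4 : δ * C.D F = -(C.D F * δ) := by rw [h.cv2_delta, neg_neg]
      rw [← mul_assoc, h4, neg_mul, sub_neg_eq_add, mul_assoc, mul_assoc, ← mul_add,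
        add_comm (κ * δ), h1, mul_one]
    rw [sub_mul, mul_sub, sub_eq_sub_iff_sub_eq_sub, h3, sub_eq_add_neg, ← h2]
  refine ⟨ha, ⟨h.flat, h.odd, h.sq, h.central, fun m => ?_, fun m => ?_⟩, hF, ?_⟩
  · rw [hF]
    exact h.comm m
  · rw [hF]
    exact h.str_L m
  · change C.Da _ δ = _
    have h5 : δ * κ * (C.D δ - C.D F * κ) + κ * δ * (C.D δ - C.D F * κ) = C.D δ - C.D F * κ := by
      rw [← add_mul, h1, one_mul]
    rw [Da_apply, h.odd, neg_mul_neg, neg_mul, mul_assoc, hc, ← mul_assoc, ← mul_assoc δ κ,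
      add_sub_assoc, ← neg_add', add_comm (κ * δ * _), h5, neg_sub, add_sub_cancel]

end Cv

end Pool.Agent.Lib.MP_e9c0f3_ag.DR
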