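import Pool.Agent.Lib.MP_e9c0f3_ag.DR.CvM
import Pool.Agent.Lib.MP_e9c0f3_ag.DR.Cv2

/-! Chern-Weil theory for idempotent matrices. -/

open Matrix

namespace Pool.Agent.Lib.MP_e9c0f3_ag.DR

namespace Cv

variable {M V : Type} [Ring M] [Algebra ℂ M] [AddCommGroup V] [Module ℂ V] (C : Cv M V)

theorem cw_D_one : C.D 1 = 0 := by
  have h := C.D_mul 1 1
  rw [mul_one, mul_one, map_one C.tw, one_mul] at h
  exact left_eq_add.1 h

theorem cw_idem {e : M} (he : C.tw e = e) (hee : e * e = e) :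
    C.D e * e + e * C.D e = C.D e := by
  have h := C.D_mul e e
  rw [hee, he] at h
  exact h.symm

theorem cw_left {e : M} (he : C.tw e = e) (hee : e * e = e) :
    (1 - e) * C.D e * e = (1 - e) * C.D e := by
  have h0 : (1 - e) * e = 0 := by rw [sub_mul, one_mul, hee, sub_self]
  conv_rhs => rw [← C.cw_idem he hee]
  rw [mul_add, ← mul_assoc, ← mul_assoc, h0, zero_mul, add_zero]

theorem cw_odd {e : M} (he : C.tw e = e) : C.tw (-C.D e) = -(-C.D e) := by
  rw [map_neg, C.tw_D, he]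

theorem cw_DD (hK : C.K = 0) (m : M) : C.D (C.D m) = 0 := by
  rw [C.D_D, hK, zero_mul, mul_zero, sub_self]

theorem cw_grass {e : M} (he : C.tw e = e) (hee : e * e = e) :
    (1 - e) * C.Da (-C.D e) e = 0 := by
  have h0 : (1 - e) * e = 0 := by rw [sub_mul, one_mul, hee, sub_self]
  rw [Da_apply, he, mul_sub, mul_add, neg_mul, mul_neg, ← mul_assoc, C.cw_left he hee,
    add_neg_cancel, ← mul_assoc, h0, zero_mul, sub_zero]

theorem cw_curv (hK : C.K = 0) (e : M) :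
    C.K + C.D (-C.D e) + -C.D e * -C.D e = C.D e * C.D e := by
  rw [map_neg, C.cw_DD hK, hK, neg_zero, add_zero, zero_add, neg_mul_neg]

theorem cw_closed (hφ : C.φ = 0) (hK : C.K = 0) {e : M} (he : C.tw e = e) (hee : e * e = e)
    (n : ℕ) : C.d (C.str (e * (C.D e * C.D e) ^ n)) = 0 := by
  have h := (C.shift (-C.D e) (C.cw_odd he)).closed_inv hφ he hee (C.cw_grass he hee) n
  change C.d (C.str (e * (C.K + C.D (-C.D e) + -C.D e * -C.D e) ^ n)) = 0 at h
  rwa [C.cw_curv hK] at h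

/-- Every invariant connection gives the form of the Grassmann connection. -/
theorem cw_compare (hφ : C.φ = 0) (hK : C.K = 0) {e : M} (he : C.tw e = e) (hee : e * e = e)
    (G : Set M) (hG : ∀ ω ∈ G, C.Gen ω) {w : M} (hw : C.tw w = -w)
    (hinv : (1 - e) * (C.D e + w * e - e * w) = 0)
    (hmem : w + C.D e ∈ AddSubgroup.closure {m | ∃ ω ∈ G, ∃ y, m = ω * y}) (n : ℕ) :
    ∃ v, C.str (e * (C.D w + w * w) ^ n) - C.str (e * (C.D e * C.D e) ^ n) = C.d v := by
  have ha := C.cw_odd he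
  have h0 : (1 - e) * e = 0 := by rw [sub_mul, one_mul, hee, sub_self]
  have hG' : ∀ ω ∈ G, (C.shift (-C.D e) ha).Gen ω := fun ω hω => by
    refine ⟨(hG ω hω).odd, (hG ω hω).comm, ?_⟩
    change C.Da (-C.D e) ω = 0
    rw [Da_apply, (hG ω hω).closed, (hG ω hω).odd, neg_mul ω, (hG ω hω).comm, ha]
    noncomm_ring
  have ha' : C.tw (w + C.D e) = -(w + C.D e) := by
    rw [map_add, hw, C.tw_D, he, neg_add]
  have hae : (1 - e) * (w + C.D e) * e = 0 := by
    rw [mul_sub, mul_add, ← mul_assoc _ e w, h0, zero_mul, sub_zero] at hinv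
    rw [mul_add, add_mul, C.cw_left he hee, add_comm, mul_assoc, hinv]
  obtain ⟨v, hv⟩ := (C.shift (-C.D e) ha).trans_inv hφ he hee (C.cw_grass he hee) G hG' ha'
    hmem hae n
  refine ⟨v, ?_⟩
  change C.str (e * (C.K + C.D (-C.D e) + -C.D e * -C.D e + C.Da (-C.D e) (w + C.D e) +
    (w + C.D e) * (w + C.D e)) ^ n) -
      C.str (e * (C.K + C.D (-C.D e) + -C.D e * -C.D e) ^ n) = C.d v at hv
  rw [C.cw_curv hK] at hv
  have e1 : C.D e * C.D e + C.Da (-C.D e) (w + C.D e) + (w + C.D e) * (w + C.D e) =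
      C.D w + w * w := by
    rw [Da_apply, ha', map_add, C.cw_DD hK]
    noncomm_ring
  rwa [e1] at hv

theorem cw_conj (hφ : C.φ = 0) (hK : C.K = 0) {e g g' : M} (he : C.tw e = e) (hg : C.tw g = g)
    (hg' : C.tw g' = g') (hee : e * e = e) (h1 : g * g' = 1) (h2 : g' * g = 1)
    (G : Set M) (hG : ∀ ω ∈ G, C.Gen ω)
    (hmem : ∀ m, m = e ∨ m = g ∨ m = g * e * g' → ∀ x y,
      x * C.D m * y ∈ AddSubgroup.closure {m | ∃ ω ∈ G, ∃ y, m = ω * y}) (n : ℕ) :
    ∃ v, C.str (g * e * g' * (C.D (g * e * g') * C.D (g * e * g')) ^ n) -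
      C.str (e * (C.D e * C.D e) ^ n) = C.d v := by
  have h1' : ∀ x, g * (g' * x) = x := fun x => by rw [← mul_assoc, h1, one_mul]
  have h2' : ∀ x, g' * (g * x) = x := fun x => by rw [← mul_assoc, h2, one_mul]
  have hDg' : C.D g' = -(g' * C.D g * g') := by
    have h := C.D_mul g' g
    rw [h2, C.cw_D_one, hg'] at h
    have h3 : C.D g' * g = -(g' * C.D g) := eq_neg_of_add_eq_zero_left h.symm
    rw [← neg_mul, ← h3, mul_assoc, h1, mul_one]
  obtain ⟨f, hf⟩ : ∃ f, f = g * e * g' := ⟨_, rfl⟩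
  rw [← hf] at hmem ⊢
  have hf1 : C.tw f = f := by rw [hf, map_mul, map_mul, he, hg, hg']
  have hff : f * f = f := by
    rw [hf]
    simp only [mul_assoc, h2']
    rw [← mul_assoc e e, hee]
  have hDf : C.D f = C.D g * e * g' + g * C.D e * g' - g * e * (g' * C.D g * g') := by
    rw [hf, C.D_mul, C.D_mul, map_mul, he, hg, hDg']
    noncomm_ring
  have hu := C.cw_odd hf1
  have hgr := C.cw_grass hf1 hff
  have hDD := C.cw_DD hK
  rw [Da_apply, hf1] at hgr
  have hw : C.tw (g' * -C.D f * g + g' * C.D g) = -(g' * -C.D f * g + g' * C.D g) := by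
    rw [map_add C.tw, map_mul C.tw, map_mul C.tw, map_mul C.tw, hu, hg, hg', C.tw_D, hg]
    noncomm_ring
  have hcurv : C.D (g' * -C.D f * g + g' * C.D g) +
      (g' * -C.D f * g + g' * C.D g) * (g' * -C.D f * g + g' * C.D g) =
        g' * (C.D f * C.D f) * g := by
    rw [map_add C.D, C.D_mul (g' * -C.D f) g, C.D_mul g' (-C.D f), C.D_mul g' (C.D g),
      map_mul C.tw, hu, hg', map_neg C.D, hDD, hDD, hDg']
    simp only [mul_add, add_mul, mul_neg, neg_mul, neg_neg, mul_assoc, h1', mul_zero, neg_zero,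
      add_zero]
    abel
  have hinv : (1 - e) * (C.D e + (g' * -C.D f * g + g' * C.D g) * e -
      e * (g' * -C.D f * g + g' * C.D g)) = 0 := by
    have e1 : C.D e + (g' * -C.D f * g + g' * C.D g) * e - e * (g' * -C.D f * g + g' * C.D g) =
        g' * (C.D f + -C.D f * f - f * -C.D f) * g := by
      generalize -C.D f = u
      rw [hDf, hf]
      simp only [mul_add, add_mul, mul_sub, sub_mul, mul_assoc, h2', h2, mul_one]
      abel
    have e2 : (1 - e) * g' = g' * (1 - f) := by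
      rw [hf]
      simp only [mul_sub, sub_mul, mul_assoc, h2', one_mul, mul_one]
    rw [e1, ← mul_assoc, ← mul_assoc, e2, mul_assoc g', hgr, mul_zero, zero_mul]
  have hm : g' * -C.D f * g + g' * C.D g + C.D e ∈
      AddSubgroup.closure {m | ∃ ω ∈ G, ∃ y, m = ω * y} := by
    refine add_mem (add_mem ?_ ?_) ?_
    · rw [mul_neg, neg_mul]
      exact neg_mem (hmem f (Or.inr (Or.inr rfl)) _ _)
    · simpa using hmem g (Or.inr (Or.inl rfl)) g' 1
    · simpa using hmem e (Or.inl rfl) 1 1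
  obtain ⟨v, hv⟩ := C.cw_compare hφ hK he hee G hG hw hinv hm n
  refine ⟨v, ?_⟩
  rw [hcurv] at hv
  have hp : ∀ (K : M) (n : ℕ), (g' * K * g) ^ n = g' * K ^ n * g := fun K n => by
    induction n with
    | zero => rw [pow_zero, pow_zero, mul_one, h2]
    | succ n ih =>
      rw [pow_succ, pow_succ, ih]
      simp only [mul_assoc, h1']
  rw [hp, ← mul_assoc, ← C.str_even g _ hg] at hv
  rw [← hv]
  congr 2
  generalize (C.D f * C.D f) ^ n = K
  rw [hf]
  simp only [mul_assoc]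

theorem cw_D_pow (hK : C.K = 0) (e : M) (n : ℕ) : C.D (C.D e ^ n) = 0 := by
  induction n with
  | zero => rw [pow_zero, C.cw_D_one]
  | succ n ih => rw [pow_succ, C.D_mul, ih, C.cw_DD hK, zero_mul, mul_zero, add_zero]

theorem cw_exact (hK : C.K = 0) (e : M) (n : ℕ) :
    C.str (C.D e ^ (n + 1)) = C.d (C.str (e * C.D e ^ n)) := by
  rw [← C.str_D, C.D_mul, C.cw_D_pow hK, mul_zero, add_zero, pow_succ']

theorem cw_contr (hφ : C.φ = 0) (hK : C.K = 0) {δ κ : M} (hδ : C.tw δ = -δ) (hκ : C.tw κ = -κ)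
    (h0 : δ * δ = 0) (h1 : δ * κ + κ * δ = 1) (G : Set M) (hG : ∀ ω ∈ G, C.Gen ω)
    (hmem : ∀ m, m = δ ∨ m = δ * κ → ∀ x y,
      x * C.D m * y ∈ AddSubgroup.closure {m | ∃ ω ∈ G, ∃ y, m = ω * y}) (n : ℕ) :
    ∃ v, C.str (δ * κ * (C.D (-(κ * C.D δ)) + -(κ * C.D δ) * -(κ * C.D δ)) ^ n) -
      C.str (δ * κ * (C.D (δ * κ) * C.D (δ * κ)) ^ n) = C.d v := by
  have h2 : κ * δ = 1 - δ * κ := eq_sub_of_add_eq' h1
  have h3 : δ * κ * δ = δ := by
    rw [mul_assoc, h2, mul_sub, mul_one, ← mul_assoc, h0, zero_mul, sub_zero]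
  have he : C.tw (δ * κ) = δ * κ := by rw [map_mul, hδ, hκ, neg_mul_neg]
  have hee : δ * κ * (δ * κ) = δ * κ := by rw [← mul_assoc, h3]
  have hc : C.D δ * δ = δ * C.D δ := by
    have h := C.D_mul δ δ
    rw [h0, map_zero, hδ, neg_mul, ← sub_eq_add_neg] at h
    exact sub_eq_zero.1 h.symm
  refine C.cw_compare hφ hK he hee G hG ?_ ?_ ?_ n
  · rw [map_neg, map_mul, hκ, C.tw_D, hδ, map_neg, neg_neg, neg_mul]
  · have e0 : (1 - δ * κ) * δ = 0 := by rw [sub_mul, one_mul, h3, sub_self]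
    have e1 : C.D (δ * κ) + -(κ * C.D δ) * (δ * κ) - δ * κ * -(κ * C.D δ) =
        δ * (κ * C.D δ * κ - C.D κ + κ * (κ * C.D δ)) := by
      have e2 : κ * C.D δ * (δ * κ) = C.D δ * κ - δ * (κ * C.D δ * κ) := by
        rw [mul_assoc κ, ← mul_assoc (C.D δ), hc, ← mul_assoc, ← mul_assoc, h2]
        noncomm_ring
      rw [C.D_mul, hδ, neg_mul (κ * C.D δ), e2]
      noncomm_ring
    rw [e1, ← mul_assoc, e0, zero_mul]
  · refine add_mem (neg_mem ?_) ?_
    · simpa using hmem δ (Or.inl rfl) κ 1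
    · simpa using hmem (δ * κ) (Or.inr rfl) 1 1

theorem cw_D_proj {p : M} (hp : C.tw p = p) (hD : C.D p = 0) {e : M} (hc : p * e = e * p) :
    C.D (e * p) = C.D e * p ∧ p * C.D e = C.D e * p := by
  have h1 : C.D (e * p) = C.D e * p := by rw [C.D_mul, hD, mul_zero, add_zero]
  refine ⟨h1, ?_⟩
  rw [← h1, ← hc, C.D_mul, hD, zero_mul, zero_add, hp]

theorem cw_proj {p : M} (hp : C.tw p = p) (hD : C.D p = 0) (hpp : p * p = p) {e : M}
    (hc : p * e = e * p) (k : ℕ) :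
    e * p * (C.D (e * p) * C.D (e * p)) ^ k = p * (e * (C.D e * C.D e) ^ k) := by
  obtain ⟨h1, h2⟩ := C.cw_D_proj hp hD hc
  have h3 : p * (C.D e * p * (C.D e * p)) = C.D e * C.D e * p := by
    rw [← mul_assoc, ← mul_assoc p, h2, mul_assoc (C.D e) p p, hpp, mul_assoc, ← mul_assoc p, h2,
      mul_assoc (C.D e) p p, hpp, mul_assoc]
  have h4 : C.D e * C.D e * p = p * (C.D e * C.D e) := by
    rw [mul_assoc, ← h2, ← mul_assoc, ← h2, mul_assoc]
  have h5 : ∀ n : ℕ, p * (C.D e * p * (C.D e * p)) ^ n = p * (C.D e * C.D e) ^ n := fun n => by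
    induction n with
    | zero => rw [pow_zero, pow_zero]
    | succ n ih =>
      rw [pow_succ', pow_succ', ← mul_assoc, h3, mul_assoc, ih, ← mul_assoc, h4, mul_assoc]
  rw [h1, mul_assoc, h5, ← mul_assoc, ← hc, mul_assoc]

theorem cw_exact' (hK : C.K = 0) {p : M} (hp : C.tw p = p) (hD : C.D p = 0) (e : M) (n : ℕ) :
    C.str (p * C.D e ^ (n + 1)) = C.d (C.str (p * (e * C.D e ^ n))) := by
  rw [← C.str_D, C.D_mul, hD, zero_mul, zero_add, hp, C.D_mul, C.cw_D_pow hK, mul_zero, add_zero,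
    pow_succ']

end Cv

namespace SD

variable {𝒜 : Type} [Ring 𝒜] [Algebra ℂ 𝒜] (S : SD 𝒜)
variable {ι κ : Type} [Fintype ι] [DecidableEq ι] [Fintype κ] [DecidableEq κ]

omit [Algebra ℂ 𝒜] [Fintype ι] in
theorem cw_ep0 : ep 𝒜 (fun _ : ι => 0) = 1 := by simp [ep]

theorem cw_D0 (m : Matrix ι ι 𝒜) : (S.cv fun _ => 0).D m = m.map S.d := by
  change S.mD _ m = _
  rw [mD_apply, cw_ep0, one_mul]

theorem cw_tw0 (m : Matrix ι ι 𝒜) : (S.cv fun _ => 0).tw m = m.map S.σ := by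
  change S.mtw _ m = _
  rw [mtw_apply, cw_ep0, one_mul, mul_one]

theorem cw_str0 (m : Matrix ι ι 𝒜) : (S.cv fun _ => 0).str m = m.trace := by
  change (∑ i, if Even 0 then m i i else -S.σ (m i i)) = _
  simp [trace]

theorem cw_evm {m : Matrix ι ι 𝒜} : S.EvM m ↔ (S.cv fun _ => 0).tw m = m := by
  rw [cw_tw0]
  exact ⟨fun h => Matrix.ext h, fun h i j => congrFun (congrFun h i) j⟩

theorem cw_ch (k : ℕ) (e : Matrix ι ι 𝒜) : S.ch k e = (S.cv fun _ => 0).str
    (e * ((S.cv fun _ => 0).D e * (S.cv fun _ => 0).D e) ^ k) := by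
  rw [cw_str0, cw_D0, ch, pow_mul, pow_two]

theorem cw_evm_mul {α β γ : Type} [Fintype β] {a : Matrix α β 𝒜} {b : Matrix β γ 𝒜}
    (ha : S.EvM a) (hb : S.EvM b) : S.EvM (a * b) := fun i j => by
  rw [mul_apply, map_sum]
  exact Finset.sum_congr rfl fun l _ => by rw [map_mul, ha, hb]

theorem cw_evm_one_sub {α : Type} [DecidableEq α] {a : Matrix α α 𝒜} (ha : S.EvM a) :
    S.EvM (1 - a) := fun i j => by
  rw [Matrix.sub_apply, map_sub, ha, Matrix.one_apply]
  split_ifs <;> simp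

theorem cw_evm_zero {α β : Type} : S.EvM (0 : Matrix α β 𝒜) := fun _ _ => map_zero S.σ

theorem cw_evm_blocks {α β : Type} {a : Matrix α α 𝒜} {b : Matrix α β 𝒜} {c : Matrix β α 𝒜}
    {d : Matrix β β 𝒜} (ha : S.EvM a) (hb : S.EvM b) (hc : S.EvM c) (hd : S.EvM d) :
    S.EvM (fromBlocks a b c d) := by
  rintro (i | i) (j | j)
  exacts [ha i j, hb i j, hc i j, hd i j]

theorem cw_gen (par : ι → ℕ) :
    ∀ ω ∈ {ω | ∃ r ∈ {r | S.σ r = r}, ω = S.mD par (scalar ι r)}, (S.cv par).Gen ω := by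
  rintro _ ⟨r, hr, rfl⟩
  exact S.gen par hr

theorem ch_closed (k : ℕ) {e : Matrix ι ι 𝒜} (h : S.EvM e) (he : e * e = e) :
    S.d (S.ch k e) = 0 := by
  rw [cw_ch]
  exact (S.cv fun _ => 0).cw_closed rfl rfl (S.cw_evm.1 h) he k

theorem ch_fromBlocks (k : ℕ) (e : Matrix ι ι 𝒜) (e' : Matrix κ κ 𝒜) :
    S.ch k (fromBlocks e 0 0 e') = S.ch k e + S.ch k e' := by
  rw [ch, fromBlocks_map, Matrix.map_zero _ (map_zero S.d), Matrix.map_zero _ (map_zero S.d),
    fromBlocks_diagonal_pow, fromBlocks_multiply]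
  simp [ch, trace, Fintype.sum_sum_type]

theorem ch_zero (k : ℕ) : S.ch k (0 : Matrix ι ι 𝒜) = 0 := by
  rw [ch, zero_mul, trace_zero]

/-- Conjugate idempotents have cohomologous forms. -/
theorem ch_conj (k : ℕ) {e g g' : Matrix ι ι 𝒜} (h : S.EvM e) (hg : S.EvM g) (hg' : S.EvM g')
    (he : e * e = e) (h1 : g * g' = 1) (h2 : g' * g = 1) :
    ∃ v, S.ch k (g * e * g') - S.ch k e = S.d v := by
  rw [cw_ch, cw_ch]
  refine (S.cv fun _ => 0).cw_conj rfl rfl (S.cw_evm.1 h) (S.cw_evm.1 hg) (S.cw_evm.1 hg') he h1 h2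
    _ (S.cw_gen _) (fun m hm x y => ?_) k
  refine S.mD_mem_closure _ {r | S.σ r = r} (fun _ hr => hr) ?_ x y
  rcases hm with rfl | rfl | rfl
  exacts [h, hg, S.cw_evm_mul (S.cw_evm_mul hg h) hg']

/-- Equivalent idempotents have cohomologous forms. -/
theorem ch_uv (k : ℕ) {a : Matrix ι κ 𝒜} {b : Matrix κ ι 𝒜} (ha : S.EvM a) (hb : S.EvM b)
    (h1 : a * b * (a * b) = a * b) (h2 : b * a * (b * a) = b * a) :
    ∃ v, S.ch k (a * b) - S.ch k (b * a) = S.d v := by
  have hab := S.cw_evm_mul ha hb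
  have hba := S.cw_evm_mul hb ha
  rw [Matrix.mul_assoc] at h1 h2
  have hg := S.cw_evm_blocks (S.cw_evm_one_sub hab) (S.cw_evm_mul hab ha) (S.cw_evm_mul hba hb)
    (S.cw_evm_one_sub hba)
  have hgg : fromBlocks (1 - a * b) (a * b * a) (b * a * b) (1 - b * a) *
      fromBlocks (1 - a * b) (a * b * a) (b * a * b) (1 - b * a) = 1 := by
    rw [fromBlocks_multiply, ← fromBlocks_one]
    congr 1 <;>
      simp [Matrix.mul_sub, Matrix.sub_mul, Matrix.mul_assoc, h1, h2]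
  have he : fromBlocks (a * b) (0 : Matrix ι κ 𝒜) (0 : Matrix κ ι 𝒜) (0 : Matrix κ κ 𝒜) *
      fromBlocks (a * b) 0 0 0 = fromBlocks (a * b) 0 0 0 := by
    rw [fromBlocks_multiply]
    simp [Matrix.mul_assoc, h1]
  obtain ⟨v, hv⟩ := S.ch_conj k (S.cw_evm_blocks hab S.cw_evm_zero S.cw_evm_zero S.cw_evm_zero)
    hg hg he hgg hgg
  have hc : fromBlocks (1 - a * b) (a * b * a) (b * a * b) (1 - b * a) *
      fromBlocks (a * b) (0 : Matrix ι κ 𝒜) (0 : Matrix κ ι 𝒜) (0 : Matrix κ κ 𝒜) *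
      fromBlocks (1 - a * b) (a * b * a) (b * a * b) (1 - b * a) = fromBlocks 0 0 0 (b * a) := by
    rw [fromBlocks_multiply, fromBlocks_multiply]
    congr 1 <;>
      simp [Matrix.mul_sub, Matrix.sub_mul, Matrix.mul_assoc, h1, h2]
  rw [hc, ch_fromBlocks, ch_fromBlocks, ch_zero, ch_zero, zero_add, add_zero] at hv
  exact ⟨-v, by rw [map_neg, ← hv, neg_sub]⟩

omit [Algebra ℂ 𝒜] in
theorem cw_odd_mul (par : ι → ℕ) {m : Matrix ι ι 𝒜}
    (h : ∀ i j, m i j ≠ 0 → Odd (par i + par j)) :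
    (m * diagonal fun i => if Even (par i) then (1 : 𝒜) else 0) =
      (1 - diagonal fun i => if Even (par i) then (1 : 𝒜) else 0) * m := by
  ext i j
  rw [sub_mul, one_mul, Matrix.sub_apply, mul_diagonal, diagonal_mul]
  by_cases h0 : m i j = 0
  · simp [h0]
  · have h1 := h i j h0
    rw [Nat.odd_add, ← Nat.not_even_iff_odd] at h1
    by_cases h2 : Even (par i)
    · have h3 : ¬Even (par j) := fun h3 => h1.2 h3 h2
      simp [h2, h3]
    · simp [h2, h1.1 h2]

/-- The forms attached to a contractible complex of length two: with the connection adapted to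
the contraction, the supertrace on the image of `δ` is twice the form of its even part. -/
theorem ch_contr {k : ℕ} (hk : 1 ≤ k) (par : ι → ℕ) {δ κ' : Matrix ι ι 𝒜} (hδ : S.EvM δ)
    (hκ : S.EvM κ') (oδ : ∀ i j, δ i j ≠ 0 → Odd (par i + par j))
    (oκ : ∀ i j, κ' i j ≠ 0 → Odd (par i + par j)) (h0 : δ * δ = 0) (h1 : δ * κ' + κ' * δ = 1) :
    ∃ v, S.mstr par (δ * κ' * (S.mD par (-(κ' * S.mD par δ)) +
        -(κ' * S.mD par δ) * -(κ' * S.mD par δ)) ^ k) -
      (2 : ℂ) • S.ch k (δ * κ' * diagonal fun i => if Even (par i) then 1 else 0) = S.d v := by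
  have hev := S.cw_evm_mul hδ hκ
  obtain ⟨v1, hv1⟩ := (S.cv par).cw_contr rfl rfl (S.mtw_odd par hδ oδ) (S.mtw_odd par hκ oκ) h0 h1
    _ (S.cw_gen par) (fun m hm x y => by
      refine S.mD_mem_closure _ {r | S.σ r = r} (fun _ hr => hr) ?_ x y
      rcases hm with rfl | rfl
      exacts [hδ, hev]) k
  change S.mstr par (δ * κ' * (S.mD par (-(κ' * S.mD par δ)) +
    -(κ' * S.mD par δ) * -(κ' * S.mD par δ)) ^ k) -
      S.mstr par (δ * κ' * (S.mD par (δ * κ') * S.mD par (δ * κ')) ^ k) = S.d v1 at hv1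
  have hδp := cw_odd_mul par oδ
  have hκp := cw_odd_mul par oκ
  have hεε := ep_mul_ep (𝒜 := 𝒜) par
  have hε : ep 𝒜 par = (diagonal fun i => if Even (par i) then (1 : 𝒜) else 0) -
      (1 - diagonal fun i => if Even (par i) then (1 : 𝒜) else 0) := by
    rw [ep, ← diagonal_one, diagonal_sub, diagonal_sub]
    congr 1
    ext i
    by_cases h : Even (par i)
    · simp [h, h.neg_one_pow]
    · simp [h, (Nat.not_even_iff_odd.1 h).neg_one_pow]
  have hpp : (diagonal fun i => if Even (par i) then (1 : 𝒜) else 0) *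
      (diagonal fun i => if Even (par i) then (1 : 𝒜) else 0) =
        diagonal fun i => if Even (par i) then (1 : 𝒜) else 0 := by
    rw [diagonal_mul_diagonal]
    congr 1
    ext i
    split_ifs <;> simp
  have hpe : S.EvM (diagonal fun i => if Even (par i) then (1 : 𝒜) else 0) := fun i j => by
    rw [diagonal_apply]
    split_ifs <;> simp
  have hpD : (S.cv fun _ => 0).D (diagonal fun i => if Even (par i) then (1 : 𝒜) else 0) = 0 := by
    rw [cw_D0]
    ext i j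
    rw [Matrix.map_apply, diagonal_apply, Matrix.zero_apply]
    split_ifs <;> simp [S.d_one]
  generalize (diagonal fun i => if Even (par i) then (1 : 𝒜) else 0) = p at *
  have hD := S.cw_D0 (δ * κ')
  have hch := S.cw_ch (ι := ι) k
  have hstr := S.cw_str0 (ι := ι)
  have hte := S.cw_evm.1 hev
  have htp := S.cw_evm.1 hpe
  have hX := S.cw_evm (m := δ * κ' * ((S.cv fun _ => 0).D (δ * κ') *
    (S.cv fun _ => 0).D (δ * κ')) ^ k)
  have hK : (S.cv fun _ : ι => 0).K = 0 := rfl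
  have hd : (S.cv fun _ : ι => 0).d = S.d := rfl
  generalize (S.cv fun _ : ι => 0) = C at *
  have h2 : κ' * δ = 1 - δ * κ' := eq_sub_of_add_eq' h1
  have h3 : δ * κ' * δ = δ := by
    rw [mul_assoc, h2, mul_sub, mul_one, ← mul_assoc, h0, zero_mul, sub_zero]
  have hee : δ * κ' * (δ * κ') = δ * κ' := by rw [← mul_assoc, h3]
  have hpκ : p * κ' = κ' * (1 - p) := by rw [mul_sub, hκp, sub_mul, one_mul, mul_one, sub_sub_cancel]
  have hpδ : p * δ = δ * (1 - p) := by rw [mul_sub, hδp, sub_mul, one_mul, mul_one, sub_sub_cancel]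
  have hc : p * (δ * κ') = δ * κ' * p := by
    rw [← mul_assoc, hpδ, mul_assoc, ← hκp, mul_assoc]
  have hab : δ * p * κ' = δ * κ' * (1 - p) := by rw [mul_assoc, hpκ, mul_assoc]
  have hba : κ' * (δ * p) = (1 - δ * κ') * p := by rw [← mul_assoc, h2]
  have hmD := S.mD_apply par (δ * κ')
  generalize δ * κ' = e at *
  have htq : C.tw (1 - p) = 1 - p := by rw [map_sub, map_one, htp]
  have hqD : C.D (1 - p) = 0 := by rw [map_sub, C.cw_D_one, hpD, sub_zero]
  have hqq : (1 - p) * (1 - p) = 1 - p := by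
    rw [mul_sub, mul_one, sub_mul, one_mul, hpp, sub_self, sub_zero]
  have hcq : (1 - p) * e = e * (1 - p) := by rw [sub_mul, mul_sub, one_mul, mul_one, hc]
  have hcf : p * (1 - e) = (1 - e) * p := by rw [sub_mul, mul_sub, one_mul, mul_one, hc]
  have hff : (1 - e) * (1 - e) = 1 - e := by
    rw [mul_sub, mul_one, sub_mul, one_mul, hee, sub_self, sub_zero]
  obtain ⟨v2, hv2⟩ := S.ch_uv k (S.cw_evm_mul hδ hpe) hκ
    (by rw [hab, mul_assoc, ← mul_assoc (1 - p), hcq, mul_assoc, hqq, ← mul_assoc, hee])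
    (by rw [hba, mul_assoc, ← mul_assoc p, hcf, mul_assoc, hpp, ← mul_assoc, hff])
  have hDf : C.D (1 - e) = -C.D e := by rw [map_sub, C.cw_D_one, zero_sub]
  rw [hab, hba, hch, hch, C.cw_proj htq hqD hqq hcq, C.cw_proj htp hpD hpp hcf, hDf, neg_mul_neg,
    sub_mul 1 e, one_mul, mul_sub p, map_sub] at hv2
  obtain ⟨n, rfl⟩ : ∃ n, k = n + 1 := ⟨k - 1, by omega⟩
  have hu := C.cw_exact' hK htp hpD e (2 * n + 1)
  rw [show 2 * n + 1 + 1 = 2 * (n + 1) by ring, pow_mul, pow_two, hd] at hu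
  have hεD : ep 𝒜 par * C.D e = C.D e * ep 𝒜 par := by
    rw [hε, sub_mul, mul_sub, (C.cw_D_proj htp hpD hc).2, (C.cw_D_proj htq hqD hcq).2]
  have hsq : S.mD par e * S.mD par e = C.D e * C.D e := by
    rw [hmD, ← hD, hεD, mul_assoc, ← mul_assoc (ep 𝒜 par), hεD, mul_assoc, hεε, mul_one]
  have hXe : C.tw (e * (C.D e * C.D e) ^ (n + 1)) = e * (C.D e * C.D e) ^ (n + 1) := by
    rw [map_mul, map_pow, map_mul, C.tw_D, hte, neg_mul_neg]
  rw [hsq, S.mstr_even par (hX.2 hXe), ← hstr, hε, sub_mul, map_sub] at hv1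
  rw [hch, C.cw_proj htp hpD hpp hc, two_smul]
  refine ⟨v1 - (v2 + C.str (p * (e * C.D e ^ (2 * n + 1)))), ?_⟩
  rw [map_sub, map_add, ← hv1, ← hv2, ← hu]
  abel

end SD

end Pool.Agent.Lib.MP_e9c0f3_ag.DR
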