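import Pool.Agent.Lib.MP_e9c0f3_ag.DR.Psi
import Pool.Agent.Lib.MP_e9c0f3_ag.DR.CW

/-! The Chern form of a matrix factorisation represents the Chern character of its cokernel. -/

open MvPolynomial Sum

namespace Pool.Agent.Lib.MP_e9c0f3_ag.DR

open Om

variable {N : ℕ} {A : Type} [CommRing A] {ι : Type} [Fintype ι] [DecidableEq ι]

/-- The contracting homotopy. -/
noncomputable def kap (g : Fin N → RR N A) (δ : Matrix ι ι (Pol N A)) : Matrix ι ι (RR N A) :=
  ∑ i, g i • (δ.map (pderiv i)).map (rename inl)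

/-- The projector onto the even cycles. -/
noncomputable def ezero (par : ι → ℕ) (g : Fin N → RR N A) (δ : Matrix ι ι (Pol N A)) :
    Matrix ι ι (RR N A) :=
  δ.map (rename inl) * kap g δ * Matrix.diagonal fun i => if Even (par i) then 1 else 0

variable {d : ℕ} {F : Pol N A} {par : ι → ℕ} {wt : ι → ℤ} {δ : Matrix ι ι (Pol N A)}
  {g : Fin N → RR N A}

omit [Fintype ι] [DecidableEq ι] in
theorem tg_kap (g : Fin N → RR N A) (δ : Matrix ι ι (Pol N A)) (i j : ι) :
    kap g δ i j = ∑ a, g a * rename inl (pderiv a (δ i j)) := by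
  rw [kap, Matrix.sum_apply]
  rfl

theorem tg_ren {P : Pol N A} {u : ℤ} (h : ∀ m, coeff m P ≠ 0 → (m.degree : ℤ) = u) :
    IsWeightedHomogeneous (vw N) (rename inl P : RR N A) u := by
  intro m hm
  obtain ⟨m', rfl, h1⟩ := coeff_rename_ne_zero _ _ _ hm
  rw [← h m' h1, Finsupp.weight_apply, Finsupp.sum_mapDomain_index (by simp) (by simp [add_mul]),
    Finsupp.degree_apply, Finsupp.sum]
  simp [vw]

theorem kap_odd (h : IsMF d F par wt δ) (i j : ι) (hij : kap g δ i j ≠ 0) :
    Odd (par i + par j) := by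
  refine h.odd i j fun h0 => hij ?_
  rw [tg_kap, h0]
  simp

theorem kap_comm (h : IsMF d F par wt δ) :
    δ.map (rename inl) * kap g δ + kap g δ * δ.map (rename inl) =
      Matrix.scalar ι (∑ i, g i * rename inl (pderiv i F)) := by
  ext1 i j
  have h1 : ∀ a, ∑ k, (δ i k * pderiv a (δ k j) + pderiv a (δ i k) * δ k j) =
      if i = j then pderiv a F else 0 := fun a => by
    have h2 := congrArg (fun M : Matrix ι ι (Pol N A) => pderiv a (M i j)) h.sq
    simp only [Matrix.mul_apply, map_sum, Derivation.leibniz, smul_eq_mul, Matrix.scalar_apply,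
      Matrix.diagonal_apply] at h2
    rw [apply_ite (pderiv a), map_zero] at h2
    rw [← h2]
    exact Finset.sum_congr rfl fun k _ => by ring
  have h3 : (Matrix.scalar ι (∑ i, g i * rename inl (pderiv i F))) i j =
      ∑ a, g a * rename inl (if i = j then pderiv a F else 0) := by
    rw [Matrix.scalar_apply, Matrix.diagonal_apply]
    split_ifs <;> simp
  rw [h3, Matrix.add_apply, Matrix.mul_apply, Matrix.mul_apply, ← Finset.sum_add_distrib]
  simp only [← h1, tg_kap, Matrix.map_apply, map_sum, map_add, map_mul, Finset.mul_sum,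
    Finset.sum_mul, ← Finset.sum_add_distrib]
  rw [Finset.sum_comm]
  exact Finset.sum_congr rfl fun a _ => Finset.sum_congr rfl fun k _ => by ring

theorem ezero_homog (h : IsMF d F par wt δ)
    (hg : ∀ i, IsWeightedHomogeneous (vw N) (g i) (1 - d)) (i j : ι) :
    IsWeightedHomogeneous (vw N) (ezero par g δ i j) (wt j / 2 - wt i / 2) := by
  rw [ezero, Matrix.mul_diagonal]
  split_ifs
  swap
  · rw [mul_zero]
    exact isWeightedHomogeneous_zero _ _ _
  rw [mul_one, Matrix.mul_apply]
  refine IsWeightedHomogeneous.sum _ _ _ fun k _ => ?_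
  rw [tg_kap, Matrix.map_apply]
  by_cases h1 : δ i k = 0
  · rw [h1, map_zero, zero_mul]
    exact isWeightedHomogeneous_zero _ _ _
  by_cases h2 : δ k j = 0
  · simp only [h2, map_zero, mul_zero, Finset.sum_const_zero]
    exact isWeightedHomogeneous_zero _ _ _
  obtain ⟨m, hm⟩ := ne_zero_iff.1 h1
  obtain ⟨n, hn⟩ := ne_zero_iff.1 h2
  have a1 := h.homog i k m hm
  have a2 := h.homog k j n hn
  have b1 := tg_ren (P := δ i k) (u := m.degree) fun t ht => by
    have := h.homog i k t ht
    omega
  have b2 := tg_ren (P := δ k j) (u := n.degree) fun t ht => by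
    have := h.homog k j t ht
    omega
  rw [show wt j / 2 - wt i / 2 = m.degree + (1 - d + (n.degree - 1)) by omega]
  refine b1.mul (IsWeightedHomogeneous.sum _ _ _ fun a _ => (hg a).mul ?_)
  rw [← pderiv_rename inl_injective]
  exact b2.pderiv (sub_add_cancel _ _)

theorem ezero_idem (h : IsMF d F par wt δ)
    (hg : ∑ i, g i * rename inl (pderiv i F) - 1 ∈ Ideal.span {ff N A - 1}) :
    (ezero par g δ).map (Ideal.Quotient.mk (relJ F)) *
      (ezero par g δ).map (Ideal.Quotient.mk (relJ F)) =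
      (ezero par g δ).map (Ideal.Quotient.mk (relJ F)) := by
  obtain ⟨π, hπ⟩ : ∃ π, π = (Ideal.Quotient.mk (relJ F)).mapMatrix (m := ι) := ⟨_, rfl⟩
  obtain ⟨p, hp⟩ : ∃ p : Matrix ι ι (RR N A),
    p = Matrix.diagonal fun i => if Even (par i) then 1 else 0 := ⟨_, rfl⟩
  obtain ⟨D, hD⟩ : ∃ D : Matrix ι ι (RR N A), D = δ.map (rename inl) := ⟨_, rfl⟩
  have h0 : ∀ M, M.map (Ideal.Quotient.mk (relJ F)) = π M := fun M => by rw [hπ]; rfl
  have h1 : p * p = p := by
    rw [hp, Matrix.diagonal_mul_diagonal]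
    congr 1
    funext i
    split_ifs <;> simp
  have h2 : p * (D * kap g δ) = D * kap g δ * p := by
    ext1 i j
    rw [hp, Matrix.diagonal_mul, Matrix.mul_diagonal, mul_comm]
    by_cases e : (D * kap g δ) i j = 0
    · rw [e, zero_mul, zero_mul]
    · rw [Matrix.mul_apply] at e
      obtain ⟨k, -, e1⟩ := Finset.exists_ne_zero_of_sum_ne_zero e
      have a1 := h.odd i k fun e2 => e1 (by rw [hD, Matrix.map_apply, e2, map_zero, zero_mul])
      have a2 := kap_odd h k j (right_ne_zero_of_mul e1)
      rw [Nat.odd_iff] at a1 a2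
      simp only [Nat.even_iff, show par i % 2 = par j % 2 by omega]
  have h3 : π D * π D = 0 := by
    rw [← map_mul, hD, ← Matrix.map_mul, h.sq, ← h0]
    ext i j
    rw [Matrix.map_apply, Matrix.map_apply, Matrix.scalar_apply, Matrix.diagonal_apply]
    split_ifs
    · exact Ideal.Quotient.eq_zero_iff_mem.2 (Ideal.subset_span (Set.mem_insert _ _))
    · simp
  have h4 : π D * π (kap g δ) + π (kap g δ) * π D = 1 := by
    rw [← map_mul, ← map_mul, ← map_add, hD, kap_comm h, ← h0]
    ext i j
    rw [Matrix.map_apply, Matrix.scalar_apply, Matrix.diagonal_apply, Matrix.one_apply]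
    split_ifs
    · exact Ideal.Quotient.eq.2 (Ideal.span_mono (by simp [ff]) hg)
    · simp
  have h5 := congrArg π h2
  have h6 := congrArg π h1
  rw [h0, ezero, ← hp, ← hD]
  simp only [map_mul] at h5 h6 ⊢
  generalize π D = x, π (kap g δ) = y, π p = z at *
  calc x * y * z * (x * y * z) = x * y * (z * (x * y)) * z := by noncomm_ring
    _ = x * (y * x) * y * (z * z) := by rw [h5]; noncomm_ring
    _ = x * y * z - x * x * y * y * z := by
      rw [h6, eq_sub_of_add_eq' h4, mul_sub, sub_mul, sub_mul, mul_one, ← mul_assoc x x y]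
    _ = x * y * z := by rw [h3]; simp

variable [Algebra ℂ A]

/-- The adapted connection form. -/
noncomputable def varpi (F : Pol N A) (par : ι → ℕ) (g : Fin N → RR N A)
    (δ : Matrix ι ι (Pol N A)) : Matrix ι ι (OO N A) :=
  -((kap g δ).map of * ((SO N A).mD par (δ.map xo) -
    (SO N A).mD par (Matrix.scalar ι (xo F)) * (kap g δ).map of))

/-- Its curvature. -/
noncomputable def curv (F : Pol N A) (par : ι → ℕ) (g : Fin N → RR N A)
    (δ : Matrix ι ι (Pol N A)) : Matrix ι ι (OO N A) :=
  (SO N A).mD par (varpi F par g δ) + varpi F par g δ * varpi F par g δ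

end Pool.Agent.Lib.MP_e9c0f3_ag.DR
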