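import Pool.Agent.Lib.MP_e9c0f3_ag.DR.Fr
import Pool.Agent.Lib.MP_e9c0f3_ag.DR.TG

/-! The degree of the bundle of a matrix factorisation is rational. -/

open MvPolynomial Sum

namespace Pool.Agent.Lib.MP_e9c0f3_ag.DR

open Om

variable {N : ℕ} {A : Type} [CommRing A] [Algebra ℂ A] {F : Pol N A}
variable {ι κ : Type} [Fintype ι] [DecidableEq ι] [Fintype κ] [DecidableEq κ]

theorem rat_rec {X : ℕ → OO N A ⧸ JJ F} {c : ℤ} (hc : c ≠ 0)
    (h : ∀ m, ∃ n : ℤ, ExB F (X m - ∑ l ∈ Finset.range (m + 1),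
      ((m.choose l : ℂ) * (c : ℂ) ^ l) • (hh F ^ l * X (m - l)) - (n : ℂ) • hh F ^ m)) (i : ℕ) :
    ∃ r : ℚ, ExB F (hh F * X i - (r : ℂ) • hh F ^ (i + 1)) := by
  induction i using Nat.strong_induction_on with
  | _ i ih =>
  have ih' : ∀ k, ∃ r : ℚ, k < i → ExB F (hh F * X k - (r : ℂ) • hh F ^ (k + 1)) := fun k => by
    by_cases hk : k < i
    · obtain ⟨r, hr⟩ := ih k hk
      exact ⟨r, fun _ => hr⟩
    · exact ⟨0, fun h => absurd h hk⟩
  choose r hr using ih'
  obtain ⟨n, hn⟩ := h (i + 1)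
  rw [Finset.sum_range_succ', Finset.sum_range_succ'] at hn
  have hS := exB_sum (F := F) (Finset.range i) (z := fun l =>
    (((i + 1).choose (l + 1 + 1) : ℂ) * (c : ℂ) ^ (l + 1 + 1)) •
      (hh F ^ (l + 1 + 1) * X (i + 1 - (l + 1 + 1)) - (r (i - 1 - l) : ℂ) • hh F ^ (i + 1)))
    fun l hl => by
      have hl' := Finset.mem_range.1 hl
      have h1 := (hr (i - 1 - l) (by omega)).hh_mul (l + 1)
      rw [mul_sub, ← mul_assoc, ← pow_succ, mul_smul_comm, ← pow_add,
        show l + 1 + (i - 1 - l + 1) = i + 1 by omega,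
        show i - 1 - l = i + 1 - (l + 1 + 1) by omega] at h1
      rw [show i - 1 - l = i + 1 - (l + 1 + 1) by omega]
      exact h1.smul _
  have hc' : (c : ℂ) ≠ 0 := by exact_mod_cast hc
  have hi' : ((i : ℂ) + 1) ≠ 0 := by exact_mod_cast Nat.succ_ne_zero i
  refine ⟨-(n + ∑ l ∈ Finset.range i, ((i + 1).choose (l + 1 + 1) : ℚ) * (c : ℚ) ^ (l + 1 + 1) *
    r (i - 1 - l)) / ((i + 1) * c), ?_⟩
  have h2 := (hn.add hS).smul (-(((i : ℂ) + 1) * c)⁻¹)
  simp only [smul_sub, Finset.sum_sub_distrib, smul_smul, ← Finset.sum_smul] at h2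
  convert h2 using 1
  simp only [zero_add, Nat.choose_one_right, pow_one, Nat.add_sub_cancel, Nat.choose_zero_right,
    pow_zero, one_mul, Nat.sub_zero, Nat.cast_one, one_smul]
  push_cast
  generalize ∑ l ∈ Finset.range i, (((i + 1).choose (l + 1 + 1) : ℂ) * (c : ℂ) ^ (l + 1 + 1)) •
    (hh F ^ (l + 1 + 1) * X (i + 1 - (l + 1 + 1))) = Y
  generalize ∑ l ∈ Finset.range i, ((i + 1).choose (l + 1 + 1) : ℂ) * (c : ℂ) ^ (l + 1 + 1) *
    (r (i - 1 - l) : ℂ) = s
  match_scalars <;> field_simp <;> ring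

omit [Algebra ℂ A] [Fintype ι] [DecidableEq ι] in
theorem rat_typ_shift {ν : ι → ℤ} {c : ℤ} {m : Matrix ι ι (TT F)}
    (h : Typ F (fun i => ν i + c) (fun i => ν i + c) m) : Typ F ν ν m := fun i j => by
  have := h i j
  rwa [add_sub_add_right_eq_sub] at this

theorem rat_ring {R : Type} [Ring R] {x y p q : R} (h0 : x * x = 0) (h1 : x * y + y * x = 1)
    (hp : p * p = p) (xp : x * p = q * x) (yp : y * p = q * y)
    (xq : x * q = p * x) (yq : y * q = p * y) :
    x * y * p * (x * y * p) = x * y * p ∧ y * x * p * (y * x * p) = y * x * p ∧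
      x * y * p * (y * x * p) = 0 ∧ y * x * p * (x * y * p) = 0 ∧ x * y * p + y * x * p = p ∧
      y * q * (x * p) = y * x * p ∧ x * q * (y * p) = x * y * p := by
  have c1 : p * (x * y) = x * y * p := by rw [← mul_assoc, ← xq, mul_assoc, ← yp, mul_assoc]
  have c2 : p * (y * x) = y * x * p := by rw [← mul_assoc, ← yq, mul_assoc, ← xp, mul_assoc]
  have e1 : y * x = 1 - x * y := eq_sub_of_add_eq' h1
  have e2 : x * y = 1 - y * x := eq_sub_of_add_eq h1
  have a1 : y * x * (x * y) = 0 := by rw [mul_assoc, ← mul_assoc x x, h0, zero_mul, mul_zero]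
  have a2 : x * y * (x * y) = x * y := by
    nth_rewrite 1 [e2]
    rw [sub_mul, one_mul, a1, sub_zero]
  have a3 : y * x * (y * x) = y * x := by
    nth_rewrite 2 [e1]
    rw [mul_sub, mul_one, a1, sub_zero]
  have a4 : x * y * (y * x) = 0 := by rw [e1, mul_sub, mul_one, a2, sub_self]
  have key : ∀ u v : R, p * v = v * p → u * p * (v * p) = u * v * p := fun u v h => by
    rw [mul_assoc, ← mul_assoc p, h, mul_assoc v, hp, mul_assoc]
  refine ⟨by rw [key _ _ c1, a2], by rw [key _ _ c2, a3], by rw [key _ _ c2, a4, zero_mul],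
    by rw [key _ _ c1, a1, zero_mul], by rw [← add_mul, h1, one_mul], ?_, ?_⟩
  · rw [mul_assoc, ← mul_assoc q, ← xp, mul_assoc x, hp, mul_assoc]
  · rw [mul_assoc, ← mul_assoc q, ← yp, mul_assoc y, hp, mul_assoc]

theorem rat_aux {par : ι → ℕ} {δ η : Matrix ι ι (TT F)} {ν₀ ν₁ : ι → ℤ} {d : ℤ} (hd : d ≠ 0)
    (oδ : ∀ i j, δ i j ≠ 0 → Odd (par i + par j)) (oη : ∀ i j, η i j ≠ 0 → Odd (par i + par j))
    (h0 : δ * δ = 0) (h1 : δ * η + η * δ = 1) (t1 : Typ F ν₁ ν₀ δ) (t2 : Typ F ν₀ ν₁ η)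
    (t3 : Typ F (fun i => ν₀ i + -d) ν₁ δ) (t4 : Typ F ν₁ (fun i => ν₀ i + -d) η)
    {U : Matrix κ ι (TT F)} {V : Matrix ι κ (TT F)} (hf : Frame F ν₀ U V) (i : ℕ) :
    ∃ r : ℚ, ExB F (hh F * cc F i U
      (δ * η * Matrix.diagonal fun i => if Even (par i) then 1 else 0) V -
        (r : ℂ) • hh F ^ (i + 1)) := by
  obtain ⟨κ₁, _, _, U₁, V₁, hf₁⟩ := exists_frame F ν₁
  obtain ⟨κ₂, _, _, U₂, V₂, hf₂⟩ := exists_frame F fun i => ν₀ i + -d
  have xp := SD.cw_odd_mul par oδ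
  have yp := SD.cw_odd_mul par oη
  have tp := fun ν : ι → ℤ => typ_diag (F := F) ν fun i => Even (par i)
  have tq := fun ν : ι → ℤ => typ_diag (F := F) ν fun i => ¬Even (par i)
  have dp := hf.diag fun i => Even (par i)
  have dq := hf₁.diag fun i => ¬Even (par i)
  have hq : (Matrix.diagonal fun i => if ¬Even (par i) then (1 : TT F) else 0) =
      1 - Matrix.diagonal fun i => if Even (par i) then (1 : TT F) else 0 := by
    rw [← Matrix.diagonal_one, Matrix.diagonal_sub]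
    congr 1
    funext i
    by_cases h : Even (par i) <;> simp [h]
  have hp : (Matrix.diagonal fun i => if Even (par i) then (1 : TT F) else 0) *
      (Matrix.diagonal fun i => if Even (par i) then (1 : TT F) else 0) =
        Matrix.diagonal fun i => if Even (par i) then (1 : TT F) else 0 := by
    rw [Matrix.diagonal_mul_diagonal]
    congr 1
    funext i
    split_ifs <;> simp
  rw [hq] at tq dq
  generalize (Matrix.diagonal fun i => if Even (par i) then (1 : TT F) else 0) = p at *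
  have hqq : (1 - p) * (1 - p) = 1 - p := by rw [sub_mul, one_mul, mul_sub, mul_one, hp]; simp
  have xq : δ * (1 - p) = p * δ := by rw [mul_sub, xp, sub_mul]; simp
  have yq : η * (1 - p) = p * η := by rw [mul_sub, yp, sub_mul]; simp
  obtain ⟨a1, a2, a3, a4, a5, a6, a7⟩ := rat_ring h0 h1 hp xp yp xq yq
  obtain ⟨b1, b2, b3, b4, b5, b6, b7⟩ := rat_ring h0 h1 hqq xq yq xp yp
  generalize 1 - p = q at *
  refine rat_rec (X := fun k => cc F k U (δ * η * p) V) (neg_ne_zero.2 hd) (fun m => ?_) i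
  have s1 := hf.add ((rat_typ_shift (t3.mul t4)).mul (tp _)) ((t2.mul t1).mul (tp _)) a1 a2 a3 a4 m
  have s2 := hf.uv hf₁ (t2.mul (tq _)) (t1.mul (tp _)) (by rw [a6, a2]) (by rw [b7, b1]) m
  have s3 := hf₁.add ((t1.mul t2).mul (tq _)) ((t4.mul t3).mul (tq _)) b1 b2 b3 b4 m
  have s4 := hf₁.uv hf₂ (t4.mul (tp _)) (t3.mul (tq _)) (by rw [b6, b2]) (by rw [a7, a1]) m
  rw [a5, dp] at s1
  rw [a6, b7] at s2
  rw [b5, dq] at s3
  rw [b6, a7, hf.shift hf₂ a1] at s4
  refine ⟨(∑ i, if Even (par i) then ν₀ i ^ m else 0) -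
    ∑ i, if ¬Even (par i) then ν₁ i ^ m else 0, ?_⟩
  convert ((s3.sub s1).sub s2).add s4 using 1
  rw [Int.cast_sub, sub_smul]
  abel

/-- The weights attached to a graded matrix factorisation. -/
def nu (wt : ι → ℤ) (c : ℤ) (i : ι) : ℤ := (wt i + c) / 2

variable {d : ℕ} {par : ι → ℕ} {wt : ι → ℤ} {δ : Matrix ι ι (Pol N A)} {g : Fin N → RR N A}

omit [Algebra ℂ A] in
theorem typ_delta (h : IsMF d F par wt δ) (c : ℤ) : Typ F (nu wt (c - d)) (nu wt c)
    ((δ.map (rename inl)).map (Ideal.Quotient.mk (relJ F))) := by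
  intro i j
  by_cases h1 : δ i j = 0
  · simp only [Matrix.map_apply, h1, map_zero]
    exact wt_zero _
  refine ⟨rename inl (δ i j), tg_ren fun t ht => ?_, rfl⟩
  have := h.homog i j t ht
  simp only [nu]
  omega

omit [Algebra ℂ A] in
theorem typ_kap (h : IsMF d F par wt δ) (hg0 : ∀ i, IsWeightedHomogeneous (vw N) (g i) (1 - d))
    (c : ℤ) : Typ F (nu wt c) (nu wt (c - d)) ((kap g δ).map (Ideal.Quotient.mk (relJ F))) := by
  intro i j
  by_cases h1 : δ i j = 0
  · simp only [Matrix.map_apply, tg_kap, h1, map_zero, mul_zero, Finset.sum_const_zero]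
    exact wt_zero _
  refine ⟨kap g δ i j, ?_, rfl⟩
  obtain ⟨n, hn⟩ := ne_zero_iff.1 h1
  have a2 := h.homog i j n hn
  have b2 := tg_ren (P := δ i j) (u := n.degree) fun t ht => by
    have := h.homog i j t ht
    omega
  rw [tg_kap, show nu wt (c - d) j - nu wt c i = 1 - d + (n.degree - 1) by simp only [nu]; omega]
  refine IsWeightedHomogeneous.sum _ _ _ fun a _ => (hg0 a).mul ?_
  rw [← pderiv_rename inl_injective]
  exact b2.pderiv (sub_add_cancel _ _)

omit [Algebra ℂ A] in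
theorem rat_ezero_eq : (ezero par g δ).map (Ideal.Quotient.mk (relJ F)) =
    (δ.map (rename inl)).map (Ideal.Quotient.mk (relJ F)) *
      (kap g δ).map (Ideal.Quotient.mk (relJ F)) *
        Matrix.diagonal fun i => if Even (par i) then 1 else 0 := by
  rw [ezero, Matrix.map_mul, Matrix.map_mul, Matrix.diagonal_map (map_zero _)]
  congr 2
  funext i
  split_ifs <;> simp

omit [Algebra ℂ A] in
theorem typ_ezero (h : IsMF d F par wt δ) (hg0 : ∀ i, IsWeightedHomogeneous (vw N) (g i) (1 - d))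
    (c : ℤ) : Typ F (nu wt c) (nu wt c) ((ezero par g δ).map (Ideal.Quotient.mk (relJ F))) := by
  rw [rat_ezero_eq]
  have t1 := typ_delta h (c + d)
  have t2 := typ_kap h hg0 (c + d)
  rw [add_sub_cancel_right] at t1 t2
  exact (t1.mul t2).mul (typ_diag _ _)

theorem rat_ezero (hd : 1 ≤ d) (h : IsMF d F par wt δ)
    (hg0 : ∀ i, IsWeightedHomogeneous (vw N) (g i) (1 - d))
    (hg : ∑ i, g i * rename inl (pderiv i F) - 1 ∈ Ideal.span {ff N A - 1}) {c : ℤ}
    {U : Matrix κ ι (TT F)} {V : Matrix ι κ (TT F)} (hf : Frame F (nu wt c) U V) (i : ℕ) :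
    ∃ r : ℚ, ExB F (hh F * cc F i U ((ezero par g δ).map (Ideal.Quotient.mk (relJ F))) V -
      (r : ℂ) • hh F ^ (i + 1)) := by
  rw [rat_ezero_eq]
  have e : nu wt (c - d - d) = fun i => nu wt c i + -(d : ℤ) := by
    funext i
    simp only [nu]
    omega
  refine rat_aux (ν₁ := nu wt (c - d)) (d := d) (by omega) (fun i j hij => h.odd i j fun e => hij ?_)
    (fun i j hij => kap_odd (g := g) h i j fun e => hij ?_) ?_ ?_ (typ_delta h c) (typ_kap h hg0 c)
    (e ▸ typ_delta h (c - d)) (e ▸ typ_kap h hg0 (c - d)) hf i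
  · simp [e]
  · simp [e]
  · rw [← Matrix.map_mul, ← Matrix.map_mul, h.sq]
    ext1 i j
    rw [Matrix.map_apply, Matrix.map_apply, Matrix.scalar_apply, Matrix.diagonal_apply]
    split_ifs
    · exact Ideal.Quotient.eq_zero_iff_mem.2 (Ideal.subset_span (Set.mem_insert _ _))
    · simp
  · rw [← Matrix.map_mul, ← Matrix.map_mul, ← Matrix.map_add _ (map_add _), kap_comm h]
    ext1 i j
    rw [Matrix.map_apply, Matrix.scalar_apply, Matrix.diagonal_apply, Matrix.one_apply]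
    split_ifs
    · exact Ideal.Quotient.eq.2 (Ideal.span_mono (by simp [ff]) hg)
    · simp

end Pool.Agent.Lib.MP_e9c0f3_ag.DR
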