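import Pool.Agent.Lib.MP_e9c0f3_ag.DR.ShB1
import Pool.Agent.Lib.MP_e9c0f3_ag.DR.Rat
import Pool.Agent.Lib.MP_e9c0f3_ag.DR.Inj2

/-! The Shamash resolution on the torsor. -/

open MvPolynomial Sum Matrix

namespace Pool.Agent.Lib.MP_e9c0f3_ag.DR

variable {N : ℕ} {ι ι' κ : Type} [Fintype ι] [DecidableEq ι] [Fintype ι'] [DecidableEq ι']
  [Fintype κ] [DecidableEq κ] {F : Pol N ℂ}

/-- The homogeneous vectors of a submodule. -/
def typ (F : Pol N ℂ) (ν : ι → ℤ) (Z : Submodule (TT F) (ι → TT F)) :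
    Submodule (Jou F) (ι → TT F) where
  carrier := {v | v ∈ Z ∧ ∀ i, Wt F (-ν i) (v i)}
  zero_mem' := ⟨Z.zero_mem, fun _ => wt_zero _⟩
  add_mem' h h' := ⟨Z.add_mem h.1 h'.1, fun i => (h.2 i).add (h'.2 i)⟩
  smul_mem' b v h := ⟨Z.smul_mem (inc F b) h.1, fun i => by
    have := (wt_inc b).mul (h.2 i)
    rwa [zero_add] at this⟩

omit [DecidableEq κ] in
theorem shb2_abs {B T : Type} [CommRing B] [CommRing T] [Algebra B T]
    (hi : Function.Injective (algebraMap B T)) {U : Matrix κ ι T} {V : Matrix ι κ T}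
    (h1 : V * U = 1) {e : Matrix ι ι T} {e' : Matrix κ κ B}
    (h : e'.map (algebraMap B T) = U * e * V) (Y : Submodule B (ι → T))
    (hY : ∀ v ∈ Y, e *ᵥ v = v ∧ ∀ a, ∃ b, algebraMap B T b = (U *ᵥ v) a)
    (hY' : ∀ w : κ → B, e *ᵥ (V *ᵥ (algebraMap B T ∘ w)) ∈ Y) :
    Nonempty (Y ≃ₗ[B] LinearMap.range e'.mulVecLin) := by
  have hmap : ∀ x : κ → B, algebraMap B T ∘ (e' *ᵥ x) =
      U *ᵥ (e *ᵥ (V *ᵥ (algebraMap B T ∘ x))) := fun x => by
    rw [mulVec_mulVec, mulVec_mulVec, ← h]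
    funext a
    exact RingHom.map_mulVec (algebraMap B T) e' x a
  have hVU : ∀ v : ι → T, V *ᵥ (U *ᵥ v) = v := fun v => by
    rw [mulVec_mulVec, h1, one_mulVec]
  have hz : ∀ w : LinearMap.range e'.mulVecLin, V *ᵥ (algebraMap B T ∘ (w : κ → B)) ∈ Y := by
    rintro ⟨_, x, rfl⟩
    show V *ᵥ (algebraMap B T ∘ (e' *ᵥ x)) ∈ Y
    rw [hmap, hVU]
    exact hY' x
  let Φ : LinearMap.range e'.mulVecLin →ₗ[B] Y :=
    { toFun := fun w => ⟨V *ᵥ (algebraMap B T ∘ (w : κ → B)), hz w⟩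
      map_add' := fun w w' => Subtype.ext (by
        show V *ᵥ (algebraMap B T ∘ ((w : κ → B) + w')) = V *ᵥ _ + V *ᵥ _
        rw [← mulVec_add]
        exact congrArg _ (funext fun a => map_add (algebraMap B T) _ _))
      map_smul' := fun b w => Subtype.ext (by
        show V *ᵥ (algebraMap B T ∘ (b • (w : κ → B))) = b • (V *ᵥ _)
        rw [← mulVec_smul]
        exact congrArg _ (funext fun a => (map_mul (algebraMap B T) _ _).trans
          (Algebra.smul_def _ _).symm)) }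
  have hΦ : ∀ w, (Φ w : ι → T) = V *ᵥ (algebraMap B T ∘ (w : κ → B)) := fun _ => rfl
  refine ⟨(LinearEquiv.ofBijective Φ ⟨?_, ?_⟩).symm⟩
  · refine (injective_iff_map_eq_zero Φ).2 ?_
    rintro ⟨_, x, rfl⟩ hx
    have h3 : V *ᵥ (algebraMap B T ∘ (e' *ᵥ x)) = 0 := (hΦ _).symm.trans (congrArg Subtype.val hx)
    rw [hmap, hVU] at h3
    have h2 := hmap x
    rw [h3, mulVec_zero] at h2
    refine Subtype.ext (funext fun a => hi ?_)
    exact (congrFun h2 a).trans (map_zero (algebraMap B T)).symm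
  · rintro ⟨v, hv⟩
    obtain ⟨h5, h6⟩ := hY v hv
    choose b hb using h6
    have h2 : algebraMap B T ∘ b = U *ᵥ v := funext hb
    have h3 : e' *ᵥ b = b := by
      have h4 := hmap b
      rw [h2, hVU, h5, ← h2] at h4
      exact funext fun a => hi (congrFun h4 a)
    refine ⟨⟨b, b, h3⟩, Subtype.ext ?_⟩
    rw [hΦ]
    show V *ᵥ (algebraMap B T ∘ b) = v
    rw [h2, hVU]

theorem shb2_inj : Function.Injective (inc F) := Subtype.val_injective

omit [DecidableEq ι] [Fintype ι'] [DecidableEq ι'] in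
theorem shb2_mulVec {ν : ι → ℤ} {ν' : ι' → ℤ} {m : Matrix ι' ι (TT F)} (hm : Typ F ν' ν m)
    {w : ι → TT F} (hw : ∀ j, Wt F (-ν j) (w j)) (i : ι') : Wt F (-ν' i) ((m *ᵥ w) i) := by
  refine wt_sum Finset.univ (t := fun j => m i j * w j) fun j _ => ?_
  have := (hm i j).mul (hw j)
  rwa [show ν j - ν' i + -ν j = -ν' i by ring] at this

omit [DecidableEq ι] [Fintype ι'] [DecidableEq ι'] in
theorem shb2_smul (m : Matrix ι' ι (TT F)) (b : Jou F) (w : ι → TT F) :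
    m *ᵥ (b • w) = b • (m *ᵥ w) := mulVec_smul m (inc F b) w

omit [DecidableEq ι] [Fintype ι'] [DecidableEq ι'] in
/-- A homogeneous matrix as a map of modules of homogeneous vectors. -/
theorem shb2_map {ν : ι → ℤ} {ν' : ι' → ℤ} {m : Matrix ι' ι (TT F)} (hm : Typ F ν' ν m)
    {W : Submodule (TT F) (ι → TT F)} {Z : Submodule (TT F) (ι' → TT F)}
    (h : ∀ w ∈ W, m *ᵥ w ∈ Z) : ∃ p : typ F ν W →ₗ[Jou F] typ F ν' Z,
      ∀ w, (p w : ι' → TT F) = m *ᵥ (w : ι → TT F) :=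
  ⟨{ toFun := fun w => ⟨m *ᵥ (w : ι → TT F), h _ w.2.1, shb2_mulVec hm w.2.2⟩
     map_add' := fun _ _ => Subtype.ext (mulVec_add _ _ _)
     map_smul' := fun b w => Subtype.ext (shb2_smul m b w) }, fun _ => rfl⟩

theorem typ_equiv {ν : ι → ℤ} {U : Matrix κ ι (TT F)} {V : Matrix ι κ (TT F)}
    (hf : Frame F ν U V) {e : Matrix ι ι (TT F)} (he : e * e = e) (t : Typ F ν ν e)
    {e' : Matrix κ κ (Jou F)} (h : e'.map (inc F) = U * e * V) {Z : Submodule (TT F) (ι → TT F)}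
    (hZ : ∀ v, v ∈ Z ↔ e *ᵥ v = v) :
    Nonempty (typ F ν Z ≃ₗ[Jou F] LinearMap.range e'.mulVecLin) := by
  refine shb2_abs (B := Jou F) (T := TT F) shb2_inj hf.one h _ (fun v hv => ⟨(hZ v).1 hv.1,
    fun a => Wt.jou (wt_sum Finset.univ (t := fun i => U a i * v i) fun i _ => ?_)⟩)
    fun w => ⟨(hZ _).2 (by rw [mulVec_mulVec, he]), shb2_mulVec t fun i =>
      wt_sum Finset.univ (t := fun a => V i a * inc F (w a)) fun a _ => ?_⟩
  · have := (hf.wU a i).mul (hv.2 i)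
    rwa [add_neg_cancel] at this
  · have := (hf.wV i a).mul (wt_inc (w a))
    rwa [add_zero] at this

omit [DecidableEq ι] [Fintype ι'] [DecidableEq ι'] in
theorem typ_lift {d : ℕ} (hF : F.IsHomogeneous d) {ν : ι → ℤ} {ν' : ι' → ℤ}
    {m : Matrix ι' ι (TT F)} (hm : Typ F ν' ν m) {w : ι → TT F}
    (hv : ∀ i, Wt F (-ν' i) ((m *ᵥ w) i)) : ∃ w' : ι → TT F, (∀ j, Wt F (-ν j) (w' j)) ∧
      (∀ j, w j = 0 → w' j = 0) ∧ m *ᵥ w' = m *ᵥ w := by
  obtain ⟨π, hπ⟩ := exists_proj hF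
  have h1 : ∀ n t, Wt F n (π n t) := fun n t => by
    obtain ⟨r, rfl⟩ := Ideal.Quotient.mk_surjective t
    exact ⟨_, weightedHomogeneousComponent_isWeightedHomogeneous n r, hπ n r⟩
  have h2 : ∀ {a t}, Wt F a t → ∀ n u, π n (t * u) = t * π (n - a) u := by
    rintro a _ ⟨r, hr, rfl⟩ n u
    obtain ⟨s, rfl⟩ := Ideal.Quotient.mk_surjective u
    rw [← map_mul, mul_comm r, hπ, hπ, inj_comp_mul hr, map_mul, mul_comm]
  have h3 : ∀ {n t}, Wt F n t → π n t = t := by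
    rintro n _ ⟨r, hr, rfl⟩
    rw [hπ, hr.weightedHomogeneousComponent_same]
  refine ⟨fun j => π (-ν j) (w j), fun j => h1 _ _, fun j hj => (congrArg _ hj).trans (map_zero _),
    funext fun i => ?_⟩
  rw [← h3 (hv i)]
  show ∑ j, m i j * π (-ν j) (w j) = π (-ν' i) (∑ j, m i j * w j)
  rw [map_sum]
  refine Finset.sum_congr rfl fun j _ => ?_
  rw [h2 (hm i j), show -ν' i - (ν j - ν' i) = -ν j by ring]

/-- One step of a resolution by a sum of line bundles. -/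
theorem typ_step {k : ℕ} (ν : ι → ℤ) (P : ι → Prop) [DecidablePred P]
    (M : ModuleCat.{0} (Jou F)) (Z W : Submodule (TT F) (ι → TT F))
    (hW : ∀ v, v ∈ W ↔ ∀ i, ¬P i → v i = 0) (p : typ F ν W →ₗ[Jou F] M)
    (hp : Function.Surjective p) (hZ : Z ≤ W)
    (hex : ∀ w : typ F ν W, p w = 0 ↔ (w : ι → TT F) ∈ Z) {γ : Form (Jou F)}
    (h : HasCh k (ModuleCat.of (Jou F) (typ F ν Z)) γ) :
    ∃ (γ' : Form (Jou F)) (b : ℤ), HasCh k M γ' ∧
      phiB F γ' = (b : ℂ) • hh F ^ k - phiB F γ := by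
  obtain ⟨κ, _, _, U, V, hf⟩ := exists_frame F ν
  obtain ⟨e', he'⟩ := hf.desc hf (typ_diag ν P)
  have hee : (diagonal fun i => if P i then (1 : TT F) else 0) *
      (diagonal fun i => if P i then (1 : TT F) else 0) =
      diagonal fun i => if P i then (1 : TT F) else 0 := by
    rw [diagonal_mul_diagonal]
    congr 1
    funext i
    by_cases hi : P i <;> simp [hi]
  obtain ⟨u⟩ := typ_equiv hf hee (typ_diag ν P) he' (Z := W) fun v => by
    rw [hW]
    constructor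
    · intro hv
      funext i
      rw [mulVec_diagonal]
      by_cases hi : P i
      · rw [if_pos hi, one_mul]
      · rw [if_neg hi, zero_mul, hv i hi]
    · intro hv i hi
      rw [← hv, mulVec_diagonal, if_neg hi, zero_mul]
  have hle : typ F ν Z ≤ typ F ν W := fun v hv => ⟨hZ hv.1, hv.2⟩
  refine ⟨chw k e' - γ, ∑ i, if P i then ν i ^ k else 0,
    HasCh.step M (ModuleCat.of (Jou F) (typ F ν Z)) γ κ e' (hf.idem hee he')
      (u.toLinearMap ∘ₗ Submodule.inclusion hle) (p ∘ₗ u.symm.toLinearMap)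
      (u.injective.comp (Submodule.inclusion_injective hle)) (fun y => ?_)
      (hp.comp u.symm.surjective) h, ?_⟩
  · obtain ⟨w, rfl⟩ := u.surjective y
    show p (u.symm (u w)) = 0 ↔ _
    rw [u.symm_apply_apply, hex]
    constructor
    · intro hw
      exact ⟨⟨w, hw, w.2.2⟩, rfl⟩
    · rintro ⟨z, hz⟩
      have h1 : Submodule.inclusion hle z = w := u.injective hz
      rw [← h1]
      exact z.2.1
  · rw [map_sub, phiB_cc he', hf.diag]

theorem shamashB {k d : ℕ} (hN : 0 < N) (hF0 : F ≠ 0) (hF : F.IsHomogeneous d) {par : ι → ℕ}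
    {wt : ι → ℤ} {δ : Matrix ι ι (Pol N ℂ)} {g : Fin N → RR N ℂ} (h : IsMF d F par wt δ)
    (hg0 : ∀ i, IsWeightedHomogeneous (vw N) (g i) (1 - d))
    (hg : ∑ i, g i * rename inl (pderiv i F) - 1 ∈ Ideal.span {ff N ℂ - 1})
    {I : Ideal (Pol N ℂ)} (hr : Resolves par δ I) {γ : Form (Jou F)}
    (hγ : HasCh k (ModuleCat.of (Jou F) (Jou F ⧸ cyc F I)) γ) :
    ∃ (c u b : ℤ) (κ : Type) (_ : Fintype κ) (_ : DecidableEq κ) (U : Matrix κ ι (TT F))
      (V : Matrix ι κ (TT F)), Frame F (nu wt c) U V ∧ ExB F (phiB F γ -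
        (u : ℂ) • cc F k U ((ezero par g δ).map (Ideal.Quotient.mk (relJ F))) V -
        (b : ℂ) • hh F ^ k) := by
  obtain ⟨i₀, hs⟩ := shData hN hF0 h hg hr
  obtain ⟨δ', hδ⟩ : ∃ δ' : Matrix ι ι (TT F),
    δ' = (δ.map (rename inl)).map (Ideal.Quotient.mk (relJ F)) := ⟨_, rfl⟩
  obtain ⟨e, he⟩ : ∃ e : Matrix ι ι (TT F),
    e = (ezero par g δ).map (Ideal.Quotient.mk (relJ F)) := ⟨_, rfl⟩
  obtain ⟨J, hJ⟩ : ∃ J : Ideal (TT F),
    J = (I.map (rename inl)).map (Ideal.Quotient.mk (relJ F)) := ⟨_, rfl⟩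
  have hcyc : ∀ b : Jou F, b ∈ cyc F I ↔ inc F b ∈ J := fun b => by
    rw [hJ]
    rfl
  have tδ : ∀ c : ℤ, Typ F (nu wt (c - d)) (nu wt c) δ' := fun c => hδ ▸ typ_delta h c
  have te : ∀ c : ℤ, Typ F (nu wt c) (nu wt c) e := fun c => he ▸ typ_ezero h hg0 c
  rw [← hδ, ← he, ← hJ] at hs
  rw [← he]
  have hp0 : par i₀ = 0 := (hs.zero i₀).2 rfl
  let ν : ℕ → ι → ℤ := fun n => nu wt (n * d - wt i₀)
  let Z := shZ par δ' J i₀
  let W : ℕ → Submodule (TT F) (ι → TT F) := fun n => LinearMap.range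
    (diagonal fun i => if par i ≤ n ∧ (par i + n) % 2 = 0 then (1 : TT F) else 0).mulVecLin
  have hW : ∀ n v, v ∈ W n ↔ ∀ i, ¬(par i ≤ n ∧ (par i + n) % 2 = 0) → v i = 0 := fun n v =>
    sh_range (fun i => par i ≤ n ∧ (par i + n) % 2 = 0) v
  have tD : ∀ n : ℕ, Typ F (ν n) (ν (n + 1))
      ((diagonal fun i => if par i ≤ n then (1 : TT F) else 0) * δ') := fun n => by
    have h1 := tδ (((n + 1 : ℕ) : ℤ) * d - wt i₀)
    rw [show ((n + 1 : ℕ) : ℤ) * d - wt i₀ - d = n * d - wt i₀ by push_cast; ring] at h1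
    exact (typ_diag (ν n) fun i => par i ≤ n).mul h1
  have down : ∀ n (γ₀ : Form (Jou F)),
      HasCh k (ModuleCat.of (Jou F) (typ F (ν n) (Z n))) γ₀ →
      ∃ (γ' : Form (Jou F)) (u b : ℤ), HasCh k (ModuleCat.of (Jou F) (typ F (ν 0) (Z 0))) γ' ∧
        phiB F γ' = (u : ℂ) • phiB F γ₀ + (b : ℂ) • hh F ^ k := by
    intro n
    induction n with
    | zero => exact fun γ₀ h0 => ⟨γ₀, 1, 0, h0, by simp⟩
    | succ n ih =>
      intro γ₀ h0
      obtain ⟨p, hp⟩ := shb2_map (tD n) (W := W (n + 1)) (Z := Z n) fun w hw =>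
        hs.mem n w ((hW _ w).1 hw)
      obtain ⟨γ₁, b₁, h1, h2⟩ := typ_step (ν (n + 1))
        (fun i => par i ≤ n + 1 ∧ (par i + (n + 1)) % 2 = 0)
        (ModuleCat.of (Jou F) (typ F (ν n) (Z n))) (Z (n + 1)) (W (n + 1)) (hW (n + 1)) p
        (fun ⟨v, hv, hv'⟩ => by
          obtain ⟨w, hw, rfl⟩ := hs.surj n v hv
          obtain ⟨w', k1, k2, k3⟩ := typ_lift hF (tD n) hv'
          exact ⟨⟨w', (hW _ _).2 fun i hi => k2 i (hw i hi), k1⟩,
            Subtype.ext ((hp _).trans k3)⟩)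
        (fun v hv => (hW _ v).2 hv.1)
        (fun w => by
          have h5 : ∀ i, (p w : ι → TT F) i =
              if par i ≤ n then (δ' *ᵥ (w : ι → TT F)) i else 0 := fun i => by
            rw [hp, ← mulVec_mulVec, mulVec_diagonal, ite_mul, one_mul, zero_mul]
          constructor
          · intro h3
            refine ⟨(hW _ _).1 w.2.1, fun i hi => ?_, fun h => absurd h (by omega)⟩
            have h6 := h5 i
            rw [h3, if_pos (by omega)] at h6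
            exact h6.symm
          · intro h3
            refine Subtype.ext (funext fun i => ?_)
            rw [h5]
            by_cases hi : par i ≤ n
            · rw [if_pos hi]
              exact h3.2.1 i (by omega)
            · rw [if_neg hi]
              rfl) h0
      obtain ⟨γ', u, b, h3, h4⟩ := ih γ₁ h1
      refine ⟨γ', -u, u * b₁ + b, h3, ?_⟩
      rw [h4, h2]
      push_cast
      module
  obtain ⟨n, hn, hn2⟩ : ∃ n, (∀ i, par i < n) ∧ n % 2 = 0 :=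
    ⟨2 * (Finset.univ.sup par + 1), fun i => by
      have := Finset.le_sup (f := par) (Finset.mem_univ i)
      omega, by omega⟩
  obtain ⟨κ, _, _, U, V, hf⟩ := exists_frame F (ν n)
  obtain ⟨e', he'⟩ := hf.desc hf (te _)
  obtain ⟨q⟩ := typ_equiv hf hs.idem (te _) he' (hs.top n hn hn2)
  have start : HasCh k (ModuleCat.of (Jou F) (typ F (ν n) (Z n))) (chw k e') := by
    have := HasCh.step (k := k) (ModuleCat.of (Jou F) (typ F (ν n) (Z n)))
      (ModuleCat.of (Jou F) PUnit.{1}) 0 κ e' (hf.idem hs.idem he') 0 q.symm.toLinearMap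
      (Function.injective_of_subsingleton _)
      (fun y => ⟨fun hy => ⟨0, (q.symm.map_eq_zero_iff.1 hy).symm⟩,
        fun ⟨_, hy⟩ => by rw [← hy]; exact map_zero _⟩) q.symm.surjective (HasCh.zero _)
    rwa [sub_zero] at this
  obtain ⟨γ₁, u, b, h1, h2⟩ := down n _ start
  obtain ⟨ρ, hρ⟩ := inj2_retr hF
  have hρ' : ∀ b : Jou F, ρ (inc F b) = b := fun b => by
    have h3 := map_smul ρ b 1
    rw [hρ, smul_eq_mul, mul_one] at h3
    exact (congrArg ρ (mul_one (inc F b)).symm).trans h3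
  have hν : ν 0 i₀ = 0 := by simp [ν, nu]
  let p : typ F (ν 0) (W 0) →ₗ[Jou F] Jou F ⧸ cyc F I :=
    (cyc F I).mkQ ∘ₗ ρ ∘ₗ LinearMap.proj i₀ ∘ₗ (typ F (ν 0) (W 0)).subtype
  have hp : ∀ w : typ F (ν 0) (W 0), p w = (cyc F I).mkQ (ρ ((w : ι → TT F) i₀)) := fun _ => rfl
  obtain ⟨γ₂, b₂, h3, h4⟩ := typ_step (ν 0) (fun i => par i ≤ 0 ∧ (par i + 0) % 2 = 0)
    (ModuleCat.of (Jou F) (Jou F ⧸ cyc F I)) (Z 0) (W 0) (hW 0) p
    (fun t => by
      obtain ⟨t, rfl⟩ := (cyc F I).mkQ_surjective t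
      refine ⟨⟨Pi.single i₀ (inc F t), (hW 0 _).2 fun i hi => Pi.single_eq_of_ne ?_ _,
        fun i => ?_⟩, ?_⟩
      · rintro rfl
        omega
      · by_cases hi : i = i₀
        · rw [hi, Pi.single_eq_same, hν, neg_zero]
          exact wt_inc t
        · rw [Pi.single_eq_of_ne hi]
          exact wt_zero _
      · rw [hp]
        show (cyc F I).mkQ (ρ ((Pi.single i₀ (inc F t) : ι → TT F) i₀)) = _
        rw [Pi.single_eq_same, hρ'])
    (fun v hv => (hW _ v).2 hv.1)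
    (fun w => by
      have h5 := w.2.2 i₀
      rw [hν, neg_zero] at h5
      obtain ⟨c, hc⟩ := h5.jou
      have h6 : p w = 0 ↔ (w : ι → TT F) i₀ ∈ J := by
        rw [hp, ← hc, hρ', Submodule.mkQ_apply, Submodule.Quotient.mk_eq_zero, hcyc]
      exact h6.trans ⟨fun h7 => ⟨(hW 0 _).1 w.2.1, fun i hi => absurd hi (by omega),
        fun _ => h7⟩, fun h7 => h7.2.2 rfl⟩) h1
  refine ⟨n * d - wt i₀, -u, b₂ - b, κ, inferInstance, inferInstance, U, V, hf, ?_⟩
  have h5 := hγ.uniqueB h3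
  rw [h4, h2, phiB_cc he'] at h5
  convert h5 using 1
  push_cast
  module

end Pool.Agent.Lib.MP_e9c0f3_ag.DR
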