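import Pool.Agent.Lib.MP_e9c0f3_ag.DR.Fin
import Pool.Agent.Lib.MP_e9c0f3_ag.DR.ShB2
import Pool.Agent.Lib.MP_e9c0f3_ag.DR.GG
import Pool.Agent.Lib.MP_e9c0f3_ag.DR.GM4

/-! Assembly, with rational coefficients. -/

open MvPolynomial Sum

namespace Pool.Agent.Lib.MP_e9c0f3_ag.DR

open Om

theorem const_of_der {A : Type} [CommRing A] [IsDomain A] [Algebra ℂ A] [Algebra.Smooth ℂ A]
    {g : A} (h : ∀ D : Derivation ℂ A A, D g = 0) (s s₀ : A →ₐ[ℂ] ℂ) : s g = s₀ g := by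
  have : IsNoetherianRing A := Algebra.FiniteType.isNoetherianRing ℂ A
  obtain ⟨E, hE⟩ := exists_euler s₀
  have h1 : E (g - algebraMap ℂ A (s₀ g)) = 0 := by
    rw [map_sub, h, Derivation.map_algebraMap, sub_zero]
  have h2 : ∀ n : ℕ, g - algebraMap ℂ A (s₀ g) ∈ RingHom.ker s₀ ^ (n + 1) := by
    intro n
    induction n with
    | zero => simpa using jet_sub_mem s₀ g
    | succ n ih =>
      have h3 := hE.pow (n + 1) _ ih
      rw [h1, zero_sub, neg_mem_iff] at h3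
      have h4 := Ideal.mul_mem_left _ (algebraMap ℂ A ((n + 1 : ℕ) : ℂ)⁻¹) h3
      rwa [← mul_assoc, ← map_natCast (algebraMap ℂ A), ← map_mul,
        inv_mul_cancel₀ (Nat.cast_ne_zero.2 (Nat.succ_ne_zero n)), map_one, one_mul] at h4
  have h5 : g - algebraMap ℂ A (s₀ g) ∈ ⨅ n : ℕ, RingHom.ker s₀ ^ n := by
    refine Ideal.mem_iInf.2 fun n => ?_
    exact Ideal.pow_le_pow_right (Nat.le_succ n) (h2 n)
  rw [Ideal.iInf_pow_eq_bot_of_isDomain _ (RingHom.ker_ne_top s₀), Ideal.mem_bot,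
    sub_eq_zero] at h5
  rw [h5, AlgHom.commutes, AlgHom.commutes]

theorem mk_smul' {N : ℕ} {A : Type} [CommRing A] [Algebra ℂ A] (F : Pol N A) (t : ℂ)
    (z : OO N A) : Ideal.Quotient.mk (JJ F) (t • z) = t • Ideal.Quotient.mk (JJ F) z := rfl

/-- The Gysin image is the degree. -/
theorem gy_value {N k d : ℕ} (hk : 1 ≤ k) (hN : N = 2 * (k + 1)) {F : Pol N ℂ} (hF0 : F ≠ 0)
    (hF : F.IsHomogeneous d) {x : OO N ℂ} {g ρ : ℂ} (hx : Hor x) (h : Gy F d k x g)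
    (e : ExB F (hh F * Ideal.Quotient.mk _ x - ρ • hh F ^ (k + 1))) : g = ρ * d := by
  obtain ⟨μ, hμ⟩ := e
  obtain ⟨η, h1, h2, h3⟩ := lift_hor μ
  have h4 := (h.mul.sub ((gy_pow F d (k + 1)).smul ρ)).eq_zero hF0 hF (by omega)
    ((by simpa using (hor_pow 1).mul hx : Hor (dx (th N ℂ) * x)).sub ((hor_pow _).smul ρ))
    (η := η) ⟨h1, h2 ▸ zero_mem _⟩ (by
      rw [← Ideal.Quotient.eq_zero_iff_mem, map_sub, map_sub, map_mul, mk_smul', map_pow,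
        ← ST_d F η, h3, ← hμ]
      exact sub_self _)
  rwa [sub_eq_zero, smul_eq_mul] at h4

/-- The degree of a flat section is constant. -/
theorem gy_const {N k d : ℕ} (hN : N = 2 * (k + 1)) {A : Type} [CommRing A] [IsDomain A]
    [Algebra ℂ A] [Algebra.Smooth ℂ A] {F : Pol N A} (hF0 : F ≠ 0) (hF : F.IsHomogeneous d)
    {ω η : Form (Jou F)} (hω : ω ∈ ⋀[Jou F]^(2 * k) Ω[Jou F⁄ℂ]) (hD : IsD ω η)
    (hη : η ∈ base 2 F) : ∃ (x : OO N A) (g : A), Ideal.Quotient.mk _ x = phiB F ω ∧ Hor x ∧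
      Gy F d k x g ∧ ∀ s s₀ : A →ₐ[ℂ] ℂ, s g = s₀ g := by
  have hcl : ∀ x : OO N A, Ideal.Quotient.mk _ x = phiB F ω → dx x ∈ JJ F := fun x ex => by
    rw [← Ideal.Quotient.eq_zero_iff_mem, ← ST_d, ex, ← (isDG_B F).isD hD]
    exact phiB_base (by omega) hη
  obtain ⟨x, h1, h2, h3⟩ := lift_hor_deg hω
  have hx : Hor x := ⟨gr_mono (fun _ _ _ _ h => h.2) h1, h2 ▸ zero_mem _⟩
  obtain ⟨g, hg⟩ := gy_exists (j := k) hF0 hF (by omega) hx
    (gr_mono (fun _ _ _ _ h => by omega) h1) (hcl x h3)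
  refine ⟨x, g, h3, hx, hg, const_of_der fun D => ?_⟩
  obtain ⟨E, e1, e2, e3, e4⟩ := exists_coefD (N := N) D
  obtain ⟨y, y₁, α, β, α₁, β₁, a1, a2, a3, a4, a5, a6, a7⟩ :=
    gm_lift4 e1 (fun t => ⟨_, e2 t⟩) e3 hω hD hη
  have hy : Hor y := ⟨gr_mono (fun _ _ _ _ h => h.2) a2, a3 ▸ zero_mem _⟩
  obtain ⟨g', hg'⟩ := gy_exists (j := k) hF0 hF (by omega) hy
    (gr_mono (fun _ _ _ _ h => by omega) a2) (hcl y a1)
  have h4 := (hg.sub hg').eq_zero hF0 hF (by omega) (hx.sub hy) (η := 0)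
    ⟨zero_mem _, by rw [map_zero]; exact zero_mem _⟩ (by
      rw [map_zero, sub_zero]
      exact Ideal.Quotient.eq.1 (h3.trans a1.symm))
  rw [sub_eq_zero.1 h4]
  rw [e4] at a7
  exact hg'.flat hF0 hF (by omega) e1 e3 (e4 F) (e2 g') hy ⟨a4, a5 ▸ zero_mem _⟩ a6 a7

/-- The degree at the starting point. -/
theorem start_deg {N k d : ℕ} (hN : 0 < N) (hd : 1 ≤ d) {F : Pol N ℂ} (hF : F.IsHomogeneous d)
    (hi : Isol F) {I : Ideal (Pol N ℂ)} {ι : Type} [Fintype ι] [DecidableEq ι]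
    {par : ι → ℕ} {wt : ι → ℤ} {δ : Matrix ι ι (Pol N ℂ)} (hδ : IsMF d F par wt δ)
    (hr : Resolves par δ I) {γ ω : Form (Jou F)}
    (hγ : HasCh k (ModuleCat.of (Jou F) (Jou F ⧸ cyc F I)) γ) {c a : ℂ}
    (h0 : IsExact (ω - c • γ - a • chw k (prj F))) :
    ∃ r : ℚ, ExB F (hh F * phiB F ω - (c * r + a) • hh F ^ (k + 1)) := by
  obtain ⟨g, hg0, hg⟩ := exists_unit hF hi
  obtain ⟨n, u, b, κ, _, _, U, V, hf, h1⟩ :=
    shamashB hN (ne_zero_of_isol hN hi) hF hδ hg0 hg hr hγ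
  obtain ⟨r, h2⟩ := rat_ezero hd hδ hg0 hg hf k
  have h3 := h0.exB.hh_mul 1
  rw [map_sub, map_sub, (isDG_B F).smul, (isDG_B F).smul, phiB_prj'] at h3
  refine ⟨u * r + b, ?_⟩
  convert (h3.add ((h1.hh_mul 1).smul c)).add (h2.smul (c * u)) using 1
  simp only [pow_one, mul_sub, mul_smul_comm, smul_sub, smul_smul, pow_succ', add_smul, mul_add,
    Rat.cast_add, Rat.cast_mul, Rat.cast_intCast, mul_assoc, pow_zero, mul_one]
  abel

/-- The fibre where the class is shown to be algebraic. -/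
theorem end_fibre2 {N k d : ℕ} (hk : 1 ≤ k) (hN : N = 2 * (k + 1)) (hd : 2 ≤ d) {F P : Pol N ℂ}
    (hF : F.IsHomogeneous d) (hi : Isol F) {r : ℂ} (hc : IsChern d F P) {ω : Form (Jou F)}
    (hω : ω ∈ ⋀[Jou F]^(2 * k) Ω[Jou F⁄ℂ]) {x : OO N ℂ} (hx : Ideal.Quotient.mk _ x = phiB F ω)
    (hcl : dx x ∈ JJ F) (hP : Rp F x (r • P)) :
    ∃ (t a : ℂ) (q : ℚ) (n : ℕ) (e : Matrix (Fin n) (Fin n) (Jou F)), IsQ t ∧ e * e = e ∧
      IsExact (ω - (r * t) • chw k e - a • chw k (prj F)) ∧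
      ExB F (hh F * phiB F ω - (r * t * q + a) • hh F ^ (k + 1)) := by
  have hN0 : 0 < N := by omega
  have hF0 := ne_zero_of_isol hN0 hi
  obtain ⟨ι, _, _, par, wt, δ, hδ, he⟩ := hc
  obtain ⟨g, hg0, hg⟩ := exists_unit hF hi
  obtain ⟨t, ht, h1⟩ := rep_ch hk hN hF hδ hg
  obtain ⟨κ, _, _, U, V, hf⟩ := exists_frame F (nu wt 0)
  obtain ⟨u, eu⟩ := hf.desc hf (typ_ezero hδ hg0 0)
  have hu := hf.idem (ezero_idem hδ hg) eu
  obtain ⟨q, hq⟩ := rat_ezero (by omega) hδ hg0 hg hf k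
  rw [← phiB_cc eu] at hq
  obtain ⟨v, h2⟩ : ∃ v, phiB F (chw k u) -
      Ideal.Quotient.mk _ ((SO N ℂ).ch k ((ezero par g δ).map of)) = (ST F).d v := by
    obtain ⟨-, v, h2⟩ := desc_abs (ST F) (psiT F) (psiT_even F) hf.one (ezero_idem hδ hg) k
    refine ⟨v, ?_⟩
    rw [← h2, phiB_cc eu]
    exact congrArg₂ _ rfl ((hom_ST F).ch k _)
  obtain ⟨v, rfl⟩ := Ideal.Quotient.mk_surjective v
  have h3 := hP.sub (h1.smul (r * t⁻¹)).rp
  rw [smul_smul, mul_assoc, inv_mul_cancel₀ ht.1, mul_one, ← smul_sub] at h3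
  have hs : ∀ (t : ℂ) (z : OO N ℂ), Ideal.Quotient.mk (JJ F) (t • z) =
      t • Ideal.Quotient.mk (JJ F) z := fun _ _ => rfl
  have hl : ω - (r * t⁻¹) • chw k u ∈ ⋀[Jou F]^(2 * k) Ω[Jou F⁄ℂ] :=
    sub_mem hω (Submodule.smul_of_tower_mem _ _ (chw_deg k u))
  obtain ⟨y, hy⟩ := Ideal.Quotient.mk_surjective (phiB F (ω - (r * t⁻¹) • chw k u))
  have h4 : Rp F y (r • (P - ch par δ)) := by
    refine h3.congr (η := (r * t⁻¹) • v) ?_
    rw [← Ideal.Quotient.eq_zero_iff_mem, map_smul, map_sub, map_sub, map_sub, hy, hs, hs,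
      ← ST_d, ← h2, map_sub, (isDG_B F).smul, hx, smul_sub]
    abel
  obtain ⟨ξ, η, h5, h6⟩ := h4.psi_exact (exact_smul he r)
  have h7 : (ST F).d (phiB F (ω - (r * t⁻¹) • chw k u)) = 0 := by
    rw [map_sub, (isDG_B F).smul, map_sub, map_smul, ← hx, ST_d,
      Ideal.Quotient.eq_zero_iff_mem.2 hcl, (isDG_B F).chw, SD.ch_closed, smul_zero, sub_zero]
    · exact fun i j => (isDG_B F).even _
    · exact (Matrix.map_mul (f := ((psiT F).comp (inc F)).toRingHom)).symm.trans (by rw [hu]; rfl)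
  obtain ⟨a, h8⟩ := gysin_step hd hF0 hF hi (j := k) (by omega) hl h7 hy h5 h6
  refine ⟨t⁻¹, a, q, _, u.submatrix (Fintype.equivFin κ).symm (Fintype.equivFin κ).symm, ht.inv,
    by rw [Matrix.submatrix_mul_equiv, hu], by rwa [chw_submatrix], ?_⟩
  have h9 := h8.exB.hh_mul 1
  rw [map_sub, map_sub, (isDG_B F).smul, (isDG_B F).smul, phiB_prj'] at h9
  convert h9.add (hq.smul (r * t⁻¹)) using 1
  simp only [pow_one, mul_sub, mul_smul_comm, smul_sub, smul_smul, pow_succ', add_smul,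
    mul_assoc, pow_zero, mul_one]
  abel

theorem main_dq (k d : ℕ) (hk : 1 ≤ k) (hd : 2 ≤ d) (A : Type) [CommRing A] [IsDomain A]
    [Algebra ℂ A] [Algebra.Smooth ℂ A] (F : MvPolynomial (Fin (2 * (k + 1))) A)
    (hF : F.IsHomogeneous d)
    (hs : ∀ (s : A →ₐ[ℂ] ℂ) (z : Fin (2 * (k + 1)) → ℂ),
      (∀ i, eval z (pderiv i (map (s : A →+* ℂ) F)) = 0) → z = 0)
    (ω : Form (Jou F)) (hω : ω ∈ ⋀[Jou F]^(2 * k) Ω[Jou F⁄ℂ])
    (hflat : ∃ η ∈ base 2 F, IsD ω η)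
    (hhodge : ∀ s : A →ₐ[ℂ] ℂ, ∃ μ ∈ hodge k (map (s : A →+* ℂ) F),
      IsExact (pull (fib F s) ω - μ))
    (s₀ : A →ₐ[ℂ] ℂ) (I : Ideal (MvPolynomial (Fin (2 * (k + 1))) ℂ))
    (hI : ∀ p ∈ I, ∀ n, homogeneousComponent n p ∈ I) (hL : Licci (k + 1) I)
    (hFI : map (s₀ : A →+* ℂ) F ∈ I) (γ : Form (Jou (map (s₀ : A →+* ℂ) F)))
    (hγ : HasCh k (ModuleCat.of _ (Jou (map (s₀ : A →+* ℂ) F) ⧸ cyc _ I)) γ) (c₀ a₀ : ℚ)
    (h0 : IsExact (pull (fib F s₀) ω - (c₀ : ℂ) • γ - (a₀ : ℂ) • chw k (prj _)))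
    (s : A →ₐ[ℂ] ℂ) :
    ∃ (t a : ℚ) (n : ℕ) (e : Matrix (Fin n) (Fin n) (Jou (map (s : A →+* ℂ) F))),
      e * e = e ∧ IsExact (pull (fib F s) ω - (t : ℂ) • chw k e - (a : ℂ) • chw k (prj _)) := by
  obtain ⟨c, hc₀⟩ : ∃ c : ℂ, c = c₀ := ⟨_, rfl⟩
  rw [← hc₀] at h0
  have hN0 : 0 < 2 * (k + 1) := by omega
  have i0 := isol_of_smooth (hs s₀)
  have hF0 : F ≠ 0 := fun h => ne_zero_of_isol hN0 i0 (by rw [h, map_zero])
  obtain ⟨η, hη, hD⟩ := hflat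
  obtain ⟨x, hx, ex⟩ := lift_deg hω
  have hcl : dx x ∈ JJ F := by
    rw [← Ideal.Quotient.eq_zero_iff_mem, ← ST_d, ex, ← (isDG_B F).isD hD]
    exact phiB_base (by omega) hη
  have hcl' : ∀ s : A →ₐ[ℂ] ℂ, dx (mapc (mapAlgHom s) x) ∈ JJ (map (s : A →+* ℂ) F) := fun s => by
    rw [← mapc_dx]
    exact mapc_JJ s hcl
  obtain ⟨Q, hQ⟩ := rp_exists (by omega) hF0 hF (by push_cast; ring) hx hcl
  obtain ⟨P, hP, hQP⟩ := deg_reduce (P := Q) (e := (k + 1) * (d - 2)) hd hF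
    (by have : d - 2 ≤ (k + 1) * (d - 2) := Nat.le_mul_of_pos_left _ (by omega); omega)
    (fun s => (isol_of_smooth (hs s)).regAll hd (hF.map _)) fun s => by
      obtain ⟨μ, h1, h2⟩ := hhodge s
      exact hodge_fibre hk rfl hd (hF.map _) (ne_zero_of_isol hN0 (isol_of_smooth (hs s))) h1 h2
        (phiB_fib s ex) (mapc_mem s hx) (hcl' s) (hQ.map s)
  have hR := hQ.of_exact hQP
  have hfl := rp_flat hN0 hF0 hF hD hη ex hR
  obtain ⟨ι, _, _, par, wt, δ, hδ, hr⟩ := exists_mf hI (hF.map _) hFI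
  obtain ⟨t, ht, h1⟩ := start_fibre hk rfl (hF.map _) i0 hI hδ hr hγ h0 (phiB_fib s₀ ex)
    (hR.map s₀)
  have hm : ∀ (s : A →ₐ[ℂ] ℂ) (r : ℂ), map (s : A →+* ℂ) (r • P) = r • map (s : A →+* ℂ) P :=
    fun s r => map_smul (mapAlgHom (σ := Fin (2 * (k + 1))) s) r P
  have key : ∃ r : ℂ, r = (if c = 0 then 1 else c * t) ∧ r ≠ 0 ∧ IsChern d (map (s : A →+* ℂ) F) (map (s : A →+* ℂ) (r⁻¹ • P)) := by
    have hdeg : ∀ r : ℂ, (r • P).totalDegree ≤ (k + 1) * (d - 2) := fun r =>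
      (totalDegree_smul_le r P).trans hP
    have hfl' : ∀ (r : ℂ) (D : Derivation ℂ A A),
        Exact F (coeffMap D (r • P) + coeffMap D F * (r • P)) := fun r D => by
      rw [coeffMap_smul, mul_smul_comm, ← smul_add]
      exact exact_smul (hfl D) r
    by_cases hc : c = 0
    · refine ⟨1, (if_pos hc).symm, one_ne_zero, main k d hd A F _ hF hs (hdeg _) (hfl' _) s₀ 0 (fun _ => 1)
        (fun a => a.elim0) (fun _ => I) (fun _ => hL) (fun _ => ι) (fun _ => par) (fun _ => wt)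
        (fun _ => δ) (fun _ => hδ) (fun _ => hr) (fun _ _ _ a => a.elim0) ?_ s⟩
      simpa [hc] using h1
    · refine ⟨c * t, (if_neg hc).symm, mul_ne_zero hc ht.1, main k d hd A F _ hF hs (hdeg _) (hfl' _) s₀ 1
        (fun _ => 1) (fun _ => one_ne_zero) (fun _ => I) (fun _ => hL) (fun _ => ι)
        (fun _ => par) (fun _ => wt) (fun _ => δ) (fun _ => hδ) (fun _ => hr)
        (fun Q _ h a => ?_) ?_ s⟩
      · rw [Subsingleton.elim a 0]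
        simpa using h
      · have h2 := exact_smul h1 (c * t)⁻¹
        rw [smul_sub, smul_smul, inv_mul_cancel₀ (mul_ne_zero hc ht.1), ← hm] at h2
        simpa using h2
  obtain ⟨r, hr1, hr0, hc⟩ := key
  obtain ⟨t', a', q, n, e, h2, h3, h4, h5⟩ := end_fibre2 hk rfl hd (hF.map _)
    (isol_of_smooth (hs s)) (r := r) hc (pull_deg _ hω) (phiB_fib s ex) (hcl' s) (by
      rw [hm, smul_smul, mul_inv_cancel₀ hr0, one_smul]
      exact hR.map s)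
  obtain ⟨q₀, h6⟩ := start_deg hN0 (by omega) (hF.map _) i0 hδ hr hγ h0
  obtain ⟨z, g, z1, z2, z3, z4⟩ := gy_const (k := k) rfl hF0 hF hω hD hη
  rw [← phiB_fib s z1] at h5
  rw [← phiB_fib s₀ z1] at h6
  have h7 := gy_value hk rfl (ne_zero_of_isol hN0 (isol_of_smooth (hs s))) (hF.map _) (z2.map s)
    (z3.map s) h5
  have h8 := gy_value hk rfl (ne_zero_of_isol hN0 i0) (hF.map _) (z2.map s₀) (z3.map s₀) h6
  have h9 : r * t' * q + a' = c * q₀ + a₀ :=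
    mul_right_cancel₀ (Nat.cast_ne_zero.2 (by omega : d ≠ 0)) (h7.symm.trans ((z4 s s₀).trans h8))
  obtain ⟨r', hr'⟩ : ∃ r' : ℚ, r * t' = r' := by
    obtain ⟨-, t₁, rfl⟩ := ht
    obtain ⟨-, t₂, rfl⟩ := h2
    rw [hr1, hc₀]
    split_ifs
    · exact ⟨t₂, one_mul _⟩
    · exact ⟨c₀ * t₁ * t₂, by simp⟩
  refine ⟨r', c₀ * q₀ + a₀ - r' * q, n, e, h3, ?_⟩
  rw [hr'] at h4 h9
  have h10 : ((c₀ * q₀ + a₀ - r' * q : ℚ) : ℂ) = a' := by
    push_cast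
    rw [← hc₀, ← h9]
    ring
  rwa [h10]

end Pool.Agent.Lib.MP_e9c0f3_ag.DR
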