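import Pool.Agent.Lib.MP_e9c0f3_ag.DR.Stmt
import Pool.Agent.Lib.MP_e9c0f3_ag.DR.Fin2

/-! The definitions of the statement agree with those used in the proof. -/

open MvPolynomial
open scoped Pointwise

namespace Pool.Agent.Lib.MP_e9c0f3_ag.DS

section Forms

variable {B B' : Type} [CommRing B] [Algebra ℂ B] [CommRing B'] [Algebra ℂ B']

theorem fn_mul (b : B) (ω : Form B) : fn b * ω = (b • (show DR.Form B from ω) : DR.Form B) :=
  (Algebra.smul_def (A := DR.Form B) b ω).symm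

theorem sc_eq (c : ℂ) (ω : Form B) :
    fn (algebraMap ℂ B c) * ω = (c • (show DR.Form B from ω) : DR.Form B) :=
  (fn_mul _ ω).trans (algebraMap_smul (M := DR.Form B) B c ω)

theorem isD_iff (ω η : Form B) : IsD ω η ↔ DR.IsD ω η := by
  have : {p : Form B × Form B | ∃ (b : B) (l : List B),
      p = (fn b * (l.map dd).prod, dd b * (l.map dd).prod)} =
      {p : DR.Form B × DR.Form B | ∃ (b : B) (l : List B),
        p = (b • (l.map DR.dd).prod, DR.dd b * (l.map DR.dd).prod)} := by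
    ext p
    refine exists_congr fun b => exists_congr fun l => ?_
    rw [fn_mul]
    exact Iff.rfl
  unfold IsD
  rw [this]
  exact Iff.rfl

theorem isExact_iff (η : Form B) : IsExact η ↔ DR.IsExact η :=
  exists_congr fun ω => isD_iff ω η

theorem pull_eq (φ : B →ₐ[ℂ] B') (ω : Form B) : pull φ ω = DR.pull φ ω := by
  have h := (exists_pull φ).choose_spec
  have : (exists_pull φ).choose = DR.pull φ :=
    DR.form_ext (fun b => (h.1 b).trans (DR.pull_alg φ b).symm)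
      fun b => (h.2 b).trans (DR.pull_dd φ b).symm
  exact DFunLike.congr_fun this ω

theorem chw_eq (k : ℕ) {ι : Type} [Fintype ι] [DecidableEq ι] (e : Matrix ι ι B) :
    chw k e = DR.chw k e := rfl

theorem hasCh_dr {k : ℕ} {M : ModuleCat.{0} B} {γ : Form B} (h : HasCh k M γ) :
    DR.HasCh k M γ := by
  induction h with
  | zero M => exact DR.HasCh.zero M
  | step M K γ ι e he i p hi hip hp _ ih =>
    have hm : ∀ v, v ∈ LinearMap.range e.mulVecLin ↔ e.mulVec v = v := by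
      intro v
      constructor
      · rintro ⟨u, rfl⟩
        rw [Matrix.mulVecLin_apply, Matrix.mulVec_mulVec, he]
      · exact fun h => ⟨v, h⟩
    refine DR.HasCh.step M K γ ι e he
      (i.codRestrict _ fun u => (hm _).2 ((hip _).1 ⟨u, rfl⟩).1)
      (p ∘ₗ Submodule.subtype _) (fun u v huv => hi (congrArg Subtype.val huv)) ?_ ?_ ih
    · intro v
      constructor
      · intro hv
        obtain ⟨u, hu⟩ := (hip v.1).2 ⟨(hm _).1 v.2, hv⟩
        exact ⟨u, Subtype.ext hu⟩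
      · rintro ⟨u, rfl⟩
        exact ((hip _).1 ⟨u, rfl⟩).2
    · intro m
      obtain ⟨v, hv, rfl⟩ := hp m
      exact ⟨⟨v, (hm v).2 hv⟩, rfl⟩

end Forms

section Jouanolou

variable {A : Type} [CommRing A] [Algebra ℂ A] {N : ℕ}

theorem hodge_dr {k : ℕ} {F : MvPolynomial (Fin N) A} {ω : Form (Jou F)}
    (h : ω ∈ Ideal.span (hodge F ^ k)) : (show DR.Form (DR.Jou F) from ω) ∈ DR.hodge k F := by
  refine (Ideal.span_mono ?_ : Ideal.span (hodge F ^ k) ≤ DR.hodge k F) h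
  intro x hx
  obtain ⟨f, rfl⟩ := Set.mem_pow.1 hx
  choose i j a h using fun t => (f t).2
  refine ⟨i, j, a, congrArg List.prod (congrArg List.ofFn (funext fun t => ?_))⟩
  rw [h t, fn_mul, fn_mul]
  rfl

theorem base_dr {k : ℕ} {F : MvPolynomial (Fin N) A} {ω : Form (Jou F)}
    (h : ω ∈ Ideal.span (base F ^ k)) : (show DR.Form (DR.Jou F) from ω) ∈ DR.base k F := by
  refine (Ideal.span_mono ?_ : Ideal.span (base F ^ k) ≤ DR.base k F) h
  intro x hx
  obtain ⟨f, rfl⟩ := Set.mem_pow.1 hx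
  choose a h using fun t => (f t).2
  exact ⟨a, congrArg List.prod (congrArg List.ofFn (funext fun t => h t))⟩

theorem fib_eq (F : MvPolynomial (Fin N) A) (s : A →ₐ[ℂ] ℂ) :
    (exists_fib F s).choose = DR.fib F s := by
  have key : ∀ f g : Jou F →ₐ[ℂ] Jou (fibre F s),
      ((∀ a, f (cst F a) = cst _ (s a)) ∧ ∀ i j, f (prj F i j) = prj _ i j) →
      ((∀ a, g (cst F a) = cst _ (s a)) ∧ ∀ i j, g (prj F i j) = prj _ i j) → f = g := by
    intro f g hf hg
    ext ⟨b, hb⟩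
    induction hb using Algebra.adjoin_induction with
    | mem x hx =>
      obtain ⟨ij, rfl⟩ := hx
      exact (hf.2 ij.1 ij.2).trans (hg.2 ij.1 ij.2).symm
    | algebraMap a => exact (hf.1 a).trans (hg.1 a).symm
    | add x y hx hy ihx ihy =>
      exact (map_add f (⟨x, hx⟩ : jou F) (⟨y, hy⟩ : jou F)).trans
        ((congrArg₂ (· + ·) ihx ihy).trans (map_add g (⟨x, hx⟩ : jou F) (⟨y, hy⟩ : jou F)).symm)
    | mul x y hx hy ihx ihy =>
      exact (map_mul f (⟨x, hx⟩ : jou F) (⟨y, hy⟩ : jou F)).trans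
        ((congrArg₂ (· * ·) ihx ihy).trans (map_mul g (⟨x, hx⟩ : jou F) (⟨y, hy⟩ : jou F)).symm)
  refine key _ _ (exists_fib F s).choose_spec ⟨fun a => Subtype.ext ?_, fun i j => Subtype.ext ?_⟩
  · change Ideal.Quotient.mk _ (map (s : A →+* ℂ) (C a)) = Ideal.Quotient.mk _ (C (s a))
    rw [map_C]
    rfl
  · change Ideal.Quotient.mk _ (map (s : A →+* ℂ) (X _ * X _)) = Ideal.Quotient.mk _ (X _ * X _)
    rw [map_mul, map_X, map_X]

omit [Algebra ℂ A] in
theorem cyc_eq (F : MvPolynomial (Fin N) A) (I : Ideal (MvPolynomial (Fin N) A)) :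
    cyc F I = DR.cyc F I :=
  Ideal.span_eq (DR.cyc F I)

theorem res_eq (F : MvPolynomial (Fin N) A) (s : A →ₐ[ℂ] ℂ) (ω : Form (Jou F)) :
    res F s ω = DR.pull (DR.fib F s) ω := by
  unfold res
  rw [pull_eq, fib_eq]
  rfl

end Jouanolou

theorem main_ds (k d N : ℕ) (hk : 1 ≤ k) (hd : 2 ≤ d) (hN : N = 2 * k + 2) (A : Type) [CommRing A]
    [IsDomain A] [Algebra ℂ A] [Algebra.Smooth ℂ A] (F : MvPolynomial (Fin N) A)
    (hF : F.IsHomogeneous d)
    (hs : ∀ (s : A →ₐ[ℂ] ℂ) (z : Fin N → ℂ), (∀ i, eval z (pderiv i (fibre F s)) = 0) → z = 0)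
    (ω : Form (Jou F)) (hω : HasDeg (2 * k) ω) (hflat : Flat (base F) ω)
    (hhodge : ∀ s : A →ₐ[ℂ] ℂ, InFil (hodge (fibre F s)) k (res F s ω))
    (s₀ : A →ₐ[ℂ] ℂ) (I : Ideal (MvPolynomial (Fin N) ℂ))
    (hI : ∀ p ∈ I, ∀ n, homogeneousComponent n p ∈ I) (hL : Licci (k + 1) I)
    (hFI : fibre F s₀ ∈ I) (h0 : IsCyc k (cyc (fibre F s₀) I) (prj (fibre F s₀)) (res F s₀ ω))
    (s : A →ₐ[ℂ] ℂ) : IsAlg k (res F s ω) := by
  obtain rfl : N = 2 * (k + 1) := by omega
  obtain ⟨γ, c, a, hγ, h0⟩ := h0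
  rw [cyc_eq] at hγ
  obtain ⟨t, a', n, e, he, h1⟩ := DR.main_dq k d hk hd A F hF hs ω hω
    (by
      obtain ⟨η, h1, h2⟩ := hflat
      exact ⟨η, base_dr h1, (isD_iff _ _).1 h2⟩)
    (fun t => by
      obtain ⟨μ, h1, h2⟩ := hhodge t
      rw [res_eq] at h2
      exact ⟨μ, hodge_dr h1, (isExact_iff _).1 h2⟩) s₀ I hI hL hFI γ (hasCh_dr hγ) c a
    (by
      rw [res_eq, sc_eq, sc_eq] at h0
      exact (isExact_iff _).1 h0) s
  refine ⟨_, add_mem (AddSubgroup.subset_closure ⟨t, n, e, he, rfl⟩)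
    (AddSubgroup.subset_closure ⟨a', _, prj _, DR.prj_idem _, rfl⟩), ?_⟩
  rw [← sub_sub, res_eq, sc_eq, sc_eq]
  exact (isExact_iff _).2 h1

end Pool.Agent.Lib.MP_e9c0f3_ag.DS
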