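import Mathlib

/-! Curved differential algebras with a supertrace, and transgression. -/

namespace Pool.Agent.Lib.MP_e9c0f3_ag.DR

/-- An algebra with parity `tw`, an odd derivation `D` with curvature `K` (up to a central
function whose differential is `φ`), and a supertrace `str`. -/
structure Cv (M V : Type) [Ring M] [Algebra ℂ M] [AddCommGroup V] [Module ℂ V] where
  tw : M →ₐ[ℂ] M
  D : M →ₗ[ℂ] M
  str : M →ₗ[ℂ] V
  d : V →ₗ[ℂ] V
  L : V →ₗ[ℂ] V
  φ : M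
  K : M
  tw_tw : ∀ m, tw (tw m) = m
  D_mul : ∀ m n, D (m * n) = D m * n + tw m * D n
  tw_D : ∀ m, tw (D m) = -D (tw m)
  str_D : ∀ m, str (D m) = d (str m)
  str_even : ∀ a b, tw a = a → str (a * b) = str (b * a)
  str_odd : ∀ a b, tw a = -a → str (a * b) = str (tw b * a)
  tw_φ : tw φ = -φ
  φ_mul : ∀ m, φ * m = tw m * φ
  str_φ : ∀ m, str (φ * m) = L (str m)
  D_φ : D φ = 0
  tw_K : tw K = K
  D_D : ∀ m, D (D m) = K * m - m * K
  D_K : D K = -φ

namespace Cv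

variable {M V : Type} [Ring M] [Algebra ℂ M] [AddCommGroup V] [Module ℂ V] (C : Cv M V)

/-- The derivation changed by the supercommutator with `a`. -/
noncomputable def Da (a : M) : M →ₗ[ℂ] M :=
  C.D + LinearMap.mulLeft ℂ a - LinearMap.mulRight ℂ a ∘ₗ C.tw.toLinearMap

theorem Da_apply (a m : M) : C.Da a m = C.D m + a * m - C.tw m * a := rfl

theorem Da_mul (a m n : M) : C.Da a (m * n) = C.Da a m * n + C.tw m * C.Da a n := by
  simp only [Da_apply, C.D_mul, map_mul]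
  noncomm_ring

theorem tw_Da {a : M} (ha : C.tw a = -a) (m : M) : C.tw (C.Da a m) = -C.Da a (C.tw m) := by
  simp only [Da_apply, map_add, map_sub, map_mul, C.tw_D, C.tw_tw, ha]
  noncomm_ring

theorem str_Da {a : M} (ha : C.tw a = -a) (m : M) : C.str (C.Da a m) = C.d (C.str m) := by
  rw [Da_apply, map_sub, map_add, C.str_D, C.str_odd a m ha, add_sub_cancel_right]

theorem Da_Da {a : M} (ha : C.tw a = -a) (m : M) :
    C.Da a (C.Da a m) = (C.K + C.D a + a * a) * m - m * (C.K + C.D a + a * a) := by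
  simp only [Da_apply, map_add, map_sub, map_mul, C.tw_D, C.tw_tw, ha, C.D_mul, C.D_D]
  noncomm_ring

theorem Da_K {a : M} (ha : C.tw a = -a) : C.Da a (C.K + C.D a + a * a) = -C.φ := by
  simp only [Da_apply, map_add, map_mul, map_neg, C.tw_D, C.tw_K, ha, C.D_mul, C.D_D, C.D_K]
  noncomm_ring

theorem Da_φ {a : M} (ha : C.tw a = -a) : C.Da a C.φ = 0 := by
  have h := C.φ_mul a
  rw [ha] at h
  rw [Da_apply, C.D_φ, C.tw_φ, neg_mul, h]
  noncomm_ring

theorem tw_Ka {a : M} (ha : C.tw a = -a) : C.tw (C.K + C.D a + a * a) = C.K + C.D a + a * a := by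
  simp only [map_add, map_mul, map_neg, C.tw_D, C.tw_K, ha]
  noncomm_ring

/-- Change of connection by an odd element. -/
noncomputable def shift (a : M) (ha : C.tw a = -a) : Cv M V :=
  { C with
    D := C.Da a
    K := C.K + C.D a + a * a
    D_mul := C.Da_mul a
    tw_D := C.tw_Da ha
    str_D := C.str_Da ha
    D_φ := C.Da_φ ha
    tw_K := C.tw_Ka ha
    D_D := C.Da_Da ha
    D_K := C.Da_K ha }

/-- Closed, odd, supercentral elements. -/
structure Gen (ω : M) : Prop where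
  odd : C.tw ω = -ω
  comm : ∀ m, ω * m = C.tw m * ω
  closed : C.D ω = 0

/-- An odd element whose square is an even central element `F`. -/
structure Sq (δ F : M) (L : V →ₗ[ℂ] V) : Prop where
  flat : C.φ = 0
  odd : C.tw δ = -δ
  sq : δ * δ = F
  central : ∀ m, F * m = m * F
  comm : ∀ m, C.D F * m = C.tw m * C.D F
  str_L : ∀ m, C.str (C.D F * m) = L (C.str m)

theorem Sq.aux {C : Cv M V} {δ F : M} {L : V →ₗ[ℂ] V} (h : C.Sq δ F L) :
    C.tw (C.D F) = -C.D F ∧ C.Da δ (C.D F) = 0 ∧ C.tw (C.K + C.D δ) = C.K + C.D δ ∧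
      (∀ m, C.Da δ (C.Da δ m) = (C.K + C.D δ) * m - m * (C.K + C.D δ)) ∧
      C.Da δ (C.K + C.D δ) = -C.D F := by
  have hF : C.tw F = F := by
    rw [← h.sq, map_mul, h.odd]
    noncomm_ring
  have h1 : C.tw (C.D F) = -C.D F := by rw [C.tw_D, hF]
  have h2 := C.tw_Ka h.odd
  have h3 := C.Da_K h.odd
  rw [h.sq] at h2 h3
  refine ⟨h1, ?_, ?_, fun m => ?_, ?_⟩
  · have h4 := h.comm δ
    rw [h.odd] at h4
    rw [Da_apply, h1, C.D_D, neg_mul, h4, h.central]
    noncomm_ring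
  · rw [map_add, hF] at h2
    exact add_right_cancel h2
  · rw [C.Da_Da h.odd, h.sq, add_mul _ F, mul_add _ _ F, h.central m]
    abel
  · rw [map_add, h.flat, neg_zero, Da_apply _ _ F, hF, h.central δ, add_sub_cancel_right] at h3
    exact eq_neg_of_add_eq_zero_left h3

/-- The superconnection `D + δ`, with the function `F = δ ^ 2` removed from the curvature. -/
noncomputable def twist {δ F : M} {L : V →ₗ[ℂ] V} (h : C.Sq δ F L) : Cv M V :=
  { C with
    D := C.Da δ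
    K := C.K + C.D δ
    L := L
    φ := C.D F
    D_mul := C.Da_mul δ
    tw_D := C.tw_Da h.odd
    str_D := C.str_Da h.odd
    tw_φ := h.aux.1
    φ_mul := h.comm
    str_φ := h.str_L
    D_φ := h.aux.2.1
    tw_K := h.aux.2.2.1
    D_D := h.aux.2.2.2.1
    D_K := h.aux.2.2.2.2 }

theorem cv_tw_pow (n : ℕ) : C.tw (C.K ^ n) = C.K ^ n := by rw [map_pow, C.tw_K]

theorem cv_D_one : C.D 1 = 0 := by
  have h := C.D_mul 1 1
  rw [mul_one, mul_one, map_one C.tw, one_mul] at h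
  exact left_eq_add.1 h

theorem cv_D_pow (n : ℕ) : C.D (C.K ^ n) = -((n : ℂ) • (C.φ * C.K ^ (n - 1))) := by
  rcases n with _ | n
  · simp [cv_D_one]
  · induction n with
    | zero => simp [C.D_K]
    | succ n ih =>
      have h := C.φ_mul (C.K ^ (n + 1))
      rw [cv_tw_pow] at h
      rw [pow_succ C.K (n + 1), C.D_mul, ih, cv_tw_pow, C.D_K, mul_neg, ← h, neg_mul, smul_mul_assoc,
        Nat.add_sub_cancel, Nat.add_sub_cancel, mul_assoc, ← pow_succ, Nat.cast_succ (n + 1), add_smul,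
        one_smul]
      abel

theorem cv_sq {ω : M} (h : C.Gen ω) (m : M) : ω * m * ω = 0 := by
  have h1 := h.comm ω
  rw [h.odd, neg_mul] at h1
  have h2 : (2 : ℂ) • (ω * ω) = 0 := by
    rw [two_smul]
    nth_rewrite 1 [h1]
    exact neg_add_cancel _
  have h3 : ω * ω = 0 := by
    have : ω * ω = (1 / 2 : ℂ) • (2 : ℂ) • (ω * ω) := by
      rw [smul_smul]
      norm_num
    rw [this, h2, smul_zero]
  rw [h.comm m, mul_assoc, h3, mul_zero]

theorem cv_pow {ω : M} (h : C.Gen ω) (z : M) (n : ℕ) :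
    ∃ r, (C.K + ω * z) ^ (n + 1) = C.K ^ (n + 1) + ω * r ∧
      ∀ j, C.str (ω * r * C.K ^ j) = ((n : ℂ) + 1) • C.str (ω * z * C.K ^ (n + j)) := by
  induction n with
  | zero => exact ⟨z, by simp, fun j => by simp⟩
  | succ n ih =>
    obtain ⟨r, h1, h2⟩ := ih
    have h3 := h.comm (C.K ^ (n + 1))
    rw [cv_tw_pow] at h3
    refine ⟨C.K ^ (n + 1) * z + r * C.K, ?_, fun j => ?_⟩
    · have h4 : ω * r * (ω * z) = 0 := by rw [← mul_assoc, C.cv_sq h, zero_mul]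
      rw [pow_succ _ (n + 1), h1, add_mul, mul_add, mul_add, h4, add_zero, ← pow_succ, mul_add,
        ← mul_assoc ω, h3]
      noncomm_ring
    · have e1 : ω * (C.K ^ (n + 1) * z + r * C.K) * C.K ^ j
          = C.K ^ (n + 1) * (ω * z * C.K ^ j) + ω * r * C.K ^ (j + 1) := by
        rw [mul_add, ← mul_assoc ω, h3, pow_succ' C.K j]
        noncomm_ring
      rw [e1, map_add, h2, C.str_even _ _ (C.cv_tw_pow _), mul_assoc (ω * z), ← pow_add,
        show j + (n + 1) = n + 1 + j by ring, show n + (j + 1) = n + 1 + j by ring, Nat.cast_succ,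
        add_smul ((n : ℂ) + 1) 1, one_smul, add_comm]

theorem cv_step {ω y : M} (h : C.Gen ω) (hy : C.tw y = y) (n : ℕ) :
    C.str ((C.K + C.D (ω * y) + ω * y * (ω * y)) ^ (n + 1)) - C.str (C.K ^ (n + 1)) =
      ((n : ℂ) + 1) • C.d (C.str (ω * y * C.K ^ n))
        + (((n : ℂ) + 1) * n) • C.L (C.str (ω * y * C.K ^ (n - 1))) := by
  have ha : C.tw (ω * y) = -(ω * y) := by rw [map_mul, h.odd, hy, neg_mul]
  have h0 : ω * y * (ω * y) = 0 := by rw [← mul_assoc, C.cv_sq h, zero_mul]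
  have hc : C.D (ω * y) = ω * (-C.D y) := by
    rw [C.D_mul, h.closed, h.odd, zero_mul, zero_add, neg_mul, mul_neg]
  obtain ⟨r, h1, h2⟩ := C.cv_pow h (-C.D y) n
  have h3 := h2 0
  rw [pow_zero, mul_one, add_zero] at h3
  have h4 := C.φ_mul (ω * y)
  rw [ha] at h4
  have h5 : ω * (-C.D y) * C.K ^ n
      = C.D (ω * y * C.K ^ n) + (n : ℂ) • (C.φ * (ω * y * C.K ^ (n - 1))) := by
    rw [C.D_mul (ω * y), hc, ha, cv_D_pow, ← mul_assoc C.φ, h4, neg_mul_neg, mul_smul_comm,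
      neg_mul, neg_mul, smul_neg, mul_assoc (ω * y), add_neg_cancel_right]
  rw [h0, add_zero, hc, h1, map_add, add_sub_cancel_left, h3, h5, map_add, map_smul, C.str_D,
    C.str_φ, smul_add, smul_smul]

/-- The curvature after the change of connection by `b`. -/
def cvK (b : M) : M := C.K + C.D b + b * b

/-- The statement proved by induction in the transgression theorem. -/
def cvQ (J : TwoSidedIdeal M) (W : ℕ → Submodule ℂ V) (a : M) : Prop :=
  C.tw a = -a ∧ a ∈ J ∧ C.D a ∈ J ∧ ∀ b, C.tw b = -b → C.cvK b ∈ J →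
    ∃ T : ℕ → V, (∀ n, T n ∈ W n) ∧ ∀ n : ℕ,
      C.str (C.cvK (b + a) ^ (n + 1)) - C.str (C.cvK b ^ (n + 1)) =
        ((n : ℂ) + 1) • C.d (T n) + (((n : ℂ) + 1) * n) • C.L (T (n - 1))

theorem cv_K_mem {J : TwoSidedIdeal M} {a b : M} (h1 : a ∈ J) (h2 : C.D a ∈ J)
    (h3 : C.cvK b ∈ J) : C.cvK (b + a) ∈ J := by
  have e : C.cvK (b + a) = C.cvK b + C.D a + ((b + a) * a + a * b) := by
    simp only [cvK, map_add]
    noncomm_ring
  rw [e]
  exact J.add_mem (J.add_mem h3 h2) (J.add_mem (J.mul_mem_left _ _ h1) (J.mul_mem_right _ _ h1))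

theorem cv_Q_zero (J : TwoSidedIdeal M) (W : ℕ → Submodule ℂ V) : C.cvQ J W 0 :=
  ⟨by simp, J.zero_mem, by rw [map_zero]; exact J.zero_mem, fun b _ _ =>
    ⟨fun _ => 0, fun n => (W n).zero_mem, fun n => by simp⟩⟩

theorem cv_Q_add {J : TwoSidedIdeal M} {W : ℕ → Submodule ℂ V} {a a' : M} (h : C.cvQ J W a)
    (h' : C.cvQ J W a') : C.cvQ J W (a + a') := by
  refine ⟨by rw [map_add, h.1, h'.1, neg_add], J.add_mem h.2.1 h'.2.1,
    by rw [map_add]; exact J.add_mem h.2.2.1 h'.2.2.1, fun b hb hK => ?_⟩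
  obtain ⟨T, hT, hs⟩ := h.2.2.2 b hb hK
  obtain ⟨T', hT', hs'⟩ := h'.2.2.2 (b + a) (by rw [map_add, hb, h.1, neg_add])
    (C.cv_K_mem h.2.1 h.2.2.1 hK)
  refine ⟨fun n => T n + T' n, fun n => (W n).add_mem (hT n) (hT' n), fun n => ?_⟩
  rw [← add_assoc, ← sub_add_sub_cancel _ (C.str (C.cvK (b + a) ^ (n + 1))), hs, hs', map_add,
    map_add, smul_add, smul_add]
  abel

theorem cv_Q_neg {J : TwoSidedIdeal M} {W : ℕ → Submodule ℂ V} {a : M} (h : C.cvQ J W a) :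
    C.cvQ J W (-a) := by
  have h2 : C.D (-a) ∈ J := by
    rw [map_neg]
    exact J.neg_mem h.2.2.1
  refine ⟨by rw [map_neg, h.1], J.neg_mem h.2.1, h2, fun b hb hK => ?_⟩
  obtain ⟨T, hT, hs⟩ := h.2.2.2 (b + -a) (by rw [map_add, map_neg, hb, h.1, neg_add])
    (C.cv_K_mem (J.neg_mem h.2.1) h2 hK)
  refine ⟨fun n => -T n, fun n => (W n).neg_mem (hT n), fun n => ?_⟩
  have h3 := hs n
  rw [neg_add_cancel_right] at h3
  rw [← neg_sub, h3, map_neg, map_neg, smul_neg, smul_neg, neg_add]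

theorem cv_Q_gen {J : TwoSidedIdeal M} {W : ℕ → Submodule ℂ V} {ω y : M} (h : C.Gen ω)
    (hJ : ω ∈ J) (hy : C.tw y = y) (hW : ∀ x ∈ J, ∀ n, C.str (ω * y * x ^ n) ∈ W n) :
    C.cvQ J W (ω * y) := by
  have ha : C.tw (ω * y) = -(ω * y) := by rw [map_mul, h.odd, hy, neg_mul]
  refine ⟨ha, J.mul_mem_right _ _ hJ, ?_, fun b hb hK => ?_⟩
  · rw [C.D_mul, h.closed, h.odd, zero_mul, zero_add]
    exact J.mul_mem_right _ _ (J.neg_mem hJ)
  · have hg : (C.shift b hb).Gen ω := ⟨h.odd, h.comm, by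
      have h1 := h.comm b
      rw [hb] at h1
      show C.Da b ω = 0
      rw [Da_apply, h.closed, h.odd, neg_mul, h1]
      noncomm_ring⟩
    refine ⟨fun n => C.str (ω * y * C.cvK b ^ n), fun n => hW _ hK n, fun n => ?_⟩
    have e : C.cvK (b + ω * y) = C.cvK b + C.Da b (ω * y) + ω * y * (ω * y) := by
      rw [Da_apply, ha]
      generalize ω * y = a
      simp only [cvK, map_add]
      noncomm_ring
    rw [e]
    exact (C.shift b hb).cv_step hg hy n

theorem cv_Q_half (G : Set M) (hG : ∀ ω ∈ G, C.Gen ω) (J : TwoSidedIdeal M)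
    (hGJ : ∀ ω ∈ G, ω ∈ J) (W : ℕ → Submodule ℂ V)
    (hW : ∀ ω ∈ G, ∀ y, ∀ x ∈ J, ∀ n, C.str (ω * y * x ^ n) ∈ W n) {a : M}
    (haG : a ∈ AddSubgroup.closure {m | ∃ ω ∈ G, ∃ y, m = ω * y}) :
    C.cvQ J W ((1 / 2 : ℂ) • (a - C.tw a)) := by
  induction haG using AddSubgroup.closure_induction with
  | mem m hm =>
    obtain ⟨ω, hω, y, rfl⟩ := hm
    have e : (1 / 2 : ℂ) • (ω * y - C.tw (ω * y)) = ω * ((1 / 2 : ℂ) • (y + C.tw y)) := by
      rw [map_mul, (hG ω hω).odd, mul_smul_comm, neg_mul, sub_neg_eq_add, mul_add]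
    rw [e]
    exact C.cv_Q_gen (hG ω hω) (hGJ ω hω) (by rw [map_smul, map_add, C.tw_tw, add_comm])
      (hW ω hω _)
  | zero => simpa using C.cv_Q_zero J W
  | add m n _ _ h1 h2 =>
    have e : (1 / 2 : ℂ) • (m + n - C.tw (m + n))
        = (1 / 2 : ℂ) • (m - C.tw m) + (1 / 2 : ℂ) • (n - C.tw n) := by
      rw [map_add, ← smul_add, add_sub_add_comm]
    rw [e]
    exact C.cv_Q_add h1 h2
  | neg m _ h1 =>
    have e : (1 / 2 : ℂ) • (-m - C.tw (-m)) = -((1 / 2 : ℂ) • (m - C.tw m)) := by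
      rw [map_neg, ← smul_neg, neg_sub_neg, neg_sub]
    rw [e]
    exact C.cv_Q_neg h1

/-- Transgression. -/
theorem trans (G : Set M) (hG : ∀ ω ∈ G, C.Gen ω) (J : TwoSidedIdeal M) (hGJ : ∀ ω ∈ G, ω ∈ J)
    (hK : C.K ∈ J) (W : ℕ → Submodule ℂ V)
    (hW : ∀ ω ∈ G, ∀ y, ∀ x ∈ J, ∀ n, C.str (ω * y * x ^ n) ∈ W n) {a : M} (ha : C.tw a = -a)
    (haG : a ∈ AddSubgroup.closure {m | ∃ ω ∈ G, ∃ y, m = ω * y}) :
    ∃ T : ℕ → V, (∀ n, T n ∈ W n) ∧ ∀ n : ℕ,
      C.str ((C.K + C.D a + a * a) ^ (n + 1)) - C.str (C.K ^ (n + 1)) =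
        ((n : ℂ) + 1) • C.d (T n) + (((n : ℂ) + 1) * n) • C.L (T (n - 1)) := by
  have h := cv_Q_half C G hG J hGJ W hW haG
  have e : (1 / 2 : ℂ) • (a - C.tw a) = a := by
    rw [ha, sub_neg_eq_add, ← two_smul ℂ a, smul_smul]
    norm_num
  rw [e] at h
  have e0 : C.cvK 0 = C.K := by simp [cvK]
  obtain ⟨T, hT, hs⟩ := h.2.2.2 0 (by simp) (by rw [e0]; exact hK)
  refine ⟨T, hT, fun n => ?_⟩
  have := hs n
  rwa [e0, zero_add] at this

end Cv

end Pool.Agent.Lib.MP_e9c0f3_ag.DR
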