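import Pool.Agent.Lib.MP_e9c0f3_ag.DR.Defs

/-! Supercommutative differential algebras. -/

namespace Pool.Agent.Lib.MP_e9c0f3_ag.DR

/-- A supercommutative differential algebra: `σ` is the parity involution. -/
structure SD (𝒜 : Type) [Ring 𝒜] [Algebra ℂ 𝒜] where
  σ : 𝒜 →ₐ[ℂ] 𝒜
  d : 𝒜 →ₗ[ℂ] 𝒜
  σσ : ∀ a, σ (σ a) = a
  d_mul : ∀ a b, d (a * b) = d a * b + σ a * d b
  d_d : ∀ a, d (d a) = 0
  σ_d : ∀ a, σ (d a) = -d (σ a)
  comm_even : ∀ a b, σ a = a → a * b = b * a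
  comm_odd : ∀ a b, σ a = -a → a * b = σ b * a

namespace SD

variable {𝒜 𝒜' : Type} [Ring 𝒜] [Algebra ℂ 𝒜] [Ring 𝒜'] [Algebra ℂ 𝒜'] (S : SD 𝒜)

theorem half {V : Type} [AddCommGroup V] [Module ℂ V] {x : V} (h : x + x = 0) : x = 0 := by
  have : (2 : ℂ) • x = 0 := by rw [two_smul, h]
  simpa using this

theorem d_one : S.d 1 = 0 := by
  have h := S.d_mul 1 1
  rw [mul_one, mul_one, map_one S.σ, one_mul] at h
  exact left_eq_add.1 h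

theorem d_algebraMap (c : ℂ) : S.d (algebraMap ℂ 𝒜 c) = 0 := by
  rw [Algebra.algebraMap_eq_smul_one, map_smul, S.d_one, smul_zero]

theorem d_mul_even {a : 𝒜} (h : S.σ a = a) (b : 𝒜) : S.d (a * b) = S.d a * b + a * S.d b := by
  rw [S.d_mul, h]

theorem d_mul_odd {a : 𝒜} (h : S.σ a = -a) (b : 𝒜) : S.d (a * b) = S.d a * b - a * S.d b := by
  rw [S.d_mul, h, neg_mul, sub_eq_add_neg]

theorem odd_d {a : 𝒜} (h : S.σ a = a) : S.σ (S.d a) = -S.d a := by rw [S.σ_d, h]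

theorem even_d {a : 𝒜} (h : S.σ a = -a) : S.σ (S.d a) = S.d a := by
  rw [S.σ_d, h, map_neg, neg_neg]

theorem odd_sq {a : 𝒜} (h : S.σ a = -a) : a * a = 0 := by
  have h1 := S.comm_odd a a h
  rw [h, neg_mul] at h1
  exact half (eq_neg_iff_add_eq_zero.1 h1)

theorem d_d_mul {a : 𝒜} (h : S.σ a = a) (b : 𝒜) : S.d (S.d a * b) = -(S.d a * S.d b) := by
  rw [S.d_mul_odd (S.odd_d h), S.d_d, zero_mul, zero_sub]

theorem d_mul_d {a : 𝒜} (h : S.σ a = a) : S.d a * S.d a = 0 := S.odd_sq (S.odd_d h)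

theorem d_mul_d_mul {a : 𝒜} (h : S.σ a = a) (b : 𝒜) : S.d a * (S.d a * b) = 0 := by
  rw [← mul_assoc, S.d_mul_d h, zero_mul]

/-- Every element is the sum of an even and an odd one. -/
theorem even_add_odd (a : 𝒜) : ∃ b c, S.σ b = b ∧ S.σ c = -c ∧ a = b + c ∧
    b = (1 / 2 : ℂ) • (a + S.σ a) ∧ c = (1 / 2 : ℂ) • (a - S.σ a) := by
  refine ⟨_, _, ?_, ?_, ?_, rfl, rfl⟩
  · rw [map_smul, map_add, S.σσ, add_comm]
  · rw [map_smul, map_sub, S.σσ, ← smul_neg, neg_sub]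
  · rw [← smul_add, add_add_sub_cancel, ← two_smul ℂ a, smul_smul]
    norm_num

theorem twoSided (I : Ideal 𝒜) (h : ∀ x ∈ I, S.σ x ∈ I) : I.IsTwoSided := by
  refine ⟨fun {a} b ha => ?_⟩
  obtain ⟨u, v, hu, hv, huv, eu, ev⟩ := S.even_add_odd a
  have hI : ∀ (c : ℂ) x, x ∈ I → c • x ∈ I := fun c x hx => by
    rw [Algebra.smul_def]
    exact I.mul_mem_left _ hx
  have h1 : u ∈ I := eu ▸ hI _ _ (I.add_mem ha (h a ha))
  have h2 : v ∈ I := ev ▸ hI _ _ (I.sub_mem ha (h a ha))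
  rw [huv, add_mul, S.comm_even u b hu, S.comm_odd v b hv]
  exact I.add_mem (I.mul_mem_left _ h1) (I.mul_mem_left _ h2)

/-- The quotient by a differential ideal. -/
noncomputable def quot (I : Ideal 𝒜) [I.IsTwoSided] (hσ : ∀ x ∈ I, S.σ x ∈ I)
    (hd : ∀ x ∈ I, S.d x ∈ I) : SD (𝒜 ⧸ I) where
  σ := Ideal.quotientMapₐ I S.σ hσ
  d := Submodule.mapQ (I.restrictScalars ℂ) (I.restrictScalars ℂ) S.d hd
  σσ := by
    rintro ⟨a⟩
    exact congrArg (Ideal.Quotient.mk I) (S.σσ a)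
  d_mul := by
    rintro ⟨a⟩ ⟨b⟩
    exact congrArg (Ideal.Quotient.mk I) (S.d_mul a b)
  d_d := by
    rintro ⟨a⟩
    exact congrArg (Ideal.Quotient.mk I) (S.d_d a)
  σ_d := by
    rintro ⟨a⟩
    exact congrArg (Ideal.Quotient.mk I) (S.σ_d a)
  comm_even := by
    rintro ⟨a⟩ ⟨b⟩ h
    obtain ⟨u, v, hu, hv, huv, eu, ev⟩ := S.even_add_odd a
    have h1 : a - S.σ a ∈ I := Ideal.Quotient.eq.1 h.symm
    have h2 : v ∈ I := by
      rw [ev, Algebra.smul_def]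
      exact I.mul_mem_left _ h1
    refine Ideal.Quotient.eq.2 (?_ : a * b - b * a ∈ I)
    rw [huv, add_mul, mul_add, S.comm_even u b hu, add_sub_add_left_eq_sub]
    exact I.sub_mem (I.mul_mem_right _ h2) (I.mul_mem_left _ h2)
  comm_odd := by
    rintro ⟨a⟩ ⟨b⟩ h
    obtain ⟨u, v, hu, hv, huv, eu, ev⟩ := S.even_add_odd a
    have h1 : S.σ a - -a ∈ I := Ideal.Quotient.eq.1 h
    have h2 : u ∈ I := by
      rw [eu, Algebra.smul_def, add_comm, ← sub_neg_eq_add]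
      exact I.mul_mem_left _ h1
    refine Ideal.Quotient.eq.2 (?_ : a * b - S.σ b * a ∈ I)
    rw [huv, add_mul, mul_add, S.comm_odd v b hv, add_sub_add_right_eq_sub]
    exact I.sub_mem (I.mul_mem_right _ h2) (I.mul_mem_left _ h2)

theorem quot_σ (I : Ideal 𝒜) [I.IsTwoSided] (hσ : ∀ x ∈ I, S.σ x ∈ I) (hd : ∀ x ∈ I, S.d x ∈ I)
    (x : 𝒜) : (S.quot I hσ hd).σ (Ideal.Quotient.mk I x) = Ideal.Quotient.mk I (S.σ x) := rfl

theorem quot_d (I : Ideal 𝒜) [I.IsTwoSided] (hσ : ∀ x ∈ I, S.σ x ∈ I) (hd : ∀ x ∈ I, S.d x ∈ I)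
    (x : 𝒜) : (S.quot I hσ hd).d (Ideal.Quotient.mk I x) = Ideal.Quotient.mk I (S.d x) := rfl

/-- Morphisms. -/
structure Hom (S : SD 𝒜) (S' : SD 𝒜') (g : 𝒜 →ₐ[ℂ] 𝒜') : Prop where
  map_σ : ∀ a, g (S.σ a) = S'.σ (g a)
  map_d : ∀ a, g (S.d a) = S'.d (g a)

theorem hom_quot (I : Ideal 𝒜) [I.IsTwoSided] (hσ : ∀ x ∈ I, S.σ x ∈ I)
    (hd : ∀ x ∈ I, S.d x ∈ I) : Hom S (S.quot I hσ hd) (Ideal.Quotient.mkₐ ℂ I) :=
  ⟨fun _ => rfl, fun _ => rfl⟩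

/-- The Chern-Weil form of a matrix. -/
noncomputable def ch (k : ℕ) {ι : Type} [Fintype ι] [DecidableEq ι] (e : Matrix ι ι 𝒜) : 𝒜 :=
  (e * e.map S.d ^ (2 * k)).trace

theorem Hom.ch {S : SD 𝒜} {S' : SD 𝒜'} {g : 𝒜 →ₐ[ℂ] 𝒜'} (h : Hom S S' g) (k : ℕ) {ι : Type}
    [Fintype ι] [DecidableEq ι] (e : Matrix ι ι 𝒜) : g (S.ch k e) = S'.ch k (e.map g) := by
  have h1 : (e.map g).map S'.d = (e.map S.d).map g := by
    ext i j
    exact (h.map_d _).symm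
  have h2 : ∀ M : Matrix ι ι 𝒜, M.map g = (g : 𝒜 →+* 𝒜').mapMatrix M := fun _ => rfl
  rw [SD.ch, SD.ch, h1, h2, h2, ← map_pow, ← map_mul]
  exact AddMonoidHom.map_trace (g : 𝒜 →+* 𝒜') _

/-- Matrices with even entries. -/
def EvM {ι κ : Type} (m : Matrix ι κ 𝒜) : Prop := ∀ i j, S.σ (m i j) = m i j

end SD

end Pool.Agent.Lib.MP_e9c0f3_ag.DR
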