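import Pool.Agent.Lib.MP_e9c0f3_ag.Std2
import Pool.Agent.Lib.MP_e9c0f3_ag.DR.SD
import Pool.Agent.Lib.MP_e9c0f3_ag.DR.Cv

/-! Matrices of forms as a curved algebra with supertrace. -/

open Matrix

namespace Pool.Agent.Lib.MP_e9c0f3_ag.DR

namespace SD

variable {𝒜 𝒜' : Type} [Ring 𝒜] [Algebra ℂ 𝒜] [Ring 𝒜'] [Algebra ℂ 𝒜'] (S : SD 𝒜)
variable {ι : Type} [Fintype ι] [DecidableEq ι]

theorem cvm_sg (𝒜 : Type) [Ring 𝒜] (n : ℕ) :
    (Even n ∧ (-1 : 𝒜) ^ n = 1) ∨ (¬ Even n ∧ (-1 : 𝒜) ^ n = -1) := by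
  rcases Nat.even_or_odd n with h | h
  · exact Or.inl ⟨h, h.neg_one_pow⟩
  · exact Or.inr ⟨Nat.not_even_iff_odd.mpr h, h.neg_one_pow⟩

/-- The parity matrix. -/
def ep (𝒜 : Type) [Ring 𝒜] (par : ι → ℕ) : Matrix ι ι 𝒜 := diagonal fun i => (-1) ^ par i

theorem ep_mul_ep (par : ι → ℕ) : ep 𝒜 par * ep 𝒜 par = 1 := by
  rw [ep, diagonal_mul_diagonal, ← diagonal_one]
  congr 1
  funext i
  rcases cvm_sg 𝒜 (par i) with ⟨-, h⟩ | ⟨-, h⟩ <;> simp [h]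

theorem cvm_ep_mul (par : ι → ℕ) (m : Matrix ι ι 𝒜) (i j : ι) :
    (ep 𝒜 par * m) i j = (-1) ^ par i * m i j := diagonal_mul _ _ _ _

theorem cvm_mul_ep (par : ι → ℕ) (m : Matrix ι ι 𝒜) (i j : ι) :
    (m * ep 𝒜 par) i j = m i j * (-1) ^ par j := mul_diagonal _ _ _ _

/-- The total parity. -/
noncomputable def mtw (par : ι → ℕ) : Matrix ι ι 𝒜 →ₐ[ℂ] Matrix ι ι 𝒜 where
  toFun m := ep 𝒜 par * m.map S.σ * ep 𝒜 par
  map_one' := by
    rw [Matrix.map_one _ (map_zero _) (map_one _), mul_one, ep_mul_ep]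
  map_mul' m n := by
    have h : (m * n).map S.σ = m.map S.σ * n.map S.σ := Matrix.map_mul
    rw [h]
    calc ep 𝒜 par * (m.map S.σ * n.map S.σ) * ep 𝒜 par
        = ep 𝒜 par * (m.map S.σ * (ep 𝒜 par * ep 𝒜 par) * n.map S.σ) * ep 𝒜 par := by
          rw [ep_mul_ep, mul_one]
      _ = _ := by simp only [mul_assoc]
  map_zero' := by
    rw [Matrix.map_zero _ (map_zero _), mul_zero, zero_mul]
  map_add' m n := by
    rw [Matrix.map_add _ (map_add _), mul_add, add_mul]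
  commutes' c := by
    ext i j
    rw [cvm_mul_ep, cvm_ep_mul, map_apply, algebraMap_matrix_apply]
    split_ifs with h
    · subst h
      rcases cvm_sg 𝒜 (par i) with ⟨-, h⟩ | ⟨-, h⟩ <;> simp [h]
    · simp

/-- The trivial superconnection. -/
noncomputable def mD (par : ι → ℕ) : Matrix ι ι 𝒜 →ₗ[ℂ] Matrix ι ι 𝒜 where
  toFun m := ep 𝒜 par * m.map S.d
  map_add' m n := by
    rw [Matrix.map_add _ (map_add _), mul_add]
  map_smul' c m := by
    ext i j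
    simp [cvm_ep_mul]

/-- The supertrace. -/
noncomputable def mstr (par : ι → ℕ) : Matrix ι ι 𝒜 →ₗ[ℂ] 𝒜 where
  toFun m := ∑ i, if Even (par i) then m i i else -S.σ (m i i)
  map_add' m n := by
    rw [← Finset.sum_add_distrib]
    refine Finset.sum_congr rfl fun i _ => ?_
    split_ifs
    · rfl
    · rw [Matrix.add_apply, map_add, neg_add]
  map_smul' c m := by
    rw [RingHom.id_apply, Finset.smul_sum]
    refine Finset.sum_congr rfl fun i _ => ?_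
    split_ifs
    · rfl
    · rw [Matrix.smul_apply, map_smul, smul_neg]

theorem mtw_apply (par : ι → ℕ) (m : Matrix ι ι 𝒜) :
    S.mtw par m = ep 𝒜 par * m.map S.σ * ep 𝒜 par := rfl

theorem mD_apply (par : ι → ℕ) (m : Matrix ι ι 𝒜) : S.mD par m = ep 𝒜 par * m.map S.d := rfl

theorem cvm_mtw (par : ι → ℕ) (m : Matrix ι ι 𝒜) (i j : ι) :
    S.mtw par m i j = (-1) ^ par i * S.σ (m i j) * (-1) ^ par j := by
  rw [mtw_apply, cvm_mul_ep, cvm_ep_mul, map_apply]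

theorem cvm_mD (par : ι → ℕ) (m : Matrix ι ι 𝒜) (i j : ι) :
    S.mD par m i j = (-1) ^ par i * S.d (m i j) := by
  rw [mD_apply, cvm_ep_mul, map_apply]

theorem cvm_mstr (par : ι → ℕ) (m : Matrix ι ι 𝒜) :
    S.mstr par m = ∑ i, if Even (par i) then m i i else -S.σ (m i i) := rfl

theorem cvm_mstr_mul (par : ι → ℕ) (a b : Matrix ι ι 𝒜) :
    S.mstr par (a * b) =
      ∑ i, ∑ k, if Even (par i) then a i k * b k i else -S.σ (a i k * b k i) := by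
  rw [cvm_mstr]
  refine Finset.sum_congr rfl fun i _ => ?_
  split_ifs
  · rw [mul_apply]
  · rw [mul_apply, map_sum, Finset.sum_neg_distrib]

theorem mstr_even (par : ι → ℕ) {m : Matrix ι ι 𝒜} (h : S.EvM m) :
    S.mstr par m = (ep 𝒜 par * m).trace := by
  rw [cvm_mstr, trace]
  refine Finset.sum_congr rfl fun i _ => ?_
  rw [diag_apply, cvm_ep_mul, h i i]
  rcases cvm_sg 𝒜 (par i) with ⟨h1, h2⟩ | ⟨h1, h2⟩ <;> simp [h1, h2]

theorem mstr_odd (par : ι → ℕ) {m : Matrix ι ι 𝒜} (h : ∀ i j, S.σ (m i j) = -m i j) :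
    S.mstr par m = m.trace := by
  rw [cvm_mstr, trace]
  refine Finset.sum_congr rfl fun i _ => ?_
  rw [diag_apply, h i i, neg_neg, ite_self]

/-- The supertrace of a matrix lies in every parity-stable subspace containing the entries. -/
theorem mstr_mem (par : ι → ℕ) (W : Submodule ℂ 𝒜) (hW : ∀ x ∈ W, S.σ x ∈ W) {m : Matrix ι ι 𝒜}
    (h : ∀ i j, m i j ∈ W) : S.mstr par m ∈ W := by
  rw [cvm_mstr]
  refine W.sum_mem fun i _ => ?_
  split_ifs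
  · exact h i i
  · exact W.neg_mem (hW _ (h i i))

theorem cv_aux (par : ι → ℕ) :
    (∀ m, S.mtw par (S.mtw par m) = m) ∧
    (∀ m n, S.mD par (m * n) = S.mD par m * n + S.mtw par m * S.mD par n) ∧
    (∀ m, S.mtw par (S.mD par m) = -S.mD par (S.mtw par m)) ∧
    (∀ m, S.mstr par (S.mD par m) = S.d (S.mstr par m)) ∧
    (∀ a b, S.mtw par a = a → S.mstr par (a * b) = S.mstr par (b * a)) ∧
    (∀ a b, S.mtw par a = -a → S.mstr par (a * b) = S.mstr par (S.mtw par b * a)) ∧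
    (∀ m, S.mD par (S.mD par m) = 0) := by
  refine ⟨fun m => ?_, fun m n => ?_, fun m => ?_, fun m => ?_, fun a b h => ?_, fun a b h => ?_,
    fun m => ?_⟩
  · ext i j
    rw [cvm_mtw, cvm_mtw]
    rcases cvm_sg 𝒜 (par i) with ⟨-, h1⟩ | ⟨-, h1⟩ <;>
      rcases cvm_sg 𝒜 (par j) with ⟨-, h2⟩ | ⟨-, h2⟩ <;> simp [h1, h2, S.σσ]
  · ext i j
    rw [cvm_mD, Matrix.add_apply, mul_apply, mul_apply, mul_apply, map_sum, Finset.mul_sum,
      ← Finset.sum_add_distrib]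
    refine Finset.sum_congr rfl fun k _ => ?_
    rw [cvm_mD, cvm_mD, cvm_mtw, S.d_mul]
    rcases cvm_sg 𝒜 (par i) with ⟨-, h1⟩ | ⟨-, h1⟩ <;>
      rcases cvm_sg 𝒜 (par k) with ⟨-, h2⟩ | ⟨-, h2⟩ <;> simp [h1, h2, add_comm]
  · ext i j
    rw [Matrix.neg_apply, cvm_mtw, cvm_mD, cvm_mD, cvm_mtw]
    rcases cvm_sg 𝒜 (par i) with ⟨-, h1⟩ | ⟨-, h1⟩ <;>
      rcases cvm_sg 𝒜 (par j) with ⟨-, h2⟩ | ⟨-, h2⟩ <;> simp [h1, h2, S.σ_d]
  · rw [cvm_mstr, cvm_mstr, map_sum]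
    refine Finset.sum_congr rfl fun i _ => ?_
    rw [cvm_mD]
    rcases cvm_sg 𝒜 (par i) with ⟨h1, h2⟩ | ⟨h1, h2⟩ <;> simp [h1, h2, S.σ_d]
  · rw [cvm_mstr_mul, cvm_mstr_mul, Finset.sum_comm]
    refine Finset.sum_congr rfl fun k _ => Finset.sum_congr rfl fun i _ => ?_
    have h0 := congrFun (congrFun h i) k
    rw [cvm_mtw] at h0
    rcases cvm_sg 𝒜 (par i) with ⟨e1, h1⟩ | ⟨e1, h1⟩ <;>
      rcases cvm_sg 𝒜 (par k) with ⟨e2, h2⟩ | ⟨e2, h2⟩ <;>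
      simp only [h1, h2, mul_one, one_mul, mul_neg, neg_mul, neg_neg] at h0 <;>
      simp only [e1, e2, if_true, if_false]
    · exact S.comm_even _ _ h0
    · have h3 := neg_eq_iff_eq_neg.mp h0
      rw [S.comm_odd _ _ h3, map_mul, h3, mul_neg, neg_neg]
    · have h3 := neg_eq_iff_eq_neg.mp h0
      rw [S.comm_odd _ _ h3, map_mul, h3, S.σσ, mul_neg, neg_neg]
    · rw [S.comm_even _ _ h0]
  · rw [cvm_mstr_mul, cvm_mstr_mul, Finset.sum_comm]
    refine Finset.sum_congr rfl fun k _ => Finset.sum_congr rfl fun i _ => ?_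
    have h0 := congrFun (congrFun h i) k
    rw [cvm_mtw, Matrix.neg_apply] at h0
    rw [cvm_mtw]
    rcases cvm_sg 𝒜 (par i) with ⟨e1, h1⟩ | ⟨e1, h1⟩ <;>
      rcases cvm_sg 𝒜 (par k) with ⟨e2, h2⟩ | ⟨e2, h2⟩ <;>
      simp only [h1, h2, mul_one, one_mul, mul_neg, neg_mul, neg_neg, neg_inj] at h0 <;>
      simp only [e1, e2, h1, h2, if_true, if_false, mul_one, one_mul, mul_neg, neg_mul, neg_neg]
    · exact S.comm_odd _ _ h0
    · rw [S.comm_even _ _ h0, map_neg, neg_neg, map_mul, S.σσ, h0]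
    · rw [S.comm_even _ _ h0, map_mul, h0]
    · rw [S.comm_odd _ _ h0]
  · ext i j
    rw [cvm_mD, cvm_mD]
    rcases cvm_sg 𝒜 (par i) with ⟨-, h1⟩ | ⟨-, h1⟩ <;> simp [h1, S.d_d]

/-- Matrices of forms with the trivial superconnection. -/
noncomputable def cv (par : ι → ℕ) : Cv (Matrix ι ι 𝒜) 𝒜 where
  tw := S.mtw par
  D := S.mD par
  str := S.mstr par
  d := S.d
  L := 0
  φ := 0
  K := 0
  tw_tw := (S.cv_aux par).1
  D_mul := (S.cv_aux par).2.1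
  tw_D := (S.cv_aux par).2.2.1
  str_D := (S.cv_aux par).2.2.2.1
  str_even := (S.cv_aux par).2.2.2.2.1
  str_odd := (S.cv_aux par).2.2.2.2.2.1
  tw_φ := by simp
  φ_mul := by simp
  str_φ := by simp
  D_φ := by simp
  tw_K := by simp
  D_D := by simpa using (S.cv_aux par).2.2.2.2.2.2
  D_K := by simp

theorem mD_scalar (par : ι → ℕ) (r : 𝒜) :
    S.mD par (scalar ι r) = scalar ι (S.d r) * ep 𝒜 par := by
  ext i j
  rw [cvm_mD, cvm_mul_ep, scalar_apply, scalar_apply, diagonal_apply, diagonal_apply]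
  split_ifs with h
  · subst h
    rcases cvm_sg 𝒜 (par i) with ⟨-, h1⟩ | ⟨-, h1⟩ <;> simp [h1]
  · simp

theorem cvm_scalar_mul (r : 𝒜) (m : Matrix ι ι 𝒜) (i j : ι) :
    (scalar ι r * m) i j = r * m i j := by
  rw [scalar_apply, diagonal_mul]

theorem cvm_mul_scalar (r : 𝒜) (m : Matrix ι ι 𝒜) (i j : ι) :
    (m * scalar ι r) i j = m i j * r := by
  rw [scalar_apply, mul_diagonal]

theorem cvm_gen_mul (par : ι → ℕ) (r : 𝒜) (m : Matrix ι ι 𝒜) (i j : ι) :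
    (S.mD par (scalar ι r) * m) i j = S.d r * ((-1) ^ par i * m i j) := by
  rw [mD_scalar, mul_assoc, cvm_scalar_mul, cvm_ep_mul]

theorem cvm_mtw_scalar (par : ι → ℕ) {r : 𝒜} (hr : S.σ r = r) :
    S.mtw par (scalar ι r) = scalar ι r := by
  ext i j
  rw [cvm_mtw, scalar_apply, diagonal_apply]
  split_ifs with h
  · subst h
    rcases cvm_sg 𝒜 (par i) with ⟨-, h1⟩ | ⟨-, h1⟩ <;> simp [h1, hr]
  · simp

theorem gen (par : ι → ℕ) {r : 𝒜} (hr : S.σ r = r) : (S.cv par).Gen (S.mD par (scalar ι r)) := by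
  refine ⟨?_, fun m => ?_, (S.cv_aux par).2.2.2.2.2.2 _⟩
  · have h := (S.cv_aux par).2.2.1 (scalar ι r)
    rwa [S.cvm_mtw_scalar par hr] at h
  · change S.mD par (scalar ι r) * m = S.mtw par m * S.mD par (scalar ι r)
    ext i j
    rw [cvm_gen_mul, mD_scalar, ← mul_assoc (S.mtw par m), cvm_mul_ep, cvm_mul_scalar, cvm_mtw]
    have h := S.comm_odd _ (m i j) (S.odd_d hr)
    rcases cvm_sg 𝒜 (par i) with ⟨-, h1⟩ | ⟨-, h1⟩ <;>
      rcases cvm_sg 𝒜 (par j) with ⟨-, h2⟩ | ⟨-, h2⟩ <;> simp [h1, h2, h]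

theorem mstr_gen (par : ι → ℕ) {r : 𝒜} (hr : S.σ r = r) (m : Matrix ι ι 𝒜) :
    S.mstr par (S.mD par (scalar ι r) * m) = S.d r * S.mstr par m := by
  rw [cvm_mstr, cvm_mstr, Finset.mul_sum]
  refine Finset.sum_congr rfl fun i _ => ?_
  rw [cvm_gen_mul]
  rcases cvm_sg 𝒜 (par i) with ⟨h1, h2⟩ | ⟨h1, h2⟩ <;> simp [h1, h2, S.odd_d hr]

theorem mstr_scalar (par : ι → ℕ) {r : 𝒜} (hr : S.σ r = r) (m : Matrix ι ι 𝒜) :
    S.mstr par (scalar ι r * m) = r * S.mstr par m := by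
  rw [cvm_mstr, cvm_mstr, Finset.mul_sum]
  refine Finset.sum_congr rfl fun i _ => ?_
  rw [cvm_scalar_mul]
  split_ifs
  · rfl
  · rw [map_mul, hr, mul_neg]

/-- `x * mD m * y` is a combination of the generators attached to the entries of `m`. -/
theorem mD_mem_closure (par : ι → ℕ) (E : Set 𝒜) (hE : ∀ r ∈ E, S.σ r = r) {m : Matrix ι ι 𝒜}
    (hm : ∀ i j, m i j ∈ E) (x y : Matrix ι ι 𝒜) :
    x * S.mD par m * y ∈ AddSubgroup.closure
      {z | ∃ ω ∈ {ω | ∃ r ∈ E, ω = S.mD par (scalar ι r)}, ∃ t, z = ω * t} := by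
  have h1 : ∀ (i j : ι) (r : 𝒜),
      S.mD par (single i j r) = S.mD par (scalar ι r) * single i j 1 := by
    intro i j r
    ext a b
    rw [cvm_gen_mul, cvm_mD, single_apply, single_apply]
    split_ifs
    · rcases cvm_sg 𝒜 (par a) with ⟨-, h1⟩ | ⟨-, h1⟩ <;> simp [h1]
    · simp
  rw [matrix_eq_sum_single m]
  simp only [map_sum, Finset.mul_sum, Finset.sum_mul]
  refine sum_mem fun i _ => sum_mem fun j _ => AddSubgroup.subset_closure
    ⟨_, ⟨m i j, hm i j, rfl⟩, S.mtw par x * single i j 1 * y, ?_⟩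
  have h2 : S.mD par (scalar ι (m i j)) * S.mtw par x
      = S.mtw par (S.mtw par x) * S.mD par (scalar ι (m i j)) :=
    (S.gen par (hE _ (hm i j))).comm _
  rw [(S.cv_aux par).1] at h2
  rw [h1, ← mul_assoc, ← h2]
  simp only [mul_assoc]

theorem mtw_odd (par : ι → ℕ) {m : Matrix ι ι 𝒜} (h : S.EvM m)
    (ho : ∀ i j, m i j ≠ 0 → Odd (par i + par j)) : S.mtw par m = -m := by
  ext i j
  rw [cvm_mtw, h i j, Matrix.neg_apply]
  by_cases h0 : m i j = 0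
  · simp [h0]
  · have h3 := Nat.not_even_iff_odd.mpr (ho i j h0)
    rw [Nat.even_add] at h3
    rcases cvm_sg 𝒜 (par i) with ⟨e1, h1⟩ | ⟨e1, h1⟩ <;>
      rcases cvm_sg 𝒜 (par j) with ⟨e2, h2⟩ | ⟨e2, h2⟩ <;> simp [h1, h2] <;> simp [e1, e2] at h3

theorem mtw_even (par : ι → ℕ) {m : Matrix ι ι 𝒜} (h : S.EvM m)
    (ho : ∀ i j, m i j ≠ 0 → Even (par i + par j)) : S.mtw par m = m := by
  ext i j
  rw [cvm_mtw, h i j]
  by_cases h0 : m i j = 0
  · simp [h0]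
  · have h3 := ho i j h0
    rw [Nat.even_add] at h3
    rcases cvm_sg 𝒜 (par i) with ⟨e1, h1⟩ | ⟨e1, h1⟩ <;>
      rcases cvm_sg 𝒜 (par j) with ⟨e2, h2⟩ | ⟨e2, h2⟩ <;> simp [h1, h2] <;> simp [e1, e2] at h3

theorem sq (par : ι → ℕ) {δ : Matrix ι ι 𝒜} {F : 𝒜} (hF : S.σ F = F) (hδ : S.mtw par δ = -δ)
    (h : δ * δ = scalar ι F) : (S.cv par).Sq δ (scalar ι F) (LinearMap.mulLeft ℂ (S.d F)) := by
  refine ⟨rfl, hδ, h, fun m => ?_, (S.gen par hF).comm, fun m => S.mstr_gen par hF m⟩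
  ext i j
  rw [cvm_scalar_mul, cvm_mul_scalar, S.comm_even _ _ hF]

variable {S} {S' : SD 𝒜'} {g : 𝒜 →ₐ[ℂ] 𝒜'}

theorem Hom.mtw (h : Hom S S' g) (par : ι → ℕ) (m : Matrix ι ι 𝒜) :
    (S.mtw par m).map g = S'.mtw par (m.map g) := by
  ext i j
  rw [map_apply, cvm_mtw, cvm_mtw, map_apply, ← h.map_σ]
  simp

theorem Hom.mD (h : Hom S S' g) (par : ι → ℕ) (m : Matrix ι ι 𝒜) :
    (S.mD par m).map g = S'.mD par (m.map g) := by
  ext i j
  rw [map_apply, cvm_mD, cvm_mD, map_apply, ← h.map_d]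
  simp

theorem Hom.mstr (h : Hom S S' g) (par : ι → ℕ) (m : Matrix ι ι 𝒜) :
    g (S.mstr par m) = S'.mstr par (m.map g) := by
  rw [cvm_mstr, cvm_mstr, map_sum]
  refine Finset.sum_congr rfl fun i _ => ?_
  split_ifs
  · rfl
  · rw [map_neg, h.map_σ, map_apply]

end SD

end Pool.Agent.Lib.MP_e9c0f3_ag.DR
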