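import Pool.Agent.Lib.MP_e9c0f3_ag.Defs

/-! Algebraic de Rham cohomology of a projective hypersurface through its Jouanolou torsor. -/

open MvPolynomial

namespace Pool.Agent.Lib.MP_e9c0f3_ag.DR

section Forms

/-- Algebraic differential forms on `Spec B`. -/
abbrev Form (B : Type) [CommRing B] [Algebra ℂ B] : Type := ExteriorAlgebra B Ω[B⁄ℂ]

variable {B B' : Type} [CommRing B] [Algebra ℂ B] [CommRing B'] [Algebra ℂ B']

/-- The one-form `db`. -/
noncomputable def dd (b : B) : Form B := ExteriorAlgebra.ι B (KaehlerDifferential.D ℂ B b)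

/-- `η = dω`: the additive relation generated by `d (b db₁ ... dbₙ) = db db₁ ... dbₙ`. -/
def IsD (ω η : Form B) : Prop :=
  (ω, η) ∈ AddSubgroup.closure
    {p | ∃ (b : B) (l : List B), p = (b • (l.map dd).prod, dd b * (l.map dd).prod)}

/-- Exact forms. -/
def IsExact (η : Form B) : Prop := ∃ ω, IsD ω η

/-- Pull-back of forms along a morphism of affine schemes. -/
noncomputable def pull (φ : B →ₐ[ℂ] B') : Form B →+* Form B' :=
  letI := φ.toRingHom.toAlgebra
  haveI : IsScalarTower ℂ B B' := IsScalarTower.of_algebraMap_eq fun c => (φ.commutes c).symm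
  (ExteriorAlgebra.lift B
    ⟨(ExteriorAlgebra.ι B').restrictScalars B ∘ₗ KaehlerDifferential.map ℂ ℂ B B',
      fun _ => ExteriorAlgebra.ι_sq_zero _⟩).toRingHom

/-- The Chern-Weil form `tr (e (de) ^ (2 k))` of the projective module `e B ^ n`; it represents
`k!` times the `k`-th Chern character. -/
noncomputable def chw (k : ℕ) {ι : Type} [Fintype ι] [DecidableEq ι] (e : Matrix ι ι B) : Form B :=
  (e.map (algebraMap B (Form B)) * e.map dd ^ (2 * k)).trace

/-- `M` has a finite resolution by projective modules `e₀ B ^ n₀, e₁ B ^ n₁, ...` and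
`γ` is the alternating sum of the forms `chw k eᵢ`. -/
inductive HasCh (k : ℕ) : ModuleCat.{0} B → Form B → Prop
  | zero (M : ModuleCat.{0} B) [Subsingleton M] : HasCh k M 0
  | step (M K : ModuleCat.{0} B) (γ : Form B) (ι : Type) [Fintype ι] [DecidableEq ι]
      (e : Matrix ι ι B) (he : e * e = e) (i : K →ₗ[B] LinearMap.range e.mulVecLin)
      (p : LinearMap.range e.mulVecLin →ₗ[B] M) (hi : Function.Injective i)
      (hip : Function.Exact i p) (hp : Function.Surjective p) (h : HasCh k K γ) :
      HasCh k M (chw k e - γ)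

/-- The class of `ω` is a linear combination of `k`-th Chern characters of vector bundles. -/
def IsAlg (k : ℕ) (ω : Form B) : Prop :=
  ∃ γ ∈ Submodule.span ℂ {γ | ∃ (n : ℕ) (e : Matrix (Fin n) (Fin n) B), e * e = e ∧ γ = chw k e},
    IsExact (ω - γ)

end Forms

section Jouanolou

variable {A : Type} [CommRing A] {N : ℕ}

/-- The ideal of the locus `F(x) = 0`, `∑ xᵢ yᵢ = 1`. -/
noncomputable def relJ (F : MvPolynomial (Fin N) A) : Ideal (MvPolynomial (Fin N ⊕ Fin N) A) :=
  Ideal.span {rename Sum.inl F, ∑ i, X (Sum.inl i) * X (Sum.inr i) - 1}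

/-- The function `xᵢ yⱼ` on that locus. -/
noncomputable def xy (F : MvPolynomial (Fin N) A) (i j : Fin N) :
    MvPolynomial (Fin N ⊕ Fin N) A ⧸ relJ F :=
  Ideal.Quotient.mk _ (X (Sum.inl i) * X (Sum.inr j))

/-- The coordinate ring of the Jouanolou torsor of the hypersurface `F = 0` in projective space
over `A`: pairs of a point `[x]` and a hyperplane `[y]` missing it. -/
noncomputable abbrev Jou (F : MvPolynomial (Fin N) A) : Type :=
  Algebra.adjoin A (Set.range fun ij : Fin N × Fin N => xy F ij.1 ij.2)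

/-- The rank one projector `(xᵢ yⱼ)`, whose image is the line bundle `O(-1)`. -/
noncomputable def prj (F : MvPolynomial (Fin N) A) : Matrix (Fin N) (Fin N) (Jou F) :=
  Matrix.of fun i j => ⟨xy F i j, Algebra.subset_adjoin ⟨(i, j), rfl⟩⟩

/-- The ideal of the preimage of the subscheme defined by the homogeneous ideal `I`. -/
noncomputable def cyc (F : MvPolynomial (Fin N) A) (I : Ideal (MvPolynomial (Fin N) A)) :
    Ideal (Jou F) :=
  ((I.map (rename Sum.inl)).map (Ideal.Quotient.mk (relJ F))).comap (Subalgebra.val _)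

variable [Algebra ℂ A]

/-- The `k`-th step of the Hodge filtration: the ideal generated by the products of `k` one-forms
`yₐ ^ 2 (xᵢ dxⱼ - xⱼ dxᵢ)`, which generate the pull-back of the one-forms of the hypersurface. -/
noncomputable def hodge (k : ℕ) (F : MvPolynomial (Fin N) A) : Ideal (Form (Jou F)) :=
  Ideal.span {ω | ∃ i j a : Fin k → Fin N, ω = (List.ofFn fun t =>
    prj F (i t) (a t) • dd (prj F (j t) (a t)) - prj F (j t) (a t) • dd (prj F (i t) (a t))).prod}

/-- The ideal generated by the products of `k` one-forms `da` coming from the base. -/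
noncomputable def base (k : ℕ) (F : MvPolynomial (Fin N) A) : Ideal (Form (Jou F)) :=
  Ideal.span {ω | ∃ a : Fin k → A, ω = (List.ofFn fun t => dd (algebraMap A (Jou F) (a t))).prod}

theorem relJ_le (F : MvPolynomial (Fin N) A) (s : A →ₐ[ℂ] ℂ) :
    relJ F ≤ (relJ (map (s : A →+* ℂ) F)).comap (mapAlgHom (σ := Fin N ⊕ Fin N) s) := by
  refine Ideal.span_le.2 ?_
  rintro _ (rfl | rfl) <;> refine Ideal.subset_span ?_
  · exact Or.inl (map_rename _ _ _)
  · exact Or.inr (by simp)

theorem fib_mem (F : MvPolynomial (Fin N) A) (s : A →ₐ[ℂ] ℂ) (b : Jou F) :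
    Ideal.quotientMapₐ _ _ (relJ_le F s) b ∈
      Algebra.adjoin ℂ (Set.range fun ij : Fin N × Fin N =>
        xy (map (s : A →+* ℂ) F) ij.1 ij.2) := by
  obtain ⟨b, hb⟩ := b
  induction hb using Algebra.adjoin_induction with
  | mem x hx =>
    obtain ⟨ij, rfl⟩ := hx
    exact Algebra.subset_adjoin ⟨ij, by simp [xy]⟩
  | algebraMap a =>
    have h : Ideal.quotientMapₐ _ _ (relJ_le F s) (algebraMap A _ a) = algebraMap ℂ _ (s a) := by
      change Ideal.Quotient.mk _ (map (s : A →+* ℂ) (C a)) = Ideal.Quotient.mk _ (C (s a))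
      rw [map_C]
      rfl
    exact h ▸ Subalgebra.algebraMap_mem _ _
  | add x y _ _ hx hy => exact map_add (Ideal.quotientMapₐ _ _ (relJ_le F s)) x y ▸ add_mem hx hy
  | mul x y _ _ hx hy => exact map_mul (Ideal.quotientMapₐ _ _ (relJ_le F s)) x y ▸ mul_mem hx hy

/-- Restriction of functions to the fibre over the point `s`. -/
noncomputable def fib (F : MvPolynomial (Fin N) A) (s : A →ₐ[ℂ] ℂ) :
    Jou F →ₐ[ℂ] Jou (map (s : A →+* ℂ) F) :=
  ((Ideal.quotientMapₐ _ _ (relJ_le F s)).comp
    ((Subalgebra.val _).restrictScalars ℂ)).codRestrict _ (fib_mem F s)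

end Jouanolou

end Pool.Agent.Lib.MP_e9c0f3_ag.DR
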