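import Pool.Agent.Lib.MP_e9c0f3_ag.DR.BT
import Pool.Agent.Lib.MP_e9c0f3_ag.DR.CW

/-! Descent of idempotents. -/

open MvPolynomial Sum

namespace Pool.Agent.Lib.MP_e9c0f3_ag.DR

open Om

variable {N : ℕ}

theorem desc_abs {T 𝒜 : Type} [CommRing T] [Algebra ℂ T] [Ring 𝒜] [Algebra ℂ 𝒜] (S : SD 𝒜)
    (ψ : T →ₐ[ℂ] 𝒜) (hψ : ∀ t, S.σ (ψ t) = ψ t) {ι κ : Type} [Fintype ι] [DecidableEq ι]
    [Fintype κ] [DecidableEq κ] {U : Matrix κ ι T} {V : Matrix ι κ T} {u : Matrix ι ι T}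
    (hVU : V * U = 1) (hu : u * u = u) (k : ℕ) : U * u * V * (U * u * V) = U * u * V ∧
      ∃ v, S.ch k ((U * u * V).map ψ) - S.ch k (u.map ψ) = S.d v := by
  have h1 : U * u * (u * V) = U * u * V := by
    rw [← Matrix.mul_assoc, Matrix.mul_assoc U, hu]
  have h2 : u * V * (U * u) = u := by
    rw [Matrix.mul_assoc, ← Matrix.mul_assoc V, hVU, Matrix.one_mul, hu]
  have h3 : U * u * V * (U * u * V) = U * u * V := by
    conv_rhs => rw [← h2]
    simp only [Matrix.mul_assoc]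
  have h4 := S.ch_uv k (a := (U * u).map ψ) (b := (u * V).map ψ) (fun _ _ => hψ _)
    (fun _ _ => hψ _) (by rw [← Matrix.map_mul, ← Matrix.map_mul, h1, h3])
    (by rw [← Matrix.map_mul, ← Matrix.map_mul, h2, hu])
  rw [← Matrix.map_mul, ← Matrix.map_mul, h1, h2] at h4
  exact ⟨h3, h4⟩

theorem desc_sum {A : Type} [CommRing A] (F : Pol N A) (m : ℕ) :
    ∑ φ : Fin m → Fin N, Ideal.Quotient.mk (relJ F) (∏ t, X (inl (φ t))) *
      Ideal.Quotient.mk (relJ F) (∏ t, X (inr (φ t))) = 1 := by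
  have h : Ideal.Quotient.mk (relJ F) (∑ i, X (inl i) * X (inr i)) = 1 :=
    (Ideal.Quotient.mk_eq_one_iff_sub_mem _).2 (Ideal.subset_span (Or.inr rfl))
  simp only [← map_mul, ← map_sum, ← Finset.prod_mul_distrib]
  rw [← Fintype.sum_pow (fun i : Fin N => (X (inl i) * X (inr i) : RR N A)) m, map_pow, h, one_pow]

theorem desc_hom {A : Type} [CommRing A] {m : ℕ} (s : Fin m → Fin N ⊕ Fin N) {c : ℤ}
    (h : ∀ t, vw N (s t) = c) : IsWeightedHomogeneous (vw N) (∏ t, X (s t) : RR N A) (m * c) := by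
  have := IsWeightedHomogeneous.prod (R := A) (w := vw N) Finset.univ (fun t => X (s t))
    (fun _ => c) fun t _ => h t ▸ isWeightedHomogeneous_X A (vw N) (s t)
  simpa using this

/-- A homogeneous idempotent on the cone descends to the torsor. -/
theorem descent {A : Type} [CommRing A] [Algebra ℂ A] {F : Pol N A} {ι : Type} [Fintype ι]
    [DecidableEq ι] (n : ι → ℤ) (u : Matrix ι ι (RR N A))
    (hu : ∀ i j, IsWeightedHomogeneous (vw N) (u i j) (n j - n i))
    (h : u.map (Ideal.Quotient.mk (relJ F)) * u.map (Ideal.Quotient.mk (relJ F)) =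
      u.map (Ideal.Quotient.mk (relJ F))) (k : ℕ) :
    ∃ (κ : Type) (_ : Fintype κ) (_ : DecidableEq κ) (u' : Matrix κ κ (Jou F)), u' * u' = u' ∧
      ∃ v, phiB F (chw k u') - Ideal.Quotient.mk _ ((SO N A).ch k (u.map of)) = (ST F).d v := by
  obtain ⟨M, hM⟩ := Finite.exists_le n
  obtain ⟨m, hm⟩ : ∃ m : ι → ℕ, ∀ i, (m i : ℤ) = M - n i :=
    ⟨fun i => (M - n i).toNat, fun i => Int.toNat_of_nonneg (sub_nonneg.2 (hM i))⟩
  let x : (Σ i, Fin (m i) → Fin N) → RR N A := fun a => ∏ t, X (inl (a.2 t))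
  let y : (Σ i, Fin (m i) → Fin N) → RR N A := fun a => ∏ t, X (inr (a.2 t))
  have hw : ∀ a b, IsWeightedHomogeneous (vw N) (y a * u a.1 b.1 * x b) 0 := fun a b => by
    have := ((desc_hom (A := A) (fun t => inr (a.2 t)) (c := -1) fun _ => rfl).mul
      (hu a.1 b.1)).mul (desc_hom (A := A) (fun t => inl (b.2 t)) (c := 1) fun _ => rfl)
    rwa [hm, hm, show (M - n a.1) * -1 + (n b.1 - n a.1) + (M - n b.1) * 1 = 0 by ring] at this
  choose u' hu' using fun a b => jou_mem (F := F) (hw a b)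
  let U : Matrix (Σ i, Fin (m i) → Fin N) ι (TT F) :=
    Matrix.of fun a i => if a.1 = i then Ideal.Quotient.mk _ (y a) else 0
  let V : Matrix ι (Σ i, Fin (m i) → Fin N) (TT F) :=
    Matrix.of fun i a => if a.1 = i then Ideal.Quotient.mk _ (x a) else 0
  have hVU : V * U = 1 := by
    ext i j
    rw [Matrix.mul_apply, Fintype.sum_sigma, Finset.sum_eq_single i, Matrix.one_apply]
    · split_ifs with e
      · simpa [U, V, e, x, y] using desc_sum F (m i)
      · simp [U, e]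
    · intro l _ e
      simp [V, e]
    · simp
  have e1 : (Matrix.of u').map (inc F) = U * u.map (Ideal.Quotient.mk (relJ F)) * V := by
    ext a b
    simp [Matrix.mul_apply, U, V, hu']
  obtain ⟨h1, v, h2⟩ := desc_abs (ST F) (psiT F) (psiT_even F) hVU h k
  refine ⟨_, inferInstance, inferInstance, Matrix.of u', ?_, v, ?_⟩
  · refine Matrix.map_injective (f := inc F) Subtype.val_injective ?_
    simp only [Matrix.map_mul, e1, h1]
  · rw [← h2, ← e1, (isDG_B F).chw]
    exact congrArg₂ _ rfl ((hom_ST F).ch k _)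

end Pool.Agent.Lib.MP_e9c0f3_ag.DR
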