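import Pool.Agent.Lib.MP_e9c0f3_ag.DR.KT

/-! The twisted complex of the pairing is exact below the top degree. -/

open MvPolynomial Sum

namespace Pool.Agent.Lib.MP_e9c0f3_ag.DR

open Om

variable {N : ℕ} {A : Type} [CommRing A] [Algebra ℂ A]

theorem kt3_pd (s : Fin N ⊕ Fin N) : pd s (ff N A) = X s.swap := by
  rw [pd_apply, ff, map_sum]
  cases s <;> simp [pderiv_X, Pi.single_apply]

theorem kt3_c (s : Fin N ⊕ Fin N) : c s (dx (of (ff N A) : OO N A)) = of (X s.swap) := by
  have := c_dO pd s (of (ff N A) : OO N A)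
  rwa [c_of, map_zero, add_zero, lie_of, kt3_pd] at this

theorem kt3_lie (s : Fin N ⊕ Fin N) : lie (pd s.swap) (dx (of (ff N A) : OO N A)) = e s := by
  have := lie_dO (P := pd) (D := pd s.swap) (fun t r => pd_comm _ _ r) (of (ff N A) : OO N A)
  rw [lie_of, kt3_pd, swap_swap] at this
  exact this.trans (dx_X s)

/-- The homotopy. -/
noncomputable def kt3_h : OO N A →ₗ[ℂ] OO N A := ∑ s, lie (pd s.swap) ∘ₗ c s

/-- The diagonal operator. -/
noncomputable def kt3_G : OO N A →ₗ[ℂ] OO N A :=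
  ∑ s, (LinearMap.id + LinearMap.mulLeft ℂ (of (X s)) ∘ₗ lie (pd s) -
    LinearMap.mulLeft ℂ (e s) ∘ₗ c s)

theorem kt3_G_apply (x : OO N A) : kt3_G x =
    (2 * N : ℤ) • x + ∑ s, of (X s) * lie (pd s) x - ∑ s, e s * c s x := by
  simp only [kt3_G, LinearMap.sum_apply, LinearMap.sub_apply, LinearMap.add_apply,
    LinearMap.id_apply, LinearMap.comp_apply, LinearMap.mulLeft_apply, Finset.sum_sub_distrib,
    Finset.sum_add_distrib, Finset.sum_const, Finset.card_univ, Fintype.card_sum,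
    Fintype.card_fin]
  rw [LinearMap.smul_apply, LinearMap.id_apply, ← natCast_zsmul]
  congr 3
  push_cast
  ring

theorem kt3_hom (x : OO N A) :
    kt3_h (dx (of (ff N A)) * x) + dx (of (ff N A)) * kt3_h x = kt3_G x := by
  have e1 : ∀ s : Fin N ⊕ Fin N, lie (pd s.swap) (c s (dx (of (ff N A)) * x)) +
      dx (of (ff N A)) * lie (pd s.swap) (c s x) =
      x + of (X s.swap) * lie (pd s.swap) x - e s * c s x := by
    intro s
    rw [c_mul, kt3_c, sg_dof, map_add, lie_mul, lie_mul, map_neg, kt3_lie, lie_of, pd_apply,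
      pderiv_X_self, map_one, one_mul, neg_mul, neg_mul]
    abel
  have e2 : ∑ s : Fin N ⊕ Fin N, of (X s.swap) * lie (pd s.swap) x =
      ∑ s, of (X s) * lie (pd s) x := by
    simp only [Fintype.sum_sum_type, swap_inl, swap_inr]
    exact add_comm _ _
  simp only [kt3_h, kt3_G, LinearMap.sum_apply, LinearMap.sub_apply, LinearMap.add_apply,
    LinearMap.id_apply, LinearMap.comp_apply, LinearMap.mulLeft_apply, Finset.mul_sum,
    ← Finset.sum_add_distrib, e1]
  simp only [Finset.sum_sub_distrib, Finset.sum_add_distrib, e2]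

theorem kt3_eigen {n : ℤ} {x : OO N A}
    (h : x ∈ Sp N A fun a b p q => a + b + 2 * N - p - q = n) : kt3_G x = n • x := by
  refine id2_eigen kt3_G n (fun a b p q y h1 h2 => ?_) h
  rw [kt3_G_apply, Fintype.sum_sum_type, Fintype.sum_sum_type,
    eu_x (n := a) (gr_mono (fun _ _ _ _ h => h.1) h2),
    eu_y (n := b) (gr_mono (fun _ _ _ _ h => h.2.1) h2),
    eu_dx (n := p) (gr_mono (fun _ _ _ _ h => h.2.2.1) h2),
    eu_dy (n := q) (gr_mono (fun _ _ _ _ h => h.2.2.2) h2), ← h1]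
  module

theorem kt3_koszul {m : ℤ} (hm : m + 1 < 2 * N) {y : OO N A}
    (hy : y ∈ Sp N A fun _ _ p q => p + q = m + 1) (h : dx (of (ff N A)) * y = 0) :
    ∃ z, dx (of (ff N A)) * z = y := by
  obtain ⟨s, hs⟩ := exists_sum_cut (fun a b p q => a + b + 2 * N - p - q) y
  change y ∈ LinearMap.range (LinearMap.mulLeft ℂ (dx (of (ff N A) : OO N A)))
  rw [hs]
  refine sum_mem fun j _ => ?_
  by_cases hj : j = 0
  · rw [Sp_eq_zero (cut_mem_of _ hy) fun _ _ _ _ _ _ _ _ _ _ h => by omega]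
    exact zero_mem _
  · have h1 := cut_mul_left (S := fun a b p q => a + b + 2 * N - p - q = j)
      (T := fun a b p q => a + b + 2 * N - p - q = j) (dff_mem (N := N) (A := A))
      (fun _ _ _ _ _ _ _ _ _ => by omega) y
    rw [h, map_zero] at h1
    have h2 := kt3_hom (cut (fun a b p q => a + b + 2 * N - p - q = j) y)
    rw [← h1, map_zero, zero_add, kt3_eigen (cut_mem _ y)] at h2
    refine ⟨(j : ℂ)⁻¹ • kt3_h (cut (fun a b p q => a + b + 2 * N - p - q = j) y), ?_⟩
    rw [map_smul, LinearMap.mulLeft_apply, h2, ← Int.cast_smul_eq_zsmul ℂ, smul_smul,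
      inv_mul_cancel₀ (Int.cast_ne_zero.2 hj), one_smul]

theorem kt3_DD (F : Pol N A) (z : OO N A) : pa F (pa F z + dx (of (ff N A)) * z) +
    dx (of (ff N A)) * (pa F z + dx (of (ff N A)) * z) = 0 := by
  rw [map_add, pa_pa, mul_add, dof_dof, pa_apply, pa_apply, dx_dof_mul, mul_add, xo, dof_anti]
  abel

theorem kt3_ind {F : Pol N A} {d : ℕ} (hF : F.IsHomogeneous d) {m : ℤ} (hm : m + 1 < 2 * N)
    (M : ℕ) : ∀ η ∈ Sp N A fun a b p q => p + q = m + 1 ∧ a + p + d * (b + q) < M,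
      pa F η + dx (of (ff N A)) * η = 0 →
      ∃ ζ ∈ Sp N A fun _ _ p q => p + q = m, η = pa F ζ + dx (of (ff N A)) * ζ := by
  induction M with
  | zero =>
    intro η hη _
    refine ⟨0, zero_mem _, ?_⟩
    rw [map_zero, mul_zero, add_zero]
    refine Sp_eq_zero hη fun a b p q _ _ _ _ _ _ h => ?_
    have := h.2
    have h0 : (0 : ℤ) ≤ a + p + d * (b + q) := by positivity
    simp only [Nat.cast_zero] at this
    omega
  | succ M ih =>
    intro η hη h
    have h1 := cut_mul_left (S := fun a b p q => a + p + d * (b + q) = M + d + 1)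
      (T := fun a b p q => a + p + d * (b + q) = M) (dff_mem (N := N) (A := A))
      (fun _ _ _ _ _ _ _ _ h => by
        rcases h with ⟨rfl, rfl, rfl, rfl⟩ | ⟨rfl, rfl, rfl, rfl⟩ <;>
          constructor <;> intro _ <;> linarith) η
    have h2 : cut (fun a b p q => a + p + d * (b + q) = M + d + 1) (pa F η) = 0 :=
      cut_of_not (pa_mem hF hη fun a b p q h => by
        have h3 := h.2
        have h4 : (0 : ℤ) ≤ d := Int.natCast_nonneg d
        push_cast at h3
        refine ⟨fun _ => ?_, fun _ => ?_, fun _ => ?_⟩ <;> linarith)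
    rw [eq_neg_of_add_eq_zero_right h, map_neg, h2, neg_zero] at h1
    have h3 := cut_mem_of (fun a b p q => a + p + d * (b + q) = M) hη
    obtain ⟨z, hz⟩ := kt3_koszul hm (gr_mono (fun _ _ _ _ h => h.2.1) h3) h1.symm
    have h4 := cut_mul_left (S := fun a b p q => p + q = m + 1 ∧ a + p + d * (b + q) = M)
      (T := fun a b p q => p + q = m ∧ a + p + d * (b + q) = M - d - 1)
      (dff_mem (N := N) (A := A))
      (fun _ _ _ _ _ _ _ _ h => by
        rcases h with ⟨rfl, rfl, rfl, rfl⟩ | ⟨rfl, rfl, rfl, rfl⟩ <;>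
          constructor <;> rintro ⟨_, _⟩ <;> constructor <;> linarith) z
    rw [hz, cut_of_mem (gr_mono (fun _ _ _ _ h => ⟨h.2.1, h.1⟩) h3)] at h4
    have h5 := cut_mem (fun a b p q => p + q = m ∧ a + p + d * (b + q) = M - d - 1) z
    generalize cut (fun a b p q => p + q = m ∧ a + p + d * (b + q) = M - d - 1) z = w at h4 h5
    obtain ⟨ζ, hζ, h6⟩ := ih (η - (pa F w + dx (of (ff N A)) * w)) (by
      rw [← h4, add_comm (pa F w), ← sub_sub]
      refine sub_mem ?_ (pa_mem hF h5 fun a b p q h => ?_)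
      · refine gr_mono (fun a b p q h => ⟨h.2.1, ?_⟩) (sub_cut_mem_of _ hη)
        have h7 := h.1
        have h8 := h.2.2
        push_cast at h8
        omega
      · have h4 : (0 : ℤ) ≤ d := Int.natCast_nonneg d
        obtain ⟨h7, h8⟩ := h
        refine ⟨⟨?_, ?_⟩, ⟨?_, ?_⟩, ?_, ?_⟩ <;> linarith) (by
      have := kt3_DD F w
      rw [map_sub, mul_sub, sub_add_sub_comm, h, this, sub_zero])
    refine ⟨ζ + w, add_mem hζ (gr_mono (fun _ _ _ _ h => h.1) h5), ?_⟩
    rw [map_add, mul_add, add_add_add_comm, ← h6, sub_add_cancel]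

theorem twisted_exact_tot {F : Pol N A} {d : ℕ} (hF : F.IsHomogeneous d) {m : ℤ}
    (hm : m + 1 < 2 * N) {η : OO N A} (hη : η ∈ Sp N A fun _ _ p q => p + q = m + 1)
    (h : pa F η + dx (of (ff N A)) * η = 0) :
    ∃ ζ ∈ Sp N A fun _ _ p q => p + q = m, η = pa F ζ + dx (of (ff N A)) * ζ := by
  obtain ⟨M, hM⟩ := Sp_bdd η
  refine kt3_ind hF hm (M + N + d * (M + N) + 1) η
    (Sp_mono (Sp_inf hη hM) fun a b p q _ _ _ hp _ hq h => ⟨h.1, ?_⟩) h
  obtain ⟨-, h1, h2⟩ := h
  have h3 : (p : ℤ) ≤ N := by exact_mod_cast hp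
  have h4 : (q : ℤ) ≤ N := by exact_mod_cast hq
  have h5 : (d : ℤ) * (b + q) ≤ d * (M + N) :=
    mul_le_mul_of_nonneg_left (by linarith) (Int.natCast_nonneg d)
  push_cast
  linarith

end Pool.Agent.Lib.MP_e9c0f3_ag.DR
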