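import Pool.Agent.Lib.MP_e9c0f3_ag.DR.Red
import Pool.Agent.Lib.MP_e9c0f3_ag.DR.KT3

/-! Reduction of forms on `∑ x y = 1` to forms in `x`, without filtration. -/

open MvPolynomial Sum

namespace Pool.Agent.Lib.MP_e9c0f3_ag.DR

open Om

variable {N : ℕ} {A : Type} [CommRing A] [Algebra ℂ A] [IsDomain A]

theorem red_exists_tot (hN : 2 ≤ N) {F : Pol N A} {d : ℕ} (hF : F.IsHomogeneous d) {x : OO N A}
    (hx : x ∈ Sp N A fun _ _ p q => p + q = N) (h : pa F x ∈ II N A) :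
    ∃ (P : Pol N A) (η : OO N A), x - xo P * vol N A - pa F η ∈ II N A := by
  obtain ⟨w₀, hw⟩ := exists_normal (fun a b p q h => by omega) hx
  obtain ⟨κ, hκ, h0, hI⟩ := hw (w₀ + 1) (Nat.le_succ _)
  have hw1 : (1 : ℤ) ≤ (w₀ + 1 : ℕ) := by omega
  generalize w₀ + 1 = w at hκ hw1
  have hκw : κ ∈ Sp N A fun _ b _ q => b + q = w := gr_mono (fun a b p q h => h.2) hκ
  have h1 : (0 : OO N A) - pa F κ ∈ II N A := by
    have := sub_mem (pa_II F hI) h
    rw [map_sub] at this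
    convert this using 1
    abel
  have h2 := red_normal (by omega) hF hκw h0 (zero_mem _) h1
  rw [mul_zero, mul_zero] at h2
  have h3 : pa F κ ∈ Sp N A fun _ _ p q => p + q = N + 1 :=
    pa_mem hF hκ fun a b p q h => by omega
  obtain ⟨ζ, hζ, e⟩ := twisted_exact_tot hF (by omega) h3 (by rw [pa_pa, h2, add_zero])
  obtain ⟨Θ, hΘ1, -, hΘ3⟩ := red_theta (N := N) (A := A) hF
  obtain ⟨u, hu, hu'⟩ := hΘ1 w
  have h4 := red_pa_wt hF (Q := fun v => v = w) hκw
  have h5 := hΘ3 ζ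
  rw [← e, hu' _ h4, red_iw_pa F hκw, h0, map_zero, sub_zero, smul_smul] at h5
  have hc : u * ((w : ℤ) : ℂ) ≠ 0 := mul_ne_zero hu (Int.cast_ne_zero.2 (by omega))
  generalize u * ((w : ℤ) : ℂ) = v at h5 hc
  have h6 : v⁻¹ • cut (fun _ b _ q => b + q = 0) ζ ∈
      Sp N A fun _ b p q => b = 0 ∧ p = N ∧ q = 0 :=
    Submodule.smul_mem _ _ (Sp_mono (cut_mem_of _ hζ) fun a b p q _ _ _ _ _ _ h => by omega)
  obtain ⟨P, -, hP⟩ := top_eq h6
  refine ⟨P, -(v⁻¹ • Θ ζ), ?_⟩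
  have := add_mem hI (smul_II v⁻¹ h5)
  rw [smul_sub, smul_add, smul_smul, inv_mul_cancel₀ hc, one_smul] at this
  rw [← hP, map_neg, map_smul]
  convert this using 1
  abel

theorem red_unique_tot (hN : 0 < N) {F P : Pol N A} {d : ℕ} (hF : F.IsHomogeneous d)
    {η : OO N A} (h : xo P * vol N A - pa F η ∈ II N A) : Exact F P := by
  have hV := xo_vol_mem (N := N) P
  have hV' := pa_xo_vol F P
  have h1 := cut_II (fun n _ => n = N) h
  rw [map_sub, cut_of_mem (gr_mono (fun a b p q h => by omega) hV), red_cut_pa hF] at h1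
  obtain ⟨w, hw⟩ := exists_normal (fun a b p q h => by omega)
    (cut_mem (fun _ _ p q => p + q = N - 1) η)
  obtain ⟨κ, hκ, h0, hI⟩ := hw (w + 1) (Nat.le_succ _)
  have hκw : κ ∈ Sp N A fun _ b _ q => b + q = (w + 1 : ℕ) := gr_mono (fun a b p q h => h.2) hκ
  have h2 : xo P * vol N A - pa F κ ∈ II N A := by
    have := add_mem h1 (pa_II F hI)
    rwa [map_sub, sub_add_sub_cancel] at this
  have h3 := red_normal hN hF hκw h0 (gr_mono (fun a b p q h => by omega) hV) h2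
  obtain ⟨G, hG, hG0, u, hu⟩ := red_extend (S := fun p q => p + q = N - 1 + 1)
    (gr_mono (fun a b p q h => by omega) hV) hV' (w + 1)
  have h4 : G - u • pa F κ ∈ Sp N A fun _ _ p q => p + q = N - 1 + 1 :=
    sub_mem hG (Submodule.smul_mem _ _ (pa_mem hF hκ fun a b p q h => by omega))
  obtain ⟨ζ, -, e⟩ := twisted_exact_tot hF (by omega) h4 (by
    rw [map_sub, map_smul, pa_pa, smul_zero, sub_zero, mul_sub, mul_smul_comm, h3, ← hu]
    abel)
  have h6 := red_cut_zero hF ζ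
  rw [← e, map_sub, map_smul, hG0, cut_of_not (gr_mono (fun a b p q h => by omega)
    (red_pa_wt hF (Q := fun v => v = (w + 1 : ℕ)) hκw)), smul_zero, sub_zero] at h6
  exact exact_of_top (Sp_mono (cut_mem _ ζ) fun a b p q _ _ _ _ _ _ h => by omega) h6.symm hN

end Pool.Agent.Lib.MP_e9c0f3_ag.DR
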