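import Pool.Agent.Lib.MP_e9c0f3_ag.DR.Psi
import Pool.Agent.Lib.MP_e9c0f3_ag.DR.Red2

/-! Representatives without a condition on the primitive. -/

open MvPolynomial Sum

namespace Pool.Agent.Lib.MP_e9c0f3_ag.DR

open Om

variable {N : ℕ} {A A' : Type} [CommRing A] [Algebra ℂ A] [CommRing A'] [Algebra ℂ A']

/-- The polynomial `P` represents the class of `ω` in the Griffiths-Dwork module. -/
def Rp (F : Pol N A) (ω : OO N A) (P : Pol N A) : Prop :=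
  ∃ ξ η, IsPsi F ω ξ ∧ ξ - xo P * vol N A - pa F η ∈ II N A

variable {F P P' : Pol N A} {ω ω' : OO N A}

theorem Rep.rp (h : Rep F ω P) : Rp F ω P := by
  obtain ⟨ξ, η, h1, -, h3⟩ := h
  exact ⟨ξ, η, h1, h3⟩

theorem Rp.sub (h : Rp F ω P) (h' : Rp F ω' P') : Rp F (ω - ω') (P - P') := by
  obtain ⟨ξ, η, h1, h3⟩ := h
  obtain ⟨ξ', η', h1', h3'⟩ := h'
  refine ⟨ξ - ξ', η - η', ?_, ?_⟩
  · have := (II N A).sub_mem h1 h1'
    unfold IsPsi
    convert this using 1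
    rw [map_sub, mul_sub, mul_sub]
    abel
  · have := (II N A).sub_mem h3 h3'
    convert this using 1
    rw [xo, xo, xo, map_sub, map_sub, map_sub, sub_mul]
    abel

theorem Rp.congr (h : Rp F ω P) {η : OO N A} (e : ω - ω' - dx η ∈ JJ F) : Rp F ω' P := by
  obtain ⟨ξ, ζ, h1, h3⟩ := h
  obtain ⟨a, b, h4⟩ := mem_JJ.1 e
  have h5 := psi_step h4
  rw [map_sub, map_sub, dx_dx, sub_zero, mul_sub] at h5
  refine ⟨ξ - dx (xo F) * dx a, ζ + dx (xo F) * a, ?_, ?_⟩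
  · have := (II N A).add_mem h1 h5
    unfold IsPsi
    convert this using 1
    rw [mul_sub]
    abel
  · convert h3 using 1
    rw [map_add, psi_pa]
    abel

theorem Rp.of_exact (h : Rp F ω P) (hP : Exact F (P - P')) : Rp F ω P' := by
  obtain ⟨ξ, η, h1, h3⟩ := h
  obtain ⟨z, -, hz⟩ := top_of_exact hP
  refine ⟨ξ, z + η, h1, ?_⟩
  convert h3 using 1
  rw [map_add, hz, xo, xo, xo, map_sub, map_sub, sub_mul]
  abel

theorem Rp.map (h : Rp F ω P) (s : A →ₐ[ℂ] A') :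
    Rp (map (s : A →+* A') F) (mapc (mapAlgHom (σ := Fin N ⊕ Fin N) s) ω)
      (map (s : A →+* A') P) := by
  obtain ⟨ξ, η, h1, h3⟩ := h
  refine ⟨mapc (mapAlgHom (σ := Fin N ⊕ Fin N) s) ξ, mapc (mapAlgHom (σ := Fin N ⊕ Fin N) s) η,
    ?_, ?_⟩
  · have := mapc_II s h1
    rwa [map_sub, map_mul, map_mul, mapc_dx, mapc_dx, mapc_xo] at this
  · have := mapc_II s h3
    rwa [map_sub, map_sub, map_mul, mapc_xo, mapc_vol, pa_apply, map_add, map_mul, mapc_dx,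
      mapc_dx, mapc_xo, ← pa_apply] at this

theorem Rp.psi_exact (h : Rp F ω P) (hP : Exact F P) :
    ∃ ξ η, IsPsi F ω ξ ∧ ξ - pa F η ∈ II N A := by
  obtain ⟨ξ, η, h1, h3⟩ := h.of_exact (P' := 0) (by rwa [sub_zero])
  refine ⟨ξ, η, h1, ?_⟩
  rwa [xo, map_zero, map_zero, zero_mul, sub_zero] at h3

variable [IsDomain A]

theorem Rp.exact (hN : 0 < N) (hF : F ≠ 0) {d : ℕ} (hd : F.IsHomogeneous d) (h : Rp F ω P)
    {η : OO N A} (e : ω - dx η ∈ JJ F) : Exact F P := by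
  obtain ⟨ξ, ζ, h1, h3⟩ := h.congr (ω' := 0) (η := η) (by rwa [sub_zero])
  unfold IsPsi at h1
  rw [map_zero, mul_zero, sub_zero] at h1
  refine red_unique_tot hN hd (η := -ζ) ?_
  have := (II N A).sub_mem (reg_II hN hF h1) h3
  convert this using 1
  rw [map_neg]
  abel

theorem rp_exists (hN : 2 ≤ N) (hF : F ≠ 0) {d : ℕ} (hd : F.IsHomogeneous d) {m : ℤ}
    (hm : m + 2 = N) (hω : ω ∈ Sp N A fun a b p q => p + q = m ∧ a + p - b - q = 0)
    (h : dx ω ∈ JJ F) : ∃ P : Pol N A, Rp F ω P := by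
  have h0 : 0 < N := by omega
  obtain ⟨α, β, h1⟩ := mem_JJ.1 h
  obtain ⟨ξ, h2, h3⟩ := (isPsi_of h1).weight h0 hF hd hω
  have h4 := psi_of_sub (isPsi_of h1) h3
  obtain ⟨P, η, h5⟩ := red_exists_tot hN hd
    (Sp_mono h2 fun _ _ _ _ _ _ _ _ _ _ h => by omega) (h4.closed h0 hF h)
  exact ⟨P, ξ, η, h4, h5⟩

end Pool.Agent.Lib.MP_e9c0f3_ag.DR
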