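import Pool.Agent.Lib.MP_e9c0f3_ag.DR.GM2
import Pool.Agent.Lib.MP_e9c0f3_ag.DR.Psi2

/-! Flat sections have flat representatives, without a condition on the filtration. -/

open MvPolynomial Sum

namespace Pool.Agent.Lib.MP_e9c0f3_ag.DR

open Om

variable {N : ℕ} {A : Type} [CommRing A] [Algebra ℂ A]

theorem rp_flat_aux [IsDomain A] (hN : 0 < N) {F P F' P' : Pol N A} (hF : F ≠ 0) {d : ℕ}
    (hd : F.IsHomogeneous d) {E : Derivation ℂ (RR N A) (RR N A)} (hX : ∀ s, E (X s) = 0)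
    (hE : ∀ s r, E (pd s r) = pd s (E r))
    (hF' : E (rename inl F) = rename inl F') (hP' : E (rename inl P) = rename inl P')
    {x x₁ α β α₁ β₁ : OO N A} (h : Rp F x P)
    (h0 : dx x - (xo F * α + dx (xo F) * β) ∈ II N A)
    (h1 : lie E x - dx x₁ - (xo F * α₁ + xo F' * β - dx (xo F) * β₁) ∈ II N A) :
    Exact F (P' + F' * P) := by
  obtain ⟨ξ, η, hξ, hr⟩ := h
  have e1 : lie E (xo F) = xo F' := by rw [xo, lie_of, hF', xo]
  have e2 : lie E (xo P) = xo P' := by rw [xo, lie_of, hP', xo]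
  have e3 : xo (P' + F' * P) = xo P' + xo F' * xo P := by
    simp only [xo, map_add, map_mul]
  have key := gm2_key hN hF hX hE hF' h0 h1
  have h4 : dx (xo F) * α - xo P * vol N A - pa F η ∈ II N A := by
    convert (II N A).sub_mem hr (IsPsi.unique hN hF hξ (isPsi_of h0)) using 1
    abel
  have h5 := gm2_lie_II hX hE h4
  rw [map_sub, map_sub, pa_apply, map_add, lie_mul, lie_mul, lie_mul, gm2_lie_dx hE, gm2_lie_dx hE,
    e1, e2, lie_vol] at h5
  have h6 := (II N A).mul_mem_left (xo F') h4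
  refine red_unique_tot (η := xo F' * α - dx (xo F) * α₁ - (lie E η + xo F' * η)) hN hd ?_
  convert (II N A).sub_mem ((II N A).sub_mem key h5) h6 using 1
  simp only [e3, pa_apply, map_sub, map_add, gm2_dx_xo_mul, gm2_dx_dxo_mul, mul_sub, mul_add,
    add_mul, mul_assoc, mul_zero, gm2_dxo_dxo, gm2_comm F' (dx (xo F))]
  abel

theorem rp_flat [IsDomain A] (hN : 0 < N) {F P : Pol N A} (hF : F ≠ 0) {d : ℕ}
    (hd : F.IsHomogeneous d) {ω η : Form (Jou F)} (hD : IsD ω η) (hη : η ∈ base 2 F)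
    {x : OO N A} (hx : Ideal.Quotient.mk _ x = phiB F ω)
    (h : Rp F x P) (D : Derivation ℂ A A) : Exact F (coeffMap D P + coeffMap D F * P) := by
  obtain ⟨E, h1, -, h3, h4⟩ := exists_coefD (N := N) D
  obtain ⟨x₁, α, β, α₁, β₁, h5, h6⟩ := gm_lift h1 h3 hD hη hx
  rw [h4] at h6
  exact rp_flat_aux hN hF hd h1 h3 (h4 F) (h4 P) h h5 h6

end Pool.Agent.Lib.MP_e9c0f3_ag.DR
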