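import Pool.Agent.Lib.MP_e9c0f3_ag.DR.Ker

/-! The kernel lemma. -/

open MvPolynomial Sum

namespace Pool.Agent.Lib.MP_e9c0f3_ag.DR

open Om

variable {N : ℕ} {A : Type} [CommRing A] [Algebra ℂ A]

theorem ker2_xo_comm (F : Pol N A) (y : OO N A) :
    dx (xo F) * (xo F * y) = xo F * (dx (xo F) * y) := by
  rw [← mul_assoc, ← mul_assoc, xo, id_mul_of]

theorem ker2_dx_xo_mul (F : Pol N A) (y : OO N A) :
    dx (xo F * y) = dx (xo F) * y + xo F * dx y := dx_of_mul _ _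

theorem ker2_dx_dxo_mul (F : Pol N A) (y : OO N A) :
    dx (dx (xo F) * y) = -(dx (xo F) * dx y) := dx_dof_mul _ _

theorem ker2_dxo_dxo (F : Pol N A) (y : OO N A) : dx (xo F) * (dx (xo F) * y) = 0 :=
  dof_dof _ _

/-- A closed multiple. -/
theorem ker2_closed [IsDomain A] (hN : 0 < N) {F : Pol N A} {d : ℕ} (hF0 : F ≠ 0)
    (hF : F.IsHomogeneous d) {x u a b : OO N A}
    (hx : x ∈ Sp N A fun a b p q => a + p - b - q = 0)
    (h1 : dx x - dx (xo F) * u ∈ II N A) (h2 : iv x - (xo F * a + dx (xo F) * b) ∈ II N A) :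
    dx (d • x - dx (xo F) * a) ∈ II N A := by
  have h0 : iv (dx x) + dx (iv x) = 0 := by rw [eu_v hx, zero_smul]
  have h3 := iv_II h1
  have e3 : iv (dx (xo F) * u) = iv (dx (xo F)) * u - dx (xo F) * iv u := id2_iv_dof_mul _ _
  rw [map_sub, e3, iv_dxo hF] at h3
  have h4 := dx_II h2
  rw [map_sub, map_add, ker2_dx_xo_mul, ker2_dx_dxo_mul] at h4
  have h5 := (II N A).mul_mem_left (dx (xo F)) ((II N A).neg_mem ((II N A).add_mem h3 h4))
  have e5 : -(iv (dx x) - (d • xo F * u - dx (xo F) * iv u) +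
      (dx (iv x) - (dx (xo F) * a + xo F * dx a + -(dx (xo F) * dx b)))) =
      xo F * (d • u + dx a) + dx (xo F) * (a - iv u - dx b) - (iv (dx x) + dx (iv x)) := by
    rw [smul_mul_assoc, mul_add, mul_sub, mul_sub, mul_smul_comm]
    abel
  rw [e5, h0, sub_zero, mul_add, ker2_dxo_dxo, add_zero, ker2_xo_comm] at h5
  have h6 := reg_II hN hF0 h5
  have h7 := (II N A).add_mem (nsmul_mem h1 d) h6
  have e7 : d • (dx x - dx (xo F) * u) + dx (xo F) * (d • u + dx a) =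
      dx (d • x - dx (xo F) * a) := by
    rw [map_sub, map_nsmul, ker2_dx_dxo_mul, smul_sub, mul_add, mul_smul_comm]
    abel
  rwa [e7] at h7

/-- Cut a closed form congruent to a multiple of `x`. -/
theorem ker2_final [IsDomain A] (hN : 0 < N) {F : Pol N A} {d : ℕ} (hd : 1 ≤ d)
    (hF : F.IsHomogeneous d) {m : ℤ} (hm : m + 2 ≤ N) {x κ : OO N A}
    (hx : x ∈ Sp N A fun a b p q => p + q = m ∧ a + p - b - q = 0) (h1 : dx κ ∈ II N A)
    (h2 : d • x - κ ∈ JJ F) :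
    ∃ z ∈ Sp N A fun a b p q => p + q = m - 1 ∧ a + p - b - q = 0, ∃ t : A,
      x - dx z - of (C t) ∈ JJ F ∧ (m ≠ 0 → t = 0) := by
  have h3 := cut_II (fun n v => n - 1 = m ∧ v = 0) h1
  rw [cut_dx (fun n v => n - 1 = m ∧ v = 0)] at h3
  simp only [add_sub_cancel_right] at h3
  have h4 := cut_JJ hF (fun n v => n = m ∧ v = 0) h2
  rw [map_sub, map_nsmul, cut_of_mem hx] at h4
  obtain ⟨z, hz, t, h5, ht⟩ := red_plain hN hm (cut_mem _ κ) h3
  have hd0 : (d : ℂ) ≠ 0 := Nat.cast_ne_zero.2 (by omega)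
  refine ⟨(d : ℂ)⁻¹ • z, Submodule.smul_mem _ _ hz, (d : ℂ)⁻¹ • t, ?_, fun h => by
    rw [ht h, smul_zero]⟩
  have h6 := smul_JJ (d : ℂ)⁻¹ ((JJ F).add_mem h4 (II_le_JJ F h5))
  have e1 : (C ((d : ℂ)⁻¹ • t) : RR N A) = (d : ℂ)⁻¹ • C t := by
    rw [C_apply, C_apply, smul_monomial]
  have e2 : (d : ℂ)⁻¹ • d • x = x := by
    rw [← Nat.cast_smul_eq_nsmul ℂ, smul_smul, inv_mul_cancel₀ hd0, one_smul]
  rw [sub_sub, sub_add_sub_cancel, smul_sub, smul_add, e2] at h6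
  rwa [e1, map_smul, map_smul, sub_sub]

theorem kernel [IsDomain A] (hN : 0 < N) {F : Pol N A} {d : ℕ} (hd : 1 ≤ d) (hF0 : F ≠ 0)
    (hF : F.IsHomogeneous d) (hi : Isol F) {m : ℤ} (hm : m + 2 ≤ N) {x ξ η : OO N A}
    (hx : x ∈ Sp N A fun a b p q => p + q = m ∧ a + p - b - q = 0) (hc : dx x ∈ JJ F)
    (hb : iv x ∈ JJ F) (hξ : IsPsi F x ξ) (h : ξ - pa F η ∈ II N A) :
    ∃ z ∈ Sp N A fun a b p q => p + q = m - 1 ∧ a + p - b - q = 0, ∃ t : A,
      x - dx z - of (C t) ∈ JJ F ∧ (m ≠ 0 → t = 0) := by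
  obtain ⟨α, β, h0⟩ := mem_JJ.1 hc
  obtain ⟨a0, b0, h1⟩ := mem_JJ.1 hb
  obtain ⟨ξ', hξw, hξ'⟩ := hξ.weight hN hF0 hF hx
  have h2 : ξ - dx (xo F) * α ∈ II N A := hξ.unique hN hF0 (isPsi_of h0)
  have h3 : ξ' - pa F η ∈ II N A := by
    have h3 := (II N A).sub_mem h hξ'
    rwa [show ξ - pa F η - (ξ - ξ') = ξ' - pa F η by abel] at h3
  obtain ⟨η', hηw, h4, h5⟩ :=
    weight_zero hd hF hi (Sp_mono hξw fun _ _ _ _ _ _ _ _ _ _ h => h.2) h3
  obtain ⟨L, hL1, hL2, hL3⟩ := exists_xi hF hi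
  have hL : ∀ y, dx (xo F) * y ∈ II N A → y - dx (xo F) * L y ∈ II N A := by
    intro y hy
    have h6 := (II N A).sub_mem (hL1 _ hy) (hL2 y)
    rwa [show L (dx (xo F) * y) - (L (dx (xo F) * y) + dx (xo F) * L y - y) =
      y - dx (xo F) * L y by abel] at h6
  have ha : L η' ∈ Sp N A fun a b p q => a + p - b - q + d = 0 := hL3 (fun _ v => v = 0) η' hηw
  have h6 := dx_II (hL _ h5)
  rw [map_sub, ker2_dx_dxo_mul] at h6
  generalize L η' = a at ha h6
  have h7 : dx (xo F) * (α + dx a) ∈ II N A := by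
    have h7 := (II N A).add_mem ((II N A).add_mem ((II N A).sub_mem hξ' h2) h4) h6
    rwa [show ξ - ξ' - (ξ - dx (xo F) * α) + (ξ' - dx η') + (dx η' - -(dx (xo F) * dx a)) =
      dx (xo F) * (α + dx a) by rw [mul_add]; abel] at h7
  have h8 := hL _ h7
  generalize L (α + dx a) = b at h8
  have hx' : x + xo F * a ∈ Sp N A fun a b p q => a + p - b - q = 0 := by
    refine add_mem (Sp_mono hx fun _ _ _ _ _ _ _ _ _ _ h => h.2) (Sp_mul (id2_xo hF) ha ?_)
    intro a b p q a' b' p' q' h h'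
    omega
  have h9 : dx (x + xo F * a) - dx (xo F) * (a + xo F * b + β) ∈ II N A := by
    have h9 := (II N A).add_mem h0 ((II N A).mul_mem_left (xo F) h8)
    rwa [show dx x - (xo F * α + dx (xo F) * β) + xo F * (α + dx a - dx (xo F) * b) =
      dx (x + xo F * a) - dx (xo F) * (a + xo F * b + β) by
        rw [map_add, ker2_dx_xo_mul, mul_sub, mul_add, mul_add, mul_add, ker2_xo_comm]
        abel] at h9
  have h10 : iv (x + xo F * a) - (xo F * (a0 + iv a) + dx (xo F) * b0) ∈ II N A := by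
    have e : iv (xo F * a) = xo F * iv a := id2_iv_of_mul _ _
    rwa [map_add, e, show iv x + xo F * iv a - (xo F * (a0 + iv a) + dx (xo F) * b0) =
      iv x - (xo F * a0 + dx (xo F) * b0) by rw [mul_add]; abel]
  refine ker2_final hN hd hF hm hx (ker2_closed hN hF0 hF hx' h9 h10) ?_
  have h11 := (JJ F).sub_mem (dxo_mul_JJ F (a0 + iv a)) (nsmul_mem (xo_mul_JJ F a) d)
  rwa [show dx (xo F) * (a0 + iv a) - d • (xo F * a) =
    d • x - (d • (x + xo F * a) - dx (xo F) * (a0 + iv a)) by rw [smul_add]; abel] at h11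

end Pool.Agent.Lib.MP_e9c0f3_ag.DR
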