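import Pool.Agent.Lib.MP_e9c0f3_ag.DR.Red

/-! Vanishing of twisted cohomology below the top degree. -/

open MvPolynomial Sum

namespace Pool.Agent.Lib.MP_e9c0f3_ag.DR

open Om

section general

variable {R σ : Type} [CommRing R] [Algebra ℂ R]

theorem kos_ker (K : Ideal R) (x : Om R σ) :
    x ∈ Ideal.map (of : R →ₐ[ℂ] Om R σ) K ↔ mapc (Ideal.Quotient.mkₐ ℂ K) x = 0 := by
  have h := Algebra.TensorProduct.rTensor_ker (R := ℂ) (C := La σ) (Ideal.Quotient.mkₐ ℂ K)
    (Ideal.Quotient.mkₐ_surjective ℂ K)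
  have h0 : RingHom.ker (Ideal.Quotient.mkₐ ℂ K) = K := Ideal.Quotient.mkₐ_ker ℂ K
  rw [h0] at h
  have h1 : (mapc (Ideal.Quotient.mkₐ ℂ K) : Om R σ →ₐ[ℂ] Om (R ⧸ K) σ) =
      Algebra.TensorProduct.map (Ideal.Quotient.mkₐ ℂ K) (AlgHom.id ℂ (La σ)) := by
    rw [mapc, mp, ExteriorAlgebra.map_id]
  rw [h1]
  exact (SetLike.ext_iff.1 h x).symm

theorem kos_reg [Fintype σ] [DecidableEq σ] {K : Ideal R} {r : R}
    (hr : ∀ a, r * a ∈ K → a ∈ K) {x : Om R σ}
    (h : of r * x ∈ Ideal.map (of : R →ₐ[ℂ] Om R σ) K) :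
    x ∈ Ideal.map (of : R →ₐ[ℂ] Om R σ) K := by
  rw [kos_ker] at h ⊢
  rw [map_mul, mapc_of] at h
  have h1 : ∀ a : R ⧸ K, Ideal.Quotient.mkₐ ℂ K r * a = 0 → a = 0 := fun a ha => by
    obtain ⟨a, rfl⟩ := Ideal.Quotient.mkₐ_surjective ℂ K a
    rw [← map_mul] at ha
    exact Ideal.Quotient.eq_zero_iff_mem.2 (hr a (Ideal.Quotient.eq_zero_iff_mem.1 ha))
  have h2 : Ideal.Quotient.mkₐ ℂ K r ∈ nonZeroDivisors (R ⧸ K) :=
    mem_nonZeroDivisors_iff.2 ⟨h1, fun a ha => h1 a (by rwa [mul_comm] at ha)⟩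
  exact of_mul_eq_zero h2 h

theorem kos_c {K : Ideal R} (s : σ) {x : Om R σ}
    (h : x ∈ Ideal.map (of : R →ₐ[ℂ] Om R σ) K) :
    c s x ∈ Ideal.map (of : R →ₐ[ℂ] Om R σ) K := by
  have key : ∀ y, c s (y * x) ∈ Ideal.map (of : R →ₐ[ℂ] Om R σ) K := by
    induction h using Submodule.span_induction with
    | mem x hx =>
      obtain ⟨k, hk, rfl⟩ := hx
      intro y
      rw [← of_comm, c_of_mul, of_comm]
      exact Ideal.mul_mem_left _ _ (Ideal.mem_map_of_mem _ hk)
    | zero =>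
      intro y
      rw [mul_zero, map_zero]
      exact zero_mem _
    | add x z _ _ hx hz =>
      intro y
      rw [mul_add, map_add]
      exact add_mem (hx y) (hz y)
    | smul r x _ hx =>
      intro y
      rw [smul_eq_mul, ← mul_assoc]
      exact hx _
  simpa only [one_mul] using key 1

theorem kos_split {r : R} {T : Set R} {x : Om R σ}
    (h : x ∈ Ideal.map (of : R →ₐ[ℂ] Om R σ) (Ideal.span (insert r T))) :
    ∃ z, x - of r * z ∈ Ideal.map (of : R →ₐ[ℂ] Om R σ) (Ideal.span T) := by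
  rw [Ideal.span_insert, Ideal.map_sup, Ideal.map_span, Set.image_singleton] at h
  obtain ⟨a, ha, b, hb, rfl⟩ := Submodule.mem_sup.1 h
  obtain ⟨z, rfl⟩ := Ideal.mem_span_singleton'.1 ha
  exact ⟨z, by rwa [of_comm, add_sub_cancel_left]⟩

variable [DecidableEq σ] {N : ℕ}

/-- The one-form with coefficients `u` along a list of indices. -/
noncomputable def kos_om (ι : Fin N → σ) (u : Fin N → R) (l : List (Fin N)) : Om R σ :=
  (l.map fun i => of (u i) * e (ι i)).sum

/-- Iterated contraction. -/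
noncomputable def kos_cl (ι : Fin N → σ) : List (Fin N) → Om R σ → Om R σ
  | [], x => x
  | k :: l, x => kos_cl ι l (c (ι k) x)

theorem kos_om_cons (ι : Fin N → σ) (u : Fin N → R) (k : Fin N) (l : List (Fin N)) :
    kos_om ι u (k :: l) = of (u k) * e (ι k) + kos_om ι u l := by
  rw [kos_om, kos_om, List.map_cons, List.sum_cons]

theorem kos_sg_om (ι : Fin N → σ) (u : Fin N → R) (l : List (Fin N)) :
    sg (kos_om ι u l) = -kos_om ι u l := by
  induction l with
  | nil => simp [kos_om]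
  | cons k l ih => rw [kos_om_cons, map_add, map_mul, sg_of, sg_e, ih, mul_neg, neg_add]

theorem kos_c_om {ι : Fin N → σ} (hι : Function.Injective ι) (u : Fin N → R) {k : Fin N}
    {l : List (Fin N)} (hk : k ∉ l) : c (ι k) (kos_om ι u l) = 0 := by
  induction l with
  | nil => simp [kos_om]
  | cons j l ih =>
    rw [kos_om_cons, map_add, c_of_mul, c_e, ih fun h => hk (List.mem_cons_of_mem _ h),
      if_neg fun h => hk (by rw [hι h]; exact List.mem_cons_self), mul_zero, add_zero]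

theorem kos_aux [Fintype σ] {ι : Fin N → σ} (hι : Function.Injective ι) {u : Fin N → R}
    (hu : RegAll u) (l : List (Fin N)) (hl : l.Nodup) :
    ∀ (T : Finset (Fin N)), (∀ k ∈ l, k ∉ T) → ∀ x : Om R σ, kos_cl ι l x = 0 →
      kos_om ι u l * x ∈ Ideal.map (of : R →ₐ[ℂ] Om R σ) (Ideal.span (u '' T)) →
      ∃ y, x - kos_om ι u l * y ∈ Ideal.map (of : R →ₐ[ℂ] Om R σ) (Ideal.span (u '' T)) := by
  induction l with
  | nil =>
    intro T _ x h0 _
    refine ⟨0, ?_⟩
    rw [show x = 0 from h0, mul_zero, sub_zero]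
    exact zero_mem _
  | cons k l ih =>
    intro T hT x h0 h
    obtain ⟨hk, hl⟩ := List.nodup_cons.1 hl
    have hkT : k ∉ T := hT k List.mem_cons_self
    have h1 : c (ι k) (kos_om ι u (k :: l) * x) =
        of (u k) * c (ι k) (e (ι k) * x) - kos_om ι u l * c (ι k) x := by
      rw [kos_om_cons, add_mul, map_add, mul_assoc, c_of_mul, c_mul _ (kos_om ι u l),
        kos_c_om hι u hk, zero_mul, zero_add, kos_sg_om, neg_mul, sub_eq_add_neg]
    have h2 := kos_c (ι k) h
    rw [h1] at h2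
    have hle : Ideal.map (of : R →ₐ[ℂ] Om R σ) (Ideal.span (u '' T)) ≤
        Ideal.map (of : R →ₐ[ℂ] Om R σ) (Ideal.span (u '' (insert k T : Finset (Fin N)))) :=
      Ideal.map_mono (Ideal.span_mono (Set.image_mono (by simp)))
    have h3 : of (u k) * c (ι k) (e (ι k) * x) ∈
        Ideal.map (of : R →ₐ[ℂ] Om R σ) (Ideal.span (u '' (insert k T : Finset (Fin N)))) := by
      rw [of_comm]
      exact Ideal.mul_mem_left _ _
        (Ideal.mem_map_of_mem _ (Ideal.subset_span ⟨k, by simp, rfl⟩))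
    have h4 := sub_mem h3 (hle h2)
    rw [sub_sub_cancel] at h4
    obtain ⟨y, hy⟩ := ih hl (insert k T) (fun j hj hj' => by
      rcases Finset.mem_insert.1 hj' with rfl | hj'
      · exact hk hj
      · exact hT j (List.mem_cons_of_mem _ hj) hj') (c (ι k) x) h0 h4
    rw [Finset.coe_insert, Set.image_insert_eq] at hy
    obtain ⟨z, hz⟩ := kos_split hy
    have hoo : ∀ w, kos_om ι u l * (kos_om ι u l * w) = 0 := fun w => by
      have h5 := comm_odd (kos_om ι u l) (kos_om ι u l) (kos_sg_om ι u l)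
      rw [kos_sg_om, neg_mul] at h5
      rw [← mul_assoc, SD.half (eq_neg_iff_add_eq_zero.1 h5), zero_mul]
    have h6 := add_mem h2 (Ideal.mul_mem_left _ (kos_om ι u l) hz)
    have h7 : of (u k) * c (ι k) (e (ι k) * x) - kos_om ι u l * c (ι k) x +
        kos_om ι u l * (c (ι k) x - kos_om ι u l * y - of (u k) * z) =
        of (u k) * (c (ι k) (e (ι k) * x) - kos_om ι u l * z) := by
      rw [mul_sub, mul_sub, hoo, mul_sub, ← mul_assoc (kos_om ι u l), ← of_comm, mul_assoc]
      abel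
    rw [h7] at h6
    have h8 := kos_reg (hu T k hkT) h6
    refine ⟨z - e (ι k) * y, ?_⟩
    have h9 : x - kos_om ι u (k :: l) * (z - e (ι k) * y) =
        e (ι k) * (c (ι k) x - kos_om ι u l * y - of (u k) * z) +
          (c (ι k) (e (ι k) * x) - kos_om ι u l * z) := by
      have e1 : of (u k) * e (ι k) * (e (ι k) * y) = 0 := by
        rw [mul_assoc, ← mul_assoc (e (ι k)), e_mul_e, zero_mul, mul_zero]
      have e2 : kos_om ι u l * (e (ι k) * y) = -(e (ι k) * (kos_om ι u l * y)) := by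
        rw [← mul_assoc (e (ι k)), e_mul (ι k) (kos_om ι u l), kos_sg_om, neg_mul, neg_mul,
          neg_neg, mul_assoc]
      have e3 : e (ι k) * (of (u k) * z) = of (u k) * e (ι k) * z := by
        rw [← mul_assoc, ← of_comm]
      rw [c_e_mul, if_pos rfl, kos_om_cons, add_mul, mul_sub, mul_sub, mul_sub, mul_sub, e1, e2,
        e3]
      abel
    rw [h9]
    exact add_mem (Ideal.mul_mem_left _ _ hz) h8

end general

variable {N : ℕ} {A : Type} [CommRing A] [Algebra ℂ A]

omit [Algebra ℂ A] in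
theorem kos_regAll {u : Fin N → Pol N A} (hu : RegAll u) :
    RegAll fun i => (rename inl (u i) : RR N A) := by
  let φ : RR N A ≃ₐ[A] MvPolynomial (Fin N) (Pol N A) :=
    (renameEquiv A (Equiv.sumComm (Fin N) (Fin N))).trans (sumAlgEquiv A (Fin N) (Fin N))
  have hφ : ∀ P : Pol N A, φ (rename inl P) = C P := fun P => by
    have h := AlgHom.congr_fun (sumAlgEquiv_comp_rename_inr A (Fin N) (Fin N)) P
    simp only [φ, AlgEquiv.trans_apply, renameEquiv_apply, rename_rename]
    exact h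
  have key : ∀ (T : Finset (Fin N)) (a : RR N A),
      a ∈ Ideal.span ((fun i => (rename inl (u i) : RR N A)) '' T) ↔
        ∀ m, coeff m (φ a) ∈ Ideal.span (u '' T) := fun T a => by
    rw [← MvPolynomial.mem_map_C_iff, ← Ideal.apply_mem_of_equiv_iff (f := φ.toRingEquiv),
      Ideal.map_span, Ideal.map_span, Set.image_image, Set.image_image]
    simp only [AlgEquiv.coe_ringEquiv, hφ]
  intro T j hj a ha
  rw [key] at ha ⊢
  intro m
  have h := ha m
  rw [map_mul, hφ, coeff_C_mul] at h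
  exact hu T j hj _ h

theorem kos_cl_mem (l : List (Fin N)) : ∀ (n : ℤ) (x : OO N A),
    x ∈ Sp N A (fun _ _ p _ => p < n) →
      kos_cl inl l x ∈ Sp N A fun _ _ p _ => p < n - l.length := by
  induction l with
  | nil =>
    intro n x hx
    simpa [kos_cl] using hx
  | cons k l ih =>
    intro n x hx
    have h := ih (n - 1) (c (inl k) x) (c_inl_mem k hx fun _ _ p _ h => by omega)
    refine gr_mono ?_ h
    intro _ _ p _ h
    rw [List.length_cons]
    omega

theorem koszul {F : Pol N A} (hr : RegAll fun i => pderiv i F) {x : OO N A}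
    (hx : x ∈ Sp N A fun _ _ p _ => p < N) (h : dx (xo F) * x = 0) : ∃ y, x = dx (xo F) * y := by
  have h1 : kos_om inl (fun i => (rename inl (pderiv i F) : RR N A)) (List.finRange N) =
      dx (xo F) := by
    rw [dx_xo, kos_om, Fin.sum_univ_def]
    rfl
  have h2 : kos_cl inl (List.finRange N) x = 0 := by
    refine Sp_eq_zero (kos_cl_mem (List.finRange N) N x hx) ?_
    intro a b p q _ _ _ _ _ _ h
    rw [List.length_finRange] at h
    omega
  obtain ⟨y, hy⟩ := kos_aux inl_injective (kos_regAll hr) (List.finRange N)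
    (List.nodup_finRange N) ∅ (by simp) x h2 (by rw [h1, h]; exact zero_mem _)
  rw [h1, Finset.coe_empty, Set.image_empty, Ideal.span_empty, Ideal.map_bot,
    Ideal.mem_bot] at hy
  exact ⟨y, sub_eq_zero.1 hy⟩

theorem kos_vanish {F : Pol N A} {d : ℕ} (hd : 1 ≤ d) (hF : F.IsHomogeneous d)
    (hr : RegAll fun i => pderiv i F) {m : ℤ} (hm : m < N) (M : ℕ) : ∀ z : OO N A,
    z ∈ Sp N A (fun a b p q => a < M ∧ b = 0 ∧ q = 0 ∧ p = m) → pa F z = 0 →
      ∃ y, z = pa F y := by
  induction M with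
  | zero =>
    intro z hz _
    refine ⟨0, ?_⟩
    rw [map_zero]
    refine Sp_eq_zero hz ?_
    intro a b p q _ _ _ _ _ _ h
    omega
  | succ M ih =>
    intro z hz h
    have h1 : cut (fun a _ _ _ => a = M + d - 1) (dx z) = 0 := by
      refine cut_of_not (Sp_mono (S := fun a b _ _ => a < M ∨ b < 0) (dx_mem hz ?_) ?_)
      · intro a b p q h
        omega
      · intro a b p q _ _ _ _ _ _ h
        omega
    have h2 : cut (fun a _ _ _ => a = M + d - 1) (dx (xo F) * z) =
        dx (xo F) * cut (fun a _ _ _ => a = M) z := by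
      refine cut_mul_left (dxo_mem_homog hF) ?_ z
      intro a b p q a' b' p' q' h
      omega
    have h3 : dx (xo F) * cut (fun a _ _ _ => a = M) z = 0 := by
      have h4 := congrArg (cut fun a _ _ _ => a = M + d - 1) h
      rwa [pa_apply, map_add, h1, h2, zero_add, map_zero] at h4
    have h4 := cut_mem_of (fun a _ _ _ => a = M) hz
    obtain ⟨y, hy⟩ := koszul hr (gr_mono (fun a b p q h => by omega) h4) h3
    have h5 : cut (fun a b p q => a = M ∧ b = 0 ∧ q = 0 ∧ p = m) (dx (xo F) * y) =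
        dx (xo F) * cut (fun a b p q => a = M - d + 1 ∧ b = 0 ∧ q = 0 ∧ p = m - 1) y := by
      refine cut_mul_left (dxo_mem_homog hF) ?_ y
      intro a b p q a' b' p' q' h
      omega
    rw [← hy, cut_of_mem (gr_mono (fun a b p q h => by omega) h4)] at h5
    have h6 := cut_mem (fun a b p q => a = M - d + 1 ∧ b = 0 ∧ q = 0 ∧ p = m - 1) y
    generalize cut (fun a b p q => a = M - d + 1 ∧ b = 0 ∧ q = 0 ∧ p = m - 1) y = w at h5 h6
    obtain ⟨v, hv⟩ := ih (z - pa F w) (by
      rw [pa_apply, ← h5, add_comm, ← sub_sub]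
      refine sub_mem (gr_mono (fun a b p q h => by omega) (sub_cut_mem_of _ hz))
        (Sp_mono (S := fun a b p q => (a < M ∧ b = 0 ∧ q = 0 ∧ p = m) ∨ b < 0)
          (dx_mem h6 ?_) ?_)
      · intro a b p q h
        omega
      · intro a b p q _ _ _ _ _ _ h
        omega) (by rw [map_sub, h, pa_pa, sub_zero])
    exact ⟨v + w, by rw [map_add, ← hv, sub_add_cancel]⟩

theorem vanish_x {F : Pol N A} {d : ℕ} (hd : 1 ≤ d) (hF : F.IsHomogeneous d)
    (hr : RegAll fun i => pderiv i F) {z : OO N A} {m : ℤ} (hm : m < N)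
    (hz : z ∈ Sp N A fun _ b p q => b = 0 ∧ q = 0 ∧ p = m) (h : pa F z = 0) :
    ∃ y, z = pa F y := by
  obtain ⟨M, hM⟩ := Sp_bdd z
  refine kos_vanish hd hF hr hm (M + 1) z (gr_mono ?_ (Sp_inf hz hM)) h
  intro a b p q h
  omega

theorem vanish [IsDomain A] (hN : 0 < N) {F : Pol N A} {d : ℕ} (hd : 1 ≤ d)
    (hF : F.IsHomogeneous d) (hr : RegAll fun i => pderiv i F) {m : ℤ} (hm : m + 2 ≤ N)
    {x : OO N A} (hx : x ∈ Sp N A fun a b p q => p + q = m ∧ a + p - b - q = 0)
    (h : pa F x ∈ II N A) : ∃ η, x - pa F η ∈ II N A := by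
  obtain ⟨z, hz, η, -, h1, h2⟩ := red_exists hN hF (m := m) (p₀ := 0) (by omega)
    (Sp_mono hx fun a b p q _ _ _ _ _ _ h => ⟨h.1, h.2, Int.natCast_nonneg _⟩) h
  obtain ⟨y, rfl⟩ := vanish_x hd hF hr (m := m) (by omega)
    (gr_mono (fun _ _ _ _ h => ⟨h.1, h.2.1, h.2.2.1⟩) hz) h1
  exact ⟨y + η, by rwa [map_add, ← sub_sub]⟩

end Pool.Agent.Lib.MP_e9c0f3_ag.DR
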