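import Pool.Agent.Lib.MP_e9c0f3_ag.Frob
import Pool.Agent.Lib.MP_e9c0f3_ag.DR.Kos
import Pool.Agent.Lib.MP_e9c0f3_ag.DR.Ker2
import Pool.Agent.Lib.MP_e9c0f3_ag.DR.Inj2
import Pool.Agent.Lib.MP_e9c0f3_ag.DR.BT2

/-! The Gysin sequence and the Lefschetz theorem; descent of idempotents. -/

open MvPolynomial Sum

namespace Pool.Agent.Lib.MP_e9c0f3_ag.DR

open Om

variable {N : ℕ}

/-- Changing the lift changes `ξ` by an exact term. -/
theorem gy_congr {F : Pol N ℂ} {x x' ξ η : OO N ℂ} (hξ : IsPsi F x ξ)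
    (h : ξ - pa F η ∈ II N ℂ) (e : x - x' ∈ JJ F) :
    ∃ ξ' η', IsPsi F x' ξ' ∧ ξ' - pa F η' ∈ II N ℂ := by
  obtain ⟨a, b, hab⟩ := mem_JJ.1 e
  have h1 := (II N ℂ).mul_mem_left (dx (xo F)) (dx_II hab)
  have e1 : dx (xo F * a) = dx (xo F) * a + xo F * dx a := dx_of_mul _ _
  have e2 : dx (dx (xo F) * b) = -(dx (xo F) * dx b) := dx_dof_mul _ _
  have e3 : dx (dx (xo F) * a) = -(dx (xo F) * dx a) := dx_dof_mul _ _
  have e4 : ∀ y, dx (xo F) * (dx (xo F) * y) = 0 := fun y => dof_dof _ _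
  have e5 : dx (xo F) * (xo F * dx a) = xo F * (dx (xo F) * dx a) := by
    rw [← mul_assoc, ← mul_assoc]
    exact congrArg (· * dx a) (of_comm _ _).symm
  refine ⟨ξ - dx (xo F) * dx a, η + dx (xo F) * a, ?_, ?_⟩
  · have h2 := (II N ℂ).add_mem hξ h1
    rw [map_sub, map_sub, map_add, e1, e2, mul_sub, mul_sub, mul_add, mul_add, mul_neg, e4, e4,
      e5] at h2
    unfold IsPsi
    convert h2 using 1
    rw [mul_sub]
    abel
  · rw [map_add, pa_apply F (dx (xo F) * a), e3, e4]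
    convert h using 1
    abel

/-- Below the middle degree the twisted class of a closed form vanishes. -/
theorem gy_hyp {F : Pol N ℂ} {d : ℕ} (hd : 2 ≤ d) (hF0 : F ≠ 0) (hF : F.IsHomogeneous d)
    (hi : Isol F) {n : ℕ} (hn : n + 4 ≤ N) {l : Form (Jou F)}
    (hl : l ∈ ⋀[Jou F]^n Ω[Jou F⁄ℂ]) (hc : (ST F).d (phiB F l) = 0) :
    ∃ x ξ η : OO N ℂ, Ideal.Quotient.mk _ x = phiB F l ∧ IsPsi F x ξ ∧ ξ - pa F η ∈ II N ℂ := by
  have hN : 0 < N := by omega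
  obtain ⟨x, hx, ex⟩ := lift_deg hl
  have hdx : dx x ∈ JJ F := by
    rw [← ex, ST_d] at hc
    exact Ideal.Quotient.eq_zero_iff_mem.1 hc
  obtain ⟨a, b, hab⟩ := mem_JJ.1 hdx
  have hp := isPsi_of hab
  obtain ⟨ξ', h1, h2⟩ := hp.weight hN hF0 hF hx
  have h3 : pa F ξ' ∈ II N ℂ := by
    have := (II N ℂ).sub_mem (hp.closed hN hF0 hdx) (pa_II F h2)
    rwa [map_sub, sub_sub_cancel] at this
  obtain ⟨η, hη⟩ := vanish hN (by omega) hF (hi.regAll hd hF) (m := (n : ℤ) + 2) (by omega) h1 h3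
  refine ⟨x, _, η, ex, hp, ?_⟩
  have := (II N ℂ).add_mem h2 hη
  rwa [sub_add_sub_cancel] at this

theorem gy_sg_th : sg (th N ℂ) = -th N ℂ :=
  sg_odd (Sp_mono th_mem fun _ _ p q _ _ _ _ _ _ h => by
    rw [h.2.2.1, h.2.2.2]
    decide)

theorem gy_iv_dth : iv (dx (th N ℂ)) = -dx (of (ff N ℂ)) := by
  have h := eu_v (x := th N ℂ) (n := 0) (Sp_mono th_mem fun _ _ p q _ _ _ _ _ _ h => by
    omega)
  rw [iv_th, zero_smul] at h
  exact eq_neg_of_add_eq_zero_left h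

/-- The coefficient of the connection form in a basic form vanishes. -/
theorem gy_basic {F : Pol N ℂ} {d : ℕ} (hF : F.IsHomogeneous d) {l m₁ l₂ m₂ : Form (Jou F)}
    (h : phiB F l = phiB F m₁ + (Ideal.Quotient.mk _ (dx (th N ℂ)) * phiB F l₂ -
      Ideal.Quotient.mk _ (th N ℂ) * phiB F m₂)) : phiB F m₂ = 0 := by
  obtain ⟨y₀, e₀⟩ := Ideal.Quotient.mk_surjective (phiB F l)
  obtain ⟨y₁, e₁⟩ := Ideal.Quotient.mk_surjective (phiB F m₁)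
  obtain ⟨y₂, e₂⟩ := Ideal.Quotient.mk_surjective (phiB F l₂)
  obtain ⟨y₃, e₃⟩ := Ideal.Quotient.mk_surjective (phiB F m₂)
  have i₀ := iv_lift hF e₀
  have i₁ := iv_lift hF e₁
  have i₂ := iv_lift hF e₂
  have i₃ := iv_lift hF e₃
  rw [← e₀, ← e₁, ← e₂, ← e₃, ← map_mul, ← map_mul, ← map_sub, ← map_add] at h
  have h1 := iv_JJ hF (Ideal.Quotient.eq.1 h)
  have m1 : iv (dx (th N ℂ) * y₂) = iv (dx (th N ℂ)) * y₂ + sg (dx (th N ℂ)) * iv y₂ :=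
    io_mul _ _ _
  have m2 : iv (th N ℂ * y₃) = iv (th N ℂ) * y₃ + sg (th N ℂ) * iv y₃ := io_mul _ _ _
  rw [map_sub, map_add, map_sub, m1, m2, gy_iv_dth, iv_th] at h1
  have j1 : -dx (of (ff N ℂ)) * y₂ ∈ JJ F :=
    Ideal.mul_mem_right _ _ ((JJ F).neg_mem (II_le_JJ F id_dff_mem_II))
  have j2 : sg (dx (th N ℂ)) * iv y₂ ∈ JJ F := Ideal.mul_mem_left _ _ i₂
  have j3 : sg (th N ℂ) * iv y₃ ∈ JJ F := Ideal.mul_mem_left _ _ i₃
  have j4 : (of (ff N ℂ) - 1) * y₃ ∈ JJ F :=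
    Ideal.mul_mem_right _ _ (II_le_JJ F id_ff_mem_II)
  rw [← e₃, Ideal.Quotient.eq_zero_iff_mem]
  have h2 := (JJ F).sub_mem ((JJ F).sub_mem ((JJ F).add_mem ((JJ F).add_mem ((JJ F).add_mem
    ((JJ F).sub_mem h1 i₀) i₁) j1) j2) j3) j4
  convert h2 using 1
  rw [sub_mul, one_mul]
  abel

theorem gysin_step {F : Pol N ℂ} {d : ℕ} (hd : 2 ≤ d) (hF0 : F ≠ 0) (hF : F.IsHomogeneous d)
    (hi : Isol F) {j : ℕ} (hj : 2 * j + 2 ≤ N) {l : Form (Jou F)}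
    (hl : l ∈ ⋀[Jou F]^(2 * j) Ω[Jou F⁄ℂ]) (hc : (ST F).d (phiB F l) = 0) {x ξ η : OO N ℂ}
    (hx : Ideal.Quotient.mk _ x = phiB F l) (hξ : IsPsi F x ξ) (h : ξ - pa F η ∈ II N ℂ) :
    ∃ t : ℂ, IsExact (l - t • chw j (prj F)) := by
  have hN : 0 < N := by omega
  have hD := isDG_B F
  have hinj := phiB_injective hF
  induction j generalizing l x ξ η with
  | zero =>
    obtain ⟨x', hx', ex⟩ := lift_deg hl
    obtain ⟨ξ', η', h1, h2⟩ := gy_congr hξ h (Ideal.Quotient.eq.1 (hx.trans ex.symm))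
    have hdx : dx x' ∈ JJ F := by
      rw [← ex, ST_d] at hc
      exact Ideal.Quotient.eq_zero_iff_mem.1 hc
    obtain ⟨z, hz, t, ht, -⟩ := kernel hN (by omega) hF0 hF hi (m := ((2 * 0 : ℕ) : ℤ))
      (by omega) hx' hdx (iv_lift hF ex) h1 h2
    have hz0 : z = 0 := Sp_eq_zero hz fun _ _ p q _ _ _ _ _ _ h => by omega
    refine ⟨t, hD.exact_of hinj (μ := 0) ?_⟩
    rw [hz0, map_zero, sub_zero] at ht
    rw [map_zero, map_zero, map_sub, hD.smul, phiB_prj, pow_zero, ← ex, sub_eq_zero,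
      Ideal.Quotient.eq.2 ht, map_one, ← Algebra.algebraMap_eq_smul_one]
    exact congrArg (Ideal.Quotient.mk (JJ F)) ((of : RR N ℂ →ₐ[ℂ] OO N ℂ).commutes t)
  | succ j ih =>
    obtain ⟨x', hx', ex⟩ := lift_deg hl
    obtain ⟨ξ', η', h1, h2⟩ := gy_congr hξ h (Ideal.Quotient.eq.1 (hx.trans ex.symm))
    have hdx : dx x' ∈ JJ F := by
      rw [← ex, ST_d] at hc
      exact Ideal.Quotient.eq_zero_iff_mem.1 hc
    obtain ⟨z, hz, t, ht, ht0⟩ := kernel hN (by omega) hF0 hF hi (m := ((2 * (j + 1) : ℕ) : ℤ))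
      (by omega) hx' hdx (iv_lift hF ex) h1 h2
    rw [ht0 (by omega), map_zero, map_zero, sub_zero] at ht
    obtain ⟨l₁, l₂, hl₂, es⟩ := split (F := F) (n := 2 * j) (x := z)
      (Sp_mono hz fun _ _ p q _ _ _ _ _ _ h => ⟨by omega, h.2⟩)
    obtain ⟨m₁, hm₁⟩ := exists_isD l₁
    obtain ⟨m₂, hm₂⟩ := exists_isD l₂
    have ho : (ST F).σ (Ideal.Quotient.mk _ (th N ℂ)) = -Ideal.Quotient.mk _ (th N ℂ) :=
      congrArg (Ideal.Quotient.mk (JJ F)) gy_sg_th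
    have el : phiB F l = phiB F m₁ + (Ideal.Quotient.mk _ (dx (th N ℂ)) * phiB F l₂ -
        Ideal.Quotient.mk _ (th N ℂ) * phiB F m₂) := by
      rw [← ex, Ideal.Quotient.eq.2 ht, ← ST_d, es, map_add, (ST F).d_mul_odd ho, hD.isD hm₁,
        hD.isD hm₂, ST_d]
    have h0 := gy_basic hF el
    have hc₂ : (ST F).d (phiB F l₂) = 0 := by rw [← hD.isD hm₂, h0]
    obtain ⟨x₂, ξ₂, η₂, a1, a2, a3⟩ := gy_hyp hd hF0 hF hi (by omega) hl₂ hc₂
    obtain ⟨s, μ, hμ⟩ := ih (by omega) hl₂ hc₂ a1 a2 a3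
    have e1 := hD.isD hμ
    rw [map_sub, hD.smul, phiB_prj, sub_eq_iff_eq_add] at e1
    refine ⟨s, hD.exact_of hinj (μ := l₁ + chw 1 (prj F) * μ) ?_⟩
    have he := (ST F).even_d ho
    have hdd := (ST F).d_d (Ideal.Quotient.mk _ (th N ℂ))
    rw [ST_d] at he hdd
    rw [map_sub, hD.smul, phiB_prj, map_add, map_mul, phiB_prj, pow_one, map_add,
      (ST F).d_mul_even he, hdd, zero_mul, zero_add, el, h0, mul_zero, sub_zero, e1,
      ← hD.isD hm₁, mul_add, mul_smul_comm, pow_succ', map_mul]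
    abel

end Pool.Agent.Lib.MP_e9c0f3_ag.DR
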