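import Pool.Agent.Lib.MP_e9c0f3_ag.Tw2
import Pool.Agent.Lib.MP_e9c0f3_ag.Glob

/-! The Hodge filtration of a family is detected on the fibres. -/

open MvPolynomial

namespace Pool.Agent.Lib.MP_e9c0f3_ag.DR

theorem jac_map_hc {N : ℕ} {R R' : Type} [CommRing R] [CommRing R'] (f : R →+* R') (n : ℕ)
    (p : Pol N R) : map f (homogeneousComponent n p) = homogeneousComponent n (map f p) := by
  ext m
  rw [coeff_map, coeff_homogeneousComponent, coeff_homogeneousComponent, coeff_map]
  split_ifs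
  · rfl
  · exact map_zero f

theorem jac_homog {N : ℕ} {R : Type} [CommRing R] {F x : Pol N R} {d m : ℕ}
    (hF : F.IsHomogeneous d) (hx : x.IsHomogeneous m) (h : x ∈ jac F) :
    ∃ c : Fin N → Pol N R, (∀ i, (c i).IsHomogeneous (m - (d - 1))) ∧
      x = ∑ i, pderiv i F * c i := by
  obtain ⟨c, hc⟩ := Ideal.mem_span_range_iff_exists_fun.1 h
  have e : x = ∑ i, if d - 1 ≤ m then pderiv i F * homogeneousComponent (m - (d - 1)) (c i)
      else 0 := by
    rw [← homogeneousComponent_eq_self hx, ← hc, map_sum]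
    exact Finset.sum_congr rfl fun i _ => by rw [mul_comm, tw2_hc_mul hF.pderiv]
  by_cases hm : d - 1 ≤ m
  · exact ⟨fun i => homogeneousComponent (m - (d - 1)) (c i),
      fun i => homogeneousComponent_isHomogeneous _ _, by simpa [hm] using e⟩
  · exact ⟨0, fun i => isHomogeneous_zero _ _ _, by simpa [hm] using e⟩

theorem jac_map_smul {N : ℕ} {R R' : Type} [CommRing R] [CommRing R'] (f : R →+* R') (c : R)
    (p : Pol N R) : map f (c • p) = f c • map f p := by
  rw [smul_eq_C_mul, map_mul, map_C, smul_eq_C_mul]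

theorem jac_map_lin {N : ℕ} {R R' : Type} [CommRing R] [CommRing R'] (f : R →+* R')
    (Q : Pol N R →ₗ[R] Pol N R) {x : Pol N R} (hx : map f x = 0) : map f (Q x) = 0 := by
  have e : x = ∑ m ∈ x.support, coeff m x • (monomial m 1 : Pol N R) := by
    conv_lhs => rw [x.as_sum]
    exact Finset.sum_congr rfl fun m _ => by rw [smul_monomial, smul_eq_mul, mul_one]
  rw [e, map_sum, map_sum]
  refine Finset.sum_eq_zero fun m _ => ?_
  rw [map_smul, jac_map_smul, ← coeff_map, hx, coeff_zero, zero_smul]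

variable {N : ℕ} {A : Type} [CommRing A] [IsDomain A] [Algebra ℂ A] [Algebra.FiniteType ℂ A]

omit [IsDomain A] in
theorem jac_exists_point (𝔪 : Ideal A) (h𝔪 : 𝔪.IsMaximal) :
    ∃ s : A →ₐ[ℂ] ℂ, ∀ a, s a = 0 ↔ a ∈ 𝔪 := by
  let : Field (A ⧸ 𝔪) := Ideal.Quotient.field 𝔪
  have : Module.Finite ℂ (A ⧸ 𝔪) := finite_of_finite_type_of_isJacobsonRing ℂ (A ⧸ 𝔪)
  let e : ℂ ≃ₐ[ℂ] A ⧸ 𝔪 := AlgEquiv.ofBijective (Algebra.ofId ℂ (A ⧸ 𝔪))
    IsAlgClosed.algebraMap_bijective_of_isIntegral
  refine ⟨(e.symm : (A ⧸ 𝔪) →ₐ[ℂ] ℂ).comp (Ideal.Quotient.mkₐ ℂ 𝔪), fun a => ?_⟩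
  simp [Ideal.Quotient.eq_zero_iff_mem]

theorem jac_eq_zero {a : A} (h : ∀ s : A →ₐ[ℂ] ℂ, s a = 0) : a = 0 := by
  have : IsJacobsonRing A := isJacobsonRing_of_finiteType (A := ℂ)
  have h1 : (⊥ : Ideal A).jacobson = ⊥ := IsJacobsonRing.out this Ideal.isPrime_bot.isRadical
  rw [← Ideal.mem_bot, ← h1]
  refine Ideal.mem_sInf.2 fun {J} hJ => ?_
  obtain ⟨s, hs⟩ := jac_exists_point J hJ.2
  exact (hs a).1 (h s)

theorem jac_local (U : Submodule A (Pol N A)) (hU : U.FG) {τ : Pol N A}
    (h2 : ∀ s : A →ₐ[ℂ] ℂ, ∃ u ∈ U, map (s : A →+* ℂ) τ = map (s : A →+* ℂ) u) (s : A →ₐ[ℂ] ℂ)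
    (h1 : ∀ x ∈ U, map (s : A →+* ℂ) x = 0 → x ∈ RingHom.ker (s : A →+* ℂ) • U) :
    ∃ a : A, s a ≠ 0 ∧ a • τ ∈ U := by
  classical
  obtain ⟨n, g, hg⟩ := Submodule.fg_iff_exists_fin_generating_family.1 hU
  obtain ⟨κ, a, ha, hsp, hli⟩ := exists_linearIndependent' ℂ fun i => map (s : A →+* ℂ) (g i)
  have : Finite κ := Finite.of_injective a ha
  let : Fintype κ := Fintype.ofFinite κ
  have hgU : ∀ i, g i ∈ U := fun i => hg ▸ Submodule.subset_span ⟨i, rfl⟩
  have hle : U ≤ Submodule.span A (Set.range fun j => g (a j)) ⊔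
      RingHom.ker (s : A →+* ℂ) • U := by
    conv_lhs => rw [← hg]
    rw [Submodule.span_le]
    rintro _ ⟨i, rfl⟩
    have h3 : map (s : A →+* ℂ) (g i) ∈ Submodule.span ℂ
        (Set.range ((fun i => map (s : A →+* ℂ) (g i)) ∘ a)) :=
      hsp ▸ Submodule.subset_span ⟨i, rfl⟩
    obtain ⟨t, ht⟩ := (Submodule.mem_span_range_iff_exists_fun ℂ).1 h3
    have h4 : g i = ∑ j, algebraMap ℂ A (t j) • g (a j) +
        (g i - ∑ j, algebraMap ℂ A (t j) • g (a j)) := by ring
    rw [SetLike.mem_coe, h4]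
    refine Submodule.add_mem_sup (Submodule.sum_mem _ fun j _ =>
      Submodule.smul_mem _ _ (Submodule.subset_span ⟨j, rfl⟩)) (h1 _ (sub_mem (hgU i)
        (Submodule.sum_mem _ fun j _ => Submodule.smul_mem _ _ (hgU _))) ?_)
    rw [map_sub, map_sum, ← ht, sub_eq_zero]
    refine Finset.sum_congr rfl fun j _ => ?_
    rw [jac_map_smul]
    simp
  obtain ⟨r, hr1, hr2⟩ := Submodule.exists_sub_one_mem_and_smul_le_of_fg_of_le_sup hU le_rfl hle
  obtain ⟨μ, hμ⟩ := LinearMap.exists_leftInverse_of_injective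
    (Fintype.linearCombination ℂ ((fun i => map (s : A →+* ℂ) (g i)) ∘ a))
    (LinearMap.ker_eq_bot.2 hli.fintypeLinearCombination_injective)
  let L : Pol N A →ₗ[A] (κ → A) := (basisMonomials (Fin N) A).constr A
    fun m k => algebraMap ℂ A (μ (monomial m 1) k)
  have hL : ∀ p k, s (L p k) = μ (map (s : A →+* ℂ) p) k := by
    intro p k
    induction p using MvPolynomial.induction_on' with
    | monomial m c =>
      have e1 : (monomial m c : Pol N A) = c • basisMonomials (Fin N) A m := by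
        simp [smul_monomial]
      have e2 : (monomial m (s c) : Pol N ℂ) = s c • monomial m 1 := by simp [smul_monomial]
      rw [map_monomial, RingHom.coe_coe, e2, e1, map_smul, map_smul, Module.Basis.constr_basis]
      simp
    | add p q hp hq => simp only [map_add, Pi.add_apply, hp, hq]
  let B : Matrix κ κ A := Matrix.of fun k j => L (g (a j)) k
  have hB : s B.det = 1 := by
    have e : (s : A →+* ℂ).mapMatrix B = 1 := by
      ext k j
      have h5 := LinearMap.congr_fun hμ (Pi.single j 1)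
      simp only [LinearMap.comp_apply, Fintype.linearCombination_apply_single, one_smul,
        Function.comp_apply, LinearMap.id_apply] at h5
      simp only [RingHom.mapMatrix_apply, Matrix.map_apply, B, Matrix.of_apply, RingHom.coe_coe,
        hL, h5, Matrix.one_apply, Pi.single_apply]
    have := RingHom.map_det (s : A →+* ℂ) B
    rw [e, Matrix.det_one] at this
    exact this
  let Q : Pol N A →ₗ[A] Pol N A := B.det • LinearMap.id -
    Fintype.linearCombination A (fun j => g (a j)) ∘ₗ Matrix.mulVecLin B.adjugate ∘ₗ L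
  have hQ : ∀ j, Q (g (a j)) = 0 := fun j => by
    have e : L (g (a j)) = B.mulVec (Pi.single j 1) := by
      funext k
      simp [B]
    simp only [Q, LinearMap.sub_apply, LinearMap.smul_apply, LinearMap.id_apply,
      LinearMap.comp_apply, Matrix.mulVecLin_apply, e, Matrix.mulVec_mulVec, Matrix.adjugate_mul,
      Matrix.smul_mulVec, Matrix.one_mulVec, map_smul, Fintype.linearCombination_apply_single,
      one_smul, sub_self]
  have hQU : ∀ u ∈ U, Q (r • u) = 0 := fun u hu => by
    have h5 : Submodule.span A (Set.range fun j => g (a j)) ≤ LinearMap.ker Q := by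
      rw [Submodule.span_le]
      rintro _ ⟨j, rfl⟩
      exact hQ j
    exact h5 (hr2 (Submodule.smul_mem_pointwise_smul u r U hu))
  have hτ : Q (r • τ) = 0 := by
    ext m
    refine jac_eq_zero fun t => ?_
    obtain ⟨u, hu, e⟩ := h2 t
    have h5 : map (t : A →+* ℂ) (Q (r • τ - r • u)) = 0 := jac_map_lin _ Q (by
      rw [map_sub, jac_map_smul, jac_map_smul, e, sub_self])
    rw [map_sub, hQU u hu, sub_zero] at h5
    have h6 := congrArg (coeff m) h5
    rwa [coeff_map] at h6
  refine ⟨B.det * r, ?_, ?_⟩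
  · have : s (r - 1) = 0 := hr1
    rw [map_sub, map_one, sub_eq_zero] at this
    rw [map_mul, hB, this, mul_one]
    exact one_ne_zero
  · simp only [Q, LinearMap.sub_apply, LinearMap.smul_apply, LinearMap.id_apply,
      LinearMap.comp_apply, sub_eq_zero] at hτ
    rw [mul_smul, hτ, Fintype.linearCombination_apply]
    exact Submodule.sum_mem _ fun j _ => Submodule.smul_mem _ _ (hgU _)

theorem jac_global (U : Submodule A (Pol N A)) (hU : U.FG) {τ : Pol N A}
    (h2 : ∀ s : A →ₐ[ℂ] ℂ, ∃ u ∈ U, map (s : A →+* ℂ) τ = map (s : A →+* ℂ) u)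
    (h1 : ∀ s : A →ₐ[ℂ] ℂ, ∀ x ∈ U, map (s : A →+* ℂ) x = 0 →
      x ∈ RingHom.ker (s : A →+* ℂ) • U) : τ ∈ U := by
  let I : Ideal A := U.comap (LinearMap.toSpanSingleton A _ τ)
  have hI : I = ⊤ := by
    by_contra hne
    obtain ⟨𝔪, h𝔪, hle⟩ := Ideal.exists_le_maximal I hne
    obtain ⟨s, hs⟩ := jac_exists_point 𝔪 h𝔪
    obtain ⟨a, ha, h⟩ := jac_local U hU h2 s (h1 s)
    exact ha ((hs a).2 (hle h))
  have : (1 : A) ∈ I := hI ▸ Submodule.mem_top
  simpa [I] using this

theorem jac_of_fibres {F τ : Pol N A} {d m : ℕ} (hd : 2 ≤ d) (hF : F.IsHomogeneous d)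
    (hr : ∀ s : A →ₐ[ℂ] ℂ, RegAll fun i => pderiv i (map (s : A →+* ℂ) F))
    (hτ : τ.IsHomogeneous m) (h : ∀ s : A →ₐ[ℂ] ℂ, map (s : A →+* ℂ) τ ∈ jac (map (s : A →+* ℂ) F)) :
    τ ∈ jac F := by
  classical
  set k := m - (d - 1) with hk
  let φ : (Fin N → Pol N A) →ₗ[A] Pol N A :=
    { toFun := fun c => ∑ i, pderiv i F * c i
      map_add' := fun c c' => by simp [mul_add, Finset.sum_add_distrib]
      map_smul' := fun r c => by simp [Finset.smul_sum] }
  let U : Submodule A (Pol N A) :=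
    (Submodule.pi Set.univ fun _ => homogeneousSubmodule (Fin N) A k).map φ
  have hmem : ∀ c : Fin N → Pol N A, (∀ i, (c i).IsHomogeneous k) → ∑ i, pderiv i F * c i ∈ U :=
    fun c hc => ⟨c, fun i _ => hc i, rfl⟩
  have key : τ ∈ U := by
    refine jac_global U ((Submodule.fg_pi fun _ => homogeneousSubmodule_fg _ _ k).map φ)
      (fun s => ?_) fun s x hx hx0 => ?_
    · obtain ⟨c, hc, e⟩ := jac_homog (hF.map (s : A →+* ℂ)) (hτ.map _) (h s)
      choose q hq using fun i => map_surjective (σ := Fin N) (s : A →+* ℂ)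
        (fun z => ⟨algebraMap ℂ A z, by simp⟩) (c i)
      refine ⟨_, hmem (fun i => homogeneousComponent k (q i))
        fun i => homogeneousComponent_isHomogeneous _ _, ?_⟩
      rw [e, map_sum]
      refine Finset.sum_congr rfl fun i _ => ?_
      rw [map_mul, jac_map_hc, hq, homogeneousComponent_eq_self (hc i), pderiv_map]
    · obtain ⟨c, hc, rfl⟩ := hx
      have hc' : ∀ i, (c i).IsHomogeneous k := fun i => hc i trivial
      have h0 : ∑ i, pderiv i (map (s : A →+* ℂ) F) * map (s : A →+* ℂ) (c i) = 0 := by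
        rw [← hx0]
        simp only [φ, LinearMap.coe_mk, AddHom.coe_mk, map_sum, map_mul, pderiv_map]
      obtain ⟨a, ha, ha0, hah⟩ := (hr s).koszul h0
      obtain ⟨n, hn⟩ := exists_mem_lt fun p : Fin N × Fin N => a p.1 p.2
      obtain ⟨b, hb, hb0, -, hba⟩ := glob_lift_anti (s : A →+* ℂ)
        (fun z => ⟨algebraMap ℂ A z, by simp⟩) ha ha0 fun i j => hn (i, j)
      let c' : Fin N → Pol N A := fun i => c i - homogeneousComponent k (∑ j, pderiv j F * b i j)
      have hc1 : ∀ i, (c' i).IsHomogeneous k := fun i =>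
        (hc' i).sub (homogeneousComponent_isHomogeneous _ _)
      have hc2 : ∀ i, map (s : A →+* ℂ) (c' i) = 0 := fun i => by
        simp only [c', map_sub, jac_map_hc, sub_eq_zero]
        rw [map_sum]
        simp only [map_mul, hba, ← pderiv_map]
        rw [← hah i, homogeneousComponent_eq_self ((hc' i).map _)]
      have hc3 : φ c = ∑ i, pderiv i F * c' i := by
        have h5 := sum_antisymm (fun i j => pderiv i F * homogeneousComponent k (pderiv j F * b i j))
          (fun i j => by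
            simp only [tw2_hc_mul hF.pderiv, hb i j, map_neg]
            split_ifs
            · ring
            · simp) (fun i => by simp [hb0])
        simp only [c', mul_sub, Finset.sum_sub_distrib, map_sum, Finset.mul_sum, h5, sub_zero]
        rfl
      rw [hc3]
      refine Submodule.sum_mem _ fun i _ => ?_
      have e : pderiv i F * c' i =
          ∑ μ ∈ (c' i).support, coeff μ (c' i) • (pderiv i F * monomial μ 1) := by
        conv_lhs => rw [(c' i).as_sum, Finset.mul_sum]
        exact Finset.sum_congr rfl fun μ _ => by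
          rw [← mul_smul_comm, smul_monomial, smul_eq_mul, mul_one]
      rw [e]
      refine Submodule.sum_mem _ fun μ hμ => Submodule.smul_mem_smul ?_ ?_
      · rw [RingHom.mem_ker, ← coeff_map, hc2, coeff_zero]
      · have h6 := hmem (Pi.single i (monomial μ 1)) fun j => by
          by_cases hj : j = i
          · subst hj
            rw [Pi.single_eq_same]
            refine isHomogeneous_monomial _ ?_
            by_contra hne
            exact mem_support_iff.1 hμ ((hc1 j).coeff_eq_zero hne)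
          · rw [Pi.single_eq_of_ne hj]
            exact isHomogeneous_zero _ _ _
        rwa [Finset.sum_eq_single i (fun j _ hj => by rw [Pi.single_eq_of_ne hj, mul_zero])
          (by simp), Pi.single_eq_same] at h6
  obtain ⟨c, -, rfl⟩ := key
  change ∑ i, pderiv i F * c i ∈ jac F
  exact Ideal.sum_mem _ fun i _ => Ideal.mul_mem_right _ _ (Ideal.subset_span ⟨i, rfl⟩)

theorem deg_reduce {F P : Pol N A} {d e : ℕ} (hd : 2 ≤ d) (hF : F.IsHomogeneous d) (he : d ≤ e + 2)
    (hr : ∀ s : A →ₐ[ℂ] ℂ, RegAll fun i => pderiv i (map (s : A →+* ℂ) F))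
    (h : ∀ s : A →ₐ[ℂ] ℂ, ∃ P' : Pol N ℂ, P'.totalDegree ≤ e ∧
      Exact (map (s : A →+* ℂ) F) (map (s : A →+* ℂ) P - P')) :
    ∃ P' : Pol N A, P'.totalDegree ≤ e ∧ Exact F (P - P') := by
  obtain ⟨n, hn⟩ : ∃ n, P ∈ lt N A (e + 1 + n) :=
    ⟨P.totalDegree, mem_lt_of_totalDegree (by omega)⟩
  induction n generalizing P with
  | zero =>
    refine ⟨P, Finset.sup_le fun m hm => ?_, by simpa using Exact.zero F⟩
    by_contra hlt
    refine mem_support_iff.1 hm (hn m ?_)
    rw [Finsupp.degree_apply]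
    exact Nat.succ_le_of_lt (not_le.1 hlt)
  | succ n ih =>
    have hτ := homogeneousComponent_isHomogeneous (e + 1 + n) P
    have h1 : P - homogeneousComponent (e + 1 + n) P ∈ lt N A (e + 1 + n) := tw2_sub_hc hn
    have hk : e + 1 + n = (e + 1 + n - (d - 1)) + (d - 1) := by omega
    have h2 : homogeneousComponent (e + 1 + n) P ∈ jac F := by
      refine jac_of_fibres hd hF hr hτ fun s => ?_
      obtain ⟨P', h3, h4⟩ := h s
      refine tw_top (n := e + 1 + n - (d - 1)) hd (hF.map _) (hr s) (hk ▸ hτ.map _)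
        (γ := P' - map (s : A →+* ℂ) (P - homogeneousComponent (e + 1 + n) P)) ?_ ?_
      · rw [← hk]
        exact sub_mem (mem_lt_of_totalDegree (by omega)) (map_mem_lt _ h1)
      · convert h4.neg using 1
        rw [map_sub]
        ring
    obtain ⟨c, hc, e1⟩ := jac_homog hF hτ h2
    have h3 : P - dtw F c ∈ lt N A (e + 1 + n) := by
      have e2 : P - dtw F c = (P - homogeneousComponent (e + 1 + n) P) - ∑ i, pderiv i (c i) := by
        rw [dtw, Finset.sum_add_distrib, ← e1]
        ring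
      rw [e2]
      exact sub_mem h1 (Submodule.sum_mem _ fun i _ => lt_mono (by omega)
        (pderiv_mem_lt (mem_lt_of_isHomogeneous (hc i) (Nat.lt_succ_self _)) i))
    obtain ⟨P', h4, h5⟩ := ih (P := P - dtw F c) (fun s => by
      obtain ⟨P', h4, h5⟩ := h s
      refine ⟨P', h4, ?_⟩
      convert h5.sub ((exact_iff.2 ⟨c, rfl⟩ : Exact F (dtw F c)).map (s : A →+* ℂ)) using 1
      rw [map_sub]
      ring) h3
    refine ⟨P', h4, ?_⟩
    convert h5.add (exact_iff.2 ⟨c, rfl⟩) using 1
    ring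

end Pool.Agent.Lib.MP_e9c0f3_ag.DR
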