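import Pool.Agent.Lib.MP_e9c0f3_ag.DR.CW
import Pool.Agent.Lib.MP_e9c0f3_ag.DR.DG

/-! The Chern character of a module does not depend on the resolution; flat base change. -/

open TensorProduct

namespace Pool.Agent.Lib.MP_e9c0f3_ag.DR

variable {B T 𝒜 : Type} [CommRing B] [Algebra ℂ B] [CommRing T] [Algebra ℂ T] [Ring 𝒜]
  [Algebra ℂ 𝒜]

theorem HasCh.equiv {k : ℕ} {M M' : ModuleCat.{0} B} {γ : Form B} (h : HasCh k M γ)
    (u : M ≃ₗ[B] M') : HasCh k M' γ := by
  cases h with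
  | zero =>
    have : Subsingleton M' := u.symm.injective.subsingleton
    exact HasCh.zero M'
  | step _ K γ ι e he i p hi hip hp h =>
    exact HasCh.step M' K γ ι e he i ((u : M →ₗ[B] M') ∘ₗ p) hi
      (LinearEquiv.postcomp_exact_iff_exact.2 hip) (u.surjective.comp hp) h

section Schanuel

variable {K K' Q Q' X X' : Type} [AddCommGroup K] [Module B K] [AddCommGroup K'] [Module B K']
  [AddCommGroup Q] [Module B Q] [AddCommGroup Q'] [Module B Q'] [AddCommGroup X] [Module B X]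
  [AddCommGroup X'] [Module B X']

omit [Algebra ℂ B] in
theorem k0_half (i : K →ₗ[B] Q) (p : Q →ₗ[B] X) (hi : Function.Injective i)
    (hip : Function.Exact i p) (hp : Function.Surjective p) (p' : Q' →ₗ[B] X)
    [Module.Projective B Q'] :
    Nonempty ((K × Q') ≃ₗ[B]
      LinearMap.ker (p ∘ₗ LinearMap.fst B Q Q' - p' ∘ₗ LinearMap.snd B Q Q')) := by
  obtain ⟨g, hg⟩ := Module.projective_lifting_property p p' hp
  have hg' : ∀ y, p (g y) = p' y := fun y => LinearMap.congr_fun hg y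
  let f : (K × Q') →ₗ[B] (Q × Q') :=
    (i ∘ₗ LinearMap.fst B K Q' + g ∘ₗ LinearMap.snd B K Q').prod (LinearMap.snd B K Q')
  have hf : ∀ x, f x = (i x.1 + g x.2, x.2) := fun _ => rfl
  have h1 : Function.Injective f := by
    rintro ⟨a, b⟩ ⟨c, d⟩ h
    rw [hf, hf] at h
    obtain ⟨h2, h3⟩ := Prod.mk.inj h
    dsimp only at h2 h3
    subst h3
    rw [hi (add_right_cancel h2)]
  have h2 : LinearMap.range f =
      LinearMap.ker (p ∘ₗ LinearMap.fst B Q Q' - p' ∘ₗ LinearMap.snd B Q Q') := by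
    ext ⟨a, b⟩
    rw [LinearMap.mem_ker]
    change _ ↔ p a - p' b = 0
    constructor
    · rintro ⟨⟨c, d⟩, h⟩
      rw [hf] at h
      obtain ⟨h2, h3⟩ := Prod.mk.inj h
      dsimp only at h2 h3
      rw [← h2, ← h3, map_add, hip.apply_apply_eq_zero, hg', zero_add, sub_self]
    · intro h
      obtain ⟨c, hc⟩ := (hip (a - g b)).1 (by rw [map_sub, hg', h])
      exact ⟨(c, b), by rw [hf, hc, sub_add_cancel]⟩
  exact ⟨(LinearEquiv.ofInjective f h1).trans (LinearEquiv.ofEq _ _ h2)⟩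

omit [Algebra ℂ B] in
theorem k0_schanuel (i : K →ₗ[B] Q) (p : Q →ₗ[B] X) (hi : Function.Injective i)
    (hip : Function.Exact i p) (hp : Function.Surjective p)
    (i' : K' →ₗ[B] Q') (p' : Q' →ₗ[B] X') (hi' : Function.Injective i')
    (hip' : Function.Exact i' p') (hp' : Function.Surjective p') (u : X ≃ₗ[B] X')
    [Module.Projective B Q] [Module.Projective B Q'] : Nonempty ((K × Q') ≃ₗ[B] (K' × Q)) := by
  obtain ⟨a⟩ := k0_half i ((u : X →ₗ[B] X') ∘ₗ p) hi
    (LinearEquiv.postcomp_exact_iff_exact.2 hip) (u.surjective.comp hp) p'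
  obtain ⟨b⟩ := k0_half i' p' hi' hip' hp' ((u : X →ₗ[B] X') ∘ₗ p)
  refine ⟨a.trans (((LinearEquiv.prodComm B Q Q').ofSubmodules _ _ ?_).trans b.symm)⟩
  ext ⟨y, x⟩
  rw [Submodule.mem_map_equiv, LinearMap.mem_ker, LinearMap.mem_ker]
  change u (p x) - p' y = 0 ↔ p' y - u (p x) = 0
  rw [sub_eq_zero, sub_eq_zero, eq_comm]

omit [Algebra ℂ B] in
theorem k0_exact_prod (i : K →ₗ[B] Q) (p : Q →ₗ[B] X) (hip : Function.Exact i p) :
    Function.Exact (LinearMap.inl B Q Q' ∘ₗ i) (p.prodMap (LinearMap.id : Q' →ₗ[B] Q')) := by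
  rintro ⟨a, b⟩
  constructor
  · intro h
    obtain ⟨h1, h2⟩ := Prod.mk.inj (show (p a, b) = (0, 0) from h)
    obtain ⟨c, hc⟩ := (hip a).1 h1
    exact ⟨c, Prod.ext hc h2.symm⟩
  · rintro ⟨c, hc⟩
    rw [← hc]
    exact Prod.ext (hip.apply_apply_eq_zero c) rfl

end Schanuel

/-- `c` is a Chern-Weil form of the finite projective module `P`. -/
def K0IsCh (S : SD 𝒜) (ψ : B →ₐ[ℂ] 𝒜) (k : ℕ) (P : Type) [AddCommGroup P] [Module B P]
    (c : 𝒜) : Prop :=
  ∃ (ι : Type) (_ : Fintype ι) (_ : DecidableEq ι) (u : P →ₗ[B] ι → B) (v : (ι → B) →ₗ[B] P),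
    v ∘ₗ u = LinearMap.id ∧ c = S.ch k ((LinearMap.toMatrix' (u ∘ₗ v)).map ψ)

section IsCh

variable {S : SD 𝒜} {ψ : B →ₐ[ℂ] 𝒜} {k : ℕ} {P P' : Type} [AddCommGroup P] [Module B P]
  [AddCommGroup P'] [Module B P'] {c c' : 𝒜}

theorem K0IsCh.proj (h : K0IsCh S ψ k P c) : Module.Projective B P := by
  obtain ⟨ι, _, _, u, v, h, -⟩ := h
  exact Module.Projective.of_split u v h

theorem K0IsCh.unique (hψ : ∀ b, S.σ (ψ b) = ψ b) (h : K0IsCh S ψ k P c)
    (h' : K0IsCh S ψ k P' c') (w : P ≃ₗ[B] P') : ∃ x, c - c' = S.d x := by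
  obtain ⟨ι, _, _, u, v, h, rfl⟩ := h
  obtain ⟨κ, _, _, u', v', h', rfl⟩ := h'
  have e : ∀ x, v (u x) = x := fun x => LinearMap.congr_fun h x
  have e' : ∀ x, v' (u' x) = x := fun x => LinearMap.congr_fun h' x
  let a := LinearMap.toMatrix' (u ∘ₗ (w.symm : P' →ₗ[B] P) ∘ₗ v')
  let b := LinearMap.toMatrix' (u' ∘ₗ (w : P →ₗ[B] P') ∘ₗ v)
  have hab : a.map ψ * b.map ψ = (LinearMap.toMatrix' (u ∘ₗ v)).map ψ := by
    rw [← Matrix.map_mul, ← LinearMap.toMatrix'_comp]
    congr 2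
    exact LinearMap.ext fun x => by simp [e']
  have hba : b.map ψ * a.map ψ = (LinearMap.toMatrix' (u' ∘ₗ v')).map ψ := by
    rw [← Matrix.map_mul, ← LinearMap.toMatrix'_comp]
    congr 2
    exact LinearMap.ext fun x => by simp [e]
  rw [← hab, ← hba]
  refine S.ch_uv k (fun _ _ => hψ _) (fun _ _ => hψ _) ?_ ?_
  · rw [hab, ← Matrix.map_mul, ← LinearMap.toMatrix'_comp]
    congr 2
    exact LinearMap.ext fun x => by simp [e]
  · rw [hba, ← Matrix.map_mul, ← LinearMap.toMatrix'_comp]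
    congr 2
    exact LinearMap.ext fun x => by simp [e']

theorem K0IsCh.prod (h : K0IsCh S ψ k P c) (h' : K0IsCh S ψ k P' c') :
    K0IsCh S ψ k (P × P') (c + c') := by
  obtain ⟨ι, _, _, u, v, h, rfl⟩ := h
  obtain ⟨κ, _, _, u', v', h', rfl⟩ := h'
  have e : ∀ x, v (u x) = x := fun x => LinearMap.congr_fun h x
  have e' : ∀ x, v' (u' x) = x := fun x => LinearMap.congr_fun h' x
  let s := LinearEquiv.sumArrowLequivProdArrow ι κ B B
  refine ⟨ι ⊕ κ, inferInstance, inferInstance, s.symm.toLinearMap ∘ₗ u.prodMap u',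
    v.prodMap v' ∘ₗ s.toLinearMap, LinearMap.ext fun x => by simp [e, e'], ?_⟩
  rw [← S.ch_fromBlocks]
  congr 1
  have z1 : ∀ j : κ, (s (Pi.single (Sum.inr j) 1)).1 = 0 := fun j => by
    ext i
    simp [s]
  have z2 : ∀ j : ι, (s (Pi.single (Sum.inl j) 1)).2 = 0 := fun j => by
    ext i
    simp [s]
  have z3 : ∀ j : κ, (s (Pi.single (Sum.inr j) 1)).2 = Pi.single j 1 := fun j => by
    ext i
    simp [s, Pi.single_apply]
  have z4 : ∀ j : ι, (s (Pi.single (Sum.inl j) 1)).1 = Pi.single j 1 := fun j => by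
    ext i
    simp [s, Pi.single_apply]
  have z5 : ∀ x i, s.symm x (Sum.inl i) = x.1 i := fun _ _ => rfl
  have z6 : ∀ x i, s.symm x (Sum.inr i) = x.2 i := fun _ _ => rfl
  ext (i | i) (j | j) <;> simp [LinearMap.toMatrix'_apply, z1, z2, z3, z4, z5, z6]

theorem k0_isCh_range {ι : Type} [Fintype ι] [DecidableEq ι] {e : Matrix ι ι B}
    (he : e * e = e) : K0IsCh S ψ k (LinearMap.range e.mulVecLin) (S.ch k (e.map ψ)) := by
  refine ⟨ι, inferInstance, inferInstance, Submodule.subtype _, e.mulVecLin.rangeRestrict, ?_, ?_⟩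
  · refine LinearMap.ext ?_
    rintro ⟨_, x, rfl⟩
    refine Subtype.ext ?_
    change e.mulVec (e.mulVec x) = e.mulVec x
    rw [Matrix.mulVec_mulVec, he]
  · change _ = S.ch k ((LinearMap.toMatrix' (Matrix.toLin' e)).map ψ)
    rw [LinearMap.toMatrix'_toLin']

theorem k0_isCh_zero [Subsingleton P] : K0IsCh S ψ k P 0 :=
  ⟨Empty, inferInstance, inferInstance, 0, 0, Subsingleton.elim _ _,
    (S.ch_zero k).symm.trans (congrArg _ (Subsingleton.elim _ _))⟩

variable {φ : Form B →+* 𝒜}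

theorem k0_unfold (hφ : IsDG S ψ φ) {M : ModuleCat.{0} B} {γ : Form B} (h : HasCh k M γ) :
    ∃ (K Q : ModuleCat.{0} B) (δ : Form B) (c : 𝒜) (i : K →ₗ[B] Q) (p : Q →ₗ[B] M),
      Function.Injective i ∧ Function.Exact i p ∧ Function.Surjective p ∧ HasCh k K δ ∧
        K0IsCh S ψ k Q c ∧ φ γ = c - φ δ := by
  cases h with
  | zero =>
    exact ⟨M, M, 0, 0, 0, 0, fun _ _ _ => Subsingleton.elim _ _,
      fun x => ⟨fun _ => ⟨x, Subsingleton.elim _ _⟩, fun _ => rfl⟩,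
      fun x => ⟨x, Subsingleton.elim _ _⟩, HasCh.zero M, k0_isCh_zero, by simp⟩
  | step _ K γ ι e he i p hi hip hp h =>
    exact ⟨K, ModuleCat.of B (LinearMap.range e.mulVecLin), γ, _, i, p, hi, hip, hp, h,
      k0_isCh_range he, by rw [map_sub, hφ.chw]⟩

end IsCh

section Main

variable {S : SD 𝒜} {ψ : B →ₐ[ℂ] 𝒜} {φ : Form B →+* 𝒜} {k : ℕ}

theorem k0_zero (hφ : IsDG S ψ φ) {M : ModuleCat.{0} B} {γ : Form B} (h : HasCh k M γ) :
    ∀ (P P' : ModuleCat.{0} B) (c c' : 𝒜), K0IsCh S ψ k P c → K0IsCh S ψ k P' c' →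
      Nonempty ((M × P) ≃ₗ[B] P') → ∃ x, φ γ + c - c' = S.d x := by
  induction h with
  | zero M =>
    rintro P P' c c' hc hc' ⟨w⟩
    rw [map_zero]
    exact ((k0_isCh_zero (P := M)).prod hc).unique hφ.even hc' w
  | step M K γ ι e he i p hi hip hp _ ih =>
    rintro P P' c c' hc hc' ⟨w⟩
    have h1 := (k0_isCh_range (S := S) (ψ := ψ) (k := k) he).prod hc
    have := h1.proj
    have := hc'.proj
    obtain ⟨w'⟩ := k0_schanuel (LinearMap.inl B _ P ∘ₗ i) (p.prodMap LinearMap.id)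
      (LinearMap.inl_injective.comp hi) (k0_exact_prod i p hip)
      (hp.prodMap Function.surjective_id) (0 : PUnit.{1} →ₗ[B] P') LinearMap.id
      (fun _ _ _ => Subsingleton.elim _ _)
      (fun x => ⟨fun hx => ⟨0, (show x = 0 from hx).symm⟩, fun ⟨_, hx⟩ => hx.symm⟩)
      Function.surjective_id w
    obtain ⟨x, hx⟩ := ih P' (ModuleCat.of B (PUnit.{1} × LinearMap.range e.mulVecLin × P)) c' _ hc'
      ((k0_isCh_zero (P := PUnit.{1})).prod h1) ⟨w'⟩
    refine ⟨-x, ?_⟩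
    rw [map_neg, ← hx, map_sub, hφ.chw]
    abel

theorem k0_main (hφ : IsDG S ψ φ) {M : ModuleCat.{0} B} {γ : Form B} (h : HasCh k M γ) :
    ∀ (M' P P' : ModuleCat.{0} B) (γ' : Form B) (c c' : 𝒜), HasCh k M' γ' → K0IsCh S ψ k P c →
      K0IsCh S ψ k P' c' → Nonempty ((M × P) ≃ₗ[B] (M' × P')) →
        ∃ x, φ γ + c - (φ γ' + c') = S.d x := by
  induction h with
  | zero M =>
    rintro M' P P' γ' c c' h' hc hc' ⟨w⟩
    obtain ⟨x, hx⟩ := k0_zero hφ h' P' (ModuleCat.of B (M × P)) c' _ hc'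
      ((k0_isCh_zero (P := M)).prod hc) ⟨w.symm⟩
    refine ⟨-x, ?_⟩
    rw [map_neg, ← hx, map_zero]
    abel
  | step M K γ ι e he i p hi hip hp _ ih =>
    rintro M' P P' γ' c c' h' hc hc' ⟨w⟩
    obtain ⟨K', Q', δ, q, i', p', hi', hip', hp', hK', hq, hγ'⟩ := k0_unfold hφ h'
    have h1 := (k0_isCh_range (S := S) (ψ := ψ) (k := k) he).prod hc
    have h2 := hq.prod hc'
    have := h1.proj
    have := h2.proj
    obtain ⟨x, hx⟩ := ih K' (ModuleCat.of B (Q' × P'))
      (ModuleCat.of B (LinearMap.range e.mulVecLin × P)) δ _ _ hK' h2 h1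
      (k0_schanuel (LinearMap.inl B _ P ∘ₗ i) (p.prodMap LinearMap.id)
        (LinearMap.inl_injective.comp hi) (k0_exact_prod i p hip)
        (hp.prodMap Function.surjective_id) (LinearMap.inl B _ P' ∘ₗ i')
        (p'.prodMap LinearMap.id) (LinearMap.inl_injective.comp hi') (k0_exact_prod i' p' hip')
        (hp'.prodMap Function.surjective_id) w)
    refine ⟨-x, ?_⟩
    rw [map_neg, ← hx, map_sub, hφ.chw, hγ']
    abel

end Main

/-- Schanuel's lemma. -/
theorem HasCh.unique {S : SD 𝒜} {ψ : B →ₐ[ℂ] 𝒜} {φ : Form B →+* 𝒜} (hφ : IsDG S ψ φ) {k : ℕ}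
    {M : ModuleCat.{0} B} {γ γ' : Form B} (h : HasCh k M γ) (h' : HasCh k M γ') :
    ∃ v, φ γ - φ γ' = S.d v := by
  have h0 : K0IsCh S ψ k (ModuleCat.of B PUnit.{1}) 0 := k0_isCh_zero
  simpa using k0_main hφ h M _ _ γ' 0 0 h' h0 h0 ⟨LinearEquiv.refl _ _⟩

omit [Algebra ℂ B] [Algebra ℂ T] in
theorem k0_range_baseChange [Algebra B T] {ι : Type} [Fintype ι] [DecidableEq ι]
    {e : Matrix ι ι B} (he : e * e = e) :
    Nonempty ((T ⊗[B] LinearMap.range e.mulVecLin) ≃ₗ[T]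
      LinearMap.range (e.map (algebraMap B T)).mulVecLin) := by
  let j := (LinearMap.range e.mulVecLin).subtype
  let r := e.mulVecLin.rangeRestrict
  let π := TensorProduct.piScalarRight B T T ι
  have hrj : r ∘ₗ j = LinearMap.id := by
    refine LinearMap.ext ?_
    rintro ⟨_, x, rfl⟩
    refine Subtype.ext ?_
    change e.mulVec (e.mulVec x) = e.mulVec x
    rw [Matrix.mulVec_mulVec, he]
  have h1 : ∀ x, r.baseChange T (j.baseChange T x) = x := fun x => by
    rw [← LinearMap.comp_apply, ← LinearMap.baseChange_comp, hrj, LinearMap.baseChange_id]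
    rfl
  let f := π.toLinearMap ∘ₗ j.baseChange T
  have hf : Function.Injective f := π.injective.comp (Function.LeftInverse.injective h1)
  have h2 : (e.map (algebraMap B T)).mulVecLin ∘ₗ π.toLinearMap = f ∘ₗ r.baseChange T := by
    refine TensorProduct.AlgebraTensorModule.ext fun t x => funext fun i => ?_
    change ∑ l, algebraMap B T (e i l) * (x l • t) = (∑ l, e i l * x l) • t
    rw [Finset.sum_smul]
    exact Finset.sum_congr rfl fun l _ => by rw [← Algebra.smul_def, smul_smul]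
  have h3 : LinearMap.range f = LinearMap.range (e.map (algebraMap B T)).mulVecLin := by
    rw [← LinearMap.range_comp_of_range_eq_top f
      (LinearMap.range_eq_top.2 (Function.RightInverse.surjective h1)), ← h2,
      LinearMap.range_comp_of_range_eq_top _ π.range]
  exact ⟨(LinearEquiv.ofInjective f hf).trans (LinearEquiv.ofEq _ _ h3)⟩

theorem HasCh.baseChange [Algebra B T] [IsScalarTower ℂ B T] [Module.Flat B T] {k : ℕ}
    {M : ModuleCat.{0} B} {γ : Form B} (h : HasCh k M γ) :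
    HasCh k (ModuleCat.of T (T ⊗[B] M)) (pull (IsScalarTower.toAlgHom ℂ B T) γ) := by
  induction h with
  | zero M =>
    rw [map_zero]
    exact HasCh.zero _
  | step M K γ ι e he i p hi hip hp _ ih =>
    obtain ⟨w⟩ := k0_range_baseChange (T := T) he
    rw [map_sub, pull_chw]
    exact HasCh.step (ModuleCat.of T (T ⊗[B] M)) (ModuleCat.of T (T ⊗[B] K)) _ ι
      (e.map (algebraMap B T)) (by rw [← Matrix.map_mul, he])
      (w.toLinearMap ∘ₗ i.baseChange T) (p.baseChange T ∘ₗ w.symm.toLinearMap)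
      (w.injective.comp (Module.Flat.lTensor_preserves_injective_linearMap i hi))
      ((LinearEquiv.conj_exact_iff_exact _ _ w).2 (Module.Flat.lTensor_exact T hip))
      ((LinearMap.lTensor_surjective T hp).comp w.symm.surjective) ih

theorem HasCh.quotient [Algebra B T] [IsScalarTower ℂ B T] [Module.Flat B T] {k : ℕ}
    {I : Ideal B} {γ : Form B} (h : HasCh k (ModuleCat.of B (B ⧸ I)) γ) :
    HasCh k (ModuleCat.of T (T ⧸ I.map (algebraMap B T)))
      (pull (IsScalarTower.toAlgHom ℂ B T) γ) :=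
  (h.baseChange (T := T)).equiv
    (Algebra.TensorProduct.quotIdealMapEquivTensorQuot T I).symm.toLinearEquiv

end Pool.Agent.Lib.MP_e9c0f3_ag.DR
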