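import Pool.Agent.Lib.MP_e9c0f3_ag.DR.MF

/-! Systems of higher homotopies. -/

open MvPolynomial Matrix

namespace Pool.Agent.Lib.MP_e9c0f3_ag.DR

section Filtration

variable {R ι : Type} [CommRing R] {par : ι → ℕ}

/-- `M` raises `par` by at least `k`. -/
def mf2Fil (par : ι → ℕ) (k : ℤ) (M : Matrix ι ι R) : Prop :=
  ∀ i j, M i j ≠ 0 → (par j : ℤ) + k ≤ par i

/-- `M` raises `par` by exactly `k`. -/
def mf2Deg (par : ι → ℕ) (k : ℤ) (M : Matrix ι ι R) : Prop :=
  ∀ i j, M i j ≠ 0 → (par j : ℤ) + k = par i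

theorem mf2Deg.fil {k : ℤ} {M : Matrix ι ι R} (h : mf2Deg par k M) : mf2Fil par k M :=
  fun i j hij => (h i j hij).le

theorem mf2Fil.mono {k l : ℤ} {M : Matrix ι ι R} (h : mf2Fil par k M) (hl : l ≤ k) :
    mf2Fil par l M := fun i j hij => by
  have := h i j hij
  omega

theorem mf2Fil.add {k : ℤ} {M M' : Matrix ι ι R} (h : mf2Fil par k M) (h' : mf2Fil par k M') :
    mf2Fil par k (M + M') := by
  intro i j hij
  by_cases h0 : M i j = 0
  · exact h' i j fun e => hij (by rw [Matrix.add_apply, h0, e, add_zero])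
  · exact h i j h0

theorem mf2Fil.sub {k : ℤ} {M M' : Matrix ι ι R} (h : mf2Fil par k M) (h' : mf2Fil par k M') :
    mf2Fil par k (M - M') := by
  intro i j hij
  by_cases h0 : M i j = 0
  · exact h' i j fun e => hij (by rw [Matrix.sub_apply, h0, e, sub_zero])
  · exact h i j h0

theorem mf2Deg.sub {k : ℤ} {M M' : Matrix ι ι R} (h : mf2Deg par k M) (h' : mf2Deg par k M') :
    mf2Deg par k (M - M') := by
  intro i j hij
  by_cases h0 : M i j = 0
  · exact h' i j fun e => hij (by rw [Matrix.sub_apply, h0, e, sub_zero])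
  · exact h i j h0

theorem mf2_eq_zero {k : ℤ} {M : Matrix ι ι R} (h : mf2Deg par k M) (h' : mf2Fil par (k + 1) M) :
    M = 0 := by
  ext i j
  by_contra e
  have h1 := h i j e
  have h2 := h' i j e
  omega

variable [Fintype ι]

theorem mf2Fil.mul {k l : ℤ} {M M' : Matrix ι ι R} (h : mf2Fil par k M) (h' : mf2Fil par l M') :
    mf2Fil par (k + l) (M * M') := by
  intro i j hij
  rw [Matrix.mul_apply] at hij
  obtain ⟨t, -, ht⟩ := Finset.exists_ne_zero_of_sum_ne_zero hij
  have h1 := h i t (left_ne_zero_of_mul ht)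
  have h2 := h' t j (right_ne_zero_of_mul ht)
  omega

theorem mf2Deg.mul {k l : ℤ} {M M' : Matrix ι ι R} (h : mf2Deg par k M) (h' : mf2Deg par l M') :
    mf2Deg par (k + l) (M * M') := by
  intro i j hij
  rw [Matrix.mul_apply] at hij
  obtain ⟨t, -, ht⟩ := Finset.exists_ne_zero_of_sum_ne_zero hij
  have h1 := h i t (left_ne_zero_of_mul ht)
  have h2 := h' t j (right_ne_zero_of_mul ht)
  omega

end Filtration

variable {N : ℕ}

section Step

variable {I : Ideal (Pol N ℂ)} {ι : Type} [Fintype ι] [DecidableEq ι] {par : ι → ℕ}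
  {dg : ι → ℤ} {i₀ : ι} {L : Matrix ι ι (Pol N ℂ)}

theorem GRes.mf2_deg (h : GRes I par dg i₀ L) : mf2Deg par (-1) L := fun i j hij => by
  have := h.low i j hij
  omega

theorem GRes.mf2_row (h : GRes I par dg i₀ L) (j : ι) : L i₀ j ∈ I := by
  rw [h.span]
  exact Ideal.subset_span ⟨j, rfl⟩

theorem GRes.mf2_res (h : GRes I par dg i₀ L) :
    Res L I (Pi.single i₀ 1) (Pi.single i₀ 1) where
  dd := h.sq
  pd j := by
    rw [single_one_vecMul]
    exact h.mf2_row j
  de := by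
    rw [mulVec_single_one]
    funext i
    by_contra e
    have h1 := h.low i i₀ e
    have h2 := (h.zero i₀).2 rfl
    omega
  pe := by
    rw [single_dotProduct, Pi.single_eq_same, one_mul, sub_self]
    exact I.zero_mem
  ex v hv hI := by
    rw [single_dotProduct, one_mul, h.span] at hI
    obtain ⟨c, hc⟩ := (Submodule.mem_span_range_iff_exists_fun _).1 hI
    obtain ⟨u, hu⟩ := h.exact (v - L *ᵥ c)
      (by rw [mulVec_sub, hv, mulVec_mulVec, h.sq, zero_mulVec, sub_zero]) (by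
        rw [Pi.sub_apply, ← hc, sub_eq_zero]
        exact Finset.sum_congr rfl fun j _ => mul_comm _ _)
    exact ⟨u + c, by rw [mulVec_add, ← hu, sub_add_cancel]⟩

theorem mf2_smul (n : ℕ) : n • ((2, 0) : ℤ × ℤ) = ((2 * n : ℤ), (0 : ℤ)) := by
  rw [Prod.smul_mk, smul_zero, nsmul_eq_mul, mul_comm]

omit [Fintype ι] [DecidableEq ι] in
theorem mf2_isHom_iff {wt : ι → ℤ} {w k : ℤ} {M : Matrix ι ι (Pol N ℂ)} :
    IsHom ((2, 0) : ℤ × ℤ) (fun i => (wt i, (par i : ℤ))) (fun i => (wt i, (par i : ℤ))) (w, k) M ↔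
      mf2Deg par k M ∧
        ∀ i j m, coeff m (M i j) ≠ 0 → 2 * (m.degree : ℤ) + wt i = w + wt j := by
  have key : ∀ i j (n : ℕ), n • ((2, 0) : ℤ × ℤ) + (wt i, (par i : ℤ)) =
      (w, k) + (wt j, (par j : ℤ)) ↔
      (2 * (n : ℤ) + wt i = w + wt j ∧ (par j : ℤ) + k = par i) := by
    intro i j n
    rw [mf2_smul, Prod.mk_add_mk, Prod.mk_add_mk, Prod.mk.injEq]
    omega
  constructor
  · intro h
    refine ⟨fun i j hij => ?_, fun i j m hm => ((key i j _).1 (h i j m hm)).1⟩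
    obtain ⟨m, hm⟩ := grad_exists_coeff hij
    exact ((key i j _).1 (h i j m hm)).2
  · intro h i j m hm
    exact (key i j _).2 ⟨h.2 i j m hm, h.1 i j fun e => hm (by rw [e, coeff_zero])⟩

theorem GRes.mf2_wt (h : GRes I par dg i₀ L) (d : ℕ) (i j : ι) (m : Fin N →₀ ℕ)
    (hm : coeff m (L i j) ≠ 0) :
    2 * (m.degree : ℤ) + (2 * dg i - d * par i) = d + (2 * dg j - d * par j) := by
  have h1 := h.homog i j m hm
  have h2 := h.low i j fun e => hm (by rw [e, coeff_zero])
  rw [← h1, ← h2]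
  push_cast
  ring

theorem GRes.mf2_step (h : GRes I par dg i₀ L) {d : ℕ} {F : Pol N ℂ} (hF : F.IsHomogeneous d)
    (hFI : F ∈ I) {wt : ι → ℤ}
    (hL : ∀ i j m, coeff m (L i j) ≠ 0 → 2 * (m.degree : ℤ) + wt i = d + wt j) (n : ℕ)
    {s : Matrix ι ι (Pol N ℂ)} (h1 : IsHom xi (gam par wt) (gam par wt) (gd d) (L + s))
    (h2 : mf2Fil par 1 s) (h3 : mf2Fil par (2 * n) ((L + s) * (L + s) - scalar ι F)) :
    ∃ s' : Matrix ι ι (Pol N ℂ), IsHom xi (gam par wt) (gam par wt) (gd d) (L + s') ∧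
      mf2Fil par 1 s' ∧ mf2Fil par (2 * (n + 1 : ℕ)) ((L + s') * (L + s') - scalar ι F) := by
  obtain ⟨r, hr⟩ : ∃ r, r = (L + s) * (L + s) - scalar ι F := ⟨_, rfl⟩
  rw [← hr] at h3
  have hrh : IsHom xi (gam par wt) (gam par wt) (d • xi) r := by
    rw [hr]
    exact (gd_add_gd d ▸ h1.mul h1).sub (IsHom.scalar hF)
  have hr1 : ∀ i j m, coeff m (r i j) ≠ 0 → 2 * (m.degree : ℤ) + wt i = 2 * d + wt j := by
    intro i j m hm
    have := congrArg Prod.fst (hrh i j m hm)
    simpa only [grad_nsmul_xi, gam, Prod.fst_add] using this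
  have hr2 : ∀ i j, r i j ≠ 0 → par i % 2 = par j % 2 := by
    intro i j hij
    obtain ⟨m, hm⟩ := grad_exists_coeff hij
    have := congrArg Prod.snd (hrh i j m hm)
    simp only [grad_nsmul_xi, gam, Prod.snd_add, zero_add] at this
    exact (ZMod.natCast_eq_natCast_iff' _ _ 2).1 this
  obtain ⟨r₀, hr₀⟩ : ∃ r₀ : Matrix ι ι (Pol N ℂ),
      r₀ = of fun i j => if (par j : ℤ) + 2 * n = par i then r i j else 0 := ⟨_, rfl⟩
  have g0 : mf2Deg par (2 * n) r₀ := by
    intro i j hij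
    by_contra e
    exact hij (by rw [hr₀, of_apply, if_neg e])
  have g0' : ∀ i j, r₀ i j = r i j ∨ r₀ i j = 0 := by
    intro i j
    rw [hr₀, of_apply]
    split_ifs
    · exact Or.inl rfl
    · exact Or.inr rfl
  have g1 : mf2Fil par (2 * n + 2) (r - r₀) := by
    intro i j hij
    have e1 : ¬ (par j : ℤ) + 2 * n = par i := fun e =>
      hij (by rw [Matrix.sub_apply, hr₀, of_apply, if_pos e, sub_self])
    have e2 : r i j ≠ 0 := fun e =>
      hij (by rw [Matrix.sub_apply, hr₀, of_apply, if_neg e1, e, sub_self])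
    have e3 := h3 i j e2
    have e4 := hr2 i j e2
    omega
  have hc : (L + s) * r = r * (L + s) := by
    rw [hr, Matrix.mul_sub, Matrix.sub_mul, Matrix.mul_assoc,
      (scalar_commute F (fun _ => Commute.all _ _) (L + s)).eq]
  have hcomm : L * r₀ = r₀ * L := by
    rw [← sub_eq_zero]
    refine mf2_eq_zero (par := par) (k := 2 * n - 1) ?_ ?_
    · have e1 := h.mf2_deg.mul g0
      have e2 := g0.mul h.mf2_deg
      rw [show (-1 + 2 * n : ℤ) = 2 * n - 1 by ring] at e1
      exact e1.sub e2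
    · have e : L * r₀ - r₀ * L = ((r - r₀) * L - L * (r - r₀)) + (r * s - s * r) := by
        rw [Matrix.add_mul, Matrix.mul_add] at hc
        rw [Matrix.sub_mul, Matrix.mul_sub, eq_sub_of_add_eq hc]
        abel
      rw [e]
      refine mf2Fil.add (mf2Fil.sub ?_ ?_) (mf2Fil.sub ?_ ?_)
      · exact (g1.mul h.mf2_deg.fil).mono (by omega)
      · exact (h.mf2_deg.fil.mul g1).mono (by omega)
      · exact (h3.mul h2).mono (by omega)
      · exact (h2.mul h3).mono (by omega)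
  have hrow : ∀ j, r i₀ j ∈ I := by
    intro j
    rw [hr, Matrix.sub_apply, Matrix.mul_apply]
    refine I.sub_mem (I.sum_mem fun l _ => I.mul_mem_right _ ?_) ?_
    · have e : s i₀ l = 0 := by
        by_contra e
        have e1 := h2 i₀ l e
        have e2 := (h.zero i₀).2 rfl
        omega
      rw [Matrix.add_apply, e, add_zero]
      exact h.mf2_row l
    · rw [scalar_apply, diagonal_apply]
      split_ifs
      · exact hFI
      · exact I.zero_mem
  obtain ⟨ρ, -, hρ⟩ := h.mf2_res.res_null (Gr.flag h.low) h.sq (χ := r₀) (fun j => by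
    rw [single_one_vecMul]
    change r₀ i₀ j ∈ I
    rcases g0' i₀ j with e | e <;> rw [e]
    · exact hrow j
    · exact I.zero_mem) hcomm
  have hLh := (mf2_isHom_iff (par := par) (wt := wt) (w := d) (k := -1)).2 ⟨h.mf2_deg, hL⟩
  have hr₀h := (mf2_isHom_iff (par := par) (wt := wt) (w := 2 * d) (k := 2 * n)).2
    ⟨g0, fun i j m hm => by
      rcases g0' i j with e | e
      · exact hr1 i j m (e ▸ hm)
      · exact absurd (by rw [e, coeff_zero]) hm⟩
  obtain ⟨t, ht⟩ : ∃ t, t = pr ((2, 0) : ℤ × ℤ) (fun i => (wt i, (par i : ℤ)))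
    (fun i => (wt i, (par i : ℤ))) ((d : ℤ), 2 * (n : ℤ) + 1) ρ := ⟨_, rfl⟩
  have hth := (mf2_isHom_iff (par := par) (wt := wt) (w := d) (k := 2 * n + 1) (M := t)).1
    (ht ▸ isHom_pr ρ)
  have hrt : r₀ = L * t + t * L := by
    have e1 : (((d : ℤ), (-1 : ℤ)) : ℤ × ℤ) + ((d : ℤ), 2 * (n : ℤ) + 1) =
        (2 * (d : ℤ), 2 * (n : ℤ)) := by
      rw [Prod.mk_add_mk, Prod.mk.injEq]
      omega
    have e2 : (((d : ℤ), 2 * (n : ℤ) + 1) : ℤ × ℤ) + ((d : ℤ), (-1 : ℤ)) =
        (2 * (d : ℤ), 2 * (n : ℤ)) := by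
      rw [add_comm, e1]
    rw [ht, ← pr_mul_left hLh, ← pr_mul_right ρ hLh, e1, e2, ← pr_add, ← hρ, hr₀h.pr_eq]
  have htf := hth.1.fil
  refine ⟨s - t, ?_, h2.sub (htf.mono (by omega)), ?_⟩
  · rw [← add_sub_assoc]
    refine h1.sub (isHom_gam_iff.2 ⟨fun i j hij => ?_, hth.2⟩)
    have := hth.1 i j hij
    rw [Nat.odd_iff]
    omega
  · have e : (L + (s - t)) * (L + (s - t)) - scalar ι F =
        (r - r₀) + (t * t - (s * t + t * s)) := by
      rw [hr, hrt]
      noncomm_ring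
    rw [e]
    refine mf2Fil.add (g1.mono (by push_cast; omega)) (mf2Fil.sub ?_ (mf2Fil.add ?_ ?_))
    · exact (htf.mul htf).mono (by push_cast; omega)
    · exact (h2.mul htf).mono (by push_cast; omega)
    · exact (htf.mul h2).mono (by push_cast; omega)

end Step

theorem GRes.exists_mf {I : Ideal (Pol N ℂ)} {ι : Type} [Fintype ι] [DecidableEq ι] {par : ι → ℕ}
    {dg : ι → ℤ} {i₀ : ι} {L : Matrix ι ι (Pol N ℂ)} (h : GRes I par dg i₀ L) {d : ℕ}
    {F : Pol N ℂ} (hF : F.IsHomogeneous d) (hFI : F ∈ I) :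
    ∃ δ : Matrix ι ι (Pol N ℂ), IsMF d F par (fun i => 2 * dg i - d * par i) δ ∧
      Resolves par δ I := by
  have key : ∀ n : ℕ, ∃ s : Matrix ι ι (Pol N ℂ),
      IsHom xi (gam par fun i => 2 * dg i - d * par i) (gam par fun i => 2 * dg i - d * par i)
        (gd d) (L + s) ∧
      mf2Fil par 1 s ∧ mf2Fil par (2 * n) ((L + s) * (L + s) - scalar ι F) := by
    intro n
    induction n with
    | zero =>
      refine ⟨0, ?_, fun i j hij => absurd rfl hij, fun i j hij => ?_⟩
      · rw [add_zero]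
        refine isHom_gam_iff.2 ⟨fun i j hij => ?_, h.mf2_wt d⟩
        have := h.low i j hij
        rw [Nat.odd_iff]
        omega
      · have e : i = j := by
          by_contra e
          exact hij (by
            rw [add_zero, h.sq, zero_sub, Matrix.neg_apply, scalar_apply, diagonal_apply_ne _ e,
              neg_zero])
        subst e
        simp
    | succ n ih =>
      obtain ⟨s, h1, h2, h3⟩ := ih
      exact h.mf2_step hF hFI (h.mf2_wt d) n h1 h2 h3
  obtain ⟨B, hB⟩ := (Set.finite_range par).bddAbove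
  obtain ⟨s, h1, h2, h3⟩ := key (B + 1)
  have hlow : MP_e9c0f3_ag.low par (L + s) = L := by
    ext1 i j
    rw [MP_e9c0f3_ag.low, of_apply]
    split_ifs with e
    · have e1 : s i j = 0 := by
        by_contra e1
        have := h2 i j e1
        omega
      rw [Matrix.add_apply, e1, add_zero]
    · exact (by_contra fun e1 => e (h.low i j e1) : L i j = 0).symm
  refine ⟨L + s, isMF_iff.2 ⟨h1, ?_⟩, i₀, h.zero, fun i j hij => ?_, ?_, ?_⟩
  · rw [← sub_eq_zero]
    ext1 i j
    by_contra e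
    have e1 := h3 i j e
    have e2 : par i ≤ B := hB ⟨i, rfl⟩
    push_cast at e1
    omega
  · have e1 : s i j = 0 := by
      by_contra e1
      have := h2 i j e1
      omega
    have e2 : L i j = 0 := by
      by_contra e2
      have := h.low i j e2
      omega
    rw [Matrix.add_apply, e1, e2, add_zero]
  · rw [hlow]
    exact h.span
  · rw [hlow]
    exact h.exact

theorem exists_mf {I : Ideal (Pol N ℂ)} (hI : ∀ p ∈ I, ∀ n, homogeneousComponent n p ∈ I) {d : ℕ}
    {F : Pol N ℂ} (hF : F.IsHomogeneous d) (hFI : F ∈ I) :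
    ∃ (ι : Type) (_ : Fintype ι) (_ : DecidableEq ι) (par : ι → ℕ) (wt : ι → ℤ)
      (δ : Matrix ι ι (Pol N ℂ)), IsMF d F par wt δ ∧ Resolves par δ I := by
  obtain ⟨ι, _, _, par, dg, i₀, L, h⟩ := exists_gres I hI
  obtain ⟨δ, h1, h2⟩ := h.exists_mf hF hFI
  exact ⟨ι, inferInstance, inferInstance, par, _, δ, h1, h2⟩

end Pool.Agent.Lib.MP_e9c0f3_ag.DR
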