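import Pool.Agent.Lib.MP_e9c0f3_ag.DR.Sh
import Pool.Agent.Lib.MP_e9c0f3_ag.DR.TG
import Pool.Agent.Lib.MP_e9c0f3_ag.DR.BT

/-! The Shamash resolution on the cone. -/

open MvPolynomial Sum Matrix

namespace Pool.Agent.Lib.MP_e9c0f3_ag.DR

variable {N : ℕ} {ι : Type} [Fintype ι] [DecidableEq ι]

omit [DecidableEq ι] in
/-- Exactness survives the adjunction of variables. -/
theorem sh2_poly {P σ : Type} [CommRing P] {L : Matrix ι ι P} {i₀ : ι}
    (h : ∀ v, L *ᵥ v = 0 → v i₀ = 0 → ∃ u, v = L *ᵥ u) (v : ι → MvPolynomial σ P)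
    (hv : ∀ i, ∑ j, C (L i j) * v j = 0) (h0 : v i₀ = 0) :
    ∃ u : ι → MvPolynomial σ P, ∀ i, v i = ∑ j, C (L i j) * u j := by
  classical
  have h1 : ∀ m : σ →₀ ℕ, ∃ u, (fun j => coeff m (v j)) = L *ᵥ u := fun m => by
    refine h _ (funext fun i => ?_) (by rw [h0, coeff_zero])
    have h2 := congrArg (coeff m) (hv i)
    rw [coeff_sum, coeff_zero] at h2
    simpa [mulVec, dotProduct] using h2
  choose u hu using h1
  refine ⟨fun j => ∑ m ∈ Finset.univ.biUnion fun i => (v i).support, monomial m (u m j),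
    fun i => ?_⟩
  ext m
  simp only [coeff_sum, coeff_C_mul, coeff_monomial, Finset.sum_ite_eq']
  split_ifs with hm
  · exact congrFun (hu m) i
  · simp only [Finset.mem_biUnion, Finset.mem_univ, true_and, not_exists, mem_support_iff,
      not_not] at hm
    simp [hm i]

omit [DecidableEq ι] in
theorem sh2_free {L : Matrix ι ι (Pol N ℂ)} {i₀ : ι}
    (h : ∀ v, L *ᵥ v = 0 → v i₀ = 0 → ∃ u, v = L *ᵥ u) (v : ι → RR N ℂ)
    (hv : ∀ i, ∑ j, rename inl (L i j) * v j = 0) (h0 : v i₀ = 0) :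
    ∃ u : ι → RR N ℂ, ∀ i, v i = ∑ j, rename inl (L i j) * u j := by
  let θ : RR N ℂ →ₐ[ℂ] MvPolynomial (Fin N) (Pol N ℂ) := aeval (Sum.elim (fun i => C (X i)) X)
  let η : MvPolynomial (Fin N) (Pol N ℂ) →+* RR N ℂ :=
    eval₂Hom (rename inl : Pol N ℂ →ₐ[ℂ] RR N ℂ) fun i => X (inr i)
  have h1 : ∀ p : Pol N ℂ, θ (rename inl p) = C p := fun p => by
    induction p using MvPolynomial.induction_on with
    | C a => rw [rename_C, algHom_C]; rfl
    | add p q hp hq => rw [map_add, map_add, hp, hq, map_add]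
    | mul_X p i hp => rw [map_mul, map_mul, hp, map_mul, rename_X]; simp [θ]
  have h2 : ∀ p : Pol N ℂ, η (C p) = rename inl p := fun p => eval₂Hom_C _ _ _
  have h3 : ∀ r, η (θ r) = r := fun r => by
    induction r using MvPolynomial.induction_on with
    | C a => rw [← rename_C (inl : Fin N → Fin N ⊕ Fin N), h1, h2]
    | add p q hp hq => rw [map_add, map_add, hp, hq]
    | mul_X p i hp =>
      rw [map_mul, map_mul, hp]
      rcases i with i | i <;> simp [θ, η]
  obtain ⟨u, hu⟩ := sh2_poly h (fun j => θ (v j)) (fun i => by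
    have h4 := congrArg θ (hv i)
    simpa only [map_sum, map_mul, h1, map_zero] using h4) (by rw [h0, map_zero])
  refine ⟨fun j => η (u j), fun i => ?_⟩
  rw [← h3 (v i), hu i, map_sum]
  simp only [map_mul, h2]

omit [DecidableEq ι] in
/-- Representatives for which relations modulo `∑ x y - 1` hold exactly. -/
theorem sh2_key (hN : 0 < N) (v : ι → RR N ℂ) :
    ∃ v' : ι → RR N ℂ, (∀ i, v i - v' i ∈ Ideal.span {ff N ℂ - 1}) ∧ ∀ c : ι → Pol N ℂ,
      ∑ j, rename inl (c j) * v j ∈ Ideal.span {ff N ℂ - 1} → ∑ j, rename inl (c j) * v' j = 0 := by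
  let S := Localization.Away (ff N ℂ)
  let a := algebraMap (RR N ℂ) S
  let t : S := IsLocalization.Away.invSelf (ff N ℂ)
  have ht : a (ff N ℂ) * t = 1 := IsLocalization.Away.mul_invSelf _
  let ψ : RR N ℂ →+* S :=
    eval₂Hom (a.comp C) (Sum.elim (fun i => a (X (inl i))) fun i => a (X (inr i)) * t)
  have hf : Ideal.Quotient.mk (Ideal.span {ff N ℂ - 1}) (ff N ℂ) = 1 :=
    Ideal.Quotient.eq.2 (Ideal.mem_span_singleton_self _)
  let χ : S →+* RR N ℂ ⧸ Ideal.span {ff N ℂ - 1} :=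
    IsLocalization.Away.lift (ff N ℂ) (g := Ideal.Quotient.mk _) (hf ▸ isUnit_one)
  have h1 : ∀ r, χ (a r) = Ideal.Quotient.mk _ r := fun r => IsLocalization.Away.lift_eq _ _ _
  have h2 : χ t = 1 := by
    have h := congrArg χ ht
    rwa [map_mul, h1, hf, one_mul, map_one] at h
  have hC : ∀ c, ψ (C c) = a (C c) := fun c => eval₂Hom_C _ _ _
  have hl : ∀ i, ψ (X (inl i)) = a (X (inl i)) := fun i => eval₂Hom_X' _ _ _
  have hr : ∀ i, ψ (X (inr i)) = a (X (inr i)) * t := fun i => eval₂Hom_X' _ _ _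
  have h3 : ∀ r, χ (ψ r) = Ideal.Quotient.mk _ r := fun r => by
    induction r using MvPolynomial.induction_on with
    | C c => rw [hC, h1]
    | add p q hp hq => rw [map_add, map_add, hp, hq, map_add]
    | mul_X p i hp =>
      rw [map_mul, map_mul, hp, map_mul]
      rcases i with i | i
      · rw [hl, h1]
      · rw [hr, map_mul, h1, h2, mul_one]
  have h4 : ∀ p : Pol N ℂ, ψ (rename inl p) = a (rename inl p) := fun p => by
    induction p using MvPolynomial.induction_on with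
    | C c => rw [rename_C, hC]
    | add p q hp hq => rw [map_add, map_add, hp, hq, map_add]
    | mul_X p i hp => rw [map_mul, map_mul, hp, map_mul, rename_X, hl]
  have h5 : ψ (ff N ℂ - 1) = 0 := by
    rw [map_sub, map_one, ← ht, sub_eq_zero]
    change ψ (∑ i, X (inl i) * X (inr i)) = a (∑ i, X (inl i) * X (inr i)) * t
    rw [map_sum, map_sum, Finset.sum_mul]
    exact Finset.sum_congr rfl fun i _ => by rw [map_mul, hl, hr, map_mul, mul_assoc]
  obtain ⟨⟨b, n, rfl⟩, hb⟩ := IsLocalization.exist_integer_multiples_of_finite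
    (Submonoid.powers (ff N ℂ)) fun i => ψ (v i)
  choose v' hv' using hb
  have h6 : ∀ i, a (v' i) = a (ff N ℂ ^ n) * ψ (v i) := fun i =>
    (hv' i).trans (Algebra.smul_def _ _)
  refine ⟨v', fun i => Ideal.Quotient.eq.1 ?_, fun c hc => ?_⟩
  · rw [← h1 (v' i), h6, map_mul, h1, h3, map_pow, hf, one_pow, one_mul]
  · obtain ⟨s, hs⟩ := Ideal.mem_span_singleton'.1 hc
    have h7 := congrArg ψ hs
    rw [map_mul, h5, mul_zero, map_sum] at h7
    refine IsLocalization.injective S (M := Submonoid.powers (ff N ℂ))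
      (Submonoid.powers_le.2 (ff_reg hN)) ?_
    change a _ = a 0
    rw [map_zero, map_sum, ← mul_zero (a (ff N ℂ ^ n)), h7, Finset.mul_sum]
    exact Finset.sum_congr rfl fun j _ => by rw [map_mul, map_mul, h4, h6, mul_left_comm]

/-- Exactness survives on the locus `∑ x y = 1`. -/
theorem exact_lift (hN : 0 < N) {L : Matrix ι ι (Pol N ℂ)} {i₀ : ι}
    (h : ∀ v, L *ᵥ v = 0 → v i₀ = 0 → ∃ u, v = L *ᵥ u) (v : ι → RR N ℂ)
    (hv : ∀ i, (L.map (rename inl) *ᵥ v) i ∈ Ideal.span {ff N ℂ - 1})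
    (h0 : v i₀ ∈ Ideal.span {ff N ℂ - 1}) :
    ∃ u : ι → RR N ℂ, ∀ i, (v - L.map (rename inl) *ᵥ u) i ∈ Ideal.span {ff N ℂ - 1} := by
  obtain ⟨v', h1, h2⟩ := sh2_key hN v
  have h3 : ∀ w : ι → RR N ℂ, ∑ j, rename inl ((Pi.single i₀ 1 : ι → Pol N ℂ) j) * w j = w i₀ :=
    fun w => by
      rw [Finset.sum_eq_single i₀ (fun j _ hj => by simp [hj]) (by simp)]
      simp
  obtain ⟨u, hu⟩ := sh2_free h v' (fun i => h2 (L i) (hv i))
    (by rw [← h3 v', h2 _ (by rw [h3]; exact h0)])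
  refine ⟨u, fun i => ?_⟩
  have h4 := h1 i
  rw [hu i] at h4
  exact h4

theorem reg_ff (hN : 0 < N) {F : Pol N ℂ} (hF : F ≠ 0) {r : RR N ℂ}
    (h : rename inl F * r ∈ Ideal.span {ff N ℂ - 1}) : r ∈ Ideal.span {ff N ℂ - 1} := by
  obtain ⟨v', h1, h2⟩ := sh2_key hN fun _ : Unit => r
  have h3 := h2 (fun _ => F) (by simpa using h)
  have h4 : rename (inl : Fin N → Fin N ⊕ Fin N) F ≠ 0 := fun h5 =>
    hF (rename_injective _ inl_injective (h5.trans (map_zero _).symm))
  rw [Fintype.sum_unique, mul_eq_zero] at h3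
  have h5 := h1 default
  rwa [h3.resolve_left h4, sub_zero] at h5

theorem shamash {k d : ℕ} (hk : 1 ≤ k) (hN : 0 < N) {F : Pol N ℂ} (hF : F ≠ 0) {par : ι → ℕ}
    {wt : ι → ℤ} {δ : Matrix ι ι (Pol N ℂ)} {g : Fin N → RR N ℂ} (h : IsMF d F par wt δ)
    (hg : ∑ i, g i * rename inl (pderiv i F) - 1 ∈ Ideal.span {ff N ℂ - 1})
    {I : Ideal (Pol N ℂ)} (hr : Resolves par δ I) :
    ∃ u : ℂ, IsQ u ∧ HasCh k
      (ModuleCat.of (TT F) (TT F ⧸ (I.map (rename inl)).map (Ideal.Quotient.mk (relJ F))))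
      (u • chw k ((ezero par g δ).map (Ideal.Quotient.mk (relJ F)))) := by
  have hle : Ideal.span {ff N ℂ - 1} ≤ relJ F :=
    Ideal.span_mono (Set.singleton_subset_iff.2 (Or.inr rfl))
  obtain ⟨q, hq⟩ : ∃ q, q = Ideal.Quotient.mk (Ideal.span {ff N ℂ - 1}) := ⟨_, rfl⟩
  have q0 : ∀ r, q r = 0 ↔ r ∈ Ideal.span {ff N ℂ - 1} := fun r =>
    hq ▸ Ideal.Quotient.eq_zero_iff_mem
  have qs : Function.Surjective q := hq ▸ Ideal.Quotient.mk_surjective
  have qf : (Ideal.Quotient.factor hle).comp q = Ideal.Quotient.mk (relJ F) :=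
    hq ▸ Ideal.Quotient.factor_comp_mk hle
  have qf' : ∀ r, Ideal.Quotient.factor hle (q r) = Ideal.Quotient.mk (relJ F) r := fun r =>
    RingHom.congr_fun qf r
  have hreg : q (rename inl F) ∈ nonZeroDivisors (RR N ℂ ⧸ Ideal.span {ff N ℂ - 1}) := by
    refine mem_nonZeroDivisors_iff_left.2 fun r hr => ?_
    obtain ⟨r, rfl⟩ := qs r
    rw [← map_mul, q0] at hr
    exact (q0 r).2 (reg_ff hN hF hr)
  have hker : ∀ r, Ideal.Quotient.factor hle r = 0 ↔ q (rename inl F) ∣ r := fun r => by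
    obtain ⟨r, rfl⟩ := qs r
    rw [qf', Ideal.Quotient.eq_zero_iff_mem, relJ, ← ff, Ideal.mem_span_pair]
    constructor
    · rintro ⟨a, b, rfl⟩
      refine ⟨q a, ?_⟩
      rw [map_add, (q0 _).2 (Ideal.mem_span_singleton'.2 ⟨b, rfl⟩), add_zero, map_mul, mul_comm]
    · rintro ⟨a, ha⟩
      obtain ⟨a, rfl⟩ := qs a
      rw [← map_mul, ← sub_eq_zero, ← map_sub, q0] at ha
      obtain ⟨b, hb⟩ := Ideal.mem_span_singleton'.1 ha
      exact ⟨a, b, by rw [hb]; ring⟩
  have hm : ∀ m : Matrix ι ι (RR N ℂ), m.map q = q.mapMatrix m := fun _ => rfl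
  have hsc : ∀ r, (scalar ι r).map q = scalar ι (q r) := fun r => by
    rw [scalar_apply, scalar_apply, diagonal_map (map_zero q)]
  have h2 : (δ.map (rename inl)).map q * (δ.map (rename inl)).map q =
      scalar ι (q (rename inl F)) := by
    rw [← Matrix.map_mul, ← Matrix.map_mul, h.sq, ← hsc, scalar_apply, scalar_apply,
      diagonal_map (map_zero _)]
  have h1 : (δ.map (rename inl)).map q * (kap g δ).map q +
      (kap g δ).map q * (δ.map (rename inl)).map q = 1 := by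
    rw [hm, hm, ← map_mul, ← map_mul, ← map_add, kap_comm h, ← hm, hsc]
    rw [← q0, map_sub, map_one, sub_eq_zero] at hg
    rw [hg, map_one]
  have hlow : low par ((δ.map (rename inl)).map q) = ((low par δ).map (rename inl)).map q := by
    ext i j
    simp only [low, of_apply, map_apply]
    split_ifs <;> simp
  have hres : Resolves par ((δ.map (rename inl)).map q) ((I.map (rename inl)).map q) := by
    obtain ⟨i₀, r1, r2, r3, r4⟩ := hr
    refine ⟨i₀, r1, fun i j hij => by simp [r2 i j hij], ?_, fun v hv h0 => ?_⟩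
    · rw [hlow, r3, Ideal.map_span, Ideal.map_span, ← Set.range_comp, ← Set.range_comp]
      rfl
    · obtain ⟨v, rfl⟩ : ∃ w, v = q ∘ w := ⟨fun i => (qs (v i)).choose,
        funext fun i => (qs (v i)).choose_spec.symm⟩
      rw [hlow] at hv ⊢
      obtain ⟨u, hu⟩ := exact_lift hN r4 v
        (fun i => (q0 _).1 ((RingHom.map_mulVec q _ _ i).trans (congrFun hv i))) ((q0 _).1 h0)
      refine ⟨q ∘ u, funext fun i => ?_⟩
      have h3 := (q0 _).2 (hu i)
      rw [Pi.sub_apply, map_sub, sub_eq_zero, RingHom.map_mulVec] at h3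
      exact h3
  obtain ⟨u, hu, hc⟩ := shamash_aux hk (Ideal.Quotient.factor hle)
    (Ideal.Quotient.factor_surjective hle) hreg hker
    (fun i j hij => h.odd i j fun h0 => hij (by simp [h0]))
    (fun i j hij => kap_odd h i j fun h0 => hij (by rw [map_apply, h0, map_zero])) h2 h1 hres
  have e1 : ((δ.map (rename inl)).map q * (kap g δ).map q *
      diagonal fun i => if Even (par i) then 1 else 0).map (Ideal.Quotient.factor hle) =
        (ezero par g δ).map (Ideal.Quotient.mk (relJ F)) := by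
    rw [← qf, RingHom.coe_comp, ← Matrix.map_map, ezero, Matrix.map_mul (f := q),
      Matrix.map_mul (f := q), diagonal_map (map_zero q)]
    simp only [apply_ite q, map_one, map_zero]
  rw [Ideal.map_map, qf, e1] at hc
  exact ⟨u, hu, hc⟩

end Pool.Agent.Lib.MP_e9c0f3_ag.DR
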