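import Pool.Agent.Lib.MP_e9c0f3_ag.DR.TG2

/-! The residue of the adapted superconnection. -/

open MvPolynomial Sum

namespace Pool.Agent.Lib.MP_e9c0f3_ag.DR

open Om

variable {N : ℕ} {A : Type} [CommRing A] [Algebra ℂ A] {ι : Type} [Fintype ι] [DecidableEq ι]
  {d : ℕ} {F : Pol N A} {par : ι → ℕ} {wt : ι → ℤ} {δ : Matrix ι ι (Pol N A)} {g : Fin N → RR N A}

/-- The residue formula in a supercommutative differential algebra. -/
theorem tg3_res {𝒜 : Type} [Ring 𝒜] [Algebra ℂ 𝒜] (S : SD 𝒜) (par : ι → ℕ) (k : ℕ)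
    {a κ w : Matrix ι ι 𝒜} {f : 𝒜} (hf : S.σ f = f) (ha : S.mtw par a = -a)
    (hκ : S.mtw par κ = -κ) (h0 : a * a = Matrix.scalar ι f) (h1 : a * κ + κ * a = 1)
    (hw : w = -(κ * (S.mD par a - S.mD par (Matrix.scalar ι f) * κ))) :
    ((k : ℂ) + 1) • (S.d f * S.d (S.mstr par (a * κ * (S.mD par w + w * w) ^ k))) =
      (2 : ℂ) • (f * S.mstr par ((S.mD par w + w * w) ^ (k + 1))) := by
  have hsq := S.sq par hf ha h0
  obtain ⟨hodd, h2, h3, h4⟩ := hsq.adapted (κ := κ) hκ h1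
  have h5 := h2.residue (κ := κ) hκ h1 (h4.trans (by rw [h3])) k
  have hK : ((S.cv par).shift _ hodd).K = S.mD par w + w * w := by
    rw [hw]
    exact congrArg (· + _) (zero_add _)
  rw [hK] at h5
  rw [← S.mstr_scalar par hf]
  exact h5

section Quot

variable {𝒜 : Type} [Ring 𝒜] [Algebra ℂ 𝒜] {S : SD 𝒜} {φ : OO N A →ₐ[ℂ] 𝒜}

omit [Fintype ι] [DecidableEq ι] in
theorem tg3_evm (hφ : SD.Hom (SO N A) S φ) (m : Matrix ι ι (RR N A)) :
    S.EvM ((m.map of).map φ) := by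
  intro i j
  rw [Matrix.map_apply, Matrix.map_apply, ← hφ.map_σ, SO_σ, sg_of]

omit [Fintype ι] [DecidableEq ι] in
theorem tg3_xo (δ : Matrix ι ι (Pol N A)) :
    δ.map xo = ((δ.map (rename inl)).map of : Matrix ι ι (OO N A)) := rfl

theorem tg3_map_mul (m n : Matrix ι ι (OO N A)) : (m * n).map φ = m.map φ * n.map φ :=
  map_mul (φ : OO N A →+* 𝒜).mapMatrix m n

theorem tg3_map_pow (m : Matrix ι ι (OO N A)) (k : ℕ) : (m ^ k).map φ = m.map φ ^ k :=
  map_pow (φ : OO N A →+* 𝒜).mapMatrix m k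

theorem tg3_map_add (m n : Matrix ι ι (OO N A)) : (m + n).map φ = m.map φ + n.map φ :=
  map_add (φ : OO N A →+* 𝒜).mapMatrix m n

theorem tg3_map_sub (m n : Matrix ι ι (OO N A)) : (m - n).map φ = m.map φ - n.map φ :=
  map_sub (φ : OO N A →+* 𝒜).mapMatrix m n

theorem tg3_map_neg (m : Matrix ι ι (OO N A)) : (-m).map φ = -m.map φ :=
  map_neg (φ : OO N A →+* 𝒜).mapMatrix m

omit [Fintype ι] in
theorem tg3_map_scalar {R R' : Type} [Semiring R] [Semiring R'] [Fintype ι] (f : R → R')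
    (h0 : f 0 = 0) (r : R) : (Matrix.scalar ι r).map f = Matrix.scalar ι (f r) := by
  rw [Matrix.scalar_apply, Matrix.scalar_apply, Matrix.diagonal_map h0]

theorem tg3_odd_δ (h : IsMF d F par wt δ) (i j : ι) (hij : (δ.map xo).map φ i j ≠ 0) :
    Odd (par i + par j) := by
  refine h.odd i j fun h0 => hij ?_
  rw [Matrix.map_apply, Matrix.map_apply, h0, xo, map_zero, map_zero, map_zero]

theorem tg3_odd_κ (h : IsMF d F par wt δ) (i j : ι) (hij : ((kap g δ).map of).map φ i j ≠ 0) :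
    Odd (par i + par j) := by
  refine kap_odd h (g := g) i j fun h0 => hij ?_
  rw [Matrix.map_apply, Matrix.map_apply, h0, map_zero, map_zero]

theorem tg3_of_mul (m n : Matrix ι ι (RR N A)) :
    ((m * n).map of : Matrix ι ι (OO N A)) = m.map of * n.map of :=
  map_mul ((of : RR N A →ₐ[ℂ] OO N A) : RR N A →+* OO N A).mapMatrix m n

theorem tg3_of_add (m n : Matrix ι ι (RR N A)) :
    ((m + n).map of : Matrix ι ι (OO N A)) = m.map of + n.map of :=
  map_add ((of : RR N A →ₐ[ℂ] OO N A) : RR N A →+* OO N A).mapMatrix m n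

theorem tg3_sq (h : IsMF d F par wt δ) :
    (δ.map xo).map φ * (δ.map xo).map φ = Matrix.scalar ι (φ (xo F)) := by
  have h1 : δ.map (rename inl) * δ.map (rename inl) =
      ((δ * δ).map (rename inl) : Matrix ι ι (RR N A)) :=
    (map_mul ((rename inl : Pol N A →ₐ[A] RR N A) : Pol N A →+* RR N A).mapMatrix δ δ).symm
  rw [← tg3_map_mul, tg3_xo, ← tg3_of_mul, h1, h.sq, tg3_map_scalar _ (map_zero _),
    tg3_map_scalar _ (map_zero _), tg3_map_scalar _ (map_zero _), xo]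

theorem tg3_one (h : IsMF d F par wt δ)
    (hg : φ (of (∑ i, g i * rename inl (pderiv i F))) = 1) :
    (δ.map xo).map φ * ((kap g δ).map of).map φ + ((kap g δ).map of).map φ * (δ.map xo).map φ =
      1 := by
  rw [← tg3_map_mul, ← tg3_map_mul, ← tg3_map_add, tg3_xo, ← tg3_of_mul, ← tg3_of_mul,
    ← tg3_of_add, kap_comm h, tg3_map_scalar _ (map_zero _), tg3_map_scalar _ (map_zero _), hg,
    map_one]

theorem tg3_varpi (hφ : SD.Hom (SO N A) S φ) :
    (varpi F par g δ).map φ = -(((kap g δ).map of).map φ * (S.mD par ((δ.map xo).map φ) -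
      S.mD par (Matrix.scalar ι (φ (xo F))) * ((kap g δ).map of).map φ)) := by
  rw [varpi, tg3_map_neg, tg3_map_mul, tg3_map_sub, tg3_map_mul, hφ.mD, hφ.mD,
    tg3_map_scalar _ (map_zero _)]

theorem tg3_curv (hφ : SD.Hom (SO N A) S φ) :
    (curv F par g δ).map φ = S.mD par ((varpi F par g δ).map φ) +
      (varpi F par g δ).map φ * (varpi F par g δ).map φ := by
  rw [curv, tg3_map_add, tg3_map_mul, hφ.mD]

theorem tg3_ezero : ((ezero par g δ).map of).map φ =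
    (δ.map xo).map φ * ((kap g δ).map of).map φ *
      Matrix.diagonal fun i => if Even (par i) then 1 else 0 := by
  rw [ezero, tg3_of_mul, tg3_of_mul, tg3_map_mul, tg3_map_mul, ← tg3_xo,
    Matrix.diagonal_map (map_zero _), Matrix.diagonal_map (map_zero _)]
  congr 2
  funext i
  split_ifs
  · rw [map_one, map_one]
  · rw [map_zero, map_zero]

theorem tg3_unit {I : Ideal (OO N A)} [I.IsTwoSided] (hI : II N A ≤ I) {r : RR N A}
    (h : r - 1 ∈ Ideal.span {ff N A - 1}) : Ideal.Quotient.mkₐ ℂ I (of r) = 1 := by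
  have h1 := hI (of_mem_II h)
  rw [map_sub, map_one] at h1
  exact Ideal.Quotient.eq.2 h1

end Quot

theorem tg_psi (k : ℕ) (h : IsMF d F par wt δ)
    (hg : ∑ i, g i * rename inl (pderiv i F) - 1 ∈ Ideal.span {ff N A - 1}) :
    IsPsi F ((((k : ℂ) + 1) / 2) • (SO N A).mstr par
      (δ.map xo * (kap g δ).map of * curv F par g δ ^ k))
      ((SO N A).mstr par (curv F par g δ ^ (k + 1))) := by
  have hφ := hom_SA (N := N) (A := A)
  have hf : (SA N A).σ (Ideal.Quotient.mkₐ ℂ (II N A) (xo F)) =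
      Ideal.Quotient.mkₐ ℂ (II N A) (xo F) := by
    rw [← hφ.map_σ, SO_σ, xo, sg_of]
  have h1 := tg3_res (SA N A) par k hf
    ((SA N A).mtw_odd par (tg3_evm hφ (δ.map (rename inl))) (tg3_odd_δ h))
    ((SA N A).mtw_odd par (tg3_evm hφ (kap g δ)) (tg3_odd_κ h)) (tg3_sq h)
    (tg3_one h (tg3_unit le_rfl hg)) (tg3_varpi hφ)
  rw [← tg3_curv hφ, ← tg3_xo, ← tg3_map_pow, ← tg3_map_pow, ← tg3_map_mul, ← tg3_map_mul,
    ← hφ.mstr, ← hφ.mstr, ← hφ.map_d, ← hφ.map_d, ← map_mul (Ideal.Quotient.mkₐ ℂ (II N A)),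
    ← map_mul (Ideal.Quotient.mkₐ ℂ (II N A)), ← map_smul (Ideal.Quotient.mkₐ ℂ (II N A)),
    ← map_smul (Ideal.Quotient.mkₐ ℂ (II N A))] at h1
  have h3 : (2 : ℂ) • (xo F * (SO N A).mstr par (curv F par g δ ^ (k + 1))) -
      ((k : ℂ) + 1) • (dx (xo F) * dx ((SO N A).mstr par
        (δ.map xo * (kap g δ).map of * curv F par g δ ^ k))) ∈ II N A :=
    Ideal.Quotient.eq.1 h1.symm
  have h2 := smul_II (1 / 2 : ℂ) h3
  rw [smul_sub, smul_smul, smul_smul, show (1 / 2 : ℂ) * 2 = 1 by norm_num, one_smul,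
    show (1 / 2 : ℂ) * ((k : ℂ) + 1) = ((k : ℂ) + 1) / 2 by ring] at h2
  rw [IsPsi, map_smul, mul_smul_comm]
  exact h2

theorem tg_cone {k : ℕ} (hk : 1 ≤ k) (h : IsMF d F par wt δ)
    (hg : ∑ i, g i * rename inl (pderiv i F) - 1 ∈ Ideal.span {ff N A - 1}) :
    ∃ v, (SO N A).mstr par (δ.map xo * (kap g δ).map of * curv F par g δ ^ k) -
      (2 : ℂ) • (SO N A).ch k ((ezero par g δ).map of) - dx v ∈ JJ F := by
  have hφ := hom_ST F
  have hf : Ideal.Quotient.mkₐ ℂ (JJ F) (xo F) = 0 :=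
    Ideal.Quotient.eq_zero_iff_mem.2 (id_xo_mem_JJ F)
  have h0 := tg3_sq (φ := Ideal.Quotient.mkₐ ℂ (JJ F)) h
  have hw := tg3_varpi (F := F) (par := par) (δ := δ) (g := g) hφ
  rw [hf, map_zero] at h0
  rw [hf, map_zero, map_zero, zero_mul, sub_zero] at hw
  obtain ⟨v, hv⟩ := (ST F).ch_contr hk par (tg3_evm hφ (δ.map (rename inl))) (tg3_evm hφ (kap g δ))
    (tg3_odd_δ h) (tg3_odd_κ h) h0 (tg3_one h (tg3_unit (II_le_JJ F) hg))
  obtain ⟨v, rfl⟩ := Ideal.Quotient.mkₐ_surjective ℂ (JJ F) v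
  rw [← tg3_xo, ← hw, ← tg3_curv hφ, ← tg3_ezero, ← tg3_map_pow, ← tg3_map_mul, ← tg3_map_mul,
    ← hφ.mstr, ← hφ.ch, ← hφ.map_d, ← map_smul, ← map_sub] at hv
  exact ⟨v, Ideal.Quotient.eq.1 hv⟩

theorem rep_ch {k : ℕ} (hk : 1 ≤ k) (hN : N = 2 * (k + 1)) (hF : F.IsHomogeneous d)
    (h : IsMF d F par wt δ)
    (hg : ∑ i, g i * rename inl (pderiv i F) - 1 ∈ Ideal.span {ff N A - 1}) :
    ∃ t : ℂ, IsQ t ∧ Rep F ((SO N A).ch k ((ezero par g δ).map of)) (t • ch par δ) := by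
  obtain ⟨t, ht, η, hη, h1⟩ := tg_deg hN hF h hg
  obtain ⟨v, h3⟩ := tg_cone hk h hg
  have h4 : Rep F _ (t • ch par δ) := ⟨_, η, tg_psi k h hg, hη, h1⟩
  have hk1 : (k : ℂ) + 1 ≠ 0 := by exact_mod_cast Nat.succ_ne_zero k
  have hq : IsQ ((k : ℂ) + 1) := by exact_mod_cast isQ_nat (Nat.succ_ne_zero k)
  refine ⟨((k : ℂ) + 1)⁻¹ * t, hq.inv.mul ht, ?_⟩
  rw [mul_smul]
  refine (h4.smul _).congr (η := (1 / 2 : ℂ) • v) ?_
  have h5 := smul_JJ (1 / 2 : ℂ) h3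
  rw [smul_sub, smul_sub, smul_smul] at h5
  rw [smul_smul, map_smul, show ((k : ℂ) + 1)⁻¹ * (((k : ℂ) + 1) / 2) = 1 / 2 by field_simp]
  simpa using h5

end Pool.Agent.Lib.MP_e9c0f3_ag.DR
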