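import Pool.Agent.Lib.MP_e9c0f3_ag.Main
import Pool.Agent.Lib.MP_e9c0f3_ag.DR.GM3
import Pool.Agent.Lib.MP_e9c0f3_ag.DR.Jac
import Pool.Agent.Lib.MP_e9c0f3_ag.DR.Gy
import Pool.Agent.Lib.MP_e9c0f3_ag.DR.Sh2
import Pool.Agent.Lib.MP_e9c0f3_ag.DR.TG3
import Pool.Agent.Lib.MP_e9c0f3_ag.DR.Desc
import Pool.Agent.Lib.MP_e9c0f3_ag.DR.K0
import Pool.Agent.Lib.MP_e9c0f3_ag.DR.MF2

/-! Assembly. -/

open MvPolynomial Sum

namespace Pool.Agent.Lib.MP_e9c0f3_ag.DR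

open Om

theorem exact_smul {N : ℕ} {A : Type} [CommRing A] [Algebra ℂ A] {F P : Pol N A} (h : Exact F P)
    (t : ℂ) : Exact F (t • P) := by
  obtain ⟨a, rfl⟩ := h
  refine ⟨fun i => t • a i, ?_⟩
  rw [Finset.smul_sum]
  refine Finset.sum_congr rfl fun i _ => ?_
  rw [smul_add, Derivation.map_smul_of_tower, mul_smul_comm]

theorem coeffMap_smul {N : ℕ} {A : Type} [CommRing A] [Algebra ℂ A] (D : Derivation ℂ A A) (t : ℂ)
    (P : Pol N A) : coeffMap D (t • P) = t • coeffMap D P := by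
  ext m
  rw [coeff_coeffMap (map_zero D), coeff_smul, coeff_smul, coeff_coeffMap (map_zero D),
    Derivation.map_smul]

theorem ne_zero_of_isol {N : ℕ} (hN : 0 < N) {F : Pol N ℂ} (h : Isol F) : F ≠ 0 := by
  rintro rfl
  obtain ⟨M, hM⟩ := h ⟨0, hN⟩
  have h1 : jac (0 : Pol N ℂ) = ⊥ := by simp [jac]
  rw [h1, Ideal.mem_bot] at hM
  exact pow_ne_zero _ (X_ne_zero _) hM

/-- The fibre where the class is that of a cycle. -/
theorem start_fibre {N k d : ℕ} (hk : 1 ≤ k) (hN : N = 2 * (k + 1)) {F P : Pol N ℂ}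
    (hF : F.IsHomogeneous d) (hi : Isol F) {I : Ideal (Pol N ℂ)}
    (hI : ∀ p ∈ I, ∀ n, homogeneousComponent n p ∈ I) {ι : Type} [Fintype ι] [DecidableEq ι]
    {par : ι → ℕ} {wt : ι → ℤ} {δ : Matrix ι ι (Pol N ℂ)} (hδ : IsMF d F par wt δ)
    (hr : Resolves par δ I) {γ ω : Form (Jou F)}
    (hγ : HasCh k (ModuleCat.of (Jou F) (Jou F ⧸ cyc F I)) γ) {c a : ℂ}
    (h0 : IsExact (ω - c • γ - a • chw k (prj F))) {x : OO N ℂ}
    (hx : Ideal.Quotient.mk _ x = phiB F ω) (hP : Rp F x P) :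
    ∃ t : ℂ, IsQ t ∧ Exact F (P - (c * t) • ch par δ) := by
  have hN0 : 0 < N := by omega
  have hF0 := ne_zero_of_isol hN0 hi
  obtain ⟨g, -, hg⟩ := exists_unit hF hi
  obtain ⟨t, ht, h1⟩ := rep_ch hk hN hF hδ hg
  obtain ⟨u, hu, h2⟩ := shamash hk hN0 hF0 hδ hg hr
  have := flat_TT hF
  have h3 := hγ.quotient (T := TT F)
  rw [cyc_map hI] at h3
  obtain ⟨v, h4⟩ := HasCh.unique (isDG_T F) h3 h2
  obtain ⟨v, rfl⟩ := Ideal.Quotient.mk_surjective v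
  obtain ⟨μ, hμ⟩ := h0
  have h5 := (isDG_B F).isD hμ
  obtain ⟨y, hy⟩ := Ideal.Quotient.mk_surjective (phiB F μ)
  have h6 : phiT F (pull (IsScalarTower.toAlgHom ℂ (Jou F) (TT F)) γ) = phiB F γ := rfl
  have h7 : phiT F (chw k ((ezero par g δ).map (Ideal.Quotient.mk (relJ F)))) =
      Ideal.Quotient.mk _ ((SO N ℂ).ch k ((ezero par g δ).map of)) := by
    rw [(isDG_T F).chw]
    exact ((hom_ST F).ch k _).symm
  rw [h6, (isDG_T F).smul, h7, ST_d] at h4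
  rw [map_sub, map_sub, (isDG_B F).smul, (isDG_B F).smul, phiB_prj, ← hx, ← hy, ST_d] at h5
  obtain ⟨j, rfl⟩ : ∃ j, k = j + 1 := ⟨k - 1, by omega⟩
  have h8 : dx (th N ℂ * dx (th N ℂ) ^ j) = dx (th N ℂ) ^ (j + 1) := by
    have h9 : ∀ n, dx (dx (th N ℂ) ^ n) = 0 := fun n => by
      induction n with
      | zero => exact (SO N ℂ).d_one
      | succ n ih => rw [pow_succ', dx_mul, dx_dx, ih, zero_mul, mul_zero, add_zero]
    rw [dx_mul, h9, mul_zero, add_zero, pow_succ']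
  refine ⟨u * t, hu.mul ht, ?_⟩
  have h10 := hP.sub (h1.smul (c * u)).rp
  rw [smul_smul, mul_assoc] at h10
  refine h10.exact hN0 hF0 hF (η := y + c • v + a • (th N ℂ * dx (th N ℂ) ^ j)) ?_
  rw [← Ideal.Quotient.eq_zero_iff_mem, map_add, map_add, map_smul, map_smul, h8]
  have hs : ∀ (t : ℂ) (z : OO N ℂ), Ideal.Quotient.mk (JJ F) (t • z) =
      t • Ideal.Quotient.mk (JJ F) z := fun _ _ => rfl
  rw [map_sub, map_sub, map_add, map_add, hs, hs, hs, ← h4, ← h5, mul_smul, smul_sub]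
  abel

/-- A Hodge class has a representative of low degree. -/
theorem hodge_fibre {N k d : ℕ} (hk : 1 ≤ k) (hN : N = 2 * (k + 1)) (hd : 2 ≤ d) {F P : Pol N ℂ}
    (hF : F.IsHomogeneous d) (hF0 : F ≠ 0) {ω μ : Form (Jou F)} (hμ : μ ∈ hodge k F)
    (h : IsExact (ω - μ)) {x : OO N ℂ} (hx : Ideal.Quotient.mk _ x = phiB F ω)
    (hx' : x ∈ Sp N ℂ fun a b p q => p + q = (2 * k : ℕ) ∧ a + p - b - q = 0) (hcl : dx x ∈ JJ F)
    (hP : Rp F x P) : ∃ P' : Pol N ℂ, P'.totalDegree ≤ (k + 1) * (d - 2) ∧ Exact F (P - P') := by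
  have h0 : hodge k F ≤ bt_K F k := by
    refine Ideal.span_le.2 ?_
    rintro _ ⟨i, j, a, rfl⟩
    have h1 := bt_K_prod (F := F) (List.ofFn fun t => prj F (i t) (a t) • dd (prj F (j t) (a t)) -
      prj F (j t) (a t) • dd (prj F (i t) (a t))) fun η hη => by
        obtain ⟨t, rfl⟩ := (List.mem_ofFn' _ _).1 hη
        exact bt_gen _ _ _
    rwa [List.length_ofFn] at h1
  obtain ⟨y, h1, h2⟩ := h0 hμ
  obtain ⟨ν, hν⟩ := h
  obtain ⟨v, hv⟩ := Ideal.Quotient.mk_surjective (phiB F ν)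
  have h3 := (isDG_B F).isD hν
  rw [map_sub, ← hx, ← h2, ← hv, ST_d, ← map_sub] at h3
  have h4 := cut_JJ hF (fun s v => s = (2 * k : ℕ) ∧ v = 0) (Ideal.Quotient.eq.1 h3)
  rw [map_sub, map_sub, cut_of_mem hx', cut_dx (fun s v => s = (2 * k : ℕ) ∧ v = 0)] at h4
  have h5 := dx_JJ h4
  rw [map_sub, map_sub, dx_dx, sub_zero] at h5
  have h6 := (JJ F).sub_mem hcl h5
  rw [sub_sub_cancel] at h6
  obtain ⟨P', h7, h8⟩ := rep_exists hk hN hd hF0 hF (Sp_mono (cut_mem_of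
    (fun a b p q => p + q = (2 * k : ℕ) ∧ a + p - b - q = 0) h1)
      fun _ _ _ _ _ _ _ _ _ _ h => by omega) h6
  exact ⟨P', h7, (hP.sub h8.rp).exact (by omega) hF0 hF h4⟩

end Pool.Agent.Lib.MP_e9c0f3_ag.DR
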