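import Pool.Agent.Lib.MP_e9c0f3_ag.DR.CW

/-! The Chern-Weil form of a transported idempotent. -/

open Matrix

namespace Pool.Agent.Lib.MP_e9c0f3_ag.DR

namespace SD

variable {𝒜 : Type} [Ring 𝒜] [Algebra ℂ 𝒜] (S : SD 𝒜)
variable {ι κ κ' : Type} [Fintype ι] [DecidableEq ι] [Fintype κ] [DecidableEq κ] [Fintype κ']
  [DecidableEq κ']

theorem tr_pow {M : Type} [Ring M] {P K : M} (hPP : P * P = P) (h : P * K = K * P) (j : ℕ) :
    P * K ^ j = (P * K * P) ^ j * P := by
  induction j with
  | zero => rw [pow_zero, pow_zero, mul_one, one_mul]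
  | succ j ih =>
    rw [pow_succ', pow_succ', mul_assoc (P * K * P), ← ih, mul_assoc (P * K) P, ← mul_assoc P P,
      hPP, ← mul_assoc (P * K) P, mul_assoc P K P, ← h, ← mul_assoc P P, hPP, mul_assoc]

theorem tr_binom {M : Type} [Ring M] {T R e : M} (hT : ∀ m, Commute T m) (hee : e * e = e)
    (hRe : R * e = R) (heR : e * R = R) (j : ℕ) :
    (R + T * e) ^ j * e = ∑ i ∈ Finset.range (j + 1), j.choose i • (T ^ i * (R ^ (j - i) * e)) := by
  have hc : Commute e R := heR.trans hRe.symm
  have h1 : Commute (T * e) R := (hT R).mul_left hc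
  have h2 : ∀ i : ℕ, e ^ i * e = e := fun i => by
    induction i with
    | zero => rw [pow_zero, one_mul]
    | succ i ih => rw [pow_succ, ih, hee]
  rw [add_comm, h1.add_pow, Finset.sum_mul]
  refine Finset.sum_congr rfl fun i _ => ?_
  rw [(hT e).mul_pow, ← Nat.cast_comm, mul_assoc, ← nsmul_eq_mul, mul_assoc, mul_assoc,
    ← mul_assoc (e ^ i), (hc.pow_pow i (j - i)).eq, mul_assoc, h2]

omit [DecidableEq ι] [Fintype κ] [DecidableEq κ] [Fintype κ'] [DecidableEq κ'] in
theorem tr_d_mul {m : Matrix κ ι 𝒜} (hm : S.EvM m) (n : Matrix ι κ' 𝒜) :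
    (m * n).map S.d = m.map S.d * n + m * n.map S.d := by
  ext i j
  simp only [Matrix.map_apply, Matrix.add_apply, Matrix.mul_apply, map_sum]
  rw [← Finset.sum_add_distrib]
  exact Finset.sum_congr rfl fun l _ => S.d_mul_even (hm i l) _

omit [DecidableEq ι] [DecidableEq κ] in
theorem tr_trace {m : Matrix κ ι 𝒜} (hm : S.EvM m) (n : Matrix ι κ 𝒜) :
    (m * n).trace = (n * m).trace := by
  simp only [Matrix.trace, Matrix.diag_apply, Matrix.mul_apply]
  rw [Finset.sum_comm]
  exact Finset.sum_congr rfl fun i _ => Finset.sum_congr rfl fun l _ => S.comm_even _ _ (hm l i)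

omit [Fintype ι] in
theorem tr_d_diag (f : ι → 𝒜) : (diagonal f).map S.d = diagonal fun i => S.d (f i) :=
  diagonal_map (map_zero S.d)

theorem tr_ww {θ : 𝒜} (hθ : S.σ θ = -θ) (n : ι → ℤ) :
    (diagonal fun i => n i • θ) * (diagonal fun i => n i • θ) = (0 : Matrix ι ι 𝒜) := by
  rw [diagonal_mul_diagonal]
  simp only [smul_mul_smul_comm, S.odd_sq hθ, smul_zero, diagonal_zero]

theorem ch_transport (j : ℕ) {U : Matrix κ ι 𝒜} {V : Matrix ι κ 𝒜} {e w X : Matrix ι ι 𝒜}
    (hU : S.EvM U) (hV : S.EvM V) (he : S.EvM e) (hVU : V * U = 1) (hee : e * e = e)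
    (hw : w = V * U.map S.d) (hX : X = e.map S.d + w * e - e * w) :
    S.ch j (U * e * V) = ((e * (X * X + w.map S.d + w * w) * e) ^ j * e).trace := by
  have hP := S.cw_evm_mul (S.cw_evm_mul hU he) hV
  have hdP : (U * e * V).map S.d
      = U.map S.d * e * V + U * e.map S.d * V + U * e * V.map S.d := by
    rw [S.tr_d_mul (S.cw_evm_mul hU he), S.tr_d_mul hU, Matrix.add_mul]
  have hdV : V.map S.d * U = -w := by
    have h := S.tr_d_mul hV U
    rw [hVU, ← diagonal_one, tr_d_diag, S.d_one, diagonal_zero, ← hw] at h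
    exact eq_neg_of_add_eq_zero_left h.symm
  have hdw : V.map S.d * U.map S.d = w.map S.d := by
    have h : (U.map S.d).map S.d = 0 := by
      ext i j
      exact S.d_d _
    rw [hw, S.tr_d_mul hV, h, Matrix.mul_zero, add_zero]
  have hde : e * (e.map S.d * e) = 0 := by
    have h := S.tr_d_mul he e
    rw [hee] at h
    have h2 := congrArg (fun x => e * x) h
    simp only [mul_add, ← mul_assoc, hee] at h2
    rw [← mul_assoc]
    exact left_eq_add.1 (h2.trans (add_comm _ _))
  have a1 : ∀ x : Matrix ι κ 𝒜, V * (U * x) = x := fun x => by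
    rw [← Matrix.mul_assoc, hVU, Matrix.one_mul]
  have a2 : ∀ x : Matrix ι κ 𝒜, V * (U.map S.d * x) = w * x := fun x => by
    rw [← Matrix.mul_assoc, ← hw]
  have a3 : ∀ x : Matrix ι κ 𝒜, V.map S.d * (U * x) = -(w * x) := fun x => by
    rw [← Matrix.mul_assoc, hdV, Matrix.neg_mul]
  have a4 : ∀ x : Matrix ι κ 𝒜, V.map S.d * (U.map S.d * x) = w.map S.d * x := fun x => by
    rw [← Matrix.mul_assoc, hdw]
  have a5 : ∀ x : Matrix ι κ 𝒜, e * (e * x) = e * x := fun x => by
    rw [← Matrix.mul_assoc, hee]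
  have a6 : ∀ x : Matrix ι κ 𝒜, e * (e.map S.d * (e * x)) = 0 := fun x => by
    rw [← Matrix.mul_assoc _ e, ← Matrix.mul_assoc, hde, Matrix.zero_mul]
  have hPP : U * e * V * (U * e * V) = U * e * V := by
    simp only [Matrix.mul_assoc, a1, a5]
  have hid := S.tr_d_mul hP (U * e * V)
  rw [hPP] at hid
  have hkey : U * e * V * ((U * e * V).map S.d * (U * e * V).map S.d) * (U * e * V)
      = U * (e * (X * X + w.map S.d + w * w) * e) * V := by
    rw [hdP, hX]
    generalize w.map S.d = dw at *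
    generalize e.map S.d = de at *
    generalize U.map S.d = dU at *
    generalize V.map S.d = dV at *
    simp only [Matrix.mul_add, Matrix.add_mul, Matrix.mul_sub, Matrix.sub_mul, Matrix.mul_assoc,
      a1, a2, a3, a4, a5, a6, Matrix.mul_neg, Matrix.neg_mul, Matrix.mul_zero, Matrix.zero_mul,
      neg_neg]
    abel
  have hcomm : U * e * V * ((U * e * V).map S.d * (U * e * V).map S.d)
      = (U * e * V).map S.d * (U * e * V).map S.d * (U * e * V) := by
    generalize (U * e * V).map S.d = D at hid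
    generalize U * e * V = P at hid
    have h1 : P * D = D - D * P := eq_sub_of_add_eq' hid.symm
    rw [← mul_assoc, h1, sub_mul, mul_assoc D P D, h1, mul_sub, sub_sub_cancel, mul_assoc]
  have hpow : ∀ (R : Matrix ι ι 𝒜) (n : ℕ),
      (U * R * V) ^ n * (U * e * V) = U * (R ^ n * e * V) := fun R n => by
    induction n with
    | zero => rw [pow_zero, pow_zero, one_mul, one_mul, Matrix.mul_assoc]
    | succ n ih =>
      rw [pow_succ', pow_succ', mul_assoc, ih]
      simp only [Matrix.mul_assoc, a1]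
  rw [ch, pow_mul, pow_two, tr_pow hPP hcomm, hkey, hpow, S.tr_trace hU, Matrix.mul_assoc, hVU,
    Matrix.mul_one]

theorem ch_shift (j : ℕ) {θ : 𝒜} (hθ : S.σ θ = -θ) (n : ι → ℤ) (c : ℤ) {U : Matrix κ ι 𝒜}
    {V : Matrix ι κ 𝒜} {U' : Matrix κ' ι 𝒜} {V' : Matrix ι κ' 𝒜} {e : Matrix ι ι 𝒜}
    (hU : S.EvM U) (hV : S.EvM V) (hU' : S.EvM U') (hV' : S.EvM V') (he : S.EvM e)
    (hVU : V * U = 1) (hVU' : V' * U' = 1) (hee : e * e = e)
    (hw : V * U.map S.d = diagonal fun i => n i • θ)
    (hw' : V' * U'.map S.d = diagonal fun i => (n i + c) • θ) :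
    S.ch j (U' * e * V') = ∑ i ∈ Finset.range (j + 1),
      ((j.choose i : ℂ) * (c : ℂ) ^ i) • (S.d θ ^ i * S.ch (j - i) (U * e * V)) := by
  have ht : ∀ r, Commute (c • S.d θ) r := fun r => S.comm_even _ _ (by
    rw [map_zsmul, S.even_d hθ])
  have hT : ∀ m : Matrix ι ι 𝒜, Commute (scalar ι (c • S.d θ)) m := scalar_commute _ ht
  have hww' : (diagonal fun i => (n i + c) • θ)
      = (diagonal fun i => n i • θ) + scalar ι (c • θ) := by
    rw [scalar_apply, diagonal_add]
    simp only [add_smul]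
  have hθe : scalar ι (c • θ) * e = e * scalar ι (c • θ) := by
    ext i l
    rw [cvm_scalar_mul, cvm_mul_scalar, S.comm_even _ _ (he i l)]
  have hX : e.map S.d + (diagonal fun i => n i • θ) * e - e * (diagonal fun i => n i • θ)
      = e.map S.d + (diagonal fun i => (n i + c) • θ) * e
        - e * (diagonal fun i => (n i + c) • θ) := by
    rw [hww', add_mul, mul_add, hθe]
    abel
  have hdw : (diagonal fun i => (n i + c) • θ).map S.d
      = (diagonal fun i => n i • θ).map S.d + scalar ι (c • S.d θ) := by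
    rw [tr_d_diag, tr_d_diag, scalar_apply, diagonal_add]
    simp only [add_smul, map_add, map_zsmul]
  rw [S.ch_transport j hU' hV' he hVU' hee hw'.symm hX, S.tr_ww hθ, hdw]
  simp only [S.ch_transport _ hU hV he hVU hee hw.symm rfl, S.tr_ww hθ, add_zero]
  generalize e.map S.d + (diagonal fun i => n i • θ) * e - e * (diagonal fun i => n i • θ) = X
  generalize (diagonal fun i => n i • θ).map S.d = dw
  have h1 : e * (X * X + (dw + scalar ι (c • S.d θ))) * e
      = e * (X * X + dw) * e + scalar ι (c • S.d θ) * e := by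
    rw [← add_assoc, mul_add, add_mul, ← (hT e).eq, mul_assoc _ e e, hee]
  rw [h1, tr_binom hT hee (by rw [mul_assoc, hee]) (by rw [← mul_assoc, ← mul_assoc, hee]),
    trace_sum]
  refine Finset.sum_congr rfl fun i _ => ?_
  generalize (e * (X * X + dw) * e) ^ (j - i) * e = Y
  have h2 : (scalar ι (c • S.d θ) ^ i * Y).trace = (c • S.d θ) ^ i * Y.trace := by
    rw [← map_pow]
    simp only [Matrix.trace, Matrix.diag_apply, cvm_scalar_mul, Finset.mul_sum]
  rw [trace_smul, h2, ← Int.cast_smul_eq_zsmul ℂ c, smul_pow, smul_mul_assoc, mul_smul,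
    Nat.cast_smul_eq_nsmul]

theorem ch_diag (j : ℕ) {θ : 𝒜} (hθ : S.σ θ = -θ) (n : ι → ℤ) {U : Matrix κ ι 𝒜}
    {V : Matrix ι κ 𝒜} (hU : S.EvM U) (hV : S.EvM V) (hVU : V * U = 1)
    (hw : V * U.map S.d = diagonal fun i => n i • θ) (P : ι → Prop) [DecidablePred P] :
    S.ch j (U * (diagonal fun i => if P i then (1 : 𝒜) else 0) * V) =
      ((∑ i, if P i then n i ^ j else 0 : ℤ) : ℂ) • S.d θ ^ j := by
  have he : S.EvM (diagonal fun i => if P i then (1 : 𝒜) else 0) := fun i l => by
    rw [diagonal_apply]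
    split_ifs <;> simp
  have hee : (diagonal fun i => if P i then (1 : 𝒜) else 0) *
      (diagonal fun i => if P i then (1 : 𝒜) else 0)
        = diagonal fun i => if P i then (1 : 𝒜) else 0 := by
    rw [diagonal_mul_diagonal]
    congr 1
    ext i
    split_ifs <;> simp
  have hX : (0 : Matrix ι ι 𝒜) = (diagonal fun i => if P i then (1 : 𝒜) else 0).map S.d
      + (diagonal fun i => n i • θ) * (diagonal fun i => if P i then (1 : 𝒜) else 0)
      - (diagonal fun i => if P i then (1 : 𝒜) else 0) * (diagonal fun i => n i • θ) := by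
    rw [tr_d_diag, diagonal_mul_diagonal, diagonal_mul_diagonal, diagonal_add, diagonal_sub,
      ← diagonal_zero]
    congr 1
    ext i
    split_ifs <;> simp [S.d_one]
  rw [S.ch_transport j hU hV he hVU hee hw.symm hX, S.tr_ww hθ, tr_d_diag, mul_zero, zero_add,
    add_zero, diagonal_mul_diagonal, diagonal_mul_diagonal, diagonal_pow, diagonal_mul_diagonal,
    trace_diagonal, Int.cast_smul_eq_zsmul, Finset.sum_smul]
  refine Finset.sum_congr rfl fun i _ => ?_
  rw [Pi.pow_apply]
  split_ifs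
  · rw [one_mul, mul_one, mul_one, map_zsmul, smul_pow]
  · rw [mul_zero, zero_smul]

end SD

end Pool.Agent.Lib.MP_e9c0f3_ag.DR
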