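import Pool.Agent.Lib.MP_e9c0f3_ag.DR.SB
import Pool.Agent.Lib.MP_e9c0f3_ag.DR.Tr
import Pool.Agent.Lib.MP_e9c0f3_ag.DR.Desc

/-! Frames for sums of line bundles, and descent of homogeneous matrices. -/

open MvPolynomial Sum

namespace Pool.Agent.Lib.MP_e9c0f3_ag.DR

open Om

variable {N : ℕ} {A : Type} [CommRing A] [Algebra ℂ A] {F : Pol N A}
variable {ι ι' ι'' κ κ' : Type} [Fintype ι] [DecidableEq ι] [Fintype ι'] [DecidableEq ι']
  [Fintype ι''] [DecidableEq ι''] [Fintype κ] [DecidableEq κ] [Fintype κ'] [DecidableEq κ']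

/-- Functions of weight `n` on the cone. -/
def Wt (F : Pol N A) (n : ℤ) (t : TT F) : Prop :=
  ∃ r, IsWeightedHomogeneous (vw N) r n ∧ t = Ideal.Quotient.mk _ r

omit [Algebra ℂ A] in
theorem wt_zero (n : ℤ) : Wt F n 0 := by
  exact ⟨0, isWeightedHomogeneous_zero _ _ _, (map_zero _).symm⟩

omit [Algebra ℂ A] in
theorem wt_one : Wt F 0 1 := by
  exact ⟨1, isWeightedHomogeneous_one _ _, (map_one _).symm⟩

omit [Algebra ℂ A] in
theorem Wt.add {n : ℤ} {t u : TT F} (h : Wt F n t) (h' : Wt F n u) : Wt F n (t + u) := by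
  obtain ⟨r, hr, rfl⟩ := h
  obtain ⟨s, hs, rfl⟩ := h'
  exact ⟨r + s, hr.add hs, (map_add _ _ _).symm⟩

omit [Algebra ℂ A] in
theorem Wt.mul {m n : ℤ} {t u : TT F} (h : Wt F m t) (h' : Wt F n u) : Wt F (m + n) (t * u) := by
  obtain ⟨r, hr, rfl⟩ := h
  obtain ⟨s, hs, rfl⟩ := h'
  exact ⟨r * s, hr.mul hs, (map_mul _ _ _).symm⟩

omit [Algebra ℂ A] in
theorem wt_sum {α : Type} (s : Finset α) {n : ℤ} {t : α → TT F} (h : ∀ a ∈ s, Wt F n (t a)) :
    Wt F n (∑ a ∈ s, t a) := by
  exact Finset.sum_induction t (Wt F n) (fun _ _ => Wt.add) (wt_zero n) h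

theorem Wt.jou {t : TT F} (h : Wt F 0 t) : ∃ b, inc F b = t := by
  obtain ⟨r, hr, rfl⟩ := h
  exact jou_mem hr

theorem wt_inc (b : Jou F) : Wt F 0 (inc F b) := by
  exact jou_lift b

/-- Homogeneous matrices. -/
def Typ (F : Pol N A) {ι ι' : Type} (ν' : ι' → ℤ) (ν : ι → ℤ) (m : Matrix ι' ι (TT F)) : Prop :=
  ∀ i j, Wt F (ν j - ν' i) (m i j)

omit [Algebra ℂ A] [DecidableEq ι] [Fintype ι] [DecidableEq ι'] [Fintype ι''] [DecidableEq ι''] in
theorem Typ.mul {ν'' : ι'' → ℤ} {ν' : ι' → ℤ} {ν : ι → ℤ} {m : Matrix ι'' ι' (TT F)}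
    {m' : Matrix ι' ι (TT F)} (h : Typ F ν'' ν' m) (h' : Typ F ν' ν m') :
    Typ F ν'' ν (m * m') := by
  intro i j
  rw [Matrix.mul_apply]
  refine wt_sum _ fun k _ => ?_
  have h1 := (h i k).mul (h' k j)
  rwa [show ν' k - ν'' i + (ν j - ν' k) = ν j - ν'' i by ring] at h1

omit [Algebra ℂ A] [Fintype ι] in
theorem typ_diag (ν : ι → ℤ) (P : ι → Prop) [DecidablePred P] :
    Typ F ν ν (Matrix.diagonal fun i => if P i then 1 else 0) := by
  intro i j
  rw [Matrix.diagonal_apply]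
  split_ifs with h1 h2
  · rw [h1, sub_self]
    exact wt_one
  · exact wt_zero _
  · exact wt_zero _

/-- `U` embeds the sum of the line bundles of weights `ν` in a trivial bundle, `V` splits it. -/
structure Frame (F : Pol N A) {ι κ : Type} [Fintype κ] [DecidableEq ι] (ν : ι → ℤ)
    (U : Matrix κ ι (TT F)) (V : Matrix ι κ (TT F)) : Prop where
  wU : ∀ a i, Wt F (ν i) (U a i)
  wV : ∀ i a, Wt F (-ν i) (V i a)
  one : V * U = 1
  conn : V.map (psiT F) * (U.map (psiT F)).map (ST F).d =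
    Matrix.diagonal fun i => ν i • Ideal.Quotient.mk (JJ F) (th N A)

/-- A frame for one line bundle. -/
def FrOne (F : Pol N A) (n : ℤ) : Prop :=
  ∃ (α : Type) (_ : Fintype α) (u v : α → TT F), (∀ a, Wt F n (u a)) ∧ (∀ a, Wt F (-n) (v a)) ∧
    ∑ a, v a * u a = 1 ∧
    ∑ a, psiT F (v a) * (ST F).d (psiT F (u a)) = n • Ideal.Quotient.mk (JJ F) (th N A)

theorem fr_zero (F : Pol N A) : FrOne F 0 := by
  refine ⟨Unit, inferInstance, fun _ => 1, fun _ => 1, fun _ => wt_one, fun _ => wt_one, ?_, ?_⟩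
  · simp
  · simp [(ST F).d_one]

omit [Algebra ℂ A] in
theorem fr_xy (F : Pol N A) : ∑ i : Fin N, Ideal.Quotient.mk (relJ F) (X (inl i)) *
    Ideal.Quotient.mk (relJ F) (X (inr i)) = 1 := by
  simp only [← map_mul, ← map_sum]
  exact (Ideal.Quotient.mk_eq_one_iff_sub_mem _).2 (Ideal.subset_span (Or.inr rfl))

theorem fr_pos (F : Pol N A) : FrOne F 1 := by
  refine ⟨Fin N, inferInstance, fun i => Ideal.Quotient.mk _ (X (inl i)),
    fun i => Ideal.Quotient.mk _ (X (inr i)),
    fun i => ⟨_, isWeightedHomogeneous_X A (vw N) (inl i), rfl⟩,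
    fun i => ⟨_, isWeightedHomogeneous_X A (vw N) (inr i), rfl⟩, ?_, ?_⟩
  · rw [← fr_xy F]
    exact Finset.sum_congr rfl fun i _ => mul_comm _ _
  · rw [one_smul]
    exact (bt2_th F).symm

theorem fr_neg (F : Pol N A) : FrOne F (-1) := by
  refine ⟨Fin N, inferInstance, fun i => Ideal.Quotient.mk _ (X (inr i)),
    fun i => Ideal.Quotient.mk _ (X (inl i)),
    fun i => ⟨_, isWeightedHomogeneous_X A (vw N) (inr i), rfl⟩,
    fun i => ⟨_, isWeightedHomogeneous_X A (vw N) (inl i), rfl⟩, fr_xy F, ?_⟩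
  rw [neg_smul, one_smul]
  exact (bt2_pair F).dy (bt2_th F)

theorem fr_add {m n : ℤ} (h : FrOne F m) (h' : FrOne F n) : FrOne F (m + n) := by
  obtain ⟨α, _, u, v, a1, a2, a3, a4⟩ := h
  obtain ⟨β, _, u', v', b1, b2, b3, b4⟩ := h'
  refine ⟨α × β, inferInstance, fun p => u p.1 * u' p.2, fun p => v p.1 * v' p.2,
    fun p => (a1 _).mul (b1 _), fun p => ?_, ?_, ?_⟩
  · rw [neg_add]
    exact (a2 _).mul (b2 _)
  · have e : ∀ p : α × β, v p.1 * v' p.2 * (u p.1 * u' p.2) = v p.1 * u p.1 * (v' p.2 * u' p.2) :=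
      fun p => by ring
    simp only [e]
    rw [Fintype.sum_prod_type]
    dsimp only
    rw [← Finset.sum_mul_sum, a3, b3, mul_one]
  · have c : ∀ (t : TT F) z, psiT F t * z = z * psiT F t := fun t z =>
      (ST F).comm_even _ z (psiT_even F t)
    have e : ∀ p : α × β, psiT F (v p.1 * v' p.2) * (ST F).d (psiT F (u p.1 * u' p.2)) =
        psiT F (v p.1) * (ST F).d (psiT F (u p.1)) * psiT F (v' p.2 * u' p.2) +
          psiT F (v p.1 * u p.1) * (psiT F (v' p.2) * (ST F).d (psiT F (u' p.2))) := fun p => by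
      rw [map_mul (psiT F) (u p.1), (ST F).d_mul_even (psiT_even F _), mul_add, ← mul_assoc,
        ← mul_assoc, ← mul_assoc, ← map_mul (psiT F), ← map_mul (psiT F),
        mul_right_comm (v p.1) (v' p.2), map_mul (psiT F) (v p.1) (v' p.2),
        map_mul (psiT F) (v' p.2), mul_assoc (psiT F (v p.1)) (psiT F (v' p.2)), c (v' p.2)]
      simp only [mul_assoc]
    simp only [e]
    rw [Finset.sum_add_distrib, Fintype.sum_prod_type, Fintype.sum_prod_type]
    dsimp only
    rw [← Finset.sum_mul_sum, ← Finset.sum_mul_sum, ← map_sum, ← map_sum, a3, b3, a4, b4, map_one,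
      mul_one, one_mul, add_smul]

theorem fr_one (F : Pol N A) (n : ℤ) : FrOne F n := by
  induction n using Int.induction_on with
  | zero => exact fr_zero F
  | succ n ih => exact fr_add ih (fr_pos F)
  | pred n ih => exact sub_eq_add_neg (-n : ℤ) 1 ▸ fr_add ih (fr_neg F)

theorem exists_frame (F : Pol N A) (ν : ι → ℤ) : ∃ (κ : Type) (_ : Fintype κ) (_ : DecidableEq κ)
    (U : Matrix κ ι (TT F)) (V : Matrix ι κ (TT F)), Frame F ν U V := by
  classical
  choose α hα u v h1 h2 h3 h4 using fun i => fr_one F (ν i)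
  let U : Matrix (Σ i, α i) ι (TT F) := Matrix.of fun a i => if a.1 = i then u a.1 a.2 else 0
  let V : Matrix ι (Σ i, α i) (TT F) := Matrix.of fun i a => if a.1 = i then v a.1 a.2 else 0
  refine ⟨Σ i, α i, inferInstance, inferInstance, U, V, ?_, ?_, ?_, ?_⟩
  · intro a i
    simp only [U, Matrix.of_apply]
    split_ifs with e
    · exact e ▸ h1 a.1 a.2
    · exact wt_zero _
  · intro i a
    simp only [V, Matrix.of_apply]
    split_ifs with e
    · exact e ▸ h2 a.1 a.2
    · exact wt_zero _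
  · ext i j
    rw [Matrix.mul_apply, Fintype.sum_sigma, Finset.sum_eq_single i, Matrix.one_apply]
    · split_ifs with e
      · simpa [U, V, e] using h3 i
      · simp [U, e]
    · intro l _ e
      simp [V, e]
    · simp
  · ext i j
    rw [Matrix.mul_apply, Fintype.sum_sigma, Finset.sum_eq_single i, Matrix.diagonal_apply]
    · split_ifs with e
      · rw [← h4 i]
        refine Finset.sum_congr rfl fun a _ => ?_
        simp only [U, V, Matrix.map_apply, Matrix.of_apply, if_pos e, if_true]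
      · refine Finset.sum_eq_zero fun a _ => ?_
        simp only [U, V, Matrix.map_apply, Matrix.of_apply, if_neg e, map_zero, mul_zero]
    · intro l _ e
      refine Finset.sum_eq_zero fun a _ => ?_
      simp only [U, V, Matrix.map_apply, Matrix.of_apply, if_neg e, map_zero, zero_mul]
    · simp

/-- The Chern-Weil form of the descended idempotent. -/
noncomputable def cc (F : Pol N A) (k : ℕ) (U : Matrix κ ι (TT F)) (e : Matrix ι ι (TT F))
    (V : Matrix ι κ (TT F)) : OO N A ⧸ JJ F :=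
  (ST F).ch k ((U * e * V).map (psiT F))

variable {ν : ι → ℤ} {ν' : ι' → ℤ} {U : Matrix κ ι (TT F)} {V : Matrix ι κ (TT F)}
  {U' : Matrix κ' ι' (TT F)} {V' : Matrix ι' κ' (TT F)}

theorem fr_inj {α β : Type} {a b : Matrix α β (Jou F)} (h : a.map (inc F) = b.map (inc F)) :
    a = b :=
  Matrix.map_injective (f := inc F) Subtype.val_injective h

theorem fr_ev {α β : Type} (m : Matrix α β (TT F)) : (ST F).EvM (m.map (psiT F)) :=
  fun _ _ => psiT_even F _

omit [Fintype ι] [DecidableEq κ] in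
theorem fr_map_one (h : Frame F ν U V) : V.map (psiT F) * U.map (psiT F) = 1 := by
  rw [← Matrix.map_mul, h.one, Matrix.map_one _ (map_zero _) (map_one _)]

omit [DecidableEq κ] in
theorem fr_mul {α α' β β' : Type} [Fintype α] [Fintype β] (h : Frame F ν U V)
    (P : Matrix α' α (TT F)) (a : Matrix α ι (TT F)) (b : Matrix ι β (TT F))
    (Q : Matrix β β' (TT F)) : P * a * V * (U * b * Q) = P * (a * b) * Q := by
  simp only [Matrix.mul_assoc]
  rw [← Matrix.mul_assoc V, h.one, Matrix.one_mul]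

omit [DecidableEq κ] [DecidableEq κ'] in
theorem Frame.desc (h' : Frame F ν' U' V') (h : Frame F ν U V) {m : Matrix ι' ι (TT F)}
    (hm : Typ F ν' ν m) : ∃ m' : Matrix κ' κ (Jou F), m'.map (inc F) = U' * m * V := by
  have h1 : Typ F (fun _ : κ' => 0) ν' U' := fun a i => by simpa using h'.wU a i
  have h2 : Typ F ν (fun _ : κ => 0) V := fun i a => by simpa using h.wV i a
  have h3 := (h1.mul hm).mul h2
  choose b hb using fun a c => Wt.jou (F := F) (by simpa using h3 a c)
  exact ⟨Matrix.of b, Matrix.ext hb⟩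

omit [DecidableEq ι] in
theorem phiB_cc {e : Matrix ι ι (TT F)} {e' : Matrix κ κ (Jou F)}
    (h : e'.map (inc F) = U * e * V) (k : ℕ) : phiB F (chw k e') = cc F k U e V := by
  rw [(isDG_B F).chw, cc, ← h]
  rfl

omit [DecidableEq κ] in
theorem Frame.idem (h : Frame F ν U V) {e : Matrix ι ι (TT F)} (he : e * e = e)
    {e' : Matrix κ κ (Jou F)} (h1 : e'.map (inc F) = U * e * V) : e' * e' = e' := by
  refine fr_inj ?_
  rw [Matrix.map_mul, h1, fr_mul h, he]

theorem Frame.uv (h : Frame F ν U V) (h' : Frame F ν' U' V') {a : Matrix ι ι' (TT F)}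
    {b : Matrix ι' ι (TT F)} (ha : Typ F ν ν' a) (hb : Typ F ν' ν b)
    (h1 : a * b * (a * b) = a * b) (h2 : b * a * (b * a) = b * a) (k : ℕ) :
    ExB F (cc F k U (a * b) V - cc F k U' (b * a) V') := by
  obtain ⟨a', ea⟩ := h.desc h' ha
  obtain ⟨b', eb⟩ := h'.desc h hb
  have e1 : (a' * b').map (inc F) = U * (a * b) * V := by
    rw [Matrix.map_mul, ea, eb, fr_mul h']
  have e2 : (b' * a').map (inc F) = U' * (b * a) * V' := by
    rw [Matrix.map_mul, ea, eb, fr_mul h]
  rw [← phiB_cc e1, ← phiB_cc e2]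
  exact chw_uvB k (h.idem h1 e1) (h'.idem h2 e2)

theorem Frame.add (h : Frame F ν U V) {e e' : Matrix ι ι (TT F)} (t : Typ F ν ν e)
    (t' : Typ F ν ν e') (he : e * e = e) (he' : e' * e' = e') (h1 : e * e' = 0) (h2 : e' * e = 0)
    (k : ℕ) : ExB F (cc F k U (e + e') V - cc F k U e V - cc F k U e' V) := by
  obtain ⟨a, ea⟩ := h.desc h t
  obtain ⟨b, eb⟩ := h.desc h t'
  have e0 : (0 : Matrix κ κ (Jou F)).map (inc F) = 0 := Matrix.map_zero _ (map_zero _)
  have e1 : (a + b).map (inc F) = U * (e + e') * V := by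
    rw [Matrix.map_add _ (map_add _), ea, eb, Matrix.mul_add, Matrix.add_mul]
  have e2 : a * b = 0 := fr_inj (by
    rw [Matrix.map_mul, ea, eb, fr_mul h, h1, e0, Matrix.mul_zero, Matrix.zero_mul])
  have e3 : b * a = 0 := fr_inj (by
    rw [Matrix.map_mul, ea, eb, fr_mul h, h2, e0, Matrix.mul_zero, Matrix.zero_mul])
  rw [← phiB_cc e1, ← phiB_cc ea, ← phiB_cc eb]
  exact chw_addB k (h.idem he ea) (h.idem he' eb) e2 e3

theorem Frame.shift (h : Frame F ν U V) {c : ℤ} {U' : Matrix κ' ι (TT F)}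
    {V' : Matrix ι κ' (TT F)} (h' : Frame F (fun i => ν i + c) U' V') {e : Matrix ι ι (TT F)}
    (he : e * e = e) (j : ℕ) : cc F j U' e V' = ∑ i ∈ Finset.range (j + 1),
      ((j.choose i : ℂ) * (c : ℂ) ^ i) • (hh F ^ i * cc F (j - i) U e V) := by
  simp only [cc, Matrix.map_mul]
  exact (ST F).ch_shift j ((bt2_pair F).odd (bt2_th F)) ν c (fr_ev U) (fr_ev V) (fr_ev U')
    (fr_ev V') (fr_ev e) (fr_map_one h) (fr_map_one h') (by rw [← Matrix.map_mul, he]) h.conn
    h'.conn

theorem Frame.diag (h : Frame F ν U V) (P : ι → Prop) [DecidablePred P] (j : ℕ) :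
    cc F j U (Matrix.diagonal fun i => if P i then 1 else 0) V =
      ((∑ i, if P i then ν i ^ j else 0 : ℤ) : ℂ) • hh F ^ j := by
  have e1 : (Matrix.diagonal fun i => if P i then (1 : TT F) else 0).map (psiT F) =
      Matrix.diagonal fun i => if P i then 1 else 0 := by
    rw [Matrix.diagonal_map (map_zero _)]
    congr 1
    funext i
    split_ifs
    · exact map_one _
    · exact map_zero _
  simp only [cc, Matrix.map_mul, e1]
  exact (ST F).ch_diag j ((bt2_pair F).odd (bt2_th F)) ν (fr_ev U) (fr_ev V) (fr_map_one h)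
    h.conn P

end Pool.Agent.Lib.MP_e9c0f3_ag.DR
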