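import Pool.Agent.Lib.MP_e9c0f3_ag.DR.Red

/-! The map from forms on the cone to the twisted complex. -/

open MvPolynomial Sum

namespace Pool.Agent.Lib.MP_e9c0f3_ag.DR

open Om

variable {N : ℕ} {A A' : Type} [CommRing A] [Algebra ℂ A] [CommRing A'] [Algebra ℂ A']

/-- `ξ = dF dω / F`. -/
def IsPsi (F : Pol N A) (ω ξ : OO N A) : Prop := xo F * ξ - dx (xo F) * dx ω ∈ II N A

/-- The polynomial `P` represents the class of `ω` in the Griffiths-Dwork module. -/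
def Rep (F : Pol N A) (ω : OO N A) (P : Pol N A) : Prop :=
  ∃ ξ η, IsPsi F ω ξ ∧ η ∈ Sp N A (fun _ _ p _ => 1 ≤ p) ∧
    ξ - xo P * vol N A - pa F η ∈ II N A

variable {F P P' : Pol N A} {ω ω' ξ ξ' : OO N A}

theorem psi_comm (F : Pol N A) (x y : OO N A) : y * (xo F * x) = xo F * (y * x) := by
  rw [← mul_assoc, ← mul_assoc, xo, of_comm]

theorem psi_dd (F : Pol N A) (x : OO N A) : dx (xo F) * (dx (xo F) * x) = 0 := dof_dof _ x

theorem psi_d1 (F : Pol N A) (x : OO N A) : dx (xo F * x) = dx (xo F) * x + xo F * dx x :=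
  dx_of_mul _ x

theorem psi_d2 (F : Pol N A) (x : OO N A) : dx (dx (xo F) * x) = -(dx (xo F) * dx x) :=
  dx_dof_mul _ x

theorem psi_pa (F : Pol N A) (x : OO N A) : pa F (dx (xo F) * x) = -(dx (xo F) * dx x) := by
  rw [pa_apply, psi_d2, psi_dd, add_zero]

theorem psi_step {x a b : OO N A} (h : x - (xo F * a + dx (xo F) * b) ∈ II N A) :
    dx (xo F) * dx x - xo F * (dx (xo F) * dx a) ∈ II N A := by
  have := (II N A).mul_mem_left (dx (xo F)) (dx_II h)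
  rwa [map_sub, map_add, psi_d1, psi_d2, mul_sub, mul_add, mul_add, mul_neg, psi_dd, psi_dd,
    psi_comm, neg_zero, add_zero, zero_add] at this

theorem psi_mem (F : Pol N A) {k : ℤ} {x : OO N A} (h : x ∈ Sp N A fun _ _ p _ => k ≤ p) :
    dx (xo F) * x ∈ Sp N A fun _ _ p _ => k + 1 ≤ p :=
  Sp_mul (dxo_mem F) h fun _ _ _ _ _ _ _ _ h1 h2 => by omega

theorem psi_of_sub (h : IsPsi F ω ξ) (e : ξ - ξ' ∈ II N A) : IsPsi F ω ξ' := by
  have := (II N A).sub_mem h ((II N A).mul_mem_left (xo F) e)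
  rw [mul_sub] at this
  unfold IsPsi
  convert this using 1
  abel

theorem psi_cut {d : ℕ} (hd : F.IsHomogeneous d) (h : IsPsi F ω ξ) {m : ℤ}
    (hω : ω ∈ Sp N A fun a b p q => p + q = m ∧ a + p - b - q = 0) :
    IsPsi F ω (cut (fun a b p q => p + q + 0 = m + 2 ∧ a + p - b - q + d = d) ξ) := by
  have h1 := cut_II (fun n v => n = m + 2 ∧ v = d) h
  have h2 : dx ω ∈ Sp N A fun a b p q => p + q = m + 1 ∧ a + p - b - q = 0 :=
    dx_mem hω fun _ _ _ _ _ => by omega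
  have h3 : dx (xo F) * dx ω ∈ Sp N A fun a b p q => p + q = m + 2 ∧ a + p - b - q = d :=
    Sp_mul (id2_dxo hd) h2 fun _ _ _ _ _ _ _ _ h1 h2 => by omega
  rwa [map_sub, cut_of_mem h3, id2_cut_mul (fun n v => n = m + 2 ∧ v = d) (id2_xo hd)] at h1

theorem isPsi_of {α β : OO N A} (h : dx ω - (xo F * α + dx (xo F) * β) ∈ II N A) :
    IsPsi F ω (dx (xo F) * α) := by
  have := (II N A).neg_mem ((II N A).mul_mem_left (dx (xo F)) h)
  rwa [mul_sub, mul_add, psi_dd, add_zero, psi_comm, neg_sub] at this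

theorem Rep.sub (h : Rep F ω P) (h' : Rep F ω' P') : Rep F (ω - ω') (P - P') := by
  obtain ⟨ξ, η, h1, h2, h3⟩ := h
  obtain ⟨ξ', η', h1', h2', h3'⟩ := h'
  refine ⟨ξ - ξ', η - η', ?_, sub_mem h2 h2', ?_⟩
  · have := (II N A).sub_mem h1 h1'
    unfold IsPsi
    convert this using 1
    rw [map_sub, mul_sub, mul_sub]
    abel
  · have := (II N A).sub_mem h3 h3'
    convert this using 1
    rw [xo, xo, xo, map_sub, map_sub, map_sub, sub_mul]
    abel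

theorem Rep.smul (h : Rep F ω P) (t : ℂ) : Rep F (t • ω) (t • P) := by
  obtain ⟨ξ, η, h1, h2, h3⟩ := h
  refine ⟨t • ξ, t • η, ?_, Submodule.smul_mem _ t h2, ?_⟩
  · have := smul_II t h1
    unfold IsPsi
    rwa [map_smul, mul_smul_comm, mul_smul_comm, ← smul_sub]
  · have := smul_II t h3
    have e : xo (t • P) = t • xo P := by
      rw [xo, xo, AlgHom.map_smul_of_tower, map_smul]
    rwa [e, map_smul, smul_mul_assoc, ← smul_sub, ← smul_sub]

theorem Rep.congr (h : Rep F ω P) {η : OO N A} (e : ω - ω' - dx η ∈ JJ F) : Rep F ω' P := by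
  obtain ⟨ξ, ζ, h1, h2, h3⟩ := h
  obtain ⟨a, b, h4⟩ := mem_JJ.1 e
  have h5 := psi_step h4
  rw [map_sub, map_sub, dx_dx, sub_zero, mul_sub] at h5
  refine ⟨ξ - dx (xo F) * dx a, ζ + dx (xo F) * a, ?_, add_mem h2 ?_, ?_⟩
  · have := (II N A).add_mem h1 h5
    unfold IsPsi
    convert this using 1
    rw [mul_sub]
    abel
  · exact psi_mem F (k := 0) (Sp_mono (Sp_top a) fun _ _ _ _ _ _ _ _ _ _ _ => by omega)
  · convert h3 using 1
    rw [map_add, psi_pa]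
    abel

theorem Rep.map (h : Rep F ω P) (s : A →ₐ[ℂ] A') :
    Rep (map (s : A →+* A') F) (mapc (mapAlgHom (σ := Fin N ⊕ Fin N) s) ω)
      (map (s : A →+* A') P) := by
  obtain ⟨ξ, η, h1, h2, h3⟩ := h
  refine ⟨mapc (mapAlgHom (σ := Fin N ⊕ Fin N) s) ξ, mapc (mapAlgHom (σ := Fin N ⊕ Fin N) s) η,
    ?_, mapc_mem s h2, ?_⟩
  · have := mapc_II s h1
    rwa [map_sub, map_mul, map_mul, mapc_dx, mapc_dx, mapc_xo] at this
  · have := mapc_II s h3
    rwa [map_sub, map_sub, map_mul, mapc_xo, mapc_vol, pa_apply, map_add, map_mul, mapc_dx,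
      mapc_dx, mapc_xo, ← pa_apply] at this

theorem Rep.psi_exact (h : Rep F ω P) (hP : Exact F P) :
    ∃ ξ η, IsPsi F ω ξ ∧ ξ - pa F η ∈ II N A := by
  obtain ⟨ξ, η, h1, -, h3⟩ := h
  obtain ⟨z, -, hz⟩ := top_of_exact hP
  refine ⟨ξ, z + η, h1, ?_⟩
  rwa [map_add, hz, ← sub_sub]

variable [IsDomain A]

theorem IsPsi.unique (hN : 0 < N) (hF : F ≠ 0) (h : IsPsi F ω ξ) (h' : IsPsi F ω ξ') :
    ξ - ξ' ∈ II N A := by
  refine reg_II hN hF ?_
  have := (II N A).sub_mem h h'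
  rwa [sub_sub_sub_cancel_right, ← mul_sub] at this

theorem IsPsi.closed (hN : 0 < N) (hF : F ≠ 0) (h : IsPsi F ω ξ) (hω : dx ω ∈ JJ F) :
    pa F ξ ∈ II N A := by
  obtain ⟨α, β, h1⟩ := mem_JJ.1 hω
  have h2 := pa_II F (h.unique hN hF (isPsi_of h1))
  have h3 := (II N A).neg_mem (psi_step h1)
  rw [dx_dx, mul_zero, zero_sub, neg_neg] at h3
  have h4 := (II N A).sub_mem h2 (reg_II hN hF h3)
  rwa [map_sub, psi_pa, sub_neg_eq_add, add_sub_cancel_right] at h4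

theorem IsPsi.weight (hN : 0 < N) (hF : F ≠ 0) {d : ℕ} (hd : F.IsHomogeneous d) (h : IsPsi F ω ξ)
    {m : ℤ} (hω : ω ∈ Sp N A fun a b p q => p + q = m ∧ a + p - b - q = 0) :
    ∃ ξ' ∈ Sp N A fun a b p q => p + q = m + 2 ∧ a + p - b - q = 0, ξ - ξ' ∈ II N A := by
  exact ⟨_, Sp_mono (cut_mem _ ξ) fun _ _ _ _ _ _ _ _ _ _ h => by omega,
    h.unique hN hF (psi_cut hd h hω)⟩

theorem Rep.exact (hN : 0 < N) (hF : F ≠ 0) {d : ℕ} (hd : F.IsHomogeneous d) (h : Rep F ω P)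
    {η : OO N A} (e : ω - dx η ∈ JJ F) : Exact F P := by
  obtain ⟨ξ, ζ, h1, h2, h3⟩ := h.congr (ω' := 0) (η := η) (by rwa [sub_zero])
  unfold IsPsi at h1
  rw [map_zero, mul_zero, sub_zero] at h1
  refine red_unique hN hd (neg_mem h2) ?_
  have := (II N A).sub_mem (reg_II hN hF h1) h3
  convert this using 1
  rw [map_neg]
  abel

theorem rep_exists {k d : ℕ} (hk : 1 ≤ k) (hN : N = 2 * (k + 1)) (hd : 2 ≤ d) (hF : F ≠ 0)
    (hFd : F.IsHomogeneous d)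
    (hω : ω ∈ Sp N A fun a b p q => p + q = 2 * k ∧ a + p - b - q = 0 ∧ k ≤ p)
    (h : dx ω ∈ JJ F) : ∃ P : Pol N A, P.totalDegree ≤ (k + 1) * (d - 2) ∧ Rep F ω P := by
  have h0 : 0 < N := by omega
  obtain ⟨α, β, h1⟩ := mem_JJ.1 h
  have h2 : dx ω ∈ Sp N A fun _ _ p _ => (k : ℤ) ≤ p := dx_mem hω fun _ _ _ _ _ => by omega
  obtain ⟨x, hx, h3⟩ := reg_filt h0 hF (psi_mem F h2) (isPsi_of h1)
  have h4 := psi_cut hFd (psi_of_sub (isPsi_of h1) h3) (m := 2 * k)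
    (Sp_mono hω fun _ _ _ _ _ _ _ _ _ _ h => ⟨h.1, h.2.1⟩)
  obtain ⟨z, hz, η, hη, -, h5⟩ := red_exists h0 hFd (m := N) (p₀ := k + 1) (by omega)
    (Sp_mono (cut_mem_of _ hx) fun _ _ _ _ _ _ _ _ _ _ h => by omega) (h4.closed h0 hF h)
  obtain ⟨P, hP, rfl⟩ := exists_top (n := (k + 1) * (d - 2)) (Sp_mono hz
    fun a b p q _ _ _ _ _ _ h => by
      obtain ⟨h1, h2, h3, h4⟩ := h
      refine ⟨?_, h1, h3, h2⟩
      obtain ⟨d', rfl⟩ : ∃ d', d = d' + 2 := ⟨d - 2, by omega⟩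
      rw [Nat.add_sub_cancel]
      rw [h3, hN] at h4
      push_cast at h4 ⊢
      linarith)
  exact ⟨P, hP, _, η, h4, Sp_mono hη fun _ _ _ _ _ _ _ _ _ _ h => by omega, h5⟩

end Pool.Agent.Lib.MP_e9c0f3_ag.DR
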