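import Pool.Agent.Lib.MP_e9c0f3_ag.Flat
import Pool.Agent.Lib.MP_e9c0f3_ag.DR.Psi
import Pool.Agent.Lib.MP_e9c0f3_ag.DR.BT

/-! The Gauss-Manin connection. -/

open MvPolynomial Sum

namespace Pool.Agent.Lib.MP_e9c0f3_ag.DR

open Om

variable {N : ℕ} {A : Type} [CommRing A] [Algebra ℂ A]

theorem gm_coeff_sum {σ : Type} (D : Derivation ℂ A A) (p : MvPolynomial σ A) (m : σ →₀ ℕ) :
    coeff m (∑ n ∈ p.support, monomial n (D (coeff n p))) = D (coeff m p) := by
  classical
  rw [coeff_sum]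
  simp only [coeff_monomial, Finset.sum_ite_eq', mem_support_iff]
  split_ifs with h
  · rfl
  · rw [not_not.1 h, map_zero]

/-- The action on coefficients. -/
noncomputable def gm_coef {σ : Type} (D : Derivation ℂ A A) :
    Derivation ℂ (MvPolynomial σ A) (MvPolynomial σ A) :=
  Derivation.mk'
    { toFun := fun p => ∑ n ∈ p.support, monomial n (D (coeff n p))
      map_add' := fun p q => by
        ext m
        rw [coeff_add, gm_coeff_sum, gm_coeff_sum, gm_coeff_sum, coeff_add, map_add]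
      map_smul' := fun a p => by
        ext m
        rw [RingHom.id_apply, coeff_smul, gm_coeff_sum, gm_coeff_sum, coeff_smul, D.map_smul] }
    fun p q => by
      classical
      ext m
      simp only [LinearMap.coe_mk, AddHom.coe_mk, smul_eq_mul]
      rw [gm_coeff_sum, coeff_add, mul_comm q, coeff_mul, coeff_mul, coeff_mul, map_sum,
        ← Finset.sum_add_distrib]
      refine Finset.sum_congr rfl fun x _ => ?_
      rw [D.leibniz, gm_coeff_sum, gm_coeff_sum, smul_eq_mul, smul_eq_mul, mul_comm (D _)]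

theorem gm_coeff_coef {σ : Type} (D : Derivation ℂ A A) (p : MvPolynomial σ A) (m : σ →₀ ℕ) :
    coeff m (gm_coef D p) = D (coeff m p) := gm_coeff_sum D p m

theorem gm_coef_monomial {σ : Type} (D : Derivation ℂ A A) (m : σ →₀ ℕ) (a : A) :
    gm_coef D (monomial m a) = monomial m (D a) := by
  classical
  ext n
  rw [gm_coeff_coef, coeff_monomial, coeff_monomial]
  split_ifs
  · rfl
  · exact map_zero D

section

variable {𝒜 : Type} [Ring 𝒜] [Algebra ℂ 𝒜] (S : SD 𝒜) {g h : 𝒜}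

theorem gm_mul_d (hg : S.σ g = g) (r : 𝒜) : r * S.d g = S.d g * S.σ r := by
  rw [S.comm_odd _ _ (S.odd_d hg), S.σσ]

/-- The differential ideal generated by two even elements. -/
def gm_idl (hg : S.σ g = g) (hh : S.σ h = h) : Ideal 𝒜 where
  carrier := {x | ∃ a b a' b', x = g * a + S.d g * b + (h * a' + S.d h * b')}
  zero_mem' := ⟨0, 0, 0, 0, by simp⟩
  add_mem' := by
    rintro _ _ ⟨a, b, a', b', rfl⟩ ⟨u, v, u', v', rfl⟩
    refine ⟨a + u, b + v, a' + u', b' + v', ?_⟩
    simp only [mul_add]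
    abel
  smul_mem' := by
    rintro r _ ⟨a, b, a', b', rfl⟩
    refine ⟨r * a, S.σ r * b, r * a', S.σ r * b', ?_⟩
    simp only [smul_eq_mul, mul_add, ← mul_assoc]
    rw [gm_mul_d S hg, gm_mul_d S hh, S.comm_even g r hg, S.comm_even h r hh]

theorem gm_idl_σ (hg : S.σ g = g) (hh : S.σ h = h) :
    ∀ x ∈ gm_idl S hg hh, S.σ x ∈ gm_idl S hg hh := by
  rintro _ ⟨a, b, a', b', rfl⟩
  refine ⟨S.σ a, -S.σ b, S.σ a', -S.σ b', ?_⟩
  simp only [map_add, map_mul, hg, hh, S.odd_d hg, S.odd_d hh, neg_mul, mul_neg]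

theorem gm_idl_d (hg : S.σ g = g) (hh : S.σ h = h) :
    ∀ x ∈ gm_idl S hg hh, S.d x ∈ gm_idl S hg hh := by
  rintro _ ⟨a, b, a', b', rfl⟩
  refine ⟨S.d a, a - S.d b, S.d a', a' - S.d b', ?_⟩
  simp only [map_add, S.d_mul_even hg, S.d_mul_even hh, S.d_d_mul hg, S.d_d_mul hh, mul_sub]
  abel

instance (hg : S.σ g = g) (hh : S.σ h = h) : (gm_idl S hg hh).IsTwoSided :=
  S.twoSided _ (gm_idl_σ S hg hh)

end

theorem gm_dx_sub : dx (of (ff N A - 1) : OO N A) = dx (of (ff N A)) := by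
  rw [map_sub, map_one, map_sub, show dx (1 : OO N A) = 0 from (SO N A).d_one, sub_zero]

theorem gm_mem_II (a b : OO N A) :
    of (ff N A - 1) * a + dx (of (ff N A - 1)) * b ∈ II N A :=
  mem_II.2 ⟨a, b, by rw [gm_dx_sub, map_sub, map_one]⟩

/-- An additional direction. -/
noncomputable def gm_ext (E : Derivation ℂ (RR N A) (RR N A)) :
    Option (Fin N ⊕ Fin N) → Derivation ℂ (RR N A) (RR N A)
  | none => E
  | some s => pd s

theorem gm_ev0_d (E : Derivation ℂ (RR N A) (RR N A)) (x : Om (RR N A) (Option (Fin N ⊕ Fin N))) :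
    ev0 (dO (gm_ext E) x) = dx (ev0 x) := ev0_dO _ x

theorem gm_c_d (E : Derivation ℂ (RR N A) (RR N A)) (r : RR N A)
    (x : Om (RR N A) (Option (Fin N ⊕ Fin N))) :
    c none (dO (gm_ext E) (of r) * x) = of (E r) * x - dO (gm_ext E) (of r) * c none x := by
  have h := c_dO (gm_ext E) none (of r)
  rw [c_of, map_zero, add_zero, lie_of] at h
  rw [c_mul, h, sg_dO, sg_of, neg_mul, sub_eq_add_neg]
  rfl

theorem gm_d_C (E : Derivation ℂ (RR N A) (RR N A)) (a : A) :
    dO (gm_ext E) (of (C a)) = of (E (C a)) * e none := by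
  rw [dO_of, Fintype.sum_option]
  simp [gm_ext, pd_apply]

/-- The lift of a form whose differential comes from the base to second order. -/
theorem gm_exists {F : Pol N A} {E : Derivation ℂ (RR N A) (RR N A)}
    (hE : ∀ s r, E (pd s r) = pd s (E r)) {ω η : Form (Jou F)} (hD : IsD ω η) (hη : η ∈ base 2 F)
    {x : OO N A} (hx : Ideal.Quotient.mk _ x = phiB F ω) :
    ∃ y a b a' b' : Om (RR N A) (Option (Fin N ⊕ Fin N)), ev0 y = x ∧ dO (gm_ext E) y =
      of (rename inl F) * a + dO (gm_ext E) (of (rename inl F)) * b +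
        (of (ff N A - 1) * a' + dO (gm_ext E) (of (ff N A - 1)) * b') := by
  have hP : ∀ s t r, gm_ext E s (gm_ext E t r) = gm_ext E t (gm_ext E s r) := by
    rintro (_ | s) (_ | t) r
    · rfl
    · exact hE t r
    · exact (hE s r).symm
    · exact pd_comm s t r
  let S := sd (gm_ext E) hP
  have hg : S.σ (of (rename inl F)) = of (rename inl F) := sg_of _
  have hh : S.σ (of (ff N A - 1)) = of (ff N A - 1) := sg_of _
  let J := gm_idl S hg hh
  let T := S.quot J (gm_idl_σ S hg hh) (gm_idl_d S hg hh)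
  let ψ : TT F →ₐ[ℂ] Om (RR N A) (Option (Fin N ⊕ Fin N)) ⧸ J :=
    Ideal.Quotient.liftₐ (relJ F) ((Ideal.Quotient.mkₐ ℂ J).comp of) fun r hr => by
      obtain ⟨a, b, rfl⟩ := Ideal.mem_span_pair.1 hr
      refine Ideal.Quotient.eq_zero_iff_mem.2 ⟨of a, 0, of b, 0, ?_⟩
      rw [map_add, map_mul, map_mul, mul_zero, mul_zero, add_zero, add_zero, ← of_comm a,
        ← of_comm b]
      rfl
  have hψ : ∀ r, ψ (Ideal.Quotient.mk _ r) = Ideal.Quotient.mk J (of r) := fun _ => rfl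
  obtain ⟨φ, hφ⟩ := exists_isDG T (ψ.comp (inc F)) fun b => by
    obtain ⟨r, hr⟩ := Ideal.Quotient.mk_surjective (inc F b)
    rw [AlgHom.comp_apply, ← hr, hψ]
    exact congrArg (Ideal.Quotient.mk J) (sg_of r)
  have h0 : φ η = 0 := by
    refine (Ideal.span_le.2 ?_ : base 2 F ≤ RingHom.ker φ) hη
    rintro _ ⟨a, rfl⟩
    have h1 : ∀ t : A, φ (dd (algebraMap A (Jou F) t)) =
        Ideal.Quotient.mk J (of (E (C t)) * e none) := fun t =>
      (hφ.map_dd _).trans (congrArg (Ideal.Quotient.mk J) (gm_d_C E t))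
    rw [SetLike.mem_coe, RingHom.mem_ker, List.ofFn_succ, List.ofFn_succ, List.ofFn_zero,
      List.prod_cons, List.prod_cons, List.prod_nil, mul_one, map_mul, h1, h1, ← map_mul,
      mul_assoc, ← mul_assoc (e none), ← of_comm, mul_assoc, e_mul_e, mul_zero, mul_zero, map_zero]
  have hev : ∀ a b a' b' : Om (RR N A) (Option (Fin N ⊕ Fin N)),
      ev0 (of (rename inl F) * a + S.d (of (rename inl F)) * b +
        (of (ff N A - 1) * a' + S.d (of (ff N A - 1)) * b')) =
      xo F * ev0 a + dx (xo F) * ev0 b +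
        (of (ff N A - 1) * ev0 a' + dx (of (ff N A - 1)) * ev0 b') := fun a b a' b' => by
    have h1 : ∀ r, ev0 (S.d (of r)) = dx (of r) := fun r => (gm_ev0_d E _).trans (by rw [ev0_of])
    simp only [map_add, map_mul, h1, ev0_of, xo]
  have hle : J ≤ (JJ F).comap (ev0 : Om (RR N A) (Option (Fin N ⊕ Fin N)) →ₐ[ℂ] OO N A) := by
    rintro _ ⟨a, b, a', b', rfl⟩
    refine Ideal.mem_comap.2 (mem_JJ.2 ⟨ev0 a, ev0 b, ?_⟩)
    rw [hev, add_sub_cancel_left]
    exact gm_mem_II _ _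
  let ev := Ideal.quotientMapₐ (JJ F) ev0 hle
  have hv : ∀ y, ev (Ideal.Quotient.mk J y) = Ideal.Quotient.mk (JJ F) (ev0 y) := fun _ => rfl
  have h1 : (ev : _ →+* _).comp φ = phiB F := by
    refine IsDG.unique ⟨(isDG_B F).even, fun b => ?_, fun b => ?_⟩ (isDG_B F)
    · obtain ⟨r, hr⟩ := Ideal.Quotient.mk_surjective (inc F b)
      rw [RingHom.comp_apply, hφ.alg, AlgHom.comp_apply, AlgHom.comp_apply, ← hr, hψ, psiT_mk]
      exact (hv _).trans (by rw [ev0_of])
    · obtain ⟨r, hr⟩ := Ideal.Quotient.mk_surjective (inc F b)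
      rw [RingHom.comp_apply, hφ.map_dd, AlgHom.comp_apply, AlgHom.comp_apply, ← hr, hψ, psiT_mk,
        ST_d]
      exact (hv (dO (gm_ext E) (of r))).trans (by rw [gm_ev0_d, ev0_of])
  obtain ⟨y, hy⟩ := Ideal.Quotient.mk_surjective (φ ω)
  have h2 : x - ev0 y ∈ JJ F := by
    refine Ideal.Quotient.eq.1 ?_
    rw [hx, ← h1, ← hv, hy]
    rfl
  obtain ⟨a, b, h3⟩ := mem_JJ.1 h2
  obtain ⟨a', b', h4⟩ := mem_II.1 h3
  obtain ⟨a, rfl⟩ := ev0_surjective a
  obtain ⟨b, rfl⟩ := ev0_surjective b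
  obtain ⟨a', rfl⟩ := ev0_surjective a'
  obtain ⟨b', rfl⟩ := ev0_surjective b'
  let j := of (rename inl F) * a + S.d (of (rename inl F)) * b +
    (of (ff N A - 1) * a' + S.d (of (ff N A - 1)) * b')
  have hj : Ideal.Quotient.mk J j = 0 := Ideal.Quotient.eq_zero_iff_mem.2 ⟨a, b, a', b', rfl⟩
  have h5 : Ideal.Quotient.mk J (S.d (y + j)) = 0 := by
    rw [← h0, hφ.isD hD, ← hy, ← add_zero (Ideal.Quotient.mk J y), ← hj, ← map_add]
    rfl
  obtain ⟨u, v, u', v', h6⟩ := Ideal.Quotient.eq_zero_iff_mem.1 h5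
  refine ⟨y + j, u, v, u', v', ?_, h6⟩
  rw [map_add, hev, gm_dx_sub, map_sub, map_one, ← h4]
  abel

/-- A derivation of the base acts on the coefficients. -/
theorem exists_coefD (D : Derivation ℂ A A) : ∃ E : Derivation ℂ (RR N A) (RR N A),
    (∀ s, E (X s) = 0) ∧ (∀ t, E (C t) = C (D t)) ∧ (∀ s r, E (pd s r) = pd s (E r)) ∧
      ∀ P : Pol N A, E (rename inl P) = rename inl (coeffMap D P) := by
  refine ⟨gm_coef D, fun s => ?_, fun t => gm_coef_monomial D 0 t, fun s r => ?_, fun P => ?_⟩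
  · rw [X, gm_coef_monomial, D.map_one_eq_zero, map_zero]
  · ext m
    have h : D ((m s : A) + 1) = 0 := by rw [map_add, D.map_natCast, D.map_one_eq_zero, add_zero]
    rw [gm_coeff_coef, pd_apply, pd_apply, coeff_pderiv, coeff_pderiv, gm_coeff_coef, D.leibniz, h,
      smul_zero, zero_add, smul_eq_mul, mul_comm]
  · conv_lhs => rw [P.as_sum]
    rw [coeffMap, map_sum, map_sum, map_sum]
    exact Finset.sum_congr rfl fun m _ => by rw [rename_monomial, rename_monomial, gm_coef_monomial]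

/-- The two components of the absolute differential of a lift. -/
theorem gm_lift {F : Pol N A} {E : Derivation ℂ (RR N A) (RR N A)} (hX : ∀ s, E (X s) = 0)
    (hE : ∀ s r, E (pd s r) = pd s (E r)) {ω η : Form (Jou F)} (hD : IsD ω η) (hη : η ∈ base 2 F)
    {x : OO N A} (hx : Ideal.Quotient.mk _ x = phiB F ω) :
    ∃ x₁ α β α₁ β₁ : OO N A, dx x - (xo F * α + dx (xo F) * β) ∈ II N A ∧
      lie E x - dx x₁ - (xo F * α₁ + of (E (rename inl F)) * β - dx (xo F) * β₁) ∈ II N A := by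
  obtain ⟨y, a, b, a', b', rfl, h⟩ := gm_exists hE hD hη hx
  have h0 : E (ff N A - 1) = 0 := by
    rw [map_sub, E.map_one_eq_zero, sub_zero, ff, map_sum]
    exact Finset.sum_eq_zero fun i _ => by rw [E.leibniz, hX, hX, smul_zero, smul_zero, add_zero]
  refine ⟨ev0 (c none y), ev0 a, ev0 b, ev0 (c none a), ev0 (c none b), ?_, ?_⟩
  · rw [← gm_ev0_d E, h]
    simp only [map_add, map_mul, gm_ev0_d, ev0_of, xo, add_sub_cancel_left]
    exact gm_mem_II _ _
  · have h1 : lie E (ev0 y) - dx (ev0 (c none y)) = ev0 (c none (dO (gm_ext E) y)) := by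
      rw [← gm_ev0_d E, ← ev0_lie, ← map_sub, ← show _ = lie E y from c_dO (gm_ext E) none y,
        add_sub_cancel_right]
    rw [h1, h]
    simp only [map_add, c_of_mul, gm_c_d, h0, map_zero, zero_mul, zero_sub, map_neg, map_mul,
      gm_ev0_d, ev0_of, xo]
    convert gm_mem_II (ev0 (c none a')) (-ev0 (c none b')) using 1
    simp only [map_sub ev0, map_mul, gm_ev0_d, ev0_of, mul_neg]
    abel

end Pool.Agent.Lib.MP_e9c0f3_ag.DR
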