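import Pool.Agent.Lib.MP_e9c0f3_ag.DR.Om2

/-! Polynomial forms in `x, y` and their fourfold grading by the degrees in `x, y, dx, dy`. -/

open MvPolynomial Sum

namespace Pool.Agent.Lib.MP_e9c0f3_ag.DR

open Om

/-- Polynomials in `x, y`. -/
abbrev RR (N : ℕ) (A : Type) [CommRing A] : Type := MvPolynomial (Fin N ⊕ Fin N) A

/-- Polynomial forms in `x, y`. -/
abbrev OO (N : ℕ) (A : Type) [CommRing A] [Algebra ℂ A] : Type := Om (RR N A) (Fin N ⊕ Fin N)

/-- Sets of multidegrees `(a, b, p, q)`: the degrees in `x, y, dx, dy`. -/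
abbrev Dg : Type := ℤ → ℤ → ℤ → ℤ → Prop

variable {N : ℕ} {A A' : Type} [CommRing A] [Algebra ℂ A] [CommRing A'] [Algebra ℂ A']

/-- Derivatives with respect to the variables. -/
noncomputable def pd (s : Fin N ⊕ Fin N) : Derivation ℂ (RR N A) (RR N A) :=
  (pderiv s : Derivation A (RR N A) (RR N A)).restrictScalars ℂ

theorem pd_apply (s : Fin N ⊕ Fin N) (r : RR N A) : pd s r = pderiv s r := rfl

theorem pd_comm (s t : Fin N ⊕ Fin N) (r : RR N A) : pd s (pd t r) = pd t (pd s r) := by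
  simp only [pd_apply]
  induction r using MvPolynomial.induction_on with
  | C a => simp
  | add p q hp hq => simp only [map_add, hp, hq]
  | mul_X p i hp =>
    have h : ∀ u v : Fin N ⊕ Fin N, pderiv u (pderiv v (X i : RR N A)) = 0 := by
      intro u v
      rw [pderiv_X]
      by_cases hv : i = v
      · subst hv
        simp
      · simp [Pi.single_eq_of_ne hv]
    simp only [Derivation.leibniz, smul_eq_mul, map_add, h, hp]
    ring

/-- The de Rham algebra of polynomial forms relative to `A`. -/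
noncomputable def SO (N : ℕ) (A : Type) [CommRing A] [Algebra ℂ A] : SD (OO N A) := sd pd pd_comm

/-- The exterior derivative. -/
noncomputable def dx : OO N A →ₗ[ℂ] OO N A := dO pd

theorem SO_d : (SO N A).d = dx := rfl

theorem SO_σ : (SO N A).σ = sg := rfl

/-- The degree in `x` of an exponent. -/
def da (m : Fin N ⊕ Fin N →₀ ℕ) : ℤ := ∑ i, (m (inl i) : ℤ)

/-- The degree in `y` of an exponent. -/
def db (m : Fin N ⊕ Fin N →₀ ℕ) : ℤ := ∑ i, (m (inr i) : ℤ)

/-- The number of `dx`. -/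
def dp (l : List (Fin N ⊕ Fin N)) : ℤ := l.countP Sum.isLeft

/-- The number of `dy`. -/
def dq (l : List (Fin N ⊕ Fin N)) : ℤ := l.countP Sum.isRight

/-- Monomial forms. -/
noncomputable def wd (t : A) (m : Fin N ⊕ Fin N →₀ ℕ) (l : List (Fin N ⊕ Fin N)) : OO N A :=
  of (monomial m t) * (l.map e).prod

/-- The forms all of whose multidegrees lie in `S`. -/
noncomputable def Sp (N : ℕ) (A : Type) [CommRing A] [Algebra ℂ A] (S : Dg) :
    Submodule ℂ (OO N A) :=
  Submodule.span ℂ {x | ∃ t m l, S (da m) (db m) (dp l) (dq l) ∧ x = wd t m l}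

theorem gr_wd_mem {S : Dg} (t : A) {m : Fin N ⊕ Fin N →₀ ℕ} {l : List (Fin N ⊕ Fin N)}
    (h : S (da m) (db m) (dp l) (dq l)) : wd t m l ∈ Sp N A S :=
  Submodule.subset_span ⟨t, m, l, h, rfl⟩

theorem gr_ind {S : Dg} {P : OO N A → Prop}
    (h0 : ∀ t m l, S (da m) (db m) (dp l) (dq l) → P (wd t m l)) (hz : P 0)
    (ha : ∀ x y, P x → P y → P (x + y)) (hs : ∀ (c : ℂ) x, P x → P (c • x)) {x : OO N A}
    (hx : x ∈ Sp N A S) : P x := by
  induction hx using Submodule.span_induction with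
  | mem x hx =>
    obtain ⟨t, m, l, h, rfl⟩ := hx
    exact h0 t m l h
  | zero => exact hz
  | add x y _ _ hx hy => exact ha x y hx hy
  | smul c x _ hx => exact hs c x hx

theorem gr_mono {S T : Dg} (h : ∀ a b p q, S a b p q → T a b p q) : Sp N A S ≤ Sp N A T :=
  Submodule.span_mono fun _ ⟨t, m, l, hS, hx⟩ => ⟨t, m, l, h _ _ _ _ hS, hx⟩

theorem gr_e_mul_wd (s : Fin N ⊕ Fin N) (t : A) (m : Fin N ⊕ Fin N →₀ ℕ)
    (l : List (Fin N ⊕ Fin N)) : e s * wd t m l = wd t m (s :: l) := by
  rw [wd, wd, List.map_cons, List.prod_cons, ← mul_assoc, ← of_comm, mul_assoc]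

theorem gr_top (x : OO N A) : x ∈ Sp N A fun _ _ _ _ => True := by
  induction x using Om.ind_left with
  | h0 r =>
    induction r using MvPolynomial.induction_on' with
    | monomial u a =>
      have h : (of (monomial u a) : OO N A) = wd a u [] := by simp [wd]
      rw [h]
      exact gr_wd_mem a trivial
    | add p q hp hq =>
      rw [map_add]
      exact Submodule.add_mem _ hp hq
  | ha x y hx hy => exact Submodule.add_mem _ hx hy
  | hm s x hx =>
    refine gr_ind (P := fun x => e s * x ∈ Sp N A fun _ _ _ _ => True) ?_ ?_ ?_ ?_ hx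
    · intro t m l _
      rw [gr_e_mul_wd]
      exact gr_wd_mem t trivial
    · simp
    · intro x y hx hy
      rw [mul_add]
      exact Submodule.add_mem _ hx hy
    · intro c x hx
      rw [mul_smul_comm]
      exact Submodule.smul_mem _ c hx

theorem gr_da_add (m m' : Fin N ⊕ Fin N →₀ ℕ) : da (m + m') = da m + da m' := by
  simp [da, Finset.sum_add_distrib]

theorem gr_db_add (m m' : Fin N ⊕ Fin N →₀ ℕ) : db (m + m') = db m + db m' := by
  simp [db, Finset.sum_add_distrib]

theorem gr_dp_append (l l' : List (Fin N ⊕ Fin N)) : dp (l ++ l') = dp l + dp l' := by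
  simp [dp]

theorem gr_dq_append (l l' : List (Fin N ⊕ Fin N)) : dq (l ++ l') = dq l + dq l' := by
  simp [dq]

/-- The multidegree of a variable. -/
def gr_degX : Fin N ⊕ Fin N → ℤ × ℤ × ℤ × ℤ :=
  Sum.elim (fun _ => (1, 0, 0, 0)) (fun _ => (0, 1, 0, 0))

/-- The multidegree of a differential. -/
def gr_degE : Fin N ⊕ Fin N → ℤ × ℤ × ℤ × ℤ :=
  Sum.elim (fun _ => (0, 0, 1, 0)) (fun _ => (0, 0, 0, 1))

theorem gr_deg_single (s : Fin N ⊕ Fin N) (k : ℕ) :
    ((da (Finsupp.single s k), db (Finsupp.single s k), 0, 0) : ℤ × ℤ × ℤ × ℤ) =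
      k • gr_degX s := by
  rcases s with i | i
  · simp [da, db, gr_degX, Finsupp.single_apply]
  · simp [da, db, gr_degX, Finsupp.single_apply]

theorem gr_deg_cons (s : Fin N ⊕ Fin N) (l : List (Fin N ⊕ Fin N)) :
    ((0, 0, dp (s :: l), dq (s :: l)) : ℤ × ℤ × ℤ × ℤ) = gr_degE s + (0, 0, dp l, dq l) := by
  rcases s with i | i
  · simp [dp, dq, gr_degE, add_comm]
  · simp [dp, dq, gr_degE, add_comm]

/-- The coaction on polynomials. -/
noncomputable def gr_co0 : RR N A →ₐ[ℂ] AddMonoidAlgebra (RR N A) (ℤ × ℤ × ℤ × ℤ) :=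
  aevalTower (AddMonoidAlgebra.singleZeroAlgHom.comp (IsScalarTower.toAlgHom ℂ A (RR N A)))
    fun s => AddMonoidAlgebra.single (gr_degX s) (X s)

theorem gr_co0_monomial (t : A) (m : Fin N ⊕ Fin N →₀ ℕ) :
    gr_co0 (monomial m t) = AddMonoidAlgebra.single (da m, db m, 0, 0) (monomial m t) := by
  induction m using Finsupp.induction with
  | zero =>
    rw [monomial_zero', gr_co0, aevalTower_C]
    simp [da, db]
    rfl
  | single_add s k f _ _ ih =>
    rw [monomial_single_add, map_mul, map_pow, ih, gr_co0, aevalTower_X,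
      AddMonoidAlgebra.single_pow, AddMonoidAlgebra.single_mul_single, ← gr_deg_single, gr_da_add,
      gr_db_add]
    simp

/-- The coaction on forms that records the multidegree. -/
theorem gr_exists_co : ∃ Φ : OO N A →ₐ[ℂ] AddMonoidAlgebra (OO N A) (ℤ × ℤ × ℤ × ℤ),
    ∀ t m l, Φ (wd t m l) = AddMonoidAlgebra.single (da m, db m, dp l, dq l) (wd t m l) := by
  obtain ⟨Φ, h0, h1⟩ := exists_lift (R := RR N A) (σ := Fin N ⊕ Fin N)
    ((AddMonoidAlgebra.mapAlgHom (ℤ × ℤ × ℤ × ℤ) (of : RR N A →ₐ[ℂ] OO N A)).comp gr_co0)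
    (fun s => AddMonoidAlgebra.single (gr_degE s) (e s))
    (by
      intro r s
      rw [AlgHom.comp_apply]
      induction gr_co0 r using AddMonoidAlgebra.induction_linear with
      | zero => simp
      | add y z hy hz => rw [map_add, add_mul, mul_add, hy, hz]
      | single d r =>
        rw [AddMonoidAlgebra.mapAlgHom_single, AddMonoidAlgebra.single_mul_single,
          AddMonoidAlgebra.single_mul_single, add_comm, of_comm])
    (by
      intro s
      rw [AddMonoidAlgebra.single_mul_single, e_mul_e, AddMonoidAlgebra.single_zero])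
    (by
      intro s t
      rw [AddMonoidAlgebra.single_mul_single, AddMonoidAlgebra.single_mul_single,
        add_comm (gr_degE t), ← AddMonoidAlgebra.single_add, e_mul s, sg_e, neg_mul,
        neg_add_cancel, AddMonoidAlgebra.single_zero])
  refine ⟨Φ, fun t m l => ?_⟩
  have h2 : ∀ l : List (Fin N ⊕ Fin N), Φ (l.map e).prod =
      AddMonoidAlgebra.single (0, 0, dp l, dq l) (l.map e).prod := by
    intro l
    induction l with
    | nil =>
      rw [List.map_nil, List.prod_nil, map_one]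
      rfl
    | cons s l ih =>
      rw [List.map_cons, List.prod_cons, map_mul, h1, ih, AddMonoidAlgebra.single_mul_single,
        gr_deg_cons]
  rw [wd, map_mul, h0, h2, AlgHom.comp_apply, gr_co0_monomial, AddMonoidAlgebra.mapAlgHom_single,
    AddMonoidAlgebra.single_mul_single]
  simp

open Classical in
theorem gr_exists_proj (S : Dg) : ∃ P : OO N A →ₗ[ℂ] OO N A,
    ∀ t m l, P (wd t m l) = if S (da m) (db m) (dp l) (dq l) then wd t m l else 0 := by
  obtain ⟨Φ, hΦ⟩ := gr_exists_co (N := N) (A := A)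
  refine ⟨Finsupp.lsum ℂ (fun d : ℤ × ℤ × ℤ × ℤ =>
      if S d.1 d.2.1 d.2.2.1 d.2.2.2 then (LinearMap.id : OO N A →ₗ[ℂ] OO N A) else 0) ∘ₗ
    (AddMonoidAlgebra.coeffLinearEquiv ℂ).toLinearMap ∘ₗ Φ.toLinearMap, fun t m l => ?_⟩
  have h : (AddMonoidAlgebra.coeffLinearEquiv ℂ) (Φ (wd t m l)) =
      Finsupp.single (da m, db m, dp l, dq l) (wd t m l) := by
    rw [hΦ]
    rfl
  simp only [LinearMap.comp_apply, AlgHom.toLinearMap_apply, LinearEquiv.coe_coe, h,
    Finsupp.lsum_single]
  split_ifs <;> rfl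

theorem isCompl_Sp (S : Dg) : IsCompl (Sp N A S) (Sp N A fun a b p q => ¬S a b p q) := by
  constructor
  · obtain ⟨P, hP⟩ := gr_exists_proj (N := N) (A := A) S
    rw [Submodule.disjoint_def]
    intro x h1 h2
    have e1 : P x = x := by
      refine gr_ind (P := fun x => P x = x) ?_ (map_zero P) ?_ ?_ h1
      · intro t m l h
        rw [hP, if_pos h]
      · intro x y hx hy
        rw [map_add, hx, hy]
      · intro c x hx
        rw [map_smul, hx]
    have e2 : P x = 0 := by
      refine gr_ind (P := fun x => P x = 0) ?_ (map_zero P) ?_ ?_ h2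
      · intro t m l h
        rw [hP, if_neg h]
      · intro x y hx hy
        rw [map_add, hx, hy, add_zero]
      · intro c x hx
        rw [map_smul, hx, smul_zero]
    rw [← e1, e2]
  · rw [codisjoint_iff, eq_top_iff]
    intro x _
    refine gr_ind (P := fun x => x ∈ Sp N A S ⊔ Sp N A fun a b p q => ¬S a b p q) ?_
      (Submodule.zero_mem _) (fun _ _ => Submodule.add_mem _) (fun c _ => Submodule.smul_mem _ c)
      (gr_top x)
    intro t m l _
    by_cases h : S (da m) (db m) (dp l) (dq l)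
    · exact Submodule.mem_sup_left (gr_wd_mem t h)
    · exact Submodule.mem_sup_right (gr_wd_mem t h)

/-- The component with multidegrees in `S`. -/
noncomputable def cut (S : Dg) : OO N A →ₗ[ℂ] OO N A :=
  Submodule.projection _ _ (isCompl_Sp S)

variable {S T U : Dg} {x y : OO N A}

theorem cut_mem (S : Dg) (x : OO N A) : cut S x ∈ Sp N A S := by
  exact Submodule.projection_apply_mem _ x

theorem sub_cut_mem (S : Dg) (x : OO N A) : x - cut S x ∈ Sp N A fun a b p q => ¬S a b p q := by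
  exact Submodule.sub_projection_mem _ x

theorem cut_of_mem (h : x ∈ Sp N A S) : cut S x = x := by
  exact Submodule.projection_apply_of_mem_left _ h

theorem cut_of_not (h : x ∈ Sp N A fun a b p q => ¬S a b p q) : cut S x = 0 := by
  exact Submodule.projection_apply_of_mem_right _ h

theorem gr_e_mul_prod {s : Fin N ⊕ Fin N} {l : List (Fin N ⊕ Fin N)} (h : s ∈ l) :
    (e s : OO N A) * (l.map e).prod = 0 := by
  induction l with
  | nil => simp at h
  | cons t l ih =>
    rw [List.map_cons, List.prod_cons, ← mul_assoc]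
    rcases List.mem_cons.1 h with rfl | h
    · rw [e_mul_e, zero_mul]
    · rw [e_mul s, mul_assoc, ih h, mul_zero]

theorem gr_prod_eq_zero {l : List (Fin N ⊕ Fin N)} (h : ¬l.Nodup) :
    ((l.map e).prod : OO N A) = 0 := by
  induction l with
  | nil => simp at h
  | cons t l ih =>
    rw [List.map_cons, List.prod_cons]
    by_cases ht : t ∈ l
    · exact gr_e_mul_prod ht
    · rw [ih fun hl => h (List.nodup_cons.2 ⟨ht, hl⟩), mul_zero]

theorem gr_countP_le {l : List (Fin N ⊕ Fin N)} (h : l.Nodup) (P : Fin N ⊕ Fin N → Bool)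
    (f : Fin N → Fin N ⊕ Fin N) (hf : ∀ s, P s = true → ∃ i, f i = s) : l.countP P ≤ N := by
  rw [List.countP_eq_length_filter, ← List.toFinset_card_of_nodup (h.filter P)]
  calc (l.filter P).toFinset.card ≤ (Finset.univ.image f).card := by
        refine Finset.card_le_card fun s hs => ?_
        obtain ⟨i, hi⟩ := hf s (List.mem_filter.1 (List.mem_toFinset.1 hs)).2
        exact Finset.mem_image.2 ⟨i, Finset.mem_univ i, hi⟩
    _ ≤ N := Finset.card_image_le.trans (by simp)

theorem gr_da_nonneg (m : Fin N ⊕ Fin N →₀ ℕ) : 0 ≤ da m :=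
  Finset.sum_nonneg fun _ _ => Int.natCast_nonneg _

theorem gr_db_nonneg (m : Fin N ⊕ Fin N →₀ ℕ) : 0 ≤ db m :=
  Finset.sum_nonneg fun _ _ => Int.natCast_nonneg _

/-- Monotonicity; only multidegrees that occur matter. -/
theorem Sp_mono (h : x ∈ Sp N A S) (hST : ∀ a b p q, 0 ≤ a → 0 ≤ b → 0 ≤ p → p ≤ N → 0 ≤ q →
    q ≤ N → S a b p q → T a b p q) : x ∈ Sp N A T := by
  refine gr_ind (P := fun x => x ∈ Sp N A T) ?_ (Submodule.zero_mem _)
    (fun _ _ => Submodule.add_mem _) (fun c _ => Submodule.smul_mem _ c) h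
  intro t m l hS
  by_cases hl : l.Nodup
  · refine gr_wd_mem t (hST _ _ _ _ (gr_da_nonneg m) (gr_db_nonneg m) (Nat.zero_le _) ?_
      (Nat.zero_le _) ?_ hS)
    · refine gr_countP_le hl _ inl ?_
      rintro (i | i) hi
      · exact ⟨i, rfl⟩
      · simp at hi
    · refine gr_countP_le hl _ inr ?_
      rintro (i | i) hi
      · simp at hi
      · exact ⟨i, rfl⟩
  · rw [wd, gr_prod_eq_zero hl, mul_zero]
    exact Submodule.zero_mem _

theorem Sp_top (x : OO N A) : x ∈ Sp N A fun _ _ _ _ => True := by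
  exact gr_top x

theorem Sp_eq_zero (h : x ∈ Sp N A S) (hS : ∀ a b p q, 0 ≤ a → 0 ≤ b → 0 ≤ p → p ≤ N → 0 ≤ q →
    q ≤ N → ¬S a b p q) : x = 0 := by
  have h1 : x ∈ Sp N A fun _ _ _ _ => False := Sp_mono h hS
  refine gr_ind (P := fun x => x = 0) (fun _ _ _ h => h.elim) rfl ?_ ?_ h1
  · rintro _ _ rfl rfl
    exact add_zero 0
  · rintro c _ rfl
    exact smul_zero c

theorem gr_cut_mem_of (S : Dg) (h : x ∈ Sp N A T) :
    cut S x ∈ Sp N A fun a b p q => S a b p q ∧ T a b p q := by
  refine gr_ind (P := fun x => cut S x ∈ Sp N A fun a b p q => S a b p q ∧ T a b p q) ?_ ?_ ?_ ?_ h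
  · intro t m l hT
    by_cases hS : S (da m) (db m) (dp l) (dq l)
    · rw [cut_of_mem (gr_wd_mem t hS)]
      exact gr_wd_mem t ⟨hS, hT⟩
    · rw [cut_of_not (gr_wd_mem t hS)]
      exact Submodule.zero_mem _
  · rw [map_zero]
    exact Submodule.zero_mem _
  · intro x y hx hy
    rw [map_add]
    exact Submodule.add_mem _ hx hy
  · intro c x hx
    rw [map_smul]
    exact Submodule.smul_mem _ c hx

theorem Sp_inf (h : x ∈ Sp N A S) (h' : x ∈ Sp N A T) :
    x ∈ Sp N A fun a b p q => S a b p q ∧ T a b p q := by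
  have h1 := gr_cut_mem_of S h'
  rwa [cut_of_mem h] at h1

theorem cut_mem_of (S : Dg) (h : x ∈ Sp N A T) :
    cut S x ∈ Sp N A fun a b p q => S a b p q ∧ T a b p q := by
  exact gr_cut_mem_of S h

theorem sub_cut_mem_of (S : Dg) (h : x ∈ Sp N A T) :
    x - cut S x ∈ Sp N A fun a b p q => ¬S a b p q ∧ T a b p q := by
  exact Sp_inf (sub_cut_mem S x)
    (Submodule.sub_mem _ h (gr_mono (fun _ _ _ _ h => h.2) (cut_mem_of S h)))

theorem Sp_bdd (x : OO N A) : ∃ M : ℕ, x ∈ Sp N A fun a b _ _ => a ≤ M ∧ b ≤ M := by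
  refine gr_ind (P := fun x => ∃ M : ℕ, x ∈ Sp N A fun a b _ _ => a ≤ M ∧ b ≤ M) ?_
    ⟨0, Submodule.zero_mem _⟩ ?_ ?_ (Sp_top x)
  · intro t m l _
    refine ⟨(da m).toNat + (db m).toNat, gr_wd_mem t ?_⟩
    constructor <;> omega
  · rintro x y ⟨M, hx⟩ ⟨M', hy⟩
    refine ⟨M + M', Submodule.add_mem _ (gr_mono ?_ hx) (gr_mono ?_ hy)⟩
    · intro a b _ _ h
      constructor <;> omega
    · intro a b _ _ h
      constructor <;> omega
  · rintro c x ⟨M, hx⟩
    exact ⟨M, Submodule.smul_mem _ c hx⟩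

/-- Decomposition along any function of the multidegree. -/
theorem exists_sum_cut {α : Type} (μ : ℤ → ℤ → ℤ → ℤ → α) (x : OO N A) :
    ∃ s : Finset α, x = ∑ j ∈ s, cut (fun a b p q => μ a b p q = j) x := by
  classical
  have key : ∃ s : Finset α, ∀ s', s ⊆ s' →
      x = ∑ j ∈ s', cut (fun a b p q => μ a b p q = j) x := by
    refine gr_ind (P := fun x => ∃ s : Finset α, ∀ s', s ⊆ s' →
      x = ∑ j ∈ s', cut (fun a b p q => μ a b p q = j) x) ?_ ⟨∅, fun s' _ => by simp⟩ ?_ ?_
      (Sp_top x)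
    · intro t m l _
      refine ⟨{μ (da m) (db m) (dp l) (dq l)}, fun s' hs => ?_⟩
      rw [Finset.sum_eq_single_of_mem _ (hs (Finset.mem_singleton_self _))]
      · exact (cut_of_mem (gr_wd_mem t rfl)).symm
      · intro j _ hj
        exact cut_of_not (gr_wd_mem t hj.symm)
    · rintro x y ⟨s, hx⟩ ⟨s₂, hy⟩
      refine ⟨s ∪ s₂, fun s' hs => ?_⟩
      simp only [map_add, Finset.sum_add_distrib]
      rw [← hx s' (Finset.subset_union_left.trans hs), ← hy s' (Finset.subset_union_right.trans hs)]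
    · rintro c x ⟨s, hx⟩
      refine ⟨s, fun s' hs => ?_⟩
      simp only [map_smul, ← Finset.smul_sum]
      rw [← hx s' hs]
  obtain ⟨s, hs⟩ := key
  exact ⟨s, hs s subset_rfl⟩

/-- An operator that respects two decompositions commutes with the projections. -/
theorem cut_comm (L : OO N A →+ OO N A) (h1 : ∀ x ∈ Sp N A T, L x ∈ Sp N A S)
    (h2 : ∀ x ∈ Sp N A fun a b p q => ¬T a b p q, L x ∈ Sp N A fun a b p q => ¬S a b p q)
    (x : OO N A) : cut S (L x) = L (cut T x) := by
  have h : L x = L (cut T x) + L (x - cut T x) := by rw [← map_add, add_sub_cancel]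
  rw [h, map_add, cut_of_mem (h1 _ (cut_mem T x)), cut_of_not (h2 _ (sub_cut_mem T x)), add_zero]

theorem gr_wd_mul (t t' : A) (m m' : Fin N ⊕ Fin N →₀ ℕ) (l l' : List (Fin N ⊕ Fin N)) :
    wd t m l * wd t' m' l' = wd (t * t') (m + m') (l ++ l') := by
  rw [wd, wd, wd, List.map_append, List.prod_append, ← monomial_mul, map_mul, mul_assoc,
    ← mul_assoc (l.map e).prod, ← of_comm, mul_assoc, mul_assoc]

theorem Sp_mul (hx : x ∈ Sp N A S) (hy : y ∈ Sp N A T)
    (h : ∀ a b p q a' b' p' q', S a b p q → T a' b' p' q' → U (a + a') (b + b') (p + p') (q + q')) :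
    x * y ∈ Sp N A U := by
  refine gr_ind (P := fun x => x * y ∈ Sp N A U) ?_ ?_ ?_ ?_ hx
  · intro t m l hS
    refine gr_ind (P := fun y => wd t m l * y ∈ Sp N A U) ?_ ?_ ?_ ?_ hy
    · intro t' m' l' hT
      rw [gr_wd_mul]
      refine gr_wd_mem _ ?_
      rw [gr_da_add, gr_db_add, gr_dp_append, gr_dq_append]
      exact h _ _ _ _ _ _ _ _ hS hT
    · rw [mul_zero]
      exact Submodule.zero_mem _
    · intro y z hy hz
      rw [mul_add]
      exact Submodule.add_mem _ hy hz
    · intro c y hy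
      rw [mul_smul_comm]
      exact Submodule.smul_mem _ c hy
  · rw [zero_mul]
    exact Submodule.zero_mem _
  · intro x z hx hz
    rw [add_mul]
    exact Submodule.add_mem _ hx hz
  · intro c x hx
    rw [smul_mul_assoc]
    exact Submodule.smul_mem _ c hx

theorem cut_mul_left {r : OO N A} {W : Dg} (hr : r ∈ Sp N A W)
    (h : ∀ a b p q a' b' p' q', W a b p q →
      (S (a + a') (b + b') (p + p') (q + q') ↔ T a' b' p' q')) (x : OO N A) :
    cut S (r * x) = r * cut T x := by
  exact cut_comm (AddMonoidHom.mulLeft r)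
    (fun y hy => Sp_mul hr hy fun a b p q a' b' p' q' hW hT => (h _ _ _ _ _ _ _ _ hW).2 hT)
    (fun y hy => Sp_mul hr hy fun a b p q a' b' p' q' hW hT hS => hT ((h _ _ _ _ _ _ _ _ hW).1 hS))
    x

end Pool.Agent.Lib.MP_e9c0f3_ag.DR
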