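import Pool.Agent.Lib.MP_e9c0f3_ag.DR.Gr

/-! Multidegrees of generators and of the basic operators. -/

open MvPolynomial Sum

namespace Pool.Agent.Lib.MP_e9c0f3_ag.DR

open Om

variable {N : ℕ} {A A' : Type} [CommRing A] [Algebra ℂ A] [CommRing A'] [Algebra ℂ A']
variable {S T U : Dg} {x y : OO N A}

theorem gr2_wd_mem {t : A} {m : Fin N ⊕ Fin N →₀ ℕ} {l : List (Fin N ⊕ Fin N)}
    (h : S (da m) (db m) (dp l) (dq l)) : wd t m l ∈ Sp N A S :=
  Submodule.subset_span ⟨t, m, l, h, rfl⟩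

theorem gr2_wd_smul (z : ℂ) (t : A) (m : Fin N ⊕ Fin N →₀ ℕ) (l : List (Fin N ⊕ Fin N)) :
    z • wd t m l = wd (z • t) m l := by
  rw [wd, wd, ← smul_mul_assoc, ← map_smul, smul_monomial]

theorem gr2_wd_nil (t : A) (m : Fin N ⊕ Fin N →₀ ℕ) : wd t m [] = of (monomial m t) := by
  rw [wd, List.map_nil, List.prod_nil, mul_one]

theorem gr2_wd_cons (t : A) (m : Fin N ⊕ Fin N →₀ ℕ) (s : Fin N ⊕ Fin N)
    (l : List (Fin N ⊕ Fin N)) : wd t m (s :: l) = e s * wd t m l := by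
  rw [wd, wd, List.map_cons, List.prod_cons, ← mul_assoc, of_comm, mul_assoc]

theorem gr2_ind {P : OO N A → Prop} (h : x ∈ Sp N A S) (h0 : P 0)
    (ha : ∀ x y, P x → P y → P (x + y))
    (hw : ∀ t m l, S (da m) (db m) (dp l) (dq l) → P (wd t m l)) : P x := by
  have key : ∀ z : ℂ, P (z • x) := by
    induction h using Submodule.span_induction with
    | mem x hx =>
      obtain ⟨t, m, l, h1, rfl⟩ := hx
      intro z
      rw [gr2_wd_smul]
      exact hw _ m l h1
    | zero => exact fun z => by rwa [smul_zero]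
    | add x y _ _ hx hy => exact fun z => by rw [smul_add]; exact ha _ _ (hx z) (hy z)
    | smul w x _ hx => exact fun z => by rw [smul_smul]; exact hx _
  simpa only [one_smul] using key 1

theorem gr2_dp_nil : dp ([] : List (Fin N ⊕ Fin N)) = 0 := by simp [dp]

theorem gr2_dq_nil : dq ([] : List (Fin N ⊕ Fin N)) = 0 := by simp [dq]

theorem gr2_dp_inl (i : Fin N) : dp [(inl i : Fin N ⊕ Fin N)] = 1 := by simp [dp]

theorem gr2_dp_inr (i : Fin N) : dp [(inr i : Fin N ⊕ Fin N)] = 0 := by simp [dp]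

theorem gr2_dq_inl (i : Fin N) : dq [(inl i : Fin N ⊕ Fin N)] = 0 := by simp [dq]

theorem gr2_dq_inr (i : Fin N) : dq [(inr i : Fin N ⊕ Fin N)] = 1 := by simp [dq]

theorem gr2_dp_cons (s : Fin N ⊕ Fin N) (l : List (Fin N ⊕ Fin N)) :
    dp (s :: l) = dp [s] + dp l := by
  cases s <;> simp [dp, add_comm]

theorem gr2_dq_cons (s : Fin N ⊕ Fin N) (l : List (Fin N ⊕ Fin N)) :
    dq (s :: l) = dq [s] + dq l := by
  cases s <;> simp [dq, add_comm]

theorem gr2_dp_add_dq (l : List (Fin N ⊕ Fin N)) : dp l + dq l = l.length := by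
  induction l with
  | nil => simp [dp, dq]
  | cons s l ih =>
    rw [gr2_dp_cons, gr2_dq_cons, List.length_cons]
    cases s
    · rw [gr2_dp_inl, gr2_dq_inl]
      omega
    · rw [gr2_dp_inr, gr2_dq_inr]
      omega

theorem gr2_nil {l : List (Fin N ⊕ Fin N)} (h1 : dp l = 0) (h2 : dq l = 0) : l = [] := by
  have := gr2_dp_add_dq l
  exact List.eq_nil_of_length_eq_zero (by omega)

theorem gr2_da_add (m m' : Fin N ⊕ Fin N →₀ ℕ) : da (m + m') = da m + da m' := by
  simp [da, Finset.sum_add_distrib]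

theorem gr2_db_add (m m' : Fin N ⊕ Fin N →₀ ℕ) : db (m + m') = db m + db m' := by
  simp [db, Finset.sum_add_distrib]

theorem gr2_da_zero : da (0 : Fin N ⊕ Fin N →₀ ℕ) = 0 := by simp [da]

theorem gr2_db_zero : db (0 : Fin N ⊕ Fin N →₀ ℕ) = 0 := by simp [db]

theorem gr2_da_inl (i : Fin N) : da (Finsupp.single (inl i : Fin N ⊕ Fin N) 1) = 1 := by
  simp [da, Finsupp.single_apply]

theorem gr2_da_inr (i : Fin N) : da (Finsupp.single (inr i : Fin N ⊕ Fin N) 1) = 0 := by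
  simp [da]

theorem gr2_db_inl (i : Fin N) : db (Finsupp.single (inl i : Fin N ⊕ Fin N) 1) = 0 := by
  simp [db]

theorem gr2_db_inr (i : Fin N) : db (Finsupp.single (inr i : Fin N ⊕ Fin N) 1) = 1 := by
  simp [db, Finsupp.single_apply]

theorem gr2_of_da {m : Fin N ⊕ Fin N →₀ ℕ} (h : da m = 0) (i : Fin N) : m (inl i) = 0 := by
  have := (Finset.sum_eq_zero_iff_of_nonneg fun _ _ => Int.natCast_nonneg _).1 h i
    (Finset.mem_univ i)
  exact_mod_cast this

theorem gr2_of_db {m : Fin N ⊕ Fin N →₀ ℕ} (h : db m = 0) (i : Fin N) : m (inr i) = 0 := by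
  have := (Finset.sum_eq_zero_iff_of_nonneg fun _ _ => Int.natCast_nonneg _).1 h i
    (Finset.mem_univ i)
  exact_mod_cast this

theorem gr2_da_map (u : Fin N →₀ ℕ) :
    da (u.mapDomain (inl : Fin N → Fin N ⊕ Fin N)) = u.degree := by
  rw [Finsupp.degree_eq_sum, da, Nat.cast_sum]
  exact Finset.sum_congr rfl fun i _ => by rw [Finsupp.mapDomain_apply inl_injective]

theorem gr2_db_map (u : Fin N →₀ ℕ) : db (u.mapDomain (inl : Fin N → Fin N ⊕ Fin N)) = 0 :=
  Finset.sum_eq_zero fun i _ => by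
    rw [Finsupp.mapDomain_of_notMem_range _ _ (by simp), Nat.cast_zero]

theorem gr2_e_mul (s : Fin N ⊕ Fin N) (h : x ∈ Sp N A S)
    (hU : ∀ a b p q, S a b p q → U a b (dp [s] + p) (dq [s] + q)) : e s * x ∈ Sp N A U := by
  refine gr2_ind (P := fun x => e s * x ∈ Sp N A U) h ?_ (fun x y hx hy => ?_) fun t m l h1 => ?_
  · rw [mul_zero]
    exact zero_mem _
  · rw [mul_add]
    exact add_mem hx hy
  · rw [← gr2_wd_cons]
    refine gr2_wd_mem ?_
    rw [gr2_dp_cons, gr2_dq_cons]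
    exact hU _ _ _ _ h1

theorem gr2_map {L : OO N A →ₗ[ℂ] OO N A'} (h : x ∈ Sp N A S)
    (hw : ∀ t m l, S (da m) (db m) (dp l) (dq l) → L (wd t m l) ∈ Sp N A' U) :
    L x ∈ Sp N A' U := by
  refine gr2_ind (P := fun x => L x ∈ Sp N A' U) h ?_ (fun x y hx hy => ?_) hw
  · rw [map_zero]
    exact zero_mem _
  · rw [map_add]
    exact add_mem hx hy

theorem gr2_sg_wd (t : A) (m : Fin N ⊕ Fin N →₀ ℕ) (l : List (Fin N ⊕ Fin N)) :
    sg (wd t m l) = (-1 : ℂ) ^ l.length • wd t m l := by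
  induction l with
  | nil => rw [gr2_wd_nil, sg_of, List.length_nil, pow_zero, one_smul]
  | cons s l ih =>
    rw [gr2_wd_cons, map_mul, sg_e, ih, List.length_cons, pow_succ, mul_smul_comm, neg_mul,
      mul_neg, mul_one, neg_smul, smul_neg]

theorem gr2_c (s : Fin N ⊕ Fin N) (h : x ∈ Sp N A S)
    (hU : ∀ a b p q, S a b p q → U a b (p - dp [s]) (q - dq [s])) : c s x ∈ Sp N A U := by
  refine gr2_map h fun t m l h1 => ?_
  have key : ∀ l : List (Fin N ⊕ Fin N), c s (wd t m l) ∈ Sp N A fun a b p q =>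
      a = da m ∧ b = db m ∧ p = dp l - dp [s] ∧ q = dq l - dq [s] := by
    intro l
    induction l with
    | nil =>
      rw [gr2_wd_nil, c_of]
      exact zero_mem _
    | cons u l ih =>
      rw [gr2_wd_cons, c_e_mul, gr2_dp_cons u, gr2_dq_cons u]
      refine sub_mem ?_ (gr2_e_mul u ih ?_)
      · split_ifs with h2
        · subst h2
          exact gr2_wd_mem ⟨rfl, rfl, by ring, by ring⟩
        · exact zero_mem _
      · rintro a b p q ⟨rfl, rfl, rfl, rfl⟩
        exact ⟨rfl, rfl, by ring, by ring⟩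
  refine Sp_mono (key l) ?_
  rintro a b p q - - - - - - ⟨rfl, rfl, h2, h3⟩
  rw [h2, h3]
  exact hU _ _ _ _ h1

theorem gr2_lie_wd (D : Derivation ℂ (RR N A) (RR N A)) (t : A) (m : Fin N ⊕ Fin N →₀ ℕ)
    (l : List (Fin N ⊕ Fin N)) : lie D (wd t m l) = of (D (monomial m t)) * (l.map e).prod := by
  induction l with
  | nil => rw [gr2_wd_nil, lie_of, List.map_nil, List.prod_nil, mul_one]
  | cons s l ih =>
    rw [gr2_wd_cons, lie_mul, lie_e, zero_mul, zero_add, ih, List.map_cons, List.prod_cons,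
      ← mul_assoc, ← of_comm, mul_assoc]

theorem gr2_lie (s : Fin N ⊕ Fin N) (h : x ∈ Sp N A S)
    (hU : ∀ a b p q, S a b p q →
      U (a - da (Finsupp.single s 1)) (b - db (Finsupp.single s 1)) p q) :
    lie (pd s) x ∈ Sp N A U := by
  refine gr2_map h fun t m l h1 => ?_
  rw [gr2_lie_wd, pd_apply, pderiv_monomial]
  by_cases h2 : m s = 0
  · rw [h2, Nat.cast_zero, mul_zero, map_zero, map_zero, zero_mul]
    exact zero_mem _
  · have h3 : m - Finsupp.single s 1 + Finsupp.single s 1 = m :=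
      tsub_add_cancel_of_le (Finsupp.single_le_iff.2 (Nat.pos_of_ne_zero h2))
    have h4 := gr2_da_add (m - Finsupp.single s 1) (Finsupp.single s 1)
    have h5 := gr2_db_add (m - Finsupp.single s 1) (Finsupp.single s 1)
    rw [h3] at h4 h5
    refine gr2_wd_mem ?_
    rw [eq_sub_of_add_eq h4.symm, eq_sub_of_add_eq h5.symm]
    exact hU _ _ _ _ h1

theorem gr2_X_lie (s : Fin N ⊕ Fin N) (t : A) (m : Fin N ⊕ Fin N →₀ ℕ)
    (l : List (Fin N ⊕ Fin N)) :
    of (X s) * lie (pd s) (wd t m l) = (m s : ℤ) • wd t m l := by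
  rw [gr2_lie_wd, pd_apply, ← mul_assoc, ← map_mul, X_mul_pderiv_monomial, map_nsmul,
    smul_mul_assoc, natCast_zsmul, wd]

/-- The number of occurrences of a letter. -/
def gr2cnt (s : Fin N ⊕ Fin N) (l : List (Fin N ⊕ Fin N)) : ℤ :=
  (l.map fun u => if s = u then (1 : ℤ) else 0).sum

theorem gr2_e_c (s : Fin N ⊕ Fin N) (t : A) (m : Fin N ⊕ Fin N →₀ ℕ)
    (l : List (Fin N ⊕ Fin N)) : e s * c s (wd t m l) = gr2cnt s l • wd t m l := by
  induction l with
  | nil => rw [gr2_wd_nil, c_of, mul_zero, gr2cnt, List.map_nil, List.sum_nil, zero_smul]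
  | cons u l ih =>
    have h1 : (e s : OO N A) * e u = -(e u * e s) := by rw [e_mul, sg_e, neg_mul]
    have h2 : gr2cnt s (u :: l) = (if s = u then 1 else 0) + gr2cnt s l := by
      rw [gr2cnt, gr2cnt, List.map_cons, List.sum_cons]
    rw [gr2_wd_cons, c_e_mul, mul_sub, ← mul_assoc, h1, neg_mul, sub_neg_eq_add, mul_assoc, ih,
      h2, add_smul, mul_smul_comm]
    congr 1
    split_ifs with h3
    · rw [h3, one_smul]
    · rw [mul_zero, zero_smul]

theorem gr2_cnt_inl (l : List (Fin N ⊕ Fin N)) : ∑ i, gr2cnt (inl i) l = dp l := by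
  induction l with
  | nil => simp [gr2cnt, dp]
  | cons u l ih =>
    rw [gr2_dp_cons, ← ih]
    cases u <;> simp [gr2cnt, dp, Finset.sum_add_distrib]

theorem gr2_cnt_inr (l : List (Fin N ⊕ Fin N)) : ∑ i, gr2cnt (inr i) l = dq l := by
  induction l with
  | nil => simp [gr2cnt, dq]
  | cons u l ih =>
    rw [gr2_dq_cons, ← ih]
    cases u <;> simp [gr2cnt, dq, Finset.sum_add_distrib]

theorem gr2_eu {κ : Type} [Fintype κ] {n : ℤ} (u : κ → OO N A) (L : κ → OO N A →ₗ[ℂ] OO N A)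
    (h : x ∈ Sp N A S)
    (hw : ∀ t m l, S (da m) (db m) (dp l) (dq l) → ∑ i, u i * L i (wd t m l) = n • wd t m l) :
    ∑ i, u i * L i x = n • x := by
  refine gr2_ind (P := fun x => ∑ i, u i * L i x = n • x) h ?_ (fun x y hx hy => ?_) hw
  · simp only [map_zero, mul_zero, Finset.sum_const_zero, smul_zero]
  · simp only [map_add, mul_add, Finset.sum_add_distrib, smul_add, hx, hy]

theorem of_mem {r : RR N A} (h : ∀ m ∈ r.support, S (da m) (db m) 0 0) : of r ∈ Sp N A S := by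
  rw [r.as_sum, map_sum]
  refine sum_mem fun m hm => ?_
  rw [← gr2_wd_nil]
  exact gr2_wd_mem (h m hm)

theorem of_mem_iff {r : RR N A} : (of r : OO N A) ∈ Sp N A S ↔
    ∀ m ∈ r.support, S (da m) (db m) 0 0 := by
  classical
  refine ⟨fun h m hm => ?_, of_mem⟩
  by_contra hc
  have h1 := Finset.sum_filter_add_sum_filter_not r.support (fun m => S (da m) (db m) 0 0)
    fun m => monomial m (coeff m r)
  rw [support_sum_monomial_coeff] at h1
  have h2 : ∀ T : Dg, (of (∑ m ∈ r.support.filter fun m => T (da m) (db m) 0 0,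
      monomial m (coeff m r)) : OO N A) ∈ Sp N A T := fun T => by
    rw [map_sum]
    refine sum_mem fun m hm => ?_
    rw [← gr2_wd_nil]
    exact gr2_wd_mem (Finset.mem_filter.1 hm).2
  have h3 := sub_mem h (h2 S)
  rw [← map_sub, ← eq_sub_of_add_eq' h1] at h3
  have h4 := Submodule.disjoint_def.1 (isCompl_Sp S).disjoint _ h3
    (by convert h2 fun a b p q => ¬S a b p q)
  have h5 := congrArg (coeff m) (of_injective (h4.trans (map_zero _).symm))
  rw [coeff_sum, Finset.sum_eq_single m, coeff_monomial, if_pos rfl] at h5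
  · exact mem_support_iff.1 hm h5
  · intro m' _ h6
    rw [coeff_monomial, if_neg h6]
  · exact fun h6 => absurd (Finset.mem_filter.2 ⟨hm, hc⟩) h6

theorem of_mem_zero (r : RR N A) : (of r : OO N A) ∈ Sp N A fun _ _ p q => p = 0 ∧ q = 0 := by
  exact of_mem fun _ _ => ⟨rfl, rfl⟩

theorem exists_of (h : x ∈ Sp N A fun _ _ p q => p = 0 ∧ q = 0) : ∃ r, x = of r := by
  refine gr2_ind (P := fun x => ∃ r, x = of r) h ⟨0, (map_zero _).symm⟩ ?_ fun t m l h1 => ?_
  · rintro _ _ ⟨r, rfl⟩ ⟨r', rfl⟩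
    exact ⟨r + r', (map_add _ _ _).symm⟩
  · rw [gr2_nil h1.1 h1.2, gr2_wd_nil]
    exact ⟨_, rfl⟩

theorem exists_const (h : x ∈ Sp N A fun a b p q => a = 0 ∧ b = 0 ∧ p = 0 ∧ q = 0) :
    ∃ t : A, x = of (C t) := by
  refine gr2_ind (P := fun x => ∃ t : A, x = of (C t)) h ⟨0, by rw [map_zero, map_zero]⟩ ?_
    fun t m l h1 => ?_
  · rintro _ _ ⟨r, rfl⟩ ⟨r', rfl⟩
    exact ⟨r + r', by rw [map_add, map_add]⟩
  · have h2 : m = 0 := Finsupp.ext fun s => by
      cases s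
      · exact gr2_of_da h1.1 _
      · exact gr2_of_db h1.2.1 _
    rw [gr2_nil h1.2.2.1 h1.2.2.2, gr2_wd_nil, h2]
    exact ⟨t, rfl⟩

theorem C_mem (t : A) (h : S 0 0 0 0) : (of (C t) : OO N A) ∈ Sp N A S := by
  rw [C_apply, ← gr2_wd_nil]
  exact gr2_wd_mem (by rwa [gr2_da_zero, gr2_db_zero])

theorem one_mem_Sp (h : S 0 0 0 0) : (1 : OO N A) ∈ Sp N A S := by
  have := C_mem (N := N) (1 : A) h
  rwa [C_1, map_one] at this

theorem X_inl_mem (i : Fin N) (h : S 1 0 0 0) : (of (X (inl i)) : OO N A) ∈ Sp N A S := by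
  rw [X, ← gr2_wd_nil]
  exact gr2_wd_mem (by rwa [gr2_da_inl, gr2_db_inl])

theorem X_inr_mem (i : Fin N) (h : S 0 1 0 0) : (of (X (inr i)) : OO N A) ∈ Sp N A S := by
  rw [X, ← gr2_wd_nil]
  exact gr2_wd_mem (by rwa [gr2_da_inr, gr2_db_inr])

theorem e_inl_mem (i : Fin N) (h : S 0 0 1 0) : (e (inl i) : OO N A) ∈ Sp N A S := by
  rw [← mul_one (e _)]
  refine gr2_e_mul _ (one_mem_Sp (S := fun a b p q => a = 0 ∧ b = 0 ∧ p = 0 ∧ q = 0)
    ⟨rfl, rfl, rfl, rfl⟩) ?_
  rintro a b p q ⟨rfl, rfl, rfl, rfl⟩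
  rwa [gr2_dp_inl, gr2_dq_inl]

theorem e_inr_mem (i : Fin N) (h : S 0 0 0 1) : (e (inr i) : OO N A) ∈ Sp N A S := by
  rw [← mul_one (e _)]
  refine gr2_e_mul _ (one_mem_Sp (S := fun a b p q => a = 0 ∧ b = 0 ∧ p = 0 ∧ q = 0)
    ⟨rfl, rfl, rfl, rfl⟩) ?_
  rintro a b p q ⟨rfl, rfl, rfl, rfl⟩
  rwa [gr2_dp_inr, gr2_dq_inr]

/-- Polynomials in `x` only. -/
theorem rename_mem (P : MvPolynomial (Fin N) A) :
    (of (rename inl P) : OO N A) ∈ Sp N A fun _ b p q => b = 0 ∧ p = 0 ∧ q = 0 := by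
  refine of_mem fun m hm => ?_
  obtain ⟨u, rfl, -⟩ := coeff_rename_ne_zero _ _ _ (mem_support_iff.1 hm)
  exact ⟨gr2_db_map u, rfl, rfl⟩

theorem rename_mem_homog {P : MvPolynomial (Fin N) A} {n : ℕ} (h : P.IsHomogeneous n) :
    (of (rename inl P) : OO N A) ∈ Sp N A fun a b p q => a = n ∧ b = 0 ∧ p = 0 ∧ q = 0 := by
  refine of_mem fun m hm => ?_
  obtain ⟨u, rfl, hu⟩ := coeff_rename_ne_zero _ _ _ (mem_support_iff.1 hm)
  refine ⟨?_, gr2_db_map u, rfl, rfl⟩
  rw [gr2_da_map, not_not.1 fun h1 => hu (h.coeff_eq_zero h1)]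

theorem exists_rename (h : x ∈ Sp N A fun _ b p q => b = 0 ∧ p = 0 ∧ q = 0) :
    ∃ P : MvPolynomial (Fin N) A, x = of (rename inl P) := by
  refine gr2_ind (P := fun x => ∃ P : MvPolynomial (Fin N) A, x = of (rename inl P)) h
    ⟨0, by rw [map_zero, map_zero]⟩ ?_ fun t m l h1 => ?_
  · rintro _ _ ⟨r, rfl⟩ ⟨r', rfl⟩
    exact ⟨r + r', by rw [map_add, map_add]⟩
  · refine ⟨monomial (m.comapDomain inl inl_injective.injOn) t, ?_⟩
    rw [gr2_nil h1.2.1 h1.2.2, gr2_wd_nil, rename_monomial,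
      Finsupp.mapDomain_comapDomain _ inl_injective]
    rintro (i | i) hi
    · exact ⟨i, rfl⟩
    · exact absurd (gr2_of_db h1.1 i) (Finsupp.mem_support_iff.1 hi)

theorem totalDegree_le_of_mem {P : MvPolynomial (Fin N) A} {n : ℕ}
    (h : (of (rename inl P) : OO N A) ∈ Sp N A fun a _ _ _ => a ≤ n) : P.totalDegree ≤ n := by
  refine Finset.sup_le fun u hu => ?_
  have h1 := of_mem_iff.1 h (u.mapDomain inl) (by
    rw [mem_support_iff, coeff_rename_mapDomain _ inl_injective]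
    exact mem_support_iff.1 hu)
  rw [gr2_da_map] at h1
  exact_mod_cast h1

/-- The weight of the action of the multiplicative group. -/
def vw (N : ℕ) : Fin N ⊕ Fin N → ℤ := Sum.elim (fun _ => 1) fun _ => -1

theorem of_mem_vw {r : RR N A} {n : ℤ} : (of r : OO N A) ∈ Sp N A (fun a b _ _ => a - b = n) ↔
    IsWeightedHomogeneous (vw N) r n := by
  have key : ∀ m : Fin N ⊕ Fin N →₀ ℕ, Finsupp.weight (vw N) m = da m - db m := fun m => by
    rw [Finsupp.weight_apply, Finsupp.sum_fintype _ _ (by simp), Fintype.sum_sum_type]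
    simp [vw, da, db, sub_eq_add_neg]
  rw [of_mem_iff]
  exact ⟨fun h m hm => (key m).trans (h m (mem_support_iff.2 hm)),
    fun h m hm => (key m).symm.trans (h (mem_support_iff.1 hm))⟩

theorem sg_mem (h : x ∈ Sp N A S) : sg x ∈ Sp N A S := by
  refine gr2_map (L := sg.toLinearMap) h fun t m l h1 => ?_
  rw [AlgHom.toLinearMap_apply, gr2_sg_wd]
  exact Submodule.smul_mem _ _ (gr2_wd_mem h1)

theorem sg_even (h : x ∈ Sp N A fun _ _ p q => Even (p + q)) : sg x = x := by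
  refine gr2_ind (P := fun x => sg x = x) h (map_zero _) (fun x y hx hy => ?_) fun t m l h1 => ?_
  · rw [map_add, hx, hy]
  · rw [gr2_dp_add_dq, Int.even_coe_nat] at h1
    rw [gr2_sg_wd, h1.neg_one_pow, one_smul]

theorem sg_odd (h : x ∈ Sp N A fun _ _ p q => Odd (p + q)) : sg x = -x := by
  refine gr2_ind (P := fun x => sg x = -x) h (by rw [map_zero, neg_zero]) (fun x y hx hy => ?_)
    fun t m l h1 => ?_
  · rw [map_add, hx, hy, neg_add]
  · rw [gr2_dp_add_dq, Int.odd_coe_nat] at h1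
    rw [gr2_sg_wd, h1.neg_one_pow, neg_one_smul]

theorem c_inl_mem (i : Fin N) (h : x ∈ Sp N A S) (hU : ∀ a b p q, S a b p q → U a b (p - 1) q) :
    c (inl i) x ∈ Sp N A U := by
  refine gr2_c _ h fun a b p q h1 => ?_
  rw [gr2_dp_inl, gr2_dq_inl, sub_zero]
  exact hU _ _ _ _ h1

theorem c_inr_mem (i : Fin N) (h : x ∈ Sp N A S) (hU : ∀ a b p q, S a b p q → U a b p (q - 1)) :
    c (inr i) x ∈ Sp N A U := by
  refine gr2_c _ h fun a b p q h1 => ?_
  rw [gr2_dp_inr, gr2_dq_inr, sub_zero]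
  exact hU _ _ _ _ h1

theorem lie_inl_mem (i : Fin N) (h : x ∈ Sp N A S)
    (hU : ∀ a b p q, S a b p q → U (a - 1) b p q) : lie (pd (inl i)) x ∈ Sp N A U := by
  refine gr2_lie _ h fun a b p q h1 => ?_
  rw [gr2_da_inl, gr2_db_inl, sub_zero]
  exact hU _ _ _ _ h1

theorem lie_inr_mem (i : Fin N) (h : x ∈ Sp N A S)
    (hU : ∀ a b p q, S a b p q → U a (b - 1) p q) : lie (pd (inr i)) x ∈ Sp N A U := by
  refine gr2_lie _ h fun a b p q h1 => ?_
  rw [gr2_da_inr, gr2_db_inr, sub_zero]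
  exact hU _ _ _ _ h1

/-- A derivation that only acts on the coefficients preserves the multidegree. -/
theorem lie_mem {D : Derivation ℂ (RR N A) (RR N A)} (hD : ∀ s, D (X s) = 0)
    (hC : ∀ t : A, ∃ t', D (C t) = C t') (h : x ∈ Sp N A S) : lie D x ∈ Sp N A S := by
  refine gr2_map h fun t m l h1 => ?_
  have key : ∀ m : Fin N ⊕ Fin N →₀ ℕ, D (monomial m 1) = 0 := fun m => by
    induction m using Finsupp.induction_linear with
    | zero => exact D.map_one_eq_zero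
    | add m m' hm hm' =>
      rw [← mul_one (1 : A), ← monomial_mul, D.leibniz, hm, hm', smul_zero, smul_zero, add_zero]
    | single s n => rw [← X_pow_eq_monomial, D.leibniz_pow, hD, smul_zero, smul_zero]
  obtain ⟨t', ht⟩ := hC t
  have h2 : D (monomial m t) = monomial m t' := by
    rw [← mul_one t, ← C_mul_monomial, D.leibniz, key, smul_zero, zero_add, ht, smul_eq_mul,
      mul_comm, C_mul_monomial, mul_one]
  rw [gr2_lie_wd, h2]
  exact gr2_wd_mem h1

theorem dx_mem (h : x ∈ Sp N A S)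
    (hU : ∀ a b p q, S a b p q → U (a - 1) b (p + 1) q ∧ U a (b - 1) p (q + 1)) :
    dx x ∈ Sp N A U := by
  rw [dx, dO_apply]
  refine sum_mem ?_
  rintro (i | i) -
  · refine gr2_e_mul _ (lie_inl_mem (U := fun a b p q => S (a + 1) b p q) i h
      fun a b p q h1 => by rwa [sub_add_cancel]) fun a b p q h1 => ?_
    have := (hU _ _ _ _ h1).1
    rwa [gr2_dp_inl, gr2_dq_inl, zero_add, add_comm 1, ← add_sub_cancel_right a 1]
  · refine gr2_e_mul _ (lie_inr_mem (U := fun a b p q => S a (b + 1) p q) i h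
      fun a b p q h1 => by rwa [sub_add_cancel]) fun a b p q h1 => ?_
    have := (hU _ _ _ _ h1).2
    rwa [gr2_dp_inr, gr2_dq_inr, zero_add, add_comm 1, ← add_sub_cancel_right b 1]

theorem mapc_mem (s : A →ₐ[ℂ] A') (h : x ∈ Sp N A S) :
    mapc (mapAlgHom (σ := Fin N ⊕ Fin N) s) x ∈ Sp N A' S := by
  refine gr2_map (L := (mapc (mapAlgHom (σ := Fin N ⊕ Fin N) s)).toLinearMap) h
    fun t m l h1 => ?_
  have key : ∀ l : List (Fin N ⊕ Fin N),
      mapc (mapAlgHom (σ := Fin N ⊕ Fin N) s) (wd t m l) = wd (s t) m l := fun l => by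
    induction l with
    | nil =>
      rw [gr2_wd_nil, gr2_wd_nil, mapc_of, mapAlgHom_apply, map_monomial]
      rfl
    | cons u l ih => rw [gr2_wd_cons, gr2_wd_cons, map_mul, mapc_e, ih]
  rw [AlgHom.toLinearMap_apply, key]
  exact gr2_wd_mem h1

theorem mapc_dx (s : A →ₐ[ℂ] A') (x : OO N A) :
    mapc (mapAlgHom (σ := Fin N ⊕ Fin N) s) (dx x) =
      dx (mapc (mapAlgHom (σ := Fin N ⊕ Fin N) s) x) := by
  exact mapc_dO _ (fun _ _ => pderiv_map.symm) x

theorem eu_x {n : ℤ} (h : x ∈ Sp N A fun a _ _ _ => a = n) :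
    ∑ i, of (X (inl i)) * lie (pd (inl i)) x = n • x := by
  refine gr2_eu (fun i => of (X (inl i))) (fun i => lie (pd (inl i))) h fun t m l h1 => ?_
  simp only [gr2_X_lie]
  rw [← Finset.sum_smul, ← h1, da]

theorem eu_y {n : ℤ} (h : x ∈ Sp N A fun _ b _ _ => b = n) :
    ∑ i, of (X (inr i)) * lie (pd (inr i)) x = n • x := by
  refine gr2_eu (fun i => of (X (inr i))) (fun i => lie (pd (inr i))) h fun t m l h1 => ?_
  simp only [gr2_X_lie]
  rw [← Finset.sum_smul, ← h1, db]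

theorem eu_dx {n : ℤ} (h : x ∈ Sp N A fun _ _ p _ => p = n) :
    ∑ i, e (inl i) * c (inl i) x = n • x := by
  refine gr2_eu (fun i => e (inl i)) (fun i => c (inl i)) h fun t m l h1 => ?_
  simp only [gr2_e_c]
  rw [← Finset.sum_smul, gr2_cnt_inl, h1]

theorem eu_dy {n : ℤ} (h : x ∈ Sp N A fun _ _ _ q => q = n) :
    ∑ i, e (inr i) * c (inr i) x = n • x := by
  refine gr2_eu (fun i => e (inr i)) (fun i => c (inr i)) h fun t m l h1 => ?_
  simp only [gr2_e_c]
  rw [← Finset.sum_smul, gr2_cnt_inr, h1]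

end Pool.Agent.Lib.MP_e9c0f3_ag.DR
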