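import Pool.Agent.Lib.MP_e9c0f3_ag.DR.Red

/-! The powers of the hyperplane class of projective space do not vanish. -/

open MvPolynomial Sum

namespace Pool.Agent.Lib.MP_e9c0f3_ag.DR

open Om

variable {N : ℕ} {A : Type} [CommRing A] [Algebra ℂ A]

theorem iv_dth : iv (dx (th N A)) = -dx (of (ff N A)) := by
  have h := eu_v (x := th N A) (n := 0) (Sp_mono th_mem fun a b p q _ _ _ _ _ _ h => by omega)
  rw [iv_th, zero_smul] at h
  exact eq_neg_of_add_eq_zero_left h

/-- The moments of the sphere up to a factor that depends on the degree. -/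
def np_gw (m : Fin N ⊕ Fin N →₀ ℕ) : ℕ :=
  ∏ i, if m (inl i) = m (inr i) then (m (inr i)).factorial else 0

theorem np_gw_ne {m : Fin N ⊕ Fin N →₀ ℕ} {i : Fin N} (h : m (inl i) ≠ m (inr i)) :
    np_gw m = 0 :=
  Finset.prod_eq_zero (Finset.mem_univ i) (if_neg h)

theorem np_gw_add (m : Fin N ⊕ Fin N →₀ ℕ) (i : Fin N) :
    np_gw (Finsupp.single (inl i) 1 + Finsupp.single (inr i) 1 + m)
      = (m (inr i) + 1) * np_gw m := by
  unfold np_gw
  rw [← Finset.mul_prod_erase _ _ (Finset.mem_univ i),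
    ← Finset.mul_prod_erase _ _ (Finset.mem_univ i), ← mul_assoc]
  congr 1
  · simp only [Finsupp.add_apply, Finsupp.single_eq_same, Finsupp.single_apply, reduceCtorEq,
      if_false, add_zero, zero_add, add_right_inj]
    split_ifs
    · rw [add_comm 1, Nat.factorial_succ]
    · simp
  · refine Finset.prod_congr rfl fun k hk => ?_
    have hk' : i ≠ k := (Finset.ne_of_mem_erase hk).symm
    simp [hk']

theorem np_gw_add' (m : Fin N ⊕ Fin N →₀ ℕ) (t : Fin N ⊕ Fin N) :
    np_gw (Finsupp.single t.swap 1 + (Finsupp.single t 1 + m)) = (m t + 1) * np_gw m := by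
  cases t with
  | inl i =>
    rw [← add_assoc, swap_inl, add_comm (Finsupp.single (inr i) 1), np_gw_add]
    by_cases h : m (inl i) = m (inr i)
    · rw [h]
    · rw [np_gw_ne h, mul_zero, mul_zero]
  | inr i => rw [← add_assoc, swap_inr, np_gw_add]

/-- The moment functional with a scaling `s` in the degree. -/
noncomputable def np_lam (s : ℤ → ℂ) : RR N A →ₗ[A] A :=
  (basisMonomials (Fin N ⊕ Fin N) A).constr A fun m => algebraMap ℂ A (s (db m) * np_gw m)

theorem np_lam_monomial (s : ℤ → ℂ) (m : Fin N ⊕ Fin N →₀ ℕ) (t : A) :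
    np_lam s (monomial m t) = t * algebraMap ℂ A (s (db m) * np_gw m) := by
  have h : (monomial m t : RR N A) = t • basisMonomials (Fin N ⊕ Fin N) A m := by
    simp [smul_monomial]
  rw [h, map_smul, np_lam, Module.Basis.constr_basis, smul_eq_mul]

theorem np_db_pair (t : Fin N ⊕ Fin N) :
    db (Finsupp.single t.swap 1) + db (Finsupp.single t 1) = 1 := by
  cases t <;> simp [gr2_db_inl, gr2_db_inr]

theorem np_lam_pd (s : ℤ → ℂ) (t : Fin N ⊕ Fin N) (r : RR N A) :
    np_lam s (pd t r) = np_lam (fun b => s (b - 1)) (X t.swap * r) := by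
  induction r using MvPolynomial.induction_on' with
  | add p q hp hq => rw [map_add, map_add, mul_add, map_add, hp, hq]
  | monomial m a =>
    rw [pd_apply, pderiv_monomial, X, monomial_mul, one_mul, np_lam_monomial, np_lam_monomial]
    by_cases h : m t = 0
    · have h1 : np_gw (Finsupp.single t.swap 1 + m) = 0 := by
        cases t with
        | inl i => exact np_gw_ne (i := i) (by simp [h]; omega)
        | inr i => exact np_gw_ne (i := i) (by simp [h])
      simp [h, h1]
    · obtain ⟨m', rfl⟩ : ∃ m', m = Finsupp.single t 1 + m' :=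
        ⟨m - Finsupp.single t 1, (add_tsub_cancel_of_le
          (Finsupp.single_le_iff.2 (Nat.one_le_iff_ne_zero.2 h))).symm⟩
      have h2 : db (Finsupp.single t.swap 1 + (Finsupp.single t 1 + m')) - 1 = db m' := by
        rw [← add_assoc, gr2_db_add, gr2_db_add, np_db_pair]
        ring
      rw [add_tsub_cancel_left, np_gw_add', h2]
      simp only [Finsupp.add_apply, Finsupp.single_eq_same, Nat.cast_add, Nat.cast_one,
        Nat.cast_mul, map_mul, map_add, map_natCast, map_one]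
      ring

theorem np_lam_ff {s : ℤ → ℂ} (hs : ∀ b : ℤ, s (b + 1) * (b + N) = s b) (r : RR N A) :
    np_lam s (ff N A * r) = np_lam s r := by
  induction r using MvPolynomial.induction_on' with
  | add p q hp hq => rw [mul_add, map_add, map_add, hp, hq]
  | monomial m a =>
    have h1 : ∀ i : Fin N, np_lam s (X (inl i) * X (inr i) * monomial m a : RR N A)
        = a * algebraMap ℂ A (s (db m + 1) * (((m (inr i) : ℂ) + 1) * np_gw m)) := fun i => by
      rw [X, X, monomial_mul, monomial_mul, np_lam_monomial, np_gw_add, gr2_db_add, gr2_db_add,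
        gr2_db_inl, gr2_db_inr, zero_add, add_comm 1 (db m)]
      simp
    rw [ff, Finset.sum_mul, map_sum, np_lam_monomial]
    simp only [h1]
    rw [← Finset.mul_sum, ← map_sum, ← Finset.mul_sum, ← Finset.sum_mul, ← hs (db m)]
    congr 2
    simp only [Finset.sum_add_distrib, db]
    simp [mul_assoc]

theorem np_dth : dx (th N A) = ∑ i, e (inr i) * e (inl i) := by
  rw [th, map_sum]
  refine Finset.sum_congr rfl fun i _ => ?_
  rw [dx_of_mul, dx_X, dx_e, mul_zero, add_zero]

theorem np_sg_ee (s t : Fin N ⊕ Fin N) : sg (e s * e t : OO N A) = e s * e t := by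
  rw [map_mul, sg_e, sg_e, neg_mul_neg]

theorem np_c_pow {s : Fin N ⊕ Fin N} {x : OO N A} (h : c s x = 0) (n : ℕ) : c s (x ^ n) = 0 := by
  induction n with
  | zero => rw [pow_zero, top_c_one]
  | succ n ih => rw [pow_succ, c_mul, ih, h, zero_mul, mul_zero, add_zero]

theorem np_add_pow {u w : OO N A} (hc : w * u = u * w) (hu : u * u = 0) (n : ℕ) :
    (u + w) ^ (n + 1) = w ^ (n + 1) + (n + 1) • (u * w ^ n) := by
  induction n with
  | zero => simp [add_comm]
  | succ n ih =>
    rw [pow_succ' _ (n + 1), ih, add_mul, mul_add, mul_add, mul_smul_comm, mul_smul_comm,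
      ← mul_assoc u u, hu, zero_mul, smul_zero, add_zero, ← mul_assoc w u, hc, mul_assoc u w,
      ← pow_succ' w n, ← pow_succ' w (n + 1), succ_nsmul _ (n + 1)]
    abel

theorem np_contr (T : Finset (Fin N)) : ∃ K : OO N A →ₗ[ℂ] OO N A,
    (∀ r x, K (of r * x) = of r * K x) ∧ (∀ D x, K (lie D x) = lie D (K x)) ∧
    (∀ i ∈ T, ∀ x, K (c (inl i) x) = 0 ∧ K (c (inr i) x) = 0) ∧
    K ((∑ i ∈ T, e (inr i) * e (inl i)) ^ T.card) = (T.card.factorial : OO N A) := by
  induction T using Finset.induction_on with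
  | empty => exact ⟨LinearMap.id, fun _ _ => rfl, fun _ _ => rfl, by simp, by simp⟩
  | insert i T hi ih =>
    obtain ⟨K, h1, h2, h3, h4⟩ := ih
    refine ⟨K ∘ₗ c (inl i) ∘ₗ c (inr i), fun r x => ?_, fun D x => ?_, fun k hk x => ?_, ?_⟩
    · simp only [LinearMap.comp_apply, c_of_mul, h1]
    · simp only [LinearMap.comp_apply, ← lie_c, h2]
    · have sw : ∀ s, c (inl i) (c (inr i) (c s x)) = c s (c (inl i) (c (inr i) x)) := fun s => by
        rw [c_c (inr i) s, map_neg, c_c (inl i) s, neg_neg]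
      simp only [LinearMap.comp_apply]
      rcases Finset.mem_insert.1 hk with rfl | hk
      · constructor
        · rw [sw, c_c_self, map_zero]
        · rw [c_c_self, map_zero, map_zero]
      · rw [sw, sw]
        exact ⟨(h3 k hk _).1, (h3 k hk _).2⟩
    · have hw : ∀ s, s = inl i ∨ s = inr i →
          c s (∑ k ∈ T, e (inr k) * e (inl k) : OO N A) = 0 := fun s hs => by
        rw [map_sum]
        refine Finset.sum_eq_zero fun k hk => ?_
        have hk' : i ≠ k := fun h => hi (h ▸ hk)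
        rcases hs with rfl | rfl <;> simp [c_e_mul, c_e, hk']
      have hu : (e (inr i) * e (inl i) : OO N A) * (e (inr i) * e (inl i)) = 0 := by
        rw [← mul_assoc, comm_even _ (e (inr i)) (np_sg_ee _ _), ← mul_assoc, e_mul_e, zero_mul,
          zero_mul]
      rw [Finset.sum_insert hi, Finset.card_insert_of_notMem hi,
        np_add_pow (comm_even _ _ (np_sg_ee _ _)).symm hu]
      simp only [LinearMap.comp_apply, map_add, map_nsmul, mul_assoc, c_e_mul,
        np_c_pow (hw _ (Or.inl rfl)), np_c_pow (hw _ (Or.inr rfl)), if_true, reduceCtorEq, if_false,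
        mul_zero, sub_zero, map_zero, zero_add, h4]
      rw [Nat.factorial_succ, nsmul_eq_mul, Nat.cast_mul]

theorem np_phi : ∃ Φ : OO N A →ₗ[ℂ] RR N A,
    (∀ r x, Φ (of r * x) = r * Φ x) ∧ (∀ D x, Φ (lie D x) = D (Φ x)) ∧
    (∀ x, Φ (iv x) = 0) ∧ Φ (dx (th N A) ^ N) = (N.factorial : RR N A) := by
  obtain ⟨K, h1, h2, h3, h4⟩ := np_contr (A := A) (Finset.univ : Finset (Fin N))
  obtain ⟨ρ, r1, r2⟩ := exists_lift (σ := Fin N ⊕ Fin N) (AlgHom.id ℂ (RR N A)) (fun _ => 0)
    (by simp) (by simp) (by simp)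
  have r3 : ∀ (D : Derivation ℂ (RR N A) (RR N A)) x, ρ (lie D x) = D (ρ x) := fun D x => by
    induction x using ind_left with
    | h0 r => rw [lie_of, r1, r1]; rfl
    | ha x y hx hy => rw [map_add, map_add, map_add, map_add, hx, hy]
    | hm s x _ => rw [lie_mul, lie_e, zero_mul, zero_add, map_mul, map_mul, r2]; simp
  refine ⟨ρ.toLinearMap ∘ₗ K, fun r x => ?_, fun D x => ?_, fun x => ?_, ?_⟩
  · simp [h1, r1]
  · simp [h2, r3]
  · simp [id2_iv_apply, h1, (h3 _ (Finset.mem_univ _) _).1, (h3 _ (Finset.mem_univ _) _).2]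
  · rw [Finset.card_univ, Fintype.card_fin] at h4
    simp [np_dth, h4]

theorem np_sg_th : sg (th N A) = -th N A :=
  sg_odd (Sp_mono th_mem fun a b p q _ _ _ _ _ _ h => by rw [h.2.2.1, h.2.2.2]; decide)

theorem np_sg_dth : sg (dx (th N A)) = dx (th N A) := (SO N A).even_d np_sg_th

theorem np_iv_mul (x y : OO N A) : iv (x * y) = iv x * y + sg x * iv y := io_mul _ x y

theorem np_iv_pow (n : ℕ) : iv (dx (th N A) ^ (n + 1)) =
    -((n + 1) • (dx (of (ff N A)) * dx (th N A) ^ n)) := by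
  induction n with
  | zero => simp [iv_dth]
  | succ n ih =>
    rw [pow_succ' _ (n + 1), np_iv_mul, ih, iv_dth, np_sg_dth, mul_neg, mul_smul_comm,
      ← mul_assoc, comm_even _ _ np_sg_dth, mul_assoc, ← pow_succ', succ_nsmul _ (n + 1), neg_mul]
    abel

theorem np_iv_pow_II (n : ℕ) : iv (dx (th N A) ^ n) ∈ II N A := by
  cases n with
  | zero =>
    have := id2_iv_of (1 : RR N A)
    rw [map_one] at this
    rw [pow_zero, this]
    exact zero_mem _
  | succ n =>
    rw [np_iv_pow]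
    exact neg_mem (nsmul_mem (red_df_II _) _)

theorem np_dx_pow (n : ℕ) : dx (dx (th N A) ^ n) = 0 := by
  induction n with
  | zero => rw [pow_zero]; exact (SO N A).d_one
  | succ n ih => rw [pow_succ, dx_mul, ih, dx_dx, zero_mul, mul_zero, add_zero]

/-- Integration over the sphere. -/
theorem np_mu (n : ℕ) : ∃ μ : OO (n + 1) A →+ A, (∀ x ∈ II (n + 1) A, μ x = 0) ∧
    (∀ x, μ (dx x) = 0) ∧ (∀ x, μ (iv x) = 0) ∧
    ∀ g : A, μ (of (C g) * (th (n + 1) A * dx (th (n + 1) A) ^ n)) = 0 → g = 0 := by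
  obtain ⟨Φ, h1, h2, h3, h4⟩ := np_phi (N := n + 1) (A := A)
  obtain ⟨s, hs, hs0⟩ : ∃ s : ℤ → ℂ, (∀ b : ℤ, s (b + 1) * (b + (n + 1 : ℕ)) = s b) ∧ s 0 ≠ 0 := by
    refine ⟨fun b => (Complex.Gamma (b + (n + 1 : ℕ)))⁻¹, fun b => ?_, ?_⟩
    · beta_reduce
      rw [Complex.one_div_Gamma_eq_self_mul_one_div_Gamma_add_one (b + (n + 1 : ℕ)), mul_comm]
      congr 3
      push_cast
      ring
    · refine inv_ne_zero (Complex.Gamma_ne_zero_of_re_pos ?_)
      simp only [Int.cast_zero, zero_add, Complex.natCast_re]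
      positivity
  have hd : ∀ x, np_lam s (Φ (dx x)) =
      np_lam (fun b => s (b - 1)) (Φ (dx (of (ff (n + 1) A)) * x)) := fun x => by
    have e1 : dx (of (ff (n + 1) A)) * x = ∑ t, of (X (Sum.swap t)) * (e t * x) := by
      rw [dx, dO_of, Finset.sum_mul]
      refine Finset.sum_congr rfl fun t _ => ?_
      have : pd t (ff (n + 1) A) = X t.swap := by
        rw [pd_apply, ff, map_sum]
        cases t <;> simp [pderiv_X, Pi.single_apply]
      rw [this, mul_assoc]
    rw [e1, dx, dO_apply, map_sum, map_sum, map_sum, map_sum]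
    refine Finset.sum_congr rfl fun t _ => ?_
    have e2 : e t * lie (pd t) x = lie (pd t) (e t * x) := by
      rw [lie_mul, lie_e, zero_mul, zero_add]
    rw [e2, h2, h1, np_lam_pd]
  have hiv : ∀ x, iv (dx (of (ff (n + 1) A)) * x) = -(dx (of (ff (n + 1) A)) * iv x) := fun x => by
    rw [id2_iv_dof_mul, iv_dff, zero_mul, zero_sub]
  refine ⟨(np_lam s).toAddMonoidHom.comp (Φ.toAddMonoidHom.comp
    (AddMonoidHom.mulLeft (dx (of (ff (n + 1) A))))), fun x hx => ?_, fun x => ?_, fun x => ?_,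
    fun g hg => ?_⟩
  · obtain ⟨a, b, rfl⟩ := mem_II.1 hx
    change np_lam s (Φ (dx (of (ff (n + 1) A)) * _)) = 0
    rw [mul_add, dof_dof, add_zero, ← mul_assoc, id_mul_of_sub, mul_assoc, sub_mul, one_mul,
      map_sub, map_sub, h1, np_lam_ff hs, sub_self]
  · change np_lam s (Φ (dx (of (ff (n + 1) A)) * _)) = 0
    rw [← neg_neg (_ * dx x), ← dx_dof_mul, map_neg, map_neg, hd, dof_dof]
    simp
  · change np_lam s (Φ (dx (of (ff (n + 1) A)) * _)) = 0
    rw [← neg_neg (_ * iv x), ← hiv, map_neg, h3]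
    simp
  · change np_lam s (Φ (dx (of (ff (n + 1) A)) * _)) = 0 at hg
    have e1 : iv (th (n + 1) A * dx (th (n + 1) A) ^ (n + 1)) =
        of (ff (n + 1) A) * dx (th (n + 1) A) ^ (n + 1) - (n + 1) •
          (dx (of (ff (n + 1) A)) * (th (n + 1) A * dx (th (n + 1) A) ^ n)) := by
      rw [np_iv_mul, iv_th, np_iv_pow, np_sg_th, neg_mul_neg, mul_smul_comm, ← mul_assoc,
        id_mul_dof, np_sg_th, mul_neg, neg_mul, smul_neg, mul_assoc, sub_eq_add_neg]
    have e2 := congrArg Φ e1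
    rw [h3, map_sub, h1, h4, map_nsmul] at e2
    rw [← mul_assoc, id_mul_of, mul_assoc, h1] at hg
    have e3 : np_lam s (ff (n + 1) A * (C g * ((n + 1).factorial : RR (n + 1) A))) = 0 := by
      rw [mul_left_comm, sub_eq_zero.1 e2.symm, mul_smul_comm, map_nsmul, hg, smul_zero]
    rw [np_lam_ff hs, ← map_natCast (C : A →+* RR (n + 1) A), ← map_mul, C_apply,
      np_lam_monomial, ← map_natCast (algebraMap ℂ A), mul_assoc, ← map_mul] at e3
    have e4 : ((n + 1).factorial : ℂ) * (s (db (0 : Fin (n + 1) ⊕ Fin (n + 1) →₀ ℕ)) *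
        np_gw (0 : Fin (n + 1) ⊕ Fin (n + 1) →₀ ℕ)) ≠ 0 := by
      rw [gr2_db_zero]
      refine mul_ne_zero (by exact_mod_cast (n + 1).factorial_ne_zero) (mul_ne_zero hs0 ?_)
      simp [np_gw]
    exact ((IsUnit.mk0 _ e4).map (algebraMap ℂ A)).mul_left_eq_zero.1 e3

theorem np {j : ℕ} (hj : j + 1 ≤ N) {g : A} {y : OO N A} (hy : iv y ∈ II N A)
    (h : of (C g) * dx (th N A) ^ j - dx y ∈ II N A) : g = 0 := by
  obtain ⟨n, rfl⟩ : ∃ n, N = n + 1 := ⟨N - 1, by omega⟩
  obtain ⟨k, hk⟩ : ∃ k, n = k + j := ⟨n - j, by omega⟩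
  obtain ⟨μ, m1, m2, m3, m4⟩ := np_mu (A := A) n
  have m5 : ∀ w, iv w ∈ II (n + 1) A → μ w = 0 := fun w hw => by
    have e1 : w = iv (th (n + 1) A * w) + (th (n + 1) A * iv w - (of (ff (n + 1) A) * w - w)) := by
      rw [np_iv_mul, iv_th, np_sg_th, neg_mul]
      abel
    rw [e1, map_add, m3, m1 _ (sub_mem (Ideal.mul_mem_left _ _ hw) (red_f_II w)), add_zero]
  have hz : iv (dx (th (n + 1) A) ^ (k + 1) * y) ∈ II (n + 1) A := by
    rw [np_iv_mul]
    exact add_mem (Ideal.mul_mem_right _ _ (np_iv_pow_II _)) (Ideal.mul_mem_left _ _ hy)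
  have e2 : of (C g) * (th (n + 1) A * dx (th (n + 1) A) ^ n) =
      th (n + 1) A * (dx (th (n + 1) A) ^ k * (of (C g) * dx (th (n + 1) A) ^ j - dx y)) +
        dx (th (n + 1) A) ^ (k + 1) * y - dx (th (n + 1) A * (dx (th (n + 1) A) ^ k * y)) := by
    rw [dx_mul, dx_mul, np_dx_pow, map_pow, np_sg_dth, np_sg_th, zero_mul, zero_add, mul_sub,
      mul_sub, ← mul_assoc (dx (th (n + 1) A) ^ k), id_mul_of, mul_assoc, ← pow_add, ← hk,
      ← mul_assoc (th (n + 1) A) (of (C g)), id_mul_of, mul_assoc, pow_succ', mul_assoc, neg_mul]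
    abel
  refine m4 g ?_
  rw [e2, map_sub, map_add, m2, m5 _ hz,
    m1 _ (Ideal.mul_mem_left _ _ (Ideal.mul_mem_left _ _ h)), add_zero, sub_zero]

end Pool.Agent.Lib.MP_e9c0f3_ag.DR
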