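import Pool.Agent.Lib.MP_e9c0f3_ag.DR.Red2
import Pool.Agent.Lib.MP_e9c0f3_ag.DR.NP

/-! The even cohomology of projective space. -/

open MvPolynomial Sum

namespace Pool.Agent.Lib.MP_e9c0f3_ag.DR

open Om

variable {N : ℕ} {A : Type} [CommRing A] [Algebra ℂ A] [IsDomain A]

theorem red_plain_tot {m : ℤ} (h1 : 1 ≤ m) (hm : m + 1 < 2 * N) {κ : OO N A}
    (hκ : κ ∈ Sp N A fun a b p q => p + q = m ∧ a + p - b - q = 0) (h : dx κ ∈ II N A) :
    ∃ z ∈ Sp N A fun a b p q => p + q = m - 1 ∧ a + p - b - q = 0, κ - dx z ∈ II N A := by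
  have hF : (0 : Pol N A).IsHomogeneous 0 := isHomogeneous_zero _ _ _
  have hN : 0 < N := by omega
  rw [← pa_zero] at h
  obtain ⟨w₀, hw⟩ := exists_normal (fun a b p q h => by omega) hκ
  obtain ⟨k, hk, h0, hI⟩ := hw (w₀ + 1) (Nat.le_succ _)
  have hw1 : (1 : ℤ) ≤ (w₀ + 1 : ℕ) := by omega
  generalize w₀ + 1 = w at hk hw1
  have hkw : k ∈ Sp N A fun _ b _ q => b + q = w := gr_mono (fun a b p q h => h.2) hk
  have h1' : (0 : OO N A) - pa 0 k ∈ II N A := by
    have := sub_mem (pa_II 0 hI) h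
    rw [map_sub] at this
    convert this using 1
    abel
  have h2 := red_normal hN hF hkw h0 (zero_mem _) h1'
  rw [mul_zero, mul_zero] at h2
  have h3 : pa 0 k ∈ Sp N A fun _ _ p q => p + q = m + 1 :=
    pa_mem hF hk fun a b p q h => by omega
  obtain ⟨ζ, hζ, e⟩ := twisted_exact_tot hF hm h3 (by rw [pa_pa, h2, add_zero])
  obtain ⟨Θ, hΘ1, hΘ2, hΘ3⟩ := red_theta (N := N) (A := A) hF
  obtain ⟨u, hu, hu'⟩ := hΘ1 w
  have h4 := red_pa_wt hF (Q := fun v => v = w) hkw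
  have h5 := hΘ3 ζ
  rw [← e, hu' _ h4, red_iw_pa 0 hkw, h0, map_zero, sub_zero, smul_smul] at h5
  have hc : u * ((w : ℤ) : ℂ) ≠ 0 := mul_ne_zero hu (Int.cast_ne_zero.2 (by omega))
  generalize u * ((w : ℤ) : ℂ) = v at h5 hc
  have h6 : v⁻¹ • cut (fun _ b _ q => b + q = 0) ζ ∈
      Sp N A fun a b p q => ¬a + p - b - q = 0 :=
    Submodule.smul_mem _ _ (Sp_mono (cut_mem_of _ hζ) fun a b p q _ _ _ _ _ _ h => by omega)
  have hη : -(v⁻¹ • Θ ζ) ∈ Sp N A fun _ _ p q => p + q = m - 1 :=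
    neg_mem (Submodule.smul_mem _ _ (hΘ2 hζ fun a b p q h => by omega))
  have h7 : κ - v⁻¹ • cut (fun _ b _ q => b + q = 0) ζ - dx (-(v⁻¹ • Θ ζ)) ∈ II N A := by
    have := add_mem hI (smul_II v⁻¹ h5)
    rw [smul_sub, smul_add, smul_smul, inv_mul_cancel₀ hc, one_smul, pa_zero] at this
    rw [map_neg, map_smul]
    convert this using 1
    abel
  have h8 := cut_II (fun _ v => v = 0) h7
  rw [map_sub, map_sub, cut_of_mem (gr_mono (fun a b p q h => h.2) hκ), cut_of_not h6, sub_zero,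
    cut_dx (fun _ v => v = 0)] at h8
  exact ⟨_, gr_mono (fun a b p q h => ⟨h.2, h.1⟩)
    (cut_mem_of (fun a b p q => a + p - b - q = 0) hη), h8⟩

omit [IsDomain A] in
theorem gyp_sg_th : sg (th N A) = -th N A :=
  sg_odd (Sp_mono th_mem fun _ _ p q _ _ _ _ _ _ h => by
    rw [h.2.2.1, h.2.2.2]
    decide)

omit [IsDomain A] in
theorem gyp_sg_dth : sg (dx (th N A)) = dx (th N A) :=
  sg_even (dx_mem th_mem fun a b p q h => by
    rw [h.2.2.1, h.2.2.2]
    decide)

theorem gysinP (hN : 2 ≤ N) {j : ℕ} (hj : j + 1 ≤ N) {κ : OO N A}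
    (hκ : κ ∈ Sp N A fun a b p q => p + q = 2 * j ∧ a + p - b - q = 0) (hv : iv κ ∈ II N A)
    (h : dx κ ∈ II N A) : ∃ (g : A) (y : OO N A), iv y ∈ II N A ∧
      κ - of (C g) * dx (th N A) ^ j - dx y ∈ II N A := by
  induction j generalizing κ with
  | zero =>
    obtain ⟨z, hz, t, ht, -⟩ := red_plain (m := 0) (by omega) (by omega)
      (gr_mono (fun a b p q h => ⟨by omega, h.2⟩) hκ) h
    have hz0 : z = 0 := Sp_eq_zero hz fun _ _ p q _ _ _ _ _ _ h => by omega
    refine ⟨t, 0, by rw [map_zero]; exact zero_mem _, ?_⟩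
    rw [hz0, map_zero, sub_zero] at ht
    rwa [pow_zero, mul_one, map_zero, sub_zero]
  | succ j ih =>
    obtain ⟨z, hz, hI⟩ := red_plain_tot (m := 2 * ((j + 1 : ℕ) : ℤ)) (by omega) (by omega) hκ h
    have hz2 : iv z ∈ Sp N A fun a b p q => p + q = 2 * j ∧ a + p - b - q = 0 :=
      iv_mem hz fun a b p q h => by omega
    have hvv : ∀ x : OO N A, iv (iv x) = 0 := fun x => io_io _ x
    have hmul : ∀ x y : OO N A, iv (x * y) = iv x * y + sg x * iv y := fun x y => io_mul _ x y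
    have h1 : iv (dx z) ∈ II N A := by
      have := sub_mem hv (iv_II hI)
      rwa [map_sub, sub_sub_cancel] at this
    have h2 : dx (iv z) ∈ II N A := by
      have e := eu_v (n := 0) (gr_mono (fun a b p q h => h.2) hz)
      rw [zero_smul] at e
      rw [eq_neg_of_add_eq_zero_right e]
      exact neg_mem h1
    obtain ⟨g, y, hy, hg⟩ := ih (by omega) hz2 (by rw [hvv]; exact zero_mem _) h2
    refine ⟨g, iv (th N A * z) + dx (th N A) * y, ?_, ?_⟩
    · rw [map_add, hvv, zero_add, hmul, iv_dth, neg_mul]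
      exact add_mem (neg_mem (red_df_II _)) (Ideal.mul_mem_left _ _ hy)
    · have e1 : iv (th N A * z) = of (ff N A) * z - th N A * iv z := by
        rw [hmul, iv_th, gyp_sg_th, neg_mul, sub_eq_add_neg]
      have e2 : of (C g) * dx (th N A) ^ (j + 1) = dx (th N A) * (of (C g) * dx (th N A) ^ j) := by
        rw [pow_succ', ← mul_assoc, of_comm, mul_assoc]
      have a1 := dx_II (red_f_II z)
      have a2 := Ideal.mul_mem_left _ (th N A) h2
      have a3 := Ideal.mul_mem_left _ (dx (th N A)) hg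
      have := sub_mem (add_mem (sub_mem hI a1) a3) a2
      rw [e1, e2, map_add, map_sub, dx_mul (th N A), dx_mul (dx (th N A)), dx_dx, zero_mul, zero_add,
        gyp_sg_th, gyp_sg_dth, neg_mul]
      rw [map_sub, mul_sub, mul_sub] at this
      convert this using 1
      abel

end Pool.Agent.Lib.MP_e9c0f3_ag.DR
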