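import Pool.Agent.Lib.MP_e9c0f3_ag.Base
import Pool.Agent.Lib.MP_e9c0f3_ag.DR.Gr2

/-! The ideals of the loci `∑ x y = 1` and `∑ x y = 1, F = 0`; Euler fields. -/

open MvPolynomial Sum

namespace Pool.Agent.Lib.MP_e9c0f3_ag.DR

open Om

variable {N : ℕ} {A A' : Type} [CommRing A] [Algebra ℂ A] [CommRing A'] [Algebra ℂ A']

/-- The pairing. -/
noncomputable def ff (N : ℕ) (A : Type) [CommRing A] : RR N A := ∑ i, X (inl i) * X (inr i)

/-- A polynomial in `x` as a form. -/
noncomputable def xo (P : Pol N A) : OO N A := of (rename inl P)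

/-- The twisted differential `d + dF`. -/
noncomputable def pa (F : Pol N A) : OO N A →ₗ[ℂ] OO N A := dx + LinearMap.mulLeft ℂ (dx (xo F))

theorem pa_apply (F : Pol N A) (x : OO N A) : pa F x = dx x + dx (xo F) * x := rfl

/-- The differential ideal of `∑ x y = 1`. -/
noncomputable def II (N : ℕ) (A : Type) [CommRing A] [Algebra ℂ A] : Ideal (OO N A) :=
  Ideal.span {of (ff N A) - 1, dx (of (ff N A))}

/-- The differential ideal of `∑ x y = 1`, `F = 0`. -/
noncomputable def JJ (F : Pol N A) : Ideal (OO N A) :=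
  Ideal.span {of (ff N A) - 1, dx (of (ff N A)), xo F, dx (xo F)}

/-- Contraction with the Euler field in `y`. -/
noncomputable def iw : OO N A →ₗ[ℂ] OO N A := io (Sum.elim (fun _ => 0) fun i => X (inr i))

/-- Contraction with the generator of the action of the multiplicative group. -/
noncomputable def iv : OO N A →ₗ[ℂ] OO N A :=
  io (Sum.elim (fun i => X (inl i)) fun i => -X (inr i))

/-- The connection form `∑ y dx`. -/
noncomputable def th (N : ℕ) (A : Type) [CommRing A] [Algebra ℂ A] : OO N A :=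
  ∑ i, of (X (inr i)) * e (inl i)

theorem id_sg_dof (r : RR N A) : sg (dx (of r : OO N A)) = -dx (of r) :=
  (SO N A).odd_d (sg_of r)

theorem id_mul_of (a : OO N A) (r : RR N A) : a * of r = of r * a := (of_comm r a).symm

theorem id_mul_of_sub (a : OO N A) (r : RR N A) : a * (of r - 1) = (of r - 1) * a := by
  rw [mul_sub, sub_mul, mul_one, one_mul, id_mul_of]

theorem id_mul_dof (a : OO N A) (r : RR N A) : a * dx (of r) = dx (of r) * sg a := by
  rw [comm_odd (dx (of r)) (sg a) (id_sg_dof r), sg_sg]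

theorem id_dof_mul (a : OO N A) (r : RR N A) : dx (of r) * a = sg a * dx (of r) :=
  comm_odd (dx (of r)) a (id_sg_dof r)

theorem id_ff_mem_II : (of (ff N A) - 1 : OO N A) ∈ II N A :=
  Ideal.subset_span (Set.mem_insert _ _)

theorem id_dff_mem_II : dx (of (ff N A) : OO N A) ∈ II N A :=
  Ideal.subset_span (Set.mem_insert_of_mem _ rfl)

theorem id_xo_mem_JJ (F : Pol N A) : xo F ∈ JJ F :=
  Ideal.subset_span (Set.mem_insert_of_mem _ (Set.mem_insert_of_mem _ (Set.mem_insert _ _)))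

theorem id_dxo_mem_JJ (F : Pol N A) : dx (xo F) ∈ JJ F :=
  Ideal.subset_span
    (Set.mem_insert_of_mem _ (Set.mem_insert_of_mem _ (Set.mem_insert_of_mem _ rfl)))

theorem id_II_le_JJ (F : Pol N A) : II N A ≤ JJ F := by
  refine Ideal.span_mono ?_
  rintro _ (rfl | rfl)
  · exact Set.mem_insert _ _
  · exact Set.mem_insert_of_mem _ (Set.mem_insert _ _)

theorem id_xo_mul_JJ (F : Pol N A) (x : OO N A) : xo F * x ∈ JJ F := by
  rw [xo, of_comm]
  exact (JJ F).mul_mem_left _ (id_xo_mem_JJ F)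

theorem id_dxo_mul_JJ (F : Pol N A) (x : OO N A) : dx (xo F) * x ∈ JJ F := by
  rw [xo, id_dof_mul]
  exact (JJ F).mul_mem_left _ (id_dxo_mem_JJ F)

theorem mem_II {x : OO N A} : x ∈ II N A ↔
    ∃ a b, x = (of (ff N A) - 1) * a + dx (of (ff N A)) * b := by
  rw [II, Ideal.mem_span_pair]
  constructor
  · rintro ⟨a, b, rfl⟩
    exact ⟨a, sg b, by rw [id_mul_of_sub, id_mul_dof]⟩
  · rintro ⟨a, b, rfl⟩
    exact ⟨a, sg b, by rw [id_mul_of_sub, id_dof_mul]⟩

theorem mem_JJ {F : Pol N A} {x : OO N A} : x ∈ JJ F ↔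
    ∃ a b, x - (xo F * a + dx (xo F) * b) ∈ II N A := by
  constructor
  · intro h
    induction h using Submodule.span_induction with
    | mem x hx =>
      rcases hx with rfl | rfl | rfl | rfl
      · exact ⟨0, 0, by simpa using id_ff_mem_II⟩
      · exact ⟨0, 0, by simpa using id_dff_mem_II⟩
      · exact ⟨1, 0, by simp⟩
      · exact ⟨0, 1, by simp⟩
    | zero => exact ⟨0, 0, by simp⟩
    | add x y _ _ hx hy =>
      obtain ⟨a, b, hx⟩ := hx
      obtain ⟨a', b', hy⟩ := hy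
      refine ⟨a + a', b + b', ?_⟩
      have h : x + y - (xo F * (a + a') + dx (xo F) * (b + b')) =
          x - (xo F * a + dx (xo F) * b) + (y - (xo F * a' + dx (xo F) * b')) := by
        rw [mul_add, mul_add]
        abel
      rw [h]
      exact (II N A).add_mem hx hy
    | smul r x _ hx =>
      obtain ⟨a, b, hx⟩ := hx
      refine ⟨r * a, sg r * b, ?_⟩
      have h : r • x - (xo F * (r * a) + dx (xo F) * (sg r * b)) =
          r * (x - (xo F * a + dx (xo F) * b)) := by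
        rw [smul_eq_mul, mul_sub, mul_add, ← mul_assoc r, ← mul_assoc r, xo, id_mul_of,
          id_mul_dof, mul_assoc, mul_assoc]
      rw [h]
      exact (II N A).mul_mem_left _ hx
  · rintro ⟨a, b, h⟩
    have h1 := (JJ F).add_mem (id_II_le_JJ F h)
      ((JJ F).add_mem (id_xo_mul_JJ F a) (id_dxo_mul_JJ F b))
    rwa [sub_add_cancel] at h1

theorem II_le_JJ (F : Pol N A) : II N A ≤ JJ F := by
  exact id_II_le_JJ F

theorem sg_II {x : OO N A} (h : x ∈ II N A) : sg x ∈ II N A := by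
  obtain ⟨a, b, rfl⟩ := mem_II.1 h
  refine mem_II.2 ⟨sg a, -sg b, ?_⟩
  rw [map_add, map_mul, map_mul, map_sub, sg_of, map_one, id_sg_dof, neg_mul, mul_neg]

theorem sg_JJ {F : Pol N A} {x : OO N A} (h : x ∈ JJ F) : sg x ∈ JJ F := by
  obtain ⟨a, b, h1⟩ := mem_JJ.1 h
  refine mem_JJ.2 ⟨sg a, -sg b, ?_⟩
  have h2 := sg_II h1
  rwa [map_sub, map_add, map_mul, map_mul, xo, sg_of, id_sg_dof, neg_mul, ← mul_neg] at h2

instance : (II N A).IsTwoSided := (SO N A).twoSided _ fun _ => sg_II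

instance (F : Pol N A) : (JJ F).IsTwoSided := (SO N A).twoSided _ fun _ => sg_JJ

theorem id_dx_of_mul (r : RR N A) (x : OO N A) :
    dx (of r * x) = dx (of r) * x + of r * dx x :=
  (SO N A).d_mul_even (sg_of r) x

theorem id_dx_dof_mul (r : RR N A) (x : OO N A) : dx (dx (of r) * x) = -(dx (of r) * dx x) :=
  (SO N A).d_d_mul (sg_of r) x

theorem dx_II {x : OO N A} (h : x ∈ II N A) : dx x ∈ II N A := by
  obtain ⟨a, b, rfl⟩ := mem_II.1 h
  refine mem_II.2 ⟨dx a, a - dx b, ?_⟩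
  rw [map_add, sub_mul, one_mul, map_sub, id_dx_of_mul, id_dx_dof_mul, sub_mul, one_mul, mul_sub]
  abel

theorem dx_JJ {F : Pol N A} {x : OO N A} (h : x ∈ JJ F) : dx x ∈ JJ F := by
  obtain ⟨a, b, h1⟩ := mem_JJ.1 h
  refine mem_JJ.2 ⟨dx a, a - dx b, ?_⟩
  have h2 := dx_II h1
  have h3 : dx (xo F * a + dx (xo F) * b) = xo F * dx a + dx (xo F) * (a - dx b) := by
    rw [map_add, xo, id_dx_of_mul, id_dx_dof_mul, mul_sub]
    abel
  rwa [map_sub, h3] at h2

theorem smul_II (t : ℂ) {x : OO N A} (h : x ∈ II N A) : t • x ∈ II N A := by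
  rw [Algebra.smul_def]
  exact (II N A).mul_mem_left _ h

theorem smul_JJ {F : Pol N A} (t : ℂ) {x : OO N A} (h : x ∈ JJ F) : t • x ∈ JJ F := by
  rw [Algebra.smul_def]
  exact (JJ F).mul_mem_left _ h

theorem pa_II (F : Pol N A) {x : OO N A} (h : x ∈ II N A) : pa F x ∈ II N A := by
  rw [pa_apply]
  exact (II N A).add_mem (dx_II h) ((II N A).mul_mem_left _ h)

theorem xo_mul_JJ (F : Pol N A) (x : OO N A) : xo F * x ∈ JJ F := by
  exact id_xo_mul_JJ F x

theorem dxo_mul_JJ (F : Pol N A) (x : OO N A) : dx (xo F) * x ∈ JJ F := by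
  exact id_dxo_mul_JJ F x

/-- Forms on `∑ x y = 1`. -/
noncomputable def SA (N : ℕ) (A : Type) [CommRing A] [Algebra ℂ A] : SD (OO N A ⧸ II N A) :=
  (SO N A).quot _ (fun _ => sg_II) fun _ => dx_II

/-- Forms on `∑ x y = 1`, `F = 0`. -/
noncomputable def ST (F : Pol N A) : SD (OO N A ⧸ JJ F) :=
  (SO N A).quot _ (fun _ => sg_JJ) fun _ => dx_JJ

theorem SA_d (x : OO N A) :
    (SA N A).d (Ideal.Quotient.mk _ x) = Ideal.Quotient.mk _ (dx x) := rfl

theorem ST_d (F : Pol N A) (x : OO N A) :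
    (ST F).d (Ideal.Quotient.mk _ x) = Ideal.Quotient.mk _ (dx x) := rfl

theorem hom_SA : SD.Hom (SO N A) (SA N A) (Ideal.Quotient.mkₐ ℂ _) := (SO N A).hom_quot _ _ _

theorem hom_ST (F : Pol N A) : SD.Hom (SO N A) (ST F) (Ideal.Quotient.mkₐ ℂ _) :=
  (SO N A).hom_quot _ _ _

theorem of_mem_II {r : RR N A} (h : r ∈ Ideal.span {ff N A - 1}) : (of r : OO N A) ∈ II N A := by
  obtain ⟨a, rfl⟩ := Ideal.mem_span_singleton'.1 h
  rw [map_mul, map_sub, map_one]
  exact (II N A).mul_mem_left _ id_ff_mem_II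

theorem of_mem_JJ {F : Pol N A} {r : RR N A} (h : r ∈ relJ F) : (of r : OO N A) ∈ JJ F := by
  obtain ⟨a, b, rfl⟩ := Ideal.mem_span_pair.1 h
  rw [map_add, map_mul, map_mul, map_sub, map_one]
  exact (JJ F).add_mem ((JJ F).mul_mem_left _ (id_xo_mem_JJ F))
    ((JJ F).mul_mem_left _ (II_le_JJ F id_ff_mem_II))

theorem dx_mul (x y : OO N A) : dx (x * y) = dx x * y + sg x * dx y := dO_mul _ _ _

theorem dx_dx (x : OO N A) : dx (dx x) = 0 := dO_dO pd_comm _

theorem dx_of_mul (r : RR N A) (x : OO N A) : dx (of r * x) = dx (of r) * x + of r * dx x := by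
  exact id_dx_of_mul r x

theorem dx_dof_mul (r : RR N A) (x : OO N A) : dx (dx (of r) * x) = -(dx (of r) * dx x) := by
  exact id_dx_dof_mul r x

theorem dof_dof (r : RR N A) (x : OO N A) : dx (of r) * (dx (of r) * x) = 0 := by
  exact (SO N A).d_mul_d_mul (sg_of r) x

theorem dof_anti (r t : RR N A) (x : OO N A) :
    dx (of r) * (dx (of t) * x) = -(dx (of t) * (dx (of r) * x)) := by
  rw [← mul_assoc, id_dof_mul (dx (of t)) r, id_sg_dof, neg_mul, neg_mul, mul_assoc]

theorem sg_dof (r : RR N A) : sg (dx (of r : OO N A)) = -dx (of r) := by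
  exact id_sg_dof r

theorem dx_C (t : A) : dx (of (C t) : OO N A) = 0 := by
  rw [dx, dO_of]
  simp [pd_apply]

theorem dx_X (s : Fin N ⊕ Fin N) : dx (of (X s) : OO N A) = e s := by
  rw [dx, dO_of, Finset.sum_eq_single s]
  · rw [pd_apply, pderiv_X_self, map_one, one_mul]
  · intro t _ ht
    rw [pd_apply, pderiv_X_of_ne ht.symm, map_zero, zero_mul]
  · intro hs
    exact absurd (Finset.mem_univ s) hs

theorem dx_e (s : Fin N ⊕ Fin N) : dx (e s : OO N A) = 0 := dO_e _ _

omit [Algebra ℂ A] in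
theorem id_pderiv_inr (i : Fin N) (P : Pol N A) :
    pderiv (inr i) (rename inl P : RR N A) = 0 := by
  induction P using MvPolynomial.induction_on with
  | C a => simp
  | add p q hp hq => simp [hp, hq]
  | mul_X p j hp => simp [hp]

theorem dx_xo (P : Pol N A) : dx (xo P) = ∑ i, xo (pderiv i P) * e (inl i) := by
  rw [xo, dx, dO_of, Fintype.sum_sum_type]
  simp only [pd_apply, id_pderiv_inr, map_zero, zero_mul, Finset.sum_const_zero, add_zero]
  refine Finset.sum_congr rfl fun i _ => ?_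
  rw [pderiv_rename inl_injective, xo]

theorem dx_ff : dx (of (ff N A)) = ∑ i, of (X (inl i)) * e (inr i) + th N A := by
  rw [ff, th, map_sum, map_sum, ← Finset.sum_add_distrib]
  refine Finset.sum_congr rfl fun i _ => ?_
  rw [map_mul, dx_of_mul, dx_X, dx_X, ← of_comm, add_comm]

theorem pa_pa (F : Pol N A) (x : OO N A) : pa F (pa F x) = 0 := by
  rw [pa_apply, pa_apply, map_add, dx_dx, mul_add, xo, dx_dof_mul, dof_dof]
  abel

theorem pa_zero (x : OO N A) : pa (0 : Pol N A) x = dx x := by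
  rw [pa_apply, xo, map_zero, map_zero, map_zero, zero_mul, add_zero]

end Pool.Agent.Lib.MP_e9c0f3_ag.DR
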