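import Pool.Agent.Lib.MP_e9c0f3_ag.DR.Id

/-! Homogeneity of the ideals, Euler identities, base change. -/

open MvPolynomial Sum

namespace Pool.Agent.Lib.MP_e9c0f3_ag.DR

open Om

variable {N : ℕ} {A A' : Type} [CommRing A] [Algebra ℂ A] [CommRing A'] [Algebra ℂ A']

theorem ff_mem : (of (ff N A) : OO N A) ∈ Sp N A fun a b p q => a = 1 ∧ b = 1 ∧ p = 0 ∧ q = 0 := by
  rw [ff, map_sum]
  refine Submodule.sum_mem _ fun i _ => ?_
  rw [map_mul]
  refine Sp_mul (S := fun a b p q => a = 1 ∧ b = 0 ∧ p = 0 ∧ q = 0)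
    (T := fun a b p q => a = 0 ∧ b = 1 ∧ p = 0 ∧ q = 0) (X_inl_mem i (by simp))
    (X_inr_mem i (by simp)) ?_
  intro a b p q a' b' p' q' h h'
  omega

theorem dff_mem : dx (of (ff N A) : OO N A) ∈ Sp N A fun a b p q =>
    (a = 1 ∧ b = 0 ∧ p = 0 ∧ q = 1) ∨ (a = 0 ∧ b = 1 ∧ p = 1 ∧ q = 0) := by
  refine dx_mem ff_mem ?_
  intro a b p q h
  omega

theorem th_mem : th N A ∈ Sp N A fun a b p q => a = 0 ∧ b = 1 ∧ p = 1 ∧ q = 0 := by
  rw [th]
  refine Submodule.sum_mem _ fun i _ => ?_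
  refine Sp_mul (S := fun a b p q => a = 0 ∧ b = 1 ∧ p = 0 ∧ q = 0)
    (T := fun a b p q => a = 0 ∧ b = 0 ∧ p = 1 ∧ q = 0) (X_inr_mem i (by simp))
    (e_inl_mem i (by simp)) ?_
  intro a b p q a' b' p' q' h h'
  omega

theorem dxo_mem (P : Pol N A) : dx (xo P) ∈ Sp N A fun _ b p q => b = 0 ∧ p = 1 ∧ q = 0 := by
  refine Sp_mono (S := fun _ b p q => (b = 0 ∧ p = 1 ∧ q = 0) ∨ b < 0)
    (dx_mem (rename_mem P) ?_) ?_
  · intro a b p q h
    omega
  · intro a b p q _ _ _ _ _ _ h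
    omega

theorem dxo_mem_homog {P : Pol N A} {n : ℕ} (h : P.IsHomogeneous n) :
    dx (xo P) ∈ Sp N A fun a b p q => a = n - 1 ∧ b = 0 ∧ p = 1 ∧ q = 0 := by
  refine Sp_mono (S := fun a b p q => (a = n - 1 ∧ b = 0 ∧ p = 1 ∧ q = 0) ∨ b < 0)
    (dx_mem (rename_mem_homog h) ?_) ?_
  · intro a b p q h
    omega
  · intro a b p q _ _ _ _ _ _ h
    omega

theorem pa_mem {F : Pol N A} {d : ℕ} (hF : F.IsHomogeneous d) {S U : Dg} {x : OO N A}
    (h : x ∈ Sp N A S) (hU : ∀ a b p q, S a b p q → U (a - 1) b (p + 1) q ∧ U a (b - 1) p (q + 1) ∧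
      U (a + d - 1) b (p + 1) q) : pa F x ∈ Sp N A U := by
  rw [pa_apply]
  refine add_mem (dx_mem h fun a b p q hS => ⟨(hU a b p q hS).1, (hU a b p q hS).2.1⟩)
    (Sp_mul (dxo_mem_homog hF) h ?_)
  rintro a b p q a' b' p' q' ⟨rfl, rfl, rfl, rfl⟩ hS
  have h1 := (hU _ _ _ _ hS).2.2
  rwa [zero_add, zero_add, add_comm 1 p', show (d : ℤ) - 1 + a' = a' + d - 1 by ring]

theorem id2_iw_apply (x : OO N A) : iw x = ∑ i, of (X (inr i)) * c (inr i) x := by
  rw [iw, io_apply, Fintype.sum_sum_type]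
  simp

theorem id2_iv_apply (x : OO N A) :
    iv x = ∑ i, of (X (inl i)) * c (inl i) x - ∑ i, of (X (inr i)) * c (inr i) x := by
  rw [iv, io_apply, Fintype.sum_sum_type]
  simp [sub_eq_add_neg]

theorem id2_inl_mem {S U : Dg} {x : OO N A} (h : x ∈ Sp N A S)
    (hU : ∀ a b p q, S a b p q → U (a + 1) b (p - 1) q) :
    ∑ i, of (X (inl i)) * c (inl i) x ∈ Sp N A U := by
  refine Submodule.sum_mem _ fun i _ => ?_
  refine Sp_mul (S := fun a b p q => a = 1 ∧ b = 0 ∧ p = 0 ∧ q = 0)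
    (T := fun a b p q => U (a + 1) b p q) (X_inl_mem i (by simp)) (c_inl_mem i h hU) ?_
  rintro a b p q a' b' p' q' ⟨rfl, rfl, rfl, rfl⟩ h'
  rwa [zero_add, zero_add, zero_add, add_comm 1 a']

theorem id2_inr_mem {S U : Dg} {x : OO N A} (h : x ∈ Sp N A S)
    (hU : ∀ a b p q, S a b p q → U a (b + 1) p (q - 1)) :
    ∑ i, of (X (inr i)) * c (inr i) x ∈ Sp N A U := by
  refine Submodule.sum_mem _ fun i _ => ?_
  refine Sp_mul (S := fun a b p q => a = 0 ∧ b = 1 ∧ p = 0 ∧ q = 0)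
    (T := fun a b p q => U a (b + 1) p q) (X_inr_mem i (by simp)) (c_inr_mem i h hU) ?_
  rintro a b p q a' b' p' q' ⟨rfl, rfl, rfl, rfl⟩ h'
  rwa [zero_add, zero_add, zero_add, add_comm 1 b']

theorem iw_mem {S U : Dg} {x : OO N A} (h : x ∈ Sp N A S)
    (hU : ∀ a b p q, S a b p q → U a (b + 1) p (q - 1)) : iw x ∈ Sp N A U := by
  rw [id2_iw_apply]
  exact id2_inr_mem h hU

theorem iv_mem {S U : Dg} {x : OO N A} (h : x ∈ Sp N A S)
    (hU : ∀ a b p q, S a b p q → U (a + 1) b (p - 1) q ∧ U a (b + 1) p (q - 1)) :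
    iv x ∈ Sp N A U := by
  rw [id2_iv_apply]
  exact sub_mem (id2_inl_mem h fun a b p q hS => (hU a b p q hS).1)
    (id2_inr_mem h fun a b p q hS => (hU a b p q hS).2)

/-- Multiplication by a form of form degree `u` and weight `w` shifts the projections. -/
theorem id2_cut_mul (Q : ℤ → ℤ → Prop) {r : OO N A} {u w : ℤ}
    (hr : r ∈ Sp N A fun a b p q => p + q = u ∧ a + p - b - q = w) (x : OO N A) :
    cut (fun a b p q => Q (p + q) (a + p - b - q)) (r * x) =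
      r * cut (fun a b p q => Q (p + q + u) (a + p - b - q + w)) x := by
  refine cut_mul_left hr ?_ x
  rintro a b p q a' b' p' q' ⟨rfl, rfl⟩
  rw [show p + p' + (q + q') = p' + q' + (p + q) by ring,
    show a + a' + (p + p') - (b + b') - (q + q') = a' + p' - b' - q' + (a + p - b - q) by ring]

theorem id2_ff_sub : (of (ff N A) - 1 : OO N A) ∈
    Sp N A fun a b p q => p + q = 0 ∧ a + p - b - q = 0 := by
  refine sub_mem (Sp_mono ff_mem ?_) (one_mem_Sp (by simp))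
  intro a b p q _ _ _ _ _ _ h
  omega

theorem id2_dff : dx (of (ff N A) : OO N A) ∈
    Sp N A fun a b p q => p + q = 1 ∧ a + p - b - q = 0 := by
  refine Sp_mono dff_mem ?_
  intro a b p q _ _ _ _ _ _ h
  omega

theorem id2_xo {F : Pol N A} {d : ℕ} (hF : F.IsHomogeneous d) :
    xo F ∈ Sp N A fun a b p q => p + q = 0 ∧ a + p - b - q = d := by
  refine Sp_mono (rename_mem_homog hF) ?_
  intro a b p q _ _ _ _ _ _ h
  omega

theorem id2_dxo {F : Pol N A} {d : ℕ} (hF : F.IsHomogeneous d) :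
    dx (xo F) ∈ Sp N A fun a b p q => p + q = 1 ∧ a + p - b - q = d := by
  refine Sp_mono (dxo_mem_homog hF) ?_
  intro a b p q _ _ _ _ _ _ h
  omega

/-- The ideals are homogeneous for the form degree and the weight. -/
theorem cut_II (Q : ℤ → ℤ → Prop) {x : OO N A} (h : x ∈ II N A) :
    cut (fun a b p q => Q (p + q) (a + p - b - q)) x ∈ II N A := by
  obtain ⟨u, v, rfl⟩ := mem_II.1 h
  rw [map_add, id2_cut_mul Q id2_ff_sub, id2_cut_mul Q id2_dff]
  exact mem_II.2 ⟨_, _, rfl⟩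

theorem cut_JJ {F : Pol N A} {d : ℕ} (hF : F.IsHomogeneous d) (Q : ℤ → ℤ → Prop) {x : OO N A}
    (h : x ∈ JJ F) : cut (fun a b p q => Q (p + q) (a + p - b - q)) x ∈ JJ F := by
  obtain ⟨u, v, h1⟩ := mem_JJ.1 h
  have h2 := cut_II Q h1
  rw [map_sub, map_add, id2_cut_mul Q (id2_xo hF), id2_cut_mul Q (id2_dxo hF)] at h2
  exact mem_JJ.2 ⟨_, _, h2⟩

theorem cut_dx (Q : ℤ → ℤ → Prop) (x : OO N A) :
    cut (fun a b p q => Q (p + q) (a + p - b - q)) (dx x) =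
      dx (cut (fun a b p q => Q (p + q + 1) (a + p - b - q)) x) := by
  have e : ∀ (Q' : ℤ → ℤ → Prop) (a b p q : ℤ), Q' (p + q + 1) (a + p - b - q) →
      Q' (p + 1 + q) (a - 1 + (p + 1) - b - q) ∧ Q' (p + (q + 1)) (a + p - (b - 1) - (q + 1)) := by
    intro Q' a b p q h
    rw [show p + 1 + q = p + q + 1 by ring, show p + (q + 1) = p + q + 1 by ring,
      show a - 1 + (p + 1) - b - q = a + p - b - q by ring,
      show a + p - (b - 1) - (q + 1) = a + p - b - q by ring]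
    exact ⟨h, h⟩
  exact cut_comm (dx : OO N A →ₗ[ℂ] OO N A).toAddMonoidHom (fun y hy => dx_mem hy (e Q))
    (fun y hy => dx_mem hy (e fun u w => ¬Q u w)) x

/-- The formula of Cartan. -/
theorem id2_cartan (v : Fin N ⊕ Fin N → RR N A) (x : OO N A) :
    io v (dx x) + dx (io v x) =
      ∑ s, of (v s) * lie (pd s) x + ∑ s, dx (of (v s)) * c s x := by
  rw [io_apply, io_apply, map_sum, ← Finset.sum_add_distrib, ← Finset.sum_add_distrib]
  refine Finset.sum_congr rfl fun s _ => ?_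
  have h : c s (dx x) + dx (c s x) = lie (pd s) x := c_dO pd s x
  rw [dx_of_mul, ← h, mul_add]
  abel

/-- An eigenvalue equation can be checked on forms of a single multidegree. -/
theorem id2_eigen (L : OO N A →ₗ[ℂ] OO N A) (n : ℤ) {S : Dg}
    (hL : ∀ a b p q y, S a b p q →
      y ∈ (Sp N A fun a' b' p' q' => a' = a ∧ b' = b ∧ p' = p ∧ q' = q) → L y = n • y)
    {x : OO N A} (h : x ∈ Sp N A S) : L x = n • x := by
  induction h using Submodule.span_induction with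
  | mem y hy =>
    obtain ⟨t, m, l, hS, rfl⟩ := hy
    exact hL _ _ _ _ _ hS (Submodule.subset_span ⟨t, m, l, ⟨rfl, rfl, rfl, rfl⟩, rfl⟩)
  | zero => rw [map_zero, smul_zero]
  | add y z _ _ hy hz => rw [map_add, hy, hz, smul_add]
  | smul t y _ hy => rw [map_smul, hy, smul_comm]

theorem eu_w {x : OO N A} {n : ℤ} (h : x ∈ Sp N A fun _ b _ q => b + q = n) :
    iw (dx x) + dx (iw x) = n • x := by
  refine id2_eigen (iw ∘ₗ dx + dx ∘ₗ iw) n ?_ h
  rintro a b p q y rfl hy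
  have h2 := eu_y (n := b) (Sp_mono hy fun _ _ _ _ _ _ _ _ _ _ h => h.2.1)
  have h4 := eu_dy (n := q) (Sp_mono hy fun _ _ _ _ _ _ _ _ _ _ h => h.2.2.2)
  change iw (dx y) + dx (iw y) = _
  rw [iw, id2_cartan, Fintype.sum_sum_type, Fintype.sum_sum_type, add_smul, ← h2, ← h4]
  simp [dx_X]

theorem eu_v {x : OO N A} {n : ℤ} (h : x ∈ Sp N A fun a b p q => a + p - b - q = n) :
    iv (dx x) + dx (iv x) = n • x := by
  refine id2_eigen (iv ∘ₗ dx + dx ∘ₗ iv) n ?_ h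
  rintro a b p q y rfl hy
  have h1 := eu_x (n := a) (Sp_mono hy fun _ _ _ _ _ _ _ _ _ _ h => h.1)
  have h2 := eu_y (n := b) (Sp_mono hy fun _ _ _ _ _ _ _ _ _ _ h => h.2.1)
  have h3 := eu_dx (n := p) (Sp_mono hy fun _ _ _ _ _ _ _ _ _ _ h => h.2.2.1)
  have h4 := eu_dy (n := q) (Sp_mono hy fun _ _ _ _ _ _ _ _ _ _ h => h.2.2.2)
  change iv (dx y) + dx (iv y) = _
  rw [iv, id2_cartan, Fintype.sum_sum_type, Fintype.sum_sum_type, sub_smul, sub_smul, add_smul,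
    ← h1, ← h2, ← h3, ← h4]
  simp only [elim_inl, elim_inr, map_neg, neg_mul, Finset.sum_neg_distrib, dx_X]
  abel

theorem id2_iw_of (r : RR N A) : iw (of r : OO N A) = 0 := io_of _ _

theorem id2_iv_of (r : RR N A) : iv (of r : OO N A) = 0 := io_of _ _

theorem iw_dff : iw (dx (of (ff N A))) = of (ff N A) := by
  have h := eu_w (n := 1) (Sp_mono (ff_mem (N := N) (A := A)) fun _ _ _ _ _ _ _ _ _ _ h => by omega)
  rwa [id2_iw_of, map_zero, add_zero, one_smul] at h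

theorem iw_dxo (P : Pol N A) : iw (dx (xo P)) = 0 := by
  have h := eu_w (n := 0) (Sp_mono (rename_mem P) fun _ _ _ _ _ _ _ _ _ _ h => by omega)
  rwa [id2_iw_of, map_zero, add_zero, zero_smul] at h

theorem iv_dff : iv (dx (of (ff N A))) = 0 := by
  have h := eu_v (n := 0) (Sp_mono (ff_mem (N := N) (A := A)) fun _ _ _ _ _ _ _ _ _ _ h => by omega)
  rwa [id2_iv_of, map_zero, add_zero, zero_smul] at h

theorem iv_dxo {P : Pol N A} {n : ℕ} (h : P.IsHomogeneous n) : iv (dx (xo P)) = n • xo P := by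
  have h := eu_v (n := n) (Sp_mono (rename_mem_homog h) fun _ _ _ _ _ _ _ _ _ _ h => by omega)
  rwa [id2_iv_of, map_zero, add_zero, natCast_zsmul] at h

theorem id2_iv_of_mul (r : RR N A) (x : OO N A) : iv (of r * x) = of r * iv x := io_of_mul _ _ _

theorem id2_iv_dof_mul (r : RR N A) (x : OO N A) :
    iv (dx (of r) * x) = iv (dx (of r)) * x - dx (of r) * iv x := by
  have h : iv (dx (of r) * x) = iv (dx (of r)) * x + sg (dx (of r)) * iv x := io_mul _ _ _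
  rw [h, sg_dof, neg_mul, sub_eq_add_neg]

theorem iv_th : iv (th N A) = of (ff N A) := by
  rw [th, ff, map_sum, map_sum]
  refine Finset.sum_congr rfl fun i _ => ?_
  have h : iv (e (inl i) : OO N A) = of (X (inl i)) := io_e _ _
  rw [id2_iv_of_mul, h, ← map_mul, mul_comm]

theorem iv_II {x : OO N A} (h : x ∈ II N A) : iv x ∈ II N A := by
  obtain ⟨u, v, rfl⟩ := mem_II.1 h
  refine mem_II.2 ⟨iv u, -iv v, ?_⟩
  have h1 : (of (ff N A) - 1 : OO N A) = of (ff N A - 1) := by rw [map_sub, map_one]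
  rw [map_add, h1, id2_iv_of_mul, id2_iv_dof_mul, iv_dff, zero_mul, zero_sub, mul_neg]

theorem iv_JJ {F : Pol N A} {d : ℕ} (hF : F.IsHomogeneous d) {x : OO N A} (h : x ∈ JJ F) :
    iv x ∈ JJ F := by
  obtain ⟨u, v, h1⟩ := mem_JJ.1 h
  have h2 := iv_II h1
  have h3 : iv (xo F * u) = xo F * iv u := id2_iv_of_mul _ _
  have h4 : iv (dx (xo F) * v) = iv (dx (xo F)) * v - dx (xo F) * iv v := id2_iv_dof_mul _ _
  rw [map_sub, map_add, h3, h4, iv_dxo hF] at h2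
  refine mem_JJ.2 ⟨iv u + d • v, -iv v, ?_⟩
  rw [mul_add, mul_neg, mul_smul_comm, ← smul_mul_assoc, add_assoc, ← sub_eq_add_neg (_ * v)]
  exact h2

theorem id2_mapc_ff (s : A →ₐ[ℂ] A') :
    mapc (mapAlgHom (σ := Fin N ⊕ Fin N) s) (of (ff N A) : OO N A) = of (ff N A') := by
  rw [mapc_of]
  congr 1
  simp [ff]

theorem mapc_II (s : A →ₐ[ℂ] A') {x : OO N A} (h : x ∈ II N A) :
    mapc (mapAlgHom (σ := Fin N ⊕ Fin N) s) x ∈ II N A' := by
  obtain ⟨u, v, rfl⟩ := mem_II.1 h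
  rw [map_add, map_mul, map_mul, map_sub, map_one, mapc_dx, id2_mapc_ff]
  exact mem_II.2 ⟨_, _, rfl⟩

theorem mapc_xo (s : A →ₐ[ℂ] A') (P : Pol N A) :
    mapc (mapAlgHom (σ := Fin N ⊕ Fin N) s) (xo P) = xo (map (s : A →+* A') P) := by
  rw [xo, xo, mapc_of, ← map_rename]
  rfl

theorem mapc_JJ (s : A →ₐ[ℂ] A') {F : Pol N A} {x : OO N A} (h : x ∈ JJ F) :
    mapc (mapAlgHom (σ := Fin N ⊕ Fin N) s) x ∈ JJ (map (s : A →+* A') F) := by
  obtain ⟨u, v, h1⟩ := mem_JJ.1 h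
  have h2 := mapc_II s h1
  rw [map_sub, map_add, map_mul, map_mul, mapc_dx, mapc_xo] at h2
  exact mem_JJ.2 ⟨_, _, h2⟩

end Pool.Agent.Lib.MP_e9c0f3_ag.DR
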