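import Pool.Agent.Lib.MP_e9c0f3_ag.DR.BT

/-! The cone is a torsor: flatness, and injectivity on forms. -/

open MvPolynomial Sum

namespace Pool.Agent.Lib.MP_e9c0f3_ag.DR

open Om

variable {N : ℕ} {A : Type} [CommRing A] [Algebra ℂ A]

omit [Algebra ℂ A] in
theorem inj_sum (r : RR N A) (S : Finset ℤ)
    (hS : ∀ n, weightedHomogeneousComponent (vw N) n r ≠ 0 → n ∈ S) :
    ∑ n ∈ S, weightedHomogeneousComponent (vw N) n r = r := by
  conv_rhs => rw [← sum_weightedHomogeneousComponent (vw N) r]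
  exact (finsum_eq_sum_of_support_subset _ fun n hn => hS n hn).symm

omit [Algebra ℂ A] in
theorem inj_comp_mul {p : RR N A} {m : ℤ} (hp : IsWeightedHomogeneous (vw N) p m) (n : ℤ)
    (q : RR N A) : weightedHomogeneousComponent (vw N) n (q * p) =
      weightedHomogeneousComponent (vw N) (n - m) q * p := by
  classical
  have hfin := weightedHomogeneousComponent_finsupp (w := vw N) q
  have h1 := inj_sum q (insert (n - m) hfin.toFinset) fun k hk =>
    Finset.mem_insert_of_mem (hfin.mem_toFinset.2 hk)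
  conv_lhs => rw [← h1]
  rw [Finset.sum_mul, map_sum, Finset.sum_eq_single (n - m)]
  · have h2 := (weightedHomogeneousComponent_isWeightedHomogeneous (w := vw N) (n - m) q).mul hp
    rw [sub_add_cancel] at h2
    exact h2.weightedHomogeneousComponent_same
  · intro k _ hk
    exact ((weightedHomogeneousComponent_isWeightedHomogeneous (w := vw N) k q).mul
      hp).weightedHomogeneousComponent_ne n fun e => hk (by omega)
  · intro h
    exact absurd (Finset.mem_insert_self _ _) h

omit [Algebra ℂ A] in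
theorem inj_rename {g : Pol N A} {m : ℕ} (hg : g.IsHomogeneous m) :
    IsWeightedHomogeneous (vw N) (rename inl g : RR N A) (m : ℤ) := by
  rw [← g.support_sum_monomial_coeff, map_sum]
  refine IsWeightedHomogeneous.sum _ _ _ fun d hd => ?_
  rw [rename_monomial]
  refine isWeightedHomogeneous_monomial _ _ _ ?_
  have h1 : Finsupp.weight (1 : Fin N → ℕ) d = m := hg (mem_support_iff.1 hd)
  rw [← h1, Finsupp.weight_apply, Finsupp.weight_apply,
    Finsupp.sum_mapDomain_index_inj inl_injective]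
  simp [vw, Finsupp.sum]

omit [Algebra ℂ A] in
theorem inj_xy (i j : Fin N) :
    IsWeightedHomogeneous (vw N) (X (inl i) * X (inr j) : RR N A) 0 := by
  have h := (isWeightedHomogeneous_X A (vw N) (inl i)).mul (isWeightedHomogeneous_X A (vw N) (inr j))
  simpa [vw] using h

omit [Algebra ℂ A] in
theorem inj_stable {F : Pol N A} {d : ℕ} (hF : F.IsHomogeneous d) {r : RR N A} (hr : r ∈ relJ F)
    (n : ℤ) : weightedHomogeneousComponent (vw N) n r ∈ relJ F := by
  obtain ⟨a, b, rfl⟩ := Ideal.mem_span_pair.1 hr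
  have h0 : IsWeightedHomogeneous (vw N) (∑ i, X (inl i) * X (inr i) - 1 : RR N A) 0 :=
    (IsWeightedHomogeneous.sum _ _ _ fun i _ => inj_xy i i).sub (isWeightedHomogeneous_one A _)
  rw [map_add, inj_comp_mul (inj_rename hF), inj_comp_mul h0]
  exact Ideal.mem_span_pair.2 ⟨_, _, rfl⟩

/-- The projections to the weight spaces. -/
theorem exists_proj {F : Pol N A} {d : ℕ} (hF : F.IsHomogeneous d) :
    ∃ π : ℤ → TT F →ₗ[Jou F] TT F, ∀ n r, π n (Ideal.Quotient.mk _ r) =
      Ideal.Quotient.mk _ (weightedHomogeneousComponent (vw N) n r) := by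
  have key : ∀ n : ℤ, ∃ p : TT F →+ TT F, ∀ r, p (Ideal.Quotient.mk _ r) =
      Ideal.Quotient.mk _ (weightedHomogeneousComponent (vw N) n r) := fun n =>
    ⟨QuotientAddGroup.lift (relJ F).toAddSubgroup
      ((Ideal.Quotient.mk (relJ F)).toAddMonoidHom.comp
        (weightedHomogeneousComponent (vw N) n).toAddMonoidHom)
      fun r hr => Ideal.Quotient.eq_zero_iff_mem.2 (inj_stable hF hr n), fun _ => rfl⟩
  choose p hp using key
  refine ⟨fun n => { toFun := p n, map_add' := map_add (p n), map_smul' := fun b t => ?_ }, hp⟩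
  obtain ⟨r, rfl⟩ := Ideal.Quotient.mk_surjective t
  obtain ⟨s, hs, hb⟩ := jou_lift b
  have h1 : ∀ q : RR N A, b • (Ideal.Quotient.mk (relJ F) q) = Ideal.Quotient.mk _ (q * s) :=
    fun q => by
      rw [map_mul, ← hb, mul_comm]
      rfl
  rw [RingHom.id_apply, h1, hp, hp, h1, inj_comp_mul hs, sub_zero]

omit [Algebra ℂ A] in
/-- The ideal generated by the functions of weight `n`. -/
theorem inj_top (F : Pol N A) (n : ℤ) : (1 : TT F) ∈ Ideal.span
    ((Ideal.Quotient.mk (relJ F)) '' {u | IsWeightedHomogeneous (vw N) u n}) := by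
  have hf : (1 : TT F) = ∑ i, Ideal.Quotient.mk (relJ F) (X (inl i)) *
      Ideal.Quotient.mk (relJ F) (X (inr i)) := by
    simp only [← map_mul, ← map_sum]
    rw [← map_one (Ideal.Quotient.mk (relJ F)), eq_comm, Ideal.Quotient.eq]
    exact Ideal.subset_span (Or.inr rfl)
  have hmul : ∀ a b : ℤ, (1 : TT F) ∈ Ideal.span
      ((Ideal.Quotient.mk (relJ F)) '' {u | IsWeightedHomogeneous (vw N) u a}) →
      (1 : TT F) ∈ Ideal.span
      ((Ideal.Quotient.mk (relJ F)) '' {u | IsWeightedHomogeneous (vw N) u b}) →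
      (1 : TT F) ∈ Ideal.span
      ((Ideal.Quotient.mk (relJ F)) '' {u | IsWeightedHomogeneous (vw N) u (a + b)}) := by
    intro a b ha hb
    have h := Ideal.mul_mem_mul ha hb
    rw [Ideal.span_mul_span', one_mul] at h
    refine Ideal.span_mono ?_ h
    rintro _ ⟨_, ⟨u, hu, rfl⟩, _, ⟨v, hv, rfl⟩, rfl⟩
    exact ⟨u * v, IsWeightedHomogeneous.mul hu hv, map_mul _ _ _⟩
  have h1 : (1 : TT F) ∈ Ideal.span
      ((Ideal.Quotient.mk (relJ F)) '' {u | IsWeightedHomogeneous (vw N) u 1}) := by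
    rw [hf]
    exact sum_mem fun i _ => Ideal.mul_mem_right _ _
      (Ideal.subset_span ⟨_, isWeightedHomogeneous_X A (vw N) (inl i), rfl⟩)
  have h2 : (1 : TT F) ∈ Ideal.span
      ((Ideal.Quotient.mk (relJ F)) '' {u | IsWeightedHomogeneous (vw N) u (-1)}) := by
    rw [hf]
    exact sum_mem fun i _ => Ideal.mul_mem_left _ _
      (Ideal.subset_span ⟨_, isWeightedHomogeneous_X A (vw N) (inr i), rfl⟩)
  induction n using Int.induction_on with
  | zero => exact Ideal.subset_span ⟨1, isWeightedHomogeneous_one A _, map_one _⟩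
  | succ k ih => exact hmul _ _ ih h1
  | pred k ih => exact hmul _ _ ih h2

omit [Algebra ℂ A] in
theorem inj_unit (F : Pol N A) (n : ℤ) : ∃ (k : ℕ) (v : Fin k → TT F) (u : Fin k → RR N A),
    (∀ j, IsWeightedHomogeneous (vw N) (u j) n) ∧
      ∑ j, v j * Ideal.Quotient.mk (relJ F) (u j) = 1 := by
  obtain ⟨k, v, g, hg⟩ := Submodule.mem_span_set'.1 (inj_top F n)
  choose u hu hu' using fun j => (g j).2
  refine ⟨k, v, u, hu, ?_⟩
  rw [← hg]
  exact Finset.sum_congr rfl fun j _ => by rw [hu', smul_eq_mul]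

theorem flat_TT {F : Pol N A} {d : ℕ} (hF : F.IsHomogeneous d) : Module.Flat (Jou F) (TT F) := by
  classical
  obtain ⟨π, hπ⟩ := exists_proj hF
  choose k v u hu hvu using fun n : ℤ => inj_unit F (-n)
  refine Module.Flat.of_forall_isTrivialRelation fun {l f x} h => ?_
  choose r hr using fun i => Ideal.Quotient.mk_surjective (x i)
  let S : Finset ℤ := Finset.univ.biUnion fun i =>
    (weightedHomogeneousComponent_finsupp (w := vw N) (r i)).toFinset
  have hx : ∀ i, ∑ n ∈ S, π n (x i) = x i := fun i => by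
    conv_rhs => rw [← hr i, ← inj_sum (r i) S fun n hn =>
      Finset.mem_biUnion.2 ⟨i, Finset.mem_univ _, (Set.Finite.mem_toFinset _).2 hn⟩]
    rw [map_sum]
    exact Finset.sum_congr rfl fun n _ => by rw [← hr i, hπ]
  have ha : ∀ i (n : ℤ) (j : Fin (k n)), ∃ b : Jou F,
      inc F b = Ideal.Quotient.mk (relJ F) (u n j) * π n (x i) := fun i n j => by
    have h0 := (hu n j).mul
      (weightedHomogeneousComponent_isWeightedHomogeneous (w := vw N) n (r i))
    rw [neg_add_cancel] at h0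
    obtain ⟨b, hb⟩ := jou_mem (F := F) h0
    exact ⟨b, by rw [hb, ← hr i, hπ, map_mul]⟩
  choose a ha using ha
  let e := Fintype.equivFin (Σ n : S, Fin (k n))
  refine ⟨_, fun i j => a i (e.symm j).1 (e.symm j).2, fun j => v (e.symm j).1 (e.symm j).2,
    fun i => ?_, fun j => ?_⟩
  · rw [e.symm.sum_comp fun z : (Σ n : S, Fin (k n)) => a i z.1 z.2 • v z.1 z.2,
      Fintype.sum_sigma, ← hx i, ← Finset.sum_coe_sort S]
    refine Finset.sum_congr rfl fun n _ => ?_
    rw [← one_mul (π n (x i)), ← hvu n, Finset.sum_mul]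
    refine Finset.sum_congr rfl fun j _ => ?_
    rw [mul_assoc, ← ha, mul_comm]
    rfl
  · beta_reduce
    generalize e.symm j = z
    apply Subtype.val_injective
    change inc F (∑ i, f i * a i z.1 z.2) = 0
    have h2 : Ideal.Quotient.mk (relJ F) (u z.1 z.2) * π z.1 (∑ i, f i • x i) = 0 := by
      rw [h, map_zero, mul_zero]
    rw [← h2, map_sum, map_sum, Finset.mul_sum]
    refine Finset.sum_congr rfl fun i _ => ?_
    rw [map_mul, ha, map_smul, mul_left_comm]
    rfl

theorem cyc_map {F : Pol N A} {I : Ideal (Pol N A)}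
    (hI : ∀ p ∈ I, ∀ n, homogeneousComponent n p ∈ I) :
    (cyc F I).map (algebraMap (Jou F) (TT F)) =
      (I.map (rename inl)).map (Ideal.Quotient.mk (relJ F)) := by
  refine le_antisymm (Ideal.map_le_iff_le_comap.2 fun b hb => hb) ?_
  refine Ideal.map_le_iff_le_comap.2 (Ideal.map_le_iff_le_comap.2 fun g hg => ?_)
  rw [Ideal.mem_comap, Ideal.mem_comap, ← sum_homogeneousComponent g, map_sum, map_sum]
  refine sum_mem fun m _ => ?_
  obtain ⟨k, v, u, hu, hvu⟩ := inj_unit F (-(m : ℤ))
  rw [← one_mul (Ideal.Quotient.mk (relJ F) _), ← hvu, Finset.sum_mul]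
  refine sum_mem fun j _ => ?_
  have h0 := (hu j).mul (inj_rename (homogeneousComponent_isHomogeneous m g))
  rw [neg_add_cancel] at h0
  obtain ⟨b, hb⟩ := jou_mem (F := F) h0
  rw [mul_assoc, ← map_mul, ← hb]
  refine Ideal.mul_mem_left _ _ (Ideal.mem_map_of_mem (algebraMap (Jou F) (TT F)) ?_)
  change inc F b ∈ (I.map (rename inl)).map (Ideal.Quotient.mk (relJ F))
  rw [hb]
  exact Ideal.mem_map_of_mem _ (Ideal.mul_mem_left _ _ (Ideal.mem_map_of_mem _ (hI g hg m)))

end Pool.Agent.Lib.MP_e9c0f3_ag.DR
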