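import Pool.Agent.Lib.MP_e9c0f3_ag.DR.Top

/-! Normal forms modulo `∑ x y = 1` and the twisted complex of the pairing. -/

open MvPolynomial Sum

namespace Pool.Agent.Lib.MP_e9c0f3_ag.DR

open Om

variable {N : ℕ} {A : Type} [CommRing A] [Algebra ℂ A] [IsDomain A]

omit [Algebra ℂ A] in
theorem kt_ff_ne (hN : 0 < N) : ff N A ≠ 0 := by
  intro h
  have h1 := congrArg (eval fun s : Fin N ⊕ Fin N =>
    if Sum.elim id id s = (⟨0, hN⟩ : Fin N) then (1 : A) else 0) h
  rw [ff, map_sum, map_zero, Finset.sum_eq_single ⟨0, hN⟩ (fun b _ hb => by simp [hb])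
    (by simp)] at h1
  simp at h1

theorem ff_reg (hN : 0 < N) : ff N A ∈ nonZeroDivisors (RR N A) :=
  mem_nonZeroDivisors_of_ne_zero (kt_ff_ne hN)

omit [IsDomain A] in
theorem kt_iw_of_mul (r : RR N A) (x : OO N A) : iw (of r * x) = of r * iw x :=
  io_of_mul _ r x

omit [IsDomain A] in
theorem kt_iw_iw (x : OO N A) : iw (iw x) = 0 := io_io _ x

omit [IsDomain A] in
theorem kt_iw_dff_mul (x : OO N A) :
    iw (dx (of (ff N A)) * x) = of (ff N A) * x - dx (of (ff N A)) * iw x := by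
  have h : iw (dx (of (ff N A)) * x) =
      iw (dx (of (ff N A))) * x + sg (dx (of (ff N A))) * iw x := io_mul _ _ x
  rw [h, iw_dff, sg_dof, neg_mul, sub_eq_add_neg]

/-- `x` has a basic representative of weight `w`. -/
def kt_Good (S : Dg) (x : OO N A) (w : ℤ) : Prop :=
  ∃ κ ∈ Sp N A fun a b p q => S a b p q ∧ b + q = w, iw κ = 0 ∧ x - κ ∈ II N A

omit [IsDomain A] in
theorem kt_good_zero (S : Dg) (w : ℤ) : kt_Good S (0 : OO N A) w :=
  ⟨0, zero_mem _, map_zero _, by simp⟩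

omit [IsDomain A] in
theorem kt_good_add {S : Dg} {x y : OO N A} {w : ℤ} (hx : kt_Good S x w) (hy : kt_Good S y w) :
    kt_Good S (x + y) w := by
  obtain ⟨k, hk, hk0, hkI⟩ := hx
  obtain ⟨l, hl, hl0, hlI⟩ := hy
  refine ⟨k + l, add_mem hk hl, by rw [map_add, hk0, hl0, add_zero], ?_⟩
  have h : x + y - (k + l) = (x - k) + (y - l) := by abel
  rw [h]
  exact add_mem hkI hlI

omit [IsDomain A] in
theorem kt_good_succ {S : Dg} (hS : ∀ a b p q, S a b p q → S (a + 1) (b + 1) p q)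
    {x : OO N A} {w : ℤ} (hx : kt_Good S x w) : kt_Good S x (w + 1) := by
  obtain ⟨k, hk, hk0, hkI⟩ := hx
  refine ⟨of (ff N A) * k, Sp_mul ff_mem hk ?_, by rw [kt_iw_of_mul, hk0, mul_zero], ?_⟩
  · rintro a b p q a' b' p' q' ⟨rfl, rfl, rfl, rfl⟩ ⟨h1, h2⟩
    refine ⟨?_, by omega⟩
    have h3 := hS _ _ _ _ h1
    rwa [add_comm 1 a', add_comm 1 b', zero_add, zero_add]
  · have h : x - of (ff N A) * k = (x - k) - (of (ff N A) - 1) * k := by
      rw [sub_mul, one_mul]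
      abel
    rw [h]
    exact sub_mem hkI (mem_II.2 ⟨k, 0, by rw [mul_zero, add_zero]⟩)

omit [IsDomain A] in
theorem kt_good_le {S : Dg} (hS : ∀ a b p q, S a b p q → S (a + 1) (b + 1) p q)
    {x : OO N A} {w v : ℤ} (hx : kt_Good S x w) (h : w ≤ v) : kt_Good S x v := by
  induction v, h using Int.leInduction with
  | base => exact hx
  | succ n _ ih => exact kt_good_succ hS ih

omit [IsDomain A] in
theorem kt_good_of_mem {S : Dg} (hS : ∀ a b p q, S a b p q → S (a + 1) (b + 1) p q ∧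
    S a (b + 2) (p + 1) (q - 1)) {x : OO N A} {w : ℤ}
    (hx : x ∈ Sp N A fun a b p q => S a b p q ∧ b + q = w) : kt_Good S x (w + 1) := by
  refine ⟨iw (dx (of (ff N A)) * x), ?_, kt_iw_iw _, ?_⟩
  · refine iw_mem (S := fun a b p q => S a (b + 1) p (q - 1) ∧ b + q = w + 1)
      (Sp_mul dff_mem hx ?_) ?_
    · rintro a b p q a' b' p' q' (⟨rfl, rfl, rfl, rfl⟩ | ⟨rfl, rfl, rfl, rfl⟩) ⟨h1, h2⟩
      · refine ⟨?_, by omega⟩
        have h3 := (hS _ _ _ _ h1).1
        have e1 : (1 : ℤ) + q' - 1 = q' := by ring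
        rwa [add_comm 1 a', zero_add, zero_add, e1]
      · refine ⟨?_, by omega⟩
        have h3 := (hS _ _ _ _ h1).2
        have e1 : (1 : ℤ) + b' + 1 = b' + 2 := by ring
        rwa [zero_add, zero_add, e1, add_comm 1 p']
    · rintro a b p q ⟨h1, h2⟩
      exact ⟨h1, by omega⟩
  · refine mem_II.2 ⟨-x, iw x, ?_⟩
    rw [kt_iw_dff_mul, mul_neg, sub_mul, one_mul]
    abel

omit [IsDomain A] in
/-- Homogeneous basic representatives. -/
theorem exists_normal {S : Dg} (hS : ∀ a b p q, S a b p q → S (a + 1) (b + 1) p q ∧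
    S a (b + 2) (p + 1) (q - 1)) {x : OO N A} (hx : x ∈ Sp N A S) :
    ∃ w₀ : ℕ, ∀ w : ℕ, w₀ ≤ w → ∃ κ ∈ Sp N A fun a b p q => S a b p q ∧ b + q = w,
      iw κ = 0 ∧ x - κ ∈ II N A := by
  obtain ⟨s, hs⟩ := exists_sum_cut (fun _ b _ q => b + q) x
  refine ⟨s.sup fun j => (j + 1).toNat, fun w hw => ?_⟩
  change kt_Good S x w
  rw [hs]
  refine Finset.sum_induction _ (fun y => kt_Good S y w) (fun _ _ => kt_good_add)
    (kt_good_zero S w) fun j hj => ?_
  have h1 : (j + 1).toNat ≤ w := le_trans (Finset.le_sup (f := fun j : ℤ => (j + 1).toNat) hj) hw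
  refine kt_good_le (fun a b p q h => (hS a b p q h).1) (kt_good_of_mem (w := j) hS ?_) (by omega)
  exact Sp_mono (cut_mem_of _ hx) fun a b p q _ _ _ _ _ _ h => ⟨h.2, h.1⟩

omit [IsDomain A] in
theorem kt_cut_step (j : ℤ) (y : OO N A) :
    cut (fun _ b _ q => b + q = j + 1) ((of (ff N A) - 1) * y) =
      of (ff N A) * cut (fun _ b _ q => b + q = j) y - cut (fun _ b _ q => b + q = j + 1) y := by
  rw [sub_mul, one_mul, map_sub]
  congr 1
  refine cut_mul_left ff_mem ?_ y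
  rintro a b p q a' b' p' q' ⟨rfl, rfl, rfl, rfl⟩
  omega

theorem kt_homog_eq_zero (hN : 0 < N) {y : OO N A} {w : ℤ}
    (h : (of (ff N A) - 1) * y ∈ Sp N A fun _ b _ q => b + q = w + 1) :
    (of (ff N A) - 1) * y = 0 := by
  have hstep : ∀ j, j ≠ w → cut (fun _ b _ q => b + q = j + 1) y =
      of (ff N A) * cut (fun _ b _ q => b + q = j) y := by
    intro j hj
    have h1 := kt_cut_step j y
    rw [cut_of_not (Sp_mono h fun a b p q _ _ _ _ _ _ h2 => by omega)] at h1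
    exact (sub_eq_zero.1 h1.symm).symm
  have hneg : ∀ j : ℤ, j < 0 → cut (fun _ b _ q => b + q = j) y = 0 := fun j hj =>
    Sp_eq_zero (cut_mem _ y) fun a b p q _ _ _ _ _ _ => by omega
  have hlow : ∀ j : ℤ, -1 ≤ j → j ≤ w → cut (fun _ b _ q => b + q = j) y = 0 := by
    intro j hj
    induction j, hj using Int.leInduction with
    | base => exact fun _ => hneg _ (by omega)
    | succ n _ ih =>
      intro hn
      rw [hstep n (by omega), ih (by omega), mul_zero]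
  have hw : cut (fun _ b _ q => b + q = w) y = 0 := by
    by_cases h0 : w < 0
    · exact hneg w h0
    · exact hlow w (by omega) le_rfl
  have hup : ∀ n : ℕ, cut (fun _ b _ q => b + q = w + n + 1) y =
      of (ff N A ^ n) * cut (fun _ b _ q => b + q = w + 1) y := by
    intro n
    induction n with
    | zero => simp
    | succ n ih =>
      have e1 : w + (n + 1 : ℕ) = w + n + 1 := by push_cast; ring
      rw [e1, hstep _ (by omega), ih, pow_succ', map_mul, mul_assoc]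
  obtain ⟨M, hM⟩ := Sp_bdd y
  have hbig := hup (M + N + w.natAbs)
  rw [Sp_eq_zero (cut_mem_of _ hM) fun a b p q _ _ _ _ _ _ => by omega] at hbig
  have hw1 := of_mul_eq_zero (pow_mem (ff_reg hN) _) hbig.symm
  have h1 := kt_cut_step w y
  rwa [cut_of_mem h, hw, hw1, mul_zero, sub_zero] at h1

theorem normal_eq_zero (hN : 0 < N) {κ : OO N A} {w : ℤ}
    (h : κ ∈ Sp N A fun _ b _ q => b + q = w) (h0 : iw κ = 0) (hI : κ ∈ II N A) : κ = 0 := by
  obtain ⟨a, b, hab⟩ := mem_II.1 hI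
  have h1 : dx (of (ff N A)) * κ = (of (ff N A) - 1) * (dx (of (ff N A)) * a) := by
    rw [hab, mul_add, dof_dof, add_zero, ← mul_assoc, id_mul_of_sub, mul_assoc]
  have h2 : dx (of (ff N A)) * κ ∈ Sp N A fun _ b _ q => b + q = w + 1 := by
    refine Sp_mul dff_mem h ?_
    rintro a b p q a' b' p' q' (⟨rfl, rfl, rfl, rfl⟩ | ⟨rfl, rfl, rfl, rfl⟩) h2 <;> omega
  have h3 : dx (of (ff N A)) * κ = 0 := by
    rw [h1] at h2 ⊢
    exact kt_homog_eq_zero hN h2
  have h4 := kt_iw_dff_mul κ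
  rw [h3, h0, map_zero, mul_zero, sub_zero] at h4
  exact of_mul_eq_zero (ff_reg hN) h4.symm

/-- A nonzero polynomial in `x` is regular modulo the ideal and the filtration. -/
theorem reg_filt (hN : 0 < N) {P : Pol N A} (hP : P ≠ 0) {p₀ : ℤ} {x y : OO N A}
    (hy : y ∈ Sp N A fun _ _ p _ => p₀ ≤ p) (h : xo P * x - y ∈ II N A) :
    ∃ x' ∈ Sp N A fun _ _ p _ => p₀ ≤ p, x - x' ∈ II N A := by
  obtain ⟨u, hu⟩ := exists_normal (S := fun _ _ _ _ => True) (fun _ _ _ _ _ => ⟨trivial, trivial⟩)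
    (Sp_top x)
  obtain ⟨v, hv⟩ := exists_normal (S := fun _ _ p _ => p₀ ≤ p)
    (fun _ _ _ _ h => ⟨h, by omega⟩) hy
  obtain ⟨k, hk, hk0, hkI⟩ := hu (max u v) (le_max_left _ _)
  obtain ⟨l, hl, hl0, hlI⟩ := hv (max u v) (le_max_right _ _)
  have hz : xo P * k - l = 0 := by
    refine normal_eq_zero hN (w := (max u v : ℕ)) (sub_mem (Sp_mul (rename_mem P) hk ?_)
      (Sp_mono hl fun a b p q _ _ _ _ _ _ h => h.2)) ?_ ?_
    · rintro a b p q a' b' p' q' ⟨rfl, rfl, rfl⟩ ⟨_, h2⟩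
      omega
    · rw [map_sub, hl0, xo, kt_iw_of_mul, hk0, mul_zero, sub_zero]
    · have e1 : xo P * k - l = (xo P * x - y) - xo P * (x - k) + (y - l) := by
        rw [mul_sub]
        abel
      rw [e1]
      exact add_mem (sub_mem h (Ideal.mul_mem_left _ _ hkI)) hlI
  have hc : cut (fun _ _ p _ => ¬p₀ ≤ p) (xo P * k) =
      xo P * cut (fun _ _ p _ => ¬p₀ ≤ p) k := by
    refine cut_mul_left (rename_mem P) ?_ k
    rintro a b p q a' b' p' q' ⟨rfl, rfl, rfl⟩
    omega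
  rw [sub_eq_zero.1 hz,
    cut_of_not (Sp_mono hl fun a b p q _ _ _ _ _ _ h => not_not.2 h.1)] at hc
  have hreg : (rename inl P : RR N A) ∈ nonZeroDivisors (RR N A) :=
    mem_nonZeroDivisors_of_ne_zero fun h0 =>
      hP (rename_injective _ Sum.inl_injective (h0.trans (map_zero _).symm))
  have hc0 := of_mul_eq_zero hreg hc.symm
  have hm := sub_cut_mem (fun _ _ p _ => ¬p₀ ≤ p) k
  rw [hc0, sub_zero] at hm
  exact ⟨k, Sp_mono hm fun a b p q _ _ _ _ _ _ h => not_not.1 h, hkI⟩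

theorem reg_II (hN : 0 < N) {P : Pol N A} (hP : P ≠ 0) {x : OO N A} (h : xo P * x ∈ II N A) :
    x ∈ II N A := by
  obtain ⟨x', hx', hI⟩ := reg_filt hN hP (p₀ := N + 1) (x := x) (y := 0) (zero_mem _)
    (by rwa [sub_zero])
  rwa [Sp_eq_zero hx' fun a b p q _ _ _ _ _ _ => by omega, sub_zero] at hI

end Pool.Agent.Lib.MP_e9c0f3_ag.DR
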