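import Pool.Agent.Lib.MP_e9c0f3_ag.DR.KT

/-! The twisted complex of the pairing. -/

open MvPolynomial Sum

namespace Pool.Agent.Lib.MP_e9c0f3_ag.DR

open Om

variable {N : ℕ} {A : Type} [CommRing A] [Algebra ℂ A]

/-- The part `∑ xᵢ dyᵢ` of `df`. -/
noncomputable def kt2_u (N : ℕ) (A : Type) [CommRing A] [Algebra ℂ A] : OO N A :=
  ∑ i, of (X (inl i)) * e (inr i)

theorem kt2_dff : dx (of (ff N A)) = kt2_u N A + th N A := dx_ff

theorem kt2_u_mem : kt2_u N A ∈ Sp N A fun a b p q => a = 1 ∧ b = 0 ∧ p = 0 ∧ q = 1 := by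
  rw [kt2_u]
  refine Submodule.sum_mem _ fun i _ => ?_
  refine Sp_mul (S := fun a b p q => a = 1 ∧ b = 0 ∧ p = 0 ∧ q = 0)
    (T := fun a b p q => a = 0 ∧ b = 0 ∧ p = 0 ∧ q = 1) (X_inl_mem i (by simp))
    (e_inr_mem i (by simp)) ?_
  intro a b p q a' b' p' q' h h'
  omega

theorem kt2_sg : sg (kt2_u N A) = -kt2_u N A := by
  simp only [kt2_u, map_sum, map_mul, sg_of, sg_e, mul_neg, Finset.sum_neg_distrib]

theorem kt2_c (i : Fin N) : c (inr i) (kt2_u N A) = of (X (inl i)) := by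
  rw [kt2_u, map_sum, Finset.sum_eq_single i]
  · rw [c_of_mul, c_e, if_pos rfl, mul_one]
  · intro j _ hj
    rw [c_of_mul, c_e, if_neg (fun h => hj (inr_injective h).symm), mul_zero]
  · intro h
    exact absurd (Finset.mem_univ i) h

theorem kt2_lie (i : Fin N) : lie (pd (inl i)) (kt2_u N A) = e (inr i) := by
  rw [kt2_u, map_sum, Finset.sum_eq_single i]
  · rw [lie_mul, lie_e, mul_zero, add_zero, lie_of, pd_apply, pderiv_X_self, map_one, one_mul]
  · intro j _ hj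
    rw [lie_mul, lie_e, mul_zero, add_zero, lie_of, pd_apply,
      pderiv_X_of_ne (fun h => hj (inl_injective h)), map_zero, zero_mul]
  · intro h
    exact absurd (Finset.mem_univ i) h

/-- The homotopy. -/
noncomputable def kt2_h : OO N A →ₗ[ℂ] OO N A := ∑ i, lie (pd (inl i)) ∘ₗ c (inr i)

/-- The diagonal operator. -/
noncomputable def kt2_G : OO N A →ₗ[ℂ] OO N A :=
  ∑ i : Fin N, (LinearMap.id + LinearMap.mulLeft ℂ (of (X (inl i))) ∘ₗ lie (pd (inl i)) -
    LinearMap.mulLeft ℂ (e (inr i)) ∘ₗ c (inr i))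

theorem kt2_G_apply (x : OO N A) : kt2_G x =
    (N : ℤ) • x + ∑ i, of (X (inl i)) * lie (pd (inl i)) x - ∑ i, e (inr i) * c (inr i) x := by
  simp only [kt2_G, LinearMap.sum_apply, LinearMap.sub_apply, LinearMap.add_apply,
    LinearMap.comp_apply, LinearMap.mulLeft_apply, Finset.sum_sub_distrib,
    Finset.sum_add_distrib, Finset.sum_const, Finset.card_univ, Fintype.card_fin]
  rw [LinearMap.smul_apply, LinearMap.id_apply, ← natCast_zsmul]

theorem kt2_hom (x : OO N A) : kt2_h (kt2_u N A * x) + kt2_u N A * kt2_h x = kt2_G x := by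
  have e1 : ∀ i : Fin N, lie (pd (inl i)) (c (inr i) (kt2_u N A * x)) +
      kt2_u N A * lie (pd (inl i)) (c (inr i) x) =
      x + of (X (inl i)) * lie (pd (inl i)) x - e (inr i) * c (inr i) x := by
    intro i
    rw [c_mul, kt2_c, kt2_sg, map_add, lie_mul, lie_mul, map_neg, kt2_lie, lie_of, pd_apply,
      pderiv_X_self, map_one, one_mul, neg_mul, neg_mul]
    abel
  simp only [kt2_h, kt2_G, LinearMap.sum_apply, LinearMap.sub_apply, LinearMap.add_apply,
    LinearMap.id_apply, LinearMap.comp_apply, LinearMap.mulLeft_apply, Finset.mul_sum,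
    ← Finset.sum_add_distrib, e1]

theorem kt2_eigen {n : ℤ} {x : OO N A}
    (h : x ∈ Sp N A fun a _ _ q => a + N - q = n) : kt2_G x = n • x := by
  refine id2_eigen kt2_G n (fun a b p q y h1 h2 => ?_) h
  rw [kt2_G_apply, eu_x (n := a) (gr_mono (fun _ _ _ _ h => h.1) h2),
    eu_dy (n := q) (gr_mono (fun _ _ _ _ h => h.2.2.2) h2), ← h1]
  module

theorem kt2_koszul {y : OO N A} (hy : y ∈ Sp N A fun _ _ _ q => q < N)
    (h : kt2_u N A * y = 0) : ∃ z, kt2_u N A * z = y := by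
  obtain ⟨s, hs⟩ := exists_sum_cut (fun a _ _ q => a + N - q) y
  change y ∈ LinearMap.range (LinearMap.mulLeft ℂ (kt2_u N A))
  rw [hs]
  refine sum_mem fun j _ => ?_
  by_cases hj : j = 0
  · rw [Sp_eq_zero (cut_mem_of _ hy) fun _ _ _ _ _ _ _ _ _ _ h => by omega]
    exact zero_mem _
  · have h1 := cut_mul_left (S := fun a _ _ q => a + N - q = j)
      (T := fun a _ _ q => a + N - q = j) (kt2_u_mem (N := N) (A := A))
      (fun _ _ _ _ _ _ _ _ _ => by omega) y
    rw [h, map_zero] at h1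
    have h2 := kt2_hom (cut (fun a _ _ q => a + N - q = j) y)
    rw [← h1, map_zero, zero_add, kt2_eigen (cut_mem _ y)] at h2
    refine ⟨(j : ℂ)⁻¹ • kt2_h (cut (fun a _ _ q => a + N - q = j) y), ?_⟩
    rw [map_smul, LinearMap.mulLeft_apply, h2, ← Int.cast_smul_eq_zsmul ℂ, smul_smul,
      inv_mul_cancel₀ (Int.cast_ne_zero.2 hj), one_smul]

theorem kt2_DD (F : Pol N A) (z : OO N A) : pa F (pa F z + dx (of (ff N A)) * z) +
    dx (of (ff N A)) * (pa F z + dx (of (ff N A)) * z) = 0 := by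
  rw [map_add, pa_pa, mul_add, dof_dof, pa_apply, pa_apply, dx_dof_mul, mul_add, xo, dof_anti]
  abel

theorem kt2_ind {F : Pol N A} {d : ℕ} (hF : F.IsHomogeneous d) {m p₀ c : ℤ}
    (hm : m + 2 - p₀ ≤ N) (M : ℕ) :
    ∀ η ∈ Sp N A fun a b p q => (p + q = m + 1 ∧ p₀ ≤ p ∧ a + p - b - q - d * p ≤ c) ∧
      a + (d + 1) * (N - p) < M, pa F η + dx (of (ff N A)) * η = 0 →
      ∃ ζ ∈ Sp N A fun a b p q => p + q = m ∧ p₀ ≤ p ∧ a + p - b - q - d * p ≤ c,
        η = pa F ζ + dx (of (ff N A)) * ζ := by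
  have hd : (0 : ℤ) ≤ d := Int.natCast_nonneg d
  induction M with
  | zero =>
    intro η hη _
    refine ⟨0, zero_mem _, ?_⟩
    rw [map_zero, mul_zero, add_zero]
    refine Sp_eq_zero hη fun a b p q ha _ _ hp _ _ h => ?_
    have h1 := h.2
    have h2 : (p : ℤ) ≤ N := by exact_mod_cast hp
    have h0 : (0 : ℤ) ≤ (d + 1) * (N - p) := mul_nonneg (by linarith) (by linarith)
    simp only [Nat.cast_zero] at h1
    linarith
  | succ M ih =>
    intro η hη h
    have h1 := cut_mul_left (S := fun a _ p _ => a + (d + 1) * (N - p) = M + 1)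
      (T := fun a _ p _ => a + (d + 1) * (N - p) = M) (kt2_u_mem (N := N) (A := A))
      (fun _ _ _ _ _ _ _ _ h => by
        obtain ⟨rfl, rfl, rfl, rfl⟩ := h
        constructor <;> intro _ <;> linarith) η
    have h2 : cut (fun a _ p _ => a + (d + 1) * (N - p) = M + 1) (pa F η) = 0 :=
      cut_of_not (pa_mem hF hη fun a b p q h => by
        have h3 := h.2
        push_cast at h3
        refine ⟨fun _ => ?_, fun _ => ?_, fun _ => ?_⟩ <;> linarith)
    have h2' : cut (fun a _ p _ => a + (d + 1) * (N - p) = M + 1) (th N A * η) = 0 :=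
      cut_of_not (Sp_mul th_mem hη fun _ _ _ _ a b p q h0 h => by
        obtain ⟨rfl, rfl, rfl, rfl⟩ := h0
        have h3 := h.2
        push_cast at h3
        intro _
        linarith)
    have h0 : kt2_u N A * cut (fun a _ p _ => a + (d + 1) * (N - p) = M) η = 0 := by
      have := congrArg (cut (fun a _ p _ => a + (d + 1) * (N - p) = M + 1)) h
      rwa [kt2_dff, add_mul, map_add, map_add, h2, h2', h1, zero_add, add_zero, map_zero] at this
    have h3 := cut_mem_of (fun a _ p _ => a + (d + 1) * (N - p) = M) hη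
    obtain ⟨z, hz⟩ := kt2_koszul (gr_mono (fun _ _ _ _ h => by
      obtain ⟨-, ⟨h4, h5, -⟩, -⟩ := h
      omega) h3) h0
    have h4 := cut_mul_left
      (S := fun a b p q => (p + q = m + 1 ∧ p₀ ≤ p ∧ a + p - b - q - d * p ≤ c) ∧
        a + (d + 1) * (N - p) = M)
      (T := fun a b p q => (p + q = m ∧ p₀ ≤ p ∧ a + p - b - q - d * p ≤ c) ∧
        a + (d + 1) * (N - p) = M - 1)
      (kt2_u_mem (N := N) (A := A))
      (fun _ _ _ _ _ _ _ _ h => by
        obtain ⟨rfl, rfl, rfl, rfl⟩ := h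
        constructor <;> rintro ⟨⟨_, _, _⟩, _⟩ <;> refine ⟨⟨?_, ?_, ?_⟩, ?_⟩ <;> linarith) z
    rw [hz, cut_of_mem (gr_mono (fun _ _ _ _ h => ⟨h.2.1, h.1⟩) h3)] at h4
    have h5 := cut_mem (fun a b p q => (p + q = m ∧ p₀ ≤ p ∧ a + p - b - q - d * p ≤ c) ∧
        a + (d + 1) * (N - p) = M - 1) z
    generalize cut (fun a b p q => (p + q = m ∧ p₀ ≤ p ∧ a + p - b - q - d * p ≤ c) ∧
        a + (d + 1) * (N - p) = M - 1) z = w at h4 h5
    obtain ⟨ζ, hζ, h6⟩ := ih (η - (pa F w + dx (of (ff N A)) * w)) (by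
      rw [kt2_dff, add_mul, ← h4, add_comm (pa F w), ← sub_sub, ← sub_sub]
      refine sub_mem (sub_mem ?_ (Sp_mul th_mem h5 fun _ _ _ _ a b p q h0 h => ?_))
        (pa_mem hF h5 fun a b p q h => ?_)
      · refine gr_mono (fun a b p q h => ⟨h.2.1, ?_⟩) (sub_cut_mem_of _ hη)
        have h7 := h.1
        have h8 := h.2.2
        push_cast at h8
        omega
      · obtain ⟨rfl, rfl, rfl, rfl⟩ := h0
        obtain ⟨⟨h7, h8, h9⟩, h10⟩ := h
        refine ⟨⟨?_, ?_, ?_⟩, ?_⟩ <;> linarith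
      · obtain ⟨⟨h7, h8, h9⟩, h10⟩ := h
        refine ⟨⟨⟨?_, ?_, ?_⟩, ?_⟩, ⟨⟨?_, ?_, ?_⟩, ?_⟩, ⟨?_, ?_, ?_⟩, ?_⟩ <;> linarith) (by
      have := kt2_DD F w
      rw [map_sub, mul_sub, sub_add_sub_comm, h, this, sub_zero])
    refine ⟨ζ + w, add_mem hζ (gr_mono (fun _ _ _ _ h => h.1) h5), ?_⟩
    rw [map_add, mul_add, add_add_add_comm, ← h6, sub_add_cancel]

/-- The complex `d + dF + df` is exact on forms of degree less than `N` in `dy`, strictly
for the filtrations. -/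
theorem twisted_exact {F : Pol N A} {d : ℕ} (hF : F.IsHomogeneous d) {m p₀ c : ℤ}
    (hm : m + 2 - p₀ ≤ N) {η : OO N A}
    (hη : η ∈ Sp N A fun a b p q => p + q = m + 1 ∧ p₀ ≤ p ∧ a + p - b - q - d * p ≤ c)
    (h : pa F η + dx (of (ff N A)) * η = 0) :
    ∃ ζ ∈ Sp N A fun a b p q => p + q = m ∧ p₀ ≤ p ∧ a + p - b - q - d * p ≤ c,
      η = pa F ζ + dx (of (ff N A)) * ζ := by
  obtain ⟨M, hM⟩ := Sp_bdd η
  refine kt2_ind hF hm (M + (d + 1) * N + 1) η
    (Sp_mono (Sp_inf hη hM) fun a b p q _ _ _ hp _ hq h => ⟨h.1, ?_⟩) h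
  obtain ⟨-, h1, h2⟩ := h
  have h3 : (0 : ℤ) ≤ (d + 1) * (p : ℤ) := by positivity
  push_cast
  linarith

end Pool.Agent.Lib.MP_e9c0f3_ag.DR
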