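import Pool.Agent.Lib.MP_e9c0f3_ag.DR.Psi

/-! The kernel of the map to the twisted complex. -/

open MvPolynomial Sum

namespace Pool.Agent.Lib.MP_e9c0f3_ag.DR

open Om

variable {N : ℕ} {A : Type} [CommRing A] [Algebra ℂ A]

omit [Algebra ℂ A] in
theorem ker_rename {F : Pol N A} {d : ℕ} (hF : F.IsHomogeneous d) :
    IsWeightedHomogeneous (vw N) (rename inl F : RR N A) d := by
  intro m hm
  obtain ⟨u, rfl, hu⟩ := coeff_rename_ne_zero _ _ _ hm
  rw [← hF hu, Finsupp.weight_apply, Finsupp.weight_apply,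
    Finsupp.sum_mapDomain_index_inj inl_injective]
  simp [vw, Finsupp.sum]

omit [Algebra ℂ A] in
theorem ker_ff : IsWeightedHomogeneous (vw N) (ff N A) 0 := by
  refine IsWeightedHomogeneous.sum _ _ _ fun i _ => ?_
  simpa [vw] using
    (isWeightedHomogeneous_X A (vw N) (inl i)).mul (isWeightedHomogeneous_X A (vw N) (inr i))

omit [Algebra ℂ A] in
theorem ker_comp {u : RR N A} {n : ℤ} (hu : IsWeightedHomogeneous (vw N) u n) (g : RR N A) :
    ∃ g', IsWeightedHomogeneous (vw N) g' (-n) ∧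
      weightedHomogeneousComponent (vw N) 0 (g * u) = g' * u := by
  induction g using MvPolynomial.induction_on' with
  | monomial m a =>
    have h1 := isWeightedHomogeneous_monomial (vw N) m a rfl
    rw [weightedHomogeneousComponent_of_mem (h1.mul hu)]
    split_ifs with h2
    · exact ⟨_, (eq_neg_of_add_eq_zero_left h2.symm) ▸ h1, rfl⟩
    · exact ⟨0, isWeightedHomogeneous_zero A _ _, (zero_mul _).symm⟩
  | add p q hp hq =>
    obtain ⟨p', h1, h2⟩ := hp
    obtain ⟨q', h3, h4⟩ := hq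
    exact ⟨p' + q', h1.add h3, by rw [add_mul, map_add, h2, h4, add_mul]⟩

omit [Algebra ℂ A] in
/-- The partial derivatives generate the unit ideal on the punctured space. -/
theorem exists_unit {F : Pol N A} {d : ℕ} (hF : F.IsHomogeneous d) (hi : Isol F) :
    ∃ g : Fin N → RR N A, (∀ i, IsWeightedHomogeneous (vw N) (g i) (1 - d)) ∧
      ∑ i, g i * rename inl (pderiv i F) - 1 ∈ Ideal.span {ff N A - 1} := by
  have h1 : ff N A ∈ (Ideal.span (Set.range fun i =>
      (rename inl (pderiv i F) : RR N A))).radical := by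
    refine Ideal.sum_mem _ fun i _ => Ideal.mul_mem_right _ _ ?_
    obtain ⟨M, hM⟩ := hi i
    obtain ⟨g, hg⟩ := Ideal.mem_span_range_iff_exists_fun.1 hM
    refine ⟨M, Ideal.mem_span_range_iff_exists_fun.2 ⟨fun j => rename inl (g j), ?_⟩⟩
    simpa using congrArg (rename (R := A) (inl : Fin N → Fin N ⊕ Fin N)) hg
  obtain ⟨n, hn⟩ := h1
  obtain ⟨g, hg⟩ := Ideal.mem_span_range_iff_exists_fun.1 hn
  have h2 : ∀ i, IsWeightedHomogeneous (vw N) (rename inl (pderiv i F) : RR N A) (d - 1) :=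
    fun i => pderiv_rename inl_injective i F ▸ (ker_rename hF).pderiv (by simp [vw])
  choose g' h3 h4 using fun i => ker_comp (h2 i) (g i)
  refine ⟨g', fun i => neg_sub (d : ℤ) 1 ▸ h3 i, ?_⟩
  have h5 : IsWeightedHomogeneous (vw N) (ff N A ^ n) 0 := by simpa using ker_ff.pow n
  rw [← Finset.sum_congr rfl fun i _ => h4 i, ← map_sum, hg,
    h5.weightedHomogeneousComponent_same]
  exact Ideal.mem_span_singleton.2 (sub_one_dvd_pow_sub_one _ _)

theorem ker_io_mem {v : Fin N ⊕ Fin N → RR N A} {d : ℤ}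
    (hv : ∀ s, IsWeightedHomogeneous (vw N) (v s) (vw N s - d)) (Q : ℤ → ℤ → Prop) {x : OO N A}
    (hx : x ∈ Sp N A fun a b p q => Q (p + q) (a + p - b - q)) :
    io v x ∈ Sp N A fun a b p q => Q (p + q + 1) (a + p - b - q + d) := by
  rw [io_apply]
  refine Submodule.sum_mem _ ?_
  rintro (i | i) -
  · refine Sp_mul (T := fun a b p q => Q (p + q + 1) (a + p - b - q + 1))
      (Sp_inf (of_mem_vw.2 (hv _)) (of_mem_zero _)) (c_inl_mem i hx fun a b p q h => ?_) ?_
    · convert h using 1 <;> ring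
    · rintro a b p q a' b' p' q' ⟨h1, rfl, rfl⟩ h2
      have h3 : a - b = 1 - d := h1
      convert h2 using 1 <;> omega
  · refine Sp_mul (T := fun a b p q => Q (p + q + 1) (a + p - b - q - 1))
      (Sp_inf (of_mem_vw.2 (hv _)) (of_mem_zero _)) (c_inr_mem i hx fun a b p q h => ?_) ?_
    · convert h using 1 <;> ring
    · rintro a b p q a' b' p' q' ⟨h1, rfl, rfl⟩ h2
      have h3 : a - b = -1 - d := h1
      convert h2 using 1 <;> omega

theorem ker_io_dof (v : Fin N ⊕ Fin N → RR N A) (r : RR N A) (x : OO N A) :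
    io v (dx (of r) * x) = of (∑ s, v s * pderiv s r) * x - dx (of r) * io v x := by
  rw [io_mul, sg_dof, neg_mul, ← sub_eq_add_neg]
  exact congrArg (fun y => y * x - dx (of r) * io v x) (io_dO_of v pd r)

omit [Algebra ℂ A] in
theorem ker_pd_ff (i : Fin N) :
    pderiv (inl i) (ff N A) = X (inr i) ∧ pderiv (inr i) (ff N A) = X (inl i) := by
  constructor <;> simp [ff, pderiv_X, Pi.single_apply]

/-- A contracting homotopy for the multiplication by `dF`. -/
theorem exists_xi {F : Pol N A} {d : ℕ} (hF : F.IsHomogeneous d) (hi : Isol F) :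
    ∃ L : OO N A →ₗ[ℂ] OO N A, (∀ x ∈ II N A, L x ∈ II N A) ∧
      (∀ x, L (dx (xo F) * x) + dx (xo F) * L x - x ∈ II N A) ∧
      ∀ (Q : ℤ → ℤ → Prop) x, x ∈ Sp N A (fun a b p q => Q (p + q) (a + p - b - q)) →
        L x ∈ Sp N A fun a b p q => Q (p + q + 1) (a + p - b - q + d) := by
  obtain ⟨g, hg, h1⟩ := exists_unit hF hi
  obtain ⟨t, ht⟩ : ∃ t : RR N A, t = ∑ i, g i * X (inr i) := ⟨_, rfl⟩
  have h2 : IsWeightedHomogeneous (vw N) t (-d) := by
    rw [ht]
    refine IsWeightedHomogeneous.sum _ _ _ fun i _ => ?_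
    convert (hg i).mul (isWeightedHomogeneous_X A (vw N) (inr i)) using 1
    simp only [vw, elim_inr]
    ring
  let v : Fin N ⊕ Fin N → RR N A := Sum.elim g fun j => -(t * X (inr j))
  have h3 : ∑ s, v s * pderiv s (ff N A) = (ff N A - 1) * -t := by
    rw [Fintype.sum_sum_type]
    simp only [v, elim_inl, elim_inr, (ker_pd_ff _).1, (ker_pd_ff _).2, ← ht, neg_mul, mul_assoc,
      Finset.sum_neg_distrib, ← Finset.mul_sum, mul_comm (X (inr _) : RR N A)]
    change t + -(t * ff N A) = _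
    ring
  have h4 : ∑ s, v s * pderiv s (rename inl F : RR N A) = ∑ i, g i * rename inl (pderiv i F) := by
    rw [Fintype.sum_sum_type]
    simp only [v, elim_inl, id_pderiv_inr, mul_zero, Finset.sum_const_zero, add_zero,
      pderiv_rename inl_injective]
  refine ⟨io v, fun x hx => ?_, fun x => ?_, fun Q x hx => ker_io_mem ?_ Q hx⟩
  · obtain ⟨a, b, rfl⟩ := mem_II.1 hx
    refine mem_II.2 ⟨io v a + of (-t) * b, -io v b, ?_⟩
    have h5 : (of (ff N A) - 1 : OO N A) = of (ff N A - 1) := by rw [map_sub, map_one]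
    rw [map_add, h5, io_of_mul, ker_io_dof, h3, map_mul, mul_add, mul_neg, mul_assoc]
    abel
  · have h5 := (II N A).mul_mem_right x (of_mem_II h1)
    rw [xo, ker_io_dof, h4, sub_add_cancel]
    rwa [map_sub, map_one, sub_mul, one_mul] at h5
  · rintro (i | i)
    · exact hg i
    · rw [sub_eq_neg_add]
      exact (h2.mul (isWeightedHomogeneous_X A (vw N) (inr i))).neg

theorem ker_step (F : Pol N A) {ξ η η' ζ : OO N A} (h : ξ - pa F η ∈ II N A)
    (h' : η - η' - pa F ζ ∈ II N A) : ξ - pa F η' ∈ II N A := by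
  have h1 := (II N A).add_mem h (pa_II F h')
  rwa [map_sub, map_sub, pa_pa, sub_zero, ← add_sub_assoc, sub_add_cancel] at h1

theorem ker_cut {F : Pol N A} {d : ℕ} (hF : F.IsHomogeneous d) {ξ η : OO N A}
    (h : ξ - pa F η ∈ II N A) (n : ℤ) :
    cut (fun a b p q => a + p - b - q = n) ξ - (dx (cut (fun a b p q => a + p - b - q = n) η) +
      dx (xo F) * cut (fun a b p q => a + p - b - q + d = n) η) ∈ II N A := by
  have h1 := cut_II (fun _ w => w = n) h
  rwa [map_sub, pa_apply, map_add, cut_dx (fun _ w => w = n),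
    id2_cut_mul (fun _ w => w = n) (id2_dxo hF)] at h1

theorem ker_raise {F : Pol N A} {d : ℕ} (hd : 1 ≤ d) (hF : F.IsHomogeneous d) {ξ η : OO N A}
    (hξ : ξ ∈ Sp N A fun a b p q => a + p - b - q = 0) {lo hi : ℤ} (h1 : lo < 0) (h2 : d ≤ hi)
    (hη : η ∈ Sp N A fun a b p q => lo ≤ a + p - b - q ∧ a + p - b - q ≤ hi)
    (h : ξ - pa F η ∈ II N A) :
    ∃ η' ∈ Sp N A fun a b p q => lo + 1 ≤ a + p - b - q ∧ a + p - b - q ≤ hi,
      ξ - pa F η' ∈ II N A := by
  have h3 := ker_cut hF h lo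
  rw [cut_of_not (gr_mono (fun a b p q h => by omega) hξ),
    cut_of_not (S := fun a b p q => a + p - b - q + d = lo) (gr_mono (fun a b p q h => by omega) hη),
    mul_zero, add_zero, zero_sub, neg_mem_iff] at h3
  have h4 := cut_mem (fun a b p q => a + p - b - q = lo) η
  have h5 := sub_cut_mem_of (fun a b p q => a + p - b - q = lo) hη
  generalize cut (fun a b p q => a + p - b - q = lo) η = η₀ at h3 h4 h5
  have h6 : iv η₀ ∈ Sp N A fun a b p q => a + p - b - q = lo :=
    iv_mem h4 fun a b p q h => by omega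
  refine ⟨η - η₀ - dx (xo F) * ((lo : ℂ)⁻¹ • iv η₀), sub_mem (gr_mono (fun a b p q h => by omega) h5)
    (Sp_mul (id2_dxo hF) (Submodule.smul_mem _ _ h6) fun a b p q a' b' p' q' h h' => by omega),
    ker_step F (ζ := (lo : ℂ)⁻¹ • iv η₀) h ?_⟩
  have h7 := smul_II (lo : ℂ)⁻¹ (iv_II h3)
  rw [eq_sub_of_add_eq (eu_v h4), smul_sub, ← Int.cast_smul_eq_zsmul ℂ,
    inv_smul_smul₀ (Int.cast_ne_zero.2 h1.ne), ← map_smul] at h7
  convert h7 using 1
  rw [pa_apply]
  abel

theorem ker_lower {F : Pol N A} {d : ℕ} (hd : 1 ≤ d) (hF : F.IsHomogeneous d) (hI : Isol F)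
    {ξ η : OO N A} (hξ : ξ ∈ Sp N A fun a b p q => a + p - b - q = 0) {hi : ℤ} (h2 : d ≤ hi)
    (hη : η ∈ Sp N A fun a b p q => 0 ≤ a + p - b - q ∧ a + p - b - q ≤ hi)
    (h : ξ - pa F η ∈ II N A) :
    ∃ η' ∈ Sp N A fun a b p q => 0 ≤ a + p - b - q ∧ a + p - b - q ≤ hi - 1,
      ξ - pa F η' ∈ II N A := by
  obtain ⟨L, L1, L2, L3⟩ := exists_xi hF hI
  have h3 := ker_cut hF h (hi + d)
  rw [cut_of_not (gr_mono (fun a b p q h => by omega) hξ),
    cut_of_not (S := fun a b p q => a + p - b - q = hi + d) (gr_mono (fun a b p q h => by omega) hη),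
    map_zero, zero_add, zero_sub, neg_mem_iff] at h3
  have h4 := cut_mem (fun a b p q => a + p - b - q + d = hi + d) η
  have h5 := sub_cut_mem_of (fun a b p q => a + p - b - q + d = hi + d) hη
  generalize cut (fun a b p q => a + p - b - q + d = hi + d) η = η₀ at h3 h4 h5
  have h6 := L3 (fun _ w => w + d = hi + d) η₀ h4
  refine ⟨η - η₀ - dx (L η₀), sub_mem (gr_mono (fun a b p q h => by omega) h5)
    (dx_mem h6 fun a b p q h => by omega), ker_step F (ζ := L η₀) h ?_⟩
  convert (II N A).sub_mem (L1 _ h3) (L2 η₀) using 1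
  rw [pa_apply]
  abel

/-- A primitive of a form of weight zero can be chosen of weight zero. -/
theorem weight_zero {F : Pol N A} {d : ℕ} (hd : 1 ≤ d) (hF : F.IsHomogeneous d) (hi : Isol F)
    {ξ η : OO N A} (hξ : ξ ∈ Sp N A fun a b p q => a + p - b - q = 0)
    (h : ξ - pa F η ∈ II N A) : ∃ η' ∈ Sp N A fun a b p q => a + p - b - q = 0,
      ξ - dx η' ∈ II N A ∧ dx (xo F) * η' ∈ II N A := by
  obtain ⟨M, hM⟩ := Sp_bdd η
  have h1 : ∀ n : ℕ, n ≤ M + N → ∃ η' ∈ Sp N A fun a b p q =>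
      n - (M + N : ℤ) ≤ a + p - b - q ∧ a + p - b - q ≤ M + N + d, ξ - pa F η' ∈ II N A := by
    intro n
    induction n with
    | zero => exact fun _ => ⟨η, Sp_mono hM fun a b p q _ _ _ _ _ _ h => by omega, h⟩
    | succ n ih =>
      intro hn
      obtain ⟨η₁, h2, h3⟩ := ih (by omega)
      obtain ⟨η₂, h4, h5⟩ := ker_raise hd hF hξ (by omega) (by omega) h2 h3
      exact ⟨η₂, gr_mono (fun a b p q h => by omega) h4, h5⟩
  have h2 : ∀ n : ℕ, n ≤ M + N + 1 → ∃ η' ∈ Sp N A fun a b p q =>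
      0 ≤ a + p - b - q ∧ a + p - b - q ≤ M + N + d - n, ξ - pa F η' ∈ II N A := by
    intro n
    induction n with
    | zero =>
      obtain ⟨η₁, h2, h3⟩ := h1 _ le_rfl
      exact fun _ => ⟨η₁, gr_mono (fun a b p q h => by omega) h2, h3⟩
    | succ n ih =>
      intro hn
      obtain ⟨η₁, h2, h3⟩ := ih (by omega)
      obtain ⟨η₂, h4, h5⟩ := ker_lower hd hF hi hξ (by omega) h2 h3
      exact ⟨η₂, gr_mono (fun a b p q h => by omega) h4, h5⟩
  obtain ⟨η₁, h3, h4⟩ := h2 _ le_rfl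
  have h5 := ker_cut hF h4 0
  have h6 := ker_cut hF h4 d
  rw [cut_of_mem hξ,
    cut_of_not (S := fun a b p q => a + p - b - q + d = 0) (gr_mono (fun a b p q h => by omega) h3),
    mul_zero, add_zero] at h5
  rw [cut_of_not (gr_mono (fun a b p q h => by omega) hξ),
    cut_of_not (S := fun a b p q => a + p - b - q = d) (gr_mono (fun a b p q h => by omega) h3),
    map_zero, zero_add, zero_sub, neg_mem_iff] at h6
  simp only [add_eq_right] at h6
  exact ⟨_, cut_mem _ _, h5, h6⟩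

end Pool.Agent.Lib.MP_e9c0f3_ag.DR
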