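import Pool.Agent.Lib.MP_e9c0f3_ag.Free2
import Pool.Agent.Lib.MP_e9c0f3_ag.Res

/-! Every homogeneous ideal containing `F` is resolved by a graded matrix factorisation of `F`. -/

open MvPolynomial Matrix

namespace Pool.Agent.Lib.MP_e9c0f3_ag.DR

variable {N : ℕ}

/-- A finite graded free resolution of `S / I`, written as one matrix. -/
structure GRes (I : Ideal (Pol N ℂ)) {ι : Type} [Fintype ι] [DecidableEq ι] (par : ι → ℕ)
    (dg : ι → ℤ) (i₀ : ι) (L : Matrix ι ι (Pol N ℂ)) : Prop where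
  zero : ∀ i, par i = 0 ↔ i = i₀
  low : ∀ i j, L i j ≠ 0 → par i + 1 = par j
  homog : ∀ i j m, coeff m (L i j) ≠ 0 → (m.degree : ℤ) + dg i = dg j
  sq : L * L = 0
  span : I = Ideal.span (Set.range (L i₀))
  exact : ∀ v, L *ᵥ v = 0 → v i₀ = 0 → ∃ u, v = L *ᵥ u

theorem mf_satur {β : Type} (Z : Submodule (Pol N ℂ) (β → Pol N ℂ)) : Satur Z := by
  intro a ha v hv
  have h := Z.smul_mem (C a⁻¹) hv
  rwa [smul_smul, ← C_mul, inv_mul_cancel₀ ha, C_1, one_smul] at h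

theorem mf_hom_blocks {α ι : Type} {g : α → GG} {g' : ι → GG} {z : Matrix α ι (Pol N ℂ)}
    {L : Matrix ι ι (Pol N ℂ)} (hz : IsHom xi g g' 0 z) (hL : IsHom xi g' g' 0 L) :
    IsHom xi (Sum.elim g g') (Sum.elim g g') 0 (fromBlocks 0 z 0 L) := by
  rintro (i | i) (j | j) m hm
  · exact absurd rfl hm
  · exact hz i j m hm
  · exact absurd rfl hm
  · exact hL i j m hm

theorem mf_low_blocks {α ι : Type} {par : ι → ℕ} {z : Matrix α ι (Pol N ℂ)}
    {L : Matrix ι ι (Pol N ℂ)} (hz : ∀ b j, z b j ≠ 0 → par j = 0)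
    (hL : ∀ i j, L i j ≠ 0 → par i + 1 = par j) (i j : α ⊕ ι)
    (h : fromBlocks (0 : Matrix α α (Pol N ℂ)) z 0 L i j ≠ 0) :
    Sum.elim (fun _ => 0) (fun j => par j + 1) i + 1 =
      Sum.elim (fun _ => 0) (fun j => par j + 1) j := by
  rcases i with i | i <;> rcases j with j | j
  · exact absurd rfl h
  · simp only [Sum.elim_inl, Sum.elim_inr, hz i j h]
  · exact absurd rfl h
  · simp only [Sum.elim_inr, hL i j h]

theorem mf_sq_blocks {α ι : Type} [Fintype α] [Fintype ι] {z : Matrix α ι (Pol N ℂ)}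
    {L : Matrix ι ι (Pol N ℂ)} (hz : z * L = 0) (hL : L * L = 0) :
    fromBlocks (0 : Matrix α α (Pol N ℂ)) z 0 L * fromBlocks (0 : Matrix α α (Pol N ℂ)) z 0 L =
      0 := by
  rw [fromBlocks_multiply]
  simp [hz, hL]

theorem mf_mulVec_blocks {α ι : Type} [Fintype α] [Fintype ι] (z : Matrix α ι (Pol N ℂ))
    (L : Matrix ι ι (Pol N ℂ)) (v : α ⊕ ι → Pol N ℂ) :
    fromBlocks (0 : Matrix α α (Pol N ℂ)) z 0 L *ᵥ v =
      Sum.elim (z *ᵥ (v ∘ Sum.inr)) (L *ᵥ (v ∘ Sum.inr)) := by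
  rw [fromBlocks_mulVec]
  simp

theorem mf_elim_zero {α ι R : Type} [Zero R] {a : α → R} {b : ι → R} (h : Sum.elim a b = 0) :
    a = 0 ∧ b = 0 :=
  ⟨funext fun i => congrFun h (Sum.inl i), funext fun i => congrFun h (Sum.inr i)⟩

theorem mf_aux (n : ℕ) : ∀ (j : ℕ), j + n = N + 1 → ∀ (β : Type) [Fintype β] (γ : β → GG)
    (Z : Submodule (Pol N ℂ) (β → Pol N ℂ)), Graded γ Z → Reg N ℂ j Z →
    ∃ (ι : Type) (_ : Fintype ι) (_ : DecidableEq ι) (par : ι → ℕ) (g : ι → GG)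
      (z : Matrix β ι (Pol N ℂ)) (L : Matrix ι ι (Pol N ℂ)), IsHom xi γ g 0 z ∧
      IsHom xi g g 0 L ∧ (∀ b j, z b j ≠ 0 → par j = 0) ∧
      (∀ i j, L i j ≠ 0 → par i + 1 = par j) ∧ z * L = 0 ∧ L * L = 0 ∧ (∀ v, z *ᵥ v ∈ Z) ∧
      ∀ a ∈ Z, ∀ w, z *ᵥ w = 0 → L *ᵥ w = 0 → ∃ u, z *ᵥ u = a ∧ L *ᵥ u = w := by
  induction n with
  | zero =>
    intro j hj β _ γ Z hg hr
    obtain rfl : j = N + 1 := hj
    obtain ⟨α, _, _, g, z, h1, h2, h3⟩ := exists_basis hg (mf_satur Z) hr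
    refine ⟨α, inferInstance, inferInstance, fun _ => 0, g, z, 0, h1, IsHom.zero,
      fun _ _ _ => rfl, fun _ _ h => absurd rfl h, Matrix.mul_zero _, Matrix.mul_zero _,
      fun v => h2 ▸ ⟨v, rfl⟩, fun a ha w hw _ => ?_⟩
    rw [← h2] at ha
    obtain ⟨u, hu⟩ := ha
    exact ⟨u, hu, by rw [h3 w hw, zero_mulVec]⟩
  | succ n ih =>
    intro j hj β _ γ Z hg hr
    obtain ⟨α, _, _, g, z, h1, h2⟩ := exists_gen hg (mf_satur Z)
    subst h2
    have hr' : Reg N ℂ (j + 1) (LinearMap.ker z.mulVecLin) := by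
      have := Reg.ker (LinearMap.surjective_rangeRestrict z.mulVecLin) hr Reg.free
      rwa [LinearMap.ker_rangeRestrict] at this
    obtain ⟨ι, _, _, par, g', z', L, k1, k2, k3, k4, k5, k6, k7, k8⟩ :=
      ih (j + 1) (by omega) α g _ (graded_ker h1) hr'
    have hv : ∀ v : α ⊕ ι → Pol N ℂ,
        fromCols z (0 : Matrix β ι (Pol N ℂ)) *ᵥ v = z *ᵥ (v ∘ Sum.inl) := by
      intro v
      rw [fromCols_mulVec, zero_mulVec, add_zero]
    refine ⟨α ⊕ ι, inferInstance, inferInstance, Sum.elim (fun _ => 0) fun j => par j + 1,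
      Sum.elim g g', fromCols z 0, fromBlocks 0 z' 0 L, h1.fromCols IsHom.zero,
      mf_hom_blocks k1 k2, ?_, mf_low_blocks k3 k4, ?_, mf_sq_blocks k5 k6,
      fun v => ⟨_, (hv v).symm⟩, ?_⟩
    · rintro b (j | j) h
      · rfl
      · exact absurd rfl h
    · have e : z * z' = 0 := by
        apply Matrix.mulVec_injective
        funext v
        rw [← mulVec_mulVec, zero_mulVec]
        exact k7 v
      rw [fromCols_mul_fromBlocks]
      simp [e]
    · rintro a ⟨t, rfl⟩ w hw1 hw2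
      rw [hv] at hw1
      rw [mf_mulVec_blocks] at hw2
      obtain ⟨u, hu1, hu2⟩ := k8 (w ∘ Sum.inl) hw1 _ (mf_elim_zero hw2).1 (mf_elim_zero hw2).2
      refine ⟨Sum.elim t u, hv _, ?_⟩
      rw [mf_mulVec_blocks, Sum.elim_comp_inr, hu1, hu2, Sum.elim_comp_inl_inr]

theorem mf_graded (I : Ideal (Pol N ℂ)) (hI : ∀ p ∈ I, ∀ n, homogeneousComponent n p ∈ I) :
    Graded (fun _ : Unit => 0) (Submodule.comap (LinearMap.proj ()) I) := by
  intro g v hv
  change prv (fun _ : Unit => 0) g v () ∈ I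
  by_cases h : ∃ n : ℕ, n • xi = g
  · obtain ⟨n, rfl⟩ := h
    have e : prv (fun _ : Unit => 0) (n • xi) v () = homogeneousComponent n (v ()) := by
      ext m
      rw [free2_coeff_prv, coeff_homogeneousComponent, add_zero]
      exact if_congr nsmul_xi_injective.eq_iff rfl rfl
    rw [e]
    exact hI _ hv n
  · have e : prv (fun _ : Unit => 0) g v () = 0 := by
      ext m
      rw [free2_coeff_prv, add_zero, if_neg fun e => h ⟨_, e⟩, coeff_zero]
    rw [e]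
    exact I.zero_mem

/-- Hilbert's syzygy theorem. -/
theorem exists_gres (I : Ideal (Pol N ℂ)) (hI : ∀ p ∈ I, ∀ n, homogeneousComponent n p ∈ I) :
    ∃ (ι : Type) (_ : Fintype ι) (_ : DecidableEq ι) (par : ι → ℕ) (dg : ι → ℤ) (i₀ : ι)
      (L : Matrix ι ι (Pol N ℂ)), GRes I par dg i₀ L := by
  obtain ⟨ι, _, _, par, g, z, L, k1, k2, k3, k4, k5, k6, k7, k8⟩ :=
    mf_aux (N + 1) 0 (zero_add _) Unit _ _ (mf_graded I hI) Reg.zero
  refine ⟨Unit ⊕ ι, inferInstance, inferInstance, Sum.elim (fun _ => 0) fun j => par j + 1,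
    fun i => (Sum.elim (fun _ : Unit => (0 : GG)) g i).1 / 2, Sum.inl (), fromBlocks 0 z 0 L,
    ?_, mf_low_blocks k3 k4, fun i j m hm => ?_, mf_sq_blocks k5 k6, ?_, fun v h1 h2 => ?_⟩
  · rintro (i | i) <;> simp
  · have h := congrArg Prod.fst (mf_hom_blocks k1 k2 i j m hm)
    rw [grad_nsmul_xi, zero_add, Prod.fst_add] at h
    dsimp only at h ⊢
    omega
  · apply le_antisymm
    · intro p hp
      obtain ⟨u, hu, -⟩ := k8 (fun _ => p) hp 0 (mulVec_zero _) (mulVec_zero _)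
      have e : p = ∑ j, z () j * u j := (congrFun hu ()).symm
      rw [e]
      exact Ideal.sum_mem _ fun j _ =>
        Ideal.mul_mem_right _ _ (Ideal.subset_span ⟨Sum.inr j, rfl⟩)
    · rw [Ideal.span_le]
      rintro _ ⟨j | j, rfl⟩
      · exact I.zero_mem
      · have h : (z *ᵥ Pi.single j 1) () ∈ I := k7 (Pi.single j 1)
        rw [mulVec_single_one] at h
        exact h
  · rw [mf_mulVec_blocks] at h1
    obtain ⟨u, hu1, hu2⟩ := k8 0 (Submodule.zero_mem _) _ (mf_elim_zero h1).1 (mf_elim_zero h1).2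
    refine ⟨Sum.elim 0 u, ?_⟩
    rw [mf_mulVec_blocks, Sum.elim_comp_inr, hu1, hu2]
    funext i
    rcases i with i | i
    · exact h2
    · rfl

end Pool.Agent.Lib.MP_e9c0f3_ag.DR
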