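import Pool.Agent.Lib.MP_e9c0f3_ag.DR.SD

/-! Forms with coefficients in `R` in the differentials `e s`. -/

open TensorProduct

namespace Pool.Agent.Lib.MP_e9c0f3_ag.DR

/-- Constant forms. -/
abbrev La (σ : Type) : Type := ExteriorAlgebra ℂ (σ → ℂ)

/-- Forms with coefficients in `R`. -/
def Om (R σ : Type) [CommRing R] [Algebra ℂ R] : Type := R ⊗[ℂ] La σ

namespace Om

variable {R R' σ σ' : Type} [CommRing R] [Algebra ℂ R] [CommRing R'] [Algebra ℂ R']

noncomputable instance : Ring (Om R σ) := inferInstanceAs (Ring (R ⊗[ℂ] La σ))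
noncomputable instance : Algebra ℂ (Om R σ) := inferInstanceAs (Algebra ℂ (R ⊗[ℂ] La σ))

/-- Functions as forms. -/
noncomputable def of : R →ₐ[ℂ] Om R σ :=
  (Algebra.TensorProduct.includeLeft : R →ₐ[ℂ] R ⊗[ℂ] La σ)

/-- The basic one-forms. -/
noncomputable def e [DecidableEq σ] (s : σ) : Om R σ :=
  ((1 : R) ⊗ₜ[ℂ] ExteriorAlgebra.ι ℂ (Pi.single s (1 : ℂ) : σ → ℂ) : R ⊗[ℂ] La σ)

/-- The parity involution. -/
noncomputable def sg : Om R σ →ₐ[ℂ] Om R σ :=
  (Algebra.TensorProduct.map (AlgHom.id ℂ R) CliffordAlgebra.involute :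
    R ⊗[ℂ] La σ →ₐ[ℂ] R ⊗[ℂ] La σ)

/-- Contraction with the vector dual to `e s`. -/
noncomputable def c (s : σ) : Om R σ →ₗ[ℂ] Om R σ :=
  (LinearMap.lTensor R (CliffordAlgebra.contractLeft (LinearMap.proj s)) :
    R ⊗[ℂ] La σ →ₗ[ℂ] R ⊗[ℂ] La σ)

/-- A derivation acting on the coefficients. -/
noncomputable def lie (D : Derivation ℂ R R) : Om R σ →ₗ[ℂ] Om R σ :=
  (LinearMap.rTensor (La σ) (D : R →ₗ[ℂ] R) : R ⊗[ℂ] La σ →ₗ[ℂ] R ⊗[ℂ] La σ)

/-- Functoriality in the coefficients and in the differentials. -/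
noncomputable def mp (g : R →ₐ[ℂ] R') (u : (σ → ℂ) →ₗ[ℂ] (σ' → ℂ)) : Om R σ →ₐ[ℂ] Om R' σ' :=
  (Algebra.TensorProduct.map g (ExteriorAlgebra.map u) : R ⊗[ℂ] La σ →ₐ[ℂ] R' ⊗[ℂ] La σ')

/-- Change of coefficients. -/
noncomputable def mapc (g : R →ₐ[ℂ] R') : Om R σ →ₐ[ℂ] Om R' σ := mp g LinearMap.id

/-- Forget the additional differential. -/
noncomputable def ev0 : Om R (Option σ) →ₐ[ℂ] Om R σ :=
  mp (AlgHom.id ℂ R) (LinearMap.funLeft ℂ ℂ some)

variable [Fintype σ] [DecidableEq σ]

/-- The exterior derivative for a family of derivations. -/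
noncomputable def dO (P : σ → Derivation ℂ R R) : Om R σ →ₗ[ℂ] Om R σ :=
  ∑ s, LinearMap.mulLeft ℂ (e s) ∘ₗ lie (P s)

/-- Contraction with a vector field. -/
noncomputable def io (v : σ → R) : Om R σ →ₗ[ℂ] Om R σ :=
  ∑ s, LinearMap.mulLeft ℂ (of (v s)) ∘ₗ c s

theorem dO_apply (P : σ → Derivation ℂ R R) (x : Om R σ) : dO P x = ∑ s, e s * lie (P s) x := by
  simp [dO]

omit [DecidableEq σ] in
theorem io_apply (v : σ → R) (x : Om R σ) : io v x = ∑ s, of (v s) * c s x := by
  simp [io]

omit [Fintype σ] [DecidableEq σ] in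
theorem om_la_i_mul (m : σ → ℂ) (l : La σ) :
    ExteriorAlgebra.ι ℂ m * l = CliffordAlgebra.involute l * ExteriorAlgebra.ι ℂ m := by
  induction l using ExteriorAlgebra.induction with
  | algebraMap r => rw [AlgHom.commutes, Algebra.commutes]
  | ι x =>
    rw [CliffordAlgebra.involute_ι, neg_mul, eq_neg_iff_add_eq_zero]
    exact ExteriorAlgebra.ι_add_mul_swap m x
  | mul a b ha hb => rw [← mul_assoc, ha, mul_assoc, hb, map_mul, mul_assoc]
  | add a b ha hb => rw [mul_add, ha, hb, map_add, add_mul]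

omit [Fintype σ] [DecidableEq σ] in
theorem om_la_c_mul (d : Module.Dual ℂ (σ → ℂ)) (a b : La σ) :
    CliffordAlgebra.contractLeft d (a * b) = CliffordAlgebra.contractLeft d a * b +
      CliffordAlgebra.involute a * CliffordAlgebra.contractLeft d b := by
  induction a using CliffordAlgebra.left_induction with
  | algebraMap r =>
    rw [CliffordAlgebra.contractLeft_algebraMap_mul, CliffordAlgebra.contractLeft_algebraMap,
      zero_mul, zero_add, AlgHom.commutes]
  | add x y hx hy =>
    rw [add_mul, map_add, hx, hy, map_add, map_add, add_mul, add_mul]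
    abel
  | ι_mul x m hx =>
    rw [mul_assoc, CliffordAlgebra.contractLeft_ι_mul, CliffordAlgebra.contractLeft_ι_mul, hx,
      map_mul, CliffordAlgebra.involute_ι, sub_mul, smul_mul_assoc, mul_add, neg_mul, neg_mul,
      mul_assoc, mul_assoc]
    abel

omit [Fintype σ] [DecidableEq σ] in
theorem om_la_sg_c (d : Module.Dual ℂ (σ → ℂ)) (a : La σ) :
    CliffordAlgebra.involute (CliffordAlgebra.contractLeft d a) =
      -CliffordAlgebra.contractLeft d (CliffordAlgebra.involute a) := by
  induction a using CliffordAlgebra.left_induction with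
  | algebraMap r =>
    rw [AlgHom.commutes, CliffordAlgebra.contractLeft_algebraMap, map_zero, neg_zero]
  | add x y hx hy => rw [map_add, map_add, hx, hy, map_add, map_add, neg_add]
  | ι_mul x m hx =>
    rw [CliffordAlgebra.contractLeft_ι_mul, map_sub, map_smul, map_mul, map_mul, hx,
      CliffordAlgebra.involute_ι, neg_mul_neg, neg_mul, map_neg, neg_neg,
      CliffordAlgebra.contractLeft_ι_mul]

/-- Pure tensors. -/
noncomputable def om_mk (r : R) (l : La σ) : Om R σ := (r ⊗ₜ[ℂ] l : R ⊗[ℂ] La σ)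

section mk

omit [Fintype σ] [DecidableEq σ]

theorem om_mk_mul (r r' : R) (l l' : La σ) : om_mk r l * om_mk r' l' = om_mk (r * r') (l * l') :=
  Algebra.TensorProduct.tmul_mul_tmul r r' l l'

theorem om_mk_add (r : R) (l l' : La σ) : om_mk r (l + l') = om_mk r l + om_mk r l' :=
  TensorProduct.tmul_add r l l'

theorem om_add_mk (r r' : R) (l : La σ) : om_mk (r + r') l = om_mk r l + om_mk r' l :=
  TensorProduct.add_tmul r r' l

theorem om_mk_neg (r : R) (l : La σ) : om_mk r (-l) = -om_mk r l :=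
  TensorProduct.tmul_neg r l

theorem om_mk_zero (r : R) : om_mk r (0 : La σ) = 0 :=
  TensorProduct.tmul_zero (La σ) r

theorem om_zero_mk (l : La σ) : om_mk (0 : R) l = 0 :=
  TensorProduct.zero_tmul R l

theorem om_mk_smul (a : ℂ) (r : R) (l : La σ) : om_mk r (a • l) = om_mk (a • r) l :=
  (TensorProduct.smul_tmul a r l).symm

theorem om_mk_one : om_mk (1 : R) (1 : La σ) = 1 := rfl

theorem om_of (r : R) : (of r : Om R σ) = om_mk r 1 := rfl

theorem om_sg_mk (r : R) (l : La σ) : sg (om_mk r l) = om_mk r (CliffordAlgebra.involute l) := rfl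

theorem om_c_mk (s : σ) (r : R) (l : La σ) :
    c s (om_mk r l) = om_mk r (CliffordAlgebra.contractLeft (LinearMap.proj s) l) := rfl

theorem om_lie_mk (D : Derivation ℂ R R) (r : R) (l : La σ) :
    lie D (om_mk r l) = om_mk (D r) l := rfl

theorem om_ind {P : Om R σ → Prop} (h : ∀ r l, P (om_mk r l))
    (ha : ∀ x y, P x → P y → P (x + y)) (x : Om R σ) : P x := by
  have h0 : P 0 := om_mk_zero (σ := σ) (0 : R) ▸ h 0 0
  exact TensorProduct.induction_on (motive := fun t : R ⊗[ℂ] La σ => P t) x h0 h ha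

end mk

omit [Fintype σ] in
theorem om_e (s : σ) :
    (e s : Om R σ) = om_mk 1 (ExteriorAlgebra.ι ℂ (Pi.single s (1 : ℂ) : σ → ℂ)) := rfl

theorem om_pi (m : σ → ℂ) : m = ∑ s, m s • (Pi.single s (1 : ℂ) : σ → ℂ) := by
  funext t
  simp [Finset.sum_apply, Pi.single_apply]

theorem om_mk_i (r : R) (m : σ → ℂ) (l : La σ) :
    om_mk r (ExteriorAlgebra.ι ℂ m * l) = ∑ s, e s * om_mk (m s • r) l := by
  conv_lhs => rw [om_pi m, map_sum, Finset.sum_mul]
  refine (TensorProduct.tmul_sum r _ _).trans (Finset.sum_congr rfl fun s _ => ?_)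
  rw [om_e, om_mk_mul, one_mul, ← om_mk_smul, map_smul, smul_mul_assoc]
  rfl

omit [Fintype σ] [DecidableEq σ] in
theorem of_comm (r : R) (x : Om R σ) : of r * x = x * of r := by
  induction x using om_ind with
  | h r' l => rw [om_of, om_mk_mul, om_mk_mul, mul_comm, one_mul, mul_one]
  | ha x y hx hy => rw [mul_add, add_mul, hx, hy]

omit [Fintype σ] [DecidableEq σ] in
theorem sg_of (r : R) : sg (of r : Om R σ) = of r := by
  rw [om_of, om_sg_mk, map_one]

omit [Fintype σ] in
theorem sg_e (s : σ) : sg (e s : Om R σ) = -e s := by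
  rw [om_e, om_sg_mk, CliffordAlgebra.involute_ι, om_mk_neg]

omit [Fintype σ] [DecidableEq σ] in
theorem sg_sg (x : Om R σ) : sg (sg x) = x := by
  induction x using om_ind with
  | h r l => rw [om_sg_mk, om_sg_mk, CliffordAlgebra.involute_involute]
  | ha x y hx hy => rw [map_add, map_add, hx, hy]

omit [Fintype σ] in
theorem e_mul_e (s : σ) : (e s : Om R σ) * e s = 0 := by
  rw [om_e, om_mk_mul, ExteriorAlgebra.ι_sq_zero, om_mk_zero]

omit [Fintype σ] in
theorem e_mul (s : σ) (x : Om R σ) : e s * x = sg x * e s := by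
  induction x using om_ind with
  | h r l => rw [om_e, om_sg_mk, om_mk_mul, om_mk_mul, om_la_i_mul, mul_comm]
  | ha x y hx hy => rw [mul_add, map_add, add_mul, hx, hy]

/-- Induction on generators. -/
theorem ind {P : Om R σ → Prop} (h0 : ∀ r, P (of r)) (h1 : ∀ s, P (e s))
    (ha : ∀ x y, P x → P y → P (x + y)) (hm : ∀ x y, P x → P y → P (x * y)) (x : Om R σ) :
    P x := by
  have h2 : P 0 := by simpa using h0 0
  induction x using om_ind with
  | ha x y hx hy => exact ha _ _ hx hy
  | h r l =>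
    induction l using CliffordAlgebra.left_induction generalizing r with
    | algebraMap a =>
      rw [Algebra.algebraMap_eq_smul_one, om_mk_smul]
      exact h0 _
    | add x y hx hy =>
      rw [om_mk_add]
      exact ha _ _ (hx r) (hy r)
    | ι_mul x m hx =>
      rw [om_mk_i]
      exact Finset.sum_induction _ P ha h2 fun s _ => hm _ _ (h1 s) (hx _)

/-- Induction on words. -/
theorem ind_left {P : Om R σ → Prop} (h0 : ∀ r, P (of r)) (ha : ∀ x y, P x → P y → P (x + y))
    (hm : ∀ s x, P x → P (e s * x)) (x : Om R σ) : P x := by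
  have h2 : P 0 := by simpa using h0 0
  induction x using om_ind with
  | ha x y hx hy => exact ha _ _ hx hy
  | h r l =>
    induction l using CliffordAlgebra.left_induction generalizing r with
    | algebraMap a =>
      rw [Algebra.algebraMap_eq_smul_one, om_mk_smul]
      exact h0 _
    | add x y hx hy =>
      rw [om_mk_add]
      exact ha _ _ (hx r) (hy r)
    | ι_mul x m hx =>
      rw [om_mk_i]
      exact Finset.sum_induction _ P ha h2 fun s _ => hm _ _ (hx _)

theorem hom_ext {𝒞 : Type} [Ring 𝒞] {f g : Om R σ →+* 𝒞} (h0 : ∀ r, f (of r) = g (of r))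
    (h1 : ∀ s, f (e s) = g (e s)) : f = g := by
  ext x
  induction x using ind with
  | h0 r => exact h0 r
  | h1 s => exact h1 s
  | ha x y hx hy => rw [map_add, map_add, hx, hy]
  | hm x y hx hy => rw [map_mul, map_mul, hx, hy]

/-- Twisted derivations are determined by their values on generators. -/
theorem der_ext {𝒞 : Type} [Ring 𝒞] (τ ρ : Om R σ → 𝒞) (T T' : Om R σ →+ 𝒞)
    (h : ∀ x y, T (x * y) = T x * ρ y + τ x * T y)
    (h' : ∀ x y, T' (x * y) = T' x * ρ y + τ x * T' y)
    (h0 : ∀ r, T (of r) = T' (of r)) (h1 : ∀ s, T (e s) = T' (e s)) (x : Om R σ) :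
    T x = T' x := by
  induction x using ind with
  | h0 r => exact h0 r
  | h1 s => exact h1 s
  | ha x y hx hy => rw [map_add, map_add, hx, hy]
  | hm x y hx hy => rw [h, h', hx, hy]

/-- The universal property. -/
theorem exists_lift {𝒞 : Type} [Ring 𝒞] [Algebra ℂ 𝒞] (g : R →ₐ[ℂ] 𝒞) (u : σ → 𝒞)
    (hc : ∀ r s, g r * u s = u s * g r) (h1 : ∀ s, u s * u s = 0)
    (h2 : ∀ s t, u s * u t + u t * u s = 0) :
    ∃ Φ : Om R σ →ₐ[ℂ] 𝒞, (∀ r, Φ (of r) = g r) ∧ ∀ s, Φ (e s) = u s := by
  let f : (σ → ℂ) →ₗ[ℂ] 𝒞 := Fintype.linearCombination ℂ u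
  have hf : ∀ m, f m * f m = 0 := by
    intro m
    apply SD.half
    have e1 : f m * f m = ∑ s, ∑ t, (m s * m t) • (u s * u t) := by
      simp only [f, Fintype.linearCombination_apply, Finset.sum_mul_sum, smul_mul_smul_comm]
    have e2 : f m * f m = ∑ s, ∑ t, (m s * m t) • (u t * u s) := by
      rw [e1, Finset.sum_comm]
      simp only [mul_comm (m _) (m _)]
    nth_rewrite 1 [e1]
    rw [e2, ← Finset.sum_add_distrib]
    refine Finset.sum_eq_zero fun s _ => ?_
    rw [← Finset.sum_add_distrib]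
    refine Finset.sum_eq_zero fun t _ => ?_
    rw [← smul_add, h2, smul_zero]
  let Λ : La σ →ₐ[ℂ] 𝒞 := ExteriorAlgebra.lift ℂ ⟨f, hf⟩
  have hΛ : ∀ m, Λ (ExteriorAlgebra.ι ℂ m) = f m := fun m => ExteriorAlgebra.lift_ι_apply ℂ f hf m
  have hcm : ∀ r l, Commute (g r) (Λ l) := by
    intro r l
    induction l using ExteriorAlgebra.induction with
    | algebraMap a =>
      rw [AlgHom.commutes]
      exact (Algebra.commutes a _).symm
    | ι m =>
      rw [hΛ, Fintype.linearCombination_apply]
      exact Commute.sum_right _ _ _ fun s _ => Commute.smul_right (hc r s) _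
    | mul a b ha hb =>
      rw [map_mul]
      exact ha.mul_right hb
    | add a b ha hb =>
      rw [map_add]
      exact ha.add_right hb
  refine ⟨(Algebra.TensorProduct.lift g Λ hcm : R ⊗[ℂ] La σ →ₐ[ℂ] 𝒞), fun r => ?_, fun s => ?_⟩
  · refine (Algebra.TensorProduct.lift_tmul g Λ hcm r 1).trans ?_
    rw [map_one, mul_one]
  · refine (Algebra.TensorProduct.lift_tmul g Λ hcm 1 _).trans ?_
    rw [map_one, one_mul, hΛ, Fintype.linearCombination_apply_single, one_smul]

theorem comm_even (x y : Om R σ) (h : sg x = x) : x * y = y * x := by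
  induction y using ind with
  | h0 r => exact (of_comm r x).symm
  | h1 s => rw [e_mul, h]
  | ha y z hy hz => rw [mul_add, add_mul, hy, hz]
  | hm y z hy hz => rw [← mul_assoc, hy, mul_assoc, hz, mul_assoc]

theorem comm_odd (x y : Om R σ) (h : sg x = -x) : x * y = sg y * x := by
  induction y using ind with
  | h0 r => rw [sg_of, of_comm]
  | h1 s => rw [sg_e, neg_mul, e_mul, h, neg_mul, neg_neg]
  | ha y z hy hz => rw [mul_add, map_add, add_mul, hy, hz]
  | hm y z hy hz => rw [← mul_assoc, hy, mul_assoc, hz, map_mul, mul_assoc]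

omit [Fintype σ] [DecidableEq σ] in
theorem c_of (s : σ) (r : R) : c s (of r : Om R σ) = 0 := by
  rw [om_of, om_c_mk, CliffordAlgebra.contractLeft_one, om_mk_zero]

omit [Fintype σ] in
theorem c_e (s t : σ) : c s (e t : Om R σ) = if s = t then 1 else 0 := by
  rw [om_e, om_c_mk, CliffordAlgebra.contractLeft_ι, LinearMap.proj_apply, Pi.single_apply]
  split_ifs
  · rw [map_one, om_mk_one]
  · rw [map_zero, om_mk_zero]

omit [Fintype σ] [DecidableEq σ] in
theorem c_mul (s : σ) (x y : Om R σ) : c s (x * y) = c s x * y + sg x * c s y := by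
  induction x using om_ind with
  | ha x z hx hz =>
    rw [add_mul, map_add, hx, hz, map_add, map_add, add_mul, add_mul]
    abel
  | h r l =>
    induction y using om_ind with
    | ha y z hy hz =>
      rw [mul_add, map_add, hy, hz, map_add, mul_add, mul_add]
      abel
    | h r' l' =>
      rw [om_mk_mul, om_c_mk, om_c_mk, om_c_mk, om_sg_mk, om_mk_mul, om_mk_mul, om_la_c_mul,
        om_mk_add]

omit [Fintype σ] [DecidableEq σ] in
theorem c_of_mul (s : σ) (r : R) (x : Om R σ) : c s (of r * x) = of r * c s x := by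
  rw [c_mul, c_of, zero_mul, zero_add, sg_of]

omit [Fintype σ] in
theorem c_e_mul (s t : σ) (x : Om R σ) :
    c s (e t * x) = (if s = t then x else 0) - e t * c s x := by
  rw [c_mul, c_e, sg_e, neg_mul, ← sub_eq_add_neg, ite_mul, one_mul, zero_mul]

omit [Fintype σ] [DecidableEq σ] in
theorem c_c (s t : σ) (x : Om R σ) : c s (c t x) = -c t (c s x) := by
  induction x using om_ind with
  | h r l =>
    rw [om_c_mk, om_c_mk, om_c_mk, om_c_mk, CliffordAlgebra.contractLeft_comm, om_mk_neg]
  | ha x y hx hy => rw [map_add, map_add, hx, hy, map_add, map_add, neg_add]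

omit [Fintype σ] [DecidableEq σ] in
theorem c_c_self (s : σ) (x : Om R σ) : c s (c s x) = 0 := by
  exact SD.half (eq_neg_iff_add_eq_zero.1 (c_c s s x))

omit [Fintype σ] [DecidableEq σ] in
theorem sg_c (s : σ) (x : Om R σ) : sg (c s x) = -c s (sg x) := by
  induction x using om_ind with
  | h r l => rw [om_c_mk, om_sg_mk, om_sg_mk, om_c_mk, om_la_sg_c, om_mk_neg]
  | ha x y hx hy => rw [map_add, map_add, hx, hy, map_add, map_add, neg_add]

omit [Fintype σ] [DecidableEq σ] in
theorem lie_of (D : Derivation ℂ R R) (r : R) : lie D (of r : Om R σ) = of (D r) := by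
  rfl

omit [Fintype σ] in
theorem lie_e (D : Derivation ℂ R R) (s : σ) : lie D (e s : Om R σ) = 0 := by
  rw [om_e, om_lie_mk, D.map_one_eq_zero, om_zero_mk]

omit [Fintype σ] [DecidableEq σ] in
theorem lie_mul (D : Derivation ℂ R R) (x y : Om R σ) :
    lie D (x * y) = lie D x * y + x * lie D y := by
  induction x using om_ind with
  | ha x z hx hz =>
    rw [add_mul, map_add, hx, hz, map_add, add_mul, add_mul]
    abel
  | h r l =>
    induction y using om_ind with
    | ha y z hy hz =>
      rw [mul_add, map_add, hy, hz, map_add, mul_add, mul_add]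
      abel
    | h r' l' =>
      rw [om_mk_mul, om_lie_mk, om_lie_mk, om_lie_mk, om_mk_mul, om_mk_mul, D.leibniz,
        om_add_mk, smul_eq_mul, smul_eq_mul, add_comm, mul_comm r']

omit [Fintype σ] [DecidableEq σ] in
theorem lie_c (D : Derivation ℂ R R) (s : σ) (x : Om R σ) : lie D (c s x) = c s (lie D x) := by
  induction x using om_ind with
  | h r l => rfl
  | ha x y hx hy => rw [map_add, map_add, hx, hy, map_add, map_add]

omit [Fintype σ] [DecidableEq σ] in
theorem lie_sg (D : Derivation ℂ R R) (x : Om R σ) : lie D (sg x) = sg (lie D x) := by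
  induction x using om_ind with
  | h r l => rfl
  | ha x y hx hy => rw [map_add, map_add, hx, hy, map_add, map_add]

omit [Fintype σ] [DecidableEq σ] in
theorem lie_lie {D D' : Derivation ℂ R R} (h : ∀ r, D (D' r) = D' (D r)) (x : Om R σ) :
    lie D (lie D' x) = lie D' (lie D x) := by
  induction x using om_ind with
  | h r l => rw [om_lie_mk, om_lie_mk, om_lie_mk, om_lie_mk, h]
  | ha x y hx hy => rw [map_add, map_add, hx, hy, map_add, map_add]

theorem dO_of (P : σ → Derivation ℂ R R) (r : R) : dO P (of r) = ∑ s, of (P s r) * e s := by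
  rw [dO_apply]
  exact Finset.sum_congr rfl fun s _ => by rw [lie_of, of_comm]

theorem dO_e (P : σ → Derivation ℂ R R) (s : σ) : dO P (e s) = 0 := by
  rw [dO_apply]
  exact Finset.sum_eq_zero fun t _ => by rw [lie_e, mul_zero]

theorem dO_mul (P : σ → Derivation ℂ R R) (x y : Om R σ) :
    dO P (x * y) = dO P x * y + sg x * dO P y := by
  rw [dO_apply, dO_apply, dO_apply, Finset.sum_mul, Finset.mul_sum, ← Finset.sum_add_distrib]
  refine Finset.sum_congr rfl fun s _ => ?_
  rw [lie_mul, mul_add, ← mul_assoc, ← mul_assoc, e_mul s x, mul_assoc (sg x)]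

theorem sg_dO (P : σ → Derivation ℂ R R) (x : Om R σ) : sg (dO P x) = -dO P (sg x) := by
  rw [dO_apply, dO_apply, map_sum, ← Finset.sum_neg_distrib]
  refine Finset.sum_congr rfl fun s _ => ?_
  rw [map_mul, sg_e, neg_mul, lie_sg]

theorem dO_dO {P : σ → Derivation ℂ R R} (h : ∀ s t r, P s (P t r) = P t (P s r)) (x : Om R σ) :
    dO P (dO P x) = 0 := by
  have e1 : dO P (dO P x) = ∑ s, ∑ t, e s * (e t * lie (P s) (lie (P t) x)) := by
    rw [dO_apply]
    refine Finset.sum_congr rfl fun s _ => ?_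
    rw [dO_apply, map_sum, Finset.mul_sum]
    refine Finset.sum_congr rfl fun t _ => ?_
    rw [lie_mul, lie_e, zero_mul, zero_add]
  have e2 : dO P (dO P x) = ∑ s, ∑ t, e t * (e s * lie (P s) (lie (P t) x)) := by
    rw [e1, Finset.sum_comm]
    refine Finset.sum_congr rfl fun s _ => Finset.sum_congr rfl fun t _ => ?_
    rw [lie_lie (h t s)]
  apply SD.half
  nth_rewrite 1 [e1]
  rw [e2, ← Finset.sum_add_distrib]
  refine Finset.sum_eq_zero fun s _ => ?_
  rw [← Finset.sum_add_distrib]
  refine Finset.sum_eq_zero fun t _ => ?_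
  rw [← mul_assoc, ← mul_assoc, ← add_mul, e_mul s, sg_e, neg_mul, neg_add_cancel, zero_mul]

/-- The differential algebra of a commuting family of derivations. -/
noncomputable def sd (P : σ → Derivation ℂ R R) (h : ∀ s t r, P s (P t r) = P t (P s r)) :
    SD (Om R σ) where
  σ := sg
  d := dO P
  σσ := sg_sg
  d_mul := dO_mul P
  d_d := dO_dO h
  σ_d := sg_dO P
  comm_even := comm_even
  comm_odd := comm_odd

end Om

end Pool.Agent.Lib.MP_e9c0f3_ag.DR
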