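import Pool.Agent.Lib.MP_e9c0f3_ag.DR.Om

/-! Cartan calculus, regularity and functoriality of forms. -/

open TensorProduct

namespace Pool.Agent.Lib.MP_e9c0f3_ag.DR

namespace Om

variable {R R' σ σ' : Type} [CommRing R] [Algebra ℂ R] [CommRing R'] [Algebra ℂ R']
variable [Fintype σ] [DecidableEq σ]

theorem c_dO (P : σ → Derivation ℂ R R) (s : σ) (x : Om R σ) :
    c s (dO P x) + dO P (c s x) = lie (P s) x := by
  simp only [dO_apply, map_sum, c_e_mul, lie_c, ← Finset.sum_add_distrib, sub_add_cancel]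
  simp

theorem lie_dO {P : σ → Derivation ℂ R R} {D : Derivation ℂ R R} (h : ∀ s r, D (P s r) = P s (D r))
    (x : Om R σ) : lie D (dO P x) = dO P (lie D x) := by
  simp only [dO_apply, map_sum, lie_mul, lie_e, zero_mul, zero_add]
  exact Finset.sum_congr rfl fun s _ => by rw [lie_lie (h s)]

theorem io_of (v : σ → R) (r : R) : io v (of r) = 0 := by
  simp [io_apply, c_of]

theorem io_e (v : σ → R) (s : σ) : io v (e s) = of (v s) := by
  simp [io_apply, c_e]

theorem io_mul (v : σ → R) (x y : Om R σ) : io v (x * y) = io v x * y + sg x * io v y := by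
  simp only [io_apply, c_mul, mul_add, Finset.sum_add_distrib, Finset.sum_mul, Finset.mul_sum,
    mul_assoc]
  congr 1
  exact Finset.sum_congr rfl fun s _ => by rw [← mul_assoc, of_comm, mul_assoc]

theorem io_of_mul (v : σ → R) (r : R) (x : Om R σ) : io v (of r * x) = of r * io v x := by
  rw [io_mul, io_of, zero_mul, zero_add, sg_of]

theorem io_io (v : σ → R) (x : Om R σ) : io v (io v x) = 0 := by
  have h : io v (io v x) = ∑ s, ∑ t, of (v s * v t) * c s (c t x) := by
    rw [io_apply]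
    refine Finset.sum_congr rfl fun s _ => ?_
    rw [io_apply, map_sum, Finset.mul_sum]
    exact Finset.sum_congr rfl fun t _ => by rw [c_of_mul, map_mul, mul_assoc]
  refine SD.half ?_
  nth_rewrite 1 [h, Finset.sum_comm]
  rw [h, ← Finset.sum_add_distrib]
  refine Finset.sum_eq_zero fun s _ => ?_
  rw [← Finset.sum_add_distrib]
  exact Finset.sum_eq_zero fun t _ => by rw [c_c t s, mul_comm (v t), mul_neg, neg_add_cancel]

theorem sg_io (v : σ → R) (x : Om R σ) : sg (io v x) = -io v (sg x) := by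
  simp only [io_apply, map_sum, map_mul, sg_of, sg_c, mul_neg, Finset.sum_neg_distrib]

theorem io_dO_of (v : σ → R) (P : σ → Derivation ℂ R R) (r : R) :
    io v (dO P (of r)) = of (∑ s, v s * P s r) := by
  rw [dO_of, map_sum, map_sum]
  exact Finset.sum_congr rfl fun s _ => by rw [io_of_mul, io_e, ← map_mul, mul_comm]

/-- A non-zero-divisor on functions is a non-zero-divisor on forms. -/
theorem of_mul_eq_zero {r : R} (hr : r ∈ nonZeroDivisors R) {x : Om R σ} (h : of r * x = 0) :
    x = 0 := by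
  have hi : Function.Injective (LinearMap.mulLeft ℂ r) :=
    (injective_iff_map_eq_zero _).2 fun a ha => (mem_nonZeroDivisors_iff.1 hr).1 a ha
  have e : ∀ y : R ⊗[ℂ] La σ, LinearMap.rTensor (La σ) (LinearMap.mulLeft ℂ r) y =
      (r ⊗ₜ[ℂ] (1 : La σ)) * y := fun y => by
    induction y with
    | zero => simp
    | tmul a l => simp
    | add a b ha hb => rw [map_add, mul_add, ha, hb]
  exact (injective_iff_map_eq_zero _).1
    (Module.Flat.rTensor_preserves_injective_linearMap (M := La σ) _ hi) x ((e x).trans h)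

omit [Fintype σ] [DecidableEq σ] in
theorem of_injective : Function.Injective (of : R → Om R σ) := by
  exact Algebra.TensorProduct.includeLeft_injective (S := ℂ)
    (ExteriorAlgebra.algebraMap_leftInverse (σ → ℂ)).injective

omit [Fintype σ] [DecidableEq σ] in
theorem mp_of (g : R →ₐ[ℂ] R') (u : (σ → ℂ) →ₗ[ℂ] (σ' → ℂ)) (r : R) :
    mp g u (of r) = of (g r) := by
  change Algebra.TensorProduct.map g (ExteriorAlgebra.map u) (r ⊗ₜ[ℂ] (1 : La σ)) =
    g r ⊗ₜ[ℂ] (1 : La σ')
  rw [Algebra.TensorProduct.map_tmul, map_one]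

omit [Fintype σ] [DecidableEq σ] in
theorem mp_sg (g : R →ₐ[ℂ] R') (u : (σ → ℂ) →ₗ[ℂ] (σ' → ℂ)) (x : Om R σ) :
    mp g u (sg x) = sg (mp g u x) := by
  have e : (ExteriorAlgebra.map u).comp CliffordAlgebra.involute =
      CliffordAlgebra.involute.comp (ExteriorAlgebra.map u) := by
    refine ExteriorAlgebra.hom_ext (LinearMap.ext fun m => ?_)
    change ExteriorAlgebra.map u (CliffordAlgebra.involute (CliffordAlgebra.ι _ m)) =
      CliffordAlgebra.involute (ExteriorAlgebra.map u (ExteriorAlgebra.ι ℂ m))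
    rw [CliffordAlgebra.involute_ι, map_neg, ExteriorAlgebra.map_apply_ι]
    exact (CliffordAlgebra.involute_ι _).symm
  change ((Algebra.TensorProduct.map g (ExteriorAlgebra.map u)).comp
    (Algebra.TensorProduct.map (AlgHom.id ℂ R) CliffordAlgebra.involute)) x =
    ((Algebra.TensorProduct.map (AlgHom.id ℂ R') CliffordAlgebra.involute).comp
      (Algebra.TensorProduct.map g (ExteriorAlgebra.map u))) x
  rw [← Algebra.TensorProduct.map_comp, ← Algebra.TensorProduct.map_comp, e, AlgHom.comp_id,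
    AlgHom.id_comp]

omit [Fintype σ] in
theorem om2_mp_e (g : R →ₐ[ℂ] R') (u : (σ → ℂ) →ₗ[ℂ] (σ' → ℂ)) (s : σ) :
    mp g u (e s) = ((1 : R') ⊗ₜ[ℂ] ExteriorAlgebra.ι ℂ (u (Pi.single s 1)) : R' ⊗[ℂ] La σ') := by
  change Algebra.TensorProduct.map g (ExteriorAlgebra.map u) (_ ⊗ₜ[ℂ] _) = _
  rw [Algebra.TensorProduct.map_tmul, map_one, ExteriorAlgebra.map_apply_ι]

omit [Fintype σ] [DecidableEq σ] in
theorem om2_mp_lie (g : R →ₐ[ℂ] R') (u : (σ → ℂ) →ₗ[ℂ] (σ' → ℂ)) {D : Derivation ℂ R R}
    {D' : Derivation ℂ R' R'} (h : ∀ r, g (D r) = D' (g r)) (x : Om R σ) :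
    mp g u (lie D x) = lie D' (mp g u x) := by
  change Algebra.TensorProduct.map g (ExteriorAlgebra.map u)
      (LinearMap.rTensor (La σ) (D : R →ₗ[ℂ] R) x) =
    LinearMap.rTensor (La σ') (D' : R' →ₗ[ℂ] R')
      (Algebra.TensorProduct.map g (ExteriorAlgebra.map u) x)
  induction x using TensorProduct.induction_on with
  | zero => simp
  | tmul a l => simp [h]
  | add a b ha hb => simp only [map_add, ha, hb]

omit [Fintype σ] [DecidableEq σ] in
theorem mapc_of (g : R →ₐ[ℂ] R') (r : R) : mapc g (of r : Om R σ) = of (g r) := mp_of _ _ _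

omit [Fintype σ] in
theorem mapc_e (g : R →ₐ[ℂ] R') (s : σ) : mapc g (e s : Om R σ) = e s := by
  rw [mapc, om2_mp_e]
  rfl

theorem mapc_dO (g : R →ₐ[ℂ] R') {P : σ → Derivation ℂ R R} {P' : σ → Derivation ℂ R' R'}
    (h : ∀ s r, g (P s r) = P' s (g r)) (x : Om R σ) : mapc g (dO P x) = dO P' (mapc g x) := by
  simp only [dO_apply, map_sum, map_mul, mapc_e]
  exact Finset.sum_congr rfl fun s _ => by rw [mapc, om2_mp_lie g _ (h s)]

omit [Fintype σ] [DecidableEq σ] in
theorem ev0_of (r : R) : ev0 (of r : Om R (Option σ)) = of r := mp_of _ _ _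

omit [Fintype σ] in
theorem ev0_some (s : σ) : ev0 (e (some s) : Om R (Option σ)) = e s := by
  rw [ev0, om2_mp_e]
  have : LinearMap.funLeft ℂ ℂ some (Pi.single (some s) (1 : ℂ) : Option σ → ℂ) =
      Pi.single s 1 := by
    ext t
    simp [Pi.single_apply]
  rw [this]
  rfl

omit [Fintype σ] in
theorem ev0_none : ev0 (e none : Om R (Option σ)) = 0 := by
  rw [ev0, om2_mp_e]
  have : LinearMap.funLeft ℂ ℂ some (Pi.single none (1 : ℂ) : Option σ → ℂ) = 0 := by
    ext t
    simp
  rw [this, map_zero]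
  exact TensorProduct.tmul_zero _ _

theorem ev0_surjective : Function.Surjective (ev0 : Om R (Option σ) → Om R σ) := by
  intro x
  induction x using ind with
  | h0 r => exact ⟨_, ev0_of r⟩
  | h1 s => exact ⟨_, ev0_some s⟩
  | ha x y hx hy =>
    obtain ⟨a, rfl⟩ := hx
    obtain ⟨b, rfl⟩ := hy
    exact ⟨a + b, map_add _ _ _⟩
  | hm x y hx hy =>
    obtain ⟨a, rfl⟩ := hx
    obtain ⟨b, rfl⟩ := hy
    exact ⟨a * b, map_mul _ _ _⟩

theorem ev0_dO (P : Option σ → Derivation ℂ R R) (x : Om R (Option σ)) :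
    ev0 (dO P x) = dO (fun s => P (some s)) (ev0 x) := by
  simp only [dO_apply, Fintype.sum_option, map_add, map_sum, map_mul, ev0_none, ev0_some, zero_mul,
    zero_add]
  exact Finset.sum_congr rfl fun s _ => by rw [ev0, om2_mp_lie _ _ fun _ => rfl]

omit [Fintype σ] [DecidableEq σ] in
theorem ev0_lie (D : Derivation ℂ R R) (x : Om R (Option σ)) : ev0 (lie D x) = lie D (ev0 x) := by
  exact om2_mp_lie _ _ (fun _ => rfl) x

end Om

end Pool.Agent.Lib.MP_e9c0f3_ag.DR
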