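import Mathlib

/-! Nonzero rational constants. -/

namespace Pool.Agent.Lib.MP_e9c0f3_ag.DR

/-- A nonzero rational number. -/
def IsQ (t : ℂ) : Prop := t ≠ 0 ∧ ∃ q : ℚ, t = q

theorem isQ_one : IsQ 1 := ⟨one_ne_zero, 1, by simp⟩

theorem IsQ.neg {t : ℂ} (h : IsQ t) : IsQ (-t) := by
  obtain ⟨h, q, rfl⟩ := h
  exact ⟨neg_ne_zero.2 h, -q, by simp⟩

theorem IsQ.mul {t u : ℂ} (h : IsQ t) (h' : IsQ u) : IsQ (t * u) := by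
  obtain ⟨h, q, rfl⟩ := h
  obtain ⟨h', r, rfl⟩ := h'
  exact ⟨mul_ne_zero h h', q * r, by simp⟩

theorem IsQ.inv {t : ℂ} (h : IsQ t) : IsQ t⁻¹ := by
  obtain ⟨h, q, rfl⟩ := h
  exact ⟨inv_ne_zero h, q⁻¹, by simp⟩

theorem IsQ.pow {t : ℂ} (h : IsQ t) (n : ℕ) : IsQ (t ^ n) := by
  obtain ⟨h, q, rfl⟩ := h
  exact ⟨pow_ne_zero _ h, q ^ n, by simp⟩

theorem isQ_nat {n : ℕ} (h : n ≠ 0) : IsQ n := ⟨Nat.cast_ne_zero.2 h, n, by simp⟩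

end Pool.Agent.Lib.MP_e9c0f3_ag.DR
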