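import Pool.Agent.Lib.MP_e9c0f3_ag.DR.KT2

/-! Reduction of forms on `∑ x y = 1` to forms in `x`. -/

open MvPolynomial Sum

namespace Pool.Agent.Lib.MP_e9c0f3_ag.DR

open Om

variable {N : ℕ} {A : Type} [CommRing A] [Algebra ℂ A] [IsDomain A]

section aux

omit [IsDomain A]

/-- Scaling by a function of the weight in `y`. -/
theorem red_scale (g : ℤ → ℂ) : ∃ T : OO N A →ₗ[ℂ] OO N A, ∀ (w : ℤ) (x : OO N A),
    x ∈ Sp N A (fun _ b _ q => b + q = w) → T x = g w • x := by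
  obtain ⟨Φ, hΦ⟩ := gr_exists_co (N := N) (A := A)
  obtain ⟨T, hT⟩ : ∃ T : OO N A →ₗ[ℂ] OO N A,
      ∀ t m l, T (wd t m l) = g (db m + dq l) • wd t m l := by
    refine ⟨Finsupp.lsum ℂ (fun d : ℤ × ℤ × ℤ × ℤ =>
        g (d.2.1 + d.2.2.2) • (LinearMap.id : OO N A →ₗ[ℂ] OO N A)) ∘ₗ
      (AddMonoidAlgebra.coeffLinearEquiv ℂ).toLinearMap ∘ₗ Φ.toLinearMap, fun t m l => ?_⟩
    have h : (AddMonoidAlgebra.coeffLinearEquiv ℂ) (Φ (wd t m l)) =
        Finsupp.single (da m, db m, dp l, dq l) (wd t m l) := by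
      rw [hΦ]
      rfl
    simp only [LinearMap.comp_apply, AlgHom.toLinearMap_apply, LinearEquiv.coe_coe, h,
      Finsupp.lsum_single]
    rfl
  refine ⟨T, fun w x hx => ?_⟩
  refine gr2_ind (P := fun x => T x = g w • x) hx ?_ ?_ ?_
  · rw [map_zero, smul_zero]
  · intro x y hx hy
    rw [map_add, hx, hy, smul_add]
  · intro t m l h
    rw [hT, h]

theorem red_iw_mul (x y : OO N A) : iw (x * y) = iw x * y + sg x * iw y := io_mul _ x y

theorem red_iw_of_mul (r : RR N A) (x : OO N A) : iw (of r * x) = of r * iw x := io_of_mul _ r x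

theorem red_iw_pa (F : Pol N A) {w : ℤ} {x : OO N A}
    (h : x ∈ Sp N A fun _ b _ q => b + q = w) : iw (pa F x) = (w : ℂ) • x - pa F (iw x) := by
  have h1 := eu_w h
  have h2 : iw (dx (xo F) * x) = -(dx (xo F) * iw x) := by
    rw [red_iw_mul, iw_dxo, zero_mul, zero_add, xo, sg_dof, neg_mul]
  rw [pa_apply, pa_apply, map_add, h2, Int.cast_smul_eq_zsmul, ← h1]
  abel

theorem red_iw_df (x : OO N A) :
    iw (dx (of (ff N A)) * x) = of (ff N A) * x - dx (of (ff N A)) * iw x := by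
  rw [red_iw_mul, iw_dff, sg_dof, neg_mul, sub_eq_add_neg]

theorem red_pa_wt {F : Pol N A} {d : ℕ} (hF : F.IsHomogeneous d) {Q : ℤ → Prop} {x : OO N A}
    (h : x ∈ Sp N A fun _ b _ q => Q (b + q)) : pa F x ∈ Sp N A fun _ b _ q => Q (b + q) := by
  refine pa_mem hF h fun a b p q h => ⟨h, ?_, h⟩
  rwa [show b - 1 + (q + 1) = b + q by ring]

theorem red_df_wt {w : ℤ} {x : OO N A} (h : x ∈ Sp N A fun _ b _ q => b + q = w) :
    dx (of (ff N A)) * x ∈ Sp N A fun _ b _ q => b + q = w + 1 := by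
  refine Sp_mul dff_mem h ?_
  rintro a b p q a' b' p' q' (⟨-, rfl, -, rfl⟩ | ⟨-, rfl, -, rfl⟩) h <;> omega

theorem red_f_wt {w : ℤ} {x : OO N A} (h : x ∈ Sp N A fun _ b _ q => b + q = w) :
    of (ff N A) * x ∈ Sp N A fun _ b _ q => b + q = w + 1 := by
  refine Sp_mul ff_mem h ?_
  rintro a b p q a' b' p' q' ⟨-, rfl, -, rfl⟩ h
  omega

theorem red_df_II (x : OO N A) : dx (of (ff N A)) * x ∈ II N A :=
  mem_II.2 ⟨0, x, by rw [mul_zero, zero_add]⟩

theorem red_f_II (x : OO N A) : of (ff N A) * x - x ∈ II N A :=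
  mem_II.2 ⟨x, 0, by rw [mul_zero, add_zero, sub_mul, one_mul]⟩

/-- The part of weight zero of a twisted coboundary. -/
theorem red_cut_zero {F : Pol N A} {d : ℕ} (hF : F.IsHomogeneous d) (x : OO N A) :
    cut (fun _ b _ q => b + q = 0) (pa F x + dx (of (ff N A)) * x) =
      pa F (cut (fun _ b _ q => b + q = 0) x) := by
  have h1 : cut (fun _ b _ q => b + q = 0) (pa F x) = pa F (cut (fun _ b _ q => b + q = 0) x) :=
    cut_comm (pa F).toAddMonoidHom (fun y hy => red_pa_wt hF (Q := fun w => w = 0) hy)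
      (fun y hy => red_pa_wt hF (Q := fun w => ¬w = 0) hy) x
  have h2 : x ∈ Sp N A fun _ b _ q => 0 ≤ b + q :=
    Sp_mono (Sp_top x) fun a b p q _ hb _ _ _ _ _ => add_nonneg hb (Int.natCast_nonneg _)
  have h3 : dx (of (ff N A)) * x ∈ Sp N A fun _ b _ q => ¬b + q = 0 := by
    refine Sp_mul dff_mem h2 ?_
    rintro a b p q a' b' p' q' (⟨-, rfl, -, rfl⟩ | ⟨-, rfl, -, rfl⟩) h <;> omega
  rw [map_add, h1, cut_of_not h3, add_zero]

/-- The homotopy from the twisted complex to forms on `∑ x y = 1`. -/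
theorem red_theta {F : Pol N A} {d : ℕ} (hF : F.IsHomogeneous d) :
    ∃ Θ : OO N A →ₗ[ℂ] OO N A,
      (∀ w : ℤ, ∃ u : ℂ, u ≠ 0 ∧ ∀ x ∈ Sp N A fun _ b _ q => b + q = w, Θ x = u • iw x) ∧
      (∀ {S U : Dg} {x : OO N A}, x ∈ Sp N A S →
        (∀ a b p q, S a b p q → U a (b + 1) p (q - 1)) → Θ x ∈ Sp N A U) ∧
      ∀ x, Θ (pa F x + dx (of (ff N A)) * x) + pa F (Θ x) -
        cut (fun _ b _ q => b + q = 0) x ∈ II N A := by
  obtain ⟨g, hg0, hg1, hg⟩ : ∃ g : ℤ → ℂ, (∀ w, g w ≠ 0) ∧ g 1 = 1 ∧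
      ∀ w : ℤ, 1 ≤ w → g (w + 1) = -(w * g w) := by
    refine ⟨fun w => (-1) ^ (w - 1).toNat * ((w - 1).toNat.factorial : ℂ), fun w => ?_, by simp,
      fun w hw => ?_⟩
    · exact mul_ne_zero (pow_ne_zero _ (by norm_num))
        (Nat.cast_ne_zero.2 (Nat.factorial_ne_zero _))
    · obtain ⟨n, rfl⟩ : ∃ n : ℕ, w = n + 1 := ⟨(w - 1).toNat, by omega⟩
      have e1 : ((n : ℤ) + 1 + 1 - 1).toNat = n + 1 := by omega
      have e2 : ((n : ℤ) + 1 - 1).toNat = n := by omega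
      simp only [e1, e2, Nat.factorial_succ]
      push_cast
      ring
  obtain ⟨T, hT⟩ := red_scale (N := N) (A := A) g
  have hw : ∀ (t : A) (m : Fin N ⊕ Fin N →₀ ℕ) (l : List (Fin N ⊕ Fin N)),
      wd t m l ∈ Sp N A fun _ b _ q => b + q = db m + dq l := fun t m l => gr_wd_mem t rfl
  refine ⟨iw ∘ₗ T, fun w => ⟨g w, hg0 w, fun x hx => ?_⟩, fun {S U x} hx hU => ?_, fun x => ?_⟩
  · rw [LinearMap.comp_apply, hT w x hx, map_smul]
  · refine iw_mem (S := S) (gr2_map hx fun t m l h => ?_) hU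
    rw [hT _ _ (hw t m l)]
    exact Submodule.smul_mem _ _ (gr_wd_mem t h)
  · refine gr2_ind (P := fun x => (iw ∘ₗ T) (pa F x + dx (of (ff N A)) * x) +
      pa F ((iw ∘ₗ T) x) - cut (fun _ b _ q => b + q = 0) x ∈ II N A) (Sp_top x) ?_ ?_ ?_
    · simp only [map_zero, mul_zero, add_zero, sub_zero]
      exact zero_mem _
    · intro x y hx hy
      have := add_mem hx hy
      simp only [map_add, mul_add] at this ⊢
      convert this using 1
      abel
    · intro t m l _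
      have h0 : 0 ≤ db m + dq l := add_nonneg (gr_db_nonneg m) (Int.natCast_nonneg _)
      have h1 := hw t m l
      generalize db m + dq l = w at h0 h1
      generalize wd t m l = y at h1
      rw [LinearMap.comp_apply, LinearMap.comp_apply, map_add,
        hT _ _ (red_pa_wt hF (Q := fun v => v = w) h1), hT _ _ (red_df_wt h1), hT _ _ h1, map_add,
        map_smul, map_smul, map_smul, map_smul, red_iw_pa F h1, red_iw_df]
      have h2 : g (w + 1) • (of (ff N A) * y - y) - g (w + 1) • (dx (of (ff N A)) * iw y) ∈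
          II N A := sub_mem (smul_II _ (red_f_II y)) (smul_II _ (red_df_II _))
      have h3 : cut (fun _ b _ q => b + q = 0) y = ((w : ℂ) * g w + g (w + 1)) • y := by
        rcases h0.eq_or_lt with rfl | h0
        · rw [cut_of_mem h1, zero_add, hg1]
          simp
        · rw [hg w h0, add_neg_cancel, zero_smul]
          exact cut_of_not (gr_mono (fun a b p q h => by omega) h1)
      rw [h3]
      convert h2 using 1
      simp only [smul_sub, add_smul, mul_smul]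
      rw [smul_comm (g w) (w : ℂ) y]
      abel

theorem red_cut_pa {F : Pol N A} {d : ℕ} (hF : F.IsHomogeneous d) (n : ℤ) (x : OO N A) :
    cut (fun _ _ p q => p + q = n) (pa F x) = pa F (cut (fun _ _ p q => p + q = n - 1) x) := by
  refine cut_comm (pa F).toAddMonoidHom (fun y hy => pa_mem hF hy ?_)
    (fun y hy => pa_mem hF hy ?_) x
  · intro a b p q h
    omega
  · intro a b p q h
    omega

theorem red_pa_of_mul (F : Pol N A) (r : RR N A) (x : OO N A) :
    pa F (of r * x) = dx (of r) * x + of r * pa F x := by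
  rw [pa_apply, pa_apply, dx_of_mul, mul_add, ← mul_assoc, ← of_comm, mul_assoc, add_assoc]

theorem red_dx_pow (r : RR N A) (j : ℕ) :
    dx (of (r ^ (j + 1)) : OO N A) = ((j : ℂ) + 1) • (of (r ^ j) * dx (of r)) := by
  induction j with
  | zero => simp
  | succ j ih =>
    have h : dx (of (r ^ (j + 1)) * of r : OO N A) =
        dx (of (r ^ (j + 1))) * of r + of (r ^ (j + 1)) * dx (of r) := dx_of_mul _ _
    rw [pow_succ r (j + 1), map_mul (of : RR N A →ₐ[ℂ] OO N A), h, ih, smul_mul_assoc, mul_assoc,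
      ← of_comm r, ← mul_assoc, ← map_mul (of : RR N A →ₐ[ℂ] OO N A), ← pow_succ]
    push_cast
    rw [add_smul (_ + 1 : ℂ), one_smul]

theorem red_pow_wt {w : ℤ} {x : OO N A} (h : x ∈ Sp N A fun _ b _ q => b + q = w) (j : ℕ) :
    of (ff N A ^ j) * x ∈ Sp N A fun _ b _ q => b + q = w + j := by
  induction j with
  | zero => simpa using h
  | succ j ih =>
    rw [pow_succ', map_mul (of : RR N A →ₐ[ℂ] OO N A), mul_assoc]
    exact gr_mono (fun a b p q h => by push_cast; omega) (red_f_wt ih)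

theorem red_pow_II (x : OO N A) (j : ℕ) : of (ff N A ^ j) * x - x ∈ II N A := by
  induction j with
  | zero => simp
  | succ j ih =>
    rw [pow_succ', map_mul (of : RR N A →ₐ[ℂ] OO N A), mul_assoc]
    have := add_mem (red_f_II (of (ff N A ^ j) * x)) ih
    rwa [sub_add_sub_cancel] at this

/-- A closed form of weight zero extends to a twisted cocycle up to an error of high weight. -/
theorem red_extend {F : Pol N A} {V : OO N A} {S : ℤ → ℤ → Prop}
    (hV : V ∈ Sp N A fun _ b p q => b + q = 0 ∧ S p q) (h : pa F V = 0) (j : ℕ) :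
    ∃ G ∈ Sp N A fun _ _ p q => S p q, cut (fun _ b _ q => b + q = 0) G = V ∧ ∃ u : ℂ,
      pa F G + dx (of (ff N A)) * G = u • (of (ff N A ^ j) * (dx (of (ff N A)) * V)) := by
  have hV0 : V ∈ Sp N A fun _ b _ q => b + q = 0 := gr_mono (fun a b p q h => h.1) hV
  have hV1 : V ∈ Sp N A fun _ _ p q => S p q := gr_mono (fun a b p q h => h.2) hV
  induction j with
  | zero => exact ⟨V, hV1, cut_of_mem hV0, 1, by simp [h]⟩
  | succ j ih =>
    obtain ⟨G, hG, h0, u, hu⟩ := ih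
    have hj : (j : ℂ) + 1 ≠ 0 := Nat.cast_add_one_ne_zero j
    refine ⟨G - (u / (j + 1)) • (of (ff N A ^ (j + 1)) * V), sub_mem hG (Submodule.smul_mem _ _ ?_),
      ?_, -(u / (j + 1)), ?_⟩
    · refine Sp_mul (of_mem_zero _) hV1 ?_
      rintro a b p q a' b' p' q' ⟨rfl, rfl⟩ h
      rwa [zero_add, zero_add]
    · rw [map_sub, map_smul, h0, cut_of_not (gr_mono (fun a b p q h => by push_cast at h; omega)
        (red_pow_wt hV0 (j + 1))), smul_zero, sub_zero]
    · have e : dx (of (ff N A)) * (of (ff N A ^ (j + 1)) * V) =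
          of (ff N A ^ (j + 1)) * (dx (of (ff N A)) * V) := by
        rw [← mul_assoc, ← of_comm, mul_assoc]
      rw [map_sub, map_smul, red_pa_of_mul, h, mul_zero, add_zero, red_dx_pow, smul_mul_assoc,
        smul_smul, div_mul_cancel₀ _ hj, mul_assoc, ← hu, mul_sub, mul_smul_comm, e, neg_smul]
      abel

end aux

/-- The derivative of a normal form. -/
theorem red_normal (hN : 0 < N) {F : Pol N A} {d : ℕ} (hF : F.IsHomogeneous d) {w : ℕ}
    {κ V : OO N A} (hκ : κ ∈ Sp N A fun _ b _ q => b + q = w) (h0 : iw κ = 0)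
    (hV : V ∈ Sp N A fun _ b _ q => b + q = 0) (h : V - pa F κ ∈ II N A) :
    dx (of (ff N A)) * pa F κ = of (ff N A ^ w) * (dx (of (ff N A)) * V) := by
  have h1 := red_pa_wt hF (Q := fun v => v = w) hκ
  have hV0 : iw V = 0 :=
    Sp_eq_zero (iw_mem (U := fun _ b _ q => b + q = 0 ∧ 1 ≤ b) (Sp_mono hV (T := fun _ b _ q =>
      b + q = 0 ∧ 0 ≤ b) fun a b p q _ hb _ _ _ _ h => ⟨h, hb⟩) fun a b p q h => by omega)
      fun a b p q _ _ _ _ hq _ h => by omega
  have hu : of (ff N A ^ (w + 1)) * V -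
      (of (ff N A) * pa F κ - (w : ℂ) • (dx (of (ff N A)) * κ)) = 0 := by
    refine normal_eq_zero (w := w + 1) hN (sub_mem ?_ (sub_mem (red_f_wt h1)
      (Submodule.smul_mem _ _ (red_df_wt hκ)))) ?_ ?_
    · exact gr_mono (fun a b p q h => by push_cast at h; omega) (red_pow_wt hV (w + 1))
    · rw [map_sub, map_sub, map_smul, red_iw_of_mul, red_iw_of_mul, hV0, red_iw_pa F hκ, red_iw_df,
        h0, map_zero, mul_zero, mul_zero, sub_zero, sub_zero, mul_smul_comm, Int.cast_natCast,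
        sub_self, sub_zero]
    · have := add_mem (sub_mem (add_mem (red_pow_II V (w + 1)) h) (red_f_II (pa F κ)))
        (smul_II (w : ℂ) (red_df_II κ))
      convert this using 1
      abel
  rw [sub_eq_zero] at hu
  have h2 : of (ff N A) * (dx (of (ff N A)) * pa F κ -
      of (ff N A ^ w) * (dx (of (ff N A)) * V)) = 0 := by
    have e : ∀ (r : RR N A) (y : OO N A), of r * (dx (of (ff N A)) * y) =
        dx (of (ff N A)) * (of r * y) := fun r y => by rw [← mul_assoc, of_comm, mul_assoc]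
    rw [mul_sub, ← mul_assoc _ (of _), ← map_mul (of : RR N A →ₐ[ℂ] OO N A), ← pow_succ', e, e, hu,
      mul_sub, mul_smul_comm, dof_dof, smul_zero, sub_zero, sub_self]
  exact sub_eq_zero.1 (of_mul_eq_zero (ff_reg hN) h2)

theorem red_exists (hN : 0 < N) {F : Pol N A} {d : ℕ} (hF : F.IsHomogeneous d) {m p₀ : ℤ}
    (hm : m + 2 - p₀ ≤ N) {x : OO N A}
    (hx : x ∈ Sp N A fun a b p q => p + q = m ∧ a + p - b - q = 0 ∧ p₀ ≤ p)
    (h : pa F x ∈ II N A) :
    ∃ z ∈ Sp N A fun a b p q => b = 0 ∧ q = 0 ∧ p = m ∧ a + p - d * p ≤ -(d * p₀),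
      ∃ η ∈ Sp N A fun _ _ p q => p + q = m - 1 ∧ p₀ ≤ p,
        pa F z = 0 ∧ x - z - pa F η ∈ II N A := by
  obtain ⟨w₀, hw⟩ := exists_normal (fun a b p q h => by omega) hx
  obtain ⟨κ, hκ, h0, hI⟩ := hw (w₀ + 1) (Nat.le_succ _)
  have hw1 : (1 : ℤ) ≤ (w₀ + 1 : ℕ) := by omega
  generalize w₀ + 1 = w at hκ hw1
  have hκw : κ ∈ Sp N A fun _ b _ q => b + q = w := gr_mono (fun a b p q h => h.2) hκ
  have h1 : (0 : OO N A) - pa F κ ∈ II N A := by
    have := sub_mem (pa_II F hI) h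
    rw [map_sub] at this
    convert this using 1
    abel
  have h2 := red_normal hN hF hκw h0 (zero_mem _) h1
  rw [mul_zero, mul_zero] at h2
  have h3 : pa F κ ∈ Sp N A fun a b p q =>
      p + q = m + 1 ∧ p₀ ≤ p ∧ a + p - b - q - d * p ≤ -(d * p₀) := by
    refine pa_mem hF hκ ?_
    rintro a b p q ⟨⟨e1, e2, e3⟩, -⟩
    have hd : (0 : ℤ) ≤ d := Int.natCast_nonneg d
    have e4 : (d : ℤ) * p₀ ≤ d * p := mul_le_mul_of_nonneg_left e3 hd
    refine ⟨⟨by omega, by omega, ?_⟩, ⟨by omega, by omega, ?_⟩, by omega, by omega, ?_⟩ <;> linarith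
  obtain ⟨ζ, hζ, e⟩ := twisted_exact hF hm h3 (by rw [pa_pa, h2, add_zero])
  obtain ⟨Θ, hΘ1, hΘ2, hΘ3⟩ := red_theta (N := N) (A := A) hF
  obtain ⟨u, hu, hu'⟩ := hΘ1 w
  have h4 := red_pa_wt hF (Q := fun v => v = w) hκw
  have h5 := hΘ3 ζ
  rw [← e, hu' _ h4, red_iw_pa F hκw, h0, map_zero, sub_zero, smul_smul] at h5
  have hc : u * ((w : ℤ) : ℂ) ≠ 0 := mul_ne_zero hu (Int.cast_ne_zero.2 (by omega))
  generalize u * ((w : ℤ) : ℂ) = v at h5 hc
  refine ⟨v⁻¹ • cut (fun _ b _ q => b + q = 0) ζ, Submodule.smul_mem _ _ ?_, -(v⁻¹ • Θ ζ),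
    neg_mem (Submodule.smul_mem _ _ (hΘ2 hζ ?_)), ?_, ?_⟩
  · refine Sp_mono (cut_mem_of _ hζ) ?_
    rintro a b p q - hb - - hq - ⟨e0, e1, e2, e3⟩
    obtain rfl : b = 0 := by omega
    obtain rfl : q = 0 := by omega
    exact ⟨rfl, rfl, by omega, by linarith⟩
  · intro a b p q h
    omega
  · rw [map_smul, ← red_cut_zero hF, ← e,
      cut_of_not (gr_mono (fun a b p q h => by omega) h4), smul_zero]
  · have := add_mem hI (smul_II v⁻¹ h5)
    rw [smul_sub, smul_add, smul_smul, inv_mul_cancel₀ hc, one_smul] at this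
    rw [map_neg, map_smul]
    convert this using 1
    abel

theorem red_unique (hN : 0 < N) {F P : Pol N A} {d : ℕ} (hF : F.IsHomogeneous d) {η : OO N A}
    (hη : η ∈ Sp N A fun _ _ p _ => 1 ≤ p) (h : xo P * vol N A - pa F η ∈ II N A) :
    Exact F P := by
  have hV := xo_vol_mem (N := N) P
  have hV' := pa_xo_vol F P
  have h1 := cut_II (fun n _ => n = N) h
  rw [map_sub, cut_of_mem (gr_mono (fun a b p q h => by omega) hV), red_cut_pa hF] at h1
  obtain ⟨w, hw⟩ := exists_normal (fun a b p q h => by omega)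
    (cut_mem_of (fun _ _ p q => p + q = N - 1) hη)
  obtain ⟨κ, hκ, h0, hI⟩ := hw (w + 1) (Nat.le_succ _)
  have hκw : κ ∈ Sp N A fun _ b _ q => b + q = (w + 1 : ℕ) := gr_mono (fun a b p q h => h.2) hκ
  have h2 : xo P * vol N A - pa F κ ∈ II N A := by
    have := add_mem h1 (pa_II F hI)
    rwa [map_sub, sub_add_sub_cancel] at this
  have h3 := red_normal hN hF hκw h0 (gr_mono (fun a b p q h => by omega) hV) h2
  obtain ⟨G, hG, hG0, u, hu⟩ := red_extend (S := fun p q => p + q = N ∧ 1 ≤ p)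
    (gr_mono (fun a b p q h => by omega) hV) hV' (w + 1)
  have h4 : G - u • pa F κ ∈ Sp N A fun _ _ p q => p + q = N ∧ 1 ≤ p :=
    sub_mem hG (Submodule.smul_mem _ _ (pa_mem hF hκ fun a b p q h => by omega))
  obtain ⟨M, hM⟩ := Sp_bdd (G - u • pa F κ)
  have h5 : G - u • pa F κ ∈ Sp N A fun a b p q =>
      p + q = (N - 1) + 1 ∧ 1 ≤ p ∧ a + p - b - q - d * p ≤ M + N := by
    refine Sp_mono (Sp_inf h4 hM) ?_
    rintro a b p q - hb hp hp' hq - ⟨⟨e1, e2⟩, e3, -⟩
    have : 0 ≤ (d : ℤ) * p := mul_nonneg (Int.natCast_nonneg d) (Int.natCast_nonneg p)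
    exact ⟨by omega, e2, by linarith⟩
  obtain ⟨ζ, -, e⟩ := twisted_exact hF (by omega) h5 (by
    rw [map_sub, map_smul, pa_pa, smul_zero, sub_zero, mul_sub, mul_smul_comm, h3, ← hu]
    abel)
  have h6 := red_cut_zero hF ζ
  rw [← e, map_sub, map_smul, hG0, cut_of_not (gr_mono (fun a b p q h => by omega)
    (red_pa_wt hF (Q := fun v => v = (w + 1 : ℕ)) hκw)), smul_zero, sub_zero] at h6
  exact exact_of_top (Sp_mono (cut_mem _ ζ) fun a b p q _ _ _ _ _ _ h => by omega) h6.symm hN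

/-- The de Rham cohomology of punctured affine space in low degrees. -/
theorem red_plain (hN : 0 < N) {m : ℤ} (hm : m + 2 ≤ N) {κ : OO N A}
    (hκ : κ ∈ Sp N A fun a b p q => p + q = m ∧ a + p - b - q = 0) (h : dx κ ∈ II N A) :
    ∃ z ∈ Sp N A fun a b p q => p + q = m - 1 ∧ a + p - b - q = 0, ∃ t : A,
      κ - dx z - of (C t) ∈ II N A ∧ (m ≠ 0 → t = 0) := by
  obtain ⟨z, hz, η, hη, -, h1⟩ := red_exists (F := (0 : Pol N A)) (d := 0) (p₀ := 0) hN
    (isHomogeneous_zero _ _ _) (by omega)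
    (Sp_mono hκ fun a b p q _ _ _ _ _ _ h => ⟨h.1, h.2, Int.natCast_nonneg _⟩) (by rwa [pa_zero])
  have hz' : z ∈ Sp N A fun a b p q => (a = 0 ∧ b = 0 ∧ p = 0 ∧ q = 0) ∧ m = 0 := by
    refine Sp_mono hz ?_
    rintro a b p q ha - hp - - - ⟨e1, e2, e3, e4⟩
    simp only [Nat.cast_zero, zero_mul, sub_zero, neg_zero] at e4
    omega
  obtain ⟨t, ht, ht'⟩ : ∃ t : A, z = of (C t) ∧ (m ≠ 0 → t = 0) := by
    by_cases hm0 : m = 0
    · obtain ⟨t, ht⟩ := exists_const (gr_mono (fun a b p q h => h.1) hz')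
      exact ⟨t, ht, fun h => absurd hm0 h⟩
    · refine ⟨0, ?_, fun _ => rfl⟩
      rw [Sp_eq_zero hz' fun a b p q _ _ _ _ _ _ h => hm0 h.2, map_zero, map_zero]
  have h2 := cut_II (fun _ v => v = 0) h1
  rw [map_sub, map_sub, cut_of_mem (gr_mono (fun a b p q h => h.2) hκ),
    cut_of_mem (gr_mono (fun a b p q h => by omega) hz'), pa_zero,
    cut_dx (fun _ v => v = 0)] at h2
  refine ⟨_, gr_mono (fun a b p q h => ⟨h.2.1, h.1⟩)
    (cut_mem_of (fun a b p q => a + p - b - q = 0) hη), t, ?_, ht'⟩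
  rw [← ht]
  convert h2 using 1
  abel

end Pool.Agent.Lib.MP_e9c0f3_ag.DR
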