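import Pool.Agent.Lib.MP_e9c0f3_ag.DR.K0
import Pool.Agent.Lib.MP_e9c0f3_ag.DR.BT2

/-! Exactness with a primitive that comes from the torsor. -/

open MvPolynomial Sum

namespace Pool.Agent.Lib.MP_e9c0f3_ag.DR

open Om

variable {N : ℕ} {A : Type} [CommRing A] [Algebra ℂ A] {F : Pol N A}

/-- The curvature form. -/
noncomputable def hh (F : Pol N A) : OO N A ⧸ JJ F := Ideal.Quotient.mk _ (dx (th N A))

/-- The differential of a form on the torsor. -/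
def ExB (F : Pol N A) (z : OO N A ⧸ JJ F) : Prop :=
  ∃ μ : Form (Jou F), z = (ST F).d (phiB F μ)

/-- Restriction to a stable subalgebra. -/
noncomputable def SD.sub {𝒜 : Type} [Ring 𝒜] [Algebra ℂ 𝒜] (S : SD 𝒜) (C : Subalgebra ℂ 𝒜)
    (hσ : ∀ x ∈ C, S.σ x ∈ C) (hd : ∀ x ∈ C, S.d x ∈ C) : SD C where
  σ := (S.σ.comp C.val).codRestrict C fun x => hσ x x.2
  d := S.d.restrict (p := Subalgebra.toSubmodule C) (q := Subalgebra.toSubmodule C) hd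
  σσ a := Subtype.ext (S.σσ a)
  d_mul a b := Subtype.ext (S.d_mul a b)
  d_d a := Subtype.ext (S.d_d a)
  σ_d a := Subtype.ext (S.σ_d a)
  comm_even a b h := Subtype.ext (S.comm_even a b (congrArg Subtype.val h))
  comm_odd a b h := Subtype.ext (S.comm_odd a b (congrArg Subtype.val h))

theorem sb_sub {B 𝒜 : Type} [CommRing B] [Algebra ℂ B] [Ring 𝒜] [Algebra ℂ 𝒜] {S : SD 𝒜}
    {ψ : B →ₐ[ℂ] 𝒜} {φ : Form B →+* 𝒜} (h : IsDG S ψ φ) :
    ∃ (C : Subalgebra ℂ 𝒜) (S' : SD C) (ψ' : B →ₐ[ℂ] C) (φ' : Form B →+* C), IsDG S' ψ' φ' ∧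
      (∀ ω, (φ' ω : 𝒜) = φ ω) ∧ ∀ v : C, ∃ μ, (S'.d v : 𝒜) = S.d (φ μ) := by
  let C : Subalgebra ℂ 𝒜 :=
    { φ.range with algebraMap_mem' := fun c => ⟨_, (h.alg _).trans (ψ.commutes c)⟩ }
  have hψ : ∀ b, ψ b ∈ C := fun b => ⟨_, h.alg b⟩
  have hσ : ∀ x ∈ C, S.σ x ∈ C := by
    rintro _ ⟨ω, rfl⟩
    refine form_ind (C.toSubring.toAddSubgroup.comap
      (S.σ.toRingHom.comp φ).toAddMonoidHom) (fun b l => ?_) ω
    change S.σ (φ _) ∈ C
    rw [h.word, map_mul, h.even, map_list_prod]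
    refine C.mul_mem (hψ b) (C.list_prod_mem fun x hx => ?_)
    obtain ⟨_, hy, rfl⟩ := List.mem_map.1 hx
    obtain ⟨t, -, rfl⟩ := List.mem_map.1 hy
    rw [S.odd_d (h.even t)]
    exact C.neg_mem ⟨_, h.map_dd t⟩
  have hd : ∀ x ∈ C, S.d x ∈ C := by
    rintro _ ⟨ω, rfl⟩
    obtain ⟨η, hη⟩ := exists_isD ω
    exact ⟨η, h.isD hη⟩
  refine ⟨C, S.sub C hσ hd, ψ.codRestrict C hψ, φ.codRestrict C fun ω => ⟨ω, rfl⟩,
    ⟨fun b => Subtype.ext (h.even b), fun b => Subtype.ext (h.alg b),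
      fun b => Subtype.ext (h.map_dd b)⟩, fun _ => rfl, ?_⟩
  rintro ⟨_, μ, rfl⟩
  exact ⟨μ, rfl⟩

theorem phiB_prj' (F : Pol N A) (k : ℕ) : phiB F (chw k (prj F)) = hh F ^ k := by
  rw [phiB_prj, map_pow, hh]

theorem exB_zero : ExB F 0 :=
  ⟨0, by rw [map_zero, map_zero]⟩

theorem ExB.add {z z' : OO N A ⧸ JJ F} (h : ExB F z) (h' : ExB F z') : ExB F (z + z') := by
  obtain ⟨μ, rfl⟩ := h
  obtain ⟨μ', rfl⟩ := h'
  exact ⟨μ + μ', by rw [map_add, map_add]⟩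

theorem ExB.smul {z : OO N A ⧸ JJ F} (h : ExB F z) (t : ℂ) : ExB F (t • z) := by
  obtain ⟨μ, rfl⟩ := h
  exact ⟨t • μ, by rw [(isDG_B F).smul, map_smul]⟩

theorem ExB.neg {z : OO N A ⧸ JJ F} (h : ExB F z) : ExB F (-z) := by
  obtain ⟨μ, rfl⟩ := h
  exact ⟨-μ, by rw [map_neg, map_neg]⟩

theorem ExB.sub {z z' : OO N A ⧸ JJ F} (h : ExB F z) (h' : ExB F z') : ExB F (z - z') := by
  rw [sub_eq_add_neg]
  exact h.add h'.neg

theorem exB_sum {α : Type} (s : Finset α) {z : α → OO N A ⧸ JJ F} (h : ∀ a ∈ s, ExB F (z a)) :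
    ExB F (∑ a ∈ s, z a) :=
  Finset.sum_induction _ (ExB F) (fun _ _ => ExB.add) exB_zero h

theorem ExB.hh_mul {z : OO N A ⧸ JJ F} (h : ExB F z) (n : ℕ) : ExB F (hh F ^ n * z) := by
  have ho : (ST F).σ (Ideal.Quotient.mk _ (th N A)) = -Ideal.Quotient.mk _ (th N A) :=
    congrArg (Ideal.Quotient.mk (JJ F)) (sg_odd (Sp_mono th_mem fun _ _ p q _ _ _ _ _ _ h => by
      rw [h.2.2.1, h.2.2.2]
      decide))
  have he : (ST F).σ (hh F) = hh F := (ST F).even_d ho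
  have hdd : (ST F).d (hh F) = 0 := (ST F).d_d (Ideal.Quotient.mk _ (th N A))
  induction n with
  | zero => rwa [pow_zero, one_mul]
  | succ n ih =>
    obtain ⟨μ, hμ⟩ := ih
    refine ⟨chw 1 (prj F) * μ, ?_⟩
    rw [map_mul, phiB_prj', pow_one, (ST F).d_mul_even he, hdd, zero_mul, zero_add, ← hμ, pow_succ',
      mul_assoc]

theorem IsExact.exB {ω : Form (Jou F)} (h : IsExact ω) : ExB F (phiB F ω) := by
  obtain ⟨μ, hμ⟩ := h
  exact ⟨μ, (isDG_B F).isD hμ⟩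

theorem HasCh.uniqueB {k : ℕ} {M : ModuleCat.{0} (Jou F)} {γ γ' : Form (Jou F)}
    (h : HasCh k M γ) (h' : HasCh k M γ') : ExB F (phiB F γ - phiB F γ') := by
  obtain ⟨C, S, ψ, φ, h1, h2, h3⟩ := sb_sub (isDG_B F)
  obtain ⟨v, hv⟩ := HasCh.unique h1 h h'
  obtain ⟨μ, hμ⟩ := h3 v
  exact ⟨μ, by rw [← hμ, ← hv, ← h2, ← h2]; rfl⟩

variable {ι κ : Type} [Fintype ι] [DecidableEq ι] [Fintype κ] [DecidableEq κ]

theorem chw_uvB (k : ℕ) {a : Matrix ι κ (Jou F)} {b : Matrix κ ι (Jou F)}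
    (h1 : a * b * (a * b) = a * b) (h2 : b * a * (b * a) = b * a) :
    ExB F (phiB F (chw k (a * b)) - phiB F (chw k (b * a))) := by
  obtain ⟨C, S, ψ, φ, h3, h4, h5⟩ := sb_sub (isDG_B F)
  obtain ⟨v, hv⟩ := S.ch_uv k (a := a.map ψ) (b := b.map ψ) (fun _ _ => h3.even _)
    (fun _ _ => h3.even _) (by simp only [← Matrix.map_mul, h1]) (by simp only [← Matrix.map_mul, h2])
  obtain ⟨μ, hμ⟩ := h5 v
  rw [← Matrix.map_mul, ← Matrix.map_mul, ← h3.chw, ← h3.chw] at hv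
  exact ⟨μ, by rw [← hμ, ← hv, ← h4, ← h4]; rfl⟩

theorem chw_addB (k : ℕ) {e e' : Matrix ι ι (Jou F)} (he : e * e = e) (he' : e' * e' = e')
    (h1 : e * e' = 0) (h2 : e' * e = 0) :
    ExB F (phiB F (chw k (e + e')) - phiB F (chw k e) - phiB F (chw k e')) := by
  have ab : Matrix.fromCols e e' * Matrix.fromRows e e' = e + e' := by
    rw [Matrix.fromCols_mul_fromRows, he, he']
  have ba : Matrix.fromRows e e' * Matrix.fromCols e e' = Matrix.fromBlocks e 0 0 e' := by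
    rw [Matrix.fromRows_mul_fromCols, he, he', h1, h2]
  have h := chw_uvB k (a := Matrix.fromCols e e') (b := Matrix.fromRows e e')
    (by rw [ab, add_mul, mul_add, mul_add, he, he', h1, h2, add_zero, zero_add])
    (by rw [ba, Matrix.fromBlocks_multiply]; simp [he, he'])
  rwa [ab, ba, (isDG_B F).chw k (Matrix.fromBlocks e 0 0 e'), Matrix.fromBlocks_map,
    Matrix.map_zero _ (map_zero _), SD.ch_fromBlocks, ← (isDG_B F).chw, ← (isDG_B F).chw,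
    ← sub_sub] at h

end Pool.Agent.Lib.MP_e9c0f3_ag.DR
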