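import Pool.Agent.Lib.MP_e9c0f3_ag.DR.K0
import Pool.Agent.Lib.MP_e9c0f3_ag.DR.QQ

/-! The Shamash resolution. -/

open MvPolynomial Sum Matrix

namespace Pool.Agent.Lib.MP_e9c0f3_ag.DR

variable {N : ℕ} {ι : Type} [Fintype ι] [DecidableEq ι]

omit [DecidableEq ι] in
theorem sh_parity {S : Type} [CommRing S] {par : ι → ℕ} {M : Matrix ι ι S}
    (o : ∀ i j, M i j ≠ 0 → Odd (par i + par j)) {a : ℕ} {v : ι → S}
    (hv : ∀ j, (par j + a) % 2 = 1 → v j = 0) (i : ι) (hi : (par i + a) % 2 = 0) :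
    (M *ᵥ v) i = 0 := by
  refine Finset.sum_eq_zero fun j _ => ?_
  show M i j * v j = 0
  by_cases h : M i j = 0
  · rw [h, zero_mul]
  · have := Nat.odd_iff.1 (o i j h)
    rw [hv j (by omega), mul_zero]

omit [DecidableEq ι] in
theorem sh_congr {S : Type} [CommRing S] {par : ι → ℕ} {M : Matrix ι ι S}
    (tri : ∀ i j, par i + 1 < par j → M i j = 0) {v w : ι → S} (i : ι)
    (h : ∀ j, par j ≤ par i + 1 → v j = w j) : (M *ᵥ v) i = (M *ᵥ w) i := by
  refine Finset.sum_congr rfl fun j _ => ?_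
  show M i j * v j = M i j * w j
  by_cases hj : par j ≤ par i + 1
  · rw [h j hj]
  · rw [tri i j (by omega), zero_mul, zero_mul]

omit [DecidableEq ι] in
theorem sh_low {S : Type} [CommRing S] {par : ι → ℕ} (M : Matrix ι ι S) (w : ι → S) (i : ι) :
    (low par M *ᵥ w) i = (M *ᵥ fun j => if par j = par i + 1 then w j else 0) i := by
  refine Finset.sum_congr rfl fun j _ => ?_
  simp only [low, of_apply]
  by_cases hj : par j = par i + 1
  · rw [if_pos hj.symm, if_pos hj]
  · rw [if_neg (fun h => hj h.symm), if_neg hj, zero_mul, mul_zero]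

/-- Exactness modulo `F` in positive degree. -/
theorem sh_exact {R : Type} [CommRing R] {F : R} (hF : F ∈ nonZeroDivisors R) {par : ι → ℕ}
    {δ : Matrix ι ι R} (oδ : ∀ i j, δ i j ≠ 0 → Odd (par i + par j)) (h2 : δ * δ = scalar ι F)
    (tri : ∀ i j, par i + 1 < par j → δ i j = 0) {i₀ : ι} (h0 : par i₀ = 0)
    (hex : ∀ v, low par δ *ᵥ v = 0 → v i₀ = 0 → ∃ u, v = low par δ *ᵥ u) {n : ℕ} (hn : n ≠ 0)
    {v : ι → R} (hv : ∀ i, ¬(par i ≤ n ∧ (par i + n) % 2 = 0) → v i = 0)
    (hd : ∀ i, par i < n → F ∣ (δ *ᵥ v) i) :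
    ∃ w : ι → R, (∀ i, ¬(par i ≤ n + 1 ∧ (par i + (n + 1)) % 2 = 0) → w i = 0) ∧
      ∀ i, par i ≤ n → (δ *ᵥ w) i = v i := by
  have hsq : ∀ (x : ι → R) i, (δ *ᵥ (δ *ᵥ x)) i = F * x i := fun x i => by
    rw [mulVec_mulVec, h2, scalar_apply, mulVec_diagonal]
  have hu : ∀ i, ∃ c, (par i < n → (δ *ᵥ v) i = F * c) ∧
      (¬(par i < n ∧ (par i + n) % 2 = 1) → c = 0) := by
    intro i
    by_cases hi : par i < n ∧ (par i + n) % 2 = 1
    · obtain ⟨c, hc⟩ := hd i hi.1
      exact ⟨c, fun _ => hc, fun h => absurd hi h⟩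
    · refine ⟨0, fun h => ?_, fun _ => rfl⟩
      rw [mul_zero]
      exact sh_parity oδ (a := n) (fun j hj => hv j (by omega)) i (by omega)
  choose u hu1 hu2 using hu
  have h3 : ∀ i, par i < n → v i = (δ *ᵥ u) i := by
    intro i hi
    by_cases hi' : par i + 1 < n
    · have h4 : F * v i = F * (δ *ᵥ u) i := by
        rw [← hsq, sh_congr tri (w := F • u) i fun j hj => hu1 j (by omega), mulVec_smul]
        rfl
      exact (mul_cancel_left_mem_nonZeroDivisors hF).1 h4
    · rw [hv i (by omega)]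
      exact (sh_parity oδ (a := n + 1) (fun j hj => hu2 j (by omega)) i (by omega)).symm
  obtain ⟨w, hw⟩ := hex (fun i => if par i = n then v i - (δ *ᵥ u) i else 0) (by
    ext i
    rw [sh_low, Pi.zero_apply]
    by_cases hi : par i + 1 = n
    · rw [sh_congr tri (w := v - δ *ᵥ u) i, mulVec_sub, Pi.sub_apply, hsq, hu1 i (by omega),
        sub_self]
      intro j hj
      by_cases hj' : par j = n
      · rw [if_pos (by omega), if_pos hj', Pi.sub_apply]
      · rw [if_neg (by omega), Pi.sub_apply, ← h3 j (by omega), sub_self]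
    · have : (fun j => if par j = par i + 1 then (if par j = n then v j - (δ *ᵥ u) j else 0)
          else 0) = 0 := by
        ext j
        by_cases hj : par j = par i + 1
        · rw [if_pos hj, if_neg (by omega), Pi.zero_apply]
        · rw [if_neg hj, Pi.zero_apply]
      rw [this, mulVec_zero, Pi.zero_apply]) (if_neg (by omega))
  refine ⟨u + fun j => if par j = n + 1 then w j else 0, fun i hi => ?_, fun i hi => ?_⟩
  · rw [Pi.add_apply, hu2 i (by omega), if_neg (by omega), add_zero]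
  · rw [mulVec_add, Pi.add_apply]
    by_cases hi' : par i = n
    · have h5 := congrFun hw i
      rw [if_pos hi', sh_low, hi'] at h5
      rw [← h5, add_sub_cancel]
    · rw [← h3 i (by omega), sh_congr tri (v := fun j => if par j = n + 1 then w j else 0) (w := 0)
        i fun j hj => if_neg (by omega), mulVec_zero, Pi.zero_apply, add_zero]

/-- The cycles of the Shamash resolution. -/
def shZ {T : Type} [CommRing T] (par : ι → ℕ) (δ : Matrix ι ι T) (J : Ideal T) (i₀ : ι) (n : ℕ) :
    Submodule T (ι → T) where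
  carrier := {v | (∀ i, ¬(par i ≤ n ∧ (par i + n) % 2 = 0) → v i = 0) ∧
    (∀ i, par i < n → (δ *ᵥ v) i = 0) ∧ (n = 0 → v i₀ ∈ J)}
  zero_mem' := ⟨fun _ _ => rfl, fun i _ => by rw [mulVec_zero, Pi.zero_apply], fun _ => J.zero_mem⟩
  add_mem' := by
    rintro v w ⟨h1, h2, h3⟩ ⟨k1, k2, k3⟩
    refine ⟨fun i hi => ?_, fun i hi => ?_, fun h => J.add_mem (h3 h) (k3 h)⟩
    · rw [Pi.add_apply, h1 i hi, k1 i hi, add_zero]
    · rw [mulVec_add, Pi.add_apply, h2 i hi, k2 i hi, add_zero]
  smul_mem' := by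
    rintro c v ⟨h1, h2, h3⟩
    refine ⟨fun i hi => ?_, fun i hi => ?_, fun h => J.mul_mem_left c (h3 h)⟩
    · rw [Pi.smul_apply, h1 i hi, smul_zero]
    · rw [mulVec_smul, Pi.smul_apply, h2 i hi, smul_zero]

theorem sh_range {T : Type} [CommRing T] (P : ι → Prop) [DecidablePred P] (v : ι → T) :
    v ∈ LinearMap.range (diagonal fun i => if P i then (1 : T) else 0).mulVecLin ↔
      ∀ i, ¬P i → v i = 0 := by
  constructor
  · rintro ⟨w, rfl⟩ i hi
    rw [mulVecLin_apply, mulVec_diagonal, if_neg hi, zero_mul]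
  · intro h
    refine ⟨v, funext fun i => ?_⟩
    rw [mulVecLin_apply, mulVec_diagonal]
    by_cases hi : P i
    · rw [if_pos hi, one_mul]
    · rw [if_neg hi, zero_mul, h i hi]

/-- One step of a resolution by a free module. -/
theorem sh_step {T : Type} [CommRing T] [Algebra ℂ T] {k : ℕ} (hk : 1 ≤ k) (P : ι → Prop)
    [DecidablePred P] (M : ModuleCat.{0} T) (Z : Submodule T (ι → T))
    (W : Submodule T (ι → T)) (hW : ∀ v, v ∈ W ↔ ∀ i, ¬P i → v i = 0) (p : W →ₗ[T] M)
    (hp : Function.Surjective p) (hZ : Z ≤ W) (hex : ∀ w : W, p w = 0 ↔ (w : ι → T) ∈ Z)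
    {γ : Form T} (h : HasCh k (ModuleCat.of T Z) γ) : HasCh k M (-γ) := by
  obtain rfl : W = LinearMap.range (diagonal fun i => if P i then (1 : T) else 0).mulVecLin :=
    Submodule.ext fun v => (hW v).trans (sh_range P v).symm
  have hc : chw k (diagonal fun i => if P i then (1 : T) else 0) = 0 := by
    refine chw_const hk _ fun i j => ?_
    by_cases hij : i = j
    · subst hij
      rw [diagonal_apply_eq]
      by_cases hi : P i
      · exact Or.inr (if_pos hi)
      · exact Or.inl (if_neg hi)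
    · exact Or.inl (diagonal_apply_ne _ hij)
  have := HasCh.step M (ModuleCat.of T Z) γ ι (diagonal fun i => if P i then (1 : T) else 0)
    (by
      rw [diagonal_mul_diagonal]
      congr 1
      ext i
      by_cases hi : P i <;> simp [hi])
    (Submodule.inclusion hZ) p (Submodule.inclusion_injective hZ)
    (fun w => (hex w).trans ⟨fun hw => ⟨⟨w, hw⟩, rfl⟩, fun ⟨z, hz⟩ => hz ▸ z.2⟩) hp h
  rwa [hc, zero_sub] at this

/-- The abstract statement: `δ ^ 2 = F` over `R` with `F` regular and contractible modulo `F`. -/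
theorem shamash_aux {R T : Type} [CommRing R] [CommRing T] [Algebra ℂ T] {k : ℕ} (hk : 1 ≤ k)
    (π : R →+* T) (hπ : Function.Surjective π) {F : R} (hF : F ∈ nonZeroDivisors R)
    (hker : ∀ r, π r = 0 ↔ F ∣ r) {par : ι → ℕ} {δ κ : Matrix ι ι R}
    (oδ : ∀ i j, δ i j ≠ 0 → Odd (par i + par j)) (oκ : ∀ i j, κ i j ≠ 0 → Odd (par i + par j))
    (h2 : δ * δ = scalar ι F) (h1 : δ * κ + κ * δ = 1) {I : Ideal R} (hr : Resolves par δ I) :
    ∃ u : ℂ, IsQ u ∧ HasCh k (ModuleCat.of T (T ⧸ I.map π))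
      (u • chw k ((δ * κ * diagonal fun i => if Even (par i) then 1 else 0).map π)) := by
  obtain ⟨i₀, h0, tri, hI, hex⟩ := hr
  have hp0 : par i₀ = 0 := (h0 i₀).2 rfl
  have oδ' : ∀ i j, δ.map π i j ≠ 0 → Odd (par i + par j) := fun i j h =>
    oδ i j fun h' => h (by rw [map_apply, h', map_zero])
  have oκ' : ∀ i j, κ.map π i j ≠ 0 → Odd (par i + par j) := fun i j h =>
    oκ i j fun h' => h (by rw [map_apply, h', map_zero])
  have tri' : ∀ i j, par i + 1 < par j → δ.map π i j = 0 := fun i j h => by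
    rw [map_apply, tri i j h, map_zero]
  have hsq : δ.map π * δ.map π = 0 := by
    rw [← Matrix.map_mul, h2, scalar_apply, diagonal_map (map_zero π)]
    simp [(hker F).2 dvd_rfl]
  have hone : δ.map π * κ.map π + κ.map π * δ.map π = 1 := by
    rw [← Matrix.map_mul, ← Matrix.map_mul, ← Matrix.map_add _ (map_add π), h1,
      Matrix.map_one _ (map_zero π) (map_one π)]
  have hmap : ∀ (v : ι → R) i, (δ.map π *ᵥ (π ∘ v)) i = π ((δ *ᵥ v) i) := fun v i =>
    (RingHom.map_mulVec π δ v i).symm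
  let Z := shZ par (δ.map π) (I.map π) i₀
  let W : ℕ → Submodule T (ι → T) := fun n => LinearMap.range
    (diagonal fun i => if par i ≤ n ∧ (par i + n) % 2 = 0 then (1 : T) else 0).mulVecLin
  have hW : ∀ n v, v ∈ W n ↔ ∀ i, ¬(par i ≤ n ∧ (par i + n) % 2 = 0) → v i = 0 := fun n v =>
    sh_range (fun i => par i ≤ n ∧ (par i + n) % 2 = 0) v
  let D : ℕ → (ι → T) →ₗ[T] (ι → T) := fun n =>
    (diagonal fun i => if par i ≤ n then (1 : T) else 0).mulVecLin ∘ₗ (δ.map π).mulVecLin
  have hD : ∀ n w i, D n w i = if par i ≤ n then (δ.map π *ᵥ w) i else 0 := fun n w i => by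
    show ((diagonal fun i => if par i ≤ n then (1 : T) else 0) *ᵥ (δ.map π *ᵥ w)) i = _
    rw [mulVec_diagonal, ite_mul, one_mul, zero_mul]
  have hDZ : ∀ n (w : W (n + 1)), (D n ∘ₗ (W (n + 1)).subtype) w ∈ Z n := by
    rintro n ⟨w, hw⟩
    rw [hW] at hw
    refine ⟨fun i hi => ?_, fun i hi => ?_, fun hn => ?_⟩
    · show D n w i = 0
      rw [hD]
      by_cases hi' : par i ≤ n
      · rw [if_pos hi']
        exact sh_parity oδ' (a := n + 1) (fun j hj => hw j (by omega)) i (by omega)
      · rw [if_neg hi']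
    · show (δ.map π *ᵥ D n w) i = 0
      rw [sh_congr tri' (w := δ.map π *ᵥ w) i fun j hj => by rw [hD, if_pos (by omega)],
        mulVec_mulVec, hsq, zero_mulVec, Pi.zero_apply]
    · show D n w i₀ ∈ I.map π
      rw [hD, if_pos (by omega)]
      refine Ideal.sum_mem _ fun j _ => ?_
      by_cases hj : par i₀ + 1 = par j
      · refine Ideal.mul_mem_right _ _ (Ideal.mem_map_of_mem π ?_)
        rw [hI]
        exact Ideal.subset_span ⟨j, by rw [low, of_apply, if_pos hj]⟩
      · rw [hw j (by omega), mul_zero]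
        exact Ideal.zero_mem _
  have hsurj : ∀ n v, v ∈ Z n → ∃ w ∈ W (n + 1), D n w = v := by
    rintro n v ⟨hv1, hv2, hv3⟩
    have key : ∃ w ∈ W (n + 1), ∀ i, par i ≤ n → (δ.map π *ᵥ w) i = v i := by
      by_cases hn : n = 0
      · have h3 := hv3 hn
        rw [hI, Ideal.map_span, ← Set.range_comp] at h3
        obtain ⟨c, hc⟩ := Ideal.mem_span_range_iff_exists_fun.1 h3
        refine ⟨fun j => if par j = par i₀ + 1 then c j else 0, ?_, fun i hi => ?_⟩
        · rw [hW]
          exact fun i hi => if_neg (by omega)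
        · obtain rfl : i = i₀ := (h0 i).1 (by omega)
          rw [← sh_low, ← hc]
          refine Finset.sum_congr rfl fun j _ => ?_
          rw [mul_comm]
          simp only [low, of_apply, Function.comp_apply, map_apply]
          split_ifs <;> simp
      · have hl : ∀ i, ∃ r, π r = v i ∧ (v i = 0 → r = 0) := fun i => by
          by_cases hi : v i = 0
          · exact ⟨0, by rw [map_zero, hi], fun _ => rfl⟩
          · obtain ⟨r, hr⟩ := hπ (v i)
            exact ⟨r, hr, fun h => absurd h hi⟩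
        choose v' hv' hv'' using hl
        obtain rfl : v = π ∘ v' := funext fun i => (hv' i).symm
        obtain ⟨w, hw1, hw2⟩ := sh_exact hF oδ h2 tri hp0 hex hn (v := v')
          (fun i hi => hv'' i (hv1 i hi)) (fun i hi => (hker _).1 (by rw [← hmap, hv2 i hi]))
        refine ⟨π ∘ w, ?_, fun i hi => ?_⟩
        · rw [hW]
          intro i hi
          rw [Function.comp_apply, hw1 i hi, map_zero]
        · rw [hmap, hw2 i hi, Function.comp_apply]
    obtain ⟨w, hw, hw'⟩ := key
    refine ⟨w, hw, funext fun i => ?_⟩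
    rw [hD]
    by_cases hi : par i ≤ n
    · rw [if_pos hi, hw' i hi]
    · rw [if_neg hi, hv1 i (by omega)]
  have down : ∀ n (γ : Form T), HasCh k (ModuleCat.of T (Z n)) γ →
      ∃ u : ℂ, IsQ u ∧ HasCh k (ModuleCat.of T (Z 0)) (u • γ) := by
    intro n
    induction n with
    | zero => exact fun γ h => ⟨1, isQ_one, by rwa [one_smul]⟩
    | succ n ih =>
      intro γ h
      obtain ⟨u, hu, h'⟩ := ih (-γ) (sh_step hk
        (fun i => par i ≤ n + 1 ∧ (par i + (n + 1)) % 2 = 0) (ModuleCat.of T (Z n)) (Z (n + 1))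
        (W (n + 1)) (hW (n + 1)) (LinearMap.codRestrict (Z n) _ (hDZ n))
        (fun ⟨v, hv⟩ => by
          obtain ⟨w, hw, hw'⟩ := hsurj n v hv
          exact ⟨⟨w, hw⟩, Subtype.ext hw'⟩)
        (fun v hv => (hW _ v).2 hv.1)
        (fun ⟨w, hw⟩ => by
          constructor
          · intro h3
            have h4 : D n w = 0 := congrArg Subtype.val h3
            refine ⟨(hW _ w).1 hw, fun i hi => ?_, fun h => absurd h (by omega)⟩
            have h5 := hD n w i
            rw [h4, if_pos (by omega)] at h5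
            exact h5.symm
          · intro h3
            refine Subtype.ext (funext fun i => ?_)
            show D n w i = 0
            rw [hD]
            by_cases hi : par i ≤ n
            · rw [if_pos hi]
              exact h3.2.1 i (by omega)
            · rw [if_neg hi]) h)
      exact ⟨-u, hu.neg, by rwa [neg_smul, ← smul_neg]⟩
  obtain ⟨n, hn, hn2⟩ : ∃ n, (∀ i, par i < n) ∧ n % 2 = 0 :=
    ⟨2 * (Finset.univ.sup par + 1), fun i => by
      have := Finset.le_sup (f := par) (Finset.mem_univ i)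
      omega, by omega⟩
  have hn0 : n ≠ 0 := by
    have := hn i₀
    omega
  set e := (δ * κ * diagonal fun i => if Even (par i) then 1 else 0).map π with he
  have hev : ∀ x : ι → T,
      e *ᵥ x = δ.map π *ᵥ (κ.map π *ᵥ fun i => if Even (par i) then x i else 0) := fun x => by
    rw [he, Matrix.map_mul, Matrix.map_mul, diagonal_map (map_zero π), ← mulVec_mulVec,
      ← mulVec_mulVec]
    congr 2
    ext i
    rw [mulVec_diagonal]
    split_ifs <;> simp
  have he1 : ∀ x : ι → T, e *ᵥ x ∈ Z n := fun x => by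
    rw [hev]
    refine ⟨fun i hi => ?_, fun i _ => ?_, fun h => absurd h hn0⟩
    · have := hn i
      refine sh_parity oδ' (a := 1) (fun j hj => ?_) i (by omega)
      refine sh_parity oκ' (a := 0) (fun l hl => if_neg ?_) j (by omega)
      rw [Nat.even_iff]
      omega
    · rw [mulVec_mulVec, hsq, zero_mulVec, Pi.zero_apply]
  have he2 : ∀ v ∈ Z n, e *ᵥ v = v := by
    rintro v ⟨hv1, hv2, -⟩
    have h3 : (fun i => if Even (par i) then v i else 0) = v := by
      ext i
      by_cases hi : Even (par i)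
      · rw [if_pos hi]
      · rw [Nat.even_iff] at hi
        rw [if_neg (by rwa [Nat.even_iff]), hv1 i (by omega)]
    have h4 : δ.map π *ᵥ v = 0 := funext fun i => hv2 i (hn i)
    have h5 := congrArg (· *ᵥ v) hone
    simp only [add_mulVec, ← mulVec_mulVec, h4, mulVec_zero, add_zero, one_mulVec] at h5
    rw [hev, h3, h5]
  have hee : e * e = e := by
    refine ext_of_mulVec_single fun i => ?_
    rw [← mulVec_mulVec]
    exact he2 _ (he1 _)
  have hrange : LinearMap.range e.mulVecLin = Z n := by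
    refine le_antisymm ?_ fun v hv => ⟨v, he2 v hv⟩
    rintro _ ⟨x, rfl⟩
    exact he1 x
  have start : HasCh k (ModuleCat.of T (Z n)) (chw k e) := by
    have := HasCh.step (k := k) (ModuleCat.of T (Z n)) (ModuleCat.of T PUnit.{1}) 0 ι e hee 0
      (LinearEquiv.ofEq _ _ hrange).toLinearMap (Function.injective_of_subsingleton _)
      (fun y => ⟨fun hy => ⟨0, ((LinearEquiv.ofEq _ _ hrange).map_eq_zero_iff.1 hy).symm⟩,
        fun ⟨_, hy⟩ => by rw [← hy]; exact map_zero _⟩)
      (LinearEquiv.ofEq _ _ hrange).surjective (HasCh.zero _)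
    rwa [sub_zero] at this
  obtain ⟨u, hu, h⟩ := down n _ start
  refine ⟨-u, hu.neg, ?_⟩
  rw [neg_smul]
  refine sh_step hk (fun i => par i ≤ 0 ∧ (par i + 0) % 2 = 0) _ (Z 0) (W 0) (hW 0)
    ((I.map π).mkQ ∘ₗ LinearMap.proj i₀ ∘ₗ (W 0).subtype) (fun t => ?_)
    (fun v hv => (hW _ v).2 hv.1) (fun ⟨w, hw⟩ => ?_) h
  · obtain ⟨t, rfl⟩ := (I.map π).mkQ_surjective t
    refine ⟨⟨Pi.single i₀ t, (hW 0 _).2 fun i hi => Pi.single_eq_of_ne ?_ _⟩, ?_⟩
    · rintro rfl
      omega
    · show (I.map π).mkQ ((Pi.single i₀ t : ι → T) i₀) = _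
      rw [Pi.single_eq_same]
  · show (I.map π).mkQ (w i₀) = 0 ↔ w ∈ Z 0
    rw [Submodule.mkQ_apply, Submodule.Quotient.mk_eq_zero]
    exact ⟨fun h3 => ⟨(hW 0 w).1 hw, fun i hi => absurd hi (by omega), fun _ => h3⟩,
      fun h3 => h3.2.2 rfl⟩

end Pool.Agent.Lib.MP_e9c0f3_ag.DR
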