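import Pool.Agent.Lib.MP_e9c0f3_ag.DR.Sh2

/-! The exact sequences of the Shamash resolution. -/

open MvPolynomial Sum Matrix

namespace Pool.Agent.Lib.MP_e9c0f3_ag.DR

variable {N : ℕ} {ι : Type} [Fintype ι] [DecidableEq ι]

/-- The exact sequences `0 → Z (n + 1) → W (n + 1) → Z n → 0`, and `Z n = im e` for large
even `n`. -/
structure ShData {T : Type} [CommRing T] (par : ι → ℕ) (δ e : Matrix ι ι T) (J : Ideal T)
    (i₀ : ι) : Prop where
  zero : ∀ i, par i = 0 ↔ i = i₀
  idem : e * e = e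
  mem : ∀ (n : ℕ) (w : ι → T), (∀ i, ¬(par i ≤ n + 1 ∧ (par i + (n + 1)) % 2 = 0) → w i = 0) →
    ((diagonal fun i => if par i ≤ n then (1 : T) else 0) * δ) *ᵥ w ∈ shZ par δ J i₀ n
  surj : ∀ n : ℕ, ∀ v ∈ shZ par δ J i₀ n, ∃ w : ι → T,
    (∀ i, ¬(par i ≤ n + 1 ∧ (par i + (n + 1)) % 2 = 0) → w i = 0) ∧
      ((diagonal fun i => if par i ≤ n then (1 : T) else 0) * δ) *ᵥ w = v
  top : ∀ n : ℕ, (∀ i, par i < n) → n % 2 = 0 → ∀ v, v ∈ shZ par δ J i₀ n ↔ e *ᵥ v = v

theorem shData_aux {R T : Type} [CommRing R] [CommRing T]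
    (π : R →+* T) (hπ : Function.Surjective π) {F : R} (hF : F ∈ nonZeroDivisors R)
    (hker : ∀ r, π r = 0 ↔ F ∣ r) {par : ι → ℕ} {δ κ : Matrix ι ι R}
    (oδ : ∀ i j, δ i j ≠ 0 → Odd (par i + par j)) (oκ : ∀ i j, κ i j ≠ 0 → Odd (par i + par j))
    (h2 : δ * δ = scalar ι F) (h1 : δ * κ + κ * δ = 1) {I : Ideal R} (hr : Resolves par δ I) :
    ∃ i₀, ShData par (δ.map π)
      ((δ * κ * diagonal fun i => if Even (par i) then 1 else 0).map π) (I.map π) i₀ := by
  obtain ⟨i₀, h0, tri, hI, hex⟩ := hr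
  have hp0 : par i₀ = 0 := (h0 i₀).2 rfl
  have oδ' : ∀ i j, δ.map π i j ≠ 0 → Odd (par i + par j) := fun i j h =>
    oδ i j fun h' => h (by rw [map_apply, h', map_zero])
  have oκ' : ∀ i j, κ.map π i j ≠ 0 → Odd (par i + par j) := fun i j h =>
    oκ i j fun h' => h (by rw [map_apply, h', map_zero])
  have tri' : ∀ i j, par i + 1 < par j → δ.map π i j = 0 := fun i j h => by
    rw [map_apply, tri i j h, map_zero]
  have hsq : δ.map π * δ.map π = 0 := by
    rw [← Matrix.map_mul, h2, scalar_apply, diagonal_map (map_zero π)]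
    simp [(hker F).2 dvd_rfl]
  have hone : δ.map π * κ.map π + κ.map π * δ.map π = 1 := by
    rw [← Matrix.map_mul, ← Matrix.map_mul, ← Matrix.map_add _ (map_add π), h1,
      Matrix.map_one _ (map_zero π) (map_one π)]
  have hmap : ∀ (v : ι → R) i, (δ.map π *ᵥ (π ∘ v)) i = π ((δ *ᵥ v) i) := fun v i =>
    (RingHom.map_mulVec π δ v i).symm
  let Z := shZ par (δ.map π) (I.map π) i₀
  let W : ℕ → Submodule T (ι → T) := fun n => LinearMap.range
    (diagonal fun i => if par i ≤ n ∧ (par i + n) % 2 = 0 then (1 : T) else 0).mulVecLin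
  have hW : ∀ n v, v ∈ W n ↔ ∀ i, ¬(par i ≤ n ∧ (par i + n) % 2 = 0) → v i = 0 := fun n v =>
    sh_range (fun i => par i ≤ n ∧ (par i + n) % 2 = 0) v
  let D : ℕ → (ι → T) →ₗ[T] (ι → T) := fun n =>
    (diagonal fun i => if par i ≤ n then (1 : T) else 0).mulVecLin ∘ₗ (δ.map π).mulVecLin
  have hD : ∀ n w i, D n w i = if par i ≤ n then (δ.map π *ᵥ w) i else 0 := fun n w i => by
    show ((diagonal fun i => if par i ≤ n then (1 : T) else 0) *ᵥ (δ.map π *ᵥ w)) i = _
    rw [mulVec_diagonal, ite_mul, one_mul, zero_mul]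
  have hDZ : ∀ n (w : W (n + 1)), (D n ∘ₗ (W (n + 1)).subtype) w ∈ Z n := by
    rintro n ⟨w, hw⟩
    rw [hW] at hw
    refine ⟨fun i hi => ?_, fun i hi => ?_, fun hn => ?_⟩
    · show D n w i = 0
      rw [hD]
      by_cases hi' : par i ≤ n
      · rw [if_pos hi']
        exact sh_parity oδ' (a := n + 1) (fun j hj => hw j (by omega)) i (by omega)
      · rw [if_neg hi']
    · show (δ.map π *ᵥ D n w) i = 0
      rw [sh_congr tri' (w := δ.map π *ᵥ w) i fun j hj => by rw [hD, if_pos (by omega)],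
        mulVec_mulVec, hsq, zero_mulVec, Pi.zero_apply]
    · show D n w i₀ ∈ I.map π
      rw [hD, if_pos (by omega)]
      refine Ideal.sum_mem _ fun j _ => ?_
      by_cases hj : par i₀ + 1 = par j
      · refine Ideal.mul_mem_right _ _ (Ideal.mem_map_of_mem π ?_)
        rw [hI]
        exact Ideal.subset_span ⟨j, by rw [low, of_apply, if_pos hj]⟩
      · rw [hw j (by omega), mul_zero]
        exact Ideal.zero_mem _
  have hsurj : ∀ n v, v ∈ Z n → ∃ w ∈ W (n + 1), D n w = v := by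
    rintro n v ⟨hv1, hv2, hv3⟩
    have key : ∃ w ∈ W (n + 1), ∀ i, par i ≤ n → (δ.map π *ᵥ w) i = v i := by
      by_cases hn : n = 0
      · have h3 := hv3 hn
        rw [hI, Ideal.map_span, ← Set.range_comp] at h3
        obtain ⟨c, hc⟩ := Ideal.mem_span_range_iff_exists_fun.1 h3
        refine ⟨fun j => if par j = par i₀ + 1 then c j else 0, ?_, fun i hi => ?_⟩
        · rw [hW]
          exact fun i hi => if_neg (by omega)
        · obtain rfl : i = i₀ := (h0 i).1 (by omega)
          rw [← sh_low, ← hc]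
          refine Finset.sum_congr rfl fun j _ => ?_
          rw [mul_comm]
          simp only [low, of_apply, Function.comp_apply, map_apply]
          split_ifs <;> simp
      · have hl : ∀ i, ∃ r, π r = v i ∧ (v i = 0 → r = 0) := fun i => by
          by_cases hi : v i = 0
          · exact ⟨0, by rw [map_zero, hi], fun _ => rfl⟩
          · obtain ⟨r, hr⟩ := hπ (v i)
            exact ⟨r, hr, fun h => absurd h hi⟩
        choose v' hv' hv'' using hl
        obtain rfl : v = π ∘ v' := funext fun i => (hv' i).symm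
        obtain ⟨w, hw1, hw2⟩ := sh_exact hF oδ h2 tri hp0 hex hn (v := v')
          (fun i hi => hv'' i (hv1 i hi)) (fun i hi => (hker _).1 (by rw [← hmap, hv2 i hi]))
        refine ⟨π ∘ w, ?_, fun i hi => ?_⟩
        · rw [hW]
          intro i hi
          rw [Function.comp_apply, hw1 i hi, map_zero]
        · rw [hmap, hw2 i hi, Function.comp_apply]
    obtain ⟨w, hw, hw'⟩ := key
    refine ⟨w, hw, funext fun i => ?_⟩
    rw [hD]
    by_cases hi : par i ≤ n
    · rw [if_pos hi, hw' i hi]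
    · rw [if_neg hi, hv1 i (by omega)]
  set e := (δ * κ * diagonal fun i => if Even (par i) then 1 else 0).map π with he
  have hev : ∀ x : ι → T,
      e *ᵥ x = δ.map π *ᵥ (κ.map π *ᵥ fun i => if Even (par i) then x i else 0) := fun x => by
    rw [he, Matrix.map_mul, Matrix.map_mul, diagonal_map (map_zero π), ← mulVec_mulVec,
      ← mulVec_mulVec]
    congr 2
    ext i
    rw [mulVec_diagonal]
    split_ifs <;> simp
  have he1 : ∀ n, (∀ i, par i < n) → n % 2 = 0 → ∀ x : ι → T, e *ᵥ x ∈ Z n :=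
      fun n hn hn2 x => by
    have hn0 : n ≠ 0 := by
      have := hn i₀
      omega
    rw [hev]
    refine ⟨fun i hi => ?_, fun i _ => ?_, fun h => absurd h hn0⟩
    · have := hn i
      refine sh_parity oδ' (a := 1) (fun j hj => ?_) i (by omega)
      refine sh_parity oκ' (a := 0) (fun l hl => if_neg ?_) j (by omega)
      rw [Nat.even_iff]
      omega
    · rw [mulVec_mulVec, hsq, zero_mulVec, Pi.zero_apply]
  have he2 : ∀ n, (∀ i, par i < n) → n % 2 = 0 → ∀ v ∈ Z n, e *ᵥ v = v := by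
    rintro n hn hn2 v ⟨hv1, hv2, -⟩
    have h3 : (fun i => if Even (par i) then v i else 0) = v := by
      ext i
      by_cases hi : Even (par i)
      · rw [if_pos hi]
      · rw [Nat.even_iff] at hi
        rw [if_neg (by rwa [Nat.even_iff]), hv1 i (by omega)]
    have h4 : δ.map π *ᵥ v = 0 := funext fun i => hv2 i (hn i)
    have h5 := congrArg (· *ᵥ v) hone
    simp only [add_mulVec, ← mulVec_mulVec, h4, mulVec_zero, add_zero, one_mulVec] at h5
    rw [hev, h3, h5]
  obtain ⟨n, hn, hn2⟩ : ∃ n, (∀ i, par i < n) ∧ n % 2 = 0 :=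
    ⟨2 * (Finset.univ.sup par + 1), fun i => by
      have := Finset.le_sup (f := par) (Finset.mem_univ i)
      omega, by omega⟩
  refine ⟨i₀, h0, ?_, fun n w hw => ?_, fun n v hv => ?_, fun n hn hn2 v =>
    ⟨he2 n hn hn2 v, fun h => h ▸ he1 n hn hn2 v⟩⟩
  · refine ext_of_mulVec_single fun i => ?_
    rw [← mulVec_mulVec]
    exact he2 n hn hn2 _ (he1 n hn hn2 _)
  · rw [← mulVec_mulVec]
    exact hDZ n ⟨w, (hW _ _).2 hw⟩
  · obtain ⟨w, hw, h⟩ := hsurj n v hv
    exact ⟨w, (hW _ _).1 hw, by rw [← mulVec_mulVec]; exact h⟩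

theorem shData {d : ℕ} (hN : 0 < N) {F : Pol N ℂ} (hF : F ≠ 0) {par : ι → ℕ}
    {wt : ι → ℤ} {δ : Matrix ι ι (Pol N ℂ)} {g : Fin N → RR N ℂ} (h : IsMF d F par wt δ)
    (hg : ∑ i, g i * rename inl (pderiv i F) - 1 ∈ Ideal.span {ff N ℂ - 1})
    {I : Ideal (Pol N ℂ)} (hr : Resolves par δ I) :
    ∃ i₀, ShData (T := TT F) par ((δ.map (rename inl)).map (Ideal.Quotient.mk (relJ F)))
      ((ezero par g δ).map (Ideal.Quotient.mk (relJ F)))
      ((I.map (rename inl)).map (Ideal.Quotient.mk (relJ F))) i₀ := by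
  have hle : Ideal.span {ff N ℂ - 1} ≤ relJ F :=
    Ideal.span_mono (Set.singleton_subset_iff.2 (Or.inr rfl))
  obtain ⟨q, hq⟩ : ∃ q, q = Ideal.Quotient.mk (Ideal.span {ff N ℂ - 1}) := ⟨_, rfl⟩
  have q0 : ∀ r, q r = 0 ↔ r ∈ Ideal.span {ff N ℂ - 1} := fun r =>
    hq ▸ Ideal.Quotient.eq_zero_iff_mem
  have qs : Function.Surjective q := hq ▸ Ideal.Quotient.mk_surjective
  have qf : (Ideal.Quotient.factor hle).comp q = Ideal.Quotient.mk (relJ F) :=
    hq ▸ Ideal.Quotient.factor_comp_mk hle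
  have qf' : ∀ r, Ideal.Quotient.factor hle (q r) = Ideal.Quotient.mk (relJ F) r := fun r =>
    RingHom.congr_fun qf r
  have hreg : q (rename inl F) ∈ nonZeroDivisors (RR N ℂ ⧸ Ideal.span {ff N ℂ - 1}) := by
    refine mem_nonZeroDivisors_iff_left.2 fun r hr => ?_
    obtain ⟨r, rfl⟩ := qs r
    rw [← map_mul, q0] at hr
    exact (q0 r).2 (reg_ff hN hF hr)
  have hker : ∀ r, Ideal.Quotient.factor hle r = 0 ↔ q (rename inl F) ∣ r := fun r => by
    obtain ⟨r, rfl⟩ := qs r
    rw [qf', Ideal.Quotient.eq_zero_iff_mem, relJ, ← ff, Ideal.mem_span_pair]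
    constructor
    · rintro ⟨a, b, rfl⟩
      refine ⟨q a, ?_⟩
      rw [map_add, (q0 _).2 (Ideal.mem_span_singleton'.2 ⟨b, rfl⟩), add_zero, map_mul, mul_comm]
    · rintro ⟨a, ha⟩
      obtain ⟨a, rfl⟩ := qs a
      rw [← map_mul, ← sub_eq_zero, ← map_sub, q0] at ha
      obtain ⟨b, hb⟩ := Ideal.mem_span_singleton'.1 ha
      exact ⟨a, b, by rw [hb]; ring⟩
  have hm : ∀ m : Matrix ι ι (RR N ℂ), m.map q = q.mapMatrix m := fun _ => rfl
  have hsc : ∀ r, (scalar ι r).map q = scalar ι (q r) := fun r => by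
    rw [scalar_apply, scalar_apply, diagonal_map (map_zero q)]
  have h2 : (δ.map (rename inl)).map q * (δ.map (rename inl)).map q =
      scalar ι (q (rename inl F)) := by
    rw [← Matrix.map_mul, ← Matrix.map_mul, h.sq, ← hsc, scalar_apply, scalar_apply,
      diagonal_map (map_zero _)]
  have h1 : (δ.map (rename inl)).map q * (kap g δ).map q +
      (kap g δ).map q * (δ.map (rename inl)).map q = 1 := by
    rw [hm, hm, ← map_mul, ← map_mul, ← map_add, kap_comm h, ← hm, hsc]
    rw [← q0, map_sub, map_one, sub_eq_zero] at hg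
    rw [hg, map_one]
  have hlow : low par ((δ.map (rename inl)).map q) = ((low par δ).map (rename inl)).map q := by
    ext i j
    simp only [low, of_apply, map_apply]
    split_ifs <;> simp
  have hres : Resolves par ((δ.map (rename inl)).map q) ((I.map (rename inl)).map q) := by
    obtain ⟨i₀, r1, r2, r3, r4⟩ := hr
    refine ⟨i₀, r1, fun i j hij => by simp [r2 i j hij], ?_, fun v hv h0 => ?_⟩
    · rw [hlow, r3, Ideal.map_span, Ideal.map_span, ← Set.range_comp, ← Set.range_comp]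
      rfl
    · obtain ⟨v, rfl⟩ : ∃ w, v = q ∘ w := ⟨fun i => (qs (v i)).choose,
        funext fun i => (qs (v i)).choose_spec.symm⟩
      rw [hlow] at hv ⊢
      obtain ⟨u, hu⟩ := exact_lift hN r4 v
        (fun i => (q0 _).1 ((RingHom.map_mulVec q _ _ i).trans (congrFun hv i))) ((q0 _).1 h0)
      refine ⟨q ∘ u, funext fun i => ?_⟩
      have h3 := (q0 _).2 (hu i)
      rw [Pi.sub_apply, map_sub, sub_eq_zero, RingHom.map_mulVec] at h3
      exact h3
  obtain ⟨i₀, hc⟩ := shData_aux (Ideal.Quotient.factor hle)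
    (Ideal.Quotient.factor_surjective hle) hreg hker
    (fun i j hij => h.odd i j fun h0 => hij (by simp [h0]))
    (fun i j hij => kap_odd h i j fun h0 => hij (by rw [map_apply, h0, map_zero])) h2 h1 hres
  have e1 : ((δ.map (rename inl)).map q * (kap g δ).map q *
      diagonal fun i => if Even (par i) then 1 else 0).map (Ideal.Quotient.factor hle) =
        (ezero par g δ).map (Ideal.Quotient.mk (relJ F)) := by
    rw [← qf, RingHom.coe_comp, ← Matrix.map_map, ezero, Matrix.map_mul (f := q),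
      Matrix.map_mul (f := q), diagonal_map (map_zero q)]
    simp only [apply_ite q, map_one, map_zero]
  have e2 : ((δ.map (rename inl)).map q).map (Ideal.Quotient.factor hle) =
      (δ.map (rename inl)).map (Ideal.Quotient.mk (relJ F)) := Matrix.ext fun i j => qf' _
  rw [Ideal.map_map, qf, e1, e2] at hc
  exact ⟨i₀, hc⟩

end Pool.Agent.Lib.MP_e9c0f3_ag.DR
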