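import Pool.Agent.Lib.MP_e9c0f3_ag.DR.DG

/-! Algebraic de Rham cohomology of a projective hypersurface through its Jouanolou torsor:
the definitions used in the statement. -/

open MvPolynomial
open scoped Pointwise

namespace Pool.Agent.Lib.MP_e9c0f3_ag.DS

section Forms

/-- Algebraic differential forms on `Spec B`. -/
def Form (B : Type) [CommRing B] [Algebra ℂ B] : Type := ExteriorAlgebra B Ω[B⁄ℂ]

variable {B B' : Type} [CommRing B] [Algebra ℂ B] [CommRing B'] [Algebra ℂ B']

noncomputable instance formRing : Ring (Form B) :=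
  (inferInstance : Ring (ExteriorAlgebra B Ω[B⁄ℂ]))

noncomputable instance formAlg : Algebra B (Form B) :=
  (inferInstance : Algebra B (ExteriorAlgebra B Ω[B⁄ℂ]))

/-- The function `b` as a form of degree zero. -/
noncomputable def fn (b : B) : Form B := algebraMap B (Form B) b

/-- The one-form `db`. -/
noncomputable def dd (b : B) : Form B := ExteriorAlgebra.ι B (KaehlerDifferential.D ℂ B b)

/-- Forms of degree `n`. -/
def HasDeg (n : ℕ) (ω : Form B) : Prop :=
  (show ExteriorAlgebra B Ω[B⁄ℂ] from ω) ∈ ⋀[B]^n Ω[B⁄ℂ]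

/-- `η = dω`: the additive relation generated by `d (b db₁ ... dbₙ) = db db₁ ... dbₙ`. -/
def IsD (ω η : Form B) : Prop :=
  (ω, η) ∈ AddSubgroup.closure
    {p | ∃ (b : B) (l : List B), p = (fn b * (l.map dd).prod, dd b * (l.map dd).prod)}

/-- Exact forms. -/
def IsExact (η : Form B) : Prop := ∃ ω, IsD ω η

theorem exists_pull (φ : B →ₐ[ℂ] B') : ∃ f : Form B →+* Form B',
    (∀ b, f (fn b) = fn (φ b)) ∧ ∀ b, f (dd b) = dd (φ b) :=
  ⟨DR.pull φ, DR.pull_alg φ, DR.pull_dd φ⟩

/-- Pull-back of forms: the ring map with `b ↦ φ b` and `db ↦ d (φ b)`. -/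
noncomputable def pull (φ : B →ₐ[ℂ] B') (ω : Form B) : Form B' := (exists_pull φ).choose ω

/-- The Chern-Weil form `tr (e (de) ^ (2 k))` of the projective module `e B ^ n`; it represents
`k!` times the `k`-th Chern character. -/
noncomputable def chw (k : ℕ) {ι : Type} [Fintype ι] [DecidableEq ι] (e : Matrix ι ι B) : Form B :=
  (e.map fn * e.map dd ^ (2 * k)).trace

/-- `M` has a finite resolution by projective modules `e₀ B ^ n₀, e₁ B ^ n₁, ...` and
`γ` is the alternating sum of the forms `chw k eᵢ`. In `step`, `p` is a surjection from the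
image of `e` onto `M`, with kernel `K`. -/
inductive HasCh (k : ℕ) : ModuleCat.{0} B → Form B → Prop
  | zero (M : ModuleCat.{0} B) [Subsingleton M] : HasCh k M 0
  | step (M K : ModuleCat.{0} B) (γ : Form B) (ι : Type) [Fintype ι] [DecidableEq ι]
      (e : Matrix ι ι B) (he : e * e = e) (i : K →ₗ[B] ι → B) (p : (ι → B) →ₗ[B] M)
      (hi : Function.Injective i) (hip : ∀ v, (∃ u, i u = v) ↔ e.mulVec v = v ∧ p v = 0)
      (hp : ∀ m, ∃ v, e.mulVec v = v ∧ p v = m) (h : HasCh k K γ) :
      HasCh k M (chw k e - γ)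

/-- The class of `ω` is a rational linear combination of `k`-th Chern characters of vector
bundles. -/
def IsAlg (k : ℕ) (ω : Form B) : Prop :=
  ∃ γ ∈ AddSubgroup.closure {γ | ∃ (c : ℚ) (n : ℕ) (e : Matrix (Fin n) (Fin n) B),
    e * e = e ∧ γ = fn (algebraMap ℂ B c) * chw k e}, IsExact (ω - γ)

/-- The class of `ω` is a rational linear combination of the `k`-th Chern characters of the
structure sheaf `B / I` and of the vector bundle `h B ^ m`. -/
def IsCyc (k : ℕ) (I : Ideal B) {m : ℕ} (h : Matrix (Fin m) (Fin m) B) (ω : Form B) : Prop :=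
  ∃ (γ : Form B) (c a : ℚ), HasCh k (ModuleCat.of B (B ⧸ I)) γ ∧
    IsExact (ω - fn (algebraMap ℂ B c) * γ - fn (algebraMap ℂ B a) * chw k h)

/-- `dω` lies in the ideal generated by the products of two elements of `S`. -/
def Flat (S : Set (Form B)) (ω : Form B) : Prop := ∃ η ∈ Ideal.span (S ^ 2), IsD ω η

/-- Up to an exact form, `ω` lies in the ideal generated by the products of `k` elements
of `S`. -/
def InFil (S : Set (Form B)) (k : ℕ) (ω : Form B) : Prop :=
  ∃ μ ∈ Ideal.span (S ^ k), IsExact (ω - μ)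

end Forms

section Jouanolou

variable {A : Type} [CommRing A] {N : ℕ}

/-- The ideal of the locus `F(x) = 0`, `∑ xᵢ yᵢ = 1`. -/
noncomputable def relJ (F : MvPolynomial (Fin N) A) : Ideal (MvPolynomial (Fin N ⊕ Fin N) A) :=
  Ideal.span {rename Sum.inl F, ∑ i, X (Sum.inl i) * X (Sum.inr i) - 1}

/-- The function `xᵢ yⱼ` on that locus. -/
noncomputable def xy (F : MvPolynomial (Fin N) A) (i j : Fin N) :
    MvPolynomial (Fin N ⊕ Fin N) A ⧸ relJ F :=
  Ideal.Quotient.mk _ (X (Sum.inl i) * X (Sum.inr j))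

/-- The subalgebra generated by the functions `xᵢ yⱼ`. -/
noncomputable def jou (F : MvPolynomial (Fin N) A) :
    Subalgebra A (MvPolynomial (Fin N ⊕ Fin N) A ⧸ relJ F) :=
  Algebra.adjoin A (Set.range fun ij : Fin N × Fin N => xy F ij.1 ij.2)

/-- The coordinate ring of the Jouanolou torsor of the hypersurface `F = 0` in projective space
over `A`: pairs of a point `[x]` and a hyperplane `[y]` missing it. -/
def Jou (F : MvPolynomial (Fin N) A) : Type := jou F

noncomputable instance jouRing (F : MvPolynomial (Fin N) A) : CommRing (Jou F) :=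
  (inferInstance : CommRing (jou F))

noncomputable instance jouAlg [Algebra ℂ A] (F : MvPolynomial (Fin N) A) : Algebra ℂ (Jou F) :=
  (inferInstance : Algebra ℂ (jou F))

/-- Functions coming from the base. -/
noncomputable def cst (F : MvPolynomial (Fin N) A) (a : A) : Jou F :=
  (⟨Ideal.Quotient.mk _ (C a), (jou F).algebraMap_mem a⟩ : jou F)

/-- The rank one projector `(xᵢ yⱼ)`, whose image is the line bundle `O(-1)`. -/
noncomputable def prj (F : MvPolynomial (Fin N) A) : Matrix (Fin N) (Fin N) (Jou F) :=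
  Matrix.of fun i j => (⟨xy F i j, Algebra.subset_adjoin ⟨(i, j), rfl⟩⟩ : jou F)

/-- The ideal of the preimage of the subscheme defined by the homogeneous ideal `I`. -/
noncomputable def cyc (F : MvPolynomial (Fin N) A) (I : Ideal (MvPolynomial (Fin N) A)) :
    Ideal (Jou F) :=
  Ideal.span {b : jou F | b.1 ∈ (I.map (rename Sum.inl)).map (Ideal.Quotient.mk (relJ F))}

variable [Algebra ℂ A]

/-- The one-forms `yₐ ^ 2 (xᵢ dxⱼ - xⱼ dxᵢ)`, which generate the pull-back of the one-forms of the
hypersurface; `InFil (hodge F) k` is the `k`-th step of the Hodge filtration. -/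
def hodge (F : MvPolynomial (Fin N) A) : Set (Form (Jou F)) :=
  {ω | ∃ i j a, ω = fn (prj F i a) * dd (prj F j a) - fn (prj F j a) * dd (prj F i a)}

/-- The one-forms `da` coming from the base; `Flat (base F) ω` says that the relative class of `ω`
is killed by the Gauss-Manin connection. -/
def base (F : MvPolynomial (Fin N) A) : Set (Form (Jou F)) := {ω | ∃ a, ω = dd (cst F a)}

/-- The equation of the fibre over the point `s`. -/
noncomputable def fibre (F : MvPolynomial (Fin N) A) (s : A →ₐ[ℂ] ℂ) : MvPolynomial (Fin N) ℂ :=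
  map (s : A →+* ℂ) F

theorem exists_fib (F : MvPolynomial (Fin N) A) (s : A →ₐ[ℂ] ℂ) :
    ∃ f : Jou F →ₐ[ℂ] Jou (fibre F s), (∀ a, f (cst F a) = cst _ (s a)) ∧
      ∀ i j, f (prj F i j) = prj _ i j := by
  refine ⟨DR.fib F s, fun a => Subtype.ext ?_, fun i j => Subtype.ext ?_⟩
  · change Ideal.Quotient.mk _ (map (s : A →+* ℂ) (C a)) = Ideal.Quotient.mk _ (C (s a))
    rw [map_C]
    rfl
  · change Ideal.Quotient.mk _ (map (s : A →+* ℂ) (X _ * X _)) = Ideal.Quotient.mk _ (X _ * X _)
    rw [map_mul, map_X, map_X]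

/-- Restriction of forms to the fibre over the point `s`: pull-back along the map of rings with
`a ↦ s a` and `xᵢ yⱼ ↦ xᵢ yⱼ`. -/
noncomputable def res (F : MvPolynomial (Fin N) A) (s : A →ₐ[ℂ] ℂ) (ω : Form (Jou F)) :
    Form (Jou (fibre F s)) :=
  pull (exists_fib F s).choose ω

end Jouanolou

end Pool.Agent.Lib.MP_e9c0f3_ag.DS
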