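import Pool.Agent.Lib.MP_e9c0f3_ag.DR.TG
import Pool.Agent.Lib.MP_e9c0f3_ag.DR.QQ

/-! Transgression in top degree. -/

open MvPolynomial Sum

namespace Pool.Agent.Lib.MP_e9c0f3_ag.DR

open Om

variable {N : ℕ} {A : Type} [CommRing A] [Algebra ℂ A] {ι : Type} [Fintype ι] [DecidableEq ι]
  {d : ℕ} {F : Pol N A} {par : ι → ℕ} {wt : ι → ℤ} {δ : Matrix ι ι (Pol N A)} {g : Fin N → RR N A}

theorem tg2_sum {V : Type} [AddCommGroup V] [Module ℂ V] (I : Submodule ℂ V) (D L : V →ₗ[ℂ] V)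
    (a t : ℕ → V) (h : ∀ n : ℕ, a n - (((n : ℂ) + 1) • D (t n) +
      (((n : ℂ) + 1) * n) • L (t (n - 1))) ∈ I) (M : ℕ) :
    ∑ n ∈ Finset.range (M + 1), ((n + 1).factorial : ℂ)⁻¹ • a n -
      D (∑ n ∈ Finset.range (M + 1), (n.factorial : ℂ)⁻¹ • t n) -
      L (∑ n ∈ Finset.range M, (n.factorial : ℂ)⁻¹ • t n) ∈ I := by
  induction M with
  | zero => simpa using h 0
  | succ M ih =>
    have h1 := I.add_mem ih (I.smul_mem ((M + 1 + 1).factorial : ℂ)⁻¹ (h (M + 1)))
    have h2 : (M.factorial : ℂ) ≠ 0 := Nat.cast_ne_zero.2 M.factorial_ne_zero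
    have h3 : (M : ℂ) + 1 ≠ 0 := by exact_mod_cast Nat.succ_ne_zero M
    have h4 : (M : ℂ) + 1 + 1 ≠ 0 := by exact_mod_cast Nat.succ_ne_zero (M + 1)
    have e1 : ((M + 1 + 1).factorial : ℂ)⁻¹ * (((M + 1 : ℕ) : ℂ) + 1) =
        ((M + 1).factorial : ℂ)⁻¹ := by
      simp only [Nat.factorial_succ]
      push_cast
      field_simp
    have e2 : ((M + 1 + 1).factorial : ℂ)⁻¹ * ((((M + 1 : ℕ) : ℂ) + 1) * (M + 1 : ℕ)) =
        (M.factorial : ℂ)⁻¹ := by
      simp only [Nat.factorial_succ]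
      push_cast
      field_simp
    rw [smul_sub, smul_add, smul_smul, smul_smul, e1, e2, Nat.add_sub_cancel] at h1
    rw [Finset.sum_range_succ _ (M + 1), Finset.sum_range_succ _ (M + 1),
      Finset.sum_range_succ (fun n => (n.factorial : ℂ)⁻¹ • t n) M]
    rw [Finset.sum_range_succ (fun n => (n.factorial : ℂ)⁻¹ • t n) M] at h1
    convert h1 using 1
    simp only [map_add, map_smul]
    abel

theorem tg2_end {𝒜 : Type} [Ring 𝒜] [Algebra ℂ 𝒜] (S : SD 𝒜) (par : ι → ℕ)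
    {δ κ w : Matrix ι ι 𝒜} {F : 𝒜} (hF : S.σ F = F) (hδ : S.mtw par δ = -δ)
    (hκ : S.mtw par κ = -κ) (hsq : δ * δ = Matrix.scalar ι F) (h1 : δ * κ + κ * δ = 1)
    (hw : w = -(κ * (S.mD par δ - S.mD par (Matrix.scalar ι F) * κ))) (n : ℕ) :
    S.mstr par ((S.mD par δ + (S.mD par w + δ * w + w * δ) + w * w) ^ (n + 1)) =
      S.mstr par ((S.mD par w + w * w) ^ (n + 1)) +
        ((n : ℂ) + 1) • (S.d F * S.mstr par (κ * (S.mD par w + w * w) ^ n)) := by
  obtain ⟨ha, h2, h3, h4⟩ := (S.sq par hF hδ hsq).adapted (κ := κ) hκ h1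
  have h5 := h2.str_pow (κ := κ) hκ n
  rw [(congrArg (· * κ) h3).trans h4.symm] at h5
  have h6 : S.mstr par ((0 + S.mD par w + w * w +
      (S.mD par δ + w * δ - S.mtw par δ * w)) ^ (n + 1)) =
      S.mstr par ((0 + S.mD par w + w * w) ^ (n + 1)) +
        ((n : ℂ) + 1) • (S.d F * S.mstr par (κ * (0 + S.mD par w + w * w) ^ n)) := by
    rw [hw]
    exact h5
  rw [zero_add, hδ] at h6
  rw [← h6]
  congr 2
  noncomm_ring

/-- All entries have multidegrees in `S`. -/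
def tg2Ent (S : Dg) (m : Matrix ι ι (OO N A)) : Prop := ∀ i j, m i j ∈ Sp N A S

omit [DecidableEq ι] in
theorem tg2_mul {S T U : Dg} {x y : Matrix ι ι (OO N A)} (hx : tg2Ent S x) (hy : tg2Ent T y)
    (h : ∀ a b p q a' b' p' q', S a b p q → T a' b' p' q' →
      U (a + a') (b + b') (p + p') (q + q')) : tg2Ent U (x * y) := fun i j => by
  rw [Matrix.mul_apply]
  exact Submodule.sum_mem _ fun l _ => Sp_mul (hx i l) (hy l j) h

theorem tg2_pow {S : Dg} {U : ℕ → Dg} {x : Matrix ι ι (OO N A)} (hx : tg2Ent S x)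
    (h0 : U 0 0 0 0 0) (h : ∀ n a b p q a' b' p' q', U n a b p q → S a' b' p' q' →
      U (n + 1) (a + a') (b + b') (p + p') (q + q')) (n : ℕ) : tg2Ent (U n) (x ^ n) := by
  induction n with
  | zero =>
    intro i j
    rw [pow_zero, Matrix.one_apply]
    split_ifs
    · exact one_mem_Sp h0
    · exact zero_mem _
  | succ n ih =>
    rw [pow_succ]
    exact tg2_mul ih hx (h n)

theorem tg2_mD {S : Dg} {m : Matrix ι ι (OO N A)} (h : ∀ i j, dx (m i j) ∈ Sp N A S) :
    tg2Ent S ((SO N A).mD par m) := fun i j => by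
  rw [SD.cvm_mD]
  rcases SD.cvm_sg (OO N A) (par i) with ⟨-, e⟩ | ⟨-, e⟩
  · rw [e, one_mul]; exact h i j
  · rw [e, neg_one_mul]; exact neg_mem (h i j)

theorem tg2_str {S : Dg} {m : Matrix ι ι (OO N A)} (h : tg2Ent S m) :
    (SO N A).mstr par m ∈ Sp N A S := (SO N A).mstr_mem par _ (fun _ => sg_mem) h

omit [Fintype ι] [DecidableEq ι] in
theorem tg2_top (m : Matrix ι ι (OO N A)) : tg2Ent (fun _ _ p q => 0 ≤ p ∧ 0 ≤ q) m :=
  fun i j => Sp_mono (Sp_top (m i j)) fun _ _ _ _ _ _ _ _ _ _ _ => by omega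

theorem tg2_xo_zero : xo (0 : Pol N A) = 0 := by rw [xo, map_zero, map_zero]

theorem tg2_scalar (P : Pol N A) : (Matrix.scalar ι P).map xo = Matrix.scalar ι (xo P) :=
  Matrix.diagonal_map tg2_xo_zero

theorem tg2_del (h : IsMF d F par wt δ) : (SO N A).mtw par (δ.map xo) = -δ.map xo :=
  (SO N A).mtw_odd par (fun _ _ => sg_of _) fun i j hij => h.odd i j fun e => hij (by
    rw [Matrix.map_apply, e, tg2_xo_zero])

theorem tg2_kap (h : IsMF d F par wt δ) :
    (SO N A).mtw par ((kap g δ).map of) = -(kap g δ).map of :=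
  (SO N A).mtw_odd par (fun _ _ => sg_of _) fun i j hij => kap_odd h i j fun e => hij (by
    rw [Matrix.map_apply, e, map_zero])

theorem tg2_sq (h : IsMF d F par wt δ) :
    δ.map xo * δ.map xo = Matrix.scalar ι (xo F : OO N A) := by
  rw [← tg2_scalar, ← h.sq]
  ext i j
  simp only [Matrix.mul_apply, Matrix.map_apply, xo, map_sum, map_mul]

theorem tg2_dscalar (P : Pol N A) : tg2Ent (fun _ b p q => b = 0 ∧ p = 1 ∧ q = 0)
    ((SO N A).mD par (Matrix.scalar ι (xo P))) := by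
  rw [← tg2_scalar]
  exact tg2_mD fun _ _ => dxo_mem _

theorem tg2_trans (h : IsMF d F par wt δ) : ∃ T : ℕ → OO N A,
    (∀ n : ℕ, T n ∈ Sp N A fun _ _ p q => 1 ≤ p ∧ (n : ℤ) + 1 ≤ p + q) ∧ ∀ n : ℕ,
      (SO N A).mstr par (((SO N A).mD par (δ.map xo) + ((SO N A).mD par (varpi F par g δ) +
        δ.map xo * varpi F par g δ + varpi F par g δ * δ.map xo) +
        varpi F par g δ * varpi F par g δ) ^ (n + 1)) -
      (SO N A).mstr par ((SO N A).mD par (δ.map xo) ^ (n + 1)) =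
        ((n : ℂ) + 1) • dx (T n) + (((n : ℂ) + 1) * n) • (dx (xo F) * T (n - 1)) := by
  let J : TwoSidedIdeal (Matrix ι ι (OO N A)) := TwoSidedIdeal.mk'
    {m | tg2Ent (fun _ _ p q => 1 ≤ p + q) m} (fun _ _ => zero_mem _)
    (fun hx hy i j => add_mem (hx i j) (hy i j)) (fun hx i j => neg_mem (hx i j))
    (fun hy => tg2_mul (tg2_top _) hy (by omega)) fun hx => tg2_mul hx (tg2_top _) (by omega)
  have hJ : ∀ m, m ∈ J ↔ tg2Ent (fun _ _ p q => 1 ≤ p + q) m := fun m =>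
    TwoSidedIdeal.mem_mk' _ _ _ _ _ _ _
  have hE : ∀ r ∈ Set.range (xo : Pol N A → OO N A), (SO N A).σ r = r := by
    rintro _ ⟨r, rfl⟩
    exact sg_of _
  have hφ := (SO N A).gen par (r := xo F) (sg_of _)
  have ha : (SO N A).mtw par (varpi F par g δ) = -varpi F par g δ := by
    have h1 : (SO N A).mtw par _ = _ := hφ.odd
    rw [varpi, map_neg, map_mul, map_sub, map_mul, tg2_kap h, h1,
      ((SO N A).cv_aux par).2.2.1, tg2_del h, map_neg]
    noncomm_ring
  obtain ⟨T, h1, h2⟩ := (((SO N A).cv par).twist ((SO N A).sq par (F := xo F) (sg_of _) (tg2_del h)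
    (tg2_sq h))).trans {ω | ∃ r ∈ Set.range xo, ω = (SO N A).mD par (Matrix.scalar ι r)}
    (by
      rintro _ ⟨r, hr, rfl⟩
      have h1 := (SO N A).gen par (hE r hr)
      refine ⟨h1.odd, h1.comm, ?_⟩
      have h2 : ((SO N A).cv par).tw (δ.map xo) = _ := tg2_del h
      change ((SO N A).cv par).Da _ _ = 0
      rw [Cv.Da_apply, h1.closed, h1.odd, neg_mul, h1.comm, h2]
      noncomm_ring) J
    (by
      rintro _ ⟨_, ⟨r, rfl⟩, rfl⟩
      exact (hJ _).2 fun i j => gr_mono (by omega) (tg2_dscalar r i j))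
    ((hJ _).2 (by
      change tg2Ent _ (0 + (SO N A).mD par (δ.map xo))
      rw [zero_add]
      exact tg2_mD fun _ _ => gr_mono (by omega) (dxo_mem _)))
    (fun n => Sp N A fun _ _ p q => 1 ≤ p ∧ (n : ℤ) + 1 ≤ p + q)
    (by
      rintro _ ⟨_, ⟨r, rfl⟩, rfl⟩ y x hx n
      have h1 := tg2_pow (U := fun n _ _ p q => (n : ℤ) ≤ p + q) ((hJ _).1 hx) (by simp)
        (by push_cast; omega) n
      have h2 : tg2Ent (fun _ _ p q => 0 ≤ p ∧ (n : ℤ) ≤ p + q) (x ^ n) := fun i j =>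
        Sp_mono (h1 i j) fun _ _ _ _ _ _ _ _ _ _ _ => by omega
      exact tg2_str (tg2_mul (tg2_mul (U := fun _ _ p q => 1 ≤ p ∧ 0 ≤ q) (tg2_dscalar r)
        (tg2_top y) (by omega)) h2 (by omega))) (a := varpi F par g δ) ha
    (by
      rw [varpi, mul_sub, ← mul_assoc, ← mul_one (_ * (SO N A).mD par (δ.map xo))]
      refine neg_mem (sub_mem ((SO N A).mD_mem_closure par _ hE (fun i j => ⟨_, rfl⟩) _ _)
        ((SO N A).mD_mem_closure par _ hE (fun i j => ?_) _ _))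
      rw [← tg2_scalar]
      exact ⟨_, rfl⟩)
  refine ⟨T, h1, fun n => ?_⟩
  have h3 : (SO N A).mstr par ((0 + (SO N A).mD par (δ.map xo) +
      ((SO N A).mD par (varpi F par g δ) + δ.map xo * varpi F par g δ -
        (SO N A).mtw par (varpi F par g δ) * δ.map xo) +
        varpi F par g δ * varpi F par g δ) ^ (n + 1)) -
      (SO N A).mstr par ((0 + (SO N A).mD par (δ.map xo)) ^ (n + 1)) = _ := h2 n
  rw [zero_add, ha, neg_mul, sub_neg_eq_add] at h3
  exact h3

theorem tg2_mod (h : IsMF d F par wt δ)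
    (hg : ∑ i, g i * rename inl (pderiv i F) - 1 ∈ Ideal.span {ff N A - 1}) (n : ℕ) :
    (SO N A).mstr par (((SO N A).mD par (δ.map xo) + ((SO N A).mD par (varpi F par g δ) +
        δ.map xo * varpi F par g δ + varpi F par g δ * δ.map xo) +
        varpi F par g δ * varpi F par g δ) ^ (n + 1)) -
      ((SO N A).mstr par (curv F par g δ ^ (n + 1)) + ((n : ℂ) + 1) • (dx (xo F) *
        (SO N A).mstr par ((kap g δ).map of * curv F par g δ ^ n))) ∈ II N A := by
  let q := Ideal.Quotient.mkₐ ℂ (II N A)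
  let Q : Matrix ι ι (OO N A) →ₐ[ℂ] Matrix ι ι (OO N A ⧸ II N A) := q.mapMatrix
  have q1 : ∀ m, Q ((SO N A).mD par m) = (SA N A).mD par (Q m) := hom_SA.mD par
  have q2 : ∀ m, q ((SO N A).mstr par m) = (SA N A).mstr par (Q m) := hom_SA.mstr par
  have q3 : ∀ m, Q ((SO N A).mtw par m) = (SA N A).mtw par (Q m) := hom_SA.mtw par
  have q4 : ∀ r, Q (Matrix.scalar ι r) = Matrix.scalar ι (q r) := fun r =>
    Matrix.diagonal_map (map_zero q)
  have h1 : Q (δ.map xo) * Q ((kap g δ).map of) + Q ((kap g δ).map of) * Q (δ.map xo) = 1 := by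
    let O : Matrix ι ι (RR N A) →ₐ[ℂ] Matrix ι ι (OO N A) := (of : RR N A →ₐ[ℂ] OO N A).mapMatrix
    have e1 : O (Matrix.scalar ι (∑ i, g i * rename inl (pderiv i F))) =
        Matrix.scalar ι (of (∑ i, g i * rename inl (pderiv i F))) :=
      Matrix.diagonal_map (map_zero _)
    have e2 : q (of (∑ i, g i * rename inl (pderiv i F))) = 1 := by
      have := of_mem_II hg
      rw [map_sub, map_one] at this
      exact (Ideal.Quotient.eq.2 this).trans (map_one q)
    change Q (O (δ.map (rename inl))) * Q (O (kap g δ)) +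
      Q (O (kap g δ)) * Q (O (δ.map (rename inl))) = 1
    rw [← map_mul, ← map_mul, ← map_mul, ← map_mul, ← map_add, ← map_add, kap_comm h, e1, q4, e2,
      map_one]
  have h2 := tg2_end (SA N A) par (δ := Q (δ.map xo)) (κ := Q ((kap g δ).map of))
    (w := Q (varpi F par g δ)) (F := q (xo F))
    ((hom_SA.map_σ _).symm.trans (congrArg q (sg_of _)))
    (by rw [← q3, tg2_del h, map_neg]) (by rw [← q3, tg2_kap h, map_neg])
    (by rw [← map_mul, tg2_sq h, q4]) h1
    (by rw [varpi, map_neg, map_mul, map_sub, map_mul, q1, q1, q4]) n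
  refine Ideal.Quotient.eq.1 (?_ : q _ = q _)
  rw [curv]
  simp only [map_add, map_smul, map_mul, map_pow, q1, q2]
  rw [h2]
  rfl

theorem tg2_start {k : ℕ} (hN : N = 2 * (k + 1)) (h : IsMF d F par wt δ) :
    (SO N A).mstr par ((SO N A).mD par (δ.map xo) ^ N) =
      (-1 : ℂ) ^ (k + 1) • (xo (ch par δ) * vol N A) := by
  set Δ : Matrix ι ι (OO N A) := δ.map fun P => dx (xo P)
  have h1 : SD.ep (OO N A) par * Δ * SD.ep (OO N A) par = -Δ := by
    ext i j
    rw [SD.cvm_mul_ep, SD.cvm_ep_mul, Matrix.neg_apply]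
    by_cases e : δ i j = 0
    · simp [Δ, e, tg2_xo_zero]
    have := Nat.odd_add.1 (h.odd i j e)
    rw [← Nat.not_even_iff_odd] at this
    rcases SD.cvm_sg (OO N A) (par i) with ⟨a1, a2⟩ | ⟨a1, a2⟩ <;>
      rcases SD.cvm_sg (OO N A) (par j) with ⟨b1, b2⟩ | ⟨b1, b2⟩ <;> simp_all
  have h2 : (SO N A).mD par (δ.map xo) ^ N = (-1 : ℂ) ^ (k + 1) • Δ ^ N := by
    have e : (SD.ep (OO N A) par * Δ) ^ (2 * (k + 1)) = (-1 : ℂ) ^ (k + 1) • Δ ^ (2 * (k + 1)) := by
      rw [pow_mul, pow_mul, sq, sq, ← mul_assoc, h1, neg_mul, ← neg_one_smul ℂ, smul_pow]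
    rw [← hN] at e
    exact e
  have h3 : tg2Ent (fun _ _ p q => p + q = (N : ℤ)) (Δ ^ N) :=
    tg2_pow (U := fun n _ _ p q => p + q = (n : ℤ)) (fun i j => dxo_mem (δ i j)) (by simp)
      (by push_cast; omega) N
  rw [h2, map_smul, (SO N A).mstr_even par fun i j => sg_even (gr_mono (fun _ _ p q e =>
    ⟨k + 1, by omega⟩) (h3 i j)), ← trace_pow_eq_ch]
  exact congrArg _ (Finset.sum_congr rfl fun i _ => SD.cvm_ep_mul _ _ _ _)

/-- Transgression from the trivial to the adapted superconnection, in degree `N`. -/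
theorem tg_deg {k : ℕ} (hN : N = 2 * (k + 1)) (hF : F.IsHomogeneous d) (h : IsMF d F par wt δ)
    (hg : ∑ i, g i * rename inl (pderiv i F) - 1 ∈ Ideal.span {ff N A - 1}) :
    ∃ t : ℂ, IsQ t ∧ ∃ η ∈ Sp N A fun _ _ p _ => 1 ≤ p,
      (SO N A).mstr par (curv F par g δ ^ (k + 1)) - xo (t • ch par δ) * vol N A - pa F η ∈
        II N A := by
  obtain ⟨T, h1, h2⟩ := tg2_trans (g := g) h
  let π : OO N A →ₗ[ℂ] OO N A := cut fun _ _ p q => p + q = N
  let π' : OO N A →ₗ[ℂ] OO N A := cut fun _ _ p q => p + q + 1 = N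
  have hπ : ∀ {m : ℤ} {x}, (x ∈ Sp N A fun _ _ p q => p + q = m) → m ≠ N → π x = 0 :=
    fun hx hm => cut_of_not (gr_mono (by omega) hx)
  have hκ : tg2Ent (fun _ _ p q => p + q = 0) ((kap g δ).map of) := fun _ _ =>
    gr_mono (by omega) (of_mem_zero _)
  have hδ : tg2Ent (fun _ _ p q => p + q = 1) ((SO N A).mD par (δ.map xo)) :=
    tg2_mD fun _ _ => gr_mono (by omega) (dxo_mem _)
  have hw : tg2Ent (fun _ _ p q => p + q = 1) (varpi F par g δ) := fun i j =>
    neg_mem (tg2_mul hκ (T := fun _ _ p q => p + q = 1) (fun i j => sub_mem (hδ i j)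
      (tg2_mul (tg2_dscalar F) hκ (by omega) i j)) (by omega) i j)
  have hc : tg2Ent (fun _ _ p q => p + q = 2) (curv F par g δ) := fun i j =>
    add_mem (tg2_mD (fun i j => dx_mem (hw i j) (by omega)) i j) (tg2_mul hw hw (by omega) i j)
  have hcn := tg2_pow (U := fun n _ _ p q => p + q = 2 * (n : ℤ)) hc (by simp)
    (by push_cast; omega)
  have hδn := tg2_pow (U := fun n _ _ p q => p + q = (n : ℤ)) hδ (by simp) (by push_cast; omega)
  have key := tg2_sum ((II N A).restrictScalars ℂ) dx (LinearMap.mulLeft ℂ (dx (xo F)))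
    (fun n => π ((SO N A).mstr par (curv F par g δ ^ (n + 1))) -
      π ((SO N A).mstr par ((SO N A).mD par (δ.map xo) ^ (n + 1)))) (fun n => π' (T n))
    (fun n => by
      have h3 : π _ ∈ II N A := cut_II (fun m _ => m = N) (neg_mem (tg2_mod h hg n))
      have h4 : π (dx (xo F) * (SO N A).mstr par ((kap g δ).map of * curv F par g δ ^ n)) = 0 :=
        hπ (m := 2 * n + 1) (Sp_mul (dxo_mem F) (tg2_str (tg2_mul
          (U := fun _ _ p q => p + q = 2 * (n : ℤ)) hκ (hcn n) (by omega))) (by omega)) (by omega)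
      have h5 : π (dx (T n)) = dx (π' (T n)) := cut_dx (fun m _ => m = N) _
      have h6 : π (dx (xo F) * T (n - 1)) = dx (xo F) * π' (T (n - 1)) :=
        cut_mul_left (dxo_mem F) (by omega) _
      rw [eq_add_of_sub_eq (h2 n)] at h3
      simp only [map_neg, map_sub, map_add, map_smul, h4, h5, h6, smul_zero, add_zero] at h3
      rw [Submodule.restrictScalars_mem, LinearMap.mulLeft_apply]
      convert h3 using 1
      abel) (2 * k + 1)
  have hT : π' (T (2 * k + 1)) = 0 :=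
    cut_of_not (gr_mono (by push_cast; omega) (h1 (2 * k + 1)))
  rw [Finset.sum_range_succ (fun n => (n.factorial : ℂ)⁻¹ • π' (T n)), hT, smul_zero, add_zero,
    sub_sub, Submodule.restrictScalars_mem, LinearMap.mulLeft_apply, ← pa_apply] at key
  simp only [smul_sub, Finset.sum_sub_distrib] at key
  rw [Finset.sum_eq_single k, Finset.sum_eq_single (2 * k + 1),
    show 2 * k + 1 + 1 = N by omega, cut_of_mem (tg2_str (hδn N)), tg2_start hN h,
    cut_of_mem (gr_mono (by omega) (tg2_str (hcn (k + 1))))] at key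
  · have f1 : ((k + 1).factorial : ℂ) ≠ 0 := Nat.cast_ne_zero.2 (Nat.factorial_ne_zero _)
    have f2 : (N.factorial : ℂ) ≠ 0 := Nat.cast_ne_zero.2 (Nat.factorial_ne_zero _)
    refine ⟨(k + 1).factorial * ((N.factorial : ℂ)⁻¹ * (-1) ^ (k + 1)),
      (isQ_nat (Nat.factorial_ne_zero _)).mul ((isQ_nat (Nat.factorial_ne_zero _)).inv.mul
        (isQ_one.neg.pow _)),
      ((k + 1).factorial : ℂ) • ∑ n ∈ Finset.range (2 * k + 1), (n.factorial : ℂ)⁻¹ • π' (T n),
      Submodule.smul_mem _ _ (Submodule.sum_mem _ fun n _ => Submodule.smul_mem _ _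
        (gr_mono (fun _ _ _ _ e => e.2.1) (cut_mem_of _ (h1 n)))), ?_⟩
    have h7 := smul_II ((k + 1).factorial : ℂ) key
    rw [smul_sub, smul_sub, smul_smul, mul_inv_cancel₀ f1, one_smul, smul_smul, smul_smul,
      mul_assoc] at h7
    rw [map_smul, xo, AlgHom.map_smul_of_tower, map_smul, smul_mul_assoc]
    exact h7
  · intro n _ hn
    rw [hπ (tg2_str (hδn (n + 1))) (by push_cast; omega), smul_zero]
  · simp
  · intro n _ hn
    rw [hπ (tg2_str (hcn (n + 1))) (by push_cast; omega), smul_zero]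
  · intro hk
    exact absurd (Finset.mem_range.2 (by omega)) hk

end Pool.Agent.Lib.MP_e9c0f3_ag.DR
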