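import Pool.Agent.Lib.MP_e9c0f3_ag.Std2
import Pool.Agent.Lib.MP_e9c0f3_ag.DR.Id2

/-! Forms of top degree in `dx`. -/

open MvPolynomial Sum

namespace Pool.Agent.Lib.MP_e9c0f3_ag.DR

open Om

variable {N : ℕ} {A A' : Type} [CommRing A] [Algebra ℂ A] [CommRing A'] [Algebra ℂ A']

/-- The volume form in `x`. -/
noncomputable def vol (N : ℕ) (A : Type) [CommRing A] [Algebra ℂ A] : OO N A :=
  (List.ofFn fun i : Fin N => e (inl i)).prod

/-- The product of the forms `dx i` along a list. -/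
noncomputable def top_pw (A : Type) [CommRing A] [Algebra ℂ A] (l : List (Fin N)) : OO N A :=
  (l.map fun i => e (inl i)).prod

/-- Iterated contraction along a list. -/
noncomputable def top_ct : List (Fin N) → OO N A → OO N A
  | [], x => x
  | i :: l, x => top_ct l (c (inl i) x)

theorem top_pw_cons (i : Fin N) (l : List (Fin N)) :
    top_pw A (i :: l) = e (inl i) * top_pw A l := by
  rw [top_pw, List.map_cons, List.prod_cons, top_pw]

theorem top_vol_eq : vol N A = top_pw A (List.finRange N) := by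
  rw [vol, top_pw, List.ofFn_eq_map]

theorem top_pw_mem (l : List (Fin N)) :
    top_pw A l ∈ Sp N A fun a b p q => a = 0 ∧ b = 0 ∧ p = l.length ∧ q = 0 := by
  induction l with
  | nil => exact one_mem_Sp ⟨rfl, rfl, rfl, rfl⟩
  | cons i l ih =>
    rw [top_pw_cons]
    refine Sp_mul (e_inl_mem (S := fun a b p q => a = 0 ∧ b = 0 ∧ p = 1 ∧ q = 0) i
      ⟨rfl, rfl, rfl, rfl⟩) ih fun a b p q a' b' p' q' h h' => ?_
    rw [List.length_cons]
    push_cast
    omega

theorem top_ct_mem (l : List (Fin N)) {S : Dg} {x : OO N A} (h : x ∈ Sp N A S) :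
    top_ct l x ∈ Sp N A fun a b p q => S a b (p + l.length) q := by
  induction l generalizing S x with
  | nil => simpa [top_ct] using h
  | cons i l ih =>
    have h1 := ih (c_inl_mem (U := fun a b p q => S a b (p + 1) q) i h fun a b p q hS => by
      rwa [sub_add_cancel])
    simpa [top_ct, add_assoc] using h1

theorem top_ct_of_mul (l : List (Fin N)) (r : RR N A) (x : OO N A) :
    top_ct l (of r * x) = of r * top_ct l x := by
  induction l generalizing x with
  | nil => rfl
  | cons i l ih => rw [top_ct, top_ct, c_of_mul, ih]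

theorem top_ct_zero (l : List (Fin N)) : top_ct l (0 : OO N A) = 0 := by
  induction l with
  | nil => rfl
  | cons i l ih => rw [top_ct, map_zero, ih]

theorem top_c_one (s : Fin N ⊕ Fin N) : c s (1 : OO N A) = 0 := by
  rw [← map_one (of : RR N A →ₐ[ℂ] OO N A), c_of]

theorem top_c_pw {i : Fin N} {l : List (Fin N)} (h : i ∉ l) : c (inl i) (top_pw A l) = 0 := by
  induction l with
  | nil => exact top_c_one _
  | cons j l ih =>
    rw [List.mem_cons, not_or] at h
    rw [top_pw_cons, c_e_mul, ih h.2, if_neg fun hij => h.1 (inl_injective hij), mul_zero, sub_zero]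

theorem top_ct_pw {l : List (Fin N)} (h : l.Nodup) : top_ct l (top_pw A l) = 1 := by
  induction l with
  | nil => rfl
  | cons j l ih =>
    rw [List.nodup_cons] at h
    rw [top_ct, top_pw_cons, c_e_mul, top_c_pw h.1, if_pos rfl, mul_zero, sub_zero, ih h.2]

theorem top_eq_pw_mul {l : List (Fin N)} (h : l.Nodup) {x : OO N A}
    (hx : ∀ i ∈ l, e (inl i) * x = 0) : x = top_pw A l * top_ct l x := by
  induction l generalizing x with
  | nil => exact (one_mul x).symm
  | cons j l ih =>
    rw [List.nodup_cons] at h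
    have h1 := c_e_mul (inl j) (inl j) x
    rw [hx j List.mem_cons_self, map_zero, if_pos rfl, eq_comm, sub_eq_zero] at h1
    have h2 : ∀ i ∈ l, e (inl i) * c (inl j) x = 0 := fun i hi => by
      have h3 := c_e_mul (inl j) (inl i) x
      rwa [hx i (List.mem_cons_of_mem _ hi), map_zero,
        if_neg fun hij => h.1 (by rw [inl_injective hij]; exact hi), zero_sub, eq_comm,
        neg_eq_zero] at h3
    rw [top_ct, top_pw_cons, mul_assoc, ← ih h.2 h2]
    exact h1

theorem vol_mem : vol N A ∈ Sp N A fun a b p q => a = 0 ∧ b = 0 ∧ p = N ∧ q = 0 := by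
  have h := top_pw_mem (A := A) (List.finRange N)
  rwa [List.length_finRange, ← top_vol_eq] at h

theorem xo_vol_mem (P : Pol N A) :
    xo P * vol N A ∈ Sp N A fun _ b p q => b = 0 ∧ p = N ∧ q = 0 := by
  refine Sp_mul (rename_mem P) vol_mem fun a b p q a' b' p' q' h h' => ?_
  omega

theorem top_e_mul (i : Fin N) {x : OO N A} (h : x ∈ Sp N A fun _ _ p _ => p = N) :
    e (inl i) * x = 0 := by
  refine Sp_eq_zero (S := fun _ _ p _ => p = N + 1)
    (Sp_mul (e_inl_mem (S := fun _ _ p _ => p = 1) i rfl) h fun a b p q a' b' p' q' h h' => ?_)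
    fun a b p q _ _ _ _ _ _ => ?_ <;> omega

theorem top_pa_mem (F : Pol N A) {Q : ℤ → Prop} {x : OO N A}
    (h : x ∈ Sp N A fun _ b p q => b = 0 ∧ Q (p + 1) ∧ q = 0) :
    pa F x ∈ Sp N A fun _ _ p _ => Q p := by
  rw [pa_apply]
  refine add_mem (Sp_mono (dx_mem (U := fun _ b p _ => b < 0 ∨ Q p) h fun a b p q hS =>
    ⟨Or.inr hS.2.1, Or.inl (by omega)⟩) fun a b p q _ _ _ _ _ _ hS => hS.resolve_left (by omega))
    (Sp_mul (dxo_mem F) h fun a b p q a' b' p' q' h h' => ?_)
  rw [h.2.1, add_comm]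
  exact h'.2.1

theorem pa_xo_vol (F P : Pol N A) : pa F (xo P * vol N A) = 0 := by
  refine Sp_eq_zero (top_pa_mem F (Q := fun p => p = N + 1)
    (Sp_mono (xo_vol_mem P) fun a b p q _ _ _ _ _ _ h => ?_)) fun a b p q _ _ _ _ _ _ => ?_ <;>
    omega

theorem xo_vol_inj {P : Pol N A} (h : xo P * vol N A = 0) : P = 0 := by
  have h1 := congrArg (top_ct (List.finRange N)) h
  rw [xo, top_ct_of_mul, top_vol_eq, top_ct_pw (List.nodup_finRange N), mul_one, top_ct_zero,
    ← map_zero (of : RR N A →ₐ[ℂ] OO N A), ← map_zero (rename (R := A) (inl : Fin N → _))] at h1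
  exact rename_injective _ inl_injective (of_injective h1)

theorem top_eq {x : OO N A} (h : x ∈ Sp N A fun _ b p q => b = 0 ∧ p = N ∧ q = 0) :
    ∃ P : Pol N A, top_ct (List.finRange N) x = xo P ∧ x = xo P * vol N A := by
  obtain ⟨P, hP⟩ := exists_rename (Sp_mono (top_ct_mem (List.finRange N) h)
    fun a b p q _ _ _ _ _ _ hS => by
      rw [List.length_finRange] at hS
      omega)
  refine ⟨P, hP, ?_⟩
  rw [xo, of_comm, ← hP, top_vol_eq]
  exact top_eq_pw_mul (List.nodup_finRange N) fun i _ =>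
    top_e_mul i (Sp_mono h fun a b p q _ _ _ _ _ _ hS => hS.2.1)

theorem exists_top {x : OO N A} {n : ℕ}
    (h : x ∈ Sp N A fun a b p q => a ≤ n ∧ b = 0 ∧ p = N ∧ q = 0) :
    ∃ P : Pol N A, P.totalDegree ≤ n ∧ x = xo P * vol N A := by
  obtain ⟨P, hP, hx⟩ := top_eq (Sp_mono h fun a b p q _ _ _ _ _ _ hS => hS.2)
  refine ⟨P, totalDegree_le_of_mem ?_, hx⟩
  have h1 := top_ct_mem (List.finRange N) h
  rw [hP] at h1
  exact Sp_mono h1 fun a b p q _ _ _ _ _ _ hS => hS.1

theorem lie_vol (D : Derivation ℂ (RR N A) (RR N A)) : lie D (vol N A) = 0 := by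
  rw [top_vol_eq]
  induction List.finRange N with
  | nil =>
    change lie D 1 = 0
    rw [← map_one (of : RR N A →ₐ[ℂ] OO N A), lie_of, D.map_one_eq_zero, map_zero]
  | cons i l ih => rw [top_pw_cons, lie_mul, lie_e, ih, zero_mul, mul_zero, add_zero]

theorem top_dx_vol : dx (vol N A) = 0 := by
  simp only [dx, dO_apply, lie_vol, mul_zero, Finset.sum_const_zero]

theorem top_dx_c_vol (s : Fin N ⊕ Fin N) : dx (c s (vol N A)) = 0 := by
  have h := c_dO pd s (vol N A)
  rwa [lie_vol, show dO pd (vol N A) = 0 from top_dx_vol, map_zero, zero_add] at h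

theorem top_e_c_vol (i j : Fin N) :
    e (inl j) * c (inl i) (vol N A) = if i = j then vol N A else 0 := by
  have h := c_e_mul (inl i) (inl j) (vol N A)
  rw [top_e_mul j (Sp_mono vol_mem fun a b p q _ _ _ _ _ _ hS => hS.2.2.1), map_zero, eq_comm,
    sub_eq_zero] at h
  rw [← h]
  simp only [inl.injEq]

theorem top_dxo_c_vol (P : Pol N A) (i : Fin N) :
    dx (xo P) * c (inl i) (vol N A) = xo (pderiv i P) * vol N A := by
  simp only [dx_xo, Finset.sum_mul, mul_assoc, top_e_c_vol, mul_ite, mul_zero, Finset.sum_ite_eq,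
    Finset.mem_univ, if_true]

theorem top_pa_sum (F : Pol N A) (h : Fin N → Pol N A) :
    pa F (∑ i, xo (h i) * c (inl i) (vol N A)) =
      xo (∑ i, (pderiv i (h i) + pderiv i F * h i)) * vol N A := by
  rw [map_sum, xo, map_sum, map_sum, Finset.sum_mul]
  refine Finset.sum_congr rfl fun i _ => ?_
  have h1 : dx (xo F) * (xo (h i) * c (inl i) (vol N A)) =
      xo (h i) * (dx (xo F) * c (inl i) (vol N A)) := by
    rw [← mul_assoc, ← mul_assoc, xo, xo, of_comm]
  rw [pa_apply, h1, top_dxo_c_vol, xo, dx_of_mul, top_dx_c_vol, mul_zero, add_zero, ← xo,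
    top_dxo_c_vol, map_add, map_add, add_mul, mul_comm (pderiv i F), map_mul, map_mul, mul_assoc]
  rfl

theorem top_eq_sum {z : OO N A} (hz : z ∈ Sp N A fun _ b p q => b = 0 ∧ p = N - 1 ∧ q = 0) :
    ∃ h : Fin N → Pol N A, z = ∑ i, xo (h i) * c (inl i) (vol N A) := by
  have h1 : ∀ i : Fin N, ∃ P : Pol N A, e (inl i) * z = xo P * vol N A := fun i => by
    obtain ⟨P, -, hP⟩ := top_eq (Sp_mul
      (e_inl_mem (S := fun _ b p q => b = 0 ∧ p = 1 ∧ q = 0) i ⟨rfl, rfl, rfl⟩) hz
      fun a b p q a' b' p' q' h h' => by omega)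
    exact ⟨P, hP⟩
  choose h hh using h1
  refine ⟨h, ?_⟩
  have h2 : ∀ i, xo (h i) * c (inl i) (vol N A) = z - e (inl i) * c (inl i) z := fun i => by
    rw [xo, ← c_of_mul, ← xo, ← hh, c_e_mul, if_pos rfl]
  rw [Finset.sum_congr rfl fun i _ => h2 i, Finset.sum_sub_distrib,
    eu_dx (n := (N : ℤ) - 1) (Sp_mono hz fun a b p q _ _ _ _ _ _ hS => hS.2.1), Finset.sum_const,
    Finset.card_univ, Fintype.card_fin, sub_smul, one_smul, natCast_zsmul, sub_sub_cancel]

theorem exact_of_top {F P : Pol N A} {z : OO N A} (hz : z ∈ Sp N A fun _ b _ q => b = 0 ∧ q = 0)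
    (h : pa F z = xo P * vol N A) (hN : 0 < N) : Exact F P := by
  have h1 := cut_mem_of (fun _ _ p _ => p = N - 1) hz
  have h2 := sub_cut_mem_of (fun _ _ p _ => p = N - 1) hz
  generalize cut (fun _ _ p _ => p = (N : ℤ) - 1) z = z' at h1 h2
  have h3 := top_pa_mem F (Q := fun p => p = N)
    (Sp_mono h1 fun a b p q _ _ _ _ _ _ hS => by omega)
  have h4 := top_pa_mem F (Q := fun p => p ≠ N)
    (Sp_mono h2 fun a b p q _ _ _ _ _ _ hS => by omega)
  have h5 : pa F (z - z') ∈ Sp N A fun _ _ p _ => p = N := by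
    rw [map_sub, h]
    exact sub_mem (Sp_mono (xo_vol_mem P) fun a b p q _ _ _ _ _ _ hS => hS.2.1) h3
  have h6 := Sp_eq_zero (Sp_inf h5 h4) fun a b p q _ _ _ _ _ _ hS => hS.2 hS.1
  obtain ⟨g, rfl⟩ := top_eq_sum (Sp_mono h1 fun a b p q _ _ _ _ _ _ hS => by omega)
  rw [map_sub, h, top_pa_sum, ← sub_mul, xo, xo, ← map_sub, ← map_sub] at h6
  exact ⟨g, sub_eq_zero.1 (xo_vol_inj h6)⟩

theorem top_of_exact {F P : Pol N A} (h : Exact F P) :
    ∃ z ∈ Sp N A fun _ b p q => b = 0 ∧ p = N - 1 ∧ q = 0, pa F z = xo P * vol N A := by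
  obtain ⟨g, rfl⟩ := h
  refine ⟨_, sum_mem fun i _ => Sp_mul (rename_mem (g i))
    (c_inl_mem (U := fun _ b p q => b = 0 ∧ p = N - 1 ∧ q = 0) i vol_mem
      fun a b p q hS => by omega) fun a b p q a' b' p' q' h h' => by omega, top_pa_sum F g⟩

theorem mapc_vol (s : A →ₐ[ℂ] A') :
    mapc (mapAlgHom (σ := Fin N ⊕ Fin N) s) (vol N A) = vol N A' := by
  rw [vol, vol, map_list_prod, List.map_ofFn]
  exact congrArg List.prod (congrArg List.ofFn (funext fun i => mapc_e _ _))

section

variable {E : Type} [Ring E]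

theorem top_sign {m : ℕ} (ε : Fin (m + 1) → E) (h : ∀ a b, ε a * ε b = -(ε b * ε a))
    (a : Fin (m + 1)) : ε a * (List.ofFn fun j => ε (a.succAbove j)).prod =
      (-1) ^ (a : ℕ) * (List.ofFn ε).prod := by
  induction m with
  | zero =>
    obtain rfl : a = 0 := Fin.fin_one_eq_zero a
    simp
  | succ m ih =>
    refine Fin.cases ?_ (fun a => ?_) a
    · simp
    · have h1 := ih (fun j => ε j.succ) (fun a b => h _ _) a
      rw [List.ofFn_succ (f := ε), List.ofFn_succ, List.prod_cons, List.prod_cons,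
        Fin.succ_succAbove_zero, ← mul_assoc, h, neg_mul, mul_assoc]
      simp only [Fin.succ_succAbove_succ]
      rw [h1, std_sign_comm, Fin.val_succ, pow_succ, mul_neg_one, neg_mul]

theorem top_std_comm {m : ℕ} (x : E) (u : Fin m → E) (h : ∀ a, u a * x = x * u a) :
    std m u * x = x * std m u := by
  induction m with
  | zero => simp [std]
  | succ m ih =>
    rw [std_succ, Finset.sum_mul, Finset.mul_sum]
    refine Finset.sum_congr rfl fun i _ => ?_
    rw [std_sign_comm, mul_assoc, mul_assoc, ih _ fun a => h _, ← mul_assoc (u i), h, mul_assoc]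

theorem top_mul_pow {x T T' : E} (h1 : x * T = x * T') (h2 : x * T' = -(T' * x)) (n : ℕ) :
    x * T ^ n = x * T' ^ n := by
  induction n with
  | zero => rw [pow_zero, pow_zero]
  | succ n ih =>
    rw [pow_succ', pow_succ', ← mul_assoc, ← mul_assoc, h1, h2, neg_mul, neg_mul, mul_assoc, ih,
      mul_assoc]

theorem top_pow_eq_std {m : ℕ} (u ε : Fin m → E) (hu : ∀ a b, u a * ε b = ε b * u a)
    (h : ∀ a b, ε a * ε b = -(ε b * ε a)) (h0 : ∀ a, ε a * ε a = 0) :
    (∑ a, u a * ε a) ^ m = std m u * (List.ofFn ε).prod := by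
  induction m with
  | zero => simp [std]
  | succ m ih =>
    rw [pow_succ', std_succ, Finset.sum_mul, Finset.sum_mul]
    refine Finset.sum_congr rfl fun a _ => ?_
    have h1 : ε a * ∑ b, u b * ε b = ε a * ∑ j, u (a.succAbove j) * ε (a.succAbove j) := by
      rw [Fin.sum_univ_succAbove _ a, mul_add, ← mul_assoc, ← hu, mul_assoc, h0, mul_zero, zero_add]
    have h2 : ε a * ∑ j, u (a.succAbove j) * ε (a.succAbove j) =
        -((∑ j, u (a.succAbove j) * ε (a.succAbove j)) * ε a) := by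
      rw [Finset.mul_sum, Finset.sum_mul, ← Finset.sum_neg_distrib]
      exact Finset.sum_congr rfl fun j _ => by
        rw [← mul_assoc, ← hu, mul_assoc, h, mul_neg, mul_assoc]
    rw [mul_assoc, top_mul_pow h1 h2, ih (fun j => u (a.succAbove j)) (fun j => ε (a.succAbove j))
      (fun _ _ => hu _ _) (fun _ _ => h _ _) fun _ => h0 _, ← mul_assoc (ε a),
      ← top_std_comm _ _ fun _ => hu _ _, mul_assoc, top_sign ε h, std_sign_comm, std_sign_comm,
      mul_assoc, mul_assoc]

end

/-- The Chern form of a matrix factorisation is the coefficient of the volume form. -/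
theorem trace_pow_eq_ch {ι : Type} [Fintype ι] [DecidableEq ι] (par : ι → ℕ)
    (δ : Matrix ι ι (Pol N A)) :
    ∑ i, (-1) ^ par i * ((δ.map fun P => dx (xo P)) ^ N) i i = xo (ch par δ) * vol N A := by
  let f : Pol N A →+* OO N A :=
    (of : RR N A →ₐ[ℂ] OO N A).toRingHom.comp (rename (R := A) (inl : Fin N → _)).toRingHom
  have hf : ∀ P, xo P = f P := fun _ => rfl
  have h1 : (δ.map fun P => dx (xo P)) = ∑ a, f.mapMatrix (δ.map (pderiv a)) *
      Matrix.scalar ι (e (inl a) : OO N A) := by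
    ext i j
    simp only [Matrix.map_apply, dx_xo, Matrix.sum_apply, Matrix.scalar_apply, Matrix.mul_diagonal,
      RingHom.mapMatrix_apply, ← hf]
  have h2 : (List.ofFn fun a : Fin N => Matrix.scalar ι (e (inl a) : OO N A)).prod =
      Matrix.scalar ι (vol N A) := by
    rw [vol, map_list_prod, List.map_ofFn]
    rfl
  rw [h1, top_pow_eq_std, ← map_std, h2, ch_eq, std2_trace_eps, hf, map_sum, Finset.sum_mul]
  · refine Finset.sum_congr rfl fun i _ => ?_
    rw [Matrix.scalar_apply, Matrix.mul_diagonal, map_mul, map_pow, map_neg, map_one, mul_assoc]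
    rfl
  · intro a b
    ext i j
    rw [Matrix.scalar_apply, Matrix.mul_diagonal, Matrix.diagonal_mul]
    exact of_comm _ _
  · intro a b
    rw [← map_mul, ← map_mul, ← map_neg, e_mul, sg_e, neg_mul]
  · intro a
    rw [← map_mul, e_mul_e, map_zero]

end Pool.Agent.Lib.MP_e9c0f3_ag.DR
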